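import Mathlib
import Pool.Agent.SB.Res
import Pool.Agent.SB.Alg
import Pool.Agent.SB.Plan2
import Pool.Agent.SB.Mea
import Pool.Agent.SB.Key
import Pool.Agent.SB.Iter

/-!
# Power-law sub-ballistic transport for densities comparable to a uniform density

Definitions and frozen statements.
-/

set_option autoImplicit false
set_option linter.unusedSectionVars false
set_option linter.unusedSimpArgs false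

open Complex MeasureTheory Filter Topology Set ContinuousLinearMap
open scoped InnerProductSpace ENNReal NNReal

namespace Pool.SU

open Pool.NB Pool.SB

/-- the lattice -/
abbrev ZZ (d : ℕ) : Type := Fin d → ℤ

/-- unit vectors -/
def ee (d : ℕ) : Fin d → ZZ d := fun i => Pi.single i 1

variable {d : ℕ}

/-- the `ℓ¹` norm -/
def n1 (x : ZZ d) : ℕ := ∑ i, (x i).natAbs

lemma n1_zero : n1 (0 : ZZ d) = 0 := by simp [n1]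

lemma n1_neg (x : ZZ d) : n1 (-x) = n1 x := by simp [n1]

lemma n1_add (x y : ZZ d) : n1 (x + y) ≤ n1 x + n1 y := by
  unfold n1
  rw [← Finset.sum_add_distrib]
  exact Finset.sum_le_sum fun i _ => Int.natAbs_add_le _ _

lemma n1_ee (i : Fin d) : n1 (ee d i) = 1 := by
  unfold n1 ee
  rw [Finset.sum_eq_single i]
  · simp
  · intro j _ hj; simp [Pi.single_eq_of_ne hj]
  · intro h; exact absurd (Finset.mem_univ i) h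

lemma natAbs_le_n1 (x : ZZ d) (i : Fin d) : (x i).natAbs ≤ n1 x :=
  Finset.single_le_sum (f := fun i => (x i).natAbs) (fun _ _ => Nat.zero_le _) (Finset.mem_univ i)

/-- the ball of radius `L` -/
noncomputable def ball (d L : ℕ) : Finset (ZZ d) :=
  (Fintype.piFinset fun _ => Finset.Icc (-(L : ℤ)) L).filter (fun x => n1 x ≤ L)

lemma mem_ball {L : ℕ} {x : ZZ d} : x ∈ ball d L ↔ n1 x ≤ L := by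
  unfold ball
  rw [Finset.mem_filter, Fintype.mem_piFinset]
  refine ⟨fun h => h.2, fun h => ⟨fun i => ?_, h⟩⟩
  have := (natAbs_le_n1 x i).trans h
  rw [Finset.mem_Icc]
  omega

lemma ball_mono {L L' : ℕ} (h : L ≤ L') : ball d L ⊆ ball d L' := fun _ hx =>
  mem_ball.mpr ((mem_ball.mp hx).trans h)

lemma zero_mem_ball (L : ℕ) : (0 : ZZ d) ∈ ball d L := mem_ball.mpr (by rw [n1_zero]; exact Nat.zero_le _)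

lemma card_ball_le (d L : ℕ) : (ball d L).card ≤ (2 * L + 1) ^ d := by
  unfold ball
  refine (Finset.card_filter_le _ _).trans ?_
  rw [Fintype.card_piFinset_const, Int.card_Icc]
  exact le_of_eq (by congr 1; omega)

lemma X_abs_le (X : ZZ d →+ ℝ) (x : ZZ d) : |X x| ≤ (∑ i, |X (ee d i)|) * n1 x := by
  have h1 : x = ∑ i, (x i) • ee d i := by
    funext j
    rw [Finset.sum_apply, Finset.sum_eq_single j]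
    · simp [ee]
    · intro i _ hi; simp [ee, Pi.single_eq_of_ne' hi]
    · intro h; exact absurd (Finset.mem_univ j) h
  have h2 : X x = ∑ i, (x i : ℝ) * X (ee d i) := by
    conv_lhs => rw [h1]
    rw [map_sum]
    refine Finset.sum_congr rfl fun i _ => ?_
    rw [map_zsmul, zsmul_eq_mul]
  rw [h2, Finset.sum_mul]
  refine (Finset.abs_sum_le_sum_abs _ _).trans (Finset.sum_le_sum fun i _ => ?_)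
  rw [abs_mul, mul_comm]
  refine mul_le_mul_of_nonneg_left ?_ (abs_nonneg _)
  have h3 := natAbs_le_n1 x i
  have h4 : |((x i : ℤ) : ℝ)| = (((x i).natAbs : ℕ) : ℝ) := by
    rw [Nat.cast_natAbs, Int.cast_abs]
  rw [h4]
  exact_mod_cast h3
/-- `μ` has a density comparable to the uniform density on `[a,b]` -/
structure Uni (μ : Measure ℝ) (a b c C : ℝ) : Prop where
  ab : a < b
  c0 : 0 < c
  lo : ∀ A, MeasurableSet A → ENNReal.ofReal c * volume (A ∩ Icc a b) ≤ μ A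
  hi : ∀ A, MeasurableSet A → μ A ≤ ENNReal.ofReal C * volume (A ∩ Icc a b)

/-- configurations with values in `[a,b]` -/
def Om (d : ℕ) (a b : ℝ) : Set (ZZ d → ℝ) := {W | ∀ x, a ≤ W x ∧ W x ≤ b}

/-- resampling in the finite set `S` -/
def spl (S : Finset (ZZ d)) (W' W : ZZ d → ℝ) : ZZ d → ℝ := fun x => if x ∈ S then W' x else W x

/-- Green function `⟨δ_x, (H - E - iε)⁻¹ δ_y⟩` -/
noncomputable def GF (E ε : ℝ) (W : ZZ d → ℝ) (x y : ZZ d) : ℂ := Rp (ee d) E ε W (dl y) x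

/-- the vector with coordinates `q ↦ X q * GF q x` -/
noncomputable def VV (X : ZZ d →+ ℝ) (E ε : ℝ) (W : ZZ d → ℝ) (x : ZZ d) : ell (ZZ d) :=
  (X x : ℂ) • Rp (ee d) E ε W (dl x)
    - I • Rp (ee d) E ε W (Vel (ee d) X (Rp (ee d) E ε W (dl x)))

/-- `‖VV‖²` -/
noncomputable def pv (X : ZZ d →+ ℝ) (E ε : ℝ) (W : ZZ d → ℝ) (x : ZZ d) : ℝ≥0∞ :=
  ENNReal.ofReal (‖VV X E ε W x‖ ^ 2)

/-- the resonance position at `x`: `GF x x = (W x - wv x)⁻¹`, and `wv x` does not depend on `W x` -/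
noncomputable def wv (E ε : ℝ) (W : ZZ d → ℝ) (x : ZZ d) : ℂ := (W x : ℂ) - (GF E ε W x x)⁻¹

/-- good positions -/
def Gd (a b K : ℝ) : Set ℂ := {w | 0 < w.im ∧ ‖w‖ ≤ K ∧ a - K * w.im ≤ w.re ∧ w.re ≤ b + K * w.im}

/-- `E ‖T δ₀‖²` -/
noncomputable def MM (μ : Measure ℝ) (X : ZZ d →+ ℝ) (E ε : ℝ) : ℝ≥0∞ :=
  ∫⁻ W, ENNReal.ofReal (‖TT (ee d) X E ε W (dl 0)‖ ^ 2) ∂(PP (ZZ d) μ)

/-- `E ‖R₊ δ₀‖²` -/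
noncomputable def QQ (μ : Measure ℝ) (d : ℕ) (E ε : ℝ) : ℝ≥0∞ :=
  ∫⁻ W, ENNReal.ofReal (‖Rp (ee d) E ε W (dl 0)‖ ^ 2) ∂(PP (ZZ d) μ)

/-- the error functional -/
noncomputable def SE (μ : Measure ℝ) (X : ZZ d →+ ℝ) (E ε : ℝ) : ℝ≥0∞ :=
  ENNReal.ofReal (1 / ε ^ 2) * ∫⁻ W, ENNReal.ofReal (BB (ee d) X E ε W ^ 2) ∂(PP (ZZ d) μ)

/-- the determinant of the `2 × 2` block of the Green function -/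
noncomputable def DT (E ε : ℝ) (W : ZZ d → ℝ) (x y : ZZ d) : ℂ :=
  GF E ε W x x * GF E ε W y y - GF E ε W x y ^ 2

/-! ### Events -/

/-- row `0` is resonant -/
def resEv (E ε τ g : ℝ) : Set (ZZ d → ℝ) := {W | ∃ x, g ≤ ‖GF E ε W 0 x‖ * τ ^ (2 * n1 x)}

/-- bad pair -/
def evP (E ε τ κ R g : ℝ) (x : ZZ d) : Set (ZZ d → ℝ) :=
  {W | R * τ ^ (n1 x) * ‖GF E ε W x x‖ < ‖GF E ε W 0 x‖ ∧
    κ * ‖GF E ε W 0 0‖ ≤ ‖GF E ε W 0 x‖ * τ ^ (2 * n1 x) ∧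
    κ * g ≤ ‖GF E ε W 0 x‖ * τ ^ (2 * n1 x)}

/-- good pivot -/
def evG (E ε τ κ R g a b K : ℝ) (x : ZZ d) : Set (ZZ d → ℝ) :=
  {W | ‖GF E ε W 0 x‖ ≤ R * τ ^ (n1 x) * ‖GF E ε W x x‖ ∧
    κ * g ≤ ‖GF E ε W 0 x‖ * τ ^ (2 * n1 x) ∧ wv E ε W x ∈ Gd a b K}

/-- three sites close to the edges of `[a,b]` -/
def evT (E ε τ κ R g a b : ℝ) (q o o' : ZZ d) (n : ℕ) : Set (ZZ d → ℝ) :=
  {W | ‖GF E ε W 0 q‖ * τ ^ (2 * n1 q) ≤ 2 ^ (n + 1) * g ∧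
    (∀ x, ‖GF E ε W 0 x‖ * τ ^ (2 * n1 x) ≤ ‖GF E ε W 0 q‖ * τ ^ (2 * n1 q)) ∧
    ∀ x, (x = q ∨ x = q + o ∨ x = q + o') →
      |W x - a| ≤ R * τ ^ (3 * n1 q) / (κ * 2 ^ n * g) ∨
      |W x - b| ≤ R * τ ^ (3 * n1 q) / (κ * 2 ^ n * g)}

/-! ### Frozen statements -/

/-- A1: single-site inequality -/
def StmtSingle : Prop := ∀ (μ : Measure ℝ) [IsProbabilityMeasure μ] (a b c C : ℝ), Uni μ a b c C →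
  ∀ K : ℝ, 0 < K → ∃ K' : ℝ, 0 < K' ∧ ∀ w ∈ Gd a b K, ∀ (d : ℕ) (A A0 : ell (ZZ d)),
    (∫⁻ β : ℝ, ENNReal.ofReal (‖((β : ℂ) - w)⁻¹‖ ^ 2) ∂μ) * ENNReal.ofReal (‖A‖ ^ 2)
      ≤ ENNReal.ofReal K' *
        ∫⁻ β : ℝ, ENNReal.ofReal (‖((β : ℂ) - w)⁻¹ • A + star (((β : ℂ) - w)⁻¹ • A) - A0‖ ^ 2) ∂μ

/-- A3: the error functional controls the part where the resonance position is good -/
def StmtP1 : Prop := ∀ (μ : Measure ℝ) [IsProbabilityMeasure μ] (a b c C : ℝ), Uni μ a b c C →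
  ∀ (d : ℕ) (X : ZZ d →+ ℝ) (K : ℝ), 0 < K → ∃ K' : ℝ, 0 < K' ∧ ∀ E ε : ℝ, 0 < ε → ε ≤ 1 →
    ∫⁻ W in {W | wv E ε W 0 ∈ Gd a b K}, ENNReal.ofReal (‖TT (ee d) X E ε W (dl 0)‖ ^ 2)
      ∂(PP (ZZ d) μ) ≤ ENNReal.ofReal K' * SE μ X E ε

/-- A4: mass bound -/
def StmtMass : Prop := ∀ (d : ℕ) (X : ZZ d →+ ℝ) (τ : ℝ), 0 < τ → τ < 1 → ∃ K : ℝ, 0 < K ∧
  ∑' x : ZZ d, ENNReal.ofReal (τ ^ (n1 x) * (1 + (X x) ^ 2)) ≤ ENNReal.ofReal K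

/-- A5: trichotomy -/
def StmtTri : Prop := ∀ (d : ℕ) (_ : 0 < d) (a b E1 τ : ℝ), a < b → 0 ≤ E1 → 0 < τ → τ < 1 →
  ∃ κ : ℝ, 0 < κ ∧ κ ≤ 1 ∧ ∀ R g : ℝ, 1 ≤ R → R ≤ κ * g → ∀ E ε : ℝ, |E| ≤ E1 → 0 < ε → ε ≤ 1 →
    ∀ W ∈ Om d a b, W ∈ resEv E ε τ g →
      (∃ x, x ≠ 0 ∧ W ∈ evP E ε τ κ R g x) ∨
      (∃ x, W ∈ evG E ε τ κ R g a b (|a| + |b| + 1) x) ∨
      (∃ q, ∃ o ∈ ball d 4, ∃ o' ∈ ball d 4, o ≠ 0 ∧ o' ≠ 0 ∧ o ≠ o' ∧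
        ∃ n : ℕ, W ∈ evT E ε τ κ R g a b q o o' n)

/-- A6: estimate on `evP` -/
def StmtEstP : Prop := ∀ (μ : Measure ℝ) [IsProbabilityMeasure μ] (a b c C : ℝ), Uni μ a b c C →
  ∀ (d : ℕ) (κ : ℝ), 0 < κ → κ ≤ 1 → ∃ K : ℝ, 0 < K ∧ ∀ (X : ZZ d →+ ℝ) (τ R g E ε : ℝ),
    0 < τ → τ < 1 → 2 / κ ≤ R → 1 ≤ κ * g → 0 < ε → ε ≤ 1 → ∀ x : ZZ d, x ≠ 0 →
    ∫⁻ W in evP E ε τ κ R g x, pv X E ε W 0 ∂(PP (ZZ d) μ)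
      ≤ ENNReal.ofReal (K * τ ^ (n1 x) / R) *
        (∫⁻ W, pv X E ε W 0 ∂(PP (ZZ d) μ) + ∫⁻ W, pv X E ε W x ∂(PP (ZZ d) μ))

/-- A7: estimate on `evG` -/
def StmtEstG : Prop := ∀ (μ : Measure ℝ) [IsProbabilityMeasure μ] (a b c C : ℝ), Uni μ a b c C →
  ∀ (d : ℕ) (κ : ℝ), 0 < κ → κ ≤ 1 → ∃ K : ℝ, 0 < K ∧ ∀ (X : ZZ d →+ ℝ) (τ R g E ε K1 : ℝ),
    0 < τ → τ < 1 → 1 ≤ R → 1 ≤ κ * g → 0 < ε → ε ≤ 1 → ∀ x : ZZ d,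
    ∫⁻ W in evG E ε τ κ R g a b K1 x, pv X E ε W 0 ∂(PP (ZZ d) μ)
      ≤ ENNReal.ofReal (K * (R / g) * τ ^ (3 * n1 x)) * ∫⁻ W, pv X E ε W 0 ∂(PP (ZZ d) μ)
        + ENNReal.ofReal (K * R ^ 2 * τ ^ (2 * n1 x)) *
          ∫⁻ W in {W | wv E ε W x ∈ Gd a b K1}, pv X E ε W x ∂(PP (ZZ d) μ)

/-- A8: estimate on `evT` -/
def StmtEstT : Prop := ∀ (μ : Measure ℝ) [IsProbabilityMeasure μ] (a b c C : ℝ), Uni μ a b c C →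
  ∀ (d : ℕ) (κ τ : ℝ), 0 < κ → κ ≤ 1 → 0 < τ → τ < 1 → ∃ K : ℝ, 0 < K ∧
    ∀ (X : ZZ d →+ ℝ) (R g E ε : ℝ), 1 ≤ R → 1 ≤ κ * g → 0 < ε → ε ≤ 1 →
    ∀ q : ZZ d, ∀ o ∈ ball d 4, ∀ o' ∈ ball d 4, o ≠ 0 → o' ≠ 0 → o ≠ o' → ∀ n : ℕ,
    ∫⁻ W in evT E ε τ κ R g a b q o o' n, pv X E ε W 0 ∂(PP (ZZ d) μ)
      ≤ ENNReal.ofReal (K * R ^ 3 * τ ^ (5 * n1 q) / (2 ^ n * g)) *
        (∫⁻ W, pv X E ε W 0 ∂(PP (ZZ d) μ) + ∫⁻ W, pv X E ε W q ∂(PP (ZZ d) μ)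
          + ∫⁻ W, pv X E ε W (q + o) ∂(PP (ZZ d) μ) + ∫⁻ W, pv X E ε W (q + o') ∂(PP (ZZ d) μ))

/-- A9: near resonance estimate -/
def StmtP2 : Prop := ∀ (μ : Measure ℝ) [IsProbabilityMeasure μ] (a b c C : ℝ), Uni μ a b c C →
  ∀ (d : ℕ) (_ : 0 < d) (X : ZZ d →+ ℝ) (E1 τ δ : ℝ), 0 ≤ E1 → 0 < τ → τ < 1 → 0 < δ →
    ∃ g : ℝ, 1 ≤ g ∧ ∃ K : ℝ, 0 < K ∧ ∀ E ε : ℝ, |E| ≤ E1 → 0 < ε → ε ≤ 1 →
      ∫⁻ W in resEv E ε τ g, pv X E ε W 0 ∂(PP (ZZ d) μ)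
        ≤ ENNReal.ofReal δ * (MM μ X E ε + QQ μ d E ε)
          + ENNReal.ofReal K * (SE μ X E ε + QQ μ d E ε)

/-- A10: approximate eigenfunctions in the interior of the spectrum -/
def StmtEig : Prop := ∀ (d : ℕ) (_ : 0 < d) (a b E0 : ℝ), a < E0 → E0 < 4 * d + b → a < b →
  ∃ δ0 A : ℝ, 0 < δ0 ∧ 0 < A ∧ ∀ s : ℝ, 0 < s → ∃ (Λ : Finset (ZZ d)) (ψ Ws : ZZ d → ℝ) (t : ℝ),
    0 ∈ Λ ∧ ψ 0 = 1 ∧ (∀ x ∉ Λ, ψ x = 0) ∧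
    (∀ x ∉ Λ, ∑ i, (2 * ψ x - ψ (x + ee d i) - ψ (x - ee d i)) = 0) ∧
    (∀ x, a + δ0 ≤ Ws x ∧ Ws x ≤ b - δ0) ∧ ∑ x ∈ Λ, |ψ x| ≤ A ∧ 0 < t ∧ t ≤ s ∧
    (Λ.card : ℝ) ^ 2 * t ≤ s ∧
    ∑ x ∈ Λ, |∑ i, (2 * ψ x - ψ (x + ee d i) - ψ (x - ee d i)) + (Ws x - E0) * ψ x| ≤ t

/-- A11: good resonance position with positive conditional probability -/
def StmtGood : Prop := ∀ (μ : Measure ℝ) [IsProbabilityMeasure μ] (a b c C : ℝ), Uni μ a b c C →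
  ∀ (d : ℕ) (_ : 0 < d) (E0 : ℝ), a < E0 → E0 < 4 * d + b →
    ∃ Λ : Finset (ZZ d), 0 ∈ Λ ∧ ∃ θ η : ℝ, 0 < θ ∧ 0 < η ∧ ∀ E ε : ℝ, |E - E0| ≤ η → 0 < ε →
      ε ≤ η → ∀ W ∈ Om d a b, ENNReal.ofReal θ ≤
        (PP (ZZ d) μ) {W' | wv E ε (spl Λ W' W) 0 ∈ Gd a b (|a| + |b| + 1)}

/-- A12: chain of one-variable Remez inequalities -/
def StmtRemez : Prop := ∀ (μ : Measure ℝ) [IsProbabilityMeasure μ] (a b c C : ℝ), Uni μ a b c C →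
  ∀ (d : ℕ) (Λ : Finset (ZZ d)) (g θ : ℝ), 0 ∈ Λ → 0 < g → 0 < θ → ∃ K : ℝ, 0 < K ∧
    ∀ (X : ZZ d →+ ℝ) (E ε : ℝ), 0 < ε → ∀ W ∈ Om d a b,
      (∀ x ∈ Λ, ∀ y ∈ Λ, ‖GF E ε W x y‖ ≤ g) →
      ∀ B : Set (ZZ d → ℝ), MeasurableSet B → ENNReal.ofReal θ ≤ (PP (ZZ d) μ) B →
        pv X E ε W 0 ≤ ENNReal.ofReal K * ∫⁻ W' in B, pv X E ε (spl Λ W' W) 0 ∂(PP (ZZ d) μ)

/-- A13a: diagonal resonance in the box -/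
def StmtDiag : Prop := ∀ (μ : Measure ℝ) [IsProbabilityMeasure μ] (a b c C : ℝ), Uni μ a b c C →
  ∀ (d : ℕ), ∃ K : ℝ, 0 < K ∧ ∀ (X : ZZ d →+ ℝ) (B g E ε : ℝ), 1 ≤ B → 0 < g → 0 < ε →
    ∀ x : ZZ d, ∫⁻ W in {W | ‖GF E ε W 0 x‖ ≤ B ∧ g ≤ ‖GF E ε W x x‖}, pv X E ε W 0
      ∂(PP (ZZ d) μ) ≤ ENNReal.ofReal (K * B ^ 2 / g) *
        (∫⁻ W, pv X E ε W 0 ∂(PP (ZZ d) μ) + ∫⁻ W, pv X E ε W x ∂(PP (ZZ d) μ))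

/-- A13b: off-diagonal resonance in the box -/
def StmtOff : Prop := ∀ (μ : Measure ℝ) [IsProbabilityMeasure μ] (a b c C : ℝ), Uni μ a b c C →
  ∀ (d : ℕ), ∃ K : ℝ, 0 < K ∧ ∀ (X : ZZ d →+ ℝ) (B g g' E ε : ℝ), 1 ≤ B → 0 < g → 2 * g ≤ g' →
    0 < ε → ∀ x y : ZZ d, x ≠ y →
    ∫⁻ W in {W | ‖GF E ε W 0 x‖ ≤ B ∧ ‖GF E ε W 0 y‖ ≤ B ∧ ‖GF E ε W x x‖ ≤ g ∧
        ‖GF E ε W y y‖ ≤ g ∧ g' ≤ ‖GF E ε W x y‖}, pv X E ε W 0 ∂(PP (ZZ d) μ)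
      ≤ ENNReal.ofReal (K * B ^ 2 * g / g' ^ 2) *
        (∫⁻ W, pv X E ε W 0 ∂(PP (ZZ d) μ) + ∫⁻ W, pv X E ε W x ∂(PP (ZZ d) μ)
          + ∫⁻ W, pv X E ε W y ∂(PP (ZZ d) μ))

/-- A14: energies in the interior of the spectrum -/
def StmtBulk : Prop := ∀ (μ : Measure ℝ) [IsProbabilityMeasure μ] (a b c C : ℝ), Uni μ a b c C →
  ∀ (d : ℕ) (_ : 0 < d) (X : ZZ d →+ ℝ) (E0 : ℝ), a < E0 → E0 < 4 * d + b →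
    ∃ K η : ℝ, 0 < K ∧ 0 < η ∧ η ≤ 1 ∧ ∀ E ε : ℝ, |E - E0| ≤ η → 0 < ε → ε ≤ η →
      MM μ X E ε ≤ ENNReal.ofReal K * (SE μ X E ε + QQ μ d E ε)

/-- the quadratic form of `σ (H - E)` is at least `η` on vector valued functions supported in the
ball of radius `L` -/
def FormGe (σ : ℝ) (W : ZZ d → ℝ) (E η : ℝ) (L : ℕ) : Prop :=
  ∀ u : ZZ d → ell (ZZ d), (∀ x, L < n1 x → u x = 0) →
    η * ∑ x ∈ ball d L, ‖u x‖ ^ 2 ≤ σ * (∑ x ∈ ball d L, (W x + 2 * d - E) * ‖u x‖ ^ 2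
      - ∑ x ∈ ball d L, ∑ i, 2 * (⟪u x, u (x + ee d i)⟫_ℂ).re)

/-- A15: Combes-Thomas -/
def StmtCT : Prop := ∀ (d : ℕ) (X : ZZ d →+ ℝ) (σ η α E ε : ℝ) (L : ℕ) (W : ZZ d → ℝ),
  (σ = 1 ∨ σ = -1) → 0 < η → 0 < α → d * (Real.exp α - 1) ^ 2 ≤ η / 2 → 0 < ε →
  FormGe σ W E η L →
  ‖VV X E ε W 0‖ ^ 2 ≤ 8 / η ^ 2 * (∑ x ∈ ball d L, (Real.exp (-α * n1 x)) ^ 2 * (X x) ^ 2
    + (2 * d) ^ 2 * (Real.exp (-α * L)) ^ 2 *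
      ∑ y ∈ ball d (L + 1) \ ball d L, ‖VV X E ε W y‖ ^ 2)

/-- distance of the value at a site to the relevant edge: `σ = 1`: to `a`; `σ = -1`: to `b` -/
noncomputable def qv (σ a b : ℝ) (W : ZZ d → ℝ) (x : ZZ d) : ℝ := if σ = 1 then W x - a else b - W x

/-- some segment of length `2 m` in the first direction has too few good sites -/
def badSeg (σ a b : ℝ) (i0 : Fin d) (m L : ℕ) : Set (ZZ d → ℝ) :=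
  {W | ∃ y ∈ ball d (L + 2 * m), ((2 * m : ℕ) : ℤ) ∣ y i0 ∧
    ∃ S ⊆ Finset.range (2 * m), S.card = m ∧
      ∀ j ∈ S, qv σ a b W (y + (j : ℤ) • ee d i0) < 1 / (2 * (m : ℝ) ^ 2)}

/-- A16: deterministic part of the Lifshitz argument -/
def StmtLif : Prop := ∀ (d : ℕ) (i0 : Fin d) (a b σ : ℝ) (m L : ℕ), a < b → 0 < m →
  (σ = 1 ∨ σ = -1) → ∀ E : ℝ, (σ = 1 → E ≤ a + 1 / (16 * (m : ℝ) ^ 2)) →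
  (σ = -1 → 4 * d + b - 1 / (16 * (m : ℝ) ^ 2) ≤ E) →
  ∀ W ∈ Om d a b, W ∉ badSeg σ a b i0 m L → FormGe σ W E (1 / (16 * (m : ℝ) ^ 2)) L

/-- A17: probability of a bad segment -/
def StmtLifP : Prop := ∀ (μ : Measure ℝ) [IsProbabilityMeasure μ] (a b c C : ℝ), Uni μ a b c C →
  ∀ (d : ℕ) (i0 : Fin d) (σ : ℝ) (m L : ℕ), 0 < m →
    (PP (ZZ d) μ) (badSeg σ a b i0 m L)
      ≤ ENNReal.ofReal ((2 * (L + 2 * m) + 1) ^ d * (2 * C / (m : ℝ) ^ 2) ^ m)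

/-- A18: numerical choices -/
def StmtNum : Prop := ∀ d : ℕ, 0 < d → ∃ τ : ℝ, 0 < τ ∧ τ < 1 ∧ ∀ A : ℝ, 0 < A →
  ∃ (m L : ℕ) (α : ℝ), 0 < m ∧ 0 < α ∧ d * (Real.exp α - 1) ^ 2 ≤ 1 / (32 * (m : ℝ) ^ 2) ∧
    A * (m : ℝ) ^ 4 * (2 * L + 3) ^ d * (Real.exp (-α * L)) ^ 2 ≤ 1 ∧
    A * (2 * (L + 4 * m) + 1) ^ (3 * d) * (A / (m : ℝ) ^ 2) ^ m *
      ((τ ^ (2 * (L + 4 * m)))⁻¹) ^ 2 ≤ 1

/-- A19: energies near the edges or outside the spectrum -/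
def StmtEdge : Prop := ∀ (d : ℕ), 0 < d → ∃ τ : ℝ, 0 < τ ∧ τ < 1 ∧
  ∀ (μ : Measure ℝ) [IsProbabilityMeasure μ] (a b c C : ℝ), Uni μ a b c C →
  ∀ (X : ZZ d →+ ℝ) (g : ℝ), 1 ≤ g → ∃ η K : ℝ, 0 < η ∧ 0 < K ∧
    ∀ E ε : ℝ, (E ≤ a + η ∨ 4 * d + b - η ≤ E) → 0 < ε → ε ≤ 1 →
      ∫⁻ W in (resEv E ε τ g)ᶜ, pv X E ε W 0 ∂(PP (ZZ d) μ)
        ≤ ENNReal.ofReal (1 / 4) * MM μ X E ε + ENNReal.ofReal K * (QQ μ d E ε + 1)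

/-- A20: all bounded energies -/
def StmtFixed : Prop := ∀ (μ : Measure ℝ) [IsProbabilityMeasure μ] (a b c C : ℝ), Uni μ a b c C →
  ∀ (d : ℕ) (_ : 0 < d) (X : ZZ d →+ ℝ) (E1 : ℝ), 0 ≤ E1 → ∃ K ε0 : ℝ, 0 < K ∧ 0 < ε0 ∧ ε0 ≤ 1 ∧
    ∀ E ε : ℝ, |E| ≤ E1 → 0 < ε → ε ≤ ε0 →
      MM μ X E ε ≤ ENNReal.ofReal K * (SE μ X E ε + QQ μ d E ε + 1)

/-- A21: large energies -/
def StmtOut : Prop := ∀ (μ : Measure ℝ) [IsProbabilityMeasure μ] (a b c C : ℝ), Uni μ a b c C →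
  ∀ (d : ℕ) (X : ZZ d →+ ℝ), ∃ E1 K : ℝ, 0 ≤ E1 ∧ 0 < K ∧ ∀ ε : ℝ, 0 < ε → ε ≤ 1 →
    ∫⁻ E in {E : ℝ | E1 < |E|}, MM μ X E ε ≤ ENNReal.ofReal K

/-- A22: the integrated inequality -/
def StmtNI : Prop := ∀ (μ : Measure ℝ) [IsProbabilityMeasure μ] (a b c C : ℝ), Uni μ a b c C →
  ∀ (d : ℕ) (_ : 0 < d) (X : ZZ d →+ ℝ), ∃ K ε0 : ℝ, 0 < K ∧ 0 < ε0 ∧ ε0 ≤ 1 ∧
    ∀ ε : ℝ, 0 < ε → ε ≤ ε0 →
      NI μ (ee d) X ε ≤ K * (NI μ (ee d) X ε - NI μ (ee d) X (ε / 2)) + K * ε ^ 2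

/-- A23: iteration -/
def StmtSM : Prop := ∀ (μ : Measure ℝ) [IsProbabilityMeasure μ] (a b c C : ℝ), Uni μ a b c C →
  ∀ (d : ℕ) (_ : 0 < d) (X : ZZ d →+ ℝ), ∃ κ : ℝ, 0 < κ ∧ ∃ A : ℝ, ∀ t : ℝ, 1 ≤ t →
      ∫⁻ W, SM (ee d) X t W ∂(PP (ZZ d) μ) ≤ ENNReal.ofReal (A * t ^ (2 - κ))

end Pool.SU
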