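import Mathlib
import Pool.Agent.SU.Defs

/-!
# Laws with full support: definitions and frozen statements
-/

set_option autoImplicit false
set_option linter.unusedSectionVars false
set_option linter.unusedSimpArgs false
set_option linter.unusedVariables false

open Complex MeasureTheory Filter Topology Set ContinuousLinearMap
open scoped InnerProductSpace ENNReal NNReal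

namespace Pool.SU

open Pool.NB Pool.SB

variable {d : ℕ}

/-- `μ` has a bounded density which is bounded below on every bounded interval, and a power tail -/
structure Full (μ : Measure ℝ) (C : ℝ) : Prop where
  hi : ∀ A, MeasurableSet A → μ A ≤ ENNReal.ofReal C * volume A
  lo : ∀ r : ℝ, 0 < r → ∃ c : ℝ, 0 < c ∧
    ∀ A, MeasurableSet A → ENNReal.ofReal c * volume (A ∩ Icc (-r) r) ≤ μ A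
  mom : ∃ p K : ℝ, 0 < p ∧ ∀ t : ℝ, 1 ≤ t → μ {x | t ≤ |x|} ≤ ENNReal.ofReal (K * t ^ (-p))

/-- bad pair -/
def fP (E ε τ R g B : ℝ) (x : ZZ d) : Set (ZZ d → ℝ) :=
  {W | R * τ ^ (n1 x) * ‖GF E ε W x x‖ < ‖GF E ε W 0 x‖ ∧
    ‖GF E ε W 0 0‖ ≤ ‖GF E ε W 0 x‖ * τ ^ (2 * n1 x) ∧
    g ≤ ‖GF E ε W 0 x‖ * τ ^ (2 * n1 x) ∧ |W x| ≤ B ∧ |W 0| * ‖GF E ε W 0 0‖ ≤ B * ‖GF E ε W 0 x‖}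

/-! ### Frozen statements -/

/-- F1 -/
def StmtSingleF : Prop := ∀ (μ : Measure ℝ) [IsProbabilityMeasure μ] (C : ℝ), Full μ C →
  ∀ K : ℝ, 0 < K → ∃ K' : ℝ, 0 < K' ∧ ∀ w ∈ Gd (-K) K K, ∀ (d : ℕ) (A A0 : ell (ZZ d)),
    (∫⁻ β : ℝ, ENNReal.ofReal (‖((β : ℂ) - w)⁻¹‖ ^ 2) ∂μ) * ENNReal.ofReal (‖A‖ ^ 2)
      ≤ ENNReal.ofReal K' *
        ∫⁻ β : ℝ, ENNReal.ofReal (‖((β : ℂ) - w)⁻¹ • A + star (((β : ℂ) - w)⁻¹ • A) - A0‖ ^ 2) ∂μ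

/-- F2 -/
def StmtP1F : Prop := ∀ (μ : Measure ℝ) [IsProbabilityMeasure μ] (C : ℝ), Full μ C →
  ∀ (d : ℕ) (X : ZZ d →+ ℝ) (K : ℝ), 0 < K → ∃ K' : ℝ, 0 < K' ∧ ∀ E ε : ℝ, 0 < ε → ε ≤ 1 →
    ∫⁻ W in {W | wv E ε W 0 ∈ Gd (-K) K K}, ENNReal.ofReal (‖TT (ee d) X E ε W (dl 0)‖ ^ 2)
      ∂(PP (ZZ d) μ) ≤ ENNReal.ofReal K' * SE μ X E ε

/-- F3: dichotomy at the maximum of the weighted row -/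
def StmtTriF : Prop := ∀ (d : ℕ) (_ : 0 < d) (E1 τ : ℝ), 0 ≤ E1 → 0 < τ → τ < 1 →
  ∃ B : ℝ, 1 ≤ B ∧ ∀ R g : ℝ, 1 ≤ R → R ≤ g → ∀ E ε : ℝ, |E| ≤ E1 → 0 < ε → ε ≤ 1 →
    ∀ W : ZZ d → ℝ, W ∈ resEv E ε τ g →
      (∃ x, x ≠ 0 ∧ W ∈ fP E ε τ R g B x) ∨ (∃ x, W ∈ evG E ε τ 1 R g (-B) B B x)

/-- F4 -/
def StmtEstPF : Prop := ∀ (μ : Measure ℝ) [IsProbabilityMeasure μ] (C : ℝ), Full μ C →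
  ∀ (d : ℕ) (B : ℝ), 1 ≤ B → ∃ K : ℝ, 0 < K ∧ ∀ (X : ZZ d →+ ℝ) (τ R g E ε : ℝ),
    0 < τ → τ < 1 → 2 ≤ R → 1 ≤ g → 0 < ε → ε ≤ 1 → ∀ x : ZZ d, x ≠ 0 →
    ∫⁻ W in fP E ε τ R g B x, pv X E ε W 0 ∂(PP (ZZ d) μ)
      ≤ ENNReal.ofReal (K * τ ^ (n1 x) / R) *
        (∫⁻ W, pv X E ε W 0 ∂(PP (ZZ d) μ) + ∫⁻ W, pv X E ε W x ∂(PP (ZZ d) μ))

/-- F5 -/
def StmtEstGF : Prop := ∀ (μ : Measure ℝ) [IsProbabilityMeasure μ] (C : ℝ), Full μ C →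
  ∀ (d : ℕ), ∃ K : ℝ, 0 < K ∧ ∀ (X : ZZ d →+ ℝ) (τ R g E ε K1 : ℝ),
    0 < τ → τ < 1 → 1 ≤ R → R ≤ g → 0 < ε → ε ≤ 1 → ∀ x : ZZ d,
    ∫⁻ W in evG E ε τ 1 R g (-K1) K1 K1 x, pv X E ε W 0 ∂(PP (ZZ d) μ)
      ≤ ENNReal.ofReal (K * (R / g) * τ ^ (3 * n1 x)) * ∫⁻ W, pv X E ε W 0 ∂(PP (ZZ d) μ)
        + ENNReal.ofReal (K * R ^ 2 * τ ^ (2 * n1 x)) *
          ∫⁻ W in {W | wv E ε W x ∈ Gd (-K1) K1 K1}, pv X E ε W x ∂(PP (ZZ d) μ)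

/-- F6 -/
def StmtP2F : Prop := ∀ (μ : Measure ℝ) [IsProbabilityMeasure μ] (C : ℝ), Full μ C →
  ∀ (d : ℕ) (_ : 0 < d) (X : ZZ d →+ ℝ) (E1 τ δ : ℝ), 0 ≤ E1 → 0 < τ → τ < 1 → 0 < δ →
    ∃ g : ℝ, 1 ≤ g ∧ ∃ K : ℝ, 0 < K ∧ ∀ E ε : ℝ, |E| ≤ E1 → 0 < ε → ε ≤ 1 →
      ∫⁻ W in resEv E ε τ g, pv X E ε W 0 ∂(PP (ZZ d) μ)
        ≤ ENNReal.ofReal δ * (MM μ X E ε + QQ μ d E ε)
          + ENNReal.ofReal K * (SE μ X E ε + QQ μ d E ε)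

/-- F7: the resonance position is bounded with positive conditional probability -/
def StmtGoodF : Prop := ∀ (μ : Measure ℝ) [IsProbabilityMeasure μ] (C : ℝ), Full μ C →
  ∀ (d : ℕ) (_ : 0 < d) (E1 : ℝ), 0 ≤ E1 → ∃ K : ℝ, 1 ≤ K ∧ ∀ E ε : ℝ, |E| ≤ E1 → 0 < ε →
    ε ≤ 1 → ∀ W : ZZ d → ℝ, ENNReal.ofReal (1 / 2) ≤
      (PP (ZZ d) μ) {W' | wv E ε (spl (ball d 1) W' W) 0 ∈ Gd (-K) K K}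

/-- F8: chain of one-variable Remez inequalities -/
def StmtRemezF : Prop := ∀ (μ : Measure ℝ) [IsProbabilityMeasure μ] (C : ℝ), Full μ C →
  ∀ (d : ℕ) (E1 g θ : ℝ), 0 ≤ E1 → 0 < g → 0 < θ → ∃ K : ℝ, 0 < K ∧
    ∀ (X : ZZ d →+ ℝ) (E ε : ℝ), |E| ≤ E1 → 0 < ε → ε ≤ 1 → ∀ W : ZZ d → ℝ,
      (∀ x ∈ ball d 2, ∀ y ∈ ball d 2, ‖GF E ε W x y‖ ≤ g) →
      ∀ B : Set (ZZ d → ℝ), MeasurableSet B → ENNReal.ofReal θ ≤ (PP (ZZ d) μ) B →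
        pv X E ε W 0 ≤ ENNReal.ofReal K *
          ∫⁻ W' in B, pv X E ε (spl (ball d 1) W' W) 0 ∂(PP (ZZ d) μ)

/-- F9a -/
def StmtDiagF : Prop := ∀ (μ : Measure ℝ) [IsProbabilityMeasure μ] (C : ℝ), Full μ C →
  ∀ (d : ℕ) (B : ℝ), 1 ≤ B → ∃ K : ℝ, 0 < K ∧ ∀ (X : ZZ d →+ ℝ) (g E ε : ℝ), 0 < g → 0 < ε →
    ∀ x : ZZ d, ∫⁻ W in {W | ‖GF E ε W 0 x‖ ≤ B ∧ |W x| * ‖GF E ε W 0 x‖ ≤ B ∧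
      g ≤ ‖GF E ε W x x‖}, pv X E ε W 0
      ∂(PP (ZZ d) μ) ≤ ENNReal.ofReal (K / g) *
        (∫⁻ W, pv X E ε W 0 ∂(PP (ZZ d) μ) + ∫⁻ W, pv X E ε W x ∂(PP (ZZ d) μ))

/-- F9b -/
def StmtOffF : Prop := ∀ (μ : Measure ℝ) [IsProbabilityMeasure μ] (C : ℝ), Full μ C →
  ∀ (d : ℕ) (B : ℝ), 1 ≤ B → ∃ K : ℝ, 0 < K ∧ ∀ (X : ZZ d →+ ℝ) (g g' E ε : ℝ), 0 < g →
    2 * g ≤ g' → 0 < ε → ∀ x y : ZZ d, x ≠ y →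
    ∫⁻ W in {W | ‖GF E ε W 0 x‖ ≤ B ∧ |W x| * ‖GF E ε W 0 x‖ ≤ B ∧ ‖GF E ε W 0 y‖ ≤ B ∧
        |W y| * ‖GF E ε W 0 y‖ ≤ B ∧ ‖GF E ε W x x‖ ≤ g ∧
        ‖GF E ε W y y‖ ≤ g ∧ g' ≤ ‖GF E ε W x y‖}, pv X E ε W 0 ∂(PP (ZZ d) μ)
      ≤ ENNReal.ofReal (K * g / g' ^ 2) *
        (∫⁻ W, pv X E ε W 0 ∂(PP (ZZ d) μ) + ∫⁻ W, pv X E ε W x ∂(PP (ZZ d) μ)
          + ∫⁻ W, pv X E ε W y ∂(PP (ZZ d) μ))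

/-- F10: bounded energies -/
def StmtFixedF : Prop := ∀ (μ : Measure ℝ) [IsProbabilityMeasure μ] (C : ℝ), Full μ C →
  ∀ (d : ℕ) (_ : 0 < d) (X : ZZ d →+ ℝ) (E1 : ℝ), 0 ≤ E1 → ∃ K : ℝ, 0 < K ∧
    ∀ E ε : ℝ, |E| ≤ E1 → 0 < ε → ε ≤ 1 →
      MM μ X E ε ≤ ENNReal.ofReal K * (SE μ X E ε + QQ μ d E ε)

/-- F11: decoupling at high energy -/
def StmtDec : Prop := ∀ (μ : Measure ℝ) [IsProbabilityMeasure μ] (C : ℝ), Full μ C →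
  ∀ (d : ℕ) (k : ℝ), 0 < k → ∃ E1 : ℝ, 0 ≤ E1 ∧ ∀ E ε : ℝ, E1 ≤ |E| → 0 < ε → ε ≤ 1 →
    ∀ w : ℂ, 0 < w.im →
      ENNReal.ofReal k * ∫⁻ β : ℝ, ENNReal.ofReal (‖((β : ℂ) - w)⁻¹‖ ^ (1 / 2 : ℝ)) ∂μ
        ≤ ∫⁻ β : ℝ, ENNReal.ofReal (‖(β : ℂ) + 2 * d - zp E ε‖ ^ (1 / 2 : ℝ) *
            ‖((β : ℂ) - w)⁻¹‖ ^ (1 / 2 : ℝ)) ∂μ

/-- F12: fractional moments at high energy -/
def StmtFM : Prop := ∀ (μ : Measure ℝ) [IsProbabilityMeasure μ] (C : ℝ), Full μ C →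
  ∀ (d : ℕ) (_ : 0 < d), ∃ E1 K : ℝ, 0 ≤ E1 ∧ 0 < K ∧ ∀ E ε : ℝ, E1 ≤ |E| → 0 < ε → ε ≤ 1 →
    ∀ x : ZZ d, ∫⁻ W, ENNReal.ofReal (‖GF E ε W x 0‖ ^ (1 / 2 : ℝ)) ∂(PP (ZZ d) μ)
      ≤ ENNReal.ofReal (K * (1 / 4) ^ (n1 x))

/-- F13: high energies -/
def StmtHigh : Prop := ∀ (μ : Measure ℝ) [IsProbabilityMeasure μ] (C : ℝ), Full μ C →
  ∀ (d : ℕ) (_ : 0 < d) (X : ZZ d →+ ℝ), ∃ E1 K : ℝ, 0 ≤ E1 ∧ 0 < K ∧ ∀ E ε : ℝ, E1 ≤ |E| →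
    0 < ε → ε ≤ 1 → MM μ X E ε ≤ ENNReal.ofReal (K * ε ^ (-(3 / 2) : ℝ))

/-- F14: tail of the spectral measure -/
def StmtTail : Prop := ∀ (μ : Measure ℝ) [IsProbabilityMeasure μ] (C : ℝ), Full μ C →
  ∀ (d : ℕ), ∃ p K : ℝ, 0 < p ∧ 0 < K ∧ ∀ T ε : ℝ, 1 ≤ T → 0 < ε → ε ≤ 1 →
    ∫⁻ E in {E : ℝ | T < |E|}, QQ μ d E ε ≤ ENNReal.ofReal (K * T ^ (-p) / ε)

/-- F15: the integrated inequality -/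
def StmtNIF : Prop := ∀ (μ : Measure ℝ) [IsProbabilityMeasure μ] (C : ℝ), Full μ C →
  ∀ (d : ℕ) (_ : 0 < d) (X : ZZ d →+ ℝ), ∃ K p : ℝ, 0 < K ∧ 0 < p ∧
    ∀ ε : ℝ, 0 < ε → ε ≤ 1 →
      NI μ (ee d) X ε ≤ K * (NI μ (ee d) X ε - NI μ (ee d) X (ε / 2)) + K * ε ^ p

/-- F16: iteration -/
def StmtSMF : Prop := ∀ (μ : Measure ℝ) [IsProbabilityMeasure μ] (C : ℝ), Full μ C →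
  ∀ (d : ℕ) (_ : 0 < d) (X : ZZ d →+ ℝ), ∃ κ : ℝ, 0 < κ ∧ ∃ A : ℝ, ∀ t : ℝ, 1 ≤ t →
      ∫⁻ W, SM (ee d) X t W ∂(PP (ZZ d) μ) ≤ ENNReal.ofReal (A * t ^ (2 - κ))

end Pool.SU
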