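import Mathlib
import Pool.Agent.SU.FDefs

/-!
# Scaling of the law, full support
-/

set_option autoImplicit false

open MeasureTheory Set
open scoped ENNReal

namespace Pool.SU

/-- the law of `lam * ω` is in the class `Full` -/
lemma full_map (ρ : ℝ → ℝ) (C : ℝ) (h1 : ∀ x, ρ x ≤ C)
    (h2 : ∀ r : ℝ, 0 < r → ∃ c : ℝ, 0 < c ∧ ∀ x, |x| ≤ r → c ≤ ρ x)
    (p : ℝ) (hp : 0 < p) (h3 : ∫⁻ x : ℝ, ENNReal.ofReal (|x| ^ p * ρ x) ≠ ∞)
    (lam : ℝ) (hlam : lam ≠ 0) :
    ∃ C' : ℝ, Full ((volume.withDensity fun x => ENNReal.ofReal (ρ x)).map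
      (fun x => lam * x)) C' := by
  have hml : Measurable (fun x : ℝ => lam * x) := measurable_const_mul lam
  have hl : 0 < |lam| := abs_pos.mpr hlam
  have hC : 0 < C := by
    obtain ⟨c, hc, h⟩ := h2 1 one_pos
    exact lt_of_lt_of_le hc ((h 0 (by simp)).trans (h1 0))
  have hval : ∀ A : Set ℝ, MeasurableSet A →
      ((volume.withDensity fun x => ENNReal.ofReal (ρ x)).map (fun x => lam * x)) A
        = ∫⁻ x in (fun x : ℝ => lam * x) ⁻¹' A, ENNReal.ofReal (ρ x) := by
    intro A hA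
    rw [Measure.map_apply hml hA, withDensity_apply _ (hml hA)]
  have hvol : ∀ A : Set ℝ, volume ((fun x : ℝ => lam * x) ⁻¹' A)
      = ENNReal.ofReal |lam⁻¹| * volume A := fun A => Real.volume_preimage_mul_left hlam A
  refine ⟨C * |lam⁻¹|, fun A hA => ?_, fun r hr => ?_, ?_⟩
  · rw [hval A hA, ENNReal.ofReal_mul hC.le, mul_assoc, ← hvol, ← setLIntegral_const]
    exact setLIntegral_mono' (hml hA) fun x _ => ENNReal.ofReal_le_ofReal (h1 x)
  · obtain ⟨c, hc, h⟩ := h2 (r / |lam|) (by positivity)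
    refine ⟨c * |lam⁻¹|, by positivity, fun A hA => ?_⟩
    rw [hval A hA, ENNReal.ofReal_mul hc.le, mul_assoc, ← hvol, ← setLIntegral_const]
    refine (setLIntegral_mono' (hml (hA.inter measurableSet_Icc)) fun x hx => ?_).trans
      (lintegral_mono_set (preimage_mono inter_subset_left))
    have h4 : |lam * x| ≤ r := abs_le.mpr hx.2
    refine ENNReal.ofReal_le_ofReal (h x ?_)
    rw [le_div_iff₀ hl, mul_comm, ← abs_mul]
    exact h4
  · refine ⟨p, |lam| ^ p * (∫⁻ x : ℝ, ENNReal.ofReal (|x| ^ p * ρ x)).toReal, hp, fun t ht => ?_⟩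
    have ht0 : 0 < t := by linarith
    have hS : MeasurableSet {x : ℝ | t ≤ |x|} := measurableSet_le measurable_const measurable_abs
    rw [hval _ hS]
    set J := ∫⁻ x : ℝ, ENNReal.ofReal (|x| ^ p * ρ x) with hJ
    have h5 : ENNReal.ofReal ((t / |lam|) ^ p) *
        ∫⁻ x in (fun x : ℝ => lam * x) ⁻¹' {x : ℝ | t ≤ |x|}, ENNReal.ofReal (ρ x) ≤ J := by
      refine (lintegral_const_mul_le _ _).trans ?_
      refine (setLIntegral_mono' (hml hS) fun x hx => ?_).trans (setLIntegral_le_lintegral _ _)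
      beta_reduce
      rw [← ENNReal.ofReal_mul (by positivity)]
      by_cases hρ : 0 ≤ ρ x
      · apply ENNReal.ofReal_le_ofReal
        refine mul_le_mul_of_nonneg_right ?_ hρ
        refine Real.rpow_le_rpow (by positivity) ?_ hp.le
        have h6 : t ≤ |lam * x| := hx
        rw [div_le_iff₀ hl, mul_comm, ← abs_mul]
        exact h6
      · rw [ENNReal.ofReal_of_nonpos]
        · exact zero_le
        · exact mul_nonpos_of_nonneg_of_nonpos (by positivity) (not_le.mp hρ).le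
    have h7 : 0 < (t / |lam|) ^ p := by positivity
    have h8 : ∫⁻ x in (fun x : ℝ => lam * x) ⁻¹' {x : ℝ | t ≤ |x|}, ENNReal.ofReal (ρ x)
        ≤ ENNReal.ofReal (((t / |lam|) ^ p)⁻¹) * J := by
      rw [ENNReal.ofReal_inv_of_pos h7]
      rw [← ENNReal.div_eq_inv_mul, ENNReal.le_div_iff_mul_le (Or.inl (by
        rw [ENNReal.ofReal_ne_zero_iff]; exact h7)) (Or.inl ENNReal.ofReal_ne_top), mul_comm]
      exact h5
    refine h8.trans (le_of_eq ?_)
    have h9 : J = ENNReal.ofReal J.toReal := (ENNReal.ofReal_toReal h3).symm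
    conv_lhs => rw [h9]
    rw [← ENNReal.ofReal_mul (by positivity)]
    congr 1
    rw [Real.div_rpow ht0.le hl.le, Real.rpow_neg ht0.le]
    field_simp

end Pool.SU
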