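import Mathlib
import Pool.Agent.SU.Defs

/-!
# The Green function (module B1)
-/

set_option autoImplicit false
set_option linter.unusedSectionVars false
set_option linter.unusedSimpArgs false

open Complex MeasureTheory Filter Topology Set ContinuousLinearMap
open scoped InnerProductSpace ENNReal NNReal

namespace Pool.SU

open Pool.NB Pool.SB Pool.SB.AlgAux

variable {d : ℕ}

/-- the free operator in coordinates -/
lemma Dop_apply (f : ell (ZZ d)) (x : ZZ d) :
    Dop (ee d) f x = ∑ i, (2 * f x - f (x - ee d i) - f (x + ee d i)) := by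
  have h3 : Dop (ee d) f x = ∑ i, (((2 : ℂ) • (1 : ell (ZZ d) →L[ℂ] ell (ZZ d))
      - T (ee d i) - T (-ee d i)) f) x := by
    unfold Dop
    rw [sum_apply, lp.coeFn_sum, Finset.sum_apply]
  rw [h3]
  refine Finset.sum_congr rfl fun i _ => ?_
  show 2 * f x - f (x - ee d i) - f (x - -ee d i) = _
  rw [sub_neg_eq_add]

theorem GF_symm {E ε : ℝ} (hε : 0 < ε) (W : ZZ d → ℝ) (x y : ZZ d) :
    GF E ε W x y = GF E ε W y x := by
  have h1 : ∀ (z : ZZ d) (f : ell (ZZ d)), f z = bl (dl z) f := by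
    intro z f; unfold bl; rw [star_dl, inner_dl]
  unfold GF Rp
  rw [h1 x, bl_R (ee d) W (zp_ne hε), bl_symm, h1 y]

theorem GF_norm_le {E ε : ℝ} (hε : 0 < ε) (W : ZZ d → ℝ) (x y : ZZ d) :
    ‖GF E ε W x y‖ ≤ 1 / ε := by
  have h1 : ‖GF E ε W x y‖ ≤ ‖Rp (ee d) E ε W (dl y)‖ := by
    unfold GF
    exact lp.norm_apply_le_norm (by norm_num) _ x
  have h2 := Rp_norm (e := ee d) (E := E) (W := W) hε (dl y)
  rw [dl_norm] at h2
  rw [le_div_iff₀ hε]
  nlinarith

theorem GF_im {E ε : ℝ} (hε : 0 < ε) (W : ZZ d → ℝ) (x : ZZ d) :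
    (GF E ε W x x).im = ε * ‖Rp (ee d) E ε W (dl x)‖ ^ 2 := by
  have := R_im (ee d) W (z := zp E ε) (zp_ne hε) (dl x)
  rw [inner_dl, zp_im] at this
  exact this

lemma Rp_dl_ne {E ε : ℝ} (hε : 0 < ε) (W : ZZ d → ℝ) (x : ZZ d) :
    Rp (ee d) E ε W (dl x) ≠ 0 := by
  intro h
  have h1 := R_eq (ee d) W (z := zp E ε) (zp_ne hε) (dl x) x
  have h2 : R (ee d) W (zp E ε) (dl x) = 0 := h
  rw [h2, map_zero, dl_apply] at h1
  simp at h1

theorem GF_im_pos {E ε : ℝ} (hε : 0 < ε) (W : ZZ d → ℝ) (x : ZZ d) :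
    0 < (GF E ε W x x).im := by
  rw [GF_im hε]
  have : 0 < ‖Rp (ee d) E ε W (dl x)‖ := norm_pos_iff.mpr (Rp_dl_ne hε W x)
  positivity

theorem GF_ne {E ε : ℝ} (hε : 0 < ε) (W : ZZ d → ℝ) (x : ZZ d) : GF E ε W x x ≠ 0 := by
  intro h
  have := GF_im_pos (E := E) hε W x
  rw [h] at this
  simp at this

theorem GF_eqn {E ε : ℝ} (hε : 0 < ε) (W : ZZ d → ℝ) (x y : ZZ d) :
    ((W x : ℂ) + 2 * d - zp E ε) * GF E ε W x y
      - ∑ i, (GF E ε W (x + ee d i) y + GF E ε W (x - ee d i) y) = if x = y then 1 else 0 := by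
  have h1 := R_eq (ee d) W (z := zp E ε) (zp_ne hε) (dl y) x
  rw [Dop_apply, dl_apply] at h1
  rw [← h1]
  have h2 : ∑ i, (2 * R (ee d) W (zp E ε) (dl y) x - R (ee d) W (zp E ε) (dl y) (x - ee d i)
      - R (ee d) W (zp E ε) (dl y) (x + ee d i))
      = 2 * d * R (ee d) W (zp E ε) (dl y) x - ∑ i, (R (ee d) W (zp E ε) (dl y) (x + ee d i)
        + R (ee d) W (zp E ε) (dl y) (x - ee d i)) := by
    have h3 : (2 : ℂ) * d * R (ee d) W (zp E ε) (dl y) x
        = ∑ _i : Fin d, (2 * R (ee d) W (zp E ε) (dl y) x) := by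
      rw [Finset.sum_const, Finset.card_univ, Fintype.card_fin, nsmul_eq_mul]; ring
    rw [h3, ← Finset.sum_sub_distrib]
    refine Finset.sum_congr rfl fun i _ => ?_
    ring
  rw [h2]
  unfold GF Rp
  ring

lemma sh_update (W : ZZ d → ℝ) (x : ZZ d) (b : ℝ) :
    sh x (Function.update W x b) = Function.update (sh x W) 0 b := by
  funext z
  by_cases hz : z = 0
  · subst hz
    rw [Function.update_self]
    show Function.update W x b (0 + x) = b
    rw [zero_add, Function.update_self]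
  · rw [Function.update_of_ne hz]
    show Function.update W x b (z + x) = W (z + x)
    rw [Function.update_of_ne]
    intro h
    apply hz
    simpa using h

lemma Rp_T {E ε : ℝ} (hε : 0 < ε) (W : ZZ d → ℝ) (g : ZZ d) (f : ell (ZZ d)) :
    Rp (ee d) E ε W (T g f) = T g (Rp (ee d) E ε (sh g W) f) :=
  R_cov (ee d) W (zp_ne hε) g f

theorem Rp_upd {E ε : ℝ} (hε : 0 < ε) (W : ZZ d → ℝ) (x : ZZ d) (b : ℝ) (f : ell (ZZ d)) :
    Rp (ee d) E ε (Function.update W x b) f = Rp (ee d) E ε W f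
      - (((b - W x : ℝ) : ℂ) * Rp (ee d) E ε (Function.update W x b) f x) •
        Rp (ee d) E ε W (dl x) := by
  have h0 : f = T x (T (-x) f) := (T_T_neg x f).symm
  have hW : sh x W = Function.update (sh x W) 0 (W x) := by
    funext z
    by_cases hz : z = 0
    · subst hz; rw [Function.update_self]; show W (0 + x) = W x; rw [zero_add]
    · rw [Function.update_of_ne hz]
  have h1 := R_update (ee d) (sh x W) (W x) b (z := zp E ε) (zp_ne hε) (T (-x) f)
  rw [← hW] at h1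
  have h2 : ∀ (W' : ZZ d → ℝ), R (ee d) (sh x W') (zp E ε) (T (-x) f)
      = T (-x) (Rp (ee d) E ε W' f) := by
    intro W'
    have := Rp_T (E := E) hε W' x (T (-x) f)
    rw [T_T_neg] at this
    rw [this, T_neg_T]; rfl
  have h3 : R (ee d) (sh x W) (zp E ε) (dl 0) = T (-x) (Rp (ee d) E ε W (dl x)) := by
    have := Rp_T (E := E) hε W x (dl 0)
    rw [T_dl, zero_add] at this
    rw [this, T_neg_T]; rfl
  rw [← sh_update, h2, h2, h3] at h1
  have h4 := congrArg (T x) h1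
  rw [map_sub, map_smul, T_T_neg, T_T_neg, T_T_neg] at h4
  have h5 : T (-x) (Rp (ee d) E ε (Function.update W x b) f) 0
      = Rp (ee d) E ε (Function.update W x b) f x := by
    rw [T_apply, sub_neg_eq_add, zero_add]
  rw [h5] at h4
  exact h4

theorem GF_upd {E ε : ℝ} (hε : 0 < ε) (W : ZZ d → ℝ) (x : ZZ d) (b : ℝ) (y z : ZZ d) :
    GF E ε (Function.update W x b) y z = GF E ε W y z
      - ((b - W x : ℝ) : ℂ) * GF E ε (Function.update W x b) x z * GF E ε W y x := by
  have h1 := congrArg (fun f : ell (ZZ d) => f y) (Rp_upd (E := E) hε W x b (dl z))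
  simp only [lp.coeFn_sub, Pi.sub_apply, lp.coeFn_smul, Pi.smul_apply, smul_eq_mul] at h1
  exact h1

lemma spl_insert {S : Finset (ZZ d)} {x : ZZ d} (W' W : ZZ d → ℝ) :
    spl (insert x S) W' W = Function.update (spl S W' W) x (W' x) := by
  funext z
  by_cases hz : z = x
  · subst hz; rw [Function.update_self]; simp [spl]
  · rw [Function.update_of_ne hz]
    simp [spl, hz]

/-- resampled resolvent -/
theorem Rp_spl {E ε : ℝ} (hε : 0 < ε) (S : Finset (ZZ d)) (W' W : ZZ d → ℝ) (f : ell (ZZ d)) :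
    Rp (ee d) E ε W f = Rp (ee d) E ε (spl S W' W) f
      + ∑ q ∈ S, (((W' q - W q : ℝ) : ℂ) * Rp (ee d) E ε W f q) •
        Rp (ee d) E ε (spl S W' W) (dl q) := by
  induction S using Finset.induction_on with
  | empty =>
    have : spl (∅ : Finset (ZZ d)) W' W = W := by funext z; simp [spl]
    rw [this]; simp
  | insert x S hx ih =>
    set W1 := spl S W' W with hW1
    have hW1x : W1 x = W x := by simp [hW1, spl, hx]
    have hback : W1 = Function.update (spl (insert x S) W' W) x (W x) := by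
      rw [spl_insert, ← hW1, Function.update_idem]
      funext z
      by_cases hz : z = x
      · subst hz; rw [Function.update_self]; exact hW1x
      · rw [Function.update_of_ne hz]
    have hx1 : spl (insert x S) W' W x = W' x := by simp [spl]
    set W2 := spl (insert x S) W' W with hW2
    -- W1 in terms of W2
    have hk : ∀ g : ell (ZZ d), Rp (ee d) E ε W1 g = Rp (ee d) E ε W2 g
        + (((W' x - W x : ℝ) : ℂ) * Rp (ee d) E ε W1 g x) • Rp (ee d) E ε W2 (dl x) := by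
      intro g
      have h1 := Rp_upd (E := E) hε W2 x (W x) g
      rw [← hback, hx1] at h1
      have h2 : ((W x - W' x : ℝ) : ℂ) = -((W' x - W x : ℝ) : ℂ) := by push_cast; ring
      rw [h2, neg_mul, neg_smul, sub_neg_eq_add] at h1
      exact h1
    rw [Finset.sum_insert hx]
    -- the coefficient at `x`
    have hcx : Rp (ee d) E ε W f x = Rp (ee d) E ε W1 f x
        + ∑ q ∈ S, (((W' q - W q : ℝ) : ℂ) * Rp (ee d) E ε W f q) *
          Rp (ee d) E ε W1 (dl q) x := by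
      have h1 := congrArg (fun g : ell (ZZ d) => g x) ih
      simp only [lp.coeFn_add, Pi.add_apply, lp.coeFn_sum, Finset.sum_apply, lp.coeFn_smul,
        Pi.smul_apply, smul_eq_mul] at h1
      exact h1
    calc Rp (ee d) E ε W f = Rp (ee d) E ε W1 f
          + ∑ q ∈ S, (((W' q - W q : ℝ) : ℂ) * Rp (ee d) E ε W f q) •
            Rp (ee d) E ε W1 (dl q) := ih
      _ = (Rp (ee d) E ε W2 f + (((W' x - W x : ℝ) : ℂ) * Rp (ee d) E ε W1 f x) •
            Rp (ee d) E ε W2 (dl x))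
          + ∑ q ∈ S, (((W' q - W q : ℝ) : ℂ) * Rp (ee d) E ε W f q) •
            (Rp (ee d) E ε W2 (dl q) + (((W' x - W x : ℝ) : ℂ) * Rp (ee d) E ε W1 (dl q) x) •
              Rp (ee d) E ε W2 (dl x)) := by
          have h6 : ∑ q ∈ S, (((W' q - W q : ℝ) : ℂ) * Rp (ee d) E ε W f q) •
              Rp (ee d) E ε W1 (dl q)
              = ∑ q ∈ S, (((W' q - W q : ℝ) : ℂ) * Rp (ee d) E ε W f q) •
                (Rp (ee d) E ε W2 (dl q) + (((W' x - W x : ℝ) : ℂ) *
                  Rp (ee d) E ε W1 (dl q) x) • Rp (ee d) E ε W2 (dl x)) :=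
            Finset.sum_congr rfl fun q _ =>
              congrArg (fun v => (((W' q - W q : ℝ) : ℂ) * Rp (ee d) E ε W f q) • v) (hk (dl q))
          exact congrArg₂ (fun u v => u + v) (hk f) h6
      _ = Rp (ee d) E ε W2 f + ((((W' x - W x : ℝ) : ℂ) * Rp (ee d) E ε W f x) •
            Rp (ee d) E ε W2 (dl x)
          + ∑ q ∈ S, (((W' q - W q : ℝ) : ℂ) * Rp (ee d) E ε W f q) •
            Rp (ee d) E ε W2 (dl q)) := by
          rw [hcx]
          simp_rw [smul_add, smul_smul]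
          rw [Finset.sum_add_distrib, ← Finset.sum_smul (s := S), mul_add, add_smul, Finset.mul_sum]
          have h5 : ∑ q ∈ S, ((W' x - W x : ℝ) : ℂ) * (((W' q - W q : ℝ) : ℂ) *
              Rp (ee d) E ε W f q * Rp (ee d) E ε W1 (dl q) x)
              = ∑ q ∈ S, ((W' q - W q : ℝ) : ℂ) * Rp (ee d) E ε W f q *
                (((W' x - W x : ℝ) : ℂ) * Rp (ee d) E ε W1 (dl q) x) :=
            Finset.sum_congr rfl fun q _ => by ring
          rw [h5]
          abel

theorem GF_spl {E ε : ℝ} (hε : 0 < ε) (S : Finset (ZZ d)) (W' W : ZZ d → ℝ) (y z : ZZ d) :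
    GF E ε W y z = GF E ε (spl S W' W) y z
      + ∑ q ∈ S, ((W' q - W q : ℝ) : ℂ) * GF E ε W q z * GF E ε (spl S W' W) y q := by
  have h1 := congrArg (fun g : ell (ZZ d) => g y) (Rp_spl (E := E) hε S W' W (dl z))
  simp only [lp.coeFn_add, Pi.add_apply, lp.coeFn_sum, Finset.sum_apply, lp.coeFn_smul,
    Pi.smul_apply, smul_eq_mul] at h1
  exact h1

lemma hpair {G : Type*} (E : ℝ) : Measurable (fun W : G → ℝ => ((E, W) : ℝ × (G → ℝ))) :=
  measurable_const.prodMk measurable_id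

lemma Rp_sm_gen {G κ : Type*} [AddCommGroup G] [DecidableEq G] [Countable G] [Fintype κ]
    (e : κ → G) (E : ℝ) {ε : ℝ} (hε : 0 < ε) (f : ell G) :
    StronglyMeasurable (fun W : G → ℝ => Rp e E ε W f) := by
  have h1 : StronglyMeasurable (fun p : ℝ × (G → ℝ) => Rp e p.1 ε p.2 f) := (Rp_ME e hε).sm f
  have h2 := h1.comp_measurable (hpair E)
  exact h2

lemma TT_sm_gen {G κ : Type*} [AddCommGroup G] [DecidableEq G] [Countable G] [Fintype κ]
    (e : κ → G) (X : G →+ ℝ) (E : ℝ) {ε : ℝ} (hε : 0 < ε) (f : ell G) :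
    StronglyMeasurable (fun W : G → ℝ => TT e X E ε W f) := by
  have h1 : StronglyMeasurable (fun p : ℝ × (G → ℝ) => TT e X p.1 ε p.2 f) := (TT_ME e X hε).sm f
  have h2 := h1.comp_measurable (hpair E)
  exact h2

lemma RvR_sm_gen {G κ : Type*} [AddCommGroup G] [DecidableEq G] [Countable G] [Fintype κ]
    (e : κ → G) (X : G →+ ℝ) (E : ℝ) {ε : ℝ} (hε : 0 < ε) (f : ell G) :
    StronglyMeasurable (fun W : G → ℝ => Rp e E ε W (Vel e X (Rp e E ε W f))) := by
  have h1 : StronglyMeasurable (fun p : ℝ × (G → ℝ) =>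
      Rp e p.1 ε p.2 (Vel e X (Rp e p.1 ε p.2 f))) :=
    ((Rp_ME e hε).comp ((ME.const (Vel e X)).comp (Rp_ME e hε))).sm f
  have h2 := h1.comp_measurable (hpair E)
  exact h2

lemma Rp_dl_sm (E : ℝ) {ε : ℝ} (hε : 0 < ε) (y : ZZ d) :
    StronglyMeasurable (fun W : ZZ d → ℝ => Rp (ee d) E ε W (dl y)) :=
  Rp_sm_gen (ee d) E hε (dl y)

theorem GF_meas (E : ℝ) {ε : ℝ} (hε : 0 < ε) (x y : ZZ d) :
    Measurable (fun W : ZZ d → ℝ => GF E ε W x y) := by
  have h3 : (fun W : ZZ d → ℝ => GF E ε W x y)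
      = fun W => inner ℂ (dl x) (Rp (ee d) E ε W (dl y)) := by
    funext W; rw [inner_dl]; rfl
  rw [h3]
  exact (stronglyMeasurable_const.inner (Rp_dl_sm E hε y)).measurable

theorem GF_sh {E ε : ℝ} (hε : 0 < ε) (W : ZZ d → ℝ) (g x y : ZZ d) :
    GF E ε W (x + g) (y + g) = GF E ε (sh g W) x y := by
  unfold GF
  rw [← T_dl, Rp_T hε, T_apply, add_sub_cancel_right]

theorem Rp_sh {E ε : ℝ} (hε : 0 < ε) (W : ZZ d → ℝ) (x : ZZ d) :
    ‖Rp (ee d) E ε W (dl x)‖ = ‖Rp (ee d) E ε (sh x W) (dl 0)‖ := by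
  have h1 : (dl x : ell (ZZ d)) = T x (dl 0) := by rw [T_dl, zero_add]
  rw [h1, Rp_T hε, T_norm]

end Pool.SU
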