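import Mathlib
import Pool.Agent.SB.Res
import Pool.Agent.SB.Loc
import Pool.Agent.SU.Green

/-!
# Rank one algebra at the origin, with the resonance position exposed (module B6)
-/

set_option autoImplicit false
set_option linter.unusedSectionVars false
set_option linter.unusedSimpArgs false

open Complex MeasureTheory Filter Topology Set ContinuousLinearMap
open scoped InnerProductSpace ENNReal

namespace Pool.SU

open Pool.NB Pool.SB

section gen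

variable {G : Type*} [AddCommGroup G] [DecidableEq G] {κ : Type*} [Fintype κ]

theorem loc' (e : κ → G) (X : G →+ ℝ) (W : G → ℝ) (E : ℝ) {ε : ℝ} (hε : 0 < ε) :
    ∃ (w : ℂ) (β : ℝ) (C : G → ell G) (s : G → ℝ),
      w = -(Rp e E ε (Function.update W 0 0) (dl 0) 0)⁻¹ ∧ 0 ≤ β ∧ (∀ y, 0 ≤ s y) ∧ s 0 = 1 ∧
      (∀ b : ℝ, ‖TT e X E ε (Function.update W 0 b) (dl 0)‖ ^ 2
        ≤ ‖((b : ℂ) - w)⁻¹‖ ^ 2 * β ^ 2 + 3 * cm e X E ε (Function.update W 0 b) ^ 2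
          + 2 * cp e X E ε (Function.update W 0 b) ^ 2) ∧
      (∀ (b b' : ℝ) (y : G), SS e X E ε (Function.update W 0 b) (dl y)
          - SS e X E ε (Function.update W 0 b') (dl y)
        = (((b : ℂ) - w)⁻¹ - ((b' : ℂ) - w)⁻¹) • C y
          + star ((((b : ℂ) - w)⁻¹ - ((b' : ℂ) - w)⁻¹) • C y)) ∧
      (∀ y, s y * β ≤ ‖C y‖) := by
  classical
  have hzp : (zp E ε).im ≠ 0 := by rw [zp_im]; exact hε.ne'
  have hzm : (zm E ε).im ≠ 0 := by rw [zm_im]; exact (neg_lt_zero.mpr hε).ne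
  set δ : ell G := dl 0 with hδ
  have hδs : star δ = δ := star_dl 0
  set v := Vel e X with hv
  let Wb : ℝ → G → ℝ := fun b => Function.update W 0 b
  let r : ℝ → ell G := fun b => Rp e E ε (Wb b) δ
  let h : ℝ → ℂ := fun b => r b 0
  have hcoord : ∀ f : ell G, f 0 = ⟪δ, f⟫_ℂ := fun f => (inner_dl 0 f).symm
  -- adjoints and conjugation
  have hpm : ∀ (b : ℝ) (f g : ell G), ⟪Rp e E ε (Wb b) f, g⟫_ℂ = ⟪f, Rm e E ε (Wb b) g⟫_ℂ := by
    intro b f g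
    have := R_inner e (Wb b) hzp f g
    rwa [conj_zp] at this
  have hmp : ∀ (b : ℝ) (f g : ell G), ⟪Rm e E ε (Wb b) f, g⟫_ℂ = ⟪f, Rp e E ε (Wb b) g⟫_ℂ := by
    intro b f g
    have := R_inner e (Wb b) hzm f g
    rwa [conj_zm] at this
  have hsp : ∀ (b : ℝ) (f : ell G), star (Rp e E ε (Wb b) f) = Rm e E ε (Wb b) (star f) := by
    intro b f
    have := R_star e (Wb b) hzp f
    rwa [conj_zp] at this
  have hsm : ∀ (b : ℝ) (f : ell G), star (Rm e E ε (Wb b) f) = Rp e E ε (Wb b) (star f) := by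
    intro b f
    have := R_star e (Wb b) hzm f
    rwa [conj_zm] at this
  -- imaginary part
  have him : ∀ b, (h b).im = ε * ‖r b‖ ^ 2 := by
    intro b
    have := R_im e (Wb b) hzp δ
    rw [zp_im] at this
    show (r b 0).im = _
    rw [hcoord]
    exact this
  have hrne : ∀ b, r b ≠ 0 := fun b => R_ne e (Wb b) hzp
  have hhne : ∀ b, h b ≠ 0 := by
    intro b hb
    have h1 := him b
    rw [hb, Complex.zero_im] at h1
    have h2 : 0 < ‖r b‖ := norm_pos_iff.mpr (hrne b)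
    have h3 : 0 < ε * ‖r b‖ ^ 2 := by positivity
    linarith
  -- rank one update
  have hupd : ∀ (b : ℝ) (f : ell G), Rp e E ε (Wb b) f
      = Rp e E ε (Wb 0) f - ((b : ℂ) * Rp e E ε (Wb b) f 0) • r 0 := by
    intro b f
    have := R_update e W 0 b hzp f
    rw [sub_zero] at this
    exact this
  have hh : ∀ b, h b = h 0 - b * h b * h 0 := by
    intro b
    have h1 := congrArg (fun f : ell G => f 0) (hupd b δ)
    simp only [lp.coeFn_sub, Pi.sub_apply, lp.coeFn_smul, Pi.smul_apply, smul_eq_mul] at h1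
    exact h1
  obtain ⟨w, hw⟩ : ∃ w : ℂ, w = -(h 0)⁻¹ := ⟨_, rfl⟩
  have hinv : ∀ b : ℝ, h b = ((b : ℂ) - w)⁻¹ := by
    intro b
    have h1 := hh b
    have h2 : h b * ((b : ℂ) - w) = 1 := by
      rw [hw]
      have h3 := hhne 0
      field_simp
      linear_combination h1
    exact eq_inv_of_mul_eq_one_left h2
  have h0w : h 0 = (-w)⁻¹ := by rw [hw, neg_neg, inv_inv]
  obtain ⟨ζ, hζ⟩ : ∃ ζ : ell G, ζ = (h 0)⁻¹ • r 0 := ⟨_, rfl⟩
  have hr : ∀ b, r b = h b • ζ := by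
    intro b
    have h1 := hupd b δ
    have h2 : r b = (1 - b * h b) • r 0 := by
      rw [sub_smul, one_smul]; exact h1
    rw [h2, hζ, smul_smul]
    congr 1
    have h3 := hhne 0
    have h4 := hh b
    field_simp
    linear_combination -h4
  have hζ0 : ζ 0 = 1 := by
    rw [hζ, lp.coeFn_smul, Pi.smul_apply, smul_eq_mul]
    exact inv_mul_cancel₀ (hhne 0)
  have hζne : ζ ≠ 0 := by
    intro h1; rw [h1] at hζ0; simp at hζ0
  have hζnorm : 1 ≤ ‖ζ‖ := by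
    have h1 : ‖ζ 0‖ ^ 2 ≤ ‖ζ‖ ^ 2 := by
      have := ell_sum_le ζ {0}
      simpa using this
    rw [hζ0, norm_one] at h1
    nlinarith [norm_nonneg ζ]
  have hwim : w.im = ε * ‖ζ‖ ^ 2 := by
    have h1 : w.im = (h 0).im / Complex.normSq (h 0) := by
      rw [hw, Complex.neg_im, Complex.inv_im]; ring
    have h2 : ‖ζ‖ ^ 2 = ‖r 0‖ ^ 2 / Complex.normSq (h 0) := by
      rw [hζ, norm_smul, norm_inv, mul_pow, Complex.normSq_eq_norm_sq]
      field_simp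
    rw [h1, h2, him 0]; ring
  have hηpos : 0 < w.im := by
    rw [hwim]; have : 0 < ‖ζ‖ := by linarith
    positivity
  obtain ⟨η, hη⟩ : ∃ η : ℝ, η = w.im := ⟨_, rfl⟩
  rw [← hη] at hwim hηpos
  have hζs : ‖star ζ‖ = ‖ζ‖ := norm_star ζ
  have hζsne : star ζ ≠ 0 := by
    intro h1; apply hζne; rw [← star_star ζ, h1, star_zero]
  obtain ⟨m, hm⟩ : ∃ m : ℂ, m = ⟪ζ, v ζ⟫_ℂ := ⟨_, rfl⟩
  -- full rank one formulas
  have hRp : ∀ (b : ℝ) (f : ell G), Rp e E ε (Wb b) f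
      = Rp e E ε (Wb 0) f + ((h b - h 0) * ⟪star ζ, f⟫_ℂ) • ζ := by
    intro b f
    have h1 := hupd b f
    have h2 : Rp e E ε (Wb b) f 0 = h b * ⟪star ζ, f⟫_ℂ := by
      rw [hcoord, ← hmp b δ f]
      have h3 : Rm e E ε (Wb b) δ = (starRingEnd ℂ) (h b) • star ζ := by
        have := hsp b δ
        rw [hδs] at this
        rw [← this]
        show star (r b) = _
        rw [hr b, star_smul]; rfl
      rw [h3, inner_smul_left, Complex.conj_conj]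
    rw [h1, h2]
    have h4 : r 0 = h 0 • ζ := hr 0
    rw [h4, smul_smul]
    have h5 := hh b
    have h6 : (b : ℂ) * (h b * ⟪star ζ, f⟫_ℂ) * h 0 = -((h b - h 0) * ⟪star ζ, f⟫_ℂ) := by
      linear_combination (⟪star ζ, f⟫_ℂ) * h5
    rw [h6, neg_smul, sub_neg_eq_add]
  have hRm : ∀ (b : ℝ) (f : ell G), Rm e E ε (Wb b) f
      = Rm e E ε (Wb 0) f + ((starRingEnd ℂ) (h b - h 0) * ⟪ζ, f⟫_ℂ) • star ζ := by
    intro b f
    have h1 := congrArg star (hRp b (star f))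
    rw [hsp, star_star, star_add, hsp, star_star, star_smul] at h1
    rw [h1]
    congr 2
    rw [Complex.star_def, map_mul]
    congr 1
    rw [inner_star_star, inner_conj_symm]
  -- the vector u
  obtain ⟨α, hα⟩ : ∃ α : ℂ, α = 1 / (2 * I * η) - (starRingEnd ℂ) (h 0) := ⟨_, rfl⟩
  obtain ⟨u, hu⟩ : ∃ u : ell G, u = Rm e E ε (Wb 0) (v ζ) + (α * m) • star ζ := ⟨_, rfl⟩
  have hanti : ⟪star ζ, v ζ⟫_ℂ = 0 := Vel_antisymm e X ζ
  -- orthogonality
  have hstar0 : star ζ = ((starRingEnd ℂ) (h 0))⁻¹ • Rm e E ε (Wb 0) δ := by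
    rw [hζ, star_smul, Complex.star_def, map_inv₀]
    congr 1
    show star (Rp e E ε (Wb 0) δ) = _
    rw [hsp, hδs]
  have hpmδ : Rp e E ε (Wb 0) (Rm e E ε (Wb 0) δ)
      = (1 / (2 * I * ε)) • (h 0 • ζ - (starRingEnd ℂ) (h 0) • star ζ) := by
    have h1 := congrArg (fun A : ell G →L[ℂ] ell G => A δ) (R_sub e (Wb 0) hzp hzm)
    simp only [sub_apply, smul_apply, ContinuousLinearMap.comp_apply] at h1
    have h2 : zp E ε - zm E ε = 2 * I * ε := by unfold zp zm; ring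
    rw [h2] at h1
    have h3 : R e (Wb 0) (zp E ε) δ = h 0 • ζ := hr 0
    have h4 : R e (Wb 0) (zm E ε) δ = (starRingEnd ℂ) (h 0) • star ζ := by
      rw [hstar0, smul_smul, mul_inv_cancel₀ (by simpa using hhne 0), one_smul]; rfl
    have h5 : (2 * I * (ε : ℂ)) ≠ 0 := by simp [hε.ne']
    show R e (Wb 0) (zp E ε) (R e (Wb 0) (zm E ε) δ) = _
    rw [← h4, ← h3, h1, smul_smul, one_div, inv_mul_cancel₀ h5, one_smul]
  have hζsq : (⟪star ζ, star ζ⟫_ℂ) = ((η / ε : ℝ) : ℂ) := by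
    rw [inner_self_eq_norm_sq_to_K, hζs, hwim]
    have : ε * ‖ζ‖ ^ 2 / ε = ‖ζ‖ ^ 2 := by field_simp
    rw [this]; push_cast; rfl
  have h2iη : (2 : ℂ) * I * η = w - (starRingEnd ℂ) w := by
    rw [Complex.sub_conj, hη]; push_cast; ring
  have hwne : w ≠ 0 := by
    intro h1; rw [h1] at hη; rw [hη] at hηpos; simp at hηpos
  have horth : ⟪star ζ, u⟫_ℂ = 0 := by
    rw [hu, inner_add_right, inner_smul_right, hζsq, ← hpm 0]
    have h1 : Rp e E ε (Wb 0) (star ζ) = (((starRingEnd ℂ) (h 0))⁻¹ * (1 / (2 * I * ε))) •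
        (h 0 • ζ - (starRingEnd ℂ) (h 0) • star ζ) := by
      conv_lhs => rw [hstar0]
      rw [map_smul, hpmδ, smul_smul]
    rw [h1, inner_smul_left, inner_sub_left, inner_smul_left, inner_smul_left, hanti, ← hm, hα]
    have hc : (starRingEnd ℂ) w ≠ 0 := by simpa using hwne
    have hεc : (ε : ℂ) ≠ 0 := by exact_mod_cast hε.ne'
    have hηc : (η : ℂ) ≠ 0 := by exact_mod_cast hηpos.ne'
    have h3 : (2 : ℂ) * I * η * (starRingEnd ℂ) (h 0) = 1 - (starRingEnd ℂ) (h 0) / h 0 := by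
      rw [h2iη, h0w]
      simp only [map_inv₀, map_neg]
      field_simp
      ring
    have h4 := hhne 0
    simp only [map_mul, map_inv₀, map_div₀, map_one, Complex.conj_conj, Complex.conj_I,
      Complex.conj_ofReal, Complex.conj_ofNat, mul_zero, sub_zero]
    push_cast
    have h5 : (starRingEnd ℂ) (h 0) / h 0 = 1 - (2 : ℂ) * I * η * (starRingEnd ℂ) (h 0) := by
      rw [h3]; ring
    have h6 : (h 0)⁻¹ * (1 / (2 * -I * (ε : ℂ))) * ((starRingEnd ℂ) (h 0) * m)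
        = ((starRingEnd ℂ) (h 0) / h 0) * (m / (2 * -I * (ε : ℂ))) := by
      field_simp
    rw [h6, h5]
    field_simp
    ring_nf
  -- the value of T at the origin
  have hT : ∀ (b : ℝ) (f : ell G), TT e X E ε (Wb b) f = Rm e E ε (Wb b) (v (Rp e E ε (Wb b) f)) :=
    fun _ _ => rfl
  have hRmv : ∀ b : ℝ, Rm e E ε (Wb b) (v ζ)
      = u + (((starRingEnd ℂ) (h b - h 0) - α) * m) • star ζ := by
    intro b
    rw [hRm b (v ζ), hu, ← hm]
    module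
  have hV : ∀ b : ℝ, TT e X E ε (Wb b) δ
      = h b • u + (h b * (((starRingEnd ℂ) (h b - h 0) - α) * m)) • star ζ := by
    intro b
    rw [hT]
    have h1 : Rp e E ε (Wb b) δ = h b • ζ := hr b
    rw [h1, map_smul, map_smul, hRmv, smul_add, smul_smul]
  -- the projected vector
  set β : ℝ := ‖u - (⟪ζ, u⟫_ℂ / (‖ζ‖ ^ 2 : ℝ)) • ζ‖ with hβ
  -- the vectors C
  let k : G → ℂ := fun y => ⟪ζ, v (Rp e E ε (Wb 0) (dl y))⟫_ℂ
    + (starRingEnd ℂ) α * (⟪star ζ, dl y⟫_ℂ * m)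
  let C : G → ell G := fun y => ⟪star ζ, dl y⟫_ℂ • u + (starRingEnd ℂ) (k y) • ζ
  let s : G → ℝ := fun y => ‖⟪star ζ, dl y⟫_ℂ‖
  have hζy : ∀ y, ⟪star ζ, dl y⟫_ℂ = ζ y := by
    intro y
    rw [← inner_conj_symm, inner_dl, lp.star_apply]
    simp
  have hηε : ε ≤ η := by
    rw [hwim]
    nlinarith [mul_le_mul_of_nonneg_left (mul_le_mul hζnorm hζnorm zero_le_one (norm_nonneg ζ))
      hε.le]
  refine ⟨w, β, C, s, hw, norm_nonneg _, fun y => norm_nonneg _, ?_, ?_, ?_, ?_⟩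
  · show ‖⟪star ζ, dl 0⟫_ℂ‖ = 1
    rw [hζy, hζ0, norm_one]
  · intro b
    rw [← hinv b]
    show ‖TT e X E ε (Wb b) δ‖ ^ 2 ≤ ‖h b‖ ^ 2 * β ^ 2 + 3 * cm e X E ε (Wb b) ^ 2
      + 2 * cp e X E ε (Wb b) ^ 2
    set τ : ℂ := h b * (((starRingEnd ℂ) (h b - h 0) - α) * m) with hτ
    have hVb : TT e X E ε (Wb b) δ = h b • u + τ • star ζ := hV b
    have hζp : 0 < ‖ζ‖ := norm_pos_iff.mpr hζne
    have hhb : 0 < ‖h b‖ := norm_pos_iff.mpr (hhne b)
    have e1 : ‖TT e X E ε (Wb b) δ‖ ^ 2 = ‖h b‖ ^ 2 * ‖u‖ ^ 2 + (‖τ‖ * ‖ζ‖) ^ 2 := by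
      rw [hVb]
      have h1 : ⟪h b • u, τ • star ζ⟫_ℂ = 0 := by
        rw [inner_smul_left, inner_smul_right, ← inner_conj_symm, horth]; simp
      have := norm_add_sq_eq_norm_sq_add_norm_sq_of_inner_eq_zero _ _ h1
      rw [norm_smul, norm_smul, hζs] at this
      nlinarith [this]
    have e2 : cm e X E ε (Wb b) = ‖τ‖ * ‖ζ‖ := by
      unfold cm
      have h1 : Rm e E ε (Wb b) (dl 0) = (starRingEnd ℂ) (h b) • star ζ := by
        have := hsp b δ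
        rw [hδs] at this
        rw [← hδ, ← this]
        show star (r b) = _
        rw [hr b, star_smul]; rfl
      have h2 : TT e X E ε (Wb b) (dl 0) = h b • u + τ • star ζ := hVb
      rw [h1, h2, inner_smul_left, inner_add_right, inner_smul_right, inner_smul_right, horth,
        inner_self_eq_norm_sq_to_K, hζs, norm_smul, hζs]
      simp only [Complex.conj_conj, mul_zero, zero_add, norm_mul, RCLike.norm_conj, norm_pow]
      have h3 : ‖(RCLike.ofReal ‖ζ‖ : ℂ)‖ = ‖ζ‖ := by simp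
      rw [h3]
      field_simp
    have e3 : cp e X E ε (Wb b) = ‖h b * ⟪ζ, u⟫_ℂ + τ * ⟪ζ, star ζ⟫_ℂ‖ / ‖ζ‖ := by
      unfold cp
      have h1 : Rp e E ε (Wb b) (dl 0) = h b • ζ := hr b
      have h2 : TT e X E ε (Wb b) (dl 0) = h b • u + τ • star ζ := hVb
      rw [h1, h2, inner_smul_left, inner_add_right, inner_smul_right, inner_smul_right, norm_mul,
        RCLike.norm_conj, norm_smul]
      field_simp
    have e4 : ‖h b‖ * (‖⟪ζ, u⟫_ℂ‖ / ‖ζ‖) ≤ cp e X E ε (Wb b) + cm e X E ε (Wb b) := by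
      rw [e3, e2]
      have h1 : ‖h b * ⟪ζ, u⟫_ℂ‖ ≤ ‖h b * ⟪ζ, u⟫_ℂ + τ * ⟪ζ, star ζ⟫_ℂ‖ + ‖τ * ⟪ζ, star ζ⟫_ℂ‖ := by
        have := norm_sub_le (h b * ⟪ζ, u⟫_ℂ + τ * ⟪ζ, star ζ⟫_ℂ) (τ * ⟪ζ, star ζ⟫_ℂ)
        rwa [add_sub_cancel_right] at this
      have h2 : ‖τ * ⟪ζ, star ζ⟫_ℂ‖ ≤ ‖τ‖ * (‖ζ‖ * ‖ζ‖) := by
        rw [norm_mul]
        refine mul_le_mul_of_nonneg_left ?_ (norm_nonneg _)
        have := norm_inner_le_norm (𝕜 := ℂ) ζ (star ζ)
        rwa [hζs] at this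
      rw [norm_mul] at h1
      rw [← mul_div_assoc, div_le_iff₀ hζp, add_mul, div_mul_cancel₀ _ hζp.ne']
      linarith
    have e5 := decomp ζ u hζne
    have hcp0 : 0 ≤ cp e X E ε (Wb b) := by unfold cp; positivity
    have hcm0 : 0 ≤ cm e X E ε (Wb b) := by unfold cm; positivity
    have e6 : (‖h b‖ * (‖⟪ζ, u⟫_ℂ‖ / ‖ζ‖)) ^ 2 ≤ (cp e X E ε (Wb b) + cm e X E ε (Wb b)) ^ 2 :=
      pow_le_pow_left₀ (by positivity) e4 2
    rw [e1, e5, ← hβ]
    rw [← e2]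
    nlinarith [sq_nonneg (cp e X E ε (Wb b) - cm e X E ε (Wb b))]
  · intro b b' y
    rw [← hinv b, ← hinv b']
    -- one sided difference
    have key : ∀ b : ℝ, TT e X E ε (Wb b) (dl y) = TT e X E ε (Wb 0) (dl y)
        + ((h b - h 0) * ⟪star ζ, dl y⟫_ℂ) • u
        + ((starRingEnd ℂ) (h b - h 0) * k y) • star ζ := by
      intro b
      have c1 := circ_id (w := w) (by rw [← hη]; exact hηpos.ne') b
      rw [← hinv b, ← h0w, ← hη, ← hα] at c1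
      rw [hT, hRp b (dl y), map_add, map_smul, map_add, map_smul, hRm b (v (Rp e E ε (Wb 0) (dl y))),
        hRmv b, hT]
      simp only [smul_add, smul_smul]
      have h2 : (starRingEnd ℂ) (h b - h 0) * ⟪ζ, v (Rp e E ε (Wb 0) (dl y))⟫_ℂ
          + (h b - h 0) * ⟪star ζ, dl y⟫_ℂ * (((starRingEnd ℂ) (h b - h 0) - α) * m)
          = (starRingEnd ℂ) (h b - h 0) * k y := by
        show _ = (starRingEnd ℂ) (h b - h 0) * (⟪ζ, v (Rp e E ε (Wb 0) (dl y))⟫_ℂ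
          + (starRingEnd ℂ) α * (⟪star ζ, dl y⟫_ℂ * m))
        linear_combination (⟪star ζ, dl y⟫_ℂ * m) * c1
      rw [← h2]
      module
    have hSS : ∀ b : ℝ, SS e X E ε (Wb b) (dl y)
        = TT e X E ε (Wb b) (dl y) + star (TT e X E ε (Wb b) (dl y)) := by
      intro b
      show TT e X E ε (Wb b) (dl y) - Rp e E ε (Wb b) (v (Rm e E ε (Wb b) (dl y))) = _
      rw [hT, hsm, star_Vel, hsp, star_dl, map_neg, ← sub_eq_add_neg]
    show SS e X E ε (Wb b) (dl y) - SS e X E ε (Wb b') (dl y)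
      = (h b - h b') • C y + star ((h b - h b') • C y)
    rw [hSS, hSS, key b, key b']
    show _ = (h b - h b') • (⟪star ζ, dl y⟫_ℂ • u + (starRingEnd ℂ) (k y) • ζ)
      + star ((h b - h b') • (⟪star ζ, dl y⟫_ℂ • u + (starRingEnd ℂ) (k y) • ζ))
    simp only [star_add, star_smul, star_star, Complex.star_def, map_mul, map_sub, Complex.conj_conj]
    module
  · intro y
    have h1 : C y - (⟪ζ, C y⟫_ℂ / (‖ζ‖ ^ 2 : ℝ)) • ζ
        = ⟪star ζ, dl y⟫_ℂ • (u - (⟪ζ, u⟫_ℂ / (‖ζ‖ ^ 2 : ℝ)) • ζ) := by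
      show ⟪star ζ, dl y⟫_ℂ • u + (starRingEnd ℂ) (k y) • ζ
        - (⟪ζ, ⟪star ζ, dl y⟫_ℂ • u + (starRingEnd ℂ) (k y) • ζ⟫_ℂ / (‖ζ‖ ^ 2 : ℝ)) • ζ = _
      rw [inner_add_right, inner_smul_right, inner_smul_right, inner_self_eq_norm_sq_to_K]
      have h2 : ((‖ζ‖ : ℝ) : ℂ) ≠ 0 := by
        exact_mod_cast norm_ne_zero_iff.mpr hζne
      have h3 : (⟪star ζ, dl y⟫_ℂ * ⟪ζ, u⟫_ℂ + (starRingEnd ℂ) (k y) * ((‖ζ‖ : ℝ) : ℂ) ^ 2)
          / ((‖ζ‖ ^ 2 : ℝ) : ℂ) = ⟪star ζ, dl y⟫_ℂ * (⟪ζ, u⟫_ℂ / ((‖ζ‖ ^ 2 : ℝ) : ℂ))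
            + (starRingEnd ℂ) (k y) := by
        push_cast
        field_simp
      have h4 : (RCLike.ofReal ‖ζ‖ : ℂ) = ((‖ζ‖ : ℝ) : ℂ) := rfl
      rw [h4, h3]
      module
    have h2 := decomp_norm_le ζ (C y) hζne
    rw [h1, norm_smul] at h2
    exact h2

end gen

/-- rank one algebra at the origin, with the resonance position exposed -/
theorem loc2 {d : ℕ} (X : ZZ d →+ ℝ) (W : ZZ d → ℝ) (E : ℝ) {ε : ℝ} (hε : 0 < ε) :
    ∃ (β : ℝ) (A A0 : ell (ZZ d)), 0 ≤ β ∧ β ≤ ‖A‖ ∧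
      (∀ b : ℝ, ‖TT (ee d) X E ε (Function.update W 0 b) (dl 0)‖ ^ 2
        ≤ ‖((b : ℂ) - wv E ε W 0)⁻¹‖ ^ 2 * β ^ 2 + 3 * cm (ee d) X E ε (Function.update W 0 b) ^ 2
          + 2 * cp (ee d) X E ε (Function.update W 0 b) ^ 2) ∧
      (∀ b : ℝ, SS (ee d) X E ε (Function.update W 0 b) (dl 0)
        = ((b : ℂ) - wv E ε W 0)⁻¹ • A + star (((b : ℂ) - wv E ε W 0)⁻¹ • A) - A0) := by
  obtain ⟨w, β, C, s, hw, hβ, hs, hs0, h1, h2, h3⟩ := loc' (ee d) X W E hε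
  have hwv : wv E ε W 0 = w := by
    have h4 := GF_upd (E := E) hε W 0 0 0 0
    have h5 : GF E ε (Function.update W 0 0) 0 0 ≠ 0 := GF_ne hε _ _
    have h6 : GF E ε W 0 0 ≠ 0 := GF_ne hε _ _
    have h7 : w = -(GF E ε (Function.update W 0 0) 0 0)⁻¹ := hw
    rw [h7]
    unfold wv
    push_cast at h4
    field_simp
    linear_combination -h4
  refine ⟨β, C 0, (((0 : ℝ) : ℂ) - w)⁻¹ • C 0 + star ((((0 : ℝ) : ℂ) - w)⁻¹ • C 0)
    - SS (ee d) X E ε (Function.update W 0 0) (dl 0), hβ, ?_, ?_, ?_⟩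
  · have := h3 0
    rwa [hs0, one_mul] at this
  · rw [hwv]; exact h1
  · intro b
    rw [hwv]
    have h4 := h2 b 0 0
    rw [sub_eq_iff_eq_add] at h4
    rw [h4, sub_smul, star_sub]
    abel

end Pool.SU
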