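import Mathlib
import Pool.Agent.SU.Defs

/-!
# Module B4 : the product measure
-/

set_option autoImplicit false
set_option linter.unusedSectionVars false
set_option linter.unusedVariables false

open Complex MeasureTheory Filter Topology Set ContinuousLinearMap
open scoped InnerProductSpace ENNReal NNReal

namespace Pool.SU

open Pool.NB Pool.SB

variable {d : ℕ}

theorem spl_meas (S : Finset (ZZ d)) :
    Measurable (fun p : (ZZ d → ℝ) × (ZZ d → ℝ) => spl S p.1 p.2) := by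
  apply measurable_pi_lambda
  intro x
  by_cases hx : x ∈ S
  · have h1 : (fun p : (ZZ d → ℝ) × (ZZ d → ℝ) => spl S p.1 p.2 x) = fun p => p.1 x := by
      funext p
      exact if_pos hx
    rw [h1]
    exact (measurable_pi_apply x).comp measurable_fst
  · have h1 : (fun p : (ZZ d → ℝ) × (ZZ d → ℝ) => spl S p.1 p.2 x) = fun p => p.2 x := by
      funext p
      exact if_neg hx
    rw [h1]
    exact (measurable_pi_apply x).comp measurable_snd

theorem spl_meas_left (S : Finset (ZZ d)) (W : ZZ d → ℝ) :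
    Measurable (fun W' : ZZ d → ℝ => spl S W' W) :=
  (spl_meas S).comp (measurable_id.prodMk measurable_const)

theorem spl_meas_right (S : Finset (ZZ d)) (W' : ZZ d → ℝ) :
    Measurable (fun W : ZZ d → ℝ => spl S W' W) :=
  (spl_meas S).comp (measurable_const.prodMk measurable_id)

theorem spl_mp (μ : Measure ℝ) [IsProbabilityMeasure μ] (S : Finset (ZZ d)) :
    MeasurePreserving (fun p : (ZZ d → ℝ) × (ZZ d → ℝ) => spl S p.1 p.2)
      ((PP (ZZ d) μ).prod (PP (ZZ d) μ)) (PP (ZZ d) μ) := by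
  refine ⟨spl_meas S, ?_⟩
  apply Measure.eq_infinitePi
  intro s (t : ZZ d → Set ℝ) ht
  rw [Measure.map_apply (spl_meas S) (MeasurableSet.pi s.countable_toSet fun i _ => ht i)]
  have h1 : (fun p : (ZZ d → ℝ) × (ZZ d → ℝ) => spl S p.1 p.2) ⁻¹' (Set.pi (s : Set (ZZ d)) t)
      = (Set.pi ((s ∩ S : Finset (ZZ d)) : Set (ZZ d)) t) ×ˢ
        (Set.pi ((s \ S : Finset (ZZ d)) : Set (ZZ d)) t) := by
    ext ⟨W', W⟩
    simp only [Set.mem_preimage, Set.mem_pi, Finset.mem_coe, Set.mem_prod, Finset.mem_inter,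
      Finset.mem_sdiff]
    constructor
    · intro h
      refine ⟨fun x hx => ?_, fun x hx => ?_⟩
      · have h2 := h x hx.1
        unfold spl at h2
        rwa [if_pos hx.2] at h2
      · have h2 := h x hx.1
        unfold spl at h2
        rwa [if_neg hx.2] at h2
    · rintro ⟨h2, h3⟩ x hx
      unfold spl
      by_cases hxS : x ∈ S
      · rw [if_pos hxS]; exact h2 x ⟨hx, hxS⟩
      · rw [if_neg hxS]; exact h3 x ⟨hx, hxS⟩
  rw [h1, Measure.prod_prod, Measure.infinitePi_pi _ (fun i _ => ht i),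
    Measure.infinitePi_pi _ (fun i _ => ht i), Finset.prod_inter_mul_prod_sdiff]

theorem lint_spl (μ : Measure ℝ) [IsProbabilityMeasure μ] (S : Finset (ZZ d))
    {f : (ZZ d → ℝ) → ℝ≥0∞} (hf : Measurable f) :
    ∫⁻ W, ∫⁻ W', f (spl S W' W) ∂(PP (ZZ d) μ) ∂(PP (ZZ d) μ) = ∫⁻ W, f W ∂(PP (ZZ d) μ) := by
  rw [← (spl_mp μ S).lintegral_comp hf,
    lintegral_prod_symm' (fun p : (ZZ d → ℝ) × (ZZ d → ℝ) => f (spl S p.1 p.2))
      (hf.comp (spl_meas S))]

theorem upd_meas_at (x : ZZ d) :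
    Measurable (fun p : (ZZ d → ℝ) × ℝ => Function.update p.1 x p.2) := by
  apply measurable_pi_lambda
  intro y
  by_cases hy : y = x
  · subst hy
    simp only [Function.update_self]
    exact measurable_snd
  · simp only [Function.update_of_ne hy]
    exact (measurable_pi_apply y).comp measurable_fst

theorem upd_mp_at (μ : Measure ℝ) [IsProbabilityMeasure μ] (x : ZZ d) :
    MeasurePreserving (fun p : (ZZ d → ℝ) × ℝ => Function.update p.1 x p.2)
      ((PP (ZZ d) μ).prod μ) (PP (ZZ d) μ) := by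
  refine ⟨upd_meas_at x, ?_⟩
  apply Measure.eq_infinitePi
  intro s (t : ZZ d → Set ℝ) ht
  rw [Measure.map_apply (upd_meas_at x) (MeasurableSet.pi s.countable_toSet fun i _ => ht i)]
  by_cases h0 : x ∈ s
  · have h1 : (fun p : (ZZ d → ℝ) × ℝ => Function.update p.1 x p.2) ⁻¹'
        (Set.pi (s : Set (ZZ d)) t)
        = (Set.pi ((s.erase x : Finset (ZZ d)) : Set (ZZ d)) t) ×ˢ (t x) := by
      ext ⟨W, a⟩
      simp only [Set.mem_preimage, Set.mem_pi, Finset.mem_coe, Set.mem_prod, Finset.mem_erase]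
      constructor
      · intro h
        refine ⟨fun y hy => ?_, ?_⟩
        · have := h y hy.2
          rwa [Function.update_of_ne hy.1] at this
        · have := h x h0
          rwa [Function.update_self] at this
      · rintro ⟨h2, h3⟩ y hy
        by_cases hy0 : y = x
        · subst hy0; rw [Function.update_self]; exact h3
        · rw [Function.update_of_ne hy0]; exact h2 y ⟨hy0, hy⟩
    rw [h1, Measure.prod_prod, Measure.infinitePi_pi _ (fun i _ => ht i), mul_comm,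
      Finset.mul_prod_erase s (fun i => μ (t i)) h0]
  · have h1 : (fun p : (ZZ d → ℝ) × ℝ => Function.update p.1 x p.2) ⁻¹'
        (Set.pi (s : Set (ZZ d)) t)
        = (Set.pi (s : Set (ZZ d)) t) ×ˢ (Set.univ : Set ℝ) := by
      ext ⟨W, a⟩
      simp only [Set.mem_preimage, Set.mem_pi, Finset.mem_coe, Set.mem_prod, Set.mem_univ,
        and_true]
      constructor
      · intro h y hy
        have := h y hy
        rwa [Function.update_of_ne (fun h2 => h0 (by rw [← h2]; exact hy))] at this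
      · intro h y hy
        rw [Function.update_of_ne (fun h2 => h0 (by rw [← h2]; exact hy))]
        exact h y hy
    rw [h1, Measure.prod_prod, measure_univ, mul_one, Measure.infinitePi_pi _ (fun i _ => ht i)]

theorem lint_upd (μ : Measure ℝ) [IsProbabilityMeasure μ] (x : ZZ d)
    {f : (ZZ d → ℝ) → ℝ≥0∞} (hf : Measurable f) :
    ∫⁻ W, ∫⁻ β, f (Function.update W x β) ∂μ ∂(PP (ZZ d) μ) = ∫⁻ W, f W ∂(PP (ZZ d) μ) := by
  rw [← (upd_mp_at μ x).lintegral_comp hf,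
    lintegral_prod (fun p : (ZZ d → ℝ) × ℝ => f (Function.update p.1 x p.2))
      (hf.comp (upd_meas_at x)).aemeasurable]

theorem Om_meas (a b : ℝ) : MeasurableSet (Om d a b) := by
  have h1 : Om d a b = ⋂ x : ZZ d, (fun W : ZZ d → ℝ => W x) ⁻¹' (Icc a b) := by
    ext W
    simp only [Om, Set.mem_ofPred_eq, Set.mem_iInter, Set.mem_preimage, Set.mem_Icc]
  rw [h1]
  exact MeasurableSet.iInter fun x => measurable_pi_apply x measurableSet_Icc

theorem Uni.icc_ae {μ : Measure ℝ} [IsProbabilityMeasure μ] {a b c C : ℝ} (hμ : Uni μ a b c C) :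
    ∀ᵐ β ∂μ, β ∈ Icc a b := by
  rw [ae_iff]
  have h1 : {β : ℝ | ¬ β ∈ Icc a b} = (Icc a b)ᶜ := rfl
  rw [h1]
  refine le_antisymm ?_ (by simp)
  refine (hμ.hi _ measurableSet_Icc.compl).trans ?_
  rw [Set.compl_inter_self, measure_empty, mul_zero]

theorem Om_ae {μ : Measure ℝ} [IsProbabilityMeasure μ] {a b c C : ℝ} (hμ : Uni μ a b c C) :
    ∀ᵐ W ∂(PP (ZZ d) μ), W ∈ Om d a b := by
  have h1 : ∀ x : ZZ d, ∀ᵐ W ∂(PP (ZZ d) μ), a ≤ W x ∧ W x ≤ b := by
    intro x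
    exact (measurePreserving_eval_infinitePi (fun _ : ZZ d => μ) x).quasiMeasurePreserving.ae
      hμ.icc_ae
  exact ae_all_iff.mpr h1

theorem Uni.C_pos {μ : Measure ℝ} [IsProbabilityMeasure μ] {a b c C : ℝ} (hμ : Uni μ a b c C) :
    0 < C := by
  by_contra h
  have h1 := hμ.hi univ MeasurableSet.univ
  rw [measure_univ, ENNReal.ofReal_of_nonpos (not_lt.mp h), zero_mul] at h1
  exact absurd h1 (by simp)

/-- windows around complex numbers -/
theorem Uni.win {μ : Measure ℝ} [IsProbabilityMeasure μ] {a b c C : ℝ} (hμ : Uni μ a b c C)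
    (α : ℂ) (r : ℝ) : μ {β : ℝ | ‖(β : ℂ) - α‖ ≤ r} ≤ ENNReal.ofReal (2 * C * r) := by
  have h1 : {β : ℝ | ‖(β : ℂ) - α‖ ≤ r} ⊆ Icc (α.re - r) (α.re + r) := by
    intro β hβ
    have h2 : |β - α.re| ≤ r := by
      have h3 := Complex.abs_re_le_norm ((β : ℂ) - α)
      rw [Complex.sub_re, Complex.ofReal_re] at h3
      exact h3.trans hβ
    rw [abs_le] at h2
    exact ⟨by linarith [h2.1], by linarith [h2.2]⟩
  calc μ {β : ℝ | ‖(β : ℂ) - α‖ ≤ r} ≤ μ (Icc (α.re - r) (α.re + r)) := measure_mono h1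
    _ ≤ ENNReal.ofReal C * volume (Icc (α.re - r) (α.re + r) ∩ Icc a b) :=
        hμ.hi _ measurableSet_Icc
    _ ≤ ENNReal.ofReal C * volume (Icc (α.re - r) (α.re + r)) := by
        gcongr
        exact Set.inter_subset_left
    _ = ENNReal.ofReal C * ENNReal.ofReal (2 * r) := by
        rw [Real.volume_Icc]
        congr 2
        ring
    _ = ENNReal.ofReal (2 * C * r) := by
        rw [← ENNReal.ofReal_mul hμ.C_pos.le]
        congr 1
        ring

/-- windows inside `[a,b]` have at least the expected mass -/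
theorem Uni.win_ge {μ : Measure ℝ} [IsProbabilityMeasure μ] {a b c C : ℝ} (hμ : Uni μ a b c C)
    (s r : ℝ) (hr : 0 ≤ r) (h1 : a ≤ s - r) (h2 : s + r ≤ b) :
    ENNReal.ofReal (2 * c * r) ≤ μ {β : ℝ | |β - s| ≤ r} := by
  have h3 : {β : ℝ | |β - s| ≤ r} = Icc (s - r) (s + r) := by
    ext β
    simp only [Set.mem_ofPred_eq, Set.mem_Icc, abs_le]
    constructor
    · rintro ⟨h4, h5⟩; constructor <;> linarith
    · rintro ⟨h4, h5⟩; constructor <;> linarith
  have h4 : Icc (s - r) (s + r) ∩ Icc a b = Icc (s - r) (s + r) := by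
    apply Set.inter_eq_left.mpr
    exact Set.Icc_subset_Icc h1 h2
  rw [h3]
  refine le_trans (le_of_eq ?_) (hμ.lo _ measurableSet_Icc)
  rw [h4, Real.volume_Icc, ← ENNReal.ofReal_mul hμ.c0.le]
  congr 1
  ring

theorem PP_cyl (μ : Measure ℝ) [IsProbabilityMeasure μ] (S : Finset (ZZ d))
    (t : ZZ d → Set ℝ) (ht : ∀ x ∈ S, MeasurableSet (t x)) :
    (PP (ZZ d) μ) {W | ∀ x ∈ S, W x ∈ t x} = ∏ x ∈ S, μ (t x) :=
  Measure.infinitePi_pi (fun _ : ZZ d => μ) ht

theorem win_set_meas (α : ℂ) (r : ℝ) : MeasurableSet {β : ℝ | ‖(β : ℂ) - α‖ ≤ r} := by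
  have h1 : Measurable (fun β : ℝ => ‖(β : ℂ) - α‖) :=
    ((Complex.continuous_ofReal.sub continuous_const).norm).measurable
  exact h1 measurableSet_Iic

/-- one window, center independent of the site -/
theorem Uni.win1 {μ : Measure ℝ} [IsProbabilityMeasure μ] {a b c C : ℝ} (hμ : Uni μ a b c C)
    (x : ZZ d) (α : ℂ) (r : ℝ) :
    (PP (ZZ d) μ) {W | ‖(W x : ℂ) - α‖ ≤ r} ≤ ENNReal.ofReal (2 * C * r) := by
  have h1 : {W : ZZ d → ℝ | ‖(W x : ℂ) - α‖ ≤ r}
      = {W | ∀ y ∈ ({x} : Finset (ZZ d)), W y ∈ (fun _ => {β : ℝ | ‖(β : ℂ) - α‖ ≤ r}) y} := by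
    ext W
    simp
  rw [h1, PP_cyl μ {x} (fun _ => {β : ℝ | ‖(β : ℂ) - α‖ ≤ r}) (fun _ _ => win_set_meas α r),
    Finset.prod_singleton]
  exact hμ.win α r

/-- two windows -/
theorem Uni.win2 {μ : Measure ℝ} [IsProbabilityMeasure μ] {a b c C : ℝ} (hμ : Uni μ a b c C)
    {x y : ZZ d} (hxy : x ≠ y) (α α' : ℂ) (r r' : ℝ) :
    (PP (ZZ d) μ) {W | ‖(W x : ℂ) - α‖ ≤ r ∧ ‖(W y : ℂ) - α'‖ ≤ r'}
      ≤ ENNReal.ofReal (2 * C * r) * ENNReal.ofReal (2 * C * r') := by
  set t : ZZ d → Set ℝ := fun z => if z = x then {β : ℝ | ‖(β : ℂ) - α‖ ≤ r} else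
    {β : ℝ | ‖(β : ℂ) - α'‖ ≤ r'} with ht
  have htx : t x = {β : ℝ | ‖(β : ℂ) - α‖ ≤ r} := if_pos rfl
  have hty : t y = {β : ℝ | ‖(β : ℂ) - α'‖ ≤ r'} := if_neg (Ne.symm hxy)
  have h1 : {W : ZZ d → ℝ | ‖(W x : ℂ) - α‖ ≤ r ∧ ‖(W y : ℂ) - α'‖ ≤ r'}
      = {W | ∀ z ∈ ({x, y} : Finset (ZZ d)), W z ∈ t z} := by
    ext W
    simp only [Set.mem_ofPred_eq, Finset.mem_insert, Finset.mem_singleton, forall_eq_or_imp,
      forall_eq, htx, hty]
  have h2 : ∀ z ∈ ({x, y} : Finset (ZZ d)), MeasurableSet (t z) := by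
    intro z _
    show MeasurableSet (if z = x then {β : ℝ | ‖(β : ℂ) - α‖ ≤ r} else
      {β : ℝ | ‖(β : ℂ) - α'‖ ≤ r'})
    split_ifs
    · exact win_set_meas α r
    · exact win_set_meas α' r'
  rw [h1, PP_cyl μ {x, y} t h2, Finset.prod_pair hxy, htx, hty]
  exact mul_le_mul' (hμ.win α r) (hμ.win α' r')

/-- resampling inequality: on the event `A`, `F W ≤ κ(exterior) * Φ (resampled)`, and the
conditional probability of `A` is at most `κ₀ / κ(exterior)` -/
theorem loss {μ : Measure ℝ} [IsProbabilityMeasure μ] {a b c C : ℝ} (hμ : Uni μ a b c C)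
    (S : Finset (ZZ d)) {F Φ : (ZZ d → ℝ) → ℝ≥0∞} (hF : Measurable F) (hΦ : Measurable Φ)
    {A : Set (ZZ d → ℝ)} (hA : MeasurableSet A) (κ0 : ℝ≥0∞)
    (h : ∀ W ∈ Om d a b, ∃ κ : ℝ≥0∞,
      (∀ W1 ∈ Om d a b, ∀ W' ∈ Om d a b, spl S W1 W ∈ A → F (spl S W1 W) ≤ κ * Φ (spl S W' W)) ∧
      κ * (PP (ZZ d) μ) {W1 | W1 ∈ Om d a b ∧ spl S W1 W ∈ A} ≤ κ0) :
    ∫⁻ W in A, F W ∂(PP (ZZ d) μ) ≤ κ0 * ∫⁻ W, Φ W ∂(PP (ZZ d) μ) := by
  have hm : Measurable (fun W : ZZ d → ℝ => ∫⁻ W', Φ (spl S W' W) ∂(PP (ZZ d) μ)) :=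
    Measurable.lintegral_prod_left' (f := fun p : (ZZ d → ℝ) × (ZZ d → ℝ) => Φ (spl S p.1 p.2))
      (hΦ.comp (spl_meas S))
  rw [← lintegral_indicator hA, ← lint_spl μ S (hF.indicator hA), ← lint_spl μ S hΦ,
    ← lintegral_const_mul κ0 hm]
  refine lintegral_mono_ae ?_
  filter_upwards [Om_ae (d := d) hμ] with W hW
  obtain ⟨κ, hκ1, hκ2⟩ := h W hW
  set J : ℝ≥0∞ := ∫⁻ W', Φ (spl S W' W) ∂(PP (ZZ d) μ) with hJ
  set B : Set (ZZ d → ℝ) := {W1 | W1 ∈ Om d a b ∧ spl S W1 W ∈ A} with hB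
  have hBm : MeasurableSet B := (Om_meas a b).inter (spl_meas_left S W hA)
  have hΦm : Measurable (fun W' => Φ (spl S W' W)) := hΦ.comp (spl_meas_left S W)
  have key : ∀ W1 ∈ Om d a b, spl S W1 W ∈ A → F (spl S W1 W) ≤ κ * J := by
    intro W1 hW1 hA1
    rw [hJ, ← lintegral_const_mul κ hΦm]
    calc F (spl S W1 W) = ∫⁻ _, F (spl S W1 W) ∂(PP (ZZ d) μ) := by
          rw [lintegral_const, measure_univ, mul_one]
      _ ≤ ∫⁻ W', κ * Φ (spl S W' W) ∂(PP (ZZ d) μ) := by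
          refine lintegral_mono_ae ?_
          filter_upwards [Om_ae (d := d) hμ] with W' hW'
          exact hκ1 W1 hW1 W' hW' hA1
  calc ∫⁻ W1, A.indicator F (spl S W1 W) ∂(PP (ZZ d) μ)
      ≤ ∫⁻ W1, B.indicator (fun _ => κ * J) W1 ∂(PP (ZZ d) μ) := by
        refine lintegral_mono_ae ?_
        filter_upwards [Om_ae (d := d) hμ] with W1 hW1
        by_cases hA1 : spl S W1 W ∈ A
        · rw [Set.indicator_of_mem hA1, Set.indicator_of_mem (show W1 ∈ B from ⟨hW1, hA1⟩)]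
          exact key W1 hW1 hA1
        · rw [Set.indicator_of_notMem hA1]
          simp
    _ = κ * J * (PP (ZZ d) μ) B := by
        rw [lintegral_indicator_const hBm]
    _ = (κ * (PP (ZZ d) μ) B) * J := by ring
    _ ≤ κ0 * J := by gcongr

end Pool.SU
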