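import Mathlib
import Pool.Agent.SU.Defs
import Pool.Agent.SU.Green

/-!
# Module B2 : the vectors `VV`
-/

set_option autoImplicit false
set_option linter.unusedSectionVars false
set_option linter.unusedSimpArgs false
set_option linter.unusedVariables false

open Complex MeasureTheory Filter Topology Set ContinuousLinearMap
open scoped InnerProductSpace ENNReal NNReal

namespace Pool.SU

open Pool.NB Pool.SB

variable {d : ℕ}

/-- the commutator identity for the truncated position and a bounded resolvent -/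
lemma vvb_comm {G : Type*} [AddCommGroup G] [DecidableEq G] {κ : Type*} [Fintype κ]
    (e : κ → G) (X : G →+ ℝ) (n N : ℕ) (W : G → ℝ) {z : ℂ} (hz : z.im ≠ 0) (x : G) :
    Mn N (fun x => X x) (rs (Hn e n W) z (dl x))
      = ((cl N (X x) : ℝ) : ℂ) • rs (Hn e n W) z (dl x)
        + rs (Hn e n W) z (-∑ i, (cg X (e i) N (rs (Hn e n W) z (dl x))
          + cg X (-e i) N (rs (Hn e n W) z (dl x)))) := by
  set h := Hn e n W with hh
  set y := rs h z (dl x) with hy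
  have h1 : h y - z • y = dl x := rs_right h (Hn_sa e n W) hz _
  have h2 := comm_eq e X n N W y
  rw [← hh] at h2
  have h3 : rs h z (h (Mn N (fun x => X x) y) - z • Mn N (fun x => X x) y)
      = Mn N (fun x => X x) y := rs_left h (Hn_sa e n W) hz _
  rw [← h2]
  have h4 : h (Mn N (fun x => X x) y) - z • Mn N (fun x => X x) y
      = ((cl N (X x) : ℝ) : ℂ) • dl x + (h (Mn N (fun x => X x) y) - Mn N (fun x => X x) (h y)) := by
    have h5 : Mn N (fun x => X x) (h y) - z • Mn N (fun x => X x) y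
        = ((cl N (X x) : ℝ) : ℂ) • dl x := by
      rw [← map_smul, ← map_sub, h1, Mn_dl]
    rw [← h5]; abel
  conv_lhs => rw [← h3, h4]
  rw [map_add, map_smul]

/-- position times resolvent, truncated Hamiltonian -/
lemma vvb_trunc {G : Type*} [AddCommGroup G] [DecidableEq G] {κ : Type*} [Fintype κ]
    (e : κ → G) (X : G →+ ℝ) (n : ℕ) (W : G → ℝ) {z : ℂ} (hz : z.im ≠ 0) (x q : G) :
    (X q : ℂ) * rs (Hn e n W) z (dl x) q
      = (X x : ℂ) * rs (Hn e n W) z (dl x) q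
        - I * rs (Hn e n W) z (Vel e X (rs (Hn e n W) z (dl x))) q := by
  set r := rs (Hn e n W) z with hr
  have hL : Tendsto (fun N : ℕ => Mn N (fun x => X x) (r (dl x)) q) atTop
      (𝓝 ((X q : ℂ) * r (dl x) q)) := by
    simp_rw [Mn_apply]
    exact ((Complex.continuous_ofReal.tendsto _).comp (cl_tendsto (X q))).mul_const _
  have hR : Tendsto (fun N : ℕ => (((cl N (X x) : ℝ) : ℂ) • r (dl x)
        + r (-∑ i, (cg X (e i) N (r (dl x)) + cg X (-e i) N (r (dl x)))))) atTop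
      (𝓝 ((X x : ℂ) • r (dl x) + r (-∑ i, (-((X (e i) : ℂ) • T (e i) (r (dl x)))
            + -((X (-e i) : ℂ) • T (-e i) (r (dl x))))))) := by
    refine Tendsto.add ?_ ?_
    · exact ((Complex.continuous_ofReal.tendsto _).comp (cl_tendsto (X x))).smul_const _
    · refine (r.continuous.tendsto _).comp ?_
      exact (tendsto_finsetSum _ fun i _ => (cg_tendsto X (e i) _).add (cg_tendsto X (-e i) _)).neg
  have hR2 := tendsto_coord hR q
  have h1 := tendsto_nhds_unique hL (hR2.congr fun N => by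
    rw [hr, ← vvb_comm e X n N W hz x])
  rw [h1]
  have h4 : -∑ i, (-((X (e i) : ℂ) • T (e i) (r (dl x)))
            + -((X (-e i) : ℂ) • T (-e i) (r (dl x))))
          = (-I) • Vel e X (r (dl x)) := by
    unfold Vel
    rw [sum_apply, ← Finset.sum_neg_distrib, Finset.smul_sum]
    refine Finset.sum_congr rfl fun i _ => ?_
    rw [smul_apply, sub_apply, map_neg, smul_smul]
    have h5 : -I * ((X (e i) : ℂ) * I) = (X (e i) : ℂ) := by
      linear_combination (-(X (e i) : ℂ)) * Complex.I_mul_I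
    rw [h5]
    push_cast
    module
  rw [h4, map_smul, lp.coeFn_add, Pi.add_apply, lp.coeFn_smul, Pi.smul_apply, lp.coeFn_smul,
    Pi.smul_apply, smul_eq_mul, smul_eq_mul]
  ring

theorem VV_apply (X : ZZ d →+ ℝ) {E ε : ℝ} (hε : 0 < ε) (W : ZZ d → ℝ) (x q : ZZ d) :
    VV X E ε W x q = (X q : ℂ) * GF E ε W q x := by
  have hz := AlgAux.zp_ne (E := E) hε
  have h1 := (R_SL (ee d) W hz)
  have hL : Tendsto (fun n : ℕ => (X q : ℂ) * rs (Hn (ee d) n W) (zp E ε) (dl x) q) atTop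
      (𝓝 ((X q : ℂ) * GF E ε W q x)) := (tendsto_coord (h1.lim (dl x)) q).const_mul _
  have h2 : Tendsto (fun n : ℕ => rs (Hn (ee d) n W) (zp E ε)
      (Vel (ee d) X (rs (Hn (ee d) n W) (zp E ε) (dl x)))) atTop
      (𝓝 (Rp (ee d) E ε W (Vel (ee d) X (Rp (ee d) E ε W (dl x))))) :=
    h1.comp_vec (((Vel (ee d) X).continuous.tendsto _).comp (h1.lim (dl x)))
  have hR : Tendsto (fun n : ℕ => (X x : ℂ) * rs (Hn (ee d) n W) (zp E ε) (dl x) q
        - I * rs (Hn (ee d) n W) (zp E ε)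
          (Vel (ee d) X (rs (Hn (ee d) n W) (zp E ε) (dl x))) q) atTop
      (𝓝 (VV X E ε W x q)) := by
    have h3 : VV X E ε W x q = (X x : ℂ) * Rp (ee d) E ε W (dl x) q
        - I * Rp (ee d) E ε W (Vel (ee d) X (Rp (ee d) E ε W (dl x))) q := rfl
    rw [h3]
    exact ((tendsto_coord (h1.lim (dl x)) q).const_mul _).sub ((tendsto_coord h2 q).const_mul _)
  refine tendsto_nhds_unique hR (hL.congr fun n => ?_)
  exact vvb_trunc (ee d) X n W hz x q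

theorem VV_upd (X : ZZ d →+ ℝ) {E ε : ℝ} (hε : 0 < ε) (W : ZZ d → ℝ) (x : ZZ d) (b : ℝ)
    (y : ZZ d) : VV X E ε (Function.update W x b) y = VV X E ε W y
      - (((b - W x : ℝ) : ℂ) * GF E ε (Function.update W x b) x y) • VV X E ε W x := by
  apply ell_ext; intro q
  rw [lp.coeFn_sub, Pi.sub_apply, lp.coeFn_smul, Pi.smul_apply, smul_eq_mul, VV_apply X hε,
    VV_apply X hε, VV_apply X hε, GF_upd hε W x b q y]
  ring

theorem VV_spl (X : ZZ d →+ ℝ) {E ε : ℝ} (hε : 0 < ε) (S : Finset (ZZ d)) (W' W : ZZ d → ℝ)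
    (y : ZZ d) : VV X E ε W y = VV X E ε (spl S W' W) y
      + ∑ q ∈ S, (((W' q - W q : ℝ) : ℂ) * GF E ε W q y) • VV X E ε (spl S W' W) q := by
  apply ell_ext; intro p
  rw [lp.coeFn_add, Pi.add_apply, lp.coeFn_sum, Finset.sum_apply, VV_apply X hε, VV_apply X hε,
    GF_spl hε S W' W p y, mul_add, Finset.mul_sum]
  congr 1
  refine Finset.sum_congr rfl fun q _ => ?_
  rw [lp.coeFn_smul, Pi.smul_apply, smul_eq_mul, VV_apply X hε]
  ring

theorem VV_eqn (X : ZZ d →+ ℝ) {E ε : ℝ} (hε : 0 < ε) (W : ZZ d → ℝ) (x : ZZ d) :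
    ((W x : ℂ) + 2 * d - zp E ε) • VV X E ε W x
      - ∑ i, (VV X E ε W (x + ee d i) + VV X E ε W (x - ee d i)) = (X x : ℂ) • dl x := by
  apply ell_ext; intro q
  rw [lp.coeFn_sub, Pi.sub_apply, lp.coeFn_smul, Pi.smul_apply, smul_eq_mul, lp.coeFn_sum,
    Finset.sum_apply, lp.coeFn_smul, Pi.smul_apply, smul_eq_mul, VV_apply X hε, dl_apply]
  have h1 := GF_eqn (E := E) hε W x q
  have h2 : ∑ i, (⇑(VV X E ε W (x + ee d i) + VV X E ε W (x - ee d i)) : ZZ d → ℂ) q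
      = (X q : ℂ) * ∑ i, (GF E ε W (x + ee d i) q + GF E ε W (x - ee d i) q) := by
    rw [Finset.mul_sum]
    refine Finset.sum_congr rfl fun i _ => ?_
    rw [lp.coeFn_add, Pi.add_apply, VV_apply X hε, VV_apply X hε, GF_symm hε W q,
      GF_symm hε W q]
    ring
  rw [h2, GF_symm hε W q x]
  have h3 : ((W x : ℂ) + 2 * d - zp E ε) * ((X q : ℂ) * GF E ε W x q)
      - (X q : ℂ) * ∑ i, (GF E ε W (x + ee d i) q + GF E ε W (x - ee d i) q)
      = (X q : ℂ) * if x = q then 1 else 0 := by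
    rw [← h1]; ring
  rw [h3]
  by_cases hxq : x = q
  · subst hxq; simp
  · rw [if_neg hxq, if_neg (Ne.symm hxq)]; simp

lemma vvb_norm_pm {E ε : ℝ} (hε : 0 < ε) (W : ZZ d → ℝ) (f : ell (ZZ d)) :
    ‖Rp (ee d) E ε W f‖ = ‖Rm (ee d) E ε W f‖ := by
  have h1 : ⟪Rp (ee d) E ε W f, Rp (ee d) E ε W f⟫_ℂ = ⟪Rm (ee d) E ε W f, Rm (ee d) E ε W f⟫_ℂ := by
    have a1 : ⟪Rp (ee d) E ε W f, Rp (ee d) E ε W f⟫_ℂ
        = ⟪f, Rm (ee d) E ε W (Rp (ee d) E ε W f)⟫_ℂ := by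
      unfold Rp Rm
      rw [R_inner (ee d) W (AlgAux.zp_ne hε), conj_zp]
    have a2 : ⟪Rm (ee d) E ε W f, Rm (ee d) E ε W f⟫_ℂ
        = ⟪f, Rp (ee d) E ε W (Rm (ee d) E ε W f)⟫_ℂ := by
      unfold Rp Rm
      rw [R_inner (ee d) W (AlgAux.zm_ne hε), conj_zm]
    rw [a1, a2, AlgAux.res_comm (ee d) E hε W f]
  rw [inner_self_eq_norm_sq_to_K, inner_self_eq_norm_sq_to_K] at h1
  have h2 : ‖Rp (ee d) E ε W f‖ ^ 2 = ‖Rm (ee d) E ε W f‖ ^ 2 := by exact_mod_cast h1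
  exact (pow_left_inj₀ (norm_nonneg _) (norm_nonneg _) two_ne_zero).mp h2

lemma vvb_norm_TT (X : ZZ d →+ ℝ) {E ε : ℝ} (hε : 0 < ε) (W : ZZ d → ℝ) (x : ZZ d) :
    ‖I • Rp (ee d) E ε W (Vel (ee d) X (Rp (ee d) E ε W (dl x)))‖
      = ‖TT (ee d) X E ε W (dl x)‖ := by
  rw [norm_smul, Complex.norm_I, one_mul, vvb_norm_pm hε]
  rfl

theorem VV_zero_norm (X : ZZ d →+ ℝ) {E ε : ℝ} (hε : 0 < ε) (W : ZZ d → ℝ) :
    ‖VV X E ε W 0‖ = ‖TT (ee d) X E ε W (dl 0)‖ := by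
  rw [← vvb_norm_TT X hε W 0]
  unfold VV
  rw [map_zero, Complex.ofReal_zero, zero_smul, zero_sub, norm_neg]

theorem VV_norm_sq_le (X : ZZ d →+ ℝ) {E ε : ℝ} (hε : 0 < ε) (W : ZZ d → ℝ) (x : ZZ d) :
    ‖VV X E ε W x‖ ^ 2 ≤ 2 * ‖TT (ee d) X E ε W (dl x)‖ ^ 2
      + 2 * (X x) ^ 2 * ‖Rp (ee d) E ε W (dl x)‖ ^ 2 := by
  have h1 : ‖VV X E ε W x‖ ≤ |X x| * ‖Rp (ee d) E ε W (dl x)‖ + ‖TT (ee d) X E ε W (dl x)‖ := by
    rw [← vvb_norm_TT X hε W x]
    unfold VV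
    refine (norm_sub_le _ _).trans (le_of_eq ?_)
    rw [norm_smul, Complex.norm_real, Real.norm_eq_abs]
  have h2 : 0 ≤ ‖VV X E ε W x‖ := norm_nonneg _
  have h3 : ‖VV X E ε W x‖ ^ 2
      ≤ (|X x| * ‖Rp (ee d) E ε W (dl x)‖ + ‖TT (ee d) X E ε W (dl x)‖) ^ 2 :=
    pow_le_pow_left₀ h2 h1 2
  have h4 : |X x| ^ 2 = (X x) ^ 2 := sq_abs _
  nlinarith [sq_nonneg (|X x| * ‖Rp (ee d) E ε W (dl x)‖ - ‖TT (ee d) X E ε W (dl x)‖)]

theorem TT_sh (X : ZZ d →+ ℝ) {E ε : ℝ} (hε : 0 < ε) (W : ZZ d → ℝ) (x : ZZ d) :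
    ‖TT (ee d) X E ε W (dl x)‖ = ‖TT (ee d) X E ε (sh x W) (dl 0)‖ := by
  have hp := AlgAux.zp_ne (E := E) hε
  have hm := AlgAux.zm_ne (E := E) hε
  have h2 : (dl x : ell (ZZ d)) = T x (dl 0) := by rw [T_dl, zero_add]
  have h3 : TT (ee d) X E ε W (T x (dl 0)) = T x (TT (ee d) X E ε (sh x W) (dl 0)) := by
    simp only [TT, Rp, Rm, ContinuousLinearMap.comp_apply]
    rw [R_cov (ee d) W hp, Vel_T, R_cov (ee d) W hm]
  rw [h2, h3, T_norm]

lemma vvb_pair_meas (E : ℝ) : Measurable (fun W : ZZ d → ℝ => (E, W)) :=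
  measurable_const.prodMk measurable_id

lemma vvb_TT_meas (X : ZZ d →+ ℝ) (E : ℝ) {ε : ℝ} (hε : 0 < ε) (x : ZZ d) :
    Measurable (fun W : ZZ d → ℝ => ENNReal.ofReal (‖TT (ee d) X E ε W (dl x)‖ ^ 2)) := by
  have h4 := (TT_meas (ee d) X hε x).comp_measurable (vvb_pair_meas (d := d) E)
  exact (h4.norm.pow 2).measurable.ennreal_ofReal

lemma vvb_Rp_meas (E : ℝ) {ε : ℝ} (hε : 0 < ε) (x : ZZ d) :
    Measurable (fun W : ZZ d → ℝ => ENNReal.ofReal (‖Rp (ee d) E ε W (dl x)‖ ^ 2)) := by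
  have h4 := ((Rp_ME (ee d) hε).sm (dl x)).comp_measurable (vvb_pair_meas (d := d) E)
  exact (h4.norm.pow 2).measurable.ennreal_ofReal

theorem pv_meas (X : ZZ d →+ ℝ) (E : ℝ) {ε : ℝ} (hε : 0 < ε) (x : ZZ d) :
    Measurable (fun W : ZZ d → ℝ => pv X E ε W x) := by
  have h1 := ((Rp_ME (ee d) hε).sm (dl x)).comp_measurable (vvb_pair_meas (d := d) E)
  have h2 := (((Rp_ME (ee d) hε).comp ((ME.const (Vel (ee d) X)).comp
    (Rp_ME (ee d) hε))).sm (dl x)).comp_measurable (vvb_pair_meas (d := d) E)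
  have h3 : StronglyMeasurable (fun W : ZZ d → ℝ => VV X E ε W x) :=
    (h1.const_smul (X x : ℂ)).sub (h2.const_smul I)
  exact (h3.norm.pow 2).measurable.ennreal_ofReal

theorem pv_int_zero (μ : Measure ℝ) [IsProbabilityMeasure μ] (X : ZZ d →+ ℝ) (E : ℝ) {ε : ℝ}
    (hε : 0 < ε) : ∫⁻ W, pv X E ε W 0 ∂(PP (ZZ d) μ) = MM μ X E ε := by
  unfold MM pv
  refine lintegral_congr fun W => ?_
  rw [VV_zero_norm X hε]

theorem pv_int_le (μ : Measure ℝ) [IsProbabilityMeasure μ] (X : ZZ d →+ ℝ) (E : ℝ) {ε : ℝ}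
    (hε : 0 < ε) (x : ZZ d) : ∫⁻ W, pv X E ε W x ∂(PP (ZZ d) μ)
      ≤ 2 * MM μ X E ε + ENNReal.ofReal (2 * (X x) ^ 2) * QQ μ d E ε := by
  have h1 : ∀ W, pv X E ε W x ≤ 2 * ENNReal.ofReal (‖TT (ee d) X E ε (sh x W) (dl 0)‖ ^ 2)
      + ENNReal.ofReal (2 * (X x) ^ 2) *
        ENNReal.ofReal (‖Rp (ee d) E ε (sh x W) (dl 0)‖ ^ 2) := by
    intro W
    rw [← TT_sh X hε, ← Rp_sh hε]
    have h2 : (2 : ℝ≥0∞) * ENNReal.ofReal (‖TT (ee d) X E ε W (dl x)‖ ^ 2)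
        = ENNReal.ofReal (2 * ‖TT (ee d) X E ε W (dl x)‖ ^ 2) := by
      rw [ENNReal.ofReal_mul (by norm_num)]; norm_num
    rw [h2, ← ENNReal.ofReal_mul (by positivity),
      ← ENNReal.ofReal_add (by positivity) (by positivity)]
    exact ENNReal.ofReal_le_ofReal (VV_norm_sq_le X hε W x)
  have m1 := vvb_TT_meas X E hε (0 : ZZ d)
  have m2 := vvb_Rp_meas E hε (0 : ZZ d)
  have hs := sh_mp μ x
  have m1' : Measurable (fun W : ZZ d → ℝ =>
      ENNReal.ofReal (‖TT (ee d) X E ε (sh x W) (dl 0)‖ ^ 2)) := m1.comp hs.measurable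
  have m2' : Measurable (fun W : ZZ d → ℝ =>
      ENNReal.ofReal (‖Rp (ee d) E ε (sh x W) (dl 0)‖ ^ 2)) := m2.comp hs.measurable
  refine (lintegral_mono h1).trans (le_of_eq ?_)
  rw [lintegral_add_left (m1'.const_mul _), lintegral_const_mul _ m1', lintegral_const_mul _ m2']
  congr 1
  · congr 1
    exact hs.lintegral_comp m1
  · congr 1
    exact hs.lintegral_comp m2

theorem MM_ne_top (μ : Measure ℝ) [IsProbabilityMeasure μ] (X : ZZ d →+ ℝ) (E : ℝ) {ε : ℝ}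
    (hε : 0 < ε) : MM μ X E ε ≠ ∞ := by
  unfold MM
  have h1 : ∀ W : ZZ d → ℝ, ENNReal.ofReal (‖TT (ee d) X E ε W (dl 0)‖ ^ 2)
      ≤ ENNReal.ofReal ((1 / ε * (‖Vel (ee d) X‖ * (1 / ε))) ^ 2) := by
    intro W
    apply ENNReal.ofReal_le_ofReal
    refine pow_le_pow_left₀ (norm_nonneg _) ?_ 2
    have a1 := AlgAux.Rp_norm (ee d) E hε W (dl 0)
    rw [dl_norm] at a1
    have a2 : ‖Rp (ee d) E ε W (dl 0)‖ ≤ 1 / ε := by rw [le_div_iff₀ hε]; linarith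
    have a3 := AlgAux.Rm_norm (ee d) E hε W (Vel (ee d) X (Rp (ee d) E ε W (dl 0)))
    have a4 : ‖Vel (ee d) X (Rp (ee d) E ε W (dl 0))‖ ≤ ‖Vel (ee d) X‖ * (1 / ε) :=
      ((Vel (ee d) X).le_opNorm _).trans (mul_le_mul_of_nonneg_left a2 (norm_nonneg _))
    have a5 : ‖TT (ee d) X E ε W (dl 0)‖ ≤ 1 / ε * (‖Vel (ee d) X‖ * (1 / ε)) := by
      have a6 : ε * ‖TT (ee d) X E ε W (dl 0)‖ ≤ ‖Vel (ee d) X‖ * (1 / ε) := a3.trans a4
      rw [one_div, inv_mul_eq_div, le_div_iff₀ hε, ← one_div]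
      linarith
    exact a5
  refine ne_top_of_le_ne_top ?_ (lintegral_mono h1)
  rw [lintegral_const, measure_univ, mul_one]
  exact ENNReal.ofReal_ne_top

theorem QQ_ne_top (μ : Measure ℝ) [IsProbabilityMeasure μ] (E : ℝ) {ε : ℝ}
    (hε : 0 < ε) : QQ μ d E ε ≠ ∞ := by
  unfold QQ
  have h1 : ∀ W : ZZ d → ℝ, ENNReal.ofReal (‖Rp (ee d) E ε W (dl 0)‖ ^ 2)
      ≤ ENNReal.ofReal ((1 / ε) ^ 2) := by
    intro W
    apply ENNReal.ofReal_le_ofReal
    refine pow_le_pow_left₀ (norm_nonneg _) ?_ 2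
    have a1 := AlgAux.Rp_norm (ee d) E hε W (dl 0)
    rw [dl_norm] at a1
    rw [le_div_iff₀ hε]; linarith
  refine ne_top_of_le_ne_top ?_ (lintegral_mono h1)
  rw [lintegral_const, measure_univ, mul_one]
  exact ENNReal.ofReal_ne_top

end Pool.SU
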