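import Mathlib
import Pool.Agent.SU.Defs
import Pool.Agent.SU.Green
import Pool.Agent.SU.VVb

/-!
# Module B3: one site
-/

set_option autoImplicit false
set_option linter.unusedSectionVars false
set_option linter.unusedVariables false

open Complex MeasureTheory Filter Topology Set ContinuousLinearMap
open scoped InnerProductSpace ENNReal NNReal

namespace Pool.SU

open Pool.NB Pool.SB

variable {d : ℕ}

theorem wv_im {E ε : ℝ} (hε : 0 < ε) (W : ZZ d → ℝ) (x : ZZ d) : ε ≤ (wv E ε W x).im := by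
  have h0 : GF E ε W x x ≠ 0 := GF_ne hε W x
  have h1 : (wv E ε W x).im = (GF E ε W x x).im / ‖GF E ε W x x‖ ^ 2 := by
    unfold wv
    rw [sub_im, ofReal_im, inv_im, Complex.normSq_eq_norm_sq]
    ring
  have hpos : 0 < ‖GF E ε W x x‖ ^ 2 := by positivity
  rw [h1, le_div_iff₀ hpos, GF_im hε]
  have h2 : ‖GF E ε W x x‖ ≤ ‖Rp (ee d) E ε W (dl x)‖ := lp.norm_apply_le_norm (by norm_num) _ x
  have h3 : ‖GF E ε W x x‖ ^ 2 ≤ ‖Rp (ee d) E ε W (dl x)‖ ^ 2 :=
    pow_le_pow_left₀ (norm_nonneg _) h2 2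
  exact mul_le_mul_of_nonneg_left h3 hε.le

lemma b3_inv {E ε : ℝ} (hε : 0 < ε) (W : ZZ d → ℝ) (x : ZZ d) (b : ℝ) :
    (GF E ε (Function.update W x b) x x)⁻¹ = (GF E ε W x x)⁻¹ + ((b - W x : ℝ) : ℂ) := by
  have h0 : GF E ε W x x ≠ 0 := GF_ne hε W x
  have h1 : GF E ε (Function.update W x b) x x ≠ 0 := GF_ne hε _ x
  have h2 := GF_upd (E := E) hε W x b x x
  field_simp
  linear_combination (-1 : ℂ) * h2

theorem wv_upd {E ε : ℝ} (hε : 0 < ε) (W : ZZ d → ℝ) (x : ZZ d) (b : ℝ) :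
    wv E ε (Function.update W x b) x = wv E ε W x := by
  unfold wv
  rw [b3_inv hε, Function.update_self]
  push_cast
  ring

theorem wv_congr {E ε : ℝ} (hε : 0 < ε) (W W' : ZZ d → ℝ) (x : ZZ d)
    (h : ∀ y, y ≠ x → W y = W' y) : wv E ε W x = wv E ε W' x := by
  have h1 : W' = Function.update W x (W' x) := by
    funext y
    by_cases hy : y = x
    · subst hy; rw [Function.update_self]
    · rw [Function.update_of_ne hy, h y hy]
  rw [h1, wv_upd hε]

theorem GF_wv {E ε : ℝ} (hε : 0 < ε) (W : ZZ d → ℝ) (x : ZZ d) :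
    GF E ε W x x = ((W x : ℂ) - wv E ε W x)⁻¹ := by
  unfold wv
  rw [sub_sub_cancel, inv_inv]

theorem GF_ratio {E ε : ℝ} (hε : 0 < ε) (W : ZZ d → ℝ) (x y : ZZ d) (b : ℝ) :
    GF E ε (Function.update W x b) y x * GF E ε W x x
      = GF E ε W y x * GF E ε (Function.update W x b) x x := by
  have h1 := GF_upd (E := E) hε W x b y x
  have h2 := GF_upd (E := E) hε W x b x x
  linear_combination (GF E ε W x x) * h1 - (GF E ε W y x) * h2

theorem VV_ratio (X : ZZ d →+ ℝ) {E ε : ℝ} (hε : 0 < ε) (W : ZZ d → ℝ) (x : ZZ d) (b : ℝ) :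
    (GF E ε W x x) • VV X E ε (Function.update W x b) x
      = (GF E ε (Function.update W x b) x x) • VV X E ε W x := by
  have h1 := VV_upd X (E := E) hε W x b x
  have h2 := GF_upd (E := E) hε W x b x x
  have h3 : GF E ε (Function.update W x b) x x
      = GF E ε W x x - GF E ε W x x * (((b - W x : ℝ) : ℂ) * GF E ε (Function.update W x b) x x) := by
    linear_combination h2
  rw [h1, smul_sub, smul_smul, ← sub_smul, ← h3]

theorem wv_meas (E : ℝ) {ε : ℝ} (hε : 0 < ε) (x : ZZ d) :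
    Measurable (fun W : ZZ d → ℝ => wv E ε W x) := by
  unfold wv
  exact (Complex.measurable_ofReal.comp (measurable_pi_apply x)).sub
    (GF_meas E hε x x).inv

theorem wv_sh {E ε : ℝ} (hε : 0 < ε) (W : ZZ d → ℝ) (x : ZZ d) :
    wv E ε W x = wv E ε (sh x W) 0 := by
  have h1 := GF_sh (E := E) hε W x 0 0
  rw [zero_add] at h1
  unfold wv
  rw [h1]
  simp only [sh, zero_add]

theorem Gd_meas (a b K : ℝ) : MeasurableSet (Gd a b K) := by
  have him : Measurable (fun w : ℂ => w.im) := Complex.measurable_im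
  have hre : Measurable (fun w : ℂ => w.re) := Complex.measurable_re
  have hn : Measurable (fun w : ℂ => ‖w‖) := measurable_norm
  have h1 : Gd a b K = {w : ℂ | 0 < w.im} ∩ ({w : ℂ | ‖w‖ ≤ K} ∩
      ({w : ℂ | a - K * w.im ≤ w.re} ∩ {w : ℂ | w.re ≤ b + K * w.im})) := by
    ext w; simp [Gd]
  rw [h1]
  exact (measurableSet_lt measurable_const him).inter
    ((measurableSet_le hn measurable_const).inter
      ((measurableSet_le (measurable_const.sub (him.const_mul K)) hre).inter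
        (measurableSet_le hre (measurable_const.add (him.const_mul K)))))

lemma b3_norm_meas (E : ℝ) {ε : ℝ} (hε : 0 < ε) (x y : ZZ d) :
    Measurable (fun W : ZZ d → ℝ => ‖GF E ε W x y‖) := (GF_meas E hε x y).norm

theorem resEv_meas (E : ℝ) {ε : ℝ} (hε : 0 < ε) (τ g : ℝ) :
    MeasurableSet (resEv E ε τ g : Set (ZZ d → ℝ)) := by
  have h1 : (resEv E ε τ g : Set (ZZ d → ℝ))
      = ⋃ x : ZZ d, {W | g ≤ ‖GF E ε W 0 x‖ * τ ^ (2 * n1 x)} := by
    ext W; simp [resEv]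
  rw [h1]
  exact MeasurableSet.iUnion fun x =>
    measurableSet_le measurable_const ((b3_norm_meas E hε 0 x).mul_const _)

theorem evP_meas (E : ℝ) {ε : ℝ} (hε : 0 < ε) (τ κ R g : ℝ) (x : ZZ d) :
    MeasurableSet (evP E ε τ κ R g x) := by
  have h1 : (evP E ε τ κ R g x : Set (ZZ d → ℝ))
      = {W | R * τ ^ (n1 x) * ‖GF E ε W x x‖ < ‖GF E ε W 0 x‖} ∩
        ({W | κ * ‖GF E ε W 0 0‖ ≤ ‖GF E ε W 0 x‖ * τ ^ (2 * n1 x)} ∩
          {W | κ * g ≤ ‖GF E ε W 0 x‖ * τ ^ (2 * n1 x)}) := by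
    ext W; simp [evP]
  rw [h1]
  exact (measurableSet_lt ((b3_norm_meas E hε x x).const_mul _) (b3_norm_meas E hε 0 x)).inter
    ((measurableSet_le ((b3_norm_meas E hε 0 0).const_mul _)
      ((b3_norm_meas E hε 0 x).mul_const _)).inter
      (measurableSet_le measurable_const ((b3_norm_meas E hε 0 x).mul_const _)))

theorem evG_meas (E : ℝ) {ε : ℝ} (hε : 0 < ε) (τ κ R g a b K : ℝ) (x : ZZ d) :
    MeasurableSet (evG E ε τ κ R g a b K x) := by
  have h1 : (evG E ε τ κ R g a b K x : Set (ZZ d → ℝ))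
      = {W | ‖GF E ε W 0 x‖ ≤ R * τ ^ (n1 x) * ‖GF E ε W x x‖} ∩
        ({W | κ * g ≤ ‖GF E ε W 0 x‖ * τ ^ (2 * n1 x)} ∩
          {W | wv E ε W x ∈ Gd a b K}) := by
    ext W; simp [evG]
  rw [h1]
  exact (measurableSet_le (b3_norm_meas E hε 0 x) ((b3_norm_meas E hε x x).const_mul _)).inter
    ((measurableSet_le measurable_const ((b3_norm_meas E hε 0 x).mul_const _)).inter
      ((wv_meas E hε x) (Gd_meas a b K)))

theorem evT_meas (E : ℝ) {ε : ℝ} (hε : 0 < ε) (τ κ R g a b : ℝ) (q o o' : ZZ d) (n : ℕ) :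
    MeasurableSet (evT E ε τ κ R g a b q o o' n) := by
  have h1 : (evT E ε τ κ R g a b q o o' n : Set (ZZ d → ℝ))
      = {W | ‖GF E ε W 0 q‖ * τ ^ (2 * n1 q) ≤ 2 ^ (n + 1) * g} ∩
        ((⋂ x : ZZ d, {W | ‖GF E ε W 0 x‖ * τ ^ (2 * n1 x) ≤ ‖GF E ε W 0 q‖ * τ ^ (2 * n1 q)}) ∩
          ⋂ x : ZZ d, ⋂ _ : (x = q ∨ x = q + o ∨ x = q + o'),
            ({W | |W x - a| ≤ R * τ ^ (3 * n1 q) / (κ * 2 ^ n * g)} ∪
              {W | |W x - b| ≤ R * τ ^ (3 * n1 q) / (κ * 2 ^ n * g)})) := by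
    ext W
    simp only [evT, mem_ofPred_eq, mem_inter_iff, mem_iInter, mem_union]
  have hW : ∀ (x : ZZ d) (s : ℝ), Measurable (fun W : ZZ d → ℝ => |W x - s|) := fun x s => by
    have := ((measurable_pi_apply x : Measurable (fun W : ZZ d → ℝ => W x)).sub_const s).norm
    simpa only [Real.norm_eq_abs] using this
  rw [h1]
  refine (measurableSet_le ((b3_norm_meas E hε 0 q).mul_const _) measurable_const).inter
    ((MeasurableSet.iInter fun x => measurableSet_le ((b3_norm_meas E hε 0 x).mul_const _)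
      ((b3_norm_meas E hε 0 q).mul_const _)).inter
      (MeasurableSet.iInter fun x => MeasurableSet.iInter fun _ =>
        (measurableSet_le (hW x a) measurable_const).union
          (measurableSet_le (hW x b) measurable_const)))

lemma b3_pair (E : ℝ) : Measurable (fun W : ZZ d → ℝ => ((E, W) : ℝ × (ZZ d → ℝ))) :=
  measurable_const.prodMk measurable_id

lemma b3_TT_meas (X : ZZ d →+ ℝ) (E : ℝ) {ε : ℝ} (hε : 0 < ε) :
    Measurable (fun W : ZZ d → ℝ => ENNReal.ofReal (‖TT (ee d) X E ε W (dl 0)‖ ^ 2)) :=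
  (((TT_meas (ee d) X hε 0).comp_measurable (b3_pair E)).norm.pow 2).measurable.ennreal_ofReal

lemma b3_Rp_meas (E : ℝ) {ε : ℝ} (hε : 0 < ε) :
    Measurable (fun W : ZZ d → ℝ => ENNReal.ofReal (‖Rp (ee d) E ε W (dl 0)‖ ^ 2)) :=
  (((((Rp_ME (ee d) hε).sm (dl (0 : ZZ d)))).comp_measurable (b3_pair E)).norm.pow 2).measurable.ennreal_ofReal

theorem pv_int_good (μ : Measure ℝ) [IsProbabilityMeasure μ] (X : ZZ d →+ ℝ) (E : ℝ) {ε : ℝ}
    (hε : 0 < ε) (x : ZZ d) (a b K : ℝ) :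
    ∫⁻ W in {W | wv E ε W x ∈ Gd a b K}, pv X E ε W x ∂(PP (ZZ d) μ)
      ≤ 2 * ∫⁻ W in {W | wv E ε W 0 ∈ Gd a b K}, ENNReal.ofReal (‖TT (ee d) X E ε W (dl 0)‖ ^ 2)
          ∂(PP (ZZ d) μ)
        + ENNReal.ofReal (2 * (X x) ^ 2) * QQ μ d E ε := by
  set S : Set (ZZ d → ℝ) := {W | wv E ε W 0 ∈ Gd a b K} with hS
  have hSm : MeasurableSet S := (wv_meas E hε 0) (Gd_meas a b K)
  set fT : (ZZ d → ℝ) → ℝ≥0∞ := fun W => ENNReal.ofReal (‖TT (ee d) X E ε W (dl 0)‖ ^ 2) with hfT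
  set fR : (ZZ d → ℝ) → ℝ≥0∞ := fun W => ENNReal.ofReal (‖Rp (ee d) E ε W (dl 0)‖ ^ 2) with hfR
  have hTm : Measurable fT := b3_TT_meas X E hε
  have hRm : Measurable fR := b3_Rp_meas E hε
  have hsub : {W : ZZ d → ℝ | wv E ε W x ∈ Gd a b K} = (sh x) ⁻¹' S := by
    ext W
    simp only [hS, mem_ofPred_eq, mem_preimage, wv_sh hε W x]
  have hpt : ∀ W : ZZ d → ℝ, pv X E ε W x
      ≤ 2 * fT (sh x W) + ENNReal.ofReal (2 * (X x) ^ 2) * fR (sh x W) := by
    intro W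
    have h1 := VV_norm_sq_le X (E := E) hε W x
    rw [TT_sh X hε W x, Rp_sh hε W x] at h1
    simp only [pv, hfT, hfR]
    rw [two_ofReal, ← ENNReal.ofReal_mul (by positivity), ← ENNReal.ofReal_add (by positivity)
      (by positivity)]
    exact ENNReal.ofReal_le_ofReal (by linarith)
  have hmp := sh_mp (G := ZZ d) μ x
  rw [hsub]
  calc ∫⁻ W in (sh x) ⁻¹' S, pv X E ε W x ∂(PP (ZZ d) μ)
      ≤ ∫⁻ W in (sh x) ⁻¹' S, (2 * fT (sh x W) + ENNReal.ofReal (2 * (X x) ^ 2) * fR (sh x W))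
          ∂(PP (ZZ d) μ) := lintegral_mono fun W => hpt W
    _ = ∫⁻ W in S, (2 * fT W + ENNReal.ofReal (2 * (X x) ^ 2) * fR W) ∂(PP (ZZ d) μ) :=
        hmp.setLIntegral_comp_preimage hSm ((hTm.const_mul 2).add (hRm.const_mul _))
    _ = 2 * ∫⁻ W in S, fT W ∂(PP (ZZ d) μ)
          + ENNReal.ofReal (2 * (X x) ^ 2) * ∫⁻ W in S, fR W ∂(PP (ZZ d) μ) := by
        rw [lintegral_add_left (hTm.const_mul 2), lintegral_const_mul _ hTm,
          lintegral_const_mul _ hRm]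
    _ ≤ _ := by
        gcongr
        exact setLIntegral_le_lintegral S fR

end Pool.SU
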