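import Mathlib
import Pool.Agent.SU.Green

/-!
# Two sites (module B5)
-/

set_option autoImplicit false
set_option linter.unusedSectionVars false
set_option linter.unusedSimpArgs false

open Complex MeasureTheory Filter Topology Set ContinuousLinearMap
open scoped InnerProductSpace ENNReal NNReal

namespace Pool.SU

open Pool.NB Pool.SB Pool.SB.AlgAux

variable {d : ℕ}

theorem DT_symm {E ε : ℝ} (hε : 0 < ε) (W : ZZ d → ℝ) (x y : ZZ d) :
    DT E ε W x y = DT E ε W y x := by
  unfold DT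
  rw [GF_symm hε W x y, mul_comm]

theorem DT_ne {E ε : ℝ} (hε : 0 < ε) (W : ZZ d → ℝ) {x y : ZZ d} (hxy : x ≠ y) :
    DT E ε W x y ≠ 0 := by
  intro h0
  unfold DT at h0
  set c1 : ℂ := GF E ε W y y with hc1
  set c2 : ℂ := -GF E ε W x y with hc2
  set f : ell (ZZ d) := c1 • dl x + c2 • dl y with hf
  have hRf : ∀ z, Rp (ee d) E ε W f z = c1 * GF E ε W z x + c2 * GF E ε W z y := by
    intro z
    rw [hf, map_add, map_smul, map_smul]
    rfl
  have hin : ⟪f, Rp (ee d) E ε W f⟫_ℂ = 0 := by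
    rw [hf, inner_add_left, inner_smul_left, inner_smul_left, inner_dl, inner_dl, ← hf, hRf, hRf]
    have h1 : c1 * GF E ε W x x + c2 * GF E ε W x y = 0 := by
      rw [hc1, hc2]; linear_combination h0
    have h2 : c1 * GF E ε W y x + c2 * GF E ε W y y = 0 := by
      rw [hc1, hc2, GF_symm hε W y x]; ring
    rw [h1, h2]; simp
  have him := R_im (ee d) W (z := zp E ε) (zp_ne hε) f
  have h3 : ⟪f, R (ee d) W (zp E ε) f⟫_ℂ = 0 := hin
  rw [h3, zp_im] at him
  have h4 : R (ee d) W (zp E ε) f = 0 := by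
    have h5 : ε * ‖R (ee d) W (zp E ε) f‖ ^ 2 = 0 := by simpa using him.symm
    have h6 : ‖R (ee d) W (zp E ε) f‖ = 0 := by
      rcases mul_eq_zero.mp h5 with h | h
      · exact absurd h hε.ne'
      · exact pow_eq_zero_iff two_ne_zero |>.mp h
    exact norm_eq_zero.mp h6
  have h7 := R_eq (ee d) W (z := zp E ε) (zp_ne hε) f x
  rw [h4, map_zero] at h7
  have h8 : f x = c1 := by
    show c1 * dl x x + c2 * dl y x = c1
    rw [dl_apply, dl_apply, if_pos rfl, if_neg hxy]; ring
  have h9 : c1 = 0 := by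
    rw [← h8, ← h7]; simp
  exact GF_ne hε W y h9

/-- the four scalar identities -/
lemma two_eqs {E ε : ℝ} (hε : 0 < ε) (W W' : ZZ d → ℝ) {x y : ZZ d} (hxy : x ≠ y)
    (h : ∀ z, z ≠ x → z ≠ y → W z = W' z) (u v : ZZ d) :
    GF E ε W u v = GF E ε W' u v
      + (((W' x - W x : ℝ) : ℂ) * GF E ε W x v * GF E ε W' u x
        + ((W' y - W y : ℝ) : ℂ) * GF E ε W y v * GF E ε W' u y) := by
  have h1 := GF_spl (E := E) hε ({x, y} : Finset (ZZ d)) W' W u v
  have h2 : spl ({x, y} : Finset (ZZ d)) W' W = W' := by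
    funext z
    unfold spl
    split_ifs with hz
    · rfl
    · rw [Finset.mem_insert, Finset.mem_singleton, not_or] at hz
      exact h z hz.1 hz.2
  rw [h2, Finset.sum_pair hxy] at h1
  exact h1

theorem two_diag {E ε : ℝ} (hε : 0 < ε) (W W' : ZZ d → ℝ) {x y : ZZ d} (hxy : x ≠ y)
    (h : ∀ z, z ≠ x → z ≠ y → W z = W' z) :
    (W x : ℂ) - GF E ε W y y / DT E ε W x y = (W' x : ℂ) - GF E ε W' y y / DT E ε W' x y := by
  have hD := DT_ne (E := E) hε W hxy
  have hD' := DT_ne (E := E) hε W' hxy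
  have e1 := two_eqs (E := E) hε W W' hxy h x x
  have e2 := two_eqs (E := E) hε W W' hxy h x y
  have e3 := two_eqs (E := E) hε W W' hxy h y x
  have e4 := two_eqs (E := E) hε W W' hxy h y y
  rw [GF_symm hε W y x, GF_symm hε W' y x] at e3
  rw [GF_symm hε W' y x] at e4
  rw [GF_symm hε W y x] at e1
  have key : GF E ε W' y y * DT E ε W x y
      = GF E ε W y y * DT E ε W' x y
        + ((W' x - W x : ℝ) : ℂ) * DT E ε W x y * DT E ε W' x y := by
    unfold DT
    linear_combination GF E ε W y y * (GF E ε W' y y * e1 - GF E ε W' x y * e3)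
      - GF E ε W x y * (GF E ε W' y y * e2 - GF E ε W' x y * e4)
  field_simp
  push_cast at key
  linear_combination key

theorem two_off {E ε : ℝ} (hε : 0 < ε) (W W' : ZZ d → ℝ) {x y : ZZ d} (hxy : x ≠ y)
    (h : ∀ z, z ≠ x → z ≠ y → W z = W' z) :
    GF E ε W x y / DT E ε W x y = GF E ε W' x y / DT E ε W' x y := by
  have hD := DT_ne (E := E) hε W hxy
  have hD' := DT_ne (E := E) hε W' hxy
  have e1 := two_eqs (E := E) hε W W' hxy h x x
  have e2 := two_eqs (E := E) hε W W' hxy h x y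
  have e3 := two_eqs (E := E) hε W W' hxy h y x
  have e4 := two_eqs (E := E) hε W W' hxy h y y
  rw [GF_symm hε W y x, GF_symm hε W' y x] at e3
  rw [GF_symm hε W' y x] at e4
  rw [GF_symm hε W y x] at e1
  have key : GF E ε W' x y * DT E ε W x y = GF E ε W x y * DT E ε W' x y := by
    unfold DT
    linear_combination -GF E ε W y y * (-GF E ε W' x y * e1 + GF E ε W' x x * e3)
      + GF E ε W x y * (-GF E ε W' x y * e2 + GF E ε W' x x * e4)
  rw [div_eq_div_iff hD hD']
  linear_combination -key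

end Pool.SU
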