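import Pool.Agent.SU.Defs
import Pool.Agent.SU.Green
import Pool.Agent.SU.Meas
import Pool.Agent.SU.VVb
import Pool.Agent.SU.OneSite
import Pool.Agent.SU.Two
import Pool.Agent.SU.Loc2
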