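import Mathlib
import Pool.Agent.SU.Defs
import Pool.Agent.SU.Base

/-!
# Energies in the interior of the spectrum

Assembly of the near resonance estimate, the Remez chain and the estimates in the box.
-/

set_option autoImplicit false
set_option linter.unusedSectionVars false
set_option linter.unusedSimpArgs false

open Complex MeasureTheory Filter Topology Set ContinuousLinearMap
open scoped InnerProductSpace ENNReal NNReal

namespace Pool.SU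

open Pool.NB Pool.SB

variable {d : ℕ}

lemma bulk_biUnion_le {α ι : Type*} [MeasurableSpace α] (m : Measure α) (s : Finset ι)
    (t : ι → Set α) (f : α → ℝ≥0∞) :
    ∫⁻ a in ⋃ i ∈ s, t i, f a ∂m ≤ ∑ i ∈ s, ∫⁻ a in t i, f a ∂m := by
  classical
  induction s using Finset.induction_on with
  | empty => simp
  | insert i s hi ih =>
    rw [Finset.set_biUnion_insert, Finset.sum_insert hi]
    exact (lintegral_union_le _ _ _).trans (add_le_add le_rfl ih)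

lemma bulk_spl_meas (Λ : Finset (ZZ d)) (W : ZZ d → ℝ) :
    Measurable (fun W' : ZZ d → ℝ => spl Λ W' W) := by
  rw [measurable_pi_iff]
  intro x
  by_cases hx : x ∈ Λ
  · simp only [spl, hx, if_true]
    exact measurable_pi_apply x
  · simp only [spl, hx, if_false]
    exact measurable_const

/-- the part where all entries of the Green function in the box are bounded -/
lemma bulk_remez {μ : Measure ℝ} [IsProbabilityMeasure μ] {a b : ℝ}
    (X : ZZ d →+ ℝ) (E ε : ℝ) (hε : 0 < ε) (Λ : Finset (ZZ d)) (K θ G KR : ℝ)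
    (hR : ∀ W ∈ Om d a b, (∀ x ∈ Λ, ∀ y ∈ Λ, ‖GF E ε W x y‖ ≤ G) →
      ∀ B : Set (ZZ d → ℝ), MeasurableSet B → ENNReal.ofReal θ ≤ (PP (ZZ d) μ) B →
        pv X E ε W 0 ≤ ENNReal.ofReal KR * ∫⁻ W' in B, pv X E ε (spl Λ W' W) 0 ∂(PP (ZZ d) μ))
    (hG : ∀ W ∈ Om d a b, ENNReal.ofReal θ ≤
        (PP (ZZ d) μ) {W' | wv E ε (spl Λ W' W) 0 ∈ Gd a b K}) :
    ∫⁻ W in {W | W ∈ Om d a b ∧ ∀ x ∈ Λ, ∀ y ∈ Λ, ‖GF E ε W x y‖ ≤ G}, pv X E ε W 0
        ∂(PP (ZZ d) μ)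
      ≤ ENNReal.ofReal KR * ∫⁻ W in {W | wv E ε W 0 ∈ Gd a b K},
          ENNReal.ofReal (‖TT (ee d) X E ε W (dl 0)‖ ^ 2) ∂(PP (ZZ d) μ) := by
  have hGd : MeasurableSet {W : ZZ d → ℝ | wv E ε W 0 ∈ Gd a b K} :=
    (wv_meas E hε 0) (Gd_meas a b K)
  set F : (ZZ d → ℝ) → ℝ≥0∞ :=
    {W : ZZ d → ℝ | wv E ε W 0 ∈ Gd a b K}.indicator (fun W => pv X E ε W 0) with hF
  have hFm : Measurable F := (pv_meas X E hε 0).indicator hGd
  have hset : MeasurableSet {W : ZZ d → ℝ | W ∈ Om d a b ∧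
      ∀ x ∈ Λ, ∀ y ∈ Λ, ‖GF E ε W x y‖ ≤ G} := by
    refine MeasurableSet.inter (Om_meas a b) ?_
    have h1 : {W : ZZ d → ℝ | ∀ x ∈ Λ, ∀ y ∈ Λ, ‖GF E ε W x y‖ ≤ G}
        = ⋂ x ∈ Λ, ⋂ y ∈ Λ, {W : ZZ d → ℝ | ‖GF E ε W x y‖ ≤ G} := by
      ext W; simp only [mem_ofPred_eq, mem_iInter]
    change MeasurableSet {W : ZZ d → ℝ | ∀ x ∈ Λ, ∀ y ∈ Λ, ‖GF E ε W x y‖ ≤ G}
    rw [h1]
    refine Finset.measurableSet_biInter _ fun x _ => Finset.measurableSet_biInter _ fun y _ => ?_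
    exact measurableSet_le (GF_meas E hε x y).norm measurable_const
  calc ∫⁻ W in {W | W ∈ Om d a b ∧ ∀ x ∈ Λ, ∀ y ∈ Λ, ‖GF E ε W x y‖ ≤ G}, pv X E ε W 0
        ∂(PP (ZZ d) μ)
      ≤ ∫⁻ W in {W | W ∈ Om d a b ∧ ∀ x ∈ Λ, ∀ y ∈ Λ, ‖GF E ε W x y‖ ≤ G},
          ENNReal.ofReal KR * ∫⁻ W', F (spl Λ W' W) ∂(PP (ZZ d) μ) ∂(PP (ZZ d) μ) := by
        refine setLIntegral_mono' hset fun W hW => ?_
        have hB : MeasurableSet {W' : ZZ d → ℝ | wv E ε (spl Λ W' W) 0 ∈ Gd a b K} :=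
          (bulk_spl_meas Λ W) hGd
        refine (hR W hW.1 hW.2 _ hB (hG W hW.1)).trans (le_of_eq ?_)
        congr 1
        rw [← lintegral_indicator hB]
        rfl
    _ ≤ ∫⁻ W, ENNReal.ofReal KR * ∫⁻ W', F (spl Λ W' W) ∂(PP (ZZ d) μ) ∂(PP (ZZ d) μ) :=
        setLIntegral_le_lintegral _ _
    _ = ENNReal.ofReal KR * ∫⁻ W, ∫⁻ W', F (spl Λ W' W) ∂(PP (ZZ d) μ) ∂(PP (ZZ d) μ) :=
        lintegral_const_mul' _ _ ENNReal.ofReal_ne_top
    _ = ENNReal.ofReal KR * ∫⁻ W, F W ∂(PP (ZZ d) μ) := by rw [lint_spl μ Λ hFm]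
    _ = ENNReal.ofReal KR * ∫⁻ W in {W | wv E ε W 0 ∈ Gd a b K},
          ENNReal.ofReal (‖TT (ee d) X E ε W (dl 0)‖ ^ 2) ∂(PP (ZZ d) μ) := by
        congr 1
        rw [hF, lintegral_indicator hGd]
        refine lintegral_congr fun W => ?_
        unfold pv
        rw [VV_zero_norm X hε W]

/-- final absorption -/
lemma bulk_absorb {M Q S : ℝ≥0∞} (hM : M ≠ ∞) (K2 D KR : ℝ) (hK2 : 0 < K2) (hD : 0 ≤ D)
    (hKR : 0 ≤ KR)
    (h : M ≤ (ENNReal.ofReal (1 / 8) * (M + Q) + ENNReal.ofReal K2 * (S + Q))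
      + ((ENNReal.ofReal (1 / 8) * M + ENNReal.ofReal D * Q)
        + (ENNReal.ofReal (1 / 8) * M + ENNReal.ofReal D * Q) + ENNReal.ofReal KR * S)) :
    M ≤ ENNReal.ofReal (2 * (K2 + 2 * D + KR + 1)) * (S + Q) := by
  have hKpos : 0 < 2 * (K2 + 2 * D + KR + 1) := by positivity
  have htop : ENNReal.ofReal (2 * (K2 + 2 * D + KR + 1)) * ∞ = ∞ :=
    ENNReal.mul_top (by simpa using hKpos)
  by_cases hS : S = ∞
  · rw [hS, top_add, htop]; exact le_top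
  by_cases hQ : Q = ∞
  · rw [hQ, add_top, htop]; exact le_top
  lift M to ℝ≥0 using hM
  lift S to ℝ≥0 using hS
  lift Q to ℝ≥0 using hQ
  have e1 : ∀ r : ℝ, 0 ≤ r → ∀ x : ℝ≥0, ENNReal.ofReal r * (x : ℝ≥0∞)
      = ENNReal.ofReal (r * x) := by
    intro r hr x
    rw [ENNReal.ofReal_mul hr, ENNReal.ofReal_coe_nnreal]
  have hm : (0 : ℝ) ≤ M := M.2
  have hs : (0 : ℝ) ≤ S := S.2
  have hq : (0 : ℝ) ≤ Q := Q.2
  rw [← ENNReal.coe_add, ← ENNReal.coe_add, e1 _ (by norm_num), e1 _ hK2.le, e1 _ (by norm_num),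
    e1 _ hD, e1 _ hKR, ← ENNReal.ofReal_add (by positivity) (by positivity),
    ← ENNReal.ofReal_add (by positivity) (by positivity),
    ← ENNReal.ofReal_add (by positivity) (by positivity),
    ← ENNReal.ofReal_add (by positivity) (by positivity),
    ← ENNReal.ofReal_add (by positivity) (by positivity), ← ENNReal.ofReal_coe_nnreal,
    ENNReal.ofReal_le_ofReal_iff (by positivity)] at h
  rw [← ENNReal.coe_add, e1 _ hKpos.le, ← ENNReal.ofReal_coe_nnreal,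
    ENNReal.ofReal_le_ofReal_iff (by positivity)]
  push_cast at h ⊢
  nlinarith [mul_nonneg hK2.le hs, mul_nonneg hK2.le hq, mul_nonneg hD hs, mul_nonneg hD hq,
    mul_nonneg hKR hs, mul_nonneg hKR hq]

theorem bulk_of : StmtP1 → StmtP2 → StmtGood → StmtRemez → StmtDiag → StmtOff → StmtBulk := by
  intro hP1 hP2 hGood hRemez hDiag hOff μ _ a b c C hμ d hd X E0 hE0 hE0'
  obtain ⟨Λ, h0Λ, θ, ηG, hθ, hηG, hgood⟩ := hGood μ a b c C hμ d hd E0 hE0 hE0'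
  have hKpos : 0 < |a| + |b| + 1 := by positivity
  obtain ⟨KP, hKP, hP1'⟩ := hP1 μ a b c C hμ d X (|a| + |b| + 1) hKpos
  obtain ⟨g, hg1, K2, hK2, hP2'⟩ := hP2 μ a b c C hμ d hd X (|E0| + 1) (1 / 2) (1 / 8)
    (by positivity) (by norm_num) (by norm_num) (by norm_num)
  obtain ⟨KD, hKD, hDiag'⟩ := hDiag μ a b c C hμ d
  obtain ⟨KO, hKO, hOff'⟩ := hOff μ a b c C hμ d
  -- constants
  set n : ℕ := Λ.sup n1 with hn
  set B : ℝ := g * 4 ^ n with hB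
  have hB1 : 1 ≤ B := by
    have : (1 : ℝ) ≤ 4 ^ n := one_le_pow₀ (by norm_num)
    nlinarith
  have hB0 : 0 < B := by linarith
  set N : ℝ := (Λ.card : ℝ) with hN
  have hN1 : 1 ≤ N := by
    have : 0 < Λ.card := Finset.card_pos.mpr ⟨0, h0Λ⟩
    rw [hN]; exact_mod_cast this
  have hN0 : 0 < N := by linarith
  set gd : ℝ := 24 * N * KD * B ^ 2 with hgd
  have hgd0 : 0 < gd := by positivity
  set go : ℝ := 2 * gd + 40 * N ^ 2 * KO * B ^ 2 * gd + 1 with hgo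
  have hgo1 : 1 ≤ go := by
    have : 0 ≤ 2 * gd + 40 * N ^ 2 * KO * B ^ 2 * gd := by positivity
    linarith
  have hgo0 : 0 < go := by linarith
  have hgo2 : 2 * gd ≤ go := by
    have : 0 ≤ 40 * N ^ 2 * KO * B ^ 2 * gd := by positivity
    linarith
  obtain ⟨KR, hKR, hRemez'⟩ := hRemez μ a b c C hμ d Λ go θ h0Λ hgo0 hθ
  set D : ℝ := ∑ x ∈ Λ, 2 * (X x) ^ 2 with hD
  have hD0 : 0 ≤ D := Finset.sum_nonneg fun x _ => by positivity
  have hDx : ∀ x ∈ Λ, 2 * (X x) ^ 2 ≤ D := fun x hx =>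
    Finset.single_le_sum (f := fun x => 2 * (X x) ^ 2) (fun y _ => by positivity) hx
  refine ⟨2 * (K2 + 2 * D + KR * KP + 1), min ηG 1, by positivity, lt_min hηG one_pos,
    min_le_right _ _, fun E ε hE hε hεη => ?_⟩
  have hε1 : ε ≤ 1 := hεη.trans (min_le_right _ _)
  have hεG : ε ≤ ηG := hεη.trans (min_le_left _ _)
  have hEG : |E - E0| ≤ ηG := hE.trans (min_le_left _ _)
  have hE1 : |E| ≤ |E0| + 1 := by
    have h1 : |E - E0| ≤ 1 := hE.trans (min_le_right _ _)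
    have h2 : |E| ≤ |E0| + |E - E0| := by
      have : E = E0 + (E - E0) := by ring
      calc |E| = |E0 + (E - E0)| := by rw [← this]
        _ ≤ |E0| + |E - E0| := abs_add_le _ _
    linarith
  have hpx : ∀ x ∈ Λ, ∫⁻ W, pv X E ε W x ∂(PP (ZZ d) μ)
      ≤ 2 * MM μ X E ε + ENNReal.ofReal D * QQ μ d E ε := fun x hx =>
    (pv_int_le μ X E hε x).trans (add_le_add le_rfl
      (mul_le_mul' (ENNReal.ofReal_le_ofReal (hDx x hx)) le_rfl))
  refine bulk_absorb (MM_ne_top μ X E hε) K2 D (KR * KP) hK2 hD0 (by positivity) ?_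
  -- the sets
  set Dset : ZZ d → Set (ZZ d → ℝ) := fun x =>
    {W | ‖GF E ε W 0 x‖ ≤ B ∧ gd ≤ ‖GF E ε W x x‖} with hDset
  set Oset : ZZ d × ZZ d → Set (ZZ d → ℝ) := fun p =>
    {W | ‖GF E ε W 0 p.1‖ ≤ B ∧ ‖GF E ε W 0 p.2‖ ≤ B ∧ ‖GF E ε W p.1 p.1‖ ≤ gd ∧
        ‖GF E ε W p.2 p.2‖ ≤ gd ∧ go ≤ ‖GF E ε W p.1 p.2‖} with hOset
  set Gset : Set (ZZ d → ℝ) :=
    {W | W ∈ Om d a b ∧ ∀ x ∈ Λ, ∀ y ∈ Λ, ‖GF E ε W x y‖ ≤ go} with hGset
  have hrow : ∀ W : ZZ d → ℝ, W ∉ resEv E ε (1 / 2) g → ∀ x ∈ Λ, ‖GF E ε W 0 x‖ ≤ B := by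
    intro W hW x hx
    have h1 : ‖GF E ε W 0 x‖ * (1 / 2 : ℝ) ^ (2 * n1 x) < g := by
      by_contra hcon
      exact hW ⟨x, not_lt.mp hcon⟩
    have h2 : (1 / 2 : ℝ) ^ (2 * n1 x) * 4 ^ (n1 x) = 1 := by
      rw [pow_mul, ← mul_pow]; norm_num
    have h3 : (4 : ℝ) ^ (n1 x) ≤ 4 ^ n := pow_le_pow_right₀ (by norm_num) (Finset.le_sup hx)
    have h4 : (0 : ℝ) < 4 ^ (n1 x) := by positivity
    calc ‖GF E ε W 0 x‖ = ‖GF E ε W 0 x‖ * (1 / 2 : ℝ) ^ (2 * n1 x) * 4 ^ (n1 x) := by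
          rw [mul_assoc, h2, mul_one]
      _ ≤ g * 4 ^ (n1 x) := mul_le_mul_of_nonneg_right h1.le h4.le
      _ ≤ g * 4 ^ n := mul_le_mul_of_nonneg_left h3 (by linarith)
  have hcover : ∀ W ∈ Om d a b, W ∈ resEv E ε (1 / 2) g ∪
      (((⋃ x ∈ Λ, Dset x) ∪ (⋃ p ∈ Λ.offDiag, Oset p)) ∪ Gset) := by
    intro W hW
    by_cases h1 : W ∈ resEv E ε (1 / 2) g
    · exact Or.inl h1
    right
    have hr := hrow W h1
    by_cases h2 : ∃ x ∈ Λ, gd ≤ ‖GF E ε W x x‖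
    · obtain ⟨x, hx, hxx⟩ := h2
      exact Or.inl (Or.inl (mem_biUnion hx ⟨hr x hx, hxx⟩))
    push Not at h2
    by_cases h3 : ∃ p ∈ Λ.offDiag, go ≤ ‖GF E ε W p.1 p.2‖
    · obtain ⟨p, hp, hpp⟩ := h3
      rw [Finset.mem_offDiag] at hp
      refine Or.inl (Or.inr (mem_biUnion (Finset.mem_offDiag.mpr hp) ?_))
      exact ⟨hr _ hp.1, hr _ hp.2.1, (h2 _ hp.1).le, (h2 _ hp.2.1).le, hpp⟩
    push Not at h3
    right
    refine ⟨hW, fun x hx y hy => ?_⟩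
    by_cases hxy : x = y
    · subst hxy
      linarith [(h2 x hx).le]
    · exact (h3 (x, y) (Finset.mem_offDiag.mpr ⟨hx, hy, hxy⟩)).le
  -- the cover
  have hstep : MM μ X E ε ≤ ∫⁻ W in resEv E ε (1 / 2) g, pv X E ε W 0 ∂(PP (ZZ d) μ)
      + ((∫⁻ W in ⋃ x ∈ Λ, Dset x, pv X E ε W 0 ∂(PP (ZZ d) μ)
        + ∫⁻ W in ⋃ p ∈ Λ.offDiag, Oset p, pv X E ε W 0 ∂(PP (ZZ d) μ))
        + ∫⁻ W in Gset, pv X E ε W 0 ∂(PP (ZZ d) μ)) := by
    rw [← pv_int_zero μ X E hε]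
    have h1 : ∫⁻ W, pv X E ε W 0 ∂(PP (ZZ d) μ) ≤ ∫⁻ W in resEv E ε (1 / 2) g ∪
      (((⋃ x ∈ Λ, Dset x) ∪ (⋃ p ∈ Λ.offDiag, Oset p)) ∪ Gset), pv X E ε W 0
        ∂(PP (ZZ d) μ) := by
      have h2 : (resEv E ε (1 / 2) g ∪
          (((⋃ x ∈ Λ, Dset x) ∪ (⋃ p ∈ Λ.offDiag, Oset p)) ∪ Gset) : Set (ZZ d → ℝ))
          =ᵐ[PP (ZZ d) μ] (univ : Set (ZZ d → ℝ)) := by
        filter_upwards [Om_ae (d := d) hμ] with W hW
        exact propext ⟨fun _ => trivial, fun _ => hcover W hW⟩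
      rw [setLIntegral_congr h2, setLIntegral_univ]
    refine h1.trans ((lintegral_union_le _ _ _).trans (add_le_add le_rfl ?_))
    refine (lintegral_union_le _ _ _).trans (add_le_add ?_ le_rfl)
    exact lintegral_union_le _ _ _
  refine hstep.trans (add_le_add (hP2' E ε hE1 hε hε1) (add_le_add (add_le_add ?_ ?_) ?_))
  · -- diagonal
    refine (bulk_biUnion_le _ _ _ _).trans ?_
    have h1 : ∀ x ∈ Λ, ∫⁻ W in Dset x, pv X E ε W 0 ∂(PP (ZZ d) μ)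
        ≤ ENNReal.ofReal (1 / (24 * N)) * (3 * MM μ X E ε + ENNReal.ofReal D * QQ μ d E ε) := by
      intro x hx
      refine (hDiag' X B gd E ε hB1 hgd0 hε x).trans ?_
      have e1 : KD * B ^ 2 / gd = 1 / (24 * N) := by
        rw [hgd]; field_simp
      rw [e1, pv_int_zero μ X E hε]
      refine mul_le_mul' le_rfl ((add_le_add le_rfl (hpx x hx)).trans (le_of_eq ?_))
      rw [← add_assoc]
      congr 1
      have : (3 : ℝ≥0∞) = 1 + 2 := by norm_num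
      rw [this, add_mul, one_mul]
    refine (Finset.sum_le_sum h1).trans ?_
    rw [Finset.sum_const, nsmul_eq_mul, ← mul_assoc]
    have e2 : (Λ.card : ℝ≥0∞) * ENNReal.ofReal (1 / (24 * N)) = ENNReal.ofReal (1 / 24) := by
      rw [← ENNReal.ofReal_natCast, ← ENNReal.ofReal_mul (by positivity)]
      congr 1
      rw [← hN]; field_simp
    rw [e2, mul_add]
    refine add_le_add (le_of_eq ?_) ?_
    · rw [← mul_assoc]
      congr 1
      have : (3 : ℝ≥0∞) = ENNReal.ofReal 3 := by norm_num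
      rw [this, ← ENNReal.ofReal_mul (by norm_num)]
      congr 1; norm_num
    · rw [← mul_assoc]
      refine mul_le_mul' ?_ le_rfl
      rw [← ENNReal.ofReal_mul (by norm_num)]
      exact ENNReal.ofReal_le_ofReal (by linarith)
  · -- off diagonal
    refine (bulk_biUnion_le _ _ _ _).trans ?_
    have h1 : ∀ p ∈ Λ.offDiag, ∫⁻ W in Oset p, pv X E ε W 0 ∂(PP (ZZ d) μ)
        ≤ ENNReal.ofReal (1 / (40 * N ^ 2)) *
          (5 * MM μ X E ε + ENNReal.ofReal (2 * D) * QQ μ d E ε) := by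
      intro p hp
      rw [Finset.mem_offDiag] at hp
      refine (hOff' X B gd go E ε hB1 hgd0 hgo2 hε p.1 p.2 hp.2.2).trans ?_
      have e1 : KO * B ^ 2 * gd / go ^ 2 ≤ 1 / (40 * N ^ 2) := by
        rw [div_le_div_iff₀ (by positivity) (by positivity)]
        have h2 : go ≤ go ^ 2 := by nlinarith
        have h3 : 40 * N ^ 2 * KO * B ^ 2 * gd ≤ go := by linarith
        nlinarith
      rw [pv_int_zero μ X E hε]
      refine mul_le_mul' (ENNReal.ofReal_le_ofReal e1)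
        ((add_le_add (add_le_add le_rfl (hpx _ hp.1)) (hpx _ hp.2.1)).trans (le_of_eq ?_))
      have h5 : (5 : ℝ≥0∞) = 1 + 2 + 2 := by norm_num
      rw [h5, two_mul D, ENNReal.ofReal_add hD0 hD0]
      ring
    refine (Finset.sum_le_sum h1).trans ?_
    rw [Finset.sum_const, nsmul_eq_mul, ← mul_assoc]
    have e2 : (Λ.offDiag.card : ℝ≥0∞) * ENNReal.ofReal (1 / (40 * N ^ 2))
        ≤ ENNReal.ofReal (1 / 40) := by
      have h2 : ((Λ.offDiag.card : ℕ) : ℝ) ≤ N ^ 2 := by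
        rw [Finset.offDiag_card, hN, sq]
        have : Λ.card * Λ.card - Λ.card ≤ Λ.card * Λ.card := Nat.sub_le _ _
        exact_mod_cast this
      rw [← ENNReal.ofReal_natCast, ← ENNReal.ofReal_mul (by positivity)]
      refine ENNReal.ofReal_le_ofReal ?_
      rw [mul_one_div, div_le_div_iff₀ (by positivity) (by norm_num)]
      linarith
    refine (mul_le_mul' e2 le_rfl).trans ?_
    rw [mul_add]
    refine add_le_add (le_of_eq ?_) ?_
    · rw [← mul_assoc]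
      congr 1
      have : (5 : ℝ≥0∞) = ENNReal.ofReal 5 := by norm_num
      rw [this, ← ENNReal.ofReal_mul (by norm_num)]
      congr 1; norm_num
    · rw [← mul_assoc]
      refine mul_le_mul' ?_ le_rfl
      rw [← ENNReal.ofReal_mul (by norm_num)]
      exact ENNReal.ofReal_le_ofReal (by linarith)
  · -- the Remez part
    refine (bulk_remez X E ε hε Λ (|a| + |b| + 1) θ go KR
      (fun W hW h => hRemez' X E ε hε W hW h) (fun W hW => hgood E ε hEG hε hεG W hW)).trans ?_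
    rw [ENNReal.ofReal_mul hKR.le, mul_assoc]
    exact mul_le_mul' le_rfl (hP1' E ε hε hε1)

end Pool.SU
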