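import Mathlib
import Pool.Agent.SU.VVb

/-!
# A15: Combes-Thomas estimate for the vectors `VV`
-/

set_option autoImplicit false
set_option linter.unusedSectionVars false

open Complex MeasureTheory Filter Topology Set ContinuousLinearMap
open scoped InnerProductSpace ENNReal NNReal

namespace Pool.SU

open Pool.NB Pool.SB

variable {d : ℕ}

namespace CTAux

/-- shifting a sum -/
lemma shift_sum (B : Finset (ZZ d)) (g : ZZ d → ℝ) (e : ZZ d) (h1 : ∀ x, x ∉ B → g x = 0)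
    (h2 : ∀ x, x ∉ B → g (x + e) = 0) : ∑ x ∈ B, g (x + e) = ∑ x ∈ B, g x := by
  have e1 : ∑' x, g (x + e) = ∑ x ∈ B, g (x + e) := tsum_eq_sum (fun x hx => h2 x hx)
  have e2 : ∑' x, g x = ∑ x ∈ B, g x := tsum_eq_sum (fun x hx => h1 x hx)
  rw [← e1, ← e2]
  exact (Equiv.addRight e).tsum_eq g

/-- a sum over `B` of a function of `x + e` supported in `S` -/
lemma shift_le (B S : Finset (ZZ d)) (g : ZZ d → ℝ) (e : ZZ d) (hg : ∀ x, 0 ≤ g x)
    (hS : ∀ x ∈ B, x + e ∉ S → g (x + e) = 0) : ∑ x ∈ B, g (x + e) ≤ ∑ x ∈ S, g x := by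
  classical
  calc ∑ x ∈ B, g (x + e) = ∑ x ∈ B.filter (fun x => x + e ∈ S), g (x + e) := by
        rw [Finset.sum_filter]
        refine Finset.sum_congr rfl fun x hx => ?_
        split_ifs with h
        · rfl
        · exact hS x hx h
    _ = ∑ y ∈ (B.filter (fun x => x + e ∈ S)).image (fun x => x + e), g y := by
        rw [Finset.sum_image]
        intro a _ b _ hab
        exact add_right_cancel hab
    _ ≤ ∑ x ∈ S, g x := by
        refine Finset.sum_le_sum_of_subset_of_nonneg ?_ fun x _ _ => hg x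
        intro y hy
        obtain ⟨x, hx, rfl⟩ := Finset.mem_image.1 hy
        exact (Finset.mem_filter.1 hx).2

lemma cs_bound (B : Finset (ZZ d)) (p q : ZZ d → ℝ) :
    ∑ x ∈ B, p x * q x ≤ Real.sqrt (∑ x ∈ B, p x ^ 2) * Real.sqrt (∑ x ∈ B, q x ^ 2) := by
  have h := Finset.sum_mul_sq_le_sq_mul_sq B p q
  rw [← Real.sqrt_mul (Finset.sum_nonneg fun x _ => sq_nonneg _)]
  exact Real.le_sqrt_of_sq_le h

variable {H : Type*} [NormedAddCommGroup H] [InnerProductSpace ℂ H]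

lemma re_symm (x y : H) : (⟪x, y⟫_ℂ).re = (⟪y, x⟫_ℂ).re := by
  rw [← inner_conj_symm, Complex.conj_re]

lemma re_abs_le (x y : H) : |(⟪x, y⟫_ℂ).re| ≤ ‖x‖ * ‖y‖ :=
  (Complex.abs_re_le_norm _).trans (norm_inner_le_norm x y)

lemma exp_pair {α s t : ℝ} (hα : 0 < α) (h : |s - t| ≤ 1) :
    0 ≤ Real.exp (-α * s) / Real.exp (-α * t) + Real.exp (-α * t) / Real.exp (-α * s) - 2 ∧
    Real.exp (-α * s) / Real.exp (-α * t) + Real.exp (-α * t) / Real.exp (-α * s) - 2
      ≤ (Real.exp α - 1) ^ 2 := by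
  rw [← Real.exp_sub, ← Real.exp_sub]
  set r : ℝ := α * (t - s) with hr
  have e1 : -α * s - -α * t = r := by rw [hr]; ring
  have e2 : -α * t - -α * s = -r := by rw [hr]; ring
  rw [e1, e2]
  have hpos := Real.exp_pos r
  have hinv : Real.exp (-r) = (Real.exp r)⁻¹ := Real.exp_neg r
  have key : Real.exp r + Real.exp (-r) - 2 = (Real.exp r - 1) ^ 2 / Real.exp r := by
    rw [hinv]; field_simp; ring
  have hr' : |r| ≤ α := by
    rw [hr, abs_mul, abs_of_pos hα, abs_sub_comm]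
    nlinarith
  refine ⟨by rw [key]; positivity, ?_⟩
  rcases le_total 0 r with h0 | h0
  · rw [key]
    have h1 : 1 ≤ Real.exp r := Real.one_le_exp h0
    have h2 : Real.exp r ≤ Real.exp α := Real.exp_le_exp.2 ((le_abs_self r).trans hr')
    calc (Real.exp r - 1) ^ 2 / Real.exp r ≤ (Real.exp r - 1) ^ 2 / 1 := by gcongr
      _ ≤ (Real.exp α - 1) ^ 2 := by
        rw [div_one]
        exact pow_le_pow_left₀ (by linarith) (by linarith) 2
  · have h1 : 1 ≤ Real.exp (-r) := Real.one_le_exp (by linarith)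
    have h2 : Real.exp (-r) ≤ Real.exp α := Real.exp_le_exp.2 ((neg_le_abs r).trans hr')
    have key2 : Real.exp r + Real.exp (-r) - 2 = (Real.exp (-r) - 1) ^ 2 / Real.exp (-r) := by
      rw [hinv]; field_simp; ring
    rw [key2]
    calc (Real.exp (-r) - 1) ^ 2 / Real.exp (-r) ≤ (Real.exp (-r) - 1) ^ 2 / 1 := by gcongr
      _ ≤ (Real.exp α - 1) ^ 2 := by
        rw [div_one]
        exact pow_le_pow_left₀ (by linarith) (by linarith) 2

/-- final numerical step -/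
lemma num {η N s t : ℝ} (hη : 0 < η) (hN : 0 ≤ N) (hs : 0 ≤ s) (ht : 0 ≤ t)
    (h : η * N ^ 2 ≤ N * s + η / 2 * N ^ 2 + N * t) : N ^ 2 ≤ 8 / η ^ 2 * (s ^ 2 + t ^ 2) := by
  have h1 : η / 2 * N ≤ s + t := by
    rcases hN.eq_or_lt with h0 | h0
    · rw [← h0]; nlinarith
    · have : η / 2 * N * N ≤ (s + t) * N := by nlinarith
      exact le_of_mul_le_mul_right this h0
  have h2 : (η / 2 * N) ^ 2 ≤ (s + t) ^ 2 := pow_le_pow_left₀ (by positivity) h1 2
  have h3 : (s + t) ^ 2 ≤ 2 * (s ^ 2 + t ^ 2) := by nlinarith [sq_nonneg (s - t)]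
  have h4 : N ^ 2 = 4 / η ^ 2 * (η / 2 * N) ^ 2 := by field_simp; ring
  rw [h4]
  calc 4 / η ^ 2 * (η / 2 * N) ^ 2 ≤ 4 / η ^ 2 * (2 * (s ^ 2 + t ^ 2)) := by
        gcongr
        exact h2.trans h3
    _ = _ := by ring

/-- one direction: interior part -/
lemma dir_int (B : Finset (ZZ d)) (u : ZZ d → H) (w : ZZ d → ℝ) (e : ZZ d) {K : ℝ}
    (hu : ∀ x, x ∉ B → u x = 0) (hK : 0 ≤ K)
    (hw : ∀ x, |w x / w (x + e) + w (x + e) / w x - 2| ≤ K) :
    |∑ x ∈ B, ((w x / w (x + e) - 1) * (⟪u x, u (x + e)⟫_ℂ).re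
      + (w x / w (x - e) - 1) * (⟪u x, u (x - e)⟫_ℂ).re)| ≤ K * ∑ x ∈ B, ‖u x‖ ^ 2 := by
  have h1 : ∑ x ∈ B, (w x / w (x - e) - 1) * (⟪u x, u (x - e)⟫_ℂ).re
      = ∑ x ∈ B, (w (x + e) / w x - 1) * (⟪u x, u (x + e)⟫_ℂ).re := by
    have h := shift_sum B (fun x => (w x / w (x - e) - 1) * (⟪u x, u (x - e)⟫_ℂ).re) e
      (fun x hx => by simp [hu x hx]) (fun x hx => by simp [hu x hx])
    rw [← h]
    refine Finset.sum_congr rfl fun x _ => ?_
    simp only [add_sub_cancel_right]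
    rw [re_symm]
  rw [Finset.sum_add_distrib, h1, ← Finset.sum_add_distrib]
  have h2 : ∑ x ∈ B, ‖u (x + e)‖ ^ 2 ≤ ∑ x ∈ B, ‖u x‖ ^ 2 :=
    shift_le B B (fun x => ‖u x‖ ^ 2) e (fun x => sq_nonneg _)
      (fun x _ hx => by simp [hu _ hx])
  calc |∑ x ∈ B, ((w x / w (x + e) - 1) * (⟪u x, u (x + e)⟫_ℂ).re
        + (w (x + e) / w x - 1) * (⟪u x, u (x + e)⟫_ℂ).re)|
      ≤ ∑ x ∈ B, |(w x / w (x + e) - 1) * (⟪u x, u (x + e)⟫_ℂ).re
        + (w (x + e) / w x - 1) * (⟪u x, u (x + e)⟫_ℂ).re| := Finset.abs_sum_le_sum_abs _ _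
    _ ≤ ∑ x ∈ B, K * ((‖u x‖ ^ 2 + ‖u (x + e)‖ ^ 2) / 2) := by
        refine Finset.sum_le_sum fun x _ => ?_
        rw [← add_mul, abs_mul]
        have e1 : w x / w (x + e) - 1 + (w (x + e) / w x - 1)
            = w x / w (x + e) + w (x + e) / w x - 2 := by ring
        rw [e1]
        refine mul_le_mul (hw x) ?_ (abs_nonneg _) hK
        refine (re_abs_le _ _).trans ?_
        nlinarith [sq_nonneg (‖u x‖ - ‖u (x + e)‖)]
    _ = K * ((∑ x ∈ B, ‖u x‖ ^ 2 + ∑ x ∈ B, ‖u (x + e)‖ ^ 2) / 2) := by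
        rw [← Finset.mul_sum, ← Finset.sum_div, Finset.sum_add_distrib]
    _ ≤ K * ∑ x ∈ B, ‖u x‖ ^ 2 := by
        refine mul_le_mul_of_nonneg_left ?_ hK
        linarith

/-- one direction: boundary part -/
lemma dir_bd (B S : Finset (ZZ d)) (u V : ZZ d → H) (r : ZZ d → H) (e : ZZ d) {K : ℝ}
    (hK : 0 ≤ K) (h : ∀ x ∈ B, ‖r x‖ ≤ if x + e ∈ S then K * ‖V (x + e)‖ else 0) :
    |∑ x ∈ B, (⟪u x, r x⟫_ℂ).re| ≤ K * (Real.sqrt (∑ x ∈ B, ‖u x‖ ^ 2) *
      Real.sqrt (∑ x ∈ S, ‖V x‖ ^ 2)) := by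
  classical
  have h2 : ∑ x ∈ B, (if x + e ∈ S then ‖V (x + e)‖ else 0) ^ 2 ≤ ∑ x ∈ S, ‖V x‖ ^ 2 := by
    have h3 := shift_le B S (fun x => if x ∈ S then ‖V x‖ ^ 2 else 0) e
      (fun x => by split_ifs <;> positivity) (fun x _ hx => by simp [hx])
    have h4 : ∑ x ∈ S, (if x ∈ S then ‖V x‖ ^ 2 else 0) = ∑ x ∈ S, ‖V x‖ ^ 2 :=
      Finset.sum_congr rfl fun x hx => by simp [hx]
    rw [h4] at h3
    refine le_trans (le_of_eq (Finset.sum_congr rfl fun x _ => ?_)) h3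
    split_ifs <;> simp
  calc |∑ x ∈ B, (⟪u x, r x⟫_ℂ).re| ≤ ∑ x ∈ B, |(⟪u x, r x⟫_ℂ).re| :=
        Finset.abs_sum_le_sum_abs _ _
    _ ≤ ∑ x ∈ B, K * (‖u x‖ * (if x + e ∈ S then ‖V (x + e)‖ else 0)) := by
        refine Finset.sum_le_sum fun x hx => ?_
        refine (re_abs_le _ _).trans ?_
        have h5 := mul_le_mul_of_nonneg_left (h x hx) (norm_nonneg (u x))
        refine h5.trans (le_of_eq ?_)
        split_ifs <;> ring
    _ = K * ∑ x ∈ B, ‖u x‖ * (if x + e ∈ S then ‖V (x + e)‖ else 0) := by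
        rw [Finset.mul_sum]
    _ ≤ K * (Real.sqrt (∑ x ∈ B, ‖u x‖ ^ 2) *
          Real.sqrt (∑ x ∈ B, (if x + e ∈ S then ‖V (x + e)‖ else 0) ^ 2)) :=
        mul_le_mul_of_nonneg_left (cs_bound B _ _) hK
    _ ≤ _ := by
        refine mul_le_mul_of_nonneg_left ?_ hK
        exact mul_le_mul_of_nonneg_left (Real.sqrt_le_sqrt h2) (Real.sqrt_nonneg _)

end CTAux

open CTAux

theorem ct : StmtCT := by
  classical
  intro d X σ η α E ε L W hσ hη hα hαη hε hForm
  set V : ZZ d → ell (ZZ d) := fun x => VV X E ε W x with hV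
  set B := ball d L with hB
  set S := ball d (L + 1) \ ball d L with hS
  set w : ZZ d → ℝ := fun x => Real.exp (-α * n1 x) with hw
  have hwpos : ∀ x, 0 < w x := fun x => Real.exp_pos _
  set u : ZZ d → ell (ZZ d) := fun x => if x ∈ B then (w x : ℂ) • V x else 0 with hu
  have hu0 : ∀ x, x ∉ B → u x = 0 := fun x hx => by simp [hu, hx]
  have hu1 : ∀ x, x ∈ B → u x = (w x : ℂ) • V x := fun x hx => by simp [hu, hx]
  set K : ℝ := (Real.exp α - 1) ^ 2 with hKdef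
  have hK : 0 ≤ K := sq_nonneg _
  set q : ℝ := Real.exp (-α * L) with hq
  have hqpos : 0 < q := Real.exp_pos _
  -- the remainder at the neighbour `x + e`
  set r : ZZ d → ZZ d → ell (ZZ d) := fun e x => if x + e ∈ B then 0 else (w x : ℂ) • V (x + e)
    with hr
  have hsplit : ∀ e x, (w x : ℂ) • V (x + e)
      = ((w x / w (x + e) : ℝ) : ℂ) • u (x + e) + r e x := by
    intro e x
    by_cases h : x + e ∈ B
    · rw [hu1 _ h, hr]
      simp only [h, if_true, add_zero, smul_smul]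
      congr 1
      have : (w (x + e) : ℂ) ≠ 0 := by exact_mod_cast (hwpos _).ne'
      push_cast
      field_simp
    · rw [hu0 _ h, hr]
      simp only [h, if_false, smul_zero, zero_add]
  -- the equation
  have heqn : ∀ x ∈ B, w x * (X x) * (⟪u x, dl x⟫_ℂ).re
      = (W x + 2 * d - E) * ‖u x‖ ^ 2
        - ∑ i, (((w x / w (x + ee d i)) * (⟪u x, u (x + ee d i)⟫_ℂ).re
          + (w x / w (x - ee d i)) * (⟪u x, u (x - ee d i)⟫_ℂ).re)
          + ((⟪u x, r (ee d i) x⟫_ℂ).re + (⟪u x, r (-ee d i) x⟫_ℂ).re)) := by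
    intro x hx
    have h1 := VV_eqn X (E := E) hε W x
    have h2 := congrArg (fun z : ell (ZZ d) => (⟪u x, (w x : ℂ) • z⟫_ℂ).re) h1
    beta_reduce at h2
    rw [smul_sub, inner_sub_right, Complex.sub_re] at h2
    have h3 : (⟪u x, (w x : ℂ) • ((W x : ℂ) + 2 * d - zp E ε) • VV X E ε W x⟫_ℂ).re
        = (W x + 2 * d - E) * ‖u x‖ ^ 2 := by
      have h4 : (w x : ℂ) • ((W x : ℂ) + 2 * d - zp E ε) • VV X E ε W x
          = ((W x : ℂ) + 2 * d - zp E ε) • u x := by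
        rw [hu1 x hx, smul_comm]
      rw [h4, inner_smul_right, inner_self_eq_norm_sq_to_K]
      have h5 : (((‖u x‖ : ℝ) : ℂ) ^ 2) = ((‖u x‖ ^ 2 : ℝ) : ℂ) := by push_cast; ring
      have h6 : (((W x : ℂ) + 2 * d - zp E ε) * (((‖u x‖ : ℝ) : ℂ) ^ 2)).re
          = ((W x : ℂ) + 2 * d - zp E ε).re * ‖u x‖ ^ 2 := by
        rw [h5, Complex.re_mul_ofReal]
      refine h6.trans ?_
      congr 1
      simp [zp]
    have h7 : (⟪u x, (w x : ℂ) • ∑ i, (VV X E ε W (x + ee d i) + VV X E ε W (x - ee d i))⟫_ℂ).re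
        = ∑ i, (((w x / w (x + ee d i)) * (⟪u x, u (x + ee d i)⟫_ℂ).re
          + (w x / w (x - ee d i)) * (⟪u x, u (x - ee d i)⟫_ℂ).re)
          + ((⟪u x, r (ee d i) x⟫_ℂ).re + (⟪u x, r (-ee d i) x⟫_ℂ).re)) := by
      rw [Finset.smul_sum, inner_sum, Complex.re_sum]
      refine Finset.sum_congr rfl fun i _ => ?_
      have e1 := hsplit (ee d i) x
      have e2 := hsplit (-ee d i) x
      rw [← sub_eq_add_neg] at e2
      rw [smul_add]
      change (⟪u x, (w x : ℂ) • V (x + ee d i) + (w x : ℂ) • V (x - ee d i)⟫_ℂ).re = _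
      rw [e1, e2, inner_add_right, inner_add_right, inner_add_right, inner_smul_right,
        inner_smul_right]
      simp only [Complex.add_re, Complex.re_ofReal_mul]
      ring
    have h8 : (⟪u x, (w x : ℂ) • (X x : ℂ) • dl x⟫_ℂ).re = w x * (X x) * (⟪u x, dl x⟫_ℂ).re := by
      rw [inner_smul_right, inner_smul_right, Complex.re_ofReal_mul, Complex.re_ofReal_mul]
      ring
    rw [h3, h7, h8] at h2
    exact h2.symm
  -- sum over the ball
  have hsum := Finset.sum_congr (rfl : B = B) heqn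
  rw [Finset.sum_sub_distrib] at hsum
  have hFormU := hForm u (fun x hx => hu0 x (by rw [hB, mem_ball]; omega))
  set N2 : ℝ := ∑ x ∈ B, ‖u x‖ ^ 2 with hN2
  have hN20 : 0 ≤ N2 := Finset.sum_nonneg fun x _ => sq_nonneg _
  set form : ℝ := ∑ x ∈ B, (W x + 2 * d - E) * ‖u x‖ ^ 2
    - ∑ x ∈ B, ∑ i, 2 * (⟪u x, u (x + ee d i)⟫_ℂ).re with hform
  -- symmetric form of the kinetic term
  have hkin : ∑ x ∈ B, ∑ i, 2 * (⟪u x, u (x + ee d i)⟫_ℂ).re
      = ∑ i, ∑ x ∈ B, ((⟪u x, u (x + ee d i)⟫_ℂ).re + (⟪u x, u (x - ee d i)⟫_ℂ).re) := by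
    rw [Finset.sum_comm]
    refine Finset.sum_congr rfl fun i _ => ?_
    rw [Finset.sum_add_distrib]
    have h := shift_sum B (fun x => (⟪u x, u (x - ee d i)⟫_ℂ).re) (ee d i)
      (fun x hx => by simp [hu0 x hx]) (fun x hx => by simp [hu0 x hx])
    rw [← h, ← Finset.sum_add_distrib]
    refine Finset.sum_congr rfl fun x _ => ?_
    simp only [add_sub_cancel_right]
    rw [re_symm (u (x + ee d i)) (u x)]
    ring
  set src : ℝ := ∑ x ∈ B, w x * (X x) * (⟪u x, dl x⟫_ℂ).re with hsrc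
  set int : ℝ := ∑ i, ∑ x ∈ B, ((w x / w (x + ee d i) - 1) * (⟪u x, u (x + ee d i)⟫_ℂ).re
      + (w x / w (x - ee d i) - 1) * (⟪u x, u (x - ee d i)⟫_ℂ).re) with hint
  set bd : ℝ := ∑ i, (∑ x ∈ B, (⟪u x, r (ee d i) x⟫_ℂ).re + ∑ x ∈ B, (⟪u x, r (-ee d i) x⟫_ℂ).re)
    with hbd
  have hdecomp : form = src + int + bd := by
    rw [hform, hkin]
    have h1 : ∑ x ∈ B, ∑ i, (((w x / w (x + ee d i)) * (⟪u x, u (x + ee d i)⟫_ℂ).re
          + (w x / w (x - ee d i)) * (⟪u x, u (x - ee d i)⟫_ℂ).re)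
          + ((⟪u x, r (ee d i) x⟫_ℂ).re + (⟪u x, r (-ee d i) x⟫_ℂ).re))
        = ∑ i, ∑ x ∈ B, ((⟪u x, u (x + ee d i)⟫_ℂ).re + (⟪u x, u (x - ee d i)⟫_ℂ).re)
          + int + bd := by
      rw [Finset.sum_comm, hint, hbd, ← Finset.sum_add_distrib, ← Finset.sum_add_distrib]
      refine Finset.sum_congr rfl fun i _ => ?_
      rw [← Finset.sum_add_distrib, ← Finset.sum_add_distrib, ← Finset.sum_add_distrib]
      refine Finset.sum_congr rfl fun x _ => ?_
      ring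
    rw [h1] at hsum
    linarith
  -- bounds
  have hint_le : |int| ≤ η / 2 * N2 := by
    have h1 : ∀ i : Fin d, |∑ x ∈ B, ((w x / w (x + ee d i) - 1) * (⟪u x, u (x + ee d i)⟫_ℂ).re
      + (w x / w (x - ee d i) - 1) * (⟪u x, u (x - ee d i)⟫_ℂ).re)| ≤ K * N2 := by
      intro i
      refine dir_int B u w (ee d i) hu0 hK fun x => ?_
      have h2 : |((n1 x : ℝ) - (n1 (x + ee d i) : ℝ))| ≤ 1 := by
        have h3 : n1 (x + ee d i) ≤ n1 x + 1 := by
          have := n1_add x (ee d i)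
          rwa [n1_ee] at this
        have h4 : n1 x ≤ n1 (x + ee d i) + 1 := by
          have := n1_add (x + ee d i) (-ee d i)
          rw [add_neg_cancel_right, n1_neg, n1_ee] at this
          exact this
        rw [abs_le]
        constructor
        · have : (n1 (x + ee d i) : ℝ) ≤ n1 x + 1 := by exact_mod_cast h3
          linarith
        · have : (n1 x : ℝ) ≤ n1 (x + ee d i) + 1 := by exact_mod_cast h4
          linarith
      have h5 := exp_pair hα h2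
      rw [abs_of_nonneg h5.1]
      exact h5.2
    calc |int| ≤ ∑ i : Fin d, |∑ x ∈ B, ((w x / w (x + ee d i) - 1) *
          (⟪u x, u (x + ee d i)⟫_ℂ).re
          + (w x / w (x - ee d i) - 1) * (⟪u x, u (x - ee d i)⟫_ℂ).re)| :=
          Finset.abs_sum_le_sum_abs _ _
      _ ≤ ∑ _i : Fin d, K * N2 := Finset.sum_le_sum fun i _ => h1 i
      _ = d * K * N2 := by
          rw [Finset.sum_const, Finset.card_univ, Fintype.card_fin, nsmul_eq_mul]; ring
      _ ≤ η / 2 * N2 := mul_le_mul_of_nonneg_right hαη hN20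
  have hrb : ∀ e : ZZ d, n1 e = 1 → ∀ x ∈ B, ‖r e x‖ ≤ if x + e ∈ S then q * ‖V (x + e)‖ else 0 := by
    intro e he x hx
    by_cases h : x + e ∈ B
    · have hn : x + e ∉ S := by
        rw [hS, Finset.mem_sdiff]
        exact fun h' => h'.2 h
      simp [hr, h, hn]
    · have hx1 : n1 x ≤ L := mem_ball.1 hx
      have hy1 : n1 (x + e) ≤ n1 x + 1 := by
        have := n1_add x e
        rwa [he] at this
      have hy2 : ¬ n1 (x + e) ≤ L := fun h' => h (mem_ball.2 h')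
      have hxL : n1 x = L := by omega
      have hyS : x + e ∈ S := by
        rw [hS, Finset.mem_sdiff, mem_ball, mem_ball]
        omega
      have hwx : w x = q := by rw [hw, hq]; simp only [hxL]
      simp only [hr, h, if_false, hyS, if_true]
      rw [norm_smul, Complex.norm_real, Real.norm_of_nonneg (hwpos x).le, hwx]
  set T2 : ℝ := ∑ y ∈ S, ‖V y‖ ^ 2 with hT2
  have hT20 : 0 ≤ T2 := Finset.sum_nonneg fun x _ => sq_nonneg _
  have hbd_le : |bd| ≤ 2 * d * q * (Real.sqrt N2 * Real.sqrt T2) := by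
    have h1 : ∀ i : Fin d, |∑ x ∈ B, (⟪u x, r (ee d i) x⟫_ℂ).re
        + ∑ x ∈ B, (⟪u x, r (-ee d i) x⟫_ℂ).re| ≤ 2 * (q * (Real.sqrt N2 * Real.sqrt T2)) := by
      intro i
      refine (abs_add_le _ _).trans ?_
      have a1 := dir_bd B S u V (r (ee d i)) (ee d i) hqpos.le (hrb _ (n1_ee i))
      have a2 := dir_bd B S u V (r (-ee d i)) (-ee d i) hqpos.le
        (hrb _ (by rw [n1_neg, n1_ee]))
      linarith
    calc |bd| ≤ ∑ i : Fin d, |∑ x ∈ B, (⟪u x, r (ee d i) x⟫_ℂ).re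
          + ∑ x ∈ B, (⟪u x, r (-ee d i) x⟫_ℂ).re| := Finset.abs_sum_le_sum_abs _ _
      _ ≤ ∑ _i : Fin d, 2 * (q * (Real.sqrt N2 * Real.sqrt T2)) :=
          Finset.sum_le_sum fun i _ => h1 i
      _ = _ := by
          rw [Finset.sum_const, Finset.card_univ, Fintype.card_fin, nsmul_eq_mul]; ring
  set s2 : ℝ := ∑ x ∈ B, (w x) ^ 2 * (X x) ^ 2 with hs2
  have hs20 : 0 ≤ s2 := Finset.sum_nonneg fun x _ => by positivity
  have hsrc_le : |src| ≤ Real.sqrt N2 * Real.sqrt s2 := by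
    calc |src| ≤ ∑ x ∈ B, |w x * (X x) * (⟪u x, dl x⟫_ℂ).re| := Finset.abs_sum_le_sum_abs _ _
      _ ≤ ∑ x ∈ B, ‖u x‖ * (w x * |X x|) := by
          refine Finset.sum_le_sum fun x _ => ?_
          rw [abs_mul, abs_mul, abs_of_pos (hwpos x)]
          have h1 := re_abs_le (u x) (dl x)
          have h2 : ‖(dl x : ell (ZZ d))‖ = 1 := by
            simp [dl, lp.norm_single]
          rw [h2, mul_one] at h1
          have h3 : 0 ≤ w x * |X x| := mul_nonneg (hwpos x).le (abs_nonneg _)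
          calc w x * |X x| * |(⟪u x, dl x⟫_ℂ).re| ≤ w x * |X x| * ‖u x‖ :=
                mul_le_mul_of_nonneg_left h1 h3
            _ = _ := by ring
      _ ≤ _ := by
          refine (cs_bound B _ _).trans (le_of_eq ?_)
          congr 2
          refine Finset.sum_congr rfl fun x _ => ?_
          rw [mul_pow, sq_abs]
  -- conclusion
  have hσf : η * N2 ≤ |form| := by
    rcases hσ with rfl | rfl
    · rw [one_mul] at hFormU
      exact hFormU.trans (le_abs_self _)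
    · rw [neg_one_mul] at hFormU
      exact hFormU.trans (neg_le_abs _)
  have habs : |form| ≤ |src| + |int| + |bd| := by
    rw [hdecomp]
    exact (abs_add_le _ _).trans (add_le_add (abs_add_le _ _) le_rfl)
  have hNsq : Real.sqrt N2 ^ 2 = N2 := Real.sq_sqrt hN20
  have hTsq : Real.sqrt T2 ^ 2 = T2 := Real.sq_sqrt hT20
  have hssq : Real.sqrt s2 ^ 2 = s2 := Real.sq_sqrt hs20
  have hfin := num (η := η) (N := Real.sqrt N2) (s := Real.sqrt s2)
    (t := 2 * d * q * Real.sqrt T2) hη (Real.sqrt_nonneg _) (Real.sqrt_nonneg _)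
    (by positivity) (by
      rw [hNsq]
      calc η * N2 ≤ |src| + |int| + |bd| := hσf.trans habs
        _ ≤ Real.sqrt N2 * Real.sqrt s2 + η / 2 * N2
            + 2 * d * q * (Real.sqrt N2 * Real.sqrt T2) := by linarith
        _ = _ := by ring)
  rw [hNsq, mul_pow, hTsq, hssq, mul_pow] at hfin
  have h0 : ‖VV X E ε W 0‖ ^ 2 ≤ N2 := by
    have h00 : (0 : ZZ d) ∈ B := zero_mem_ball L
    have h1 : u 0 = VV X E ε W 0 := by
      rw [hu1 0 h00, hw]
      simp only [n1_zero]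
      simp [hV]
    rw [← h1, hN2]
    exact Finset.single_le_sum (f := fun x => ‖u x‖ ^ 2) (fun x _ => sq_nonneg _) h00
  exact h0.trans hfin

end Pool.SU
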