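import Mathlib
import Pool.Agent.SU.Base

/-!
# Module A13: resampling of one or two sites
-/

set_option autoImplicit false

open Complex MeasureTheory Filter Topology Set ContinuousLinearMap
open scoped InnerProductSpace ENNReal NNReal

namespace Pool.SU

open Pool.NB Pool.SB

variable {d : ℕ}

lemma diag_spl_spl (S : Finset (ZZ d)) (W' W1 W : ZZ d → ℝ) :
    spl S W' (spl S W1 W) = spl S W' W := by
  funext x
  unfold spl
  by_cases hx : x ∈ S <;> simp [hx]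

lemma diag_spl_mem {S : Finset (ZZ d)} {x : ZZ d} (hx : x ∈ S) (W' W : ZZ d → ℝ) :
    spl S W' W x = W' x := by simp [spl, hx]

lemma diag_spl_nmem {S : Finset (ZZ d)} {x : ZZ d} (hx : x ∉ S) (W' W : ZZ d → ℝ) :
    spl S W' W x = W x := by simp [spl, hx]

lemma diag_abs_le {a b : ℝ} {W W' : ZZ d → ℝ} (h : W ∈ Om d a b) (h' : W' ∈ Om d a b)
    (x : ZZ d) : (W' x - W x) ^ 2 ≤ (b - a) ^ 2 := by
  have h1 := h x
  have h2 := h' x
  apply sq_le_sq'
  · linarith [h1.1, h1.2, h2.1, h2.2]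
  · linarith [h1.1, h1.2, h2.1, h2.2]

/-- the coefficient estimate -/
lemma diag_coef {a b : ℝ} {W W' : ZZ d → ℝ} (h : W ∈ Om d a b) (h' : W' ∈ Om d a b)
    (x : ZZ d) {B : ℝ} (z : ℂ) (hz : ‖z‖ ≤ B) (v : ell (ZZ d)) :
    ‖(((W' x - W x : ℝ) : ℂ) * z) • v‖ ^ 2 ≤ (b - a) ^ 2 * B ^ 2 * ‖v‖ ^ 2 := by
  rw [norm_smul, norm_mul, Complex.norm_real, mul_pow, mul_pow, Real.norm_eq_abs, sq_abs]
  have h1 := diag_abs_le h h' x
  have h2 : ‖z‖ ^ 2 ≤ B ^ 2 := by gcongr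
  gcongr

lemma diag_norm_add_sq {E : Type*} [SeminormedAddCommGroup E] (u v : E) :
    ‖u + v‖ ^ 2 ≤ 2 * (‖u‖ ^ 2 + ‖v‖ ^ 2) := by
  have h := norm_add_le u v
  have h2 : ‖u + v‖ ^ 2 ≤ (‖u‖ + ‖v‖) ^ 2 := by gcongr
  nlinarith [sq_nonneg (‖u‖ - ‖v‖)]

lemma diag_norm_add3_sq {E : Type*} [SeminormedAddCommGroup E] (u v w : E) :
    ‖u + (v + w)‖ ^ 2 ≤ 3 * (‖u‖ ^ 2 + ‖v‖ ^ 2 + ‖w‖ ^ 2) := by
  have h1 := norm_add_le u (v + w)
  have h2 := norm_add_le v w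
  have h : ‖u + (v + w)‖ ≤ ‖u‖ + ‖v‖ + ‖w‖ := by linarith
  have h3 : ‖u + (v + w)‖ ^ 2 ≤ (‖u‖ + ‖v‖ + ‖w‖) ^ 2 := by gcongr
  nlinarith [sq_nonneg (‖u‖ - ‖v‖), sq_nonneg (‖u‖ - ‖w‖), sq_nonneg (‖v‖ - ‖w‖)]

theorem diag : StmtDiag := by
  intro μ _ a b c C hμ d
  have hC := hμ.C_pos
  refine ⟨4 * (1 + (b - a) ^ 2) * C, by positivity, ?_⟩
  intro X B g E ε hB hg hε x
  set A : Set (ZZ d → ℝ) := {W | ‖GF E ε W 0 x‖ ≤ B ∧ g ≤ ‖GF E ε W x x‖} with hAdef
  have hA : MeasurableSet A := by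
    apply MeasurableSet.inter
    · exact measurableSet_le (GF_meas E hε 0 x).norm measurable_const
    · exact measurableSet_le measurable_const (GF_meas E hε x x).norm
  have key := loss hμ {x} (F := fun W => pv X E ε W 0)
    (Φ := fun W => pv X E ε W 0 + pv X E ε W x) (pv_meas X E hε 0)
    ((pv_meas X E hε 0).add (pv_meas X E hε x)) hA
    (ENNReal.ofReal (4 * (1 + (b - a) ^ 2) * C * B ^ 2 / g)) ?_
  · rw [lintegral_add_left (pv_meas X E hε 0)] at key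
    exact key
  intro W hW
  refine ⟨ENNReal.ofReal (2 * (1 + (b - a) ^ 2) * B ^ 2), ?_, ?_⟩
  · intro W1 hW1 W' hW' hmem
    show pv X E ε (spl {x} W1 W) 0 ≤ _
    have hs := VV_spl X (E := E) hε {x} W' (spl {x} W1 W) 0
    rw [diag_spl_spl, Finset.sum_singleton, diag_spl_mem (Finset.mem_singleton_self x)] at hs
    have hz : ‖GF E ε (spl {x} W1 W) x 0‖ ≤ B := by
      rw [GF_symm hε]
      exact hmem.1
    have h1 := diag_coef hW1 hW' x _ hz (VV X E ε (spl {x} W' W) x)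
    unfold pv
    rw [← ENNReal.ofReal_add (by positivity) (by positivity),
      ← ENNReal.ofReal_mul (by positivity)]
    apply ENNReal.ofReal_le_ofReal
    rw [hs]
    refine (diag_norm_add_sq _ _).trans ?_
    have h2 : ‖VV X E ε (spl {x} W' W) 0‖ ^ 2 ≤ B ^ 2 * ‖VV X E ε (spl {x} W' W) 0‖ ^ 2 := by
      have : (1 : ℝ) ≤ B ^ 2 := one_le_pow₀ hB
      nlinarith [sq_nonneg ‖VV X E ε (spl {x} W' W) 0‖]
    have h3 : 0 ≤ (b - a) ^ 2 * B ^ 2 * ‖VV X E ε (spl {x} W' W) 0‖ ^ 2 := by positivity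
    have h4 : 0 ≤ B ^ 2 * ‖VV X E ε (spl {x} W' W) x‖ ^ 2 := by positivity
    nlinarith [h1, h2, h3, h4]
  · have hsub : {W1 | W1 ∈ Om d a b ∧ spl {x} W1 W ∈ A}
        ⊆ {W1 : ZZ d → ℝ | ‖(W1 x : ℂ) - wv E ε W x‖ ≤ 1 / g} := by
      rintro W1 ⟨-, hm⟩
      have h1 : g ≤ ‖GF E ε (spl {x} W1 W) x x‖ := hm.2
      rw [GF_wv hε, diag_spl_mem (Finset.mem_singleton_self x),
        wv_congr hε (spl {x} W1 W) W x (fun y hy =>
          diag_spl_nmem (by simpa using hy) _ _), norm_inv] at h1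
      show ‖(W1 x : ℂ) - wv E ε W x‖ ≤ 1 / g
      have hpos : 0 < ‖(W1 x : ℂ) - wv E ε W x‖ := by
        by_contra hcon
        have h0 : ‖(W1 x : ℂ) - wv E ε W x‖ = 0 := le_antisymm (not_lt.mp hcon) (norm_nonneg _)
        rw [h0, inv_zero] at h1
        linarith
      rw [le_div_iff₀ hg]
      rw [le_inv_comm₀ hg hpos] at h1
      calc ‖(W1 x : ℂ) - wv E ε W x‖ * g ≤ g⁻¹ * g := by gcongr
        _ = 1 := inv_mul_cancel₀ hg.ne'
    calc ENNReal.ofReal (2 * (1 + (b - a) ^ 2) * B ^ 2)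
          * (PP (ZZ d) μ) {W1 | W1 ∈ Om d a b ∧ spl {x} W1 W ∈ A}
        ≤ ENNReal.ofReal (2 * (1 + (b - a) ^ 2) * B ^ 2) * ENNReal.ofReal (2 * C * (1 / g)) := by
          gcongr
          exact (measure_mono hsub).trans (hμ.win1 x _ _)
      _ = ENNReal.ofReal (4 * (1 + (b - a) ^ 2) * C * B ^ 2 / g) := by
          rw [← ENNReal.ofReal_mul (by positivity)]
          congr 1
          ring

theorem off : StmtOff := by
  intro μ _ a b c C hμ d
  have hC := hμ.C_pos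
  refine ⟨8 * (1 + (b - a) ^ 2) * C, by positivity, ?_⟩
  intro X B g g' E ε hB hg hgg hε x y hxy
  have hg' : 0 < g' := by linarith
  set A : Set (ZZ d → ℝ) := {W | ‖GF E ε W 0 x‖ ≤ B ∧ ‖GF E ε W 0 y‖ ≤ B ∧ ‖GF E ε W x x‖ ≤ g ∧
        ‖GF E ε W y y‖ ≤ g ∧ g' ≤ ‖GF E ε W x y‖} with hAdef
  have hA : MeasurableSet A := by
    refine MeasurableSet.inter ?_ (MeasurableSet.inter ?_ (MeasurableSet.inter ?_
      (MeasurableSet.inter ?_ ?_)))
    · exact measurableSet_le (GF_meas E hε 0 x).norm measurable_const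
    · exact measurableSet_le (GF_meas E hε 0 y).norm measurable_const
    · exact measurableSet_le (GF_meas E hε x x).norm measurable_const
    · exact measurableSet_le (GF_meas E hε y y).norm measurable_const
    · exact measurableSet_le measurable_const (GF_meas E hε x y).norm
  have hxS : x ∈ ({x, y} : Finset (ZZ d)) := by simp
  have hyS : y ∈ ({x, y} : Finset (ZZ d)) := by simp
  have key := loss hμ {x, y} (F := fun W => pv X E ε W 0)
    (Φ := fun W => pv X E ε W 0 + pv X E ε W x + pv X E ε W y) (pv_meas X E hε 0)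
    (((pv_meas X E hε 0).add (pv_meas X E hε x)).add (pv_meas X E hε y)) hA
    (ENNReal.ofReal (8 * (1 + (b - a) ^ 2) * C * B ^ 2 * g / g' ^ 2)) ?_
  · have e1 : ∫⁻ W, (pv X E ε W 0 + pv X E ε W x + pv X E ε W y) ∂(PP (ZZ d) μ)
        = ∫⁻ W, pv X E ε W 0 ∂(PP (ZZ d) μ) + ∫⁻ W, pv X E ε W x ∂(PP (ZZ d) μ)
          + ∫⁻ W, pv X E ε W y ∂(PP (ZZ d) μ) := by
      rw [← lintegral_add_left (pv_meas X E hε 0)]
      exact lintegral_add_left ((pv_meas X E hε 0).add (pv_meas X E hε x)) _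
    rw [e1] at key
    exact key
  intro W hW
  refine ⟨ENNReal.ofReal (3 * (1 + (b - a) ^ 2) * B ^ 2), ?_, ?_⟩
  · intro W1 hW1 W' hW' hmem
    show pv X E ε (spl {x, y} W1 W) 0 ≤ _
    have hs := VV_spl X (E := E) hε {x, y} W' (spl {x, y} W1 W) 0
    rw [diag_spl_spl, Finset.sum_pair hxy, diag_spl_mem hxS, diag_spl_mem hyS] at hs
    have hz : ‖GF E ε (spl {x, y} W1 W) x 0‖ ≤ B := by
      rw [GF_symm hε]
      exact hmem.1
    have hz' : ‖GF E ε (spl {x, y} W1 W) y 0‖ ≤ B := by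
      rw [GF_symm hε]
      exact hmem.2.1
    have h1 := diag_coef hW1 hW' x _ hz (VV X E ε (spl {x, y} W' W) x)
    have h1' := diag_coef hW1 hW' y _ hz' (VV X E ε (spl {x, y} W' W) y)
    unfold pv
    rw [← ENNReal.ofReal_add (by positivity) (by positivity),
      ← ENNReal.ofReal_add (by positivity) (by positivity),
      ← ENNReal.ofReal_mul (by positivity)]
    apply ENNReal.ofReal_le_ofReal
    rw [hs]
    refine (diag_norm_add3_sq _ _ _).trans ?_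
    have h2 : ‖VV X E ε (spl {x, y} W' W) 0‖ ^ 2
        ≤ B ^ 2 * ‖VV X E ε (spl {x, y} W' W) 0‖ ^ 2 := by
      have : (1 : ℝ) ≤ B ^ 2 := one_le_pow₀ hB
      nlinarith [sq_nonneg ‖VV X E ε (spl {x, y} W' W) 0‖]
    have h3 : 0 ≤ (b - a) ^ 2 * B ^ 2 * ‖VV X E ε (spl {x, y} W' W) 0‖ ^ 2 := by positivity
    have h4 : 0 ≤ B ^ 2 * ‖VV X E ε (spl {x, y} W' W) x‖ ^ 2 := by positivity
    have h5 : 0 ≤ B ^ 2 * ‖VV X E ε (spl {x, y} W' W) y‖ ^ 2 := by positivity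
    nlinarith [h1, h1', h2, h3, h4, h5]
  · set α : ℂ := (W x : ℂ) - GF E ε W y y / DT E ε W x y with hα
    have hsub : {W1 | W1 ∈ Om d a b ∧ spl {x, y} W1 W ∈ A}
        ⊆ {W1 : ZZ d → ℝ | ‖(W1 x : ℂ) - α‖ ≤ 4 / 3 * (g / g' ^ 2)} := by
      rintro W1 ⟨-, hm⟩
      obtain ⟨-, -, m1, m2, m3⟩ := hm
      have e1 := two_diag (E := E) hε (spl {x, y} W1 W) W hxy (fun z hz hz' =>
        diag_spl_nmem (by simp [hz, hz']) _ _)
      rw [diag_spl_mem hxS] at e1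
      show ‖(W1 x : ℂ) - α‖ ≤ 4 / 3 * (g / g' ^ 2)
      have e2 : (W1 x : ℂ) - α
          = GF E ε (spl {x, y} W1 W) y y / DT E ε (spl {x, y} W1 W) x y := by
        rw [hα, ← e1]; ring
      rw [e2, norm_div]
      have h3 : 3 / 4 * g' ^ 2 ≤ ‖DT E ε (spl {x, y} W1 W) x y‖ := by
        unfold DT
        have k1 : ‖GF E ε (spl {x, y} W1 W) x y ^ 2‖
            ≤ ‖GF E ε (spl {x, y} W1 W) x x * GF E ε (spl {x, y} W1 W) y y
              - GF E ε (spl {x, y} W1 W) x y ^ 2‖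
              + ‖GF E ε (spl {x, y} W1 W) x x * GF E ε (spl {x, y} W1 W) y y‖ := by
          have := norm_sub_le (GF E ε (spl {x, y} W1 W) x x * GF E ε (spl {x, y} W1 W) y y)
            (GF E ε (spl {x, y} W1 W) x x * GF E ε (spl {x, y} W1 W) y y
              - GF E ε (spl {x, y} W1 W) x y ^ 2)
          rw [sub_sub_cancel] at this
          linarith
        have k2 : ‖GF E ε (spl {x, y} W1 W) x x * GF E ε (spl {x, y} W1 W) y y‖ ≤ g * g := by
          rw [norm_mul]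
          gcongr
        have k3 : g' ^ 2 ≤ ‖GF E ε (spl {x, y} W1 W) x y ^ 2‖ := by
          rw [norm_pow]
          gcongr
        nlinarith
      have h4 : 0 < 3 / 4 * g' ^ 2 := by positivity
      calc ‖GF E ε (spl {x, y} W1 W) y y‖ / ‖DT E ε (spl {x, y} W1 W) x y‖
          ≤ g / (3 / 4 * g' ^ 2) := by gcongr
        _ = 4 / 3 * (g / g' ^ 2) := by field_simp
    calc ENNReal.ofReal (3 * (1 + (b - a) ^ 2) * B ^ 2)
          * (PP (ZZ d) μ) {W1 | W1 ∈ Om d a b ∧ spl {x, y} W1 W ∈ A}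
        ≤ ENNReal.ofReal (3 * (1 + (b - a) ^ 2) * B ^ 2)
          * ENNReal.ofReal (2 * C * (4 / 3 * (g / g' ^ 2))) := by
          gcongr
          exact (measure_mono hsub).trans (hμ.win1 x _ _)
      _ = ENNReal.ofReal (8 * (1 + (b - a) ^ 2) * C * B ^ 2 * g / g' ^ 2) := by
          rw [← ENNReal.ofReal_mul (by positivity)]
          congr 1
          ring

end Pool.SU
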