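import Mathlib
import Pool.Agent.SU.Base

/-!
# A19: energies near the edges or outside the spectrum
-/

set_option autoImplicit false

open Complex MeasureTheory Filter Topology Set ContinuousLinearMap
open scoped InnerProductSpace ENNReal NNReal

namespace Pool.SU

open Pool.NB Pool.SB

variable {d : ℕ}

theorem edge_qv_meas (σ a b : ℝ) (x : ZZ d) :
    Measurable (fun W : ZZ d → ℝ => qv σ a b W x) := by
  unfold qv
  split_ifs <;> fun_prop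

theorem edge_bad_meas (σ a b : ℝ) (i0 : Fin d) (m L : ℕ) :
    MeasurableSet (badSeg σ a b i0 m L) := by
  have h : badSeg σ a b i0 m L = ⋃ y ∈ ball d (L + 2 * m), ⋃ S ∈ (Finset.range (2 * m)).powerset,
      {W : ZZ d → ℝ | (((2 * m : ℕ) : ℤ) ∣ y i0 ∧ S.card = m) ∧
        ∀ j ∈ S, qv σ a b W (y + (j : ℤ) • ee d i0) < 1 / (2 * (m : ℝ) ^ 2)} := by
    ext W
    simp only [badSeg, Set.mem_ofPred_eq, Set.mem_iUnion, Finset.mem_powerset, exists_prop]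
    constructor
    · rintro ⟨y, hy, h1, S, hS, h2, h3⟩
      exact ⟨y, hy, S, hS, ⟨h1, h2⟩, h3⟩
    · rintro ⟨y, hy, S, hS, ⟨h1, h2⟩, h3⟩
      exact ⟨y, hy, h1, S, hS, h2, h3⟩
  rw [h]
  refine Finset.measurableSet_biUnion _ fun y _ => Finset.measurableSet_biUnion _ fun S _ => ?_
  refine MeasurableSet.inter (MeasurableSet.const _) ?_
  have h2 : {W : ZZ d → ℝ | ∀ j ∈ S, qv σ a b W (y + (j : ℤ) • ee d i0) < 1 / (2 * (m : ℝ) ^ 2)} =
      ⋂ j ∈ S, {W : ZZ d → ℝ | qv σ a b W (y + (j : ℤ) • ee d i0) < 1 / (2 * (m : ℝ) ^ 2)} := by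
    ext W
    simp
  show MeasurableSet {W : ZZ d → ℝ | ∀ j ∈ S,
    qv σ a b W (y + (j : ℤ) • ee d i0) < 1 / (2 * (m : ℝ) ^ 2)}
  rw [h2]
  exact Finset.measurableSet_biInter _ fun j _ =>
    measurableSet_lt (edge_qv_meas σ a b _) measurable_const

theorem edge_n1_smul (i0 : Fin d) (j : ℕ) : n1 ((j : ℤ) • ee d i0) ≤ j := by
  unfold n1
  rw [Finset.sum_eq_single i0]
  · simp [ee]
  · intro i _ hi
    simp [ee, Pi.single_eq_of_ne hi]
  · intro h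
    exact absurd (Finset.mem_univ _) h

theorem edge_bad_congr (σ a b : ℝ) (i0 : Fin d) (m L : ℕ) (W W1 : ZZ d → ℝ)
    (h : ∀ x ∈ ball d (L + 4 * m), W x = W1 x) (hW : W ∈ badSeg σ a b i0 m L) :
    W1 ∈ badSeg σ a b i0 m L := by
  obtain ⟨y, hy, h1, S, hS, h2, h3⟩ := hW
  refine ⟨y, hy, h1, S, hS, h2, fun j hj => ?_⟩
  have h4 := h3 j hj
  have hj' := Finset.mem_range.1 (hS hj)
  have h5 : W (y + (j : ℤ) • ee d i0) = W1 (y + (j : ℤ) • ee d i0) := by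
    apply h
    rw [mem_ball]
    have := n1_add y ((j : ℤ) • ee d i0)
    have := edge_n1_smul i0 j
    have := mem_ball.1 hy
    omega
  unfold qv at h4 ⊢
  rwa [h5] at h4

/-- pivoting on the finite set `S` -/
theorem edge_pivot (X : ZZ d →+ ℝ) {E ε : ℝ} (hε : 0 < ε) (S : Finset (ZZ d)) (h0 : 0 ∈ S)
    (W W' : ZZ d → ℝ) (G D : ℝ) (hG0 : 0 ≤ G) (hG : ∀ q ∈ S, ‖GF E ε W q 0‖ ≤ G)
    (hD : ∀ q ∈ S, |W' q - W q| ≤ D) :
    pv X E ε W 0 ≤ ENNReal.ofReal ((1 + D * G) ^ 2 * S.card) *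
      ∑ q ∈ S, pv X E ε (spl S W' W) q := by
  have hD0 : 0 ≤ D := (abs_nonneg _).trans (hD 0 h0)
  have h1 : ‖VV X E ε W 0‖ ≤ (1 + D * G) * ∑ q ∈ S, ‖VV X E ε (spl S W' W) q‖ := by
    rw [VV_spl X hε S W' W 0]
    refine (norm_add_le _ _).trans ?_
    rw [add_mul, one_mul]
    refine add_le_add ?_ ?_
    · exact Finset.single_le_sum (f := fun q => ‖VV X E ε (spl S W' W) q‖)
        (fun _ _ => norm_nonneg _) h0
    · refine (norm_sum_le _ _).trans ?_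
      rw [Finset.mul_sum]
      refine Finset.sum_le_sum fun q hq => ?_
      rw [norm_smul, norm_mul, Complex.norm_real, Real.norm_eq_abs]
      exact mul_le_mul_of_nonneg_right
        (mul_le_mul (hD q hq) (hG q hq) (norm_nonneg _) hD0) (norm_nonneg _)
  have h2 : ‖VV X E ε W 0‖ ^ 2 ≤ ((1 + D * G) ^ 2 * S.card) *
      ∑ q ∈ S, ‖VV X E ε (spl S W' W) q‖ ^ 2 := by
    have h3 : ‖VV X E ε W 0‖ ^ 2 ≤ ((1 + D * G) * ∑ q ∈ S, ‖VV X E ε (spl S W' W) q‖) ^ 2 :=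
      pow_le_pow_left₀ (norm_nonneg _) h1 2
    have h4 := sq_sum_le_card_mul_sum_sq (s := S) (f := fun q => ‖VV X E ε (spl S W' W) q‖)
    calc ‖VV X E ε W 0‖ ^ 2 ≤ ((1 + D * G) * ∑ q ∈ S, ‖VV X E ε (spl S W' W) q‖) ^ 2 := h3
      _ = (1 + D * G) ^ 2 * (∑ q ∈ S, ‖VV X E ε (spl S W' W) q‖) ^ 2 := by ring
      _ ≤ (1 + D * G) ^ 2 * (S.card * ∑ q ∈ S, ‖VV X E ε (spl S W' W) q‖ ^ 2) :=
        mul_le_mul_of_nonneg_left h4 (by positivity)
      _ = _ := by ring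
  unfold pv
  rw [← ENNReal.ofReal_sum_of_nonneg (fun _ _ => by positivity),
    ← ENNReal.ofReal_mul (by positivity)]
  exact ENNReal.ofReal_le_ofReal h2

theorem edge_spl_spl (S : Finset (ZZ d)) (W' W1 W : ZZ d → ℝ) :
    spl S W' (spl S W1 W) = spl S W' W := by
  funext x
  unfold spl
  split_ifs <;> rfl

/-- the sum of the integrals of `pv` -/
theorem edge_sum_int (μ : Measure ℝ) [IsProbabilityMeasure μ] (X : ZZ d →+ ℝ) (E : ℝ) {ε : ℝ}
    (hε : 0 < ε) (S : Finset (ZZ d)) :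
    ∫⁻ W, ∑ q ∈ S, pv X E ε W q ∂(PP (ZZ d) μ) ≤ ENNReal.ofReal (2 * S.card) * MM μ X E ε
      + ENNReal.ofReal (∑ q ∈ S, 2 * (X q) ^ 2) * QQ μ d E ε := by
  rw [lintegral_finsetSum _ (fun q _ => pv_meas X E hε q)]
  refine (Finset.sum_le_sum fun q _ => pv_int_le μ X E hε q).trans ?_
  rw [Finset.sum_add_distrib, Finset.sum_const, ← Finset.sum_mul,
    ENNReal.ofReal_sum_of_nonneg (fun _ _ => by positivity)]
  refine add_le_add (le_of_eq ?_) le_rfl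
  rw [nsmul_eq_mul, ENNReal.ofReal_mul (by norm_num), ENNReal.ofReal_natCast,
    ENNReal.ofReal_ofNat]
  ring

/-- the part where the form is positive -/
theorem edge_good (hCT : StmtCT) (μ : Measure ℝ) [IsProbabilityMeasure μ] (X : ZZ d →+ ℝ)
    (σ η α E ε : ℝ) (L : ℕ) (hσ : σ = 1 ∨ σ = -1) (hη : 0 < η) (hα : 0 < α)
    (hd : d * (Real.exp α - 1) ^ 2 ≤ η / 2) (hε : 0 < ε) (s : Set (ZZ d → ℝ))
    (hs : MeasurableSet s) (hF : ∀ᵐ W ∂(PP (ZZ d) μ), W ∈ s → FormGe σ W E η L) :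
    ∫⁻ W in s, pv X E ε W 0 ∂(PP (ZZ d) μ)
      ≤ ENNReal.ofReal (8 / η ^ 2 * ∑ x ∈ ball d L, (Real.exp (-α * n1 x)) ^ 2 * (X x) ^ 2)
        + ENNReal.ofReal (8 / η ^ 2 * ((2 * d) ^ 2 * (Real.exp (-α * L)) ^ 2)) *
          (ENNReal.ofReal (2 * (ball d (L + 1) \ ball d L).card) * MM μ X E ε
            + ENNReal.ofReal (∑ q ∈ ball d (L + 1) \ ball d L, 2 * (X q) ^ 2) * QQ μ d E ε) := by
  set c1 := 8 / η ^ 2 * ∑ x ∈ ball d L, (Real.exp (-α * n1 x)) ^ 2 * (X x) ^ 2 with hc1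
  set c2 := 8 / η ^ 2 * ((2 * d) ^ 2 * (Real.exp (-α * L)) ^ 2) with hc2
  have hc20 : 0 ≤ c2 := by positivity
  have hc10 : 0 ≤ c1 := by
    apply mul_nonneg (by positivity)
    exact Finset.sum_nonneg fun _ _ => by positivity
  have h1 : ∫⁻ W in s, pv X E ε W 0 ∂(PP (ZZ d) μ) ≤
      ∫⁻ W in s, (ENNReal.ofReal c1 + ENNReal.ofReal c2 *
        ∑ y ∈ ball d (L + 1) \ ball d L, pv X E ε W y) ∂(PP (ZZ d) μ) := by
    refine lintegral_mono_ae ?_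
    rw [ae_restrict_iff' hs]
    filter_upwards [hF] with W hW hWs
    have h2 := hCT d X σ η α E ε L W hσ hη hα hd hε (hW hWs)
    unfold pv
    rw [← ENNReal.ofReal_sum_of_nonneg (fun _ _ => by positivity), ← ENNReal.ofReal_mul hc20,
      ← ENNReal.ofReal_add hc10 (mul_nonneg hc20 (Finset.sum_nonneg fun _ _ => by positivity))]
    refine ENNReal.ofReal_le_ofReal (h2.trans (le_of_eq ?_))
    rw [hc1, hc2]
    ring
  refine h1.trans ?_
  refine (setLIntegral_le_lintegral _ _).trans ?_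
  rw [lintegral_add_left measurable_const, lintegral_const, measure_univ, mul_one,
    lintegral_const_mul]
  · gcongr
    exact edge_sum_int μ X E hε _
  · exact Finset.measurable_fun_sum _ (fun q _ => pv_meas X E hε q)

/-- the part where some segment is bad -/
theorem edge_bad (hLifP : StmtLifP) (μ : Measure ℝ) [IsProbabilityMeasure μ] (a b c C : ℝ)
    (hμ : Uni μ a b c C) (X : ZZ d →+ ℝ) (σ τ g E ε : ℝ) (i0 : Fin d) (m L : ℕ) (hm : 0 < m)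
    (hτ0 : 0 < τ) (hτ1 : τ < 1) (hg : 1 ≤ g) (hε : 0 < ε) :
    ∫⁻ W in (resEv E ε τ g)ᶜ ∩ badSeg σ a b i0 m L, pv X E ε W 0 ∂(PP (ZZ d) μ)
      ≤ ENNReal.ofReal ((1 + (b - a) * (g * (τ ^ (2 * (L + 4 * m)))⁻¹)) ^ 2 *
          (ball d (L + 4 * m)).card *
          ((2 * (L + 2 * m) + 1) ^ d * (2 * C / (m : ℝ) ^ 2) ^ m)) *
          (ENNReal.ofReal (2 * (ball d (L + 4 * m)).card) * MM μ X E ε
            + ENNReal.ofReal (∑ q ∈ ball d (L + 4 * m), 2 * (X q) ^ 2) * QQ μ d E ε) := by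
  have hC := hμ.C_pos
  have hab := hμ.ab
  have hDm : MeasurableSet ((resEv E ε τ g)ᶜ ∩ badSeg σ a b i0 m L) :=
    (resEv_meas E hε τ g).compl.inter (edge_bad_meas σ a b i0 m L)
  have hP := hLifP μ a b c C hμ d i0 σ m L hm
  rw [ENNReal.ofReal_mul (by positivity)]
  refine (loss hμ (ball d (L + 4 * m)) (F := fun W => pv X E ε W 0)
    (Φ := fun W => ∑ q ∈ ball d (L + 4 * m), pv X E ε W q) (pv_meas X E hε 0)
    (Finset.measurable_fun_sum _ (fun q _ => pv_meas X E hε q)) hDm _ ?_).trans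
    (mul_le_mul_right (edge_sum_int μ X E hε _) _)
  intro W hW
  refine ⟨_, ?_, mul_le_mul_right ((measure_mono ?_).trans hP) _⟩
  · intro W1 hW1 W' hW' hA
    have h1 : ∀ q ∈ ball d (L + 4 * m), ‖GF E ε (spl (ball d (L + 4 * m)) W1 W) q 0‖ ≤
        g * (τ ^ (2 * (L + 4 * m)))⁻¹ := by
      intro q hq
      have h2 : ¬ (g ≤ ‖GF E ε (spl (ball d (L + 4 * m)) W1 W) 0 q‖ * τ ^ (2 * n1 q)) :=
        fun h => hA.1 ⟨q, h⟩
      rw [not_le] at h2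
      rw [GF_symm hε]
      have h3 : τ ^ (2 * (L + 4 * m)) ≤ τ ^ (2 * n1 q) :=
        pow_le_pow_of_le_one hτ0.le hτ1.le (by have := mem_ball.1 hq; omega)
      have h4 : 0 < τ ^ (2 * (L + 4 * m)) := by positivity
      rw [← div_eq_mul_inv, le_div_iff₀ h4]
      exact (mul_le_mul_of_nonneg_left h3 (norm_nonneg _)).trans h2.le
    have h5 := edge_pivot X hε (ball d (L + 4 * m)) (zero_mem_ball _)
      (spl (ball d (L + 4 * m)) W1 W) W' _ (b - a) (by positivity) h1 (by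
        intro q hq
        have h6 : spl (ball d (L + 4 * m)) W1 W q = W1 q := by
          unfold spl
          rw [if_pos hq]
        rw [h6]
        have := hW1 q
        have := hW' q
        rw [abs_le]
        constructor <;> linarith)
    rw [edge_spl_spl] at h5
    exact h5
  · rintro W1 ⟨_, hA⟩
    refine edge_bad_congr σ a b i0 m L _ W1 (fun x hx => ?_) hA.2
    unfold spl
    rw [if_pos hx]

theorem edge_of (hCT : StmtCT) (hLif : StmtLif) (hLifP : StmtLifP) (hNum : StmtNum) :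
    StmtEdge := by
  intro d hd
  obtain ⟨τ, hτ0, hτ1, hN⟩ := hNum d hd
  refine ⟨τ, hτ0, hτ1, ?_⟩
  intro μ _ a b c C hμ X g hg
  have hC := hμ.C_pos
  have hab := hμ.ab
  have hD : 0 < b - a := by linarith
  obtain ⟨A, hA⟩ : ∃ A : ℝ, A = 131072 * (d : ℝ) ^ 2 + 16 * (1 + (b - a)) ^ 2 * g ^ 2 + 2 * C :=
    ⟨_, rfl⟩
  have hd1 : (1 : ℝ) ≤ d := by exact_mod_cast hd
  have hA0 : 0 < A := by
    rw [hA]
    positivity
  obtain ⟨m, L, α, hm, hα, hn1, hn2, hn3⟩ := hN A hA0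
  have hmR : (1 : ℝ) ≤ m := by exact_mod_cast hm
  obtain ⟨i0⟩ : Nonempty (Fin d) := ⟨⟨0, hd⟩⟩
  obtain ⟨η, hη⟩ : ∃ η : ℝ, η = 1 / (16 * (m : ℝ) ^ 2) := ⟨_, rfl⟩
  have hη0 : 0 < η := by
    rw [hη]
    positivity
  -- constants
  obtain ⟨k1, hk1⟩ : ∃ k : ℝ, k = 8 / η ^ 2 * ∑ x ∈ ball d L,
    (Real.exp (-α * n1 x)) ^ 2 * (X x) ^ 2 := ⟨_, rfl⟩
  obtain ⟨k2, hk2⟩ : ∃ k : ℝ, k = 8 / η ^ 2 * ((2 * d) ^ 2 * (Real.exp (-α * L)) ^ 2) := ⟨_, rfl⟩
  obtain ⟨k3, hk3⟩ : ∃ k : ℝ, k = ((1 + (b - a) * (g * (τ ^ (2 * (L + 4 * m)))⁻¹)) ^ 2 *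
          (ball d (L + 4 * m)).card *
          ((2 * (L + 2 * m) + 1) ^ d * (2 * C / (m : ℝ) ^ 2) ^ m)) := ⟨_, rfl⟩
  obtain ⟨n2, hn2'⟩ : ∃ n : ℕ, n = (ball d (L + 1) \ ball d L).card := ⟨_, rfl⟩
  obtain ⟨n3, hn3'⟩ : ∃ n : ℕ, n = (ball d (L + 4 * m)).card := ⟨_, rfl⟩
  obtain ⟨q2, hq2⟩ : ∃ q : ℝ, q = ∑ q ∈ ball d (L + 1) \ ball d L, 2 * (X q) ^ 2 := ⟨_, rfl⟩
  obtain ⟨q3, hq3⟩ : ∃ q : ℝ, q = ∑ q ∈ ball d (L + 4 * m), 2 * (X q) ^ 2 := ⟨_, rfl⟩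
  have hk10 : 0 ≤ k1 := by
    rw [hk1]
    exact mul_nonneg (by positivity) (Finset.sum_nonneg fun _ _ => by positivity)
  have hk20 : 0 ≤ k2 := by
    rw [hk2]
    positivity
  have hk30 : 0 ≤ k3 := by
    rw [hk3]
    positivity
  have hq20 : 0 ≤ q2 := by
    rw [hq2]
    exact Finset.sum_nonneg fun _ _ => by positivity
  have hq30 : 0 ≤ q3 := by
    rw [hq3]
    exact Finset.sum_nonneg fun _ _ => by positivity
  -- coefficient of `MM`, first part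
  have hM1 : k2 * (2 * n2) ≤ 1 / 8 := by
    have e1 : (n2 : ℝ) ≤ (2 * L + 3) ^ d := by
      rw [hn2']
      have := (Finset.card_le_card (Finset.sdiff_subset (s := ball d (L + 1))
        (t := ball d L))).trans (card_ball_le d (L + 1))
      have e2 : (((ball d (L + 1) \ ball d L).card : ℕ) : ℝ) ≤ ((2 * (L + 1) + 1 : ℕ) : ℝ) ^ d := by
        exact_mod_cast this
      refine e2.trans (le_of_eq ?_)
      push_cast
      ring
    have e3 : k2 = 8192 * (d : ℝ) ^ 2 * ((m : ℝ) ^ 4 * (Real.exp (-α * L)) ^ 2) := by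
      rw [hk2, hη]
      field_simp
      ring
    have e4 : k2 * (2 * n2) ≤ k2 * (2 * (2 * L + 3) ^ d) := by gcongr
    have e5 : 0 ≤ (m : ℝ) ^ 4 * (2 * L + 3) ^ d * (Real.exp (-α * L)) ^ 2 := by positivity
    have e6 : 131072 * (d : ℝ) ^ 2 ≤ A := by
      rw [hA]
      have : 0 ≤ 16 * (1 + (b - a)) ^ 2 * g ^ 2 := by positivity
      linarith
    have e7 : 131072 * (d : ℝ) ^ 2 * ((m : ℝ) ^ 4 * (2 * L + 3) ^ d * (Real.exp (-α * L)) ^ 2) ≤
        A * ((m : ℝ) ^ 4 * (2 * L + 3) ^ d * (Real.exp (-α * L)) ^ 2) :=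
      mul_le_mul_of_nonneg_right e6 e5
    have e8 : A * ((m : ℝ) ^ 4 * (2 * L + 3) ^ d * (Real.exp (-α * L)) ^ 2) =
        A * (m : ℝ) ^ 4 * (2 * L + 3) ^ d * (Real.exp (-α * L)) ^ 2 := by ring
    have e9 : k2 * (2 * (2 * L + 3) ^ d) = 1 / 8 * (131072 * (d : ℝ) ^ 2 *
        ((m : ℝ) ^ 4 * (2 * L + 3) ^ d * (Real.exp (-α * L)) ^ 2)) := by
      rw [e3]
      ring
    linarith
  -- second part
  have hM2 : k3 * (2 * n3) ≤ 1 / 8 := by
    obtain ⟨T, hT⟩ : ∃ T : ℝ, T = (τ ^ (2 * (L + 4 * m)))⁻¹ := ⟨_, rfl⟩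
    obtain ⟨N, hNdef⟩ : ∃ N : ℝ, N = (2 * (L + 4 * m) + 1) ^ d := ⟨_, rfl⟩
    have hT1 : 1 ≤ T := by
      rw [hT]
      exact (one_le_inv₀ (by positivity)).2 (pow_le_one₀ hτ0.le hτ1.le)
    have hN0 : 0 ≤ N := by
      rw [hNdef]
      positivity
    have e1 : (n3 : ℝ) ≤ N := by
      rw [hn3', hNdef]
      have := card_ball_le d (L + 4 * m)
      exact_mod_cast this
    have e2 : ((2 * (L + 2 * m) + 1) ^ d : ℝ) ≤ N := by
      rw [hNdef]
      gcongr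
      norm_num
    have e3 : 1 + (b - a) * (g * T) ≤ (1 + (b - a)) * (g * T) := by
      have : 1 ≤ g * T := one_le_mul_of_one_le_of_one_le hg hT1
      linarith
    have e4 : (1 + (b - a) * (g * T)) ^ 2 ≤ ((1 + (b - a)) * (g * T)) ^ 2 := by
      have : 0 ≤ g * T := by positivity
      exact pow_le_pow_left₀ (by positivity) e3 2
    have e5 : (2 * C / (m : ℝ) ^ 2) ^ m ≤ (A / (m : ℝ) ^ 2) ^ m := by
      have : 2 * C ≤ A := by
        rw [hA]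
        have : 0 ≤ 131072 * (d : ℝ) ^ 2 + 16 * (1 + (b - a)) ^ 2 * g ^ 2 := by positivity
        linarith
      gcongr
    have e6 : k3 * (2 * n3) ≤ ((1 + (b - a)) * (g * T)) ^ 2 * N * (N * (A / (m : ℝ) ^ 2) ^ m) *
        (2 * N) := by
      rw [hk3, ← hT, ← hn3']
      gcongr
    have e7 : 0 ≤ N ^ 3 * (A / (m : ℝ) ^ 2) ^ m * T ^ 2 := by positivity
    have e8 : 16 * (1 + (b - a)) ^ 2 * g ^ 2 ≤ A := by
      rw [hA]
      have : 0 ≤ 131072 * (d : ℝ) ^ 2 := by positivity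
      linarith
    have e9 := mul_le_mul_of_nonneg_right e8 e7
    have e10 : A * (N ^ 3 * (A / (m : ℝ) ^ 2) ^ m * T ^ 2) ≤ 1 := by
      refine le_trans (le_of_eq ?_) hn3
      rw [hNdef, hT, ← pow_mul, mul_comm d 3]
      ring
    have e11 : ((1 + (b - a)) * (g * T)) ^ 2 * N * (N * (A / (m : ℝ) ^ 2) ^ m) * (2 * N) =
        1 / 8 * (16 * (1 + (b - a)) ^ 2 * g ^ 2 * (N ^ 3 * (A / (m : ℝ) ^ 2) ^ m * T ^ 2)) := by
      ring
    linarith
  refine ⟨η, k1 + k2 * q2 + k3 * q3 + 1, hη0, by positivity, ?_⟩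
  intro E ε hE hε hε1
  obtain ⟨σ, hσ, hσ1, hσ2⟩ : ∃ σ : ℝ, (σ = 1 ∨ σ = -1) ∧ (σ = 1 → E ≤ a + 1 / (16 * (m : ℝ) ^ 2)) ∧
      (σ = -1 → 4 * d + b - 1 / (16 * (m : ℝ) ^ 2) ≤ E) := by
    rw [hη] at hE
    rcases hE with hE | hE
    · exact ⟨1, Or.inl rfl, fun _ => hE, fun h => by norm_num at h⟩
    · exact ⟨-1, Or.inr rfl, fun h => by norm_num at h, fun _ => hE⟩
  have hbm := edge_bad_meas σ a b i0 m L
  have hsm := (resEv_meas (d := d) E hε τ g).compl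
  rw [← lintegral_inter_add_sdiff (μ := (PP (ZZ d) μ)) (fun W => pv X E ε W 0)
    ((resEv E ε τ g)ᶜ) hbm]
  have hb := edge_bad hLifP μ a b c C hμ X σ τ g E ε i0 m L hm hτ0 hτ1 hg hε
  have hgd := edge_good hCT μ X σ η α E ε L hσ hη0 hα (by
    rw [hη]
    refine hn1.trans (le_of_eq ?_)
    ring) hε ((resEv E ε τ g)ᶜ \ badSeg σ a b i0 m L) (hsm.diff hbm) (by
    filter_upwards [Om_ae hμ] with W hW hWs
    rw [hη]
    exact hLif d i0 a b σ m L hab hm hσ E hσ1 hσ2 W hW hWs.2)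
  rw [← hk3, ← hn3', ← hq3] at hb
  rw [← hk1, ← hk2, ← hn2', ← hq2] at hgd
  refine (add_le_add hb hgd).trans ?_
  have f1 : ENNReal.ofReal k3 * (ENNReal.ofReal (2 * n3) * MM μ X E ε + ENNReal.ofReal q3 *
      QQ μ d E ε) = ENNReal.ofReal (k3 * (2 * n3)) * MM μ X E ε + ENNReal.ofReal (k3 * q3) *
      QQ μ d E ε := by
    rw [ENNReal.ofReal_mul hk30, ENNReal.ofReal_mul hk30]
    ring
  have f2 : ENNReal.ofReal k2 * (ENNReal.ofReal (2 * n2) * MM μ X E ε + ENNReal.ofReal q2 *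
      QQ μ d E ε) = ENNReal.ofReal (k2 * (2 * n2)) * MM μ X E ε + ENNReal.ofReal (k2 * q2) *
      QQ μ d E ε := by
    rw [ENNReal.ofReal_mul hk20, ENNReal.ofReal_mul hk20]
    ring
  rw [f1, f2]
  have f3 : ENNReal.ofReal (1 / 4) = ENNReal.ofReal (1 / 8) + ENNReal.ofReal (1 / 8) := by
    rw [← ENNReal.ofReal_add (by norm_num) (by norm_num)]
    norm_num
  have f4 : ENNReal.ofReal (k1 + k2 * q2 + k3 * q3 + 1) = ENNReal.ofReal k1 +
      ENNReal.ofReal (k2 * q2) + ENNReal.ofReal (k3 * q3) + 1 := by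
    rw [ENNReal.ofReal_add (by positivity) (by norm_num), ENNReal.ofReal_add (by positivity)
      (by positivity), ENNReal.ofReal_add (by positivity) (by positivity), ENNReal.ofReal_one]
  have f5 : ENNReal.ofReal (k3 * (2 * n3)) * MM μ X E ε ≤ ENNReal.ofReal (1 / 8) * MM μ X E ε := by
    gcongr
  have f6 : ENNReal.ofReal (k2 * (2 * n2)) * MM μ X E ε ≤ ENNReal.ofReal (1 / 8) * MM μ X E ε := by
    gcongr
  rw [f3, f4]
  calc ENNReal.ofReal (k3 * (2 * n3)) * MM μ X E ε + ENNReal.ofReal (k3 * q3) * QQ μ d E ε +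
        (ENNReal.ofReal k1 + (ENNReal.ofReal (k2 * (2 * n2)) * MM μ X E ε +
          ENNReal.ofReal (k2 * q2) * QQ μ d E ε))
      ≤ ENNReal.ofReal (1 / 8) * MM μ X E ε + ENNReal.ofReal (k3 * q3) * QQ μ d E ε +
        (ENNReal.ofReal k1 + (ENNReal.ofReal (1 / 8) * MM μ X E ε +
          ENNReal.ofReal (k2 * q2) * QQ μ d E ε)) := by gcongr
    _ = (ENNReal.ofReal (1 / 8) + ENNReal.ofReal (1 / 8)) * MM μ X E ε +
        ((ENNReal.ofReal (k2 * q2) + ENNReal.ofReal (k3 * q3)) * QQ μ d E ε +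
          ENNReal.ofReal k1 * 1) := by ring
    _ ≤ (ENNReal.ofReal (1 / 8) + ENNReal.ofReal (1 / 8)) * MM μ X E ε +
        ((ENNReal.ofReal k1 + ENNReal.ofReal (k2 * q2) + ENNReal.ofReal (k3 * q3) + 1) *
          QQ μ d E ε + (ENNReal.ofReal k1 + ENNReal.ofReal (k2 * q2) +
            ENNReal.ofReal (k3 * q3) + 1) * 1) := by
      have g1 : ENNReal.ofReal (k2 * q2) + ENNReal.ofReal (k3 * q3) ≤ ENNReal.ofReal k1 +
          ENNReal.ofReal (k2 * q2) + ENNReal.ofReal (k3 * q3) + 1 := by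
        calc ENNReal.ofReal (k2 * q2) + ENNReal.ofReal (k3 * q3)
            ≤ (ENNReal.ofReal (k2 * q2) + ENNReal.ofReal (k3 * q3)) + (ENNReal.ofReal k1 + 1) :=
              le_self_add
          _ = _ := by ring
      have g2 : ENNReal.ofReal k1 ≤ ENNReal.ofReal k1 +
          ENNReal.ofReal (k2 * q2) + ENNReal.ofReal (k3 * q3) + 1 := by
        calc ENNReal.ofReal k1 ≤ ENNReal.ofReal k1 + (ENNReal.ofReal (k2 * q2) +
              ENNReal.ofReal (k3 * q3) + 1) := le_self_add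
          _ = _ := by ring
      exact add_le_add le_rfl (add_le_add (mul_le_mul' g1 le_rfl) (mul_le_mul' g2 le_rfl))
    _ = _ := by ring

end Pool.SU
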