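import Pool.Agent.SU.Defs

/-!
# A10: approximate eigenfunctions in the interior of the spectrum
-/

set_option autoImplicit false

namespace Pool.SU

variable {d : ℕ}

/-! ### the angle -/

lemma eig_theta (u v : ℝ) (h1 : u < v) (h2 : u < 2) (h3 : -2 < v) :
    ∃ (m : ℕ) (p : ℤ), u < 2 * Real.cos (Real.pi * p / (2 * m + 1)) ∧
      2 * Real.cos (Real.pi * p / (2 * m + 1)) < v := by
  obtain ⟨c, hc1, hc2, hc3, hc4⟩ : ∃ c : ℝ, u < c ∧ c < v ∧ -2 < c ∧ c < 2 := by
    have hlt : max u (-2) < min v 2 := by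
      rw [max_lt_iff, lt_min_iff, lt_min_iff]
      exact ⟨⟨h1, h2⟩, h3, by norm_num⟩
    obtain ⟨c, hc, hc'⟩ := exists_between hlt
    rw [max_lt_iff] at hc
    rw [lt_min_iff] at hc'
    exact ⟨c, hc.1, hc'.1, hc.2, hc'.2⟩
  have hcos : Real.cos (Real.arccos (c / 2)) = c / 2 :=
    Real.cos_arccos (by linarith) (by linarith)
  set θ := Real.arccos (c / 2) with hθ
  have hη : 0 < min (c - u) (v - c) := lt_min (by linarith) (by linarith)
  obtain ⟨m, hm⟩ := exists_nat_gt (2 * Real.pi / min (c - u) (v - c))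
  have hπ := Real.pi_pos
  have hm' : 2 * Real.pi / (2 * m + 1) < min (c - u) (v - c) := by
    rw [div_lt_iff₀ hη] at hm
    rw [div_lt_iff₀ (by positivity)]
    nlinarith [(Nat.cast_nonneg m : (0:ℝ) ≤ m)]
  refine ⟨m, ⌊(2 * m + 1) * θ / Real.pi⌋, ?_⟩
  set p : ℤ := ⌊(2 * m + 1) * θ / Real.pi⌋ with hp
  have hq : (0:ℝ) < 2 * m + 1 := by positivity
  have hdist : |Real.pi * p / (2 * m + 1) - θ| ≤ Real.pi / (2 * m + 1) := by
    have e1 := Int.floor_le ((2 * m + 1) * θ / Real.pi)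
    have e2 := Int.lt_floor_add_one ((2 * m + 1) * θ / Real.pi)
    rw [← hp] at e1 e2
    have e3 : (p : ℝ) * Real.pi ≤ (2 * m + 1) * θ := by rwa [le_div_iff₀ hπ] at e1
    have e4 : (2 * m + 1) * θ < (p + 1) * Real.pi := by rwa [div_lt_iff₀ hπ] at e2
    have e5 : Real.pi * p / (2 * m + 1) - θ = (Real.pi * p - (2 * m + 1) * θ) / (2 * m + 1) := by
      field_simp
    rw [e5, abs_div, abs_of_pos hq]
    refine div_le_div_of_nonneg_right ?_ hq.le
    rw [abs_le]
    constructor <;> linarith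
  have hcd : |Real.cos (Real.pi * p / (2 * m + 1)) - Real.cos θ| ≤ Real.pi / (2 * m + 1) :=
    (Real.abs_cos_sub_cos_le _ _).trans hdist
  rw [hcos, abs_le] at hcd
  have e6 : 2 * Real.pi / (2 * m + 1) = 2 * (Real.pi / (2 * m + 1)) := by ring
  rw [e6, lt_min_iff] at hm'
  constructor <;> linarith [hcd.1, hcd.2, hm'.1, hm'.2]

lemma eig_cos_odd (m : ℕ) (x : ℝ) :
    |Real.cos ((2 * m + 1) * x)| ≤ (2 * m + 1) * |Real.cos x| := by
  induction m with
  | zero => simp
  | succ k ih =>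
    have h : Real.cos ((2 * (k + 1 : ℕ) + 1) * x)
        = 2 * Real.cos ((2 * k + 2) * x) * Real.cos x - Real.cos ((2 * k + 1) * x) := by
      have e1 : (2 * ((k + 1 : ℕ) : ℝ) + 1) * x = (2 * k + 2) * x + x := by push_cast; ring
      have e2 : (2 * (k : ℝ) + 1) * x = (2 * k + 2) * x - x := by ring
      rw [e1, e2, Real.cos_add, Real.cos_sub]; ring
    rw [h]
    have h2 : |2 * Real.cos ((2 * k + 2) * x) * Real.cos x| ≤ 2 * |Real.cos x| := by
      rw [abs_mul, abs_mul, abs_two]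
      have := Real.abs_cos_le_one ((2 * k + 2) * x)
      nlinarith [abs_nonneg (Real.cos x)]
    refine (abs_sub _ _).trans ?_
    push_cast
    linarith

lemma eig_cos_lb (m : ℕ) (N : ℤ) :
    1 / (2 * (m:ℝ) + 1) ≤ |Real.cos (Real.pi * N / (2 * m + 1))| := by
  have hq : (0:ℝ) < 2 * m + 1 := by positivity
  have h := eig_cos_odd m (Real.pi * N / (2 * m + 1))
  have e : (2 * (m:ℝ) + 1) * (Real.pi * N / (2 * m + 1)) = N * Real.pi := by
    field_simp
  rw [e, Real.abs_cos_int_mul_pi] at h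
  rw [div_le_iff₀ hq]
  linarith


/-! ### the one-dimensional weight and function -/

/-- the weight -/
noncomputable def eig_w (α : ℝ) (n : ℤ) : ℝ := Real.exp (-(α * n.natAbs))

lemma eig_w_pos (α : ℝ) (n : ℤ) : 0 < eig_w α n := Real.exp_pos _

lemma eig_w_zero (α : ℝ) : eig_w α 0 = 1 := by simp [eig_w]

lemma eig_exp_sub (α y : ℝ) (hy : |y| ≤ α) : |Real.exp y - 1| ≤ Real.exp α - 1 := by
  rw [abs_le] at hy ⊢
  have h1 : Real.exp y ≤ Real.exp α := Real.exp_le_exp.mpr hy.2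
  have h2 : Real.exp (-α) ≤ Real.exp y := Real.exp_le_exp.mpr hy.1
  have h3 : 1 ≤ Real.exp α * Real.exp (-α) := by rw [← Real.exp_add]; simp
  have h4 : 0 < Real.exp (-α) := Real.exp_pos _
  have h5 : 0 < Real.exp α := Real.exp_pos _
  have h6 : 2 ≤ Real.exp α + Real.exp (-α) := by
    nlinarith [sq_nonneg (Real.exp α - 1), sq_nonneg (Real.exp (-α) - 1),
      sq_nonneg (Real.exp α - Real.exp (-α))]
  constructor <;> linarith

lemma eig_w_diff (α : ℝ) (hα : 0 ≤ α) (n k : ℤ) (hk : k.natAbs = 1) :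
    |eig_w α (n + k) - eig_w α n| ≤ eig_w α n * (Real.exp α - 1) := by
  have e : eig_w α (n + k) = eig_w α n * Real.exp (α * ((n.natAbs : ℝ) - ((n + k).natAbs : ℝ))) := by
    unfold eig_w
    rw [← Real.exp_add]
    congr 1
    ring
  rw [e]
  have e2 : eig_w α n * Real.exp (α * ((n.natAbs : ℝ) - ((n + k).natAbs : ℝ))) - eig_w α n
      = eig_w α n * (Real.exp (α * ((n.natAbs : ℝ) - ((n + k).natAbs : ℝ))) - 1) := by ring
  rw [e2, abs_mul, abs_of_pos (eig_w_pos α n)]
  refine mul_le_mul_of_nonneg_left (eig_exp_sub _ _ ?_) (eig_w_pos α n).le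
  rw [abs_mul, abs_of_nonneg hα]
  have h1 : |((n.natAbs : ℝ) - ((n + k).natAbs : ℝ))| ≤ 1 := by
    have h2 : (n.natAbs : ℤ) - ((n + k).natAbs : ℤ) ≤ 1 := by omega
    have h3 : -1 ≤ (n.natAbs : ℤ) - ((n + k).natAbs : ℤ) := by omega
    rw [abs_le]
    constructor
    · exact_mod_cast h3
    · exact_mod_cast h2
  nlinarith

/-- the one-dimensional function -/
noncomputable def eig_f (m : ℕ) (p : ℤ) (α : ℝ) (n : ℤ) : ℝ :=
  Real.cos (Real.pi * ((p * n : ℤ) : ℝ) / (2 * m + 1)) * eig_w α n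

lemma eig_f_zero (m : ℕ) (p : ℤ) (α : ℝ) : eig_f m p α 0 = 1 := by
  simp [eig_f, eig_w_zero]

lemma eig_f_abs_le (m : ℕ) (p : ℤ) (α : ℝ) (n : ℤ) : |eig_f m p α n| ≤ eig_w α n := by
  unfold eig_f
  rw [abs_mul, abs_of_pos (eig_w_pos α n)]
  have := Real.abs_cos_le_one (Real.pi * ((p * n : ℤ) : ℝ) / (2 * m + 1))
  nlinarith [eig_w_pos α n]

lemma eig_f_lb (m : ℕ) (p : ℤ) (α : ℝ) (n : ℤ) :
    eig_w α n ≤ (2 * m + 1) * |eig_f m p α n| := by
  unfold eig_f
  rw [abs_mul, abs_of_pos (eig_w_pos α n)]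
  have h := eig_cos_lb m (p * n)
  have hq : (0:ℝ) < 2 * m + 1 := by positivity
  rw [div_le_iff₀ hq] at h
  nlinarith [eig_w_pos α n]

lemma eig_f_ne (m : ℕ) (p : ℤ) (α : ℝ) (n : ℤ) : eig_f m p α n ≠ 0 := by
  intro h
  have h2 := eig_f_lb m p α n
  rw [h, abs_zero, mul_zero] at h2
  exact absurd (eig_w_pos α n) (not_lt.mpr h2)

lemma eig_f_rec (m : ℕ) (p : ℤ) (α : ℝ) (hα : 0 ≤ α) (n : ℤ) :
    |(eig_f m p α (n + 1) + eig_f m p α (n - 1)) / eig_f m p α n
      - 2 * Real.cos (Real.pi * p / (2 * m + 1))| ≤ 2 * (2 * m + 1) * (Real.exp α - 1) := by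
  set θ := Real.pi * p / (2 * m + 1) with hθ
  have hf : ∀ k : ℤ, eig_f m p α k = Real.cos (θ * k) * eig_w α k := by
    intro k
    unfold eig_f
    congr 2
    rw [hθ]; push_cast; ring
  have h0 : eig_f m p α n ≠ 0 := eig_f_ne m p α n
  have hpos : 0 < |eig_f m p α n| := abs_pos.mpr h0
  have e1 : (eig_f m p α (n + 1) + eig_f m p α (n - 1)) / eig_f m p α n - 2 * Real.cos θ
      = (Real.cos (θ * (n + 1)) * (eig_w α (n + 1) - eig_w α n)
        + Real.cos (θ * (n - 1)) * (eig_w α (n - 1) - eig_w α n)) / eig_f m p α n := by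
    rw [eq_div_iff h0, sub_mul, div_mul_cancel₀ _ h0, hf (n + 1), hf (n - 1), hf n]
    have e3 : Real.cos (θ * (n + 1)) + Real.cos (θ * (n - 1)) = 2 * Real.cos θ * Real.cos (θ * n) := by
      rw [mul_add, mul_sub, mul_one, Real.cos_add, Real.cos_sub]; ring
    push_cast
    linear_combination (eig_w α n) * e3
  rw [e1, abs_div, div_le_iff₀ hpos]
  have h1 := eig_w_diff α hα n 1 rfl
  have h2 := eig_w_diff α hα n (-1) rfl
  rw [← sub_eq_add_neg] at h2
  have h3 := eig_f_lb m p α n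
  have hE : 0 ≤ Real.exp α - 1 := by linarith [Real.add_one_le_exp α]
  calc |Real.cos (θ * (n + 1)) * (eig_w α (n + 1) - eig_w α n)
        + Real.cos (θ * (n - 1)) * (eig_w α (n - 1) - eig_w α n)|
      ≤ |Real.cos (θ * (n + 1)) * (eig_w α (n + 1) - eig_w α n)|
        + |Real.cos (θ * (n - 1)) * (eig_w α (n - 1) - eig_w α n)| := abs_add_le _ _
    _ ≤ 1 * (eig_w α n * (Real.exp α - 1)) + 1 * (eig_w α n * (Real.exp α - 1)) := by
        rw [abs_mul, abs_mul]
        exact add_le_add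
          (mul_le_mul (Real.abs_cos_le_one _) h1 (abs_nonneg _) zero_le_one)
          (mul_le_mul (Real.abs_cos_le_one _) h2 (abs_nonneg _) zero_le_one)
    _ = 2 * (Real.exp α - 1) * eig_w α n := by ring
    _ ≤ 2 * (Real.exp α - 1) * ((2 * m + 1) * |eig_f m p α n|) :=
        mul_le_mul_of_nonneg_left h3 (by linarith)
    _ = 2 * (2 * m + 1) * (Real.exp α - 1) * |eig_f m p α n| := by ring

/-! ### the product function -/

/-- the product function -/
noncomputable def eig_P (m : ℕ) (p : ℤ) (α : ℝ) (x : ZZ d) : ℝ := ∏ i, eig_f m p α (x i)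

lemma eig_P_ne (m : ℕ) (p : ℤ) (α : ℝ) (x : ZZ d) : eig_P m p α x ≠ 0 :=
  Finset.prod_ne_zero_iff.mpr fun i _ => eig_f_ne m p α (x i)

lemma eig_P_zero (m : ℕ) (p : ℤ) (α : ℝ) : eig_P m p α (0 : ZZ d) = 1 := by
  unfold eig_P
  exact Finset.prod_eq_one fun i _ => by rw [Pi.zero_apply, eig_f_zero]

lemma eig_prod_w (α : ℝ) (x : ZZ d) : ∏ i, eig_w α (x i) = Real.exp (-(α * n1 x)) := by
  unfold eig_w n1
  rw [← Real.exp_sum]
  congr 1
  rw [Finset.sum_neg_distrib, Nat.cast_sum, Finset.mul_sum]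

lemma eig_P_abs_le (m : ℕ) (p : ℤ) (α : ℝ) (x : ZZ d) :
    |eig_P m p α x| ≤ Real.exp (-(α * n1 x)) := by
  rw [← eig_prod_w]
  unfold eig_P
  rw [Finset.abs_prod]
  exact Finset.prod_le_prod (fun i _ => abs_nonneg _) fun i _ => eig_f_abs_le m p α (x i)

lemma eig_P_shift (m : ℕ) (p : ℤ) (α : ℝ) (x : ZZ d) (i : Fin d) (k : ℤ) :
    eig_P m p α (x + k • ee d i) = eig_P m p α x * (eig_f m p α (x i + k) / eig_f m p α (x i)) := by
  unfold eig_P
  rw [← Finset.mul_prod_erase Finset.univ _ (Finset.mem_univ i),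
    ← Finset.mul_prod_erase Finset.univ (fun j => eig_f m p α (x j)) (Finset.mem_univ i)]
  have h0 : eig_f m p α (x i) ≠ 0 := eig_f_ne m p α (x i)
  have e1 : (x + k • ee d i) i = x i + k := by simp [ee]
  have e2 : ∏ j ∈ Finset.univ.erase i, eig_f m p α ((x + k • ee d i) j)
      = ∏ j ∈ Finset.univ.erase i, eig_f m p α (x j) := by
    refine Finset.prod_congr rfl fun j hj => ?_
    have hji : j ≠ i := Finset.ne_of_mem_erase hj
    simp [ee, Pi.single_eq_of_ne hji]
  rw [e1, e2]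
  field_simp

/-- the potential -/
noncomputable def eig_V (m : ℕ) (p : ℤ) (α E0 : ℝ) (x : ZZ d) : ℝ :=
  E0 - ∑ i, (2 - (eig_f m p α (x i + 1) + eig_f m p α (x i - 1)) / eig_f m p α (x i))

lemma eig_P_eq (m : ℕ) (p : ℤ) (α E0 : ℝ) (x : ZZ d) :
    ∑ i, (2 * eig_P m p α x - eig_P m p α (x + ee d i) - eig_P m p α (x - ee d i))
      + (eig_V m p α E0 x - E0) * eig_P m p α x = 0 := by
  have h : ∀ i : Fin d, 2 * eig_P m p α x - eig_P m p α (x + ee d i) - eig_P m p α (x - ee d i)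
      = (2 - (eig_f m p α (x i + 1) + eig_f m p α (x i - 1)) / eig_f m p α (x i))
        * eig_P m p α x := by
    intro i
    have h1 := eig_P_shift m p α x i 1
    have h2 := eig_P_shift m p α x i (-1)
    rw [one_smul] at h1
    rw [neg_smul, one_smul, ← sub_eq_add_neg, ← sub_eq_add_neg] at h2
    rw [h1, h2]
    ring
  rw [Finset.sum_congr rfl fun i _ => h i, ← Finset.sum_mul]
  unfold eig_V
  ring

lemma eig_sum_w (α : ℝ) (hα : 0 < α) :
    ∃ A : ℝ, 0 < A ∧ ∀ S : Finset ℤ, ∑ n ∈ S, eig_w α n ≤ A := by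
  have hs : Summable (fun n : ℤ => eig_w α n) := by
    have hg : Summable (fun n : ℕ => Real.exp (-(α * n))) := by
      have h1 : ∀ n : ℕ, Real.exp (-(α * n)) = (Real.exp (-α)) ^ n := by
        intro n
        rw [← Real.exp_nat_mul]; congr 1; ring
      simp_rw [h1]
      exact summable_geometric_of_lt_one (Real.exp_pos _).le (by
        rw [Real.exp_lt_one_iff]; linarith)
    refine Summable.of_nat_of_neg ?_ ?_
    · simpa [eig_w] using hg
    · simpa [eig_w] using hg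
  refine ⟨∑' n, eig_w α n, ?_, fun S => hs.sum_le_tsum S fun n _ => (eig_w_pos α n).le⟩
  exact hs.tsum_pos (fun n => (eig_w_pos α n).le) 0 (eig_w_pos α 0)

lemma eig_sum_P (α : ℝ) (hα : 0 < α) (d : ℕ) :
    ∃ A : ℝ, 0 < A ∧ ∀ L : ℕ, ∑ x ∈ ball d L, Real.exp (-(α * n1 x)) ≤ A := by
  obtain ⟨A, hA, h⟩ := eig_sum_w α hα
  refine ⟨A ^ d, pow_pos hA d, fun L => ?_⟩
  calc ∑ x ∈ ball d L, Real.exp (-(α * n1 x))
      ≤ ∑ x ∈ Fintype.piFinset fun _ : Fin d => Finset.Icc (-(L : ℤ)) L, Real.exp (-(α * n1 x)) := by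
        refine Finset.sum_le_sum_of_subset_of_nonneg ?_ fun x _ _ => (Real.exp_pos _).le
        exact Finset.filter_subset _ _
    _ = ∑ x ∈ Fintype.piFinset fun _ : Fin d => Finset.Icc (-(L : ℤ)) L, ∏ i, eig_w α (x i) := by
        refine Finset.sum_congr rfl fun x _ => (eig_prod_w α x).symm
    _ = ∏ _i : Fin d, ∑ n ∈ Finset.Icc (-(L : ℤ)) L, eig_w α n := by
        rw [Finset.prod_univ_sum]
    _ ≤ ∏ _i : Fin d, A :=
        Finset.prod_le_prod (fun i _ => Finset.sum_nonneg fun n _ => (eig_w_pos α n).le)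
          fun i _ => h _
    _ = A ^ d := by simp

/-! ### truncation -/

lemma eig_trunc (d : ℕ) (m : ℕ) (p : ℤ) (α E0 : ℝ) (hα : 0 < α) (L : ℕ) (x : ZZ d) :
    |∑ i, (2 * (if n1 x ≤ L then eig_P m p α x else 0)
        - (if n1 (x + ee d i) ≤ L then eig_P m p α (x + ee d i) else 0)
        - (if n1 (x - ee d i) ≤ L then eig_P m p α (x - ee d i) else 0))
      + (eig_V m p α E0 x - E0) * (if n1 x ≤ L then eig_P m p α x else 0)|
      ≤ 2 * d * Real.exp (-(α * L)) := by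
  have hsum : ∀ F : Fin d → ℝ, (∀ i, |F i| ≤ 2 * Real.exp (-(α * L))) →
      |∑ i, F i| ≤ 2 * d * Real.exp (-(α * L)) := by
    intro F hF
    refine (Finset.abs_sum_le_sum_abs _ _).trans ((Finset.sum_le_sum fun i _ => hF i).trans ?_)
    rw [Finset.sum_const, Finset.card_univ, Fintype.card_fin, nsmul_eq_mul]
    exact le_of_eq (by ring)
  by_cases hx : n1 x ≤ L
  · have e := eig_P_eq m p α E0 x
    have e2 : ∑ i, (2 * (if n1 x ≤ L then eig_P m p α x else 0)
        - (if n1 (x + ee d i) ≤ L then eig_P m p α (x + ee d i) else 0)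
        - (if n1 (x - ee d i) ≤ L then eig_P m p α (x - ee d i) else 0))
      + (eig_V m p α E0 x - E0) * (if n1 x ≤ L then eig_P m p α x else 0)
      = ∑ i, ((eig_P m p α (x + ee d i)
          - (if n1 (x + ee d i) ≤ L then eig_P m p α (x + ee d i) else 0))
          + (eig_P m p α (x - ee d i)
          - (if n1 (x - ee d i) ≤ L then eig_P m p α (x - ee d i) else 0))) := by
      rw [if_pos hx]
      have e3 : ∀ y z : ℝ, z = 0 → y = y - z := by intro y z hz; rw [hz, sub_zero]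
      refine (e3 _ _ e).trans ?_
      rw [add_sub_add_right_eq_sub, ← Finset.sum_sub_distrib]
      refine Finset.sum_congr rfl fun i _ => ?_
      ring
    rw [e2]
    refine hsum _ fun i => ?_
    have key : ∀ y : ZZ d, |eig_P m p α y - (if n1 y ≤ L then eig_P m p α y else 0)|
        ≤ Real.exp (-(α * L)) := by
      intro y
      by_cases hy : n1 y ≤ L
      · rw [if_pos hy, sub_self, abs_zero]; exact (Real.exp_pos _).le
      · rw [if_neg hy, sub_zero]
        refine (eig_P_abs_le m p α y).trans (Real.exp_le_exp.mpr ?_)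
        have : (L : ℝ) ≤ n1 y := by exact_mod_cast (not_le.mp hy).le
        nlinarith
    refine (abs_add_le _ _).trans ?_
    linarith [key (x + ee d i), key (x - ee d i)]
  · rw [if_neg hx, mul_zero, mul_zero, add_zero]
    refine hsum _ fun i => ?_
    have key : ∀ y : ZZ d, L ≤ n1 y → |(if n1 y ≤ L then eig_P m p α y else 0)|
        ≤ Real.exp (-(α * L)) := by
      intro y hy
      by_cases hy2 : n1 y ≤ L
      · rw [if_pos hy2]
        refine (eig_P_abs_le m p α y).trans (Real.exp_le_exp.mpr ?_)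
        have : (L : ℝ) ≤ n1 y := by exact_mod_cast hy
        nlinarith
      · rw [if_neg hy2, abs_zero]; exact (Real.exp_pos _).le
    have g1 : L ≤ n1 (x + ee d i) := by
      have h := n1_add (x + ee d i) (-(ee d i))
      rw [n1_neg, n1_ee, add_neg_cancel_right] at h
      omega
    have g2 : L ≤ n1 (x - ee d i) := by
      have h := n1_add (x - ee d i) (ee d i)
      rw [n1_ee, sub_add_cancel] at h
      omega
    have k1 := key _ g1
    have k2 := key _ g2
    rw [abs_le] at k1 k2 ⊢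
    constructor <;> linarith

lemma eig_choose (α s : ℝ) (hα : 0 < α) (hs : 0 < s) (d : ℕ) :
    ∃ L : ℕ, ((2 * L + 3 : ℕ) : ℝ) ^ (3 * d) * (2 * d * Real.exp (-(α * L))) ≤ s := by
  have hr : |Real.exp (-α)| < 1 := by
    rw [abs_of_pos (Real.exp_pos _), Real.exp_lt_one_iff]; linarith
  have ht := tendsto_pow_const_mul_const_pow_of_abs_lt_one (3 * d) hr
  have ht2 := ht.const_mul ((5:ℝ) ^ (3 * d) * (2 * d))
  rw [mul_zero] at ht2
  obtain ⟨L, hL1, hL2⟩ := ((ht2.eventually_le_const hs).and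
    (Filter.eventually_ge_atTop 1)).exists
  refine ⟨L, le_trans ?_ hL1⟩
  have e1 : Real.exp (-(α * L)) = Real.exp (-α) ^ L := by
    rw [← Real.exp_nat_mul]; congr 1; ring
  rw [e1]
  have e2 : ((2 * L + 3 : ℕ) : ℝ) ^ (3 * d) ≤ (5:ℝ) ^ (3 * d) * (L:ℝ) ^ (3 * d) := by
    rw [← mul_pow]
    refine pow_le_pow_left₀ (by positivity) ?_ _
    have : (1:ℝ) ≤ L := by exact_mod_cast hL2
    push_cast; linarith
  have e3 : (0:ℝ) ≤ 2 * d * Real.exp (-α) ^ L := by positivity
  calc ((2 * L + 3 : ℕ) : ℝ) ^ (3 * d) * (2 * d * Real.exp (-α) ^ L)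
      ≤ ((5:ℝ) ^ (3 * d) * (L:ℝ) ^ (3 * d)) * (2 * d * Real.exp (-α) ^ L) :=
        mul_le_mul_of_nonneg_right e2 e3
    _ = (5:ℝ) ^ (3 * d) * (2 * d) * ((L:ℝ) ^ (3 * d) * Real.exp (-α) ^ L) := by ring

/-- A10 -/
theorem eig : StmtEig := by
  intro d hd a b E0 h1 h2 hab
  have hd' : (0:ℝ) < d := by exact_mod_cast hd
  -- the range for `2 cos θ`
  obtain ⟨m, p, hu, hv⟩ := eig_theta (2 - (E0 - a) / d) (2 - (E0 - b) / d)
    (by
      have : (E0 - b) / d < (E0 - a) / d := div_lt_div_of_pos_right (by linarith) hd'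
      linarith)
    (by
      have : 0 < (E0 - a) / d := div_pos (by linarith) hd'
      linarith)
    (by
      have : (E0 - b) / d < 4 := by rw [div_lt_iff₀ hd']; linarith
      linarith)
  set c := 2 * Real.cos (Real.pi * p / (2 * m + 1)) with hc
  have hu' : d * (2 - c) < E0 - a := by
    have : 2 - c < (E0 - a) / d := by linarith
    rw [lt_div_iff₀ hd'] at this; linarith
  have hv' : E0 - b < d * (2 - c) := by
    have : (E0 - b) / d < 2 - c := by linarith
    rw [div_lt_iff₀ hd'] at this; linarith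
  obtain ⟨δ, hδ, hδ1, hδ2⟩ : ∃ δ : ℝ, 0 < δ ∧ d * (2 - c) + 2 * δ ≤ E0 - a ∧
      E0 - b ≤ d * (2 - c) - 2 * δ := by
    refine ⟨min ((E0 - a - d * (2 - c)) / 2) ((d * (2 - c) - (E0 - b)) / 2),
      lt_min (by linarith) (by linarith), ?_, ?_⟩
    · linarith [min_le_left ((E0 - a - d * (2 - c)) / 2) ((d * (2 - c) - (E0 - b)) / 2)]
    · linarith [min_le_right ((E0 - a - d * (2 - c)) / 2) ((d * (2 - c) - (E0 - b)) / 2)]
  -- the choice of `α`
  obtain ⟨α, hα, hαδ⟩ : ∃ α : ℝ, 0 < α ∧ d * (2 * (2 * m + 1) * (Real.exp α - 1)) ≤ δ := by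
    refine ⟨Real.log (1 + δ / (d * (2 * (2 * m + 1)))), Real.log_pos ?_, ?_⟩
    · have : 0 < δ / (d * (2 * (2 * m + 1))) := by positivity
      linarith
    · rw [Real.exp_log (by positivity)]
      have : (0:ℝ) < d * (2 * (2 * m + 1)) := by positivity
      field_simp
      linarith
  obtain ⟨A, hA, hAs⟩ := eig_sum_P α hα d
  refine ⟨δ, A, hδ, hA, fun s hs => ?_⟩
  obtain ⟨L, hL⟩ := eig_choose α s hα hs d
  refine ⟨ball d (L + 1), fun x => if n1 x ≤ L then eig_P m p α x else 0, eig_V m p α E0,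
    ((2 * L + 3 : ℕ) : ℝ) ^ d * (2 * d * Real.exp (-(α * L))), zero_mem_ball _, ?_, ?_, ?_, ?_, ?_,
    by positivity, ?_, ?_, ?_⟩
  · simp only [n1_zero, Nat.zero_le, if_true]
    exact eig_P_zero m p α
  · intro x hx
    rw [mem_ball, not_le] at hx
    exact if_neg (by omega)
  · intro x hx
    rw [mem_ball, not_le] at hx
    refine Finset.sum_eq_zero fun i _ => ?_
    have g1 : L < n1 (x + ee d i) := by
      have h := n1_add (x + ee d i) (-(ee d i))
      rw [n1_neg, n1_ee, add_neg_cancel_right] at h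
      omega
    have g2 : L < n1 (x - ee d i) := by
      have h := n1_add (x - ee d i) (ee d i)
      rw [n1_ee, sub_add_cancel] at h
      omega
    simp only
    rw [if_neg (by omega), if_neg (by omega), if_neg (by omega)]
    ring
  · intro x
    have hb : |∑ i, (2 - (eig_f m p α (x i + 1) + eig_f m p α (x i - 1)) / eig_f m p α (x i))
        - d * (2 - c)| ≤ δ := by
      have e : ∑ i : Fin d, (2 - (eig_f m p α (x i + 1) + eig_f m p α (x i - 1)) / eig_f m p α (x i))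
          - d * (2 - c) = ∑ i : Fin d, (c - (eig_f m p α (x i + 1) + eig_f m p α (x i - 1))
            / eig_f m p α (x i)) := by
        have e1 : (d : ℝ) * (2 - c) = ∑ _i : Fin d, (2 - c) := by
          rw [Finset.sum_const, Finset.card_univ, Fintype.card_fin, nsmul_eq_mul]
        rw [e1, ← Finset.sum_sub_distrib]
        exact Finset.sum_congr rfl fun i _ => by ring
      rw [e]
      have hle : ∀ i ∈ (Finset.univ : Finset (Fin d)),
          |c - (eig_f m p α (x i + 1) + eig_f m p α (x i - 1)) / eig_f m p α (x i)|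
            ≤ 2 * (2 * m + 1) * (Real.exp α - 1) := by
        intro i _
        rw [abs_sub_comm]
        exact eig_f_rec m p α hα.le (x i)
      refine (Finset.abs_sum_le_sum_abs _ _).trans ((Finset.sum_le_sum hle).trans
        (le_trans (le_of_eq ?_) hαδ))
      rw [Finset.sum_const, Finset.card_univ, Fintype.card_fin, nsmul_eq_mul]
    unfold eig_V
    rw [abs_le] at hb
    constructor <;> linarith [hb.1, hb.2]
  · refine le_trans (Finset.sum_le_sum fun x _ => ?_) (hAs (L + 1))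
    simp only
    by_cases hx : n1 x ≤ L
    · rw [if_pos hx]; exact eig_P_abs_le m p α x
    · rw [if_neg hx, abs_zero]; exact (Real.exp_pos _).le
  · refine le_trans ?_ hL
    refine mul_le_mul_of_nonneg_right ?_ (by positivity)
    refine pow_le_pow_right₀ ?_ (by omega)
    have hL0 : (0:ℝ) ≤ (L:ℝ) := Nat.cast_nonneg L
    push_cast; linarith
  · refine le_trans ?_ hL
    have hcard : ((ball d (L + 1)).card : ℝ) ≤ ((2 * L + 3 : ℕ) : ℝ) ^ d := by
      have := card_ball_le d (L + 1)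
      rw [show 2 * (L + 1) + 1 = 2 * L + 3 by ring] at this
      exact_mod_cast this
    have e : ((2 * L + 3 : ℕ) : ℝ) ^ (3 * d)
        = (((2 * L + 3 : ℕ) : ℝ) ^ d) ^ 2 * ((2 * L + 3 : ℕ) : ℝ) ^ d := by ring
    have hc0 : (0:ℝ) ≤ ((ball d (L + 1)).card : ℝ) := Nat.cast_nonneg _
    have hc2 := pow_le_pow_left₀ hc0 hcard 2
    have hc3 : (0:ℝ) ≤ ((2 * L + 3 : ℕ) : ℝ) ^ d * (2 * d * Real.exp (-(α * L))) := by positivity
    calc ((ball d (L + 1)).card : ℝ) ^ 2 * (((2 * L + 3 : ℕ) : ℝ) ^ d * (2 * d * Real.exp (-(α * L))))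
        ≤ (((2 * L + 3 : ℕ) : ℝ) ^ d) ^ 2 *
            (((2 * L + 3 : ℕ) : ℝ) ^ d * (2 * d * Real.exp (-(α * L)))) :=
          mul_le_mul_of_nonneg_right hc2 hc3
      _ = ((2 * L + 3 : ℕ) : ℝ) ^ (3 * d) * (2 * d * Real.exp (-(α * L))) := by rw [e]; ring
  · have hcard : ((ball d (L + 1)).card : ℝ) ≤ ((2 * L + 3 : ℕ) : ℝ) ^ d := by
      have := card_ball_le d (L + 1)
      rw [show 2 * (L + 1) + 1 = 2 * L + 3 by ring] at this
      exact_mod_cast this
    refine (Finset.sum_le_sum fun x _ => eig_trunc d m p α E0 hα L x).trans ?_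
    rw [Finset.sum_const, nsmul_eq_mul]
    exact mul_le_mul_of_nonneg_right hcard (by positivity)

end Pool.SU
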