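import Mathlib
import Pool.Agent.SU.Defs
import Pool.Agent.SU.Base

/-!
# A6: estimate on the event of a bad pair (two site resampling)
-/

set_option autoImplicit false
set_option linter.unusedSectionVars false
set_option linter.unusedVariables false

open Complex MeasureTheory Filter Topology Set ContinuousLinearMap
open scoped InnerProductSpace ENNReal NNReal

namespace Pool.SU

open Pool.NB Pool.SB

variable {d : ℕ}

lemma estP_det {p q r : ℂ} {t κ R g : ℝ} (ht0 : 0 < t) (ht1 : t ≤ 1) (hκ : 0 < κ)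
    (hR : 2 / κ ≤ R) (hg : 1 ≤ κ * g) (h1 : R * t * ‖q‖ < ‖r‖) (h2 : κ * ‖p‖ ≤ ‖r‖ * t ^ 2)
    (h3 : κ * g ≤ ‖r‖ * t ^ 2) :
    1 ≤ ‖r‖ ∧ ‖p‖ ≤ ‖r‖ / κ ∧ p * q - r ^ 2 ≠ 0 ∧
      ‖q / (p * q - r ^ 2)‖ ≤ 1 / (R * t) * ‖r / (p * q - r ^ 2)‖ ∧
      ‖p / (p * q - r ^ 2)‖ ≤ t ^ 2 / κ * ‖r / (p * q - r ^ 2)‖ ∧
      ‖r‖ * ‖r / (p * q - r ^ 2)‖ ≤ 2 := by
  have hR0 : 0 < R := lt_of_lt_of_le (by positivity) hR
  have ht2 : t ^ 2 ≤ 1 := pow_le_one₀ ht0.le ht1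
  have hr0 : 0 ≤ ‖r‖ := norm_nonneg _
  have hr1 : 1 ≤ ‖r‖ := by
    have : ‖r‖ * t ^ 2 ≤ ‖r‖ * 1 := mul_le_mul_of_nonneg_left ht2 hr0
    linarith
  have hrpos : 0 < ‖r‖ := lt_of_lt_of_le one_pos hr1
  have hp : ‖p‖ ≤ ‖r‖ * t ^ 2 / κ := by
    rw [le_div_iff₀ hκ]; linarith
  have hp1 : ‖p‖ ≤ ‖r‖ / κ := by
    refine hp.trans ?_
    apply div_le_div_of_nonneg_right _ hκ.le
    have : ‖r‖ * t ^ 2 ≤ ‖r‖ * 1 := mul_le_mul_of_nonneg_left ht2 hr0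
    linarith
  have hq : ‖q‖ ≤ ‖r‖ / (R * t) := by
    rw [le_div_iff₀ (by positivity)]; linarith
  have hpq : ‖p * q‖ ≤ ‖r‖ ^ 2 / 2 := by
    rw [norm_mul]
    have e1 : ‖p‖ * ‖q‖ ≤ (‖r‖ * t ^ 2 / κ) * (‖r‖ / (R * t)) :=
      mul_le_mul hp hq (norm_nonneg _) (by positivity)
    have e2 : (‖r‖ * t ^ 2 / κ) * (‖r‖ / (R * t)) = ‖r‖ ^ 2 * (t / (κ * R)) := by
      field_simp
    have e3 : t / (κ * R) ≤ 1 / 2 := by
      rw [div_le_iff₀ (by positivity)]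
      rw [div_le_iff₀ hκ] at hR
      nlinarith
    have e4 : ‖r‖ ^ 2 * (t / (κ * R)) ≤ ‖r‖ ^ 2 * (1 / 2) :=
      mul_le_mul_of_nonneg_left e3 (by positivity)
    linarith
  have hD : ‖r‖ ^ 2 / 2 ≤ ‖p * q - r ^ 2‖ := by
    have e1 : ‖r ^ 2‖ - ‖p * q‖ ≤ ‖p * q - r ^ 2‖ := by
      have := norm_sub_norm_le (r ^ 2) (p * q)
      rwa [norm_sub_rev] at this
    rw [norm_pow] at e1
    linarith
  have hDpos : 0 < ‖p * q - r ^ 2‖ := lt_of_lt_of_le (by positivity) hD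
  refine ⟨hr1, hp1, norm_pos_iff.mp hDpos, ?_, ?_, ?_⟩
  · rw [norm_div, norm_div, ← mul_div_assoc]
    apply div_le_div_of_nonneg_right _ hDpos.le
    rw [one_div, inv_mul_eq_div]; exact hq
  · rw [norm_div, norm_div, ← mul_div_assoc]
    apply div_le_div_of_nonneg_right _ hDpos.le
    calc ‖p‖ ≤ ‖r‖ * t ^ 2 / κ := hp
      _ = t ^ 2 / κ * ‖r‖ := by ring
  · rw [norm_div, ← mul_div_assoc, div_le_iff₀ hDpos]
    nlinarith

lemma estP_spl_spl (S : Finset (ZZ d)) (W' W1 W : ZZ d → ℝ) :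
    spl S W' (spl S W1 W) = spl S W' W := by
  funext y
  unfold spl
  by_cases h : y ∈ S <;> simp [h]

lemma estP_spl_Om {a b : ℝ} {S : Finset (ZZ d)} {W' W : ZZ d → ℝ} (h' : W' ∈ Om d a b)
    (h : W ∈ Om d a b) : spl S W' W ∈ Om d a b := by
  intro y
  unfold spl
  by_cases hy : y ∈ S
  · rw [if_pos hy]; exact h' y
  · rw [if_neg hy]; exact h y

theorem estP : StmtEstP := by
  intro μ _ a b c C hμ d κ hκ hκ1
  have hC := hμ.C_pos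
  have hab := hμ.ab
  set M : ℝ := 1 + (b - a) / κ with hM
  have hMpos : 0 < M := by
    have : 0 < (b - a) / κ := div_pos (by linarith) hκ
    linarith
  refine ⟨32 * M ^ 2 * C ^ 2 / κ, by positivity, ?_⟩
  intro X τ R g E ε hτ0 hτ1 hR hg hε hε1 x hx
  have hRpos : 0 < R := lt_of_lt_of_le (by positivity) hR
  obtain ⟨t, ht⟩ : ∃ t : ℝ, t = τ ^ n1 x := ⟨_, rfl⟩
  have ht0 : 0 < t := by rw [ht]; positivity
  have ht1 : t ≤ 1 := by rw [ht]; exact pow_le_one₀ hτ0.le hτ1.le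
  have hpow : τ ^ (2 * n1 x) = t ^ 2 := by rw [ht, ← pow_mul, mul_comm]
  rw [← ht]
  have h0S : (0 : ZZ d) ∈ ({0, x} : Finset (ZZ d)) := by simp
  have hxS : x ∈ ({0, x} : Finset (ZZ d)) := by simp
  have hmeas0 : Measurable (fun W : ZZ d → ℝ => pv X E ε W 0) := pv_meas X E hε 0
  have hmeasx : Measurable (fun W : ZZ d → ℝ => pv X E ε W x) := pv_meas X E hε x
  have hloss := loss hμ ({0, x} : Finset (ZZ d)) (F := fun W => pv X E ε W 0)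
    (Φ := fun W => pv X E ε W 0 + pv X E ε W x) hmeas0 (hmeas0.add hmeasx)
    (A := evP E ε τ κ R g x) (evP_meas E hε τ κ R g x)
    (ENNReal.ofReal (32 * M ^ 2 * C ^ 2 / κ * t / R)) ?_
  · rw [lintegral_add_left hmeas0] at hloss
    exact hloss
  intro W hW
  obtain ⟨γ, hγ⟩ : ∃ γ : ℂ, γ = GF E ε W 0 x / DT E ε W 0 x := ⟨_, rfl⟩
  obtain ⟨α, hα⟩ : ∃ α : ℂ, α = (W 0 : ℂ) - GF E ε W x x / DT E ε W 0 x := ⟨_, rfl⟩
  obtain ⟨α', hα'⟩ : ∃ α' : ℂ, α' = (W x : ℂ) - GF E ε W 0 0 / DT E ε W 0 x := ⟨_, rfl⟩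
  -- the facts on the event
  have key : ∀ W1 : ZZ d → ℝ, spl ({0, x} : Finset (ZZ d)) W1 W ∈ evP E ε τ κ R g x →
      1 ≤ ‖GF E ε (spl ({0, x} : Finset (ZZ d)) W1 W) 0 x‖ ∧
      ‖GF E ε (spl ({0, x} : Finset (ZZ d)) W1 W) 0 0‖
        ≤ ‖GF E ε (spl ({0, x} : Finset (ZZ d)) W1 W) 0 x‖ / κ ∧
      ‖(W1 0 : ℂ) - α‖ ≤ 1 / (R * t) * ‖γ‖ ∧
      ‖(W1 x : ℂ) - α'‖ ≤ t ^ 2 / κ * ‖γ‖ ∧
      ‖GF E ε (spl ({0, x} : Finset (ZZ d)) W1 W) 0 x‖ * ‖γ‖ ≤ 2 ∧ 0 < ‖γ‖ := by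
    intro W1 hev
    set W2 := spl ({0, x} : Finset (ZZ d)) W1 W with hW2
    obtain ⟨e1, e2, e3⟩ := hev
    rw [← ht] at e1
    rw [hpow] at e2 e3
    obtain ⟨f1, f2, f3, f4, f5, f6⟩ := estP_det (p := GF E ε W2 0 0) (q := GF E ε W2 x x)
      (r := GF E ε W2 0 x) ht0 ht1 hκ hR hg e1 e2 e3
    have hout : ∀ z, z ≠ 0 → z ≠ x → W2 z = W z := by
      intro z hz0 hzx
      rw [hW2]; unfold spl
      rw [if_neg (by simp [hz0, hzx])]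
    have hW20 : W2 0 = W1 0 := by rw [hW2]; unfold spl; rw [if_pos h0S]
    have hW2x : W2 x = W1 x := by rw [hW2]; unfold spl; rw [if_pos hxS]
    have g1 : (W1 0 : ℂ) - α = GF E ε W2 x x / DT E ε W2 0 x := by
      have := two_diag (E := E) hε W2 W (x := 0) (y := x) (Ne.symm hx) (fun z h1 h2 => hout z h1 h2)
      rw [hW20] at this
      rw [hα, ← this]; ring
    have g2 : (W1 x : ℂ) - α' = GF E ε W2 0 0 / DT E ε W2 0 x := by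
      have := two_diag (E := E) hε W2 W (x := x) (y := 0) hx (fun z h1 h2 => hout z h2 h1)
      rw [hW2x, DT_symm hε W2 x 0, DT_symm hε W x 0] at this
      rw [hα', ← this]; ring
    have g3 : γ = GF E ε W2 0 x / DT E ε W2 0 x := by
      rw [hγ]
      exact (two_off (E := E) hε W2 W (x := 0) (y := x) (Ne.symm hx) (fun z h1 h2 => hout z h1 h2)).symm
    have hDT : DT E ε W2 0 x = GF E ε W2 0 0 * GF E ε W2 x x - GF E ε W2 0 x ^ 2 := rfl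
    rw [← hDT] at f3 f4 f5 f6
    rw [← g1, ← g3] at f4
    rw [← g2, ← g3] at f5
    rw [← g3] at f6
    refine ⟨f1, f2, f4, f5, f6, ?_⟩
    rw [g3, norm_div]
    exact div_pos (lt_of_lt_of_le one_pos f1) (norm_pos_iff.mpr f3)
  by_cases hγ0 : ‖γ‖ = 0
  · refine ⟨0, fun W1 _ W' _ hev => ?_, by simp⟩
    have := (key W1 hev).2.2.2.2.2
    exact absurd hγ0 this.ne'
  have hγpos : 0 < ‖γ‖ := lt_of_le_of_ne (norm_nonneg _) (Ne.symm hγ0)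
  refine ⟨ENNReal.ofReal (8 * M ^ 2 / ‖γ‖ ^ 2), ?_, ?_⟩
  · intro W1 hW1 W' hW' hev
    obtain ⟨k1, k2, _, _, k5, _⟩ := key W1 hev
    set W2 := spl ({0, x} : Finset (ZZ d)) W1 W with hW2
    have hW2Om : W2 ∈ Om d a b := estP_spl_Om hW1 hW
    have hVV := VV_spl X hε ({0, x} : Finset (ZZ d)) W' W2 0 (E := E)
    rw [hW2, estP_spl_spl, ← hW2] at hVV
    set W3 := spl ({0, x} : Finset (ZZ d)) W' W with hW3
    rw [Finset.sum_pair (Ne.symm hx)] at hVV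
    have hdiff : ∀ q, ‖((W' q - W2 q : ℝ) : ℂ)‖ ≤ b - a := by
      intro q
      rw [Complex.norm_real, Real.norm_eq_abs, abs_le]
      have u1 := hW' q
      have u2 := hW2Om q
      constructor <;> linarith [u1.1, u1.2, u2.1, u2.2]
    obtain ⟨G, hG⟩ : ∃ G : ℝ, G = ‖GF E ε W2 0 x‖ := ⟨_, rfl⟩
    rw [← hG] at k1 k2 k5
    have hGx : ‖GF E ε W2 x 0‖ = G := by rw [GF_symm hε W2 x 0, hG]
    have hn : ‖VV X E ε W2 0‖ ≤ M * G * (‖VV X E ε W3 0‖ + ‖VV X E ε W3 x‖) := by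
      rw [hVV]
      refine (norm_add_le _ _).trans ?_
      refine (add_le_add_right (norm_add_le _ _) _).trans ?_
      rw [norm_smul, norm_smul, norm_mul, norm_mul, hGx]
      have v0 : 0 ≤ ‖VV X E ε W3 0‖ := norm_nonneg _
      have vx : 0 ≤ ‖VV X E ε W3 x‖ := norm_nonneg _
      have hG0 : 0 ≤ G := le_trans zero_le_one k1
      have hba : 0 ≤ b - a := by linarith
      have w1 : ‖((W' 0 - W2 0 : ℝ) : ℂ)‖ * ‖GF E ε W2 0 0‖ ≤ (b - a) * (G / κ) :=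
        mul_le_mul (hdiff 0) k2 (norm_nonneg _) hba
      have w2 : ‖((W' x - W2 x : ℝ) : ℂ)‖ * G ≤ (b - a) * G :=
        mul_le_mul_of_nonneg_right (hdiff x) hG0
      have w3 : (b - a) * G ≤ M * G := by
        refine mul_le_mul_of_nonneg_right ?_ hG0
        rw [hM]
        have : b - a ≤ (b - a) / κ := by
          rw [le_div_iff₀ hκ]; nlinarith
        linarith
      have w4 : 1 + (b - a) * (G / κ) ≤ M * G := by
        have : M * G = G + (b - a) * (G / κ) := by rw [hM]; ring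
        rw [this]; linarith
      have w5 : ‖((W' 0 - W2 0 : ℝ) : ℂ)‖ * ‖GF E ε W2 0 0‖ * ‖VV X E ε W3 0‖
          ≤ (b - a) * (G / κ) * ‖VV X E ε W3 0‖ := mul_le_mul_of_nonneg_right w1 v0
      have w6 : ‖((W' x - W2 x : ℝ) : ℂ)‖ * G * ‖VV X E ε W3 x‖ ≤ M * G * ‖VV X E ε W3 x‖ :=
        mul_le_mul_of_nonneg_right (w2.trans w3) vx
      have w7 : (1 + (b - a) * (G / κ)) * ‖VV X E ε W3 0‖ ≤ M * G * ‖VV X E ε W3 0‖ :=
        mul_le_mul_of_nonneg_right w4 v0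
      nlinarith
    have hsq : ‖VV X E ε W2 0‖ ^ 2
        ≤ 8 * M ^ 2 / ‖γ‖ ^ 2 * (‖VV X E ε W3 0‖ ^ 2 + ‖VV X E ε W3 x‖ ^ 2) := by
      have v0 : 0 ≤ ‖VV X E ε W3 0‖ := norm_nonneg _
      have vx : 0 ≤ ‖VV X E ε W3 x‖ := norm_nonneg _
      have hG0 : 0 ≤ G := le_trans zero_le_one k1
      have s1 : ‖VV X E ε W2 0‖ ^ 2 ≤ (M * G * (‖VV X E ε W3 0‖ + ‖VV X E ε W3 x‖)) ^ 2 :=
        pow_le_pow_left₀ (norm_nonneg _) hn 2
      have s2 : (‖VV X E ε W3 0‖ + ‖VV X E ε W3 x‖) ^ 2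
          ≤ 2 * (‖VV X E ε W3 0‖ ^ 2 + ‖VV X E ε W3 x‖ ^ 2) := by
        nlinarith [sq_nonneg (‖VV X E ε W3 0‖ - ‖VV X E ε W3 x‖)]
      have s3 : G ^ 2 ≤ 4 / ‖γ‖ ^ 2 := by
        rw [le_div_iff₀ (by positivity), ← mul_pow]
        have : (G * ‖γ‖) ^ 2 ≤ 2 ^ 2 := pow_le_pow_left₀ (by positivity) k5 2
        linarith
      calc ‖VV X E ε W2 0‖ ^ 2 ≤ (M * G * (‖VV X E ε W3 0‖ + ‖VV X E ε W3 x‖)) ^ 2 := s1
        _ = M ^ 2 * G ^ 2 * (‖VV X E ε W3 0‖ + ‖VV X E ε W3 x‖) ^ 2 := by ring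
        _ ≤ M ^ 2 * (4 / ‖γ‖ ^ 2) * (2 * (‖VV X E ε W3 0‖ ^ 2 + ‖VV X E ε W3 x‖ ^ 2)) := by
            apply mul_le_mul _ s2 (by positivity) (by positivity)
            exact mul_le_mul_of_nonneg_left s3 (by positivity)
        _ = 8 * M ^ 2 / ‖γ‖ ^ 2 * (‖VV X E ε W3 0‖ ^ 2 + ‖VV X E ε W3 x‖ ^ 2) := by ring
    show pv X E ε W2 0 ≤ ENNReal.ofReal (8 * M ^ 2 / ‖γ‖ ^ 2) * (pv X E ε W3 0 + pv X E ε W3 x)
    unfold pv
    rw [← ENNReal.ofReal_add (by positivity) (by positivity), ← ENNReal.ofReal_mul (by positivity)]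
    exact ENNReal.ofReal_le_ofReal hsq
  · have hsub : {W1 : ZZ d → ℝ | W1 ∈ Om d a b ∧
        spl ({0, x} : Finset (ZZ d)) W1 W ∈ evP E ε τ κ R g x}
        ⊆ {W1 | ‖(W1 0 : ℂ) - α‖ ≤ 1 / (R * t) * ‖γ‖ ∧ ‖(W1 x : ℂ) - α'‖ ≤ t ^ 2 / κ * ‖γ‖} := by
      rintro W1 ⟨_, hev⟩
      obtain ⟨_, _, k3, k4, _, _⟩ := key W1 hev
      exact ⟨k3, k4⟩
    have hP : (PP (ZZ d) μ) {W1 : ZZ d → ℝ | W1 ∈ Om d a b ∧
        spl ({0, x} : Finset (ZZ d)) W1 W ∈ evP E ε τ κ R g x}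
        ≤ ENNReal.ofReal (2 * C * (1 / (R * t) * ‖γ‖)) *
          ENNReal.ofReal (2 * C * (t ^ 2 / κ * ‖γ‖)) :=
      (measure_mono hsub).trans (hμ.win2 (Ne.symm hx) α α' _ _)
    refine (mul_le_mul_right hP _).trans ?_
    rw [← ENNReal.ofReal_mul (by positivity), ← ENNReal.ofReal_mul (by positivity)]
    refine ENNReal.ofReal_le_ofReal (le_of_eq ?_)
    field_simp
    ring

end Pool.SU
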