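import Mathlib
import Pool.Agent.SU.Base

/-!
# A8 : the estimate on `evT` (three-site resampling)
-/

set_option autoImplicit false
set_option linter.unusedSectionVars false
set_option linter.unusedVariables false

open Complex MeasureTheory Filter Topology Set ContinuousLinearMap
open scoped InnerProductSpace ENNReal NNReal

namespace Pool.SU

open Pool.NB Pool.SB

variable {d : ℕ}

lemma estT_spl_spl (S : Finset (ZZ d)) (W' W1 W : ZZ d → ℝ) :
    spl S W' (spl S W1 W) = spl S W' W := by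
  funext x
  unfold spl
  by_cases hx : x ∈ S <;> simp [hx]

lemma estT_spl_om {a b : ℝ} (S : Finset (ZZ d)) {W' W : ZZ d → ℝ} (h' : W' ∈ Om d a b)
    (h : W ∈ Om d a b) : spl S W' W ∈ Om d a b := by
  intro x
  unfold spl
  by_cases hx : x ∈ S
  · simp only [hx, if_true]; exact h' x
  · simp only [hx, if_false]; exact h x

/-- norm bound for a sum of four vectors -/
lemma estT_four {v v0 v1 v2 v3 : ell (ZZ d)} {c1 c2 c3 : ℂ} {B : ℝ} (hB : 1 ≤ B)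
    (h1 : ‖c1‖ ≤ B) (h2 : ‖c2‖ ≤ B) (h3 : ‖c3‖ ≤ B)
    (h : v = v0 + (c1 • v1 + (c2 • v2 + c3 • v3))) :
    ‖v‖ ^ 2 ≤ 4 * B ^ 2 * (‖v0‖ ^ 2 + ‖v1‖ ^ 2 + ‖v2‖ ^ 2 + ‖v3‖ ^ 2) := by
  have e1 : ‖v‖ ≤ ‖v0‖ + (‖c1‖ * ‖v1‖ + (‖c2‖ * ‖v2‖ + ‖c3‖ * ‖v3‖)) := by
    rw [h]
    refine (norm_add_le _ _).trans (add_le_add_right ?_ _)
    refine (norm_add_le _ _).trans (add_le_add (norm_smul _ _).le ?_)
    refine (norm_add_le _ _).trans (add_le_add (norm_smul _ _).le (norm_smul _ _).le)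
  have e2 : ‖v‖ ≤ B * (‖v0‖ + ‖v1‖ + ‖v2‖ + ‖v3‖) := by
    refine e1.trans ?_
    have i0 : ‖v0‖ ≤ B * ‖v0‖ := le_mul_of_one_le_left (norm_nonneg _) hB
    have i1 : ‖c1‖ * ‖v1‖ ≤ B * ‖v1‖ := mul_le_mul_of_nonneg_right h1 (norm_nonneg _)
    have i2 : ‖c2‖ * ‖v2‖ ≤ B * ‖v2‖ := mul_le_mul_of_nonneg_right h2 (norm_nonneg _)
    have i3 : ‖c3‖ * ‖v3‖ ≤ B * ‖v3‖ := mul_le_mul_of_nonneg_right h3 (norm_nonneg _)
    nlinarith
  have e3 : ‖v‖ ^ 2 ≤ (B * (‖v0‖ + ‖v1‖ + ‖v2‖ + ‖v3‖)) ^ 2 :=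
    pow_le_pow_left₀ (norm_nonneg _) e2 2
  refine e3.trans ?_
  rw [mul_pow]
  have e4 : (‖v0‖ + ‖v1‖ + ‖v2‖ + ‖v3‖) ^ 2
      ≤ 4 * (‖v0‖ ^ 2 + ‖v1‖ ^ 2 + ‖v2‖ ^ 2 + ‖v3‖ ^ 2) := by
    nlinarith [sq_nonneg (‖v0‖ - ‖v1‖), sq_nonneg (‖v0‖ - ‖v2‖), sq_nonneg (‖v0‖ - ‖v3‖),
      sq_nonneg (‖v1‖ - ‖v2‖), sq_nonneg (‖v1‖ - ‖v3‖), sq_nonneg (‖v2‖ - ‖v3‖)]
  have e5 : 0 ≤ B ^ 2 := by positivity
  nlinarith [mul_le_mul_of_nonneg_left e4 e5]

/-- the two windows around the edges -/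
lemma estT_win {μ : Measure ℝ} [IsProbabilityMeasure μ] {a b c C : ℝ} (hμ : Uni μ a b c C)
    {ρ : ℝ} (hρ : 0 ≤ ρ) :
    μ {β : ℝ | |β - a| ≤ ρ ∨ |β - b| ≤ ρ} ≤ ENNReal.ofReal (4 * C * ρ) := by
  have hC := hμ.C_pos
  have h1 : {β : ℝ | |β - a| ≤ ρ ∨ |β - b| ≤ ρ}
      ⊆ {β : ℝ | ‖(β : ℂ) - (a : ℂ)‖ ≤ ρ} ∪ {β : ℝ | ‖(β : ℂ) - (b : ℂ)‖ ≤ ρ} := by
    intro β hβ
    have e : ∀ s : ℝ, ‖(β : ℂ) - (s : ℂ)‖ = |β - s| := by
      intro s
      rw [← Complex.ofReal_sub, Complex.norm_real, Real.norm_eq_abs]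
    rcases hβ with hβ | hβ
    · left; show ‖(β : ℂ) - (a : ℂ)‖ ≤ ρ; rw [e]; exact hβ
    · right; show ‖(β : ℂ) - (b : ℂ)‖ ≤ ρ; rw [e]; exact hβ
  refine (measure_mono h1).trans ((measure_union_le _ _).trans ?_)
  refine (add_le_add (hμ.win a ρ) (hμ.win b ρ)).trans ?_
  rw [← ENNReal.ofReal_add (by positivity) (by positivity)]
  exact ENNReal.ofReal_le_ofReal (by linarith)

/-- the distortion of the weight -/
lemma estT_weight {τ : ℝ} (h0 : 0 < τ) (h1 : τ < 1) {q x : ZZ d} (hx : n1 x ≤ n1 q + 4) {G B : ℝ}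
    (h : G * τ ^ (2 * n1 x) ≤ B) (hG : 0 ≤ G) : G ≤ B / τ ^ (2 * n1 q + 8) := by
  rw [le_div_iff₀ (by positivity)]
  refine le_trans (mul_le_mul_of_nonneg_left ?_ hG) h
  exact pow_le_pow_of_le_one h0.le h1.le (by omega)

theorem estT : StmtEstT := by
  intro μ _ a b c C hμ d κ τ hκ hκ1 hτ hτ1
  have hC := hμ.C_pos
  have hab := hμ.ab
  refine ⟨2048 * (1 + (b - a) ^ 2) * C ^ 3 / (τ ^ 16 * κ ^ 3), by positivity, ?_⟩
  intro X R g E ε hR hg hε hε1 q o ho o' ho' hone ho'ne hoo' n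
  have hR0 : 0 < R := by linarith
  have hg0 : 0 < g := by
    by_contra hh
    push Not at hh
    have : κ * g ≤ 0 := mul_nonpos_of_nonneg_of_nonpos hκ.le hh
    linarith
  have hg1 : 1 ≤ g := by nlinarith
  -- the three sites
  have hn0 : n1 q ≤ n1 q + 4 := by omega
  have hn1 : n1 (q + o) ≤ n1 q + 4 := (n1_add q o).trans (Nat.add_le_add_left (mem_ball.1 ho) _)
  have hn2 : n1 (q + o') ≤ n1 q + 4 := (n1_add q o').trans (Nat.add_le_add_left (mem_ball.1 ho') _)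
  have hq1 : q ≠ q + o := by
    intro h; exact hone (by simpa using h.symm)
  have hq2 : q ≠ q + o' := by
    intro h; exact ho'ne (by simpa using h.symm)
  have hq3 : q + o ≠ q + o' := by
    intro h; exact hoo' (add_left_cancel h)
  set S : Finset (ZZ d) := {q, q + o, q + o'} with hS
  have hsum : ∀ {M : Type} [AddCommMonoid M] (f : ZZ d → M),
      ∑ x ∈ S, f x = f q + (f (q + o) + f (q + o')) := by
    intro M _ f
    rw [hS, Finset.sum_insert (by simp [hone, ho'ne]),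
      Finset.sum_insert (by simpa using hoo'), Finset.sum_singleton]
  have hprod : ∀ (f : ZZ d → ℝ≥0∞), ∏ x ∈ S, f x = f q * (f (q + o) * f (q + o')) := by
    intro f
    rw [hS, Finset.prod_insert (by simp [hone, ho'ne]),
      Finset.prod_insert (by simpa using hoo'), Finset.prod_singleton]
  -- constants
  set G : ℝ := 2 ^ (n + 1) * g / τ ^ (2 * n1 q + 8) with hG
  set ρ : ℝ := R * τ ^ (3 * n1 q) / (κ * 2 ^ n * g) with hρ
  have hρ0 : 0 ≤ ρ := by positivity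
  have hG1 : 1 ≤ G := by
    rw [hG, le_div_iff₀ (by positivity), one_mul]
    have e1 : τ ^ (2 * n1 q + 8) ≤ 1 := pow_le_one₀ hτ.le hτ1.le
    have e2 : (1 : ℝ) ≤ 2 ^ (n + 1) := one_le_pow₀ (by norm_num)
    nlinarith
  set B : ℝ := (1 + (b - a)) * G with hB
  have hB1 : 1 ≤ B := by
    rw [hB]; nlinarith
  have hreal : 4 * B ^ 2 * ((4 * C * ρ) * ((4 * C * ρ) * (4 * C * ρ)))
      ≤ 2048 * (1 + (b - a) ^ 2) * C ^ 3 / (τ ^ 16 * κ ^ 3) * R ^ 3 * τ ^ (5 * n1 q)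
        / (2 ^ n * g) := by
    have e1 : B ^ 2 ≤ 2 * (1 + (b - a) ^ 2) * G ^ 2 := by
      rw [hB, mul_pow]
      refine mul_le_mul_of_nonneg_right ?_ (sq_nonneg _)
      nlinarith [sq_nonneg (1 - (b - a))]
    have e2 : 0 ≤ (4 * C * ρ) * ((4 * C * ρ) * (4 * C * ρ)) := by positivity
    have e3 : 4 * B ^ 2 * ((4 * C * ρ) * ((4 * C * ρ) * (4 * C * ρ)))
        ≤ 4 * (2 * (1 + (b - a) ^ 2) * G ^ 2) * ((4 * C * ρ) * ((4 * C * ρ) * (4 * C * ρ))) :=
      mul_le_mul_of_nonneg_right (by linarith) e2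
    refine e3.trans (le_of_eq ?_)
    rw [hG, hρ]
    have t1 : τ ^ (2 * n1 q + 8) = (τ ^ n1 q) ^ 2 * τ ^ 8 := by
      rw [pow_add, mul_comm 2 (n1 q), pow_mul]
    have t2 : τ ^ (3 * n1 q) = (τ ^ n1 q) ^ 3 := by rw [mul_comm 3 (n1 q), pow_mul]
    have t3 : τ ^ (5 * n1 q) = (τ ^ n1 q) ^ 5 := by rw [mul_comm 5 (n1 q), pow_mul]
    have t4 : (2 : ℝ) ^ (n + 1) = 2 * 2 ^ n := by rw [pow_succ, mul_comm]
    rw [t1, t2, t3, t4]
    have hT : (τ ^ n1 q) ≠ 0 := by positivity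
    have hP : (2 : ℝ) ^ n ≠ 0 := by positivity
    generalize (τ ^ n1 q) = T at hT ⊢
    generalize (2 : ℝ) ^ n = P at hP ⊢
    field_simp
    ring
  have key := loss hμ S (F := fun W => pv X E ε W 0)
    (Φ := fun W => pv X E ε W 0 + pv X E ε W q + pv X E ε W (q + o) + pv X E ε W (q + o'))
    (pv_meas X E hε 0)
    ((((pv_meas X E hε 0).add (pv_meas X E hε q)).add (pv_meas X E hε (q + o))).add
      (pv_meas X E hε (q + o')))
    (evT_meas E hε τ κ R g a b q o o' n)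
    (ENNReal.ofReal (2048 * (1 + (b - a) ^ 2) * C ^ 3 / (τ ^ 16 * κ ^ 3) * R ^ 3 *
      τ ^ (5 * n1 q) / (2 ^ n * g)))
    ?_
  · rw [lintegral_add_right _ (pv_meas X E hε (q + o')),
      lintegral_add_right _ (pv_meas X E hε (q + o)),
      lintegral_add_right _ (pv_meas X E hε q)] at key
    exact key
  intro W hW
  refine ⟨ENNReal.ofReal (4 * B ^ 2), ?_, ?_⟩
  · intro W1 hW1 W' hW' hA
    have hOm : spl S W1 W ∈ Om d a b := estT_spl_om S hW1 hW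
    have hspl := VV_spl X (E := E) hε S W' (spl S W1 W) 0
    rw [estT_spl_spl, hsum] at hspl
    obtain ⟨hA1, hA2, -⟩ := hA
    have hco : ∀ s : ZZ d, n1 s ≤ n1 q + 4 →
        ‖((W' s - (spl S W1 W) s : ℝ) : ℂ) * GF E ε (spl S W1 W) s 0‖ ≤ B := by
      intro s hs
      have u1 : |W' s - (spl S W1 W) s| ≤ b - a := by
        have v1 := hW' s
        have v2 := hOm s
        rw [abs_le]; constructor <;> linarith
      have u2 : ‖GF E ε (spl S W1 W) s 0‖ ≤ G := by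
        rw [GF_symm hε]
        exact estT_weight hτ hτ1 hs ((hA2 s).trans hA1) (norm_nonneg _)
      rw [norm_mul, Complex.norm_real, Real.norm_eq_abs]
      calc |W' s - (spl S W1 W) s| * ‖GF E ε (spl S W1 W) s 0‖ ≤ (b - a) * G :=
            mul_le_mul u1 u2 (norm_nonneg _) (by linarith)
        _ ≤ B := by rw [hB]; nlinarith
    have h4 := estT_four hB1 (hco q hn0) (hco (q + o) hn1) (hco (q + o') hn2) hspl
    show ENNReal.ofReal (‖VV X E ε (spl S W1 W) 0‖ ^ 2) ≤ ENNReal.ofReal (4 * B ^ 2) *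
      (ENNReal.ofReal (‖VV X E ε (spl S W' W) 0‖ ^ 2) + ENNReal.ofReal (‖VV X E ε (spl S W' W) q‖ ^ 2)
        + ENNReal.ofReal (‖VV X E ε (spl S W' W) (q + o)‖ ^ 2)
        + ENNReal.ofReal (‖VV X E ε (spl S W' W) (q + o')‖ ^ 2))
    rw [← ENNReal.ofReal_add (by positivity) (by positivity),
      ← ENNReal.ofReal_add (by positivity) (by positivity),
      ← ENNReal.ofReal_add (by positivity) (by positivity),
      ← ENNReal.ofReal_mul (by positivity)]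
    exact ENNReal.ofReal_le_ofReal h4
  · have hsub : {W1 : ZZ d → ℝ | W1 ∈ Om d a b ∧ spl S W1 W ∈ evT E ε τ κ R g a b q o o' n}
        ⊆ {W1 : ZZ d → ℝ | ∀ x ∈ S, W1 x ∈ {β : ℝ | |β - a| ≤ ρ ∨ |β - b| ≤ ρ}} := by
      rintro W1 ⟨-, -, -, hA3⟩ x hx
      have hx' : x = q ∨ x = q + o ∨ x = q + o' := by
        rw [hS] at hx
        simpa using hx
      have h5 := hA3 x hx'
      have h6 : (spl S W1 W) x = W1 x := by
        unfold spl; rw [if_pos hx]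
      rw [h6] at h5
      exact h5
    have hcyl := PP_cyl μ S (fun _ => {β : ℝ | |β - a| ≤ ρ ∨ |β - b| ≤ ρ}) (by
      intro x _
      refine MeasurableSet.union ?_ ?_
      · exact measurableSet_le (f := fun β : ℝ => |β - a|)
          (continuous_abs.comp (continuous_id.sub continuous_const)).measurable measurable_const
      · exact measurableSet_le (f := fun β : ℝ => |β - b|)
          (continuous_abs.comp (continuous_id.sub continuous_const)).measurable measurable_const)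
    rw [hprod] at hcyl
    have hw := estT_win hμ hρ0
    have h7 : (PP (ZZ d) μ) {W1 : ZZ d → ℝ | W1 ∈ Om d a b ∧
        spl S W1 W ∈ evT E ε τ κ R g a b q o o' n}
        ≤ ENNReal.ofReal (4 * C * ρ) * (ENNReal.ofReal (4 * C * ρ) * ENNReal.ofReal (4 * C * ρ)) := by
      refine (measure_mono hsub).trans ?_
      rw [hcyl]
      exact mul_le_mul' hw (mul_le_mul' hw hw)
    refine (mul_le_mul' le_rfl h7).trans ?_
    rw [← ENNReal.ofReal_mul (by positivity), ← ENNReal.ofReal_mul (by positivity),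
      ← ENNReal.ofReal_mul (by positivity)]
    exact ENNReal.ofReal_le_ofReal hreal

end Pool.SU
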