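import Mathlib
import Pool.Agent.SU.Base

/-!
# A11: good resonance position with positive conditional probability
-/

set_option autoImplicit false
set_option linter.unusedSectionVars false
set_option linter.unusedSimpArgs false

open Complex MeasureTheory Filter Topology Set ContinuousLinearMap
open scoped InnerProductSpace ENNReal NNReal

namespace Pool.SU

open Pool.NB Pool.SB

variable {d : ℕ}

lemma good_hs {f g : ZZ d → ℂ} {a : ℂ} (h : HasSum g a) (hfg : ∀ x, f x = g x) :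
    HasSum f a := by
  rw [show f = g from funext hfg]
  exact h

/-- the resolvent applied to `(H - z) ψ` for a finitely supported `ψ` -/
lemma good_res {E ε : ℝ} (hε : 0 < ε) (W : ZZ d → ℝ) (Λ : Finset (ZZ d)) (ψ : ZZ d → ℝ)
    (h : ZZ d → ℂ) (hψ : ∀ x ∉ Λ, ψ x = 0) (hh : ∀ x ∉ Λ, h x = 0)
    (hdef : ∀ x, h x = ((W x : ℂ) + 2 * d - zp E ε) * ψ x
      - ∑ i, ((ψ (x + ee d i) : ℂ) + ψ (x - ee d i)))
    (y : ZZ d) : ∑ x ∈ Λ, GF E ε W y x * h x = ψ y := by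
  have hfin : ∀ c : ZZ d → ℂ, Summable (fun x => c x * (ψ x : ℂ)) := by
    intro c
    apply summable_of_ne_finset_zero (s := Λ)
    intro x hx
    rw [hψ x hx, Complex.ofReal_zero, mul_zero]
  have h1 := (hfin (fun x => GF E ε W y x * ((W x : ℂ) + 2 * d - zp E ε))).hasSum
  have h2 : ∀ i, HasSum (fun x => GF E ε W y x * (ψ (x + ee d i) : ℂ))
      (∑' x, GF E ε W y (x - ee d i) * (ψ x : ℂ)) := by
    intro i
    have := (Equiv.addRight (ee d i)).hasSum_iff.2 (hfin (fun x => GF E ε W y (x - ee d i))).hasSum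
    convert this using 1
    funext x
    simp
  have h3 : ∀ i, HasSum (fun x => GF E ε W y x * (ψ (x - ee d i) : ℂ))
      (∑' x, GF E ε W y (x + ee d i) * (ψ x : ℂ)) := by
    intro i
    have := (Equiv.subRight (ee d i)).hasSum_iff.2 (hfin (fun x => GF E ε W y (x + ee d i))).hasSum
    convert this using 1
    funext x
    simp
  have h4 : HasSum (fun x => GF E ε W y x * h x)
      ((∑' x, GF E ε W y x * ((W x : ℂ) + 2 * d - zp E ε) * (ψ x : ℂ))
        - ∑ i, ((∑' x, GF E ε W y (x - ee d i) * (ψ x : ℂ))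
          + ∑' x, GF E ε W y (x + ee d i) * (ψ x : ℂ))) := by
    have := h1.sub (hasSum_sum (s := Finset.univ) fun i _ => (h2 i).add (h3 i))
    refine good_hs this fun x => ?_
    rw [hdef, mul_sub, Finset.mul_sum, ← mul_assoc]
    simp_rw [mul_add]
  have h5 : HasSum (fun x => if x = y then (ψ y : ℂ) else 0)
      ((∑' x, GF E ε W y x * ((W x : ℂ) + 2 * d - zp E ε) * (ψ x : ℂ))
        - ∑ i, ((∑' x, GF E ε W y (x - ee d i) * (ψ x : ℂ))
          + ∑' x, GF E ε W y (x + ee d i) * (ψ x : ℂ))) := by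
    have := h1.sub (hasSum_sum (s := Finset.univ) fun i _ =>
      ((hfin (fun x => GF E ε W y (x - ee d i))).hasSum).add
        ((hfin (fun x => GF E ε W y (x + ee d i))).hasSum))
    refine good_hs this fun x => ?_
    have e := GF_eqn (E := E) hε W x y
    have e2 : ∀ z, GF E ε W z y = GF E ε W y z := fun z => GF_symm (E := E) hε W z y
    simp_rw [e2] at e
    have e3 : GF E ε W y x * ((W x : ℂ) + 2 * d - zp E ε) * (ψ x : ℂ)
        - ∑ i, (GF E ε W y (x - ee d i) * (ψ x : ℂ) + GF E ε W y (x + ee d i) * (ψ x : ℂ))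
        = (((W x : ℂ) + 2 * d - zp E ε) * GF E ε W y x
          - ∑ i, (GF E ε W y (x + ee d i) + GF E ε W y (x - ee d i))) * ψ x := by
      rw [sub_mul, Finset.sum_mul]
      congr 1
      · ring
      · apply Finset.sum_congr rfl
        intro i _
        ring
    rw [e3, e]
    split_ifs with hxy
    · rw [hxy]; simp
    · simp
  have h6 : HasSum (fun x => if x = y then (ψ y : ℂ) else 0) (ψ y : ℂ) := hasSum_ite_eq y _
  have h7 : HasSum (fun x => GF E ε W y x * h x) (∑ x ∈ Λ, GF E ε W y x * h x) :=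
    hasSum_sum_of_ne_finset_zero (fun x hx => by rw [hh x hx, mul_zero])
  exact (h7.unique h4).trans (h5.unique h6)

/-- deterministic part -/
lemma good_det {a b E E0 ε δ0 A t g3 κ : ℝ} (hε : 0 < ε) (hδ : 0 < δ0) (hκ : κ = δ0 / 2)
    (Λ : Finset (ZZ d)) (ψ Ws W : ZZ d → ℝ) (h0 : (0 : ZZ d) ∈ Λ) (hψ0 : ψ 0 = 1)
    (hψ : ∀ x ∉ Λ, ψ x = 0)
    (hψ2 : ∀ x ∉ Λ, ∑ i, (2 * ψ x - ψ (x + ee d i) - ψ (x - ee d i)) = 0)
    (hWs : ∀ x, a + δ0 ≤ Ws x ∧ Ws x ≤ b - δ0) (hA : ∑ x ∈ Λ, |ψ x| ≤ A)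
    (ht : t ≤ δ0 / 2)
    (hsum : ∑ x ∈ Λ, |∑ i, (2 * ψ x - ψ (x + ee d i) - ψ (x - ee d i)) + (Ws x - E0) * ψ x| ≤ t)
    (hE : |E - E0| ≤ t) (hεt : ε ≤ t)
    (hW : ∀ x ∈ Λ, |W x - (Ws x + if x = 0 then κ else 0)| ≤ t)
    (hg0 : 0 ≤ g3) (hg : ∀ x ∈ Λ, ∀ y ∈ Λ, ‖GF E ε W x y‖ ≤ g3)
    (hnum : t * (1 + 3 * A) * (A + g3 * (t * (1 + 3 * A))) ≤ κ * (1 / 4)) :
    wv E ε W 0 ∈ Gd a b (|a| + |b| + 1) := by
  have hκ0 : 0 < κ := by rw [hκ]; positivity
  have ht0 : 0 < t := hε.trans_le hεt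
  have hA0 : 0 ≤ A := (Finset.sum_nonneg fun x _ => abs_nonneg (ψ x)).trans hA
  set h : ZZ d → ℂ := fun x => ((W x : ℂ) + 2 * d - zp E ε) * ψ x
      - ∑ i, ((ψ (x + ee d i) : ℂ) + ψ (x - ee d i)) with hh
  set φ : ZZ d → ℂ := fun x => h x - if x = 0 then (κ : ℂ) else 0 with hφ
  have hlap : ∀ x, ((∑ i, (2 * ψ x - ψ (x + ee d i) - ψ (x - ee d i)) : ℝ) : ℂ)
      = 2 * d * ψ x - ∑ i, ((ψ (x + ee d i) : ℂ) + ψ (x - ee d i)) := by
    intro x
    push_cast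
    have : ∀ i : Fin d, (2 * (ψ x : ℂ) - ψ (x + ee d i) - ψ (x - ee d i))
        = 2 * (ψ x : ℂ) - ((ψ (x + ee d i) : ℂ) + ψ (x - ee d i)) := fun i => by ring
    simp_rw [this]
    rw [Finset.sum_sub_distrib, Finset.sum_const, Finset.card_univ, Fintype.card_fin, nsmul_eq_mul]
    ring
  have hh0 : ∀ x ∉ Λ, h x = 0 := by
    intro x hx
    have e1 := hlap x
    rw [hψ2 x hx, hψ x hx] at e1
    simp only [hh]
    rw [hψ x hx]
    simp only [Complex.ofReal_zero, mul_zero, zero_sub] at e1 ⊢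
    exact e1.symm
  have hφ0 : ∀ x ∉ Λ, φ x = 0 := by
    intro x hx
    simp only [hφ]
    rw [hh0 x hx, if_neg (fun h' : x = 0 => hx (by rw [h']; exact h0)), sub_zero]
  have hφn : ∀ x ∈ Λ, ‖φ x‖ ≤ |∑ i, (2 * ψ x - ψ (x + ee d i) - ψ (x - ee d i))
      + (Ws x - E0) * ψ x| + (3 * t) * |ψ x| := by
    intro x hx
    have e1 : φ x = ((∑ i, (2 * ψ x - ψ (x + ee d i) - ψ (x - ee d i))
        + (Ws x - E0) * ψ x : ℝ) : ℂ) + ((W x - (Ws x + if x = 0 then κ else 0) : ℝ) : ℂ) * ψ x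
        + ((E0 - E : ℝ) : ℂ) * ψ x - (ε : ℂ) * I * ψ x := by
      simp only [hφ, hh]
      rw [Complex.ofReal_add, hlap x, zp_eq]
      by_cases hx0 : x = 0
      · subst hx0
        rw [if_pos rfl, if_pos rfl, hψ0]
        push_cast
        ring
      · rw [if_neg hx0, if_neg hx0]
        push_cast
        ring
    rw [e1]
    have n1 : ‖(((W x - (Ws x + if x = 0 then κ else 0) : ℝ) : ℂ) * ψ x)‖ ≤ t * |ψ x| := by
      rw [norm_mul, Complex.norm_real, Complex.norm_real, Real.norm_eq_abs, Real.norm_eq_abs]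
      exact mul_le_mul_of_nonneg_right (hW x hx) (abs_nonneg _)
    have n2 : ‖(((E0 - E : ℝ) : ℂ) * ψ x)‖ ≤ t * |ψ x| := by
      rw [norm_mul, Complex.norm_real, Complex.norm_real, Real.norm_eq_abs, Real.norm_eq_abs,
        abs_sub_comm]
      exact mul_le_mul_of_nonneg_right hE (abs_nonneg _)
    have n3 : ‖((ε : ℂ) * I * ψ x)‖ ≤ t * |ψ x| := by
      rw [norm_mul, norm_mul, Complex.norm_real, Complex.norm_real, Complex.norm_I, mul_one,
        Real.norm_eq_abs, Real.norm_eq_abs, abs_of_pos hε]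
      exact mul_le_mul_of_nonneg_right hεt (abs_nonneg _)
    have n0 : ‖((∑ i, (2 * ψ x - ψ (x + ee d i) - ψ (x - ee d i))
        + (Ws x - E0) * ψ x : ℝ) : ℂ)‖ = |∑ i, (2 * ψ x - ψ (x + ee d i) - ψ (x - ee d i))
        + (Ws x - E0) * ψ x| := by
      rw [Complex.norm_real, Real.norm_eq_abs]
    refine (norm_sub_le _ _).trans ?_
    refine (add_le_add ((norm_add_le _ _).trans (add_le_add (norm_add_le _ _) n2)) n3).trans ?_
    rw [n0]
    linarith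
  set Φ : ℝ := ∑ x ∈ Λ, ‖φ x‖ with hΦ
  have hΦ0 : 0 ≤ Φ := Finset.sum_nonneg fun x _ => norm_nonneg _
  have hΦ1 : Φ ≤ t * (1 + 3 * A) := by
    refine (Finset.sum_le_sum hφn).trans ?_
    rw [Finset.sum_add_distrib, ← Finset.mul_sum]
    have := mul_le_mul_of_nonneg_left hA (by positivity : (0:ℝ) ≤ 3 * t)
    linarith
  -- the resolvent identity
  have hG : ∀ y, (κ : ℂ) * GF E ε W y 0 + ∑ x ∈ Λ, GF E ε W y x * φ x = ψ y := by
    intro y
    rw [← good_res hε W Λ ψ h hψ hh0 (fun x => rfl) y]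
    have e1 : ∀ x ∈ Λ, GF E ε W y x * h x = GF E ε W y x * φ x
        + (if x = 0 then GF E ε W y x * (κ : ℂ) else 0) := by
      intro x _
      simp only [hφ]
      split_ifs
      · ring
      · ring
    rw [Finset.sum_congr rfl e1, Finset.sum_add_distrib, Finset.sum_ite_eq' Λ 0, if_pos h0]
    ring
  set e : ℂ := ∑ x ∈ Λ, GF E ε W 0 x * φ x with he
  have hGφ : ∀ y ∈ Λ, ‖∑ x ∈ Λ, GF E ε W y x * φ x‖ ≤ g3 * Φ := by
    intro y hy
    refine (norm_sum_le _ _).trans ?_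
    rw [hΦ, Finset.mul_sum]
    refine Finset.sum_le_sum fun x hx => ?_
    rw [norm_mul]
    exact mul_le_mul_of_nonneg_right (hg y hy x hx) (norm_nonneg _)
  have hψA : ∀ y ∈ Λ, |ψ y| ≤ A := fun y hy =>
    (Finset.single_le_sum (f := fun x => |ψ x|) (fun x _ => abs_nonneg _) hy).trans hA
  have hκe : ‖(κ : ℂ) * e‖ ≤ Φ * (A + g3 * Φ) := by
    have e1 : (κ : ℂ) * e = ∑ y ∈ Λ, φ y * ((ψ y : ℂ) - ∑ x ∈ Λ, GF E ε W y x * φ x) := by
      rw [he, Finset.mul_sum]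
      apply Finset.sum_congr rfl
      intro y _
      have e2 := hG y
      have e3 : (ψ y : ℂ) - ∑ x ∈ Λ, GF E ε W y x * φ x = (κ : ℂ) * GF E ε W y 0 := by
        rw [← e2]; ring
      rw [e3, GF_symm hε W 0 y]
      ring
    rw [e1]
    refine (norm_sum_le _ _).trans ?_
    rw [hΦ, Finset.sum_mul]
    refine Finset.sum_le_sum fun y hy => ?_
    rw [norm_mul]
    refine mul_le_mul_of_nonneg_left ?_ (norm_nonneg _)
    refine (norm_sub_le _ _).trans (add_le_add ?_ (hGφ y hy))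
    rw [Complex.norm_real, Real.norm_eq_abs]
    exact hψA y hy
  have he1 : ‖e‖ ≤ 1 / 4 := by
    rw [norm_mul, Complex.norm_real, Real.norm_eq_abs, abs_of_pos hκ0] at hκe
    have e2 : Φ * (A + g3 * Φ) ≤ t * (1 + 3 * A) * (A + g3 * (t * (1 + 3 * A))) := by
      apply mul_le_mul hΦ1 _ (by positivity) (by positivity)
      have := mul_le_mul_of_nonneg_left hΦ1 hg0
      linarith
    have e3 : κ * ‖e‖ ≤ κ * (1 / 4) := hκe.trans (e2.trans hnum)
    exact le_of_mul_le_mul_left e3 hκ0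
  have hG0 : (κ : ℂ) * GF E ε W 0 0 = 1 - e := by
    have e1 := hG 0
    rw [hψ0, Complex.ofReal_one] at e1
    rw [← e1]
    ring
  have hne : (1 : ℂ) - e ≠ 0 := by
    intro h'
    have : e = 1 := by rw [sub_eq_zero] at h'; exact h'.symm
    rw [this, norm_one] at he1
    norm_num at he1
  have hn34 : 3 / 4 ≤ ‖(1 : ℂ) - e‖ := by
    have := norm_sub_norm_le (1 : ℂ) e
    rw [norm_one] at this
    linarith
  have hinv : (GF E ε W 0 0)⁻¹ = (κ : ℂ) / (1 - e) := by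
    rw [← hG0]
    have hκc : (κ : ℂ) ≠ 0 := by exact_mod_cast hκ0.ne'
    have hGne := GF_ne (E := E) hε W 0
    field_simp
  have hdiff : ‖(κ : ℂ) - (GF E ε W 0 0)⁻¹‖ ≤ κ / 3 := by
    rw [hinv]
    have e1 : (κ : ℂ) - (κ : ℂ) / (1 - e) = -((κ : ℂ) * e) / (1 - e) := by
      field_simp
      ring
    rw [e1, norm_div, norm_neg, norm_mul, Complex.norm_real, Real.norm_eq_abs, abs_of_pos hκ0,
      div_le_iff₀ (by linarith)]
    nlinarith
  have hfin : ‖wv E ε W 0 - (Ws 0 : ℂ)‖ ≤ δ0 := by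
    have e1 : wv E ε W 0 - (Ws 0 : ℂ) = ((W 0 - (Ws 0 + κ) : ℝ) : ℂ)
        + ((κ : ℂ) - (GF E ε W 0 0)⁻¹) := by
      unfold wv
      push_cast
      ring
    rw [e1]
    refine (norm_add_le _ _).trans ?_
    have e2 := hW 0 h0
    rw [if_pos rfl] at e2
    rw [Complex.norm_real, Real.norm_eq_abs]
    rw [hκ] at hdiff e2 ⊢
    linarith
  have hre : |(wv E ε W 0).re - Ws 0| ≤ δ0 := by
    have := Complex.abs_re_le_norm (wv E ε W 0 - (Ws 0 : ℂ))
    rw [Complex.sub_re, Complex.ofReal_re] at this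
    exact this.trans hfin
  rw [abs_le] at hre
  have him : 0 < (wv E ε W 0).im := hε.trans_le (wv_im hε W 0)
  have hK : 0 ≤ (|a| + |b| + 1) * (wv E ε W 0).im := by positivity
  obtain ⟨hw1, hw2⟩ := hWs 0
  refine ⟨him, ?_, by linarith, by linarith⟩
  have e1 : ‖wv E ε W 0‖ ≤ |Ws 0| + δ0 := by
    have e2 : wv E ε W 0 = (Ws 0 : ℂ) + (wv E ε W 0 - (Ws 0 : ℂ)) := by ring
    rw [e2]
    refine (norm_add_le _ _).trans (add_le_add ?_ hfin)
    rw [Complex.norm_real, Real.norm_eq_abs]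
  refine e1.trans ?_
  rcases abs_cases (Ws 0) with ⟨h1, -⟩ | ⟨h1, -⟩
  · rw [h1]
    linarith [le_abs_self b, abs_nonneg a]
  · rw [h1]
    linarith [neg_abs_le a, abs_nonneg b]


/-- membership in the window at each site of `Λ` -/
def gQ (Λ : Finset (ZZ d)) (s : ZZ d → ℝ) (t : ℝ) : Set (ZZ d → ℝ) :=
  {W | ∀ x ∈ Λ, W x ∈ {β : ℝ | |β - s x| ≤ t}}

lemma gwin_meas (s t : ℝ) : MeasurableSet {β : ℝ | |β - s| ≤ t} := by
  apply IsClosed.measurableSet
  exact isClosed_le (by fun_prop) continuous_const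

lemma gQ_meas (Λ : Finset (ZZ d)) (s : ZZ d → ℝ) (t : ℝ) : MeasurableSet (gQ Λ s t) := by
  unfold gQ
  have : {W : ZZ d → ℝ | ∀ x ∈ Λ, W x ∈ {β : ℝ | |β - s x| ≤ t}}
      = ⋂ x ∈ Λ, (fun W : ZZ d → ℝ => W x) ⁻¹' {β : ℝ | |β - s x| ≤ t} := by
    ext W
    simp
  rw [this]
  exact Finset.measurableSet_biInter Λ fun x _ => measurable_pi_apply x (gwin_meas _ _)

lemma gQ_prob (μ : Measure ℝ) [IsProbabilityMeasure μ] (Λ : Finset (ZZ d)) (s : ZZ d → ℝ) (t : ℝ) :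
    (PP (ZZ d) μ) (gQ Λ s t) = ∏ x ∈ Λ, μ {β : ℝ | |β - s x| ≤ t} :=
  PP_cyl μ Λ (fun x => {β : ℝ | |β - s x| ≤ t}) (fun _ _ => gwin_meas _ _)

/-- one conditional window estimate -/
lemma good_cond {μ : Measure ℝ} [IsProbabilityMeasure μ] {a b c C : ℝ} (hμ : Uni μ a b c C)
    (Λ : Finset (ZZ d)) (s : ZZ d → ℝ) (t : ℝ) (ht : 0 < t)
    (hs : ∀ x ∈ Λ, a ≤ s x - t ∧ s x + t ≤ b) {x : ZZ d} (hx : x ∈ Λ)
    (F : (ZZ d → ℝ) → ℂ) (hF : ∀ W β, F (Function.update W x β) = F W)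
    (B : Set (ZZ d → ℝ)) (hB : MeasurableSet B) (r : ℝ)
    (hBF : ∀ W ∈ B, ‖(W x : ℂ) - F W‖ ≤ r) :
    ENNReal.ofReal (2 * c * t) * (PP (ZZ d) μ) (gQ Λ s t ∩ B)
      ≤ ENNReal.ofReal (2 * C * r) * (PP (ZZ d) μ) (gQ Λ s t) := by
  have hm : MeasurableSet (gQ Λ s t ∩ B) := (gQ_meas Λ s t).inter hB
  have h1 : (PP (ZZ d) μ) (gQ Λ s t ∩ B)
      = ∫⁻ W, (gQ Λ s t ∩ B).indicator 1 W ∂(PP (ZZ d) μ) := by
    rw [lintegral_indicator_one hm]
  have hmeas : Measurable ((gQ Λ s t ∩ B).indicator (1 : (ZZ d → ℝ) → ℝ≥0∞)) :=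
    measurable_one.indicator hm
  have h2 : (PP (ZZ d) μ) (gQ Λ s t ∩ B)
      ≤ ENNReal.ofReal (2 * C * r) * (PP (ZZ d) μ) (gQ (Λ.erase x) s t) := by
    rw [h1, ← lint_upd μ x hmeas]
    have h3 : ∀ W : ZZ d → ℝ, ∫⁻ β, (gQ Λ s t ∩ B).indicator 1 (Function.update W x β) ∂μ
        ≤ (gQ (Λ.erase x) s t).indicator (fun _ => ENNReal.ofReal (2 * C * r)) W := by
      intro W
      by_cases hW : W ∈ gQ (Λ.erase x) s t
      · rw [Set.indicator_of_mem hW]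
        refine le_trans ?_ (hμ.win (F W) r)
        have hwm : MeasurableSet {β : ℝ | ‖(β : ℂ) - F W‖ ≤ r} :=
          (isClosed_le (by fun_prop) continuous_const).measurableSet
        rw [← lintegral_indicator_one hwm]
        refine lintegral_mono fun β => ?_
        by_cases hβ : Function.update W x β ∈ gQ Λ s t ∩ B
        · rw [Set.indicator_of_mem hβ]
          have := hBF _ hβ.2
          rw [hF, Function.update_self] at this
          have hmem : β ∈ {β : ℝ | ‖(β : ℂ) - F W‖ ≤ r} := this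
          rw [Set.indicator_of_mem hmem]
          rfl
        · rw [Set.indicator_of_notMem hβ]
          exact zero_le
      · rw [Set.indicator_of_notMem hW]
        rw [nonpos_iff_eq_zero]
        have : ∀ β, (gQ Λ s t ∩ B).indicator (1 : (ZZ d → ℝ) → ℝ≥0∞) (Function.update W x β) = 0 := by
          intro β
          apply Set.indicator_of_notMem
          rintro ⟨hβ, -⟩
          apply hW
          intro y hy
          have hyx : y ≠ x := Finset.ne_of_mem_erase hy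
          have := hβ y (Finset.mem_of_mem_erase hy)
          rw [Function.update_of_ne hyx] at this
          exact this
        simp_rw [this]
        simp
    refine (lintegral_mono h3).trans ?_
    rw [lintegral_indicator (gQ_meas _ _ _), lintegral_const, Measure.restrict_apply_univ]
  have h4 : ENNReal.ofReal (2 * c * t) * (PP (ZZ d) μ) (gQ (Λ.erase x) s t)
      ≤ (PP (ZZ d) μ) (gQ Λ s t) := by
    rw [gQ_prob, gQ_prob, ← Finset.mul_prod_erase Λ _ hx]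
    gcongr
    exact hμ.win_ge (s x) t ht.le (hs x hx).1 (hs x hx).2
  calc ENNReal.ofReal (2 * c * t) * (PP (ZZ d) μ) (gQ Λ s t ∩ B)
      ≤ ENNReal.ofReal (2 * c * t) * (ENNReal.ofReal (2 * C * r)
        * (PP (ZZ d) μ) (gQ (Λ.erase x) s t)) := by gcongr
    _ = ENNReal.ofReal (2 * C * r) * (ENNReal.ofReal (2 * c * t)
        * (PP (ZZ d) μ) (gQ (Λ.erase x) s t)) := by ring
    _ ≤ ENNReal.ofReal (2 * C * r) * (PP (ZZ d) μ) (gQ Λ s t) := by gcongr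

/-- `spl` commutes with updates inside the set -/
lemma good_spl_upd (Λ : Finset (ZZ d)) (W' W : ZZ d → ℝ) {x : ZZ d} (hx : x ∈ Λ) (β : ℝ) :
    spl Λ (Function.update W' x β) W = Function.update (spl Λ W' W) x β := by
  funext y
  unfold spl
  by_cases hy : y = x
  · subst hy
    rw [if_pos hx, Function.update_self, Function.update_self]
  · rw [Function.update_of_ne hy, Function.update_of_ne hy]

lemma good_spl_meas (Λ : Finset (ZZ d)) (W : ZZ d → ℝ) :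
    Measurable (fun W' : ZZ d → ℝ => spl Λ W' W) := by
  rw [measurable_pi_iff]
  intro x
  unfold spl
  split_ifs
  · exact measurable_pi_apply x
  · exact measurable_const

/-- the bad pairs -/
def gB (E ε : ℝ) (Λ : Finset (ZZ d)) (W : ZZ d → ℝ) (g : ℝ) (x y : ZZ d) : Set (ZZ d → ℝ) :=
  if x = y then {W' | g / 2 < ‖GF E ε (spl Λ W' W) x x‖}
  else {W' | ‖GF E ε (spl Λ W' W) x x‖ ≤ g / 2 ∧ ‖GF E ε (spl Λ W' W) y y‖ ≤ g / 2 ∧
    g < ‖GF E ε (spl Λ W' W) x y‖}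

lemma gB_meas (E : ℝ) {ε : ℝ} (hε : 0 < ε) (Λ : Finset (ZZ d)) (W : ZZ d → ℝ) (g : ℝ) (x y : ZZ d) :
    MeasurableSet (gB E ε Λ W g x y) := by
  have hm : ∀ x y : ZZ d, Measurable (fun W' : ZZ d → ℝ => ‖GF E ε (spl Λ W' W) x y‖) :=
    fun x y => ((GF_meas E hε x y).comp (good_spl_meas Λ W)).norm
  unfold gB
  split_ifs
  · exact measurableSet_lt measurable_const (hm x x)
  · exact (measurableSet_le (hm x x) measurable_const).inter
      ((measurableSet_le (hm y y) measurable_const).inter (measurableSet_lt measurable_const (hm x y)))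

lemma gB_est {μ : Measure ℝ} [IsProbabilityMeasure μ] {a b c C : ℝ} (hμ : Uni μ a b c C)
    {E ε : ℝ} (hε : 0 < ε)
    (Λ : Finset (ZZ d)) (s : ZZ d → ℝ) (t : ℝ) (ht : 0 < t)
    (hs : ∀ x ∈ Λ, a ≤ s x - t ∧ s x + t ≤ b) (W : ZZ d → ℝ) (g : ℝ) (hg : 0 < g)
    {x y : ZZ d} (hx : x ∈ Λ) (hy : y ∈ Λ) :
    ENNReal.ofReal (2 * c * t) * (PP (ZZ d) μ) (gQ Λ s t ∩ gB E ε Λ W g x y)
      ≤ ENNReal.ofReal (2 * C * (2 / g)) * (PP (ZZ d) μ) (gQ Λ s t) := by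
  by_cases hxy : x = y
  · subst hxy
    refine good_cond hμ Λ s t ht hs hx (fun W' => wv E ε (spl Λ W' W) x) ?_ _
      (gB_meas E hε Λ W g x x) (2 / g) ?_
    · intro W' β
      rw [good_spl_upd Λ W' W hx, wv_upd hε]
    · intro W' hW'
      unfold gB at hW'
      rw [if_pos rfl] at hW'
      have h1 : g / 2 < ‖GF E ε (spl Λ W' W) x x‖ := hW'
      have h2 := GF_wv hε (spl Λ W' W) x (E := E)
      have h3 : spl Λ W' W x = W' x := by unfold spl; rw [if_pos hx]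
      rw [h3] at h2
      have h4 : ‖((W' x : ℂ) - wv E ε (spl Λ W' W) x)‖ = ‖GF E ε (spl Λ W' W) x x‖⁻¹ := by
        rw [h2, norm_inv, inv_inv]
      rw [h4]
      rw [inv_le_comm₀ (by linarith) (by positivity), inv_div]
      exact h1.le
  · refine good_cond hμ Λ s t ht hs hx
      (fun W' => (spl Λ W' W x : ℂ) - GF E ε (spl Λ W' W) y y / DT E ε (spl Λ W' W) x y) ?_ _
      (gB_meas E hε Λ W g x y) (2 / g) ?_
    · intro W' β
      refine two_diag hε _ _ hxy ?_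
      intro z hz _
      rw [good_spl_upd Λ W' W hx, Function.update_of_ne hz]
    · intro W' hW'
      unfold gB at hW'
      rw [if_neg hxy] at hW'
      obtain ⟨h1, h2, h3⟩ := hW'
      have h4 : spl Λ W' W x = W' x := by unfold spl; rw [if_pos hx]
      rw [h4]
      have h5 : (W' x : ℂ) - ((W' x : ℂ) - GF E ε (spl Λ W' W) y y / DT E ε (spl Λ W' W) x y)
          = GF E ε (spl Λ W' W) y y / DT E ε (spl Λ W' W) x y := by ring
      rw [h5, norm_div]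
      have hDT : 3 / 4 * g ^ 2 ≤ ‖DT E ε (spl Λ W' W) x y‖ := by
        unfold DT
        have e1 := norm_sub_norm_le (GF E ε (spl Λ W' W) x y ^ 2)
          (GF E ε (spl Λ W' W) x x * GF E ε (spl Λ W' W) y y)
        rw [norm_sub_rev, norm_pow, norm_mul] at e1
        have e2 : ‖GF E ε (spl Λ W' W) x x‖ * ‖GF E ε (spl Λ W' W) y y‖ ≤ g / 2 * (g / 2) :=
          mul_le_mul h1 h2 (norm_nonneg _) (by positivity)
        have e3 : g ^ 2 ≤ ‖GF E ε (spl Λ W' W) x y‖ ^ 2 := by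
          apply pow_le_pow_left₀ hg.le h3.le
        nlinarith
      have hDT0 : 0 < ‖DT E ε (spl Λ W' W) x y‖ := lt_of_lt_of_le (by positivity) hDT
      rw [div_le_div_iff₀ hDT0 hg]
      have e4 : ‖GF E ε (spl Λ W' W) y y‖ * g ≤ g / 2 * g :=
        mul_le_mul_of_nonneg_right h2 hg.le
      nlinarith

/-- conditional Wegner estimate -/
lemma good_weg {μ : Measure ℝ} [IsProbabilityMeasure μ] {a b c C : ℝ} (hμ : Uni μ a b c C)
    {E ε : ℝ} (hε : 0 < ε)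
    (Λ : Finset (ZZ d)) (s : ZZ d → ℝ) (t : ℝ) (ht : 0 < t)
    (hs : ∀ x ∈ Λ, a ≤ s x - t ∧ s x + t ≤ b) (W : ZZ d → ℝ) (g : ℝ) (hg : 0 < g)
    (hgt : 4 * C * (Λ.card : ℝ) ^ 2 ≤ c * t * g) :
    (PP (ZZ d) μ) (gQ Λ s t ∩ {W' | ∃ x ∈ Λ, ∃ y ∈ Λ, g < ‖GF E ε (spl Λ W' W) x y‖})
      ≤ ENNReal.ofReal (1 / 2) * (PP (ZZ d) μ) (gQ Λ s t) := by
  have hc := hμ.c0
  have hct : 0 < 2 * c * t := by positivity
  have hsub : gQ Λ s t ∩ {W' | ∃ x ∈ Λ, ∃ y ∈ Λ, g < ‖GF E ε (spl Λ W' W) x y‖}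
      ⊆ ⋃ p ∈ Λ ×ˢ Λ, (gQ Λ s t ∩ gB E ε Λ W g p.1 p.2) := by
    rintro W' ⟨hW', x, hx, y, hy, hxy⟩
    have key : ∃ p ∈ Λ ×ˢ Λ, W' ∈ gB E ε Λ W g p.1 p.2 := by
      by_cases h1 : g / 2 < ‖GF E ε (spl Λ W' W) x x‖
      · refine ⟨(x, x), Finset.mk_mem_product hx hx, ?_⟩
        unfold gB
        rw [if_pos rfl]
        exact h1
      by_cases h2 : g / 2 < ‖GF E ε (spl Λ W' W) y y‖
      · refine ⟨(y, y), Finset.mk_mem_product hy hy, ?_⟩
        unfold gB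
        rw [if_pos rfl]
        exact h2
      push Not at h1 h2
      refine ⟨(x, y), Finset.mk_mem_product hx hy, ?_⟩
      unfold gB
      have hne : x ≠ y := by
        intro h'
        subst h'
        linarith
      rw [if_neg hne]
      exact ⟨h1, h2, hxy⟩
    obtain ⟨p, hp, hp2⟩ := key
    exact Set.mem_biUnion hp ⟨hW', hp2⟩
  have h1 : (PP (ZZ d) μ) (gQ Λ s t ∩ {W' | ∃ x ∈ Λ, ∃ y ∈ Λ, g < ‖GF E ε (spl Λ W' W) x y‖})
      ≤ ∑ p ∈ Λ ×ˢ Λ, (PP (ZZ d) μ) (gQ Λ s t ∩ gB E ε Λ W g p.1 p.2) :=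
    (measure_mono hsub).trans (measure_biUnion_finset_le _ _)
  have h2 : ENNReal.ofReal (2 * c * t) * ∑ p ∈ Λ ×ˢ Λ, (PP (ZZ d) μ) (gQ Λ s t ∩ gB E ε Λ W g p.1 p.2)
      ≤ ∑ p ∈ Λ ×ˢ Λ, ENNReal.ofReal (2 * C * (2 / g)) * (PP (ZZ d) μ) (gQ Λ s t) := by
    rw [Finset.mul_sum]
    refine Finset.sum_le_sum fun p hp => ?_
    rw [Finset.mem_product] at hp
    exact gB_est hμ hε Λ s t ht hs W g hg hp.1 hp.2
  rw [Finset.sum_const, Finset.card_product, nsmul_eq_mul, ← mul_assoc] at h2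
  have h3 : ((Λ.card * Λ.card : ℕ) : ℝ≥0∞) * ENNReal.ofReal (2 * C * (2 / g))
      ≤ ENNReal.ofReal (2 * c * t) * ENNReal.ofReal (1 / 2) := by
    rw [← ENNReal.ofReal_mul hct.le, ← ENNReal.ofReal_natCast, ← ENNReal.ofReal_mul (by positivity)]
    apply ENNReal.ofReal_le_ofReal
    push_cast
    have e1 : (Λ.card : ℝ) * Λ.card * (2 * C * (2 / g)) = (4 * C * (Λ.card : ℝ) ^ 2) / g := by
      field_simp
      ring
    rw [e1, div_le_iff₀ hg]
    linarith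
  have h4 : ENNReal.ofReal (2 * c * t) *
      (PP (ZZ d) μ) (gQ Λ s t ∩ {W' | ∃ x ∈ Λ, ∃ y ∈ Λ, g < ‖GF E ε (spl Λ W' W) x y‖})
      ≤ ENNReal.ofReal (2 * c * t) * (ENNReal.ofReal (1 / 2) * (PP (ZZ d) μ) (gQ Λ s t)) := by
    calc _ ≤ ENNReal.ofReal (2 * c * t) * ∑ p ∈ Λ ×ˢ Λ,
          (PP (ZZ d) μ) (gQ Λ s t ∩ gB E ε Λ W g p.1 p.2) := by gcongr
      _ ≤ _ := h2
      _ ≤ _ := by
          rw [← mul_assoc]
          gcongr
  have hpos : ENNReal.ofReal (2 * c * t) ≠ 0 := by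
    rw [Ne, ENNReal.ofReal_eq_zero, not_le]
    exact hct
  exact (ENNReal.mul_le_mul_iff_right hpos ENNReal.ofReal_ne_top).1 h4

theorem good_of : StmtEig → StmtGood := by
  intro hEig μ _ a b c C hμ d hd E0 hE1 hE2
  obtain ⟨δ0, A, hδ, hA0, hmain⟩ := hEig d hd a b E0 hE1 hE2 hμ.ab
  have hc := hμ.c0
  have hC := hμ.C_pos
  -- constants
  set κ : ℝ := δ0 / 2 with hκ
  have hκ0 : 0 < κ := by positivity
  set Kw : ℝ := 4 * C / c with hKw
  have hKw0 : 0 < Kw := by positivity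
  set D : ℝ := (1 + 3 * A) * A + Kw * (1 + 3 * A) ^ 2 with hD
  have hD0 : 0 < D := by positivity
  set s : ℝ := min (δ0 / 2) (κ / (4 * D)) with hs
  have hs0 : 0 < s := lt_min (by positivity) (by positivity)
  have hs1 : s ≤ δ0 / 2 := min_le_left _ _
  have hs2 : D * s ≤ κ * (1 / 4) := by
    have h1 : s ≤ κ / (4 * D) := min_le_right _ _
    have h2 := mul_le_mul_of_nonneg_left h1 hD0.le
    have h3 : D * (κ / (4 * D)) = κ * (1 / 4) := by
      field_simp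
    linarith
  obtain ⟨Λ, ψ, Ws, t, h0Λ, hψ0, hψ, hψ2, hWs, hA, ht0, hts, hcard, hsum⟩ := hmain s hs0
  have hcardpos : 0 < (Λ.card : ℝ) := by
    exact_mod_cast Finset.card_pos.2 ⟨0, h0Λ⟩
  set g3 : ℝ := Kw * (Λ.card : ℝ) ^ 2 / t with hg3
  have hg30 : 0 < g3 := by positivity
  set sc : ZZ d → ℝ := fun x => Ws x + if x = 0 then κ else 0 with hsc
  have hwin : ∀ x ∈ Λ, a ≤ sc x - t ∧ sc x + t ≤ b := by
    intro x _
    obtain ⟨h1, h2⟩ := hWs x
    have h3 : (0:ℝ) ≤ (if x = 0 then κ else 0) ∧ (if x = 0 then κ else 0) ≤ κ := by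
      split_ifs
      · exact ⟨hκ0.le, le_rfl⟩
      · exact ⟨le_rfl, hκ0.le⟩
    simp only [hsc]
    constructor <;> linarith
  refine ⟨Λ, h0Λ, 1 / 2 * (2 * c * t) ^ Λ.card, t, by positivity, ht0, ?_⟩
  intro E ε hE hε hεt W hW
  have hweg := good_weg hμ hε (E := E) Λ sc t ht0 hwin W g3 hg30 (by
    rw [hg3, hKw]
    apply le_of_eq
    field_simp)
  have hlow : ENNReal.ofReal ((2 * c * t) ^ Λ.card) ≤ (PP (ZZ d) μ) (gQ Λ sc t) := by
    rw [gQ_prob, ENNReal.ofReal_pow (by positivity), ← Finset.prod_const]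
    refine Finset.prod_le_prod' fun x hx => ?_
    exact hμ.win_ge (sc x) t ht0.le (hwin x hx).1 (hwin x hx).2
  have hsubset : gQ Λ sc t \ {W' | ∃ x ∈ Λ, ∃ y ∈ Λ, g3 < ‖GF E ε (spl Λ W' W) x y‖}
      ⊆ {W' | wv E ε (spl Λ W' W) 0 ∈ Gd a b (|a| + |b| + 1)} := by
    rintro W' ⟨hW', hn⟩
    have hn' : ∀ x ∈ Λ, ∀ y ∈ Λ, ‖GF E ε (spl Λ W' W) x y‖ ≤ g3 := by
      intro x hx y hy
      by_contra hcon
      push Not at hcon
      exact hn ⟨x, hx, y, hy, hcon⟩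
    refine good_det (E0 := E0) (δ0 := δ0) (A := A) (t := t) (g3 := g3) (κ := κ) hε hδ hκ Λ ψ Ws
      (spl Λ W' W) h0Λ hψ0 hψ hψ2 hWs hA (hts.trans hs1) hsum hE hεt ?_ hg30.le hn' ?_
    · intro x hx
      have h1 := hW' x hx
      have h2 : spl Λ W' W x = W' x := by unfold spl; rw [if_pos hx]
      rw [h2]
      exact h1
    · have e1 : t * (1 + 3 * A) * (A + g3 * (t * (1 + 3 * A)))
          = (1 + 3 * A) * A * t + Kw * (1 + 3 * A) ^ 2 * ((Λ.card : ℝ) ^ 2 * t) := by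
        rw [hg3]
        field_simp
      rw [e1]
      have e2 : (1 + 3 * A) * A * t ≤ (1 + 3 * A) * A * s :=
        mul_le_mul_of_nonneg_left hts (by positivity)
      have e3 : Kw * (1 + 3 * A) ^ 2 * ((Λ.card : ℝ) ^ 2 * t) ≤ Kw * (1 + 3 * A) ^ 2 * s :=
        mul_le_mul_of_nonneg_left hcard (by positivity)
      have e4 : D * s = (1 + 3 * A) * A * s + Kw * (1 + 3 * A) ^ 2 * s := by rw [hD]; ring
      linarith
  refine le_trans ?_ (measure_mono hsubset)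
  have hle := measure_le_inter_add_sdiff (PP (ZZ d) μ) (gQ Λ sc t)
    {W' | ∃ x ∈ Λ, ∃ y ∈ Λ, g3 < ‖GF E ε (spl Λ W' W) x y‖}
  have hle2 := hle.trans (add_le_add_left hweg _)
  have hhalf : (PP (ZZ d) μ) (gQ Λ sc t) = ENNReal.ofReal (1 / 2) * (PP (ZZ d) μ) (gQ Λ sc t)
      + ENNReal.ofReal (1 / 2) * (PP (ZZ d) μ) (gQ Λ sc t) := by
    rw [← add_mul, ← ENNReal.ofReal_add (by norm_num) (by norm_num)]
    norm_num
  have hfin : ENNReal.ofReal (1 / 2) * (PP (ZZ d) μ) (gQ Λ sc t) ≠ ∞ :=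
    ENNReal.mul_ne_top ENNReal.ofReal_ne_top (measure_ne_top _ _)
  have hle3 : ENNReal.ofReal (1 / 2) * (PP (ZZ d) μ) (gQ Λ sc t)
      ≤ (PP (ZZ d) μ) (gQ Λ sc t \ {W' | ∃ x ∈ Λ, ∃ y ∈ Λ, g3 < ‖GF E ε (spl Λ W' W) x y‖}) := by
    exact (ENNReal.add_le_add_iff_left hfin).1 (hhalf.symm.le.trans hle2)
  refine le_trans ?_ hle3
  rw [ENNReal.ofReal_mul (by norm_num)]
  gcongr

end Pool.SU
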