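import Mathlib
import Pool.Agent.SU.Defs

/-!
# Deterministic part of the Lifshitz argument

A configuration without bad segments has quadratic form at least `1 / (16 m ^ 2)` near the edge of
the spectrum.
-/

set_option autoImplicit false
set_option linter.unusedSectionVars false
set_option linter.unusedSimpArgs false

open Complex MeasureTheory Filter Topology Set ContinuousLinearMap
open scoped InnerProductSpace ENNReal NNReal

namespace Pool.SU

open Pool.NB Pool.SB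

variable {d : ℕ}

/-! ### One segment -/

lemma lif_dist {F : Type*} [NormedAddCommGroup F] (w : ℕ → F) (l i j : ℕ) (hi : i < l)
    (hj : j < l) :
    ‖w j - w i‖ ^ 2 ≤ l * ∑ k ∈ Finset.range l, ‖w k - w (k + 1)‖ ^ 2 := by
  have key : ∀ i j : ℕ, i ≤ j → j < l →
      ‖w j - w i‖ ≤ ∑ k ∈ Finset.range l, ‖w k - w (k + 1)‖ := by
    intro i j hij hj
    have h1 := dist_le_Ico_sum_dist w hij
    rw [dist_comm, dist_eq_norm] at h1
    have h2 : ∑ k ∈ Finset.Ico i j, dist (w k) (w (k + 1))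
        ≤ ∑ k ∈ Finset.range l, dist (w k) (w (k + 1)) := by
      refine Finset.sum_le_sum_of_subset_of_nonneg ?_ fun _ _ _ => dist_nonneg
      intro k hk
      rw [Finset.mem_Ico] at hk
      rw [Finset.mem_range]; omega
    refine (h1.trans h2).trans (le_of_eq ?_)
    exact Finset.sum_congr rfl fun k _ => dist_eq_norm _ _
  have h2 : ‖w j - w i‖ ≤ ∑ k ∈ Finset.range l, ‖w k - w (k + 1)‖ := by
    rcases le_total i j with h | h
    · exact key i j h hj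
    · rw [norm_sub_rev]; exact key j i h hi
  have h3 : (∑ k ∈ Finset.range l, ‖w k - w (k + 1)‖) ^ 2
      ≤ l * ∑ k ∈ Finset.range l, ‖w k - w (k + 1)‖ ^ 2 := by
    have := sq_sum_le_card_mul_sum_sq (s := Finset.range l) (f := fun k => ‖w k - w (k + 1)‖)
    rwa [Finset.card_range] at this
  exact (pow_le_pow_left₀ (norm_nonneg _) h2 2).trans h3

lemma lif_seg {F : Type*} [NormedAddCommGroup F] (w : ℕ → F) (q : ℕ → ℝ) (m : ℕ) (hm : 0 < m)
    (G : Finset ℕ) (hG : G ⊆ Finset.range (2 * m)) (hc : m ≤ G.card) (hq0 : ∀ j, 0 ≤ q j)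
    (hq : ∀ j ∈ G, 1 / (2 * (m : ℝ) ^ 2) ≤ q j) :
    ∑ j ∈ Finset.range (2 * m), ‖w j‖ ^ 2 ≤ 8 * (m : ℝ) ^ 2 *
      (∑ j ∈ Finset.range (2 * m), ‖w j - w (j + 1)‖ ^ 2
        + ∑ j ∈ Finset.range (2 * m), q j * ‖w j‖ ^ 2) := by
  have hm' : (0 : ℝ) < m := by exact_mod_cast hm
  set D := ∑ j ∈ Finset.range (2 * m), ‖w j - w (j + 1)‖ ^ 2 with hD
  set Q := ∑ j ∈ Finset.range (2 * m), q j * ‖w j‖ ^ 2 with hQ
  have hD0 : 0 ≤ D := Finset.sum_nonneg fun _ _ => by positivity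
  have hQ0 : 0 ≤ Q := Finset.sum_nonneg fun j _ => mul_nonneg (hq0 j) (by positivity)
  have hGQ : ∑ i ∈ G, ‖w i‖ ^ 2 ≤ 2 * (m : ℝ) ^ 2 * Q := by
    have h1 : ∑ i ∈ G, ‖w i‖ ^ 2 ≤ ∑ i ∈ G, 2 * (m : ℝ) ^ 2 * (q i * ‖w i‖ ^ 2) := by
      refine Finset.sum_le_sum fun i hi => ?_
      have h2 := hq i hi
      have h3 : (1 : ℝ) ≤ 2 * (m : ℝ) ^ 2 * q i := by
        rw [div_le_iff₀ (by positivity)] at h2
        linarith [h2, mul_comm (q i) (2 * (m : ℝ) ^ 2)]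
      calc ‖w i‖ ^ 2 = 1 * ‖w i‖ ^ 2 := (one_mul _).symm
        _ ≤ (2 * (m : ℝ) ^ 2 * q i) * ‖w i‖ ^ 2 :=
            mul_le_mul_of_nonneg_right h3 (by positivity)
        _ = _ := by ring
    refine h1.trans ?_
    rw [← Finset.mul_sum]
    refine mul_le_mul_of_nonneg_left ?_ (by positivity)
    exact Finset.sum_le_sum_of_subset_of_nonneg hG fun j _ _ =>
      mul_nonneg (hq0 j) (by positivity)
  have hj : ∀ j ∈ Finset.range (2 * m), ‖w j‖ ^ 2 ≤ 4 * m * (D + Q) := by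
    intro j hj
    rw [Finset.mem_range] at hj
    have hi : ∀ i ∈ G, ‖w j‖ ^ 2 ≤ 2 * ‖w i‖ ^ 2 + 4 * m * D := by
      intro i hi
      have hi' := Finset.mem_range.mp (hG hi)
      have h1 := lif_dist w (2 * m) i j hi' hj
      have h2 : ‖w j‖ ≤ ‖w i‖ + ‖w j - w i‖ := by
        calc ‖w j‖ = ‖w i + (w j - w i)‖ := by rw [add_sub_cancel]
          _ ≤ _ := norm_add_le _ _
      have h3 : ‖w j‖ ^ 2 ≤ (‖w i‖ + ‖w j - w i‖) ^ 2 := pow_le_pow_left₀ (norm_nonneg _) h2 2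
      push_cast at h1
      nlinarith [sq_nonneg (‖w i‖ - ‖w j - w i‖)]
    have h4 : (G.card : ℝ) * ‖w j‖ ^ 2 ≤ 2 * (2 * (m : ℝ) ^ 2 * Q) + G.card * (4 * m * D) := by
      have h5 := Finset.sum_le_sum hi
      rw [Finset.sum_const, Finset.sum_add_distrib, Finset.sum_const, ← Finset.mul_sum,
        nsmul_eq_mul, nsmul_eq_mul] at h5
      linarith
    have hc' : (m : ℝ) ≤ G.card := by exact_mod_cast hc
    have hc0 : (0 : ℝ) < G.card := lt_of_lt_of_le hm' hc'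
    have h6 : (G.card : ℝ) * ‖w j‖ ^ 2 ≤ G.card * (4 * m * (D + Q)) := by
      have h7 : 4 * (m : ℝ) ^ 2 * Q ≤ G.card * (4 * m * Q) := by
        have : (m : ℝ) * (4 * m * Q) ≤ G.card * (4 * m * Q) :=
          mul_le_mul_of_nonneg_right hc' (by positivity)
        nlinarith
      nlinarith
    exact le_of_mul_le_mul_left h6 hc0
  refine (Finset.sum_le_sum hj).trans (le_of_eq ?_)
  rw [Finset.sum_const, Finset.card_range, nsmul_eq_mul]
  push_cast
  ring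

/-! ### Sums over balls -/

lemma lif_sum_sub (f : ZZ d → ℝ) (L : ℕ) (hf : ∀ x, L < n1 x → f x = 0) (N : Finset (ZZ d))
    (hN : ball d L ⊆ N) : ∑ x ∈ N, f x = ∑ x ∈ ball d L, f x := by
  symm
  refine Finset.sum_subset hN fun x _ hx => hf x ?_
  by_contra h
  exact hx (mem_ball.mpr (not_lt.mp h))

lemma lif_sum_shift (f : ZZ d → ℝ) (L M : ℕ) (hM : L + 1 ≤ M) (hf : ∀ x, L < n1 x → f x = 0)
    (i : Fin d) : ∑ x ∈ ball d M, f (x + ee d i) = ∑ x ∈ ball d L, f x := by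
  classical
  have h1 : ∑ x ∈ ball d M, f (x + ee d i)
      = ∑ x ∈ (ball d M).map (Equiv.addRight (ee d i)).toEmbedding, f x := by
    rw [Finset.sum_map]; rfl
  rw [h1]
  refine lif_sum_sub f L hf _ fun x hx => ?_
  rw [Finset.mem_map]
  refine ⟨x - ee d i, mem_ball.mpr ?_, by simp⟩
  have h2 := n1_add x (-ee d i)
  rw [n1_neg, n1_ee, ← sub_eq_add_neg] at h2
  have h3 := mem_ball.mp hx
  omega

/-- the bond energy -/
noncomputable def lifD (σ : ℝ) (u : ZZ d → ell (ZZ d)) (i : Fin d) (x : ZZ d) : ℝ :=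
  ‖u x - (σ : ℂ) • u (x + ee d i)‖ ^ 2

lemma lifD_nonneg (σ : ℝ) (u : ZZ d → ell (ZZ d)) (i : Fin d) (x : ZZ d) : 0 ≤ lifD σ u i x := by
  unfold lifD; positivity

lemma lifD_eq (σ : ℝ) (hσ : σ = 1 ∨ σ = -1) (u : ZZ d → ell (ZZ d)) (i : Fin d) (x : ZZ d) :
    lifD σ u i x = ‖u x‖ ^ 2 + ‖u (x + ee d i)‖ ^ 2
      - σ * (2 * (⟪u x, u (x + ee d i)⟫_ℂ).re) := by
  unfold lifD
  have h1 := @norm_sub_sq ℂ _ _ _ _ (u x) ((σ : ℂ) • u (x + ee d i))
  rw [h1, inner_smul_right, norm_smul]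
  have h2 : ‖(σ : ℂ)‖ = 1 := by rcases hσ with h | h <;> simp [h]
  rw [h2]
  have h3 : RCLike.re ((σ : ℂ) * ⟪u x, u (x + ee d i)⟫_ℂ) = σ * (⟪u x, u (x + ee d i)⟫_ℂ).re := by
    show ((σ : ℂ) * ⟪u x, u (x + ee d i)⟫_ℂ).re = _
    rw [Complex.re_ofReal_mul]
  rw [h3]
  ring

/-- the Dirichlet form of `u` in terms of bonds -/
lemma lif_bonds (σ : ℝ) (hσ : σ = 1 ∨ σ = -1) (L M : ℕ) (hM : L + 1 ≤ M)
    (u : ZZ d → ell (ZZ d)) (hu : ∀ x, L < n1 x → u x = 0) :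
    ∑ x ∈ ball d M, ∑ i, lifD σ u i x
      = 2 * d * ∑ x ∈ ball d L, ‖u x‖ ^ 2
        - σ * ∑ x ∈ ball d L, ∑ i, 2 * (⟪u x, u (x + ee d i)⟫_ℂ).re := by
  have hsub : ball d L ⊆ ball d M := ball_mono (by omega)
  have hu2 : ∀ x, L < n1 x → ‖u x‖ ^ 2 = 0 := fun x hx => by rw [hu x hx]; simp
  rw [Finset.sum_comm]
  have h1 : ∀ i : Fin d, ∑ x ∈ ball d M, lifD σ u i x
      = 2 * (∑ x ∈ ball d L, ‖u x‖ ^ 2)
        - σ * ∑ x ∈ ball d L, 2 * (⟪u x, u (x + ee d i)⟫_ℂ).re := by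
    intro i
    rw [Finset.sum_congr rfl fun x _ => lifD_eq σ hσ u i x, Finset.sum_sub_distrib,
      Finset.sum_add_distrib, lif_sum_sub _ L hu2 _ hsub,
      lif_sum_shift (fun x => ‖u x‖ ^ 2) L M hM hu2 i, ← Finset.mul_sum,
      lif_sum_sub (fun x => 2 * (⟪u x, u (x + ee d i)⟫_ℂ).re) L
        (fun x hx => by rw [hu x hx]; simp) _ hsub]
    ring
  rw [Finset.sum_congr rfl fun i _ => h1 i, Finset.sum_sub_distrib, Finset.sum_const,
    Finset.card_univ, Fintype.card_fin, nsmul_eq_mul, ← Finset.mul_sum, Finset.sum_comm]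
  ring

/-! ### Decomposition into segments -/

/-- the starting point of the segment containing `x` -/
def lifB (i0 : Fin d) (m : ℕ) (x : ZZ d) : ZZ d := x - (x i0 % ((2 * m : ℕ) : ℤ)) • ee d i0

lemma lif_ee_self (i0 : Fin d) : ee d i0 i0 = 1 := by simp [ee]

lemma n1_zsmul_ee (i0 : Fin d) (k : ℤ) : n1 (k • ee d i0) = k.natAbs := by
  unfold n1 ee
  rw [Finset.sum_eq_single i0]
  · simp
  · intro j _ hj; simp [Pi.single_eq_of_ne hj]
  · intro h; exact absurd (Finset.mem_univ i0) h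

lemma lifB_dvd (i0 : Fin d) (m : ℕ) (x : ZZ d) : ((2 * m : ℕ) : ℤ) ∣ lifB i0 m x i0 := by
  have h : lifB i0 m x i0 = x i0 - x i0 % ((2 * m : ℕ) : ℤ) := by
    simp [lifB, lif_ee_self]
  rw [h]
  exact Int.dvd_self_sub_emod

lemma lifB_spec (i0 : Fin d) (m : ℕ) (hm : 0 < m) (x : ZZ d) :
    ∃ j ∈ Finset.range (2 * m), lifB i0 m x + ((j : ℕ) : ℤ) • ee d i0 = x := by
  have h0 : (0 : ℤ) < ((2 * m : ℕ) : ℤ) := by exact_mod_cast (by omega : 0 < 2 * m)
  have h1 := Int.emod_nonneg (x i0) h0.ne'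
  have h2 := Int.emod_lt_of_pos (x i0) h0
  refine ⟨(x i0 % ((2 * m : ℕ) : ℤ)).toNat, ?_, ?_⟩
  · rw [Finset.mem_range]; omega
  · rw [Int.toNat_of_nonneg h1]
    unfold lifB
    abel

lemma lifB_n1 (i0 : Fin d) (m : ℕ) (hm : 0 < m) (x : ZZ d) : n1 (lifB i0 m x) ≤ n1 x + 2 * m := by
  have h0 : (0 : ℤ) < ((2 * m : ℕ) : ℤ) := by exact_mod_cast (by omega : 0 < 2 * m)
  have h1 := Int.emod_nonneg (x i0) h0.ne'
  have h2 := Int.emod_lt_of_pos (x i0) h0
  have h3 := n1_add x (-((x i0 % ((2 * m : ℕ) : ℤ)) • ee d i0))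
  rw [n1_neg, n1_zsmul_ee, ← sub_eq_add_neg] at h3
  have h4 : n1 (lifB i0 m x) = n1 (x - (x i0 % ((2 * m : ℕ) : ℤ)) • ee d i0) := rfl
  omega

/-- A16 -/
theorem lif : StmtLif := by
  classical
  intro d i0 a b σ m L hab hm hσ E hE1 hE2 W hW hbad u hu
  have hm' : (0 : ℝ) < m := by exact_mod_cast hm
  have hm2 : (0 : ℝ) < 16 * (m : ℝ) ^ 2 := by positivity
  -- the potential
  have hq0 : ∀ x, 0 ≤ qv σ a b W x := by
    intro x
    unfold qv
    split_ifs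
    · linarith [(hW x).1]
    · linarith [(hW x).2]
  have hpot : ∀ x, qv σ a b W x + 2 * d - 1 / (16 * (m : ℝ) ^ 2) ≤ σ * (W x + 2 * d - E) := by
    intro x
    unfold qv
    rcases hσ with h | h
    · rw [if_pos h, h]
      have := hE1 h
      linarith
    · rw [if_neg (by rw [h]; norm_num), h]
      have := hE2 h
      linarith
  -- segments
  set Y : Finset (ZZ d) := (ball d L).image (lifB i0 m) with hY
  set φ : ZZ d × ℕ → ZZ d := fun p => p.1 + ((p.2 : ℕ) : ℤ) • ee d i0 with hφ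
  have hYdvd : ∀ y ∈ Y, ((2 * m : ℕ) : ℤ) ∣ y i0 := by
    intro y hy
    obtain ⟨x, _, rfl⟩ := Finset.mem_image.mp hy
    exact lifB_dvd i0 m x
  have hYn : ∀ y ∈ Y, n1 y ≤ L + 2 * m := by
    intro y hy
    obtain ⟨x, hx, rfl⟩ := Finset.mem_image.mp hy
    have := lifB_n1 i0 m hm x
    have := mem_ball.mp hx
    omega
  have hinj : Set.InjOn φ (Y ×ˢ Finset.range (2 * m) : Finset (ZZ d × ℕ)) := by
    rintro ⟨y, j⟩ hp ⟨y', j'⟩ hp' h
    rw [Finset.mem_coe, Finset.mem_product, Finset.mem_range] at hp hp'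
    simp only [hφ] at h
    have h1 := congrFun h i0
    simp only [Pi.add_apply, Pi.smul_apply, lif_ee_self, smul_eq_mul, mul_one] at h1
    obtain ⟨k, hk⟩ := hYdvd y hp.1
    obtain ⟨k', hk'⟩ := hYdvd y' hp'.1
    have hj := hp.2
    have hj' := hp'.2
    simp only at hj hj' hk hk'
    have h2 : k = k' := by
      rw [hk, hk'] at h1
      by_contra hne
      rcases lt_or_gt_of_ne hne with hlt | hlt
      · have h3 : k + 1 ≤ k' := hlt
        have h4 : ((2 * m : ℕ) : ℤ) * (k + 1) ≤ ((2 * m : ℕ) : ℤ) * k' :=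
          mul_le_mul_of_nonneg_left h3 (by positivity)
        push_cast at h1 h4
        have h5 : (j : ℤ) < 2 * m := by exact_mod_cast hj
        have h6 : (0 : ℤ) ≤ j' := by positivity
        nlinarith
      · have h3 : k' + 1 ≤ k := hlt
        have h4 : ((2 * m : ℕ) : ℤ) * (k' + 1) ≤ ((2 * m : ℕ) : ℤ) * k :=
          mul_le_mul_of_nonneg_left h3 (by positivity)
        push_cast at h1 h4
        have h5 : (j' : ℤ) < 2 * m := by exact_mod_cast hj'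
        have h6 : (0 : ℤ) ≤ j := by positivity
        nlinarith
    have h3 : j = j' := by
      rw [hk, hk', h2] at h1
      have : (j : ℤ) = j' := by linarith
      exact_mod_cast this
    subst h3
    have h4 : y = y' := add_right_cancel h
    rw [h4]
  set T : Finset (ZZ d) := (Y ×ˢ Finset.range (2 * m)).image φ with hT
  have hsumT : ∀ f : ZZ d → ℝ, ∑ x ∈ T, f x
      = ∑ y ∈ Y, ∑ j ∈ Finset.range (2 * m), f (y + ((j : ℕ) : ℤ) • ee d i0) := by
    intro f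
    rw [hT, Finset.sum_image hinj, Finset.sum_product]
  have hballT : ball d L ⊆ T := by
    intro x hx
    obtain ⟨j, hj, hxj⟩ := lifB_spec i0 m hm x
    rw [hT, Finset.mem_image]
    exact ⟨(lifB i0 m x, j), Finset.mem_product.mpr ⟨Finset.mem_image_of_mem _ hx, hj⟩, hxj⟩
  have hTball : T ⊆ ball d (L + 4 * m + 1) := by
    intro x hx
    rw [hT, Finset.mem_image] at hx
    obtain ⟨⟨y, j⟩, hp, rfl⟩ := hx
    rw [Finset.mem_product, Finset.mem_range] at hp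
    rw [mem_ball]
    have h1 := n1_add y (((j : ℕ) : ℤ) • ee d i0)
    rw [n1_zsmul_ee] at h1
    have h2 := hYn y hp.1
    have h3 := hp.2
    simp only at h3 h2
    have h4 : ((j : ℕ) : ℤ).natAbs = j := Int.natAbs_natCast j
    simp only [hφ]
    omega
  -- the inequality on one segment
  have hseg : ∀ y ∈ Y, ∑ j ∈ Finset.range (2 * m), ‖u (y + ((j : ℕ) : ℤ) • ee d i0)‖ ^ 2
      ≤ 8 * (m : ℝ) ^ 2 *
        (∑ j ∈ Finset.range (2 * m), lifD σ u i0 (y + ((j : ℕ) : ℤ) • ee d i0)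
        + ∑ j ∈ Finset.range (2 * m), qv σ a b W (y + ((j : ℕ) : ℤ) • ee d i0)
            * ‖u (y + ((j : ℕ) : ℤ) • ee d i0)‖ ^ 2) := by
    intro y hy
    set w : ℕ → ell (ZZ d) := fun j => (σ : ℂ) ^ j • u (y + ((j : ℕ) : ℤ) • ee d i0) with hw
    have hσn : ‖(σ : ℂ)‖ = 1 := by rcases hσ with h | h <;> simp [h]
    have hwn : ∀ j, ‖w j‖ = ‖u (y + ((j : ℕ) : ℤ) • ee d i0)‖ := by
      intro j
      simp only [hw]
      rw [norm_smul, norm_pow, hσn, one_pow, one_mul]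
    have hwd : ∀ j, ‖w j - w (j + 1)‖ ^ 2 = lifD σ u i0 (y + ((j : ℕ) : ℤ) • ee d i0) := by
      intro j
      have h1 : w j - w (j + 1) = (σ : ℂ) ^ j • (u (y + ((j : ℕ) : ℤ) • ee d i0)
          - (σ : ℂ) • u (y + ((j : ℕ) : ℤ) • ee d i0 + ee d i0)) := by
        simp only [hw]
        have h2 : y + (((j + 1 : ℕ) : ℕ) : ℤ) • ee d i0
            = y + ((j : ℕ) : ℤ) • ee d i0 + ee d i0 := by
          push_cast
          rw [add_smul, one_smul, add_assoc]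
        rw [h2, smul_sub, smul_smul, pow_succ]
      rw [h1, norm_smul, norm_pow, hσn, one_pow, one_mul]
      rfl
    set G : Finset ℕ := (Finset.range (2 * m)).filter
      (fun j => 1 / (2 * (m : ℝ) ^ 2) ≤ qv σ a b W (y + ((j : ℕ) : ℤ) • ee d i0)) with hG
    have hGc : m ≤ G.card := by
      by_contra hlt
      rw [not_le] at hlt
      have h1 : ((Finset.range (2 * m)).filter
          (fun j => ¬ 1 / (2 * (m : ℝ) ^ 2) ≤ qv σ a b W (y + ((j : ℕ) : ℤ) • ee d i0))).card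
          + G.card = 2 * m := by
        have := Finset.card_filter_add_card_filter_not (s := Finset.range (2 * m))
          (fun j => 1 / (2 * (m : ℝ) ^ 2) ≤ qv σ a b W (y + ((j : ℕ) : ℤ) • ee d i0))
        rw [Finset.card_range] at this
        rw [hG]; omega
      obtain ⟨S, hS, hScard⟩ := Finset.exists_subset_card_eq (s := (Finset.range (2 * m)).filter
          (fun j => ¬ 1 / (2 * (m : ℝ) ^ 2) ≤ qv σ a b W (y + ((j : ℕ) : ℤ) • ee d i0)))
          (n := m) (by omega)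
      refine hbad ⟨y, mem_ball.mpr (hYn y hy), hYdvd y hy, S,
        hS.trans (Finset.filter_subset _ _), hScard, fun j hj => ?_⟩
      exact not_le.mp (Finset.mem_filter.mp (hS hj)).2
    have h := lif_seg w (fun j => qv σ a b W (y + ((j : ℕ) : ℤ) • ee d i0)) m hm G
      (Finset.filter_subset _ _) hGc (fun j => hq0 _) (fun j hj => (Finset.mem_filter.mp hj).2)
    simp only [hwn, hwd] at h
    exact h
  -- sum over the segments
  set S0 : ℝ := ∑ x ∈ ball d L, ‖u x‖ ^ 2 with hS0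
  set Q0 : ℝ := ∑ x ∈ ball d L, qv σ a b W x * ‖u x‖ ^ 2 with hQ0
  set D0 : ℝ := ∑ x ∈ ball d (L + 4 * m + 1), ∑ i, lifD σ u i x with hD0
  have h1 : S0 ≤ 8 * (m : ℝ) ^ 2 * (D0 + Q0) := by
    have h2 : S0 ≤ ∑ x ∈ T, ‖u x‖ ^ 2 :=
      Finset.sum_le_sum_of_subset_of_nonneg hballT fun _ _ _ => by positivity
    have h3 : ∑ x ∈ T, ‖u x‖ ^ 2 ≤ 8 * (m : ℝ) ^ 2 *
        (∑ x ∈ T, lifD σ u i0 x + ∑ x ∈ T, qv σ a b W x * ‖u x‖ ^ 2) := by
      rw [hsumT, hsumT, hsumT, ← Finset.sum_add_distrib, Finset.mul_sum]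
      exact Finset.sum_le_sum hseg
    have h4 : ∑ x ∈ T, lifD σ u i0 x ≤ D0 := by
      have h5 : ∑ x ∈ T, lifD σ u i0 x ≤ ∑ x ∈ ball d (L + 4 * m + 1), lifD σ u i0 x :=
        Finset.sum_le_sum_of_subset_of_nonneg hTball fun x _ _ => lifD_nonneg _ _ _ _
      refine h5.trans (Finset.sum_le_sum fun x _ => ?_)
      exact Finset.single_le_sum (f := fun i => lifD σ u i x)
        (fun i _ => lifD_nonneg _ _ _ _) (Finset.mem_univ i0)
    have h6 : ∑ x ∈ T, qv σ a b W x * ‖u x‖ ^ 2 = Q0 :=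
      lif_sum_sub (fun x => qv σ a b W x * ‖u x‖ ^ 2) L
        (fun x hx => by rw [hu x hx]; simp) T hballT
    refine h2.trans (h3.trans ?_)
    refine mul_le_mul_of_nonneg_left ?_ (by positivity)
    rw [h6]
    linarith
  have h2 := lif_bonds σ hσ L (L + 4 * m + 1) (by omega) u hu
  rw [← hD0, ← hS0] at h2
  have h3 : Q0 + 2 * d * S0 - 1 / (16 * (m : ℝ) ^ 2) * S0
      ≤ σ * ∑ x ∈ ball d L, (W x + 2 * d - E) * ‖u x‖ ^ 2 := by
    rw [hQ0, hS0, Finset.mul_sum, Finset.mul_sum, Finset.mul_sum, ← Finset.sum_add_distrib,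
      ← Finset.sum_sub_distrib]
    refine Finset.sum_le_sum fun x _ => ?_
    have h4 := mul_le_mul_of_nonneg_right (hpot x) (by positivity : (0 : ℝ) ≤ ‖u x‖ ^ 2)
    linarith
  rw [mul_sub]
  have h5 : 1 / (8 * (m : ℝ) ^ 2) * S0 ≤ D0 + Q0 := by
    rw [one_div, inv_mul_le_iff₀ (by positivity)]
    exact h1
  have h6 : 1 / (8 * (m : ℝ) ^ 2) = 2 * (1 / (16 * (m : ℝ) ^ 2)) := by
    field_simp
    norm_num
  rw [h6] at h5
  linarith

end Pool.SU
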