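import Mathlib
import Pool.Agent.SU.Base

/-!
# Probability of a bad segment
-/

set_option autoImplicit false
set_option linter.unusedSectionVars false

open Complex MeasureTheory Filter Topology Set ContinuousLinearMap
open scoped InnerProductSpace ENNReal NNReal

namespace Pool.SU

open Pool.NB Pool.SB

variable {d : ℕ}

/-- the one-site bad set -/
def lifPset (σ a b r : ℝ) : Set ℝ := {β : ℝ | (if σ = 1 then β - a else b - β) < r}

lemma lifP_meas (σ a b r : ℝ) : MeasurableSet (lifPset σ a b r) := by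
  unfold lifPset
  split_ifs
  · exact measurableSet_lt (measurable_id.sub_const a) measurable_const
  · exact measurableSet_lt (measurable_const.sub measurable_id) measurable_const

lemma lifP_one {μ : Measure ℝ} [IsProbabilityMeasure μ] {a b c C : ℝ} (hμ : Uni μ a b c C)
    (σ r : ℝ) : μ (lifPset σ a b r) ≤ ENNReal.ofReal (C * r) := by
  have hC := hμ.C_pos
  refine (hμ.hi _ (lifP_meas σ a b r)).trans ?_
  rw [ENNReal.ofReal_mul hC.le]
  refine mul_le_mul_right ?_ _
  have : lifPset σ a b r ∩ Icc a b ⊆ if σ = 1 then Icc a (a + r) else Icc (b - r) b := by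
    intro β hβ
    obtain ⟨h1, h2, h3⟩ := hβ
    unfold lifPset at h1
    by_cases hs : σ = 1
    · simp only [hs, if_true, mem_ofPred_eq] at h1 ⊢
      exact ⟨h2, by linarith⟩
    · simp only [hs, if_false, mem_ofPred_eq] at h1 ⊢
      exact ⟨by linarith, h3⟩
  refine (measure_mono this).trans (le_of_eq ?_)
  by_cases hs : σ = 1
  · simp only [hs, if_true]
    rw [Real.volume_Icc]; congr 1; ring
  · simp only [hs, if_false]
    rw [Real.volume_Icc]; congr 1; ring

lemma lifP_seg {μ : Measure ℝ} [IsProbabilityMeasure μ] {a b c C : ℝ} (hμ : Uni μ a b c C)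
    (i0 : Fin d) (σ r : ℝ) (y : ZZ d) (S : Finset ℕ) :
    (PP (ZZ d) μ) {W | ∀ j ∈ S, qv σ a b W (y + (j : ℤ) • ee d i0) < r}
      ≤ ENNReal.ofReal (C * r) ^ S.card := by
  classical
  have hinj : Function.Injective (fun j : ℕ => y + (j : ℤ) • ee d i0) := by
    intro j k hjk
    have h1 := congrFun hjk i0
    simp [ee] at h1
    exact h1
  have h1 : {W : ZZ d → ℝ | ∀ j ∈ S, qv σ a b W (y + (j : ℤ) • ee d i0) < r}
      = {W | ∀ x ∈ S.image (fun j : ℕ => y + (j : ℤ) • ee d i0),
          W x ∈ (fun _ => lifPset σ a b r) x} := by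
    ext W
    simp only [mem_ofPred_eq, Finset.mem_image, forall_exists_index, and_imp,
      forall_apply_eq_imp_iff₂]
    rfl
  rw [h1, PP_cyl μ _ (fun _ => lifPset σ a b r) (fun _ _ => lifP_meas σ a b r),
    Finset.prod_const, Finset.card_image_of_injective _ hinj]
  exact pow_le_pow_left' (lifP_one hμ σ r) _

theorem lifP : StmtLifP := by
  intro μ _ a b c C hμ d i0 σ m L hm
  classical
  have hC := hμ.C_pos
  set r : ℝ := 1 / (2 * (m : ℝ) ^ 2) with hr
  have hm' : (0 : ℝ) < m := by exact_mod_cast hm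
  have hr0 : 0 < r := by rw [hr]; positivity
  have hsub : badSeg σ a b i0 m L ⊆ ⋃ y ∈ ball d (L + 2 * m),
      ⋃ S ∈ (Finset.range (2 * m)).powersetCard m,
        {W : ZZ d → ℝ | ∀ j ∈ S, qv σ a b W (y + (j : ℤ) • ee d i0) < r} := by
    intro W hW
    obtain ⟨y, hy, _, S, hS, hSc, hq⟩ := hW
    simp only [mem_iUnion]
    exact ⟨y, hy, S, Finset.mem_powersetCard.2 ⟨hS, hSc⟩, hq⟩
  refine (measure_mono hsub).trans ?_
  refine (measure_biUnion_finset_le _ _).trans ?_
  have hy : ∀ y ∈ ball d (L + 2 * m), (PP (ZZ d) μ)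
      (⋃ S ∈ (Finset.range (2 * m)).powersetCard m,
        {W : ZZ d → ℝ | ∀ j ∈ S, qv σ a b W (y + (j : ℤ) • ee d i0) < r})
      ≤ ENNReal.ofReal ((2 * C / (m : ℝ) ^ 2) ^ m) := by
    intro y _
    refine (measure_biUnion_finset_le _ _).trans ?_
    have hS : ∀ S ∈ (Finset.range (2 * m)).powersetCard m, (PP (ZZ d) μ)
        {W : ZZ d → ℝ | ∀ j ∈ S, qv σ a b W (y + (j : ℤ) • ee d i0) < r}
        ≤ ENNReal.ofReal ((C * r) ^ m) := by
      intro S hS
      have h1 := lifP_seg hμ i0 σ r y S
      rw [(Finset.mem_powersetCard.1 hS).2, ← ENNReal.ofReal_pow (by positivity)] at h1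
      exact h1
    refine (Finset.sum_le_sum hS).trans ?_
    rw [Finset.sum_const, Finset.card_powersetCard, Finset.card_range, nsmul_eq_mul,
      ← ENNReal.ofReal_natCast, ← ENNReal.ofReal_mul (by positivity)]
    apply ENNReal.ofReal_le_ofReal
    have h4 : ((2 * m).choose m : ℝ) ≤ 4 ^ m := by
      have := Nat.choose_le_two_pow (2 * m) m
      have h5 : (2 : ℕ) ^ (2 * m) = 4 ^ m := by rw [pow_mul]; norm_num
      rw [h5] at this
      exact_mod_cast this
    calc ((2 * m).choose m : ℝ) * (C * r) ^ m ≤ 4 ^ m * (C * r) ^ m :=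
          mul_le_mul_of_nonneg_right h4 (by positivity)
      _ = (2 * C / (m : ℝ) ^ 2) ^ m := by
          rw [← mul_pow, hr]
          congr 1
          field_simp
          ring
  refine (Finset.sum_le_sum hy).trans ?_
  rw [Finset.sum_const, nsmul_eq_mul, ← ENNReal.ofReal_natCast, ← ENNReal.ofReal_mul (by positivity)]
  apply ENNReal.ofReal_le_ofReal
  refine mul_le_mul_of_nonneg_right ?_ (by positivity)
  have := card_ball_le d (L + 2 * m)
  exact_mod_cast this

end Pool.SU
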