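import Pool.Agent.SU.Defs

/-!
# Mass bound
-/

set_option autoImplicit false

open MeasureTheory Filter Topology Set
open scoped ENNReal NNReal

namespace Pool.SU

open Pool.NB Pool.SB

lemma mass_summable (d : ℕ) (C τ : ℝ) (h0 : 0 < τ) (h1 : τ < 1) :
    Summable (fun n : ℕ => (2 * (n : ℝ) + 1) ^ d * (τ ^ n * (1 + (C * n) ^ 2))) := by
  have hs : Summable (fun n : ℕ => ((n : ℝ)) ^ (d + 2) * τ ^ n) :=
    summable_pow_mul_geometric_of_norm_lt_one (d + 2) (by rw [Real.norm_eq_abs, abs_of_pos h0]; exact h1)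
  have hs1 : Summable (fun n : ℕ => (((n + 1 : ℕ) : ℝ)) ^ (d + 2) * τ ^ (n + 1)) :=
    (summable_nat_add_iff 1).mpr hs
  have hs2 := hs1.mul_left (2 ^ d * (1 + C ^ 2) * τ⁻¹)
  refine Summable.of_nonneg_of_le (fun n => by positivity) (fun n => ?_) hs2
  have hn : (0 : ℝ) ≤ n := Nat.cast_nonneg n
  have e1 : (2 * (n : ℝ) + 1) ^ d ≤ 2 ^ d * ((n : ℝ) + 1) ^ d := by
    rw [← mul_pow]
    exact pow_le_pow_left₀ (by positivity) (by linarith) d
  have e2 : (1 + (C * n) ^ 2) ≤ (1 + C ^ 2) * ((n : ℝ) + 1) ^ 2 := by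
    have : 0 ≤ C ^ 2 := sq_nonneg C
    nlinarith [mul_nonneg this hn, sq_nonneg (n : ℝ)]
  have e3 : (((n + 1 : ℕ) : ℝ)) = (n : ℝ) + 1 := by push_cast; ring
  rw [e3]
  calc (2 * (n : ℝ) + 1) ^ d * (τ ^ n * (1 + (C * n) ^ 2))
      ≤ (2 ^ d * ((n : ℝ) + 1) ^ d) * (τ ^ n * ((1 + C ^ 2) * ((n : ℝ) + 1) ^ 2)) := by
        refine mul_le_mul e1 (mul_le_mul_of_nonneg_left e2 (by positivity)) (by positivity)
          (by positivity)
    _ = 2 ^ d * (1 + C ^ 2) * τ⁻¹ * (((n : ℝ) + 1) ^ (d + 2) * τ ^ (n + 1)) := by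
        have : τ ≠ 0 := h0.ne'
        field_simp
        ring

theorem mass : StmtMass := by
  intro d X τ h0 h1
  set C : ℝ := ∑ i, |X (ee d i)| with hC
  have hC0 : 0 ≤ C := Finset.sum_nonneg fun i _ => abs_nonneg _
  set h : ℕ → ℝ := fun n => τ ^ n * (1 + (C * n) ^ 2) with hh
  have hh0 : ∀ n, 0 ≤ h n := fun n => by simp only [hh]; positivity
  have hsum := mass_summable d C τ h0 h1
  refine ⟨(∑' n : ℕ, (2 * (n : ℝ) + 1) ^ d * h n) + 1, ?_, ?_⟩
  · have : 0 ≤ ∑' n : ℕ, (2 * (n : ℝ) + 1) ^ d * h n :=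
      tsum_nonneg fun n => mul_nonneg (by positivity) (hh0 n)
    linarith
  classical
  calc ∑' x : ZZ d, ENNReal.ofReal (τ ^ (n1 x) * (1 + (X x) ^ 2))
      ≤ ∑' x : ZZ d, ∑' n : ℕ, (if n1 x = n then ENNReal.ofReal (h n) else 0) := by
        refine ENNReal.tsum_le_tsum fun x => ?_
        have e : ∑' n : ℕ, (if n1 x = n then ENNReal.ofReal (h n) else 0) =
            ENNReal.ofReal (h (n1 x)) := by
          rw [tsum_eq_single (n1 x)]
          · simp
          · intro n hn
            rw [if_neg (fun h => hn h.symm)]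
        rw [e]
        refine ENNReal.ofReal_le_ofReal ?_
        simp only [hh]
        refine mul_le_mul_of_nonneg_left ?_ (by positivity)
        have := X_abs_le X x
        have h2 : (X x) ^ 2 ≤ (C * n1 x) ^ 2 := by
          rw [← sq_abs (X x)]
          exact pow_le_pow_left₀ (abs_nonneg _) this 2
        linarith
    _ = ∑' n : ℕ, ∑' x : ZZ d, (if n1 x = n then ENNReal.ofReal (h n) else 0) :=
        ENNReal.tsum_comm
    _ ≤ ∑' n : ℕ, ENNReal.ofReal ((2 * (n : ℝ) + 1) ^ d * h n) := by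
        refine ENNReal.tsum_le_tsum fun n => ?_
        have e : ∑' x : ZZ d, (if n1 x = n then ENNReal.ofReal (h n) else 0) =
            ∑ x ∈ ball d n, (if n1 x = n then ENNReal.ofReal (h n) else 0) := by
          refine tsum_eq_sum fun x hx => ?_
          rw [if_neg]
          intro hx'
          exact hx (mem_ball.mpr hx'.le)
        rw [e]
        calc ∑ x ∈ ball d n, (if n1 x = n then ENNReal.ofReal (h n) else 0)
            ≤ ∑ x ∈ ball d n, ENNReal.ofReal (h n) := by
              refine Finset.sum_le_sum fun x _ => ?_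
              split_ifs
              · exact le_rfl
              · exact bot_le
          _ = ((ball d n).card : ℝ≥0∞) * ENNReal.ofReal (h n) := by
              rw [Finset.sum_const, nsmul_eq_mul]
          _ ≤ ENNReal.ofReal ((2 * (n : ℝ) + 1) ^ d * h n) := by
              rw [ENNReal.ofReal_mul (p := (2 * (n : ℝ) + 1) ^ d) (by positivity)]
              refine mul_le_mul' ?_ le_rfl
              have h3 := card_ball_le d n
              have h4 : ((ball d n).card : ℝ≥0∞) ≤ (((2 * n + 1) ^ d : ℕ) : ℝ≥0∞) := by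
                exact_mod_cast h3
              refine h4.trans (le_of_eq ?_)
              rw [← ENNReal.ofReal_natCast]
              congr 1
              push_cast
              ring
    _ = ENNReal.ofReal (∑' n : ℕ, (2 * (n : ℝ) + 1) ^ d * h n) := by
        rw [ENNReal.ofReal_tsum_of_nonneg (fun n => mul_nonneg (by positivity) (hh0 n)) hsum]
    _ ≤ ENNReal.ofReal ((∑' n : ℕ, (2 * (n : ℝ) + 1) ^ d * h n) + 1) :=
        ENNReal.ofReal_le_ofReal (by linarith)

end Pool.SU
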