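import Mathlib
import Pool.Agent.SU.Defs

/-!
# A22: integration over the energy
-/

set_option autoImplicit false
set_option linter.unusedSectionVars false
set_option linter.unusedVariables false

open Complex MeasureTheory Filter Topology Set ContinuousLinearMap
open scoped InnerProductSpace ENNReal NNReal

namespace Pool.SU

open Pool.NB Pool.SB

variable {d : ℕ}

lemma nim_QQ_meas2 {ε : ℝ} (hε : 0 < ε) :
    Measurable (Function.uncurry fun (E : ℝ) (W : ZZ d → ℝ) =>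
      ENNReal.ofReal (‖Rp (ee d) E ε W (dl 0)‖ ^ 2)) :=
  (((Rp_ME (ee d) hε).sm (dl 0)).norm.pow 2).measurable.ennreal_ofReal

lemma nim_QQ_meas (μ : Measure ℝ) [IsProbabilityMeasure μ] {ε : ℝ} (hε : 0 < ε) :
    Measurable (fun E : ℝ => QQ μ d E ε) :=
  (nim_QQ_meas2 hε).lintegral_prod_right

lemma nim_QQ_int (μ : Measure ℝ) [IsProbabilityMeasure μ] {ε : ℝ} (hε : 0 < ε) :
    ∫⁻ E : ℝ, QQ μ d E ε = ENNReal.ofReal (Real.pi / ε) := by
  unfold QQ
  rw [lintegral_lintegral_swap (nim_QQ_meas2 hε).aemeasurable]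
  have h1 : ∀ W : ZZ d → ℝ, ∫⁻ E : ℝ, ENNReal.ofReal (‖Rp (ee d) E ε W (dl 0)‖ ^ 2)
      = ENNReal.ofReal (Real.pi / ε) := by
    intro W
    rw [Rp_plancherel (ee d) W hε, dl_norm, one_pow, mul_one]
  simp_rw [h1]
  rw [lintegral_const, measure_univ, mul_one]

lemma nim_SE_int (μ : Measure ℝ) [IsProbabilityMeasure μ] (X : ZZ d →+ ℝ) {ε : ℝ} (hε : 0 < ε) :
    ∫⁻ E : ℝ, SE μ X E ε ≤ ENNReal.ofReal (9 * Real.pi / ε ^ 3) *
      ∫⁻ W, ENNReal.ofReal (‖DD (ee d) X ε W (dl 0)‖ ^ 2) ∂(PP (ZZ d) μ) := by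
  have hpi := Real.pi_pos
  unfold SE
  rw [lintegral_const_mul' _ _ ENNReal.ofReal_ne_top]
  calc ENNReal.ofReal (1 / ε ^ 2) *
        ∫⁻ E : ℝ, ∫⁻ W, ENNReal.ofReal (BB (ee d) X E ε W ^ 2) ∂(PP (ZZ d) μ)
      ≤ ENNReal.ofReal (1 / ε ^ 2) * (ENNReal.ofReal (9 * Real.pi / ε) *
        ∫⁻ W, ENNReal.ofReal (‖DD (ee d) X ε W (dl 0)‖ ^ 2) ∂(PP (ZZ d) μ)) := by
        gcongr
        exact BB_int μ (ee d) X hε
    _ = _ := by
        rw [← mul_assoc, ← ENNReal.ofReal_mul (by positivity)]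
        congr 2
        field_simp

lemma nim_NI_le (μ : Measure ℝ) [IsProbabilityMeasure μ] (X : ZZ d →+ ℝ) {ε : ℝ} (hε : 0 < ε) :
    ENNReal.ofReal (NI μ (ee d) X ε)
      ≤ ENNReal.ofReal (4 * ε ^ 3 / Real.pi) * ∫⁻ E : ℝ, MM μ X E ε := by
  have hFFi : Integrable (fun W => ‖FF (ee d) X ε W‖ ^ 2) (PP (ZZ d) μ) := by
    refine Integrable.of_bound ((FF_sm (ee d) X hε).norm.pow 2).aestronglyMeasurable
      (‖Vel (ee d) X‖ ^ 2) (Eventually.of_forall fun W => ?_)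
    rw [Real.norm_of_nonneg (sq_nonneg _)]
    exact pow_le_pow_left₀ (norm_nonneg _) (FF_norm (ee d) X hε W) 2
  have hL : ENNReal.ofReal (NI μ (ee d) X ε) = ∫⁻ W, ENNReal.ofReal (‖Jp (ee d) X ε W (dl 0)‖ ^ 2)
      ∂(PP (ZZ d) μ) := by
    unfold NI
    rw [ofReal_integral_eq_lintegral_ofReal hFFi (Eventually.of_forall fun W => sq_nonneg _)]
    refine lintegral_congr fun W => ?_
    rw [FF_eq (ee d) X hε]
  have hTm : Measurable (fun p : ℝ × (ZZ d → ℝ) =>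
      ENNReal.ofReal (‖TT (ee d) X p.1 ε p.2 (dl 0)‖ ^ 2)) :=
    ((TT_meas (ee d) X hε 0).norm.pow 2).measurable.ennreal_ofReal
  rw [hL]
  calc ∫⁻ W, ENNReal.ofReal (‖Jp (ee d) X ε W (dl 0)‖ ^ 2) ∂(PP (ZZ d) μ)
      ≤ ∫⁻ W, (ENNReal.ofReal (4 * ε ^ 3 / Real.pi) *
          ∫⁻ E : ℝ, ENNReal.ofReal (‖TT (ee d) X E ε W (dl 0)‖ ^ 2)) ∂(PP (ZZ d) μ) :=
        lintegral_mono fun W => J_lower (ee d) X W hε
    _ = ENNReal.ofReal (4 * ε ^ 3 / Real.pi) *
          ∫⁻ E : ℝ, ∫⁻ W, ENNReal.ofReal (‖TT (ee d) X E ε W (dl 0)‖ ^ 2) ∂(PP (ZZ d) μ) := by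
        rw [lintegral_const_mul' _ _ ENNReal.ofReal_ne_top]
        congr 1
        exact lintegral_lintegral_swap (hTm.comp measurable_swap).aemeasurable
    _ = _ := rfl

theorem NI_of : StmtFixed → StmtOut → StmtNI := by
  intro hFixed hOut μ _ a b c C hμ d hd X
  obtain ⟨E1, K2, hE1, hK2, hout⟩ := hOut μ a b c C hμ d X
  obtain ⟨K1, ε0, hK1, hε0, hε01, hfix⟩ := hFixed μ a b c C hμ d hd X E1 hE1
  have hpi := Real.pi_pos
  have hpi1 : 1 ≤ Real.pi := by linarith [Real.pi_gt_three]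
  refine ⟨292 * K1 + 4 * (2 * E1 * K1 + K2), ε0, by positivity, hε0, hε01, fun ε hε hεε => ?_⟩
  have hε1 : ε ≤ 1 := hεε.trans hε01
  set A : Set ℝ := {E : ℝ | |E| ≤ E1} with hA
  have hAm : MeasurableSet A := measurableSet_le measurable_norm measurable_const
  have hAc : Aᶜ = {E : ℝ | E1 < |E|} := by
    ext E
    simp [hA]
  have hvol : volume A = ENNReal.ofReal (2 * E1) := by
    have h1 : A = Icc (-E1) E1 := by
      ext E
      simp [hA, abs_le]
    rw [h1, Real.volume_Icc]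
    congr 1
    ring
  have hDDi : Integrable (fun W => ‖DD (ee d) X ε W (dl 0)‖ ^ 2) (PP (ZZ d) μ) := by
    simp_rw [DD_dl (ee d) X hε]
    refine Integrable.of_bound
      (((FF_sm (ee d) X hε).sub (FB_sm (ee d) X hε)).norm.pow 2).aestronglyMeasurable
      ((‖Vel (ee d) X‖ + ‖Vel (ee d) X‖) ^ 2) (Eventually.of_forall fun W => ?_)
    rw [Real.norm_of_nonneg (sq_nonneg _)]
    exact pow_le_pow_left₀ (norm_nonneg _)
      ((norm_sub_le _ _).trans (add_le_add (FF_norm (ee d) X hε W) (FB_norm (ee d) X hε W))) 2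
  set D : ℝ := ∫ W, ‖DD (ee d) X ε W (dl 0)‖ ^ 2 ∂(PP (ZZ d) μ) with hD
  have hRt : ENNReal.ofReal D
      = ∫⁻ W, ENNReal.ofReal (‖DD (ee d) X ε W (dl 0)‖ ^ 2) ∂(PP (ZZ d) μ) :=
    ofReal_integral_eq_lintegral_ofReal hDDi (Eventually.of_forall fun W => sq_nonneg _)
  have hD0 : 0 ≤ D := integral_nonneg fun W => sq_nonneg _
  have hDle : D ≤ 8 * (NI μ (ee d) X ε - NI μ (ee d) X (ε / 2)) := DD_le μ (ee d) X hε
  have hin : ∫⁻ E in A, MM μ X E ε
      ≤ ENNReal.ofReal (K1 * (9 * Real.pi / ε ^ 3 * D + Real.pi / ε + 2 * E1)) := by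
    have hQm := nim_QQ_meas (d := d) μ hε
    calc ∫⁻ E in A, MM μ X E ε
        ≤ ∫⁻ E in A, ENNReal.ofReal K1 * (SE μ X E ε + QQ μ d E ε + 1) :=
          setLIntegral_mono' hAm fun E hE => hfix E ε hE hε hεε
      _ = ENNReal.ofReal K1 * ((∫⁻ E in A, SE μ X E ε) + (∫⁻ E in A, QQ μ d E ε)
            + ENNReal.ofReal (2 * E1)) := by
          rw [lintegral_const_mul' _ _ ENNReal.ofReal_ne_top,
            lintegral_add_right _ measurable_const, lintegral_add_right _ hQm,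
            lintegral_const, one_mul, Measure.restrict_apply_univ, hvol]
      _ ≤ ENNReal.ofReal K1 * (ENNReal.ofReal (9 * Real.pi / ε ^ 3) * ENNReal.ofReal D
            + ENNReal.ofReal (Real.pi / ε) + ENNReal.ofReal (2 * E1)) := by
          gcongr
          · refine (setLIntegral_le_lintegral _ _).trans ?_
            rw [hRt]
            exact nim_SE_int μ X hε
          · refine (setLIntegral_le_lintegral _ _).trans ?_
            rw [nim_QQ_int μ hε]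
      _ = _ := by
          rw [← ENNReal.ofReal_mul (by positivity), ← ENNReal.ofReal_add (by positivity)
            (by positivity), ← ENNReal.ofReal_add (by positivity) (by positivity),
            ← ENNReal.ofReal_mul hK1.le]
  have hall : ∫⁻ E : ℝ, MM μ X E ε
      ≤ ENNReal.ofReal (K1 * (9 * Real.pi / ε ^ 3 * D + Real.pi / ε + 2 * E1) + K2) := by
    rw [← lintegral_add_compl _ hAm, hAc, ENNReal.ofReal_add (by positivity) hK2.le]
    exact add_le_add hin (hout ε hε hε1)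
  have hmain : ENNReal.ofReal (NI μ (ee d) X ε) ≤ ENNReal.ofReal (4 * ε ^ 3 / Real.pi *
      (K1 * (9 * Real.pi / ε ^ 3 * D + Real.pi / ε + 2 * E1) + K2)) := by
    rw [ENNReal.ofReal_mul (by positivity)]
    refine (nim_NI_le μ X hε).trans ?_
    gcongr
  have hreal : NI μ (ee d) X ε ≤ 4 * ε ^ 3 / Real.pi *
      (K1 * (9 * Real.pi / ε ^ 3 * D + Real.pi / ε + 2 * E1) + K2) :=
    (ENNReal.ofReal_le_ofReal_iff (by positivity)).mp hmain
  have heq : 4 * ε ^ 3 / Real.pi *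
      (K1 * (9 * Real.pi / ε ^ 3 * D + Real.pi / ε + 2 * E1) + K2)
      = 36 * K1 * D + 4 * K1 * ε ^ 2 + 4 * ε ^ 3 / Real.pi * (2 * E1 * K1 + K2) := by
    field_simp
    ring
  have h3 : 4 * ε ^ 3 / Real.pi * (2 * E1 * K1 + K2) ≤ 4 * (2 * E1 * K1 + K2) * ε ^ 2 := by
    have h4 : 4 * ε ^ 3 / Real.pi ≤ 4 * ε ^ 2 := by
      rw [div_le_iff₀ hpi]
      have h5 : ε ^ 3 ≤ ε ^ 2 := pow_le_pow_of_le_one hε.le hε1 (by norm_num)
      nlinarith [sq_nonneg ε]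
    have h6 : 0 ≤ 2 * E1 * K1 + K2 := by positivity
    nlinarith [mul_le_mul_of_nonneg_right h4 h6]
  have hN0 : 0 ≤ NI μ (ee d) X ε - NI μ (ee d) X (ε / 2) := by linarith
  have h7 : 36 * K1 * D ≤ 288 * K1 * (NI μ (ee d) X ε - NI μ (ee d) X (ε / 2)) := by
    nlinarith [mul_le_mul_of_nonneg_left hDle (by positivity : (0:ℝ) ≤ 36 * K1)]
  have h8 : 0 ≤ (4 * K1 + 4 * (2 * E1 * K1 + K2)) *
      (NI μ (ee d) X ε - NI μ (ee d) X (ε / 2)) := by positivity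
  have h9 : 0 ≤ 288 * K1 * ε ^ 2 := by positivity
  rw [heq] at hreal
  nlinarith

end Pool.SU
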