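import Pool.Agent.SU.Defs

/-!
# A18: numerical choices
-/

set_option autoImplicit false

open Filter Topology

namespace Pool.SU

/-- the choice of `τ` -/
theorem num_tau (B : ℕ) (hB : 0 < B) : ∃ τ : ℝ, 0 < τ ∧ τ < 1 ∧ τ ^ (20 * B) = 1 / 2 := by
  have hB' : (0 : ℝ) < 20 * B := by positivity
  refine ⟨(2 : ℝ) ^ (-(1 / (20 * B : ℝ))), by positivity, ?_, ?_⟩
  · apply Real.rpow_lt_one_of_one_lt_of_neg (by norm_num)
    have : (0 : ℝ) < 1 / (20 * B) := by positivity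
    linarith
  · rw [← Real.rpow_natCast, ← Real.rpow_mul (by norm_num)]
    have h : -(1 / (20 * B : ℝ)) * ((20 * B : ℕ) : ℝ) = -1 := by
      push_cast
      field_simp
    rw [h, Real.rpow_neg_one]
    norm_num

/-- the choice of `k` -/
theorem num_k (d B : ℕ) (A : ℝ) : ∃ k : ℕ, 1 ≤ k ∧ A ≤ 2 ^ k / 2 ∧
    A * ((5 * B : ℝ) ^ d * ((k : ℝ) ^ d * Real.exp (-(k : ℝ)))) ≤ 1 ∧
    A * ((11 * B : ℝ) ^ (3 * d) * (((2 ^ k : ℕ) : ℝ) ^ (6 * d) * (1 / 2) ^ (2 ^ k))) ≤ 1 := by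
  have h1 : Tendsto (fun k : ℕ => A * ((5 * B : ℝ) ^ d * ((k : ℝ) ^ d * Real.exp (-(k : ℝ)))))
      atTop (𝓝 0) := by
    have := (Real.tendsto_pow_mul_exp_neg_atTop_nhds_zero d).comp tendsto_natCast_atTop_atTop
    have h2 := (this.const_mul ((5 * B : ℝ) ^ d)).const_mul A
    simpa using h2
  have h2 : Tendsto (fun k : ℕ => A * ((11 * B : ℝ) ^ (3 * d) *
      (((2 ^ k : ℕ) : ℝ) ^ (6 * d) * (1 / 2) ^ (2 ^ k)))) atTop (𝓝 0) := by
    have h3 : Tendsto (fun n : ℕ => (n : ℝ) ^ (6 * d) * (1 / 2 : ℝ) ^ n) atTop (𝓝 0) :=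
      tendsto_pow_const_mul_const_pow_of_abs_lt_one (6 * d) (by
        rw [abs_of_pos (by norm_num)]; norm_num)
    have h4 : Tendsto (fun k : ℕ => 2 ^ k) atTop atTop :=
      tendsto_pow_atTop_atTop_of_one_lt (by norm_num)
    have h5 := ((h3.comp h4).const_mul ((11 * B : ℝ) ^ (3 * d))).const_mul A
    simpa using h5
  have h3 : Tendsto (fun k : ℕ => (2 : ℝ) ^ k / 2) atTop atTop :=
    (tendsto_pow_atTop_atTop_of_one_lt (by norm_num)).atTop_div_const (by norm_num)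
  have e1 := h1.eventually (gt_mem_nhds (show (0 : ℝ) < 1 by norm_num))
  have e2 := h2.eventually (gt_mem_nhds (show (0 : ℝ) < 1 by norm_num))
  have e3 := h3.eventually_ge_atTop A
  obtain ⟨k, hk1, hk2, hk3, hk4⟩ := (e1.and (e2.and (e3.and (eventually_ge_atTop 1)))).exists
  exact ⟨k, hk4, hk3, hk1.le, hk2.le⟩

theorem num : StmtNum := by
  intro d hd
  have hd' : (1 : ℝ) ≤ d := by exact_mod_cast hd
  set B : ℕ := 6 * d * (2 * d + 5) with hBdef
  have hB : 0 < B := by positivity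
  have hB1 : (1 : ℝ) ≤ B := by exact_mod_cast hB
  have hBr : (B : ℝ) = 6 * d * (2 * d + 5) := by rw [hBdef]; push_cast; ring
  obtain ⟨τ, hτ0, hτ1, hτB⟩ := num_tau B hB
  refine ⟨τ, hτ0, hτ1, fun A hA => ?_⟩
  obtain ⟨k, hk1, hkA, hk2, hk3⟩ := num_k d B A
  have hk1' : (1 : ℝ) ≤ k := by exact_mod_cast hk1
  have hm0 : (0 : ℝ) < 2 ^ k := by positivity
  have hm1 : (1 : ℝ) ≤ 2 ^ k := one_le_pow₀ (by norm_num)
  have hkm : (k : ℝ) ≤ 2 ^ k := by
    have := (Nat.lt_two_pow_self (n := k)).le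
    exact_mod_cast this
  refine ⟨2 ^ k, B * k * 2 ^ k, 1 / (12 * d * 2 ^ k), by positivity, by positivity, ?_, ?_, ?_⟩
  · -- first
    set x : ℝ := 1 / (12 * d * 2 ^ k) with hx
    have hx0 : 0 ≤ x := by positivity
    have hx1 : x ≤ 1 := by
      rw [hx, div_le_one (by positivity)]
      nlinarith
    have h1 : Real.exp x - 1 ≤ 2 * x := by
      have := Real.abs_exp_sub_one_le (x := x) (by rw [abs_of_nonneg hx0]; exact hx1)
      rw [abs_of_nonneg hx0] at this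
      exact (le_abs_self _).trans this
    have h0 : 0 ≤ Real.exp x - 1 := by
      have := Real.add_one_le_exp x
      linarith
    have h2 : (Real.exp x - 1) ^ 2 ≤ (2 * x) ^ 2 := pow_le_pow_left₀ h0 h1 2
    have h3 : (d : ℝ) * (2 * x) ^ 2 = 1 / (36 * d * (2 ^ k) ^ 2) := by
      rw [hx]
      field_simp
      norm_num
    calc (d : ℝ) * (Real.exp x - 1) ^ 2 ≤ d * (2 * x) ^ 2 := by gcongr
      _ = 1 / (36 * (d : ℝ) * (2 ^ k) ^ 2) := h3
      _ ≤ 1 / (32 * ((2 ^ k : ℕ) : ℝ) ^ 2) := by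
        push_cast
        apply one_div_le_one_div_of_le (by positivity)
        nlinarith [sq_nonneg ((2 : ℝ) ^ k)]
  · -- second
    push_cast
    have e1 : -(1 / (12 * (d : ℝ) * 2 ^ k)) * ((B : ℝ) * k * 2 ^ k) = -((2 * d + 5) / 2 * k) := by
      rw [hBr]
      field_simp
      ring
    rw [e1, ← Real.exp_nat_mul]
    have e2 : ((2 : ℕ) : ℝ) * (-((2 * (d : ℝ) + 5) / 2 * k)) = -((2 * d + 5) * k) := by
      push_cast; ring
    rw [e2]
    have hB5 : 2 * ((B : ℝ) * k * 2 ^ k) + 3 ≤ 5 * B * k * 2 ^ k := by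
      have h1 : (1 : ℝ) ≤ B * k * 2 ^ k := by
        have := one_le_mul_of_one_le_of_one_le (one_le_mul_of_one_le_of_one_le hB1 hk1') hm1
        exact this
      nlinarith
    have h2e : (2 : ℝ) ^ k ≤ Real.exp k := by
      have h1 : (2 : ℝ) ≤ Real.exp 1 := by
        have := Real.add_one_le_exp (1 : ℝ)
        linarith
      calc (2 : ℝ) ^ k ≤ (Real.exp 1) ^ k := pow_le_pow_left₀ (by norm_num) h1 k
        _ = Real.exp k := by rw [← Real.exp_nat_mul, mul_one]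
    calc A * (2 ^ k) ^ 4 * (2 * ((B : ℝ) * k * 2 ^ k) + 3) ^ d * Real.exp (-((2 * d + 5) * k))
        ≤ A * (2 ^ k) ^ 4 * (5 * B * k * 2 ^ k) ^ d * Real.exp (-((2 * d + 5) * k)) := by
          gcongr
      _ = A * ((5 * B : ℝ) ^ d * ((k : ℝ) ^ d * ((2 ^ k) ^ (4 + d) *
            Real.exp (-((2 * d + 5) * k))))) := by
          rw [pow_add, mul_pow (5 * (B : ℝ) * k), mul_pow (5 * (B : ℝ))]
          ring
      _ ≤ A * ((5 * B : ℝ) ^ d * ((k : ℝ) ^ d * ((Real.exp k) ^ (4 + d) *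
            Real.exp (-((2 * d + 5) * k))))) := by
          gcongr
      _ ≤ A * ((5 * B : ℝ) ^ d * ((k : ℝ) ^ d * Real.exp (-(k : ℝ)))) := by
          gcongr
          rw [← Real.exp_nat_mul, ← Real.exp_add]
          apply Real.exp_le_exp.2
          push_cast
          nlinarith
      _ ≤ 1 := hk2
  · -- third
    set m : ℕ := 2 ^ k with hm
    have hmr : (m : ℝ) = 2 ^ k := by rw [hm]; push_cast; rfl
    have hm1' : (1 : ℝ) ≤ m := by rw [hmr]; exact hm1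
    have hkm' : (k : ℝ) ≤ m := by rw [hmr]; exact hkm
    have hτi : 1 ≤ τ⁻¹ := (one_le_inv₀ hτ0).2 hτ1.le
    have hpow : ((τ ^ (2 * (B * k * m + 4 * m)))⁻¹) ^ 2 ≤ (2 : ℝ) ^ (k * m) := by
      rw [← inv_pow, ← pow_mul]
      calc (τ⁻¹) ^ (2 * (B * k * m + 4 * m) * 2) ≤ (τ⁻¹) ^ (20 * B * (k * m)) := by
            apply pow_le_pow_right₀ hτi
            have h1 : m ≤ B * k * m := by
              have : 1 ≤ B * k := Nat.mul_pos hB hk1
              nlinarith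
            have h2 : B * k * m = B * (k * m) := by ring
            rw [h2] at h1
            rw [h2]
            nlinarith
        _ = (2 : ℝ) ^ (k * m) := by
            rw [pow_mul, inv_pow, hτB]
            norm_num
    have hbase : (2 * (((B * k * m : ℕ) : ℝ) + 4 * m) + 1) ≤ 11 * B * (m : ℝ) ^ 2 := by
      push_cast
      have h1 : (m : ℝ) ≤ B * (m : ℝ) ^ 2 := by nlinarith [mul_nonneg (sub_nonneg.2 hB1) (sub_nonneg.2 hm1')]
      have h2 : (B : ℝ) * k * m ≤ B * (m : ℝ) ^ 2 := by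
        have : (B : ℝ) * k * m ≤ B * m * m := by gcongr
        nlinarith
      nlinarith
    have hAm : A / (m : ℝ) ^ 2 * 2 ^ k ≤ 1 / 2 := by
      rw [hmr]
      have h0 : A / ((2 : ℝ) ^ k) ^ 2 * 2 ^ k = A / 2 ^ k := by
        field_simp
      rw [h0, div_le_iff₀ hm0]
      linarith
    have hfin : (A / (m : ℝ) ^ 2) ^ m * (2 : ℝ) ^ (k * m) ≤ (1 / 2) ^ m := by
      rw [pow_mul, ← mul_pow]
      exact pow_le_pow_left₀ (by positivity) hAm m
    calc A * (2 * (((B * k * m : ℕ) : ℝ) + 4 * m) + 1) ^ (3 * d) * (A / (m : ℝ) ^ 2) ^ m *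
          ((τ ^ (2 * (B * k * m + 4 * m)))⁻¹) ^ 2
        ≤ A * (11 * B * (m : ℝ) ^ 2) ^ (3 * d) * (A / (m : ℝ) ^ 2) ^ m * (2 : ℝ) ^ (k * m) := by
          gcongr
      _ = A * (11 * B * (m : ℝ) ^ 2) ^ (3 * d) * ((A / (m : ℝ) ^ 2) ^ m * (2 : ℝ) ^ (k * m)) := by
          ring
      _ ≤ A * (11 * B * (m : ℝ) ^ 2) ^ (3 * d) * (1 / 2) ^ m := by gcongr
      _ = A * ((11 * B : ℝ) ^ (3 * d) * ((m : ℝ) ^ (6 * d) * (1 / 2) ^ m)) := by
          rw [mul_pow (11 * (B : ℝ)), ← pow_mul]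
          have : 2 * (3 * d) = 6 * d := by ring
          rw [this]
          ring
      _ ≤ 1 := hk3

end Pool.SU
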