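import Pool.Agent.SU.Meas

/-!
# Module A21: large energies
-/

set_option autoImplicit false
set_option linter.unusedSectionVars false

open Complex MeasureTheory Filter Topology Set ContinuousLinearMap
open scoped InnerProductSpace ENNReal NNReal

namespace Pool.SU

open Pool.NB Pool.SB

variable {d : ℕ}

theorem Out_R (a b : ℝ) (W : ZZ d → ℝ) (hW : W ∈ Om d a b) {z : ℂ} (hz : z.im ≠ 0)
    (f : ell (ZZ d)) :
    (‖z‖ - (‖Dop (ee d)‖ + (|a| + |b|))) * ‖R (ee d) W z f‖ ≤ ‖f‖ := by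
  set y := R (ee d) W z f with hy
  have hb : ∀ x, ‖((W x : ℝ) : ℂ)‖ ≤ |a| + |b| := by
    intro x
    rw [Complex.norm_real, Real.norm_eq_abs]
    obtain ⟨h1, h2⟩ := hW x
    exact abs_le.2 ⟨by linarith [neg_abs_le a, abs_nonneg b],
      by linarith [le_abs_self b, abs_nonneg a]⟩
  have hab : 0 ≤ |a| + |b| := by positivity
  have h1 : z • y = Dop (ee d) y + mulOp (fun x => ((W x : ℝ) : ℂ)) (|a| + |b|) hab hb y - f := by
    apply ell_ext; intro x
    have := R_eq (ee d) W hz f x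
    show z * y x = Dop (ee d) y x + (W x : ℂ) * y x - f x
    linear_combination -this
  have h2 : ‖z‖ * ‖y‖ ≤ ‖Dop (ee d)‖ * ‖y‖ + (|a| + |b|) * ‖y‖ + ‖f‖ := by
    rw [← norm_smul, h1]
    refine (norm_sub_le _ _).trans (add_le_add ((norm_add_le _ _).trans (add_le_add ?_ ?_)) le_rfl)
    · exact (Dop (ee d)).le_opNorm y
    · refine (ContinuousLinearMap.le_opNorm _ y).trans ?_
      exact mul_le_mul_of_nonneg_right (mulOp_norm _ _ _ _) (norm_nonneg _)
  nlinarith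

theorem Out_R2 (a b : ℝ) (W : ZZ d → ℝ) (hW : W ∈ Om d a b) {z : ℂ} (hz : z.im ≠ 0) {E : ℝ}
    (hzE : |E| ≤ ‖z‖) (hE : 2 * (‖Dop (ee d)‖ + (|a| + |b|)) + 1 < |E|)
    (f : ell (ZZ d)) : ‖R (ee d) W z f‖ ≤ 2 / |E| * ‖f‖ := by
  have h1 := Out_R a b W hW hz f
  have h2 : |E| / 2 ≤ ‖z‖ - (‖Dop (ee d)‖ + (|a| + |b|)) := by
    have h0 := norm_nonneg (Dop (ee d))
    have ha := abs_nonneg a
    have hb := abs_nonneg b
    linarith
  have hE0 : 0 < |E| := by
    have h0 := norm_nonneg (Dop (ee d))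
    have ha := abs_nonneg a
    have hb := abs_nonneg b
    linarith
  have h3 : |E| / 2 * ‖R (ee d) W z f‖ ≤ ‖f‖ :=
    (mul_le_mul_of_nonneg_right h2 (norm_nonneg _)).trans h1
  rw [div_mul_eq_mul_div, le_div_iff₀ hE0]
  linarith

theorem outer : StmtOut := by
  intro μ _ a b c C hμ d X
  set D : ℝ := ‖Dop (ee d)‖ + (|a| + |b|) with hD
  have hD0 : 0 ≤ D := by positivity
  set v : ℝ := ‖Vel (ee d) X‖ with hv
  refine ⟨2 * D + 1, 32 * v ^ 2 * Real.pi + 1, by linarith, by positivity, ?_⟩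
  intro ε hε hε1
  have hms : MeasurableSet {E : ℝ | 2 * D + 1 < |E|} :=
    measurableSet_lt measurable_const continuous_abs.measurable
  have key : ∀ E ∈ {E : ℝ | 2 * D + 1 < |E|},
      MM μ X E ε ≤ ENNReal.ofReal (32 * v ^ 2 * (1 + E ^ 2)⁻¹) := by
    intro E hE
    have hE' : 2 * D + 1 < |E| := hE
    have hE1 : 1 < |E| := by linarith
    have hE0 : 0 < |E| := by linarith
    have hp : |E| ≤ ‖zp E ε‖ := by
      have := Complex.abs_re_le_norm (zp E ε)
      simpa [zp] using this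
    have hm : |E| ≤ ‖zm E ε‖ := by
      have := Complex.abs_re_le_norm (zm E ε)
      simpa [zm] using this
    have hzp : (zp E ε).im ≠ 0 := by rw [zp_im]; exact hε.ne'
    have hzm : (zm E ε).im ≠ 0 := by rw [zm_im]; exact neg_ne_zero.2 hε.ne'
    have hT : ∀ W ∈ Om d a b, ‖TT (ee d) X E ε W (dl 0)‖ ≤ 4 * v / E ^ 2 := by
      intro W hW
      have e1 : TT (ee d) X E ε W (dl 0) =
          R (ee d) W (zm E ε) (Vel (ee d) X (R (ee d) W (zp E ε) (dl 0))) := rfl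
      rw [e1]
      have h1 := Out_R2 a b W hW hzm hm hE' (Vel (ee d) X (R (ee d) W (zp E ε) (dl 0)))
      have h2 := (Vel (ee d) X).le_opNorm (R (ee d) W (zp E ε) (dl 0))
      have h3 := Out_R2 a b W hW hzp hp hE' (dl 0)
      have h4 : ‖(dl 0 : ell (ZZ d))‖ = 1 := dl_norm 0
      rw [h4, mul_one] at h3
      calc ‖R (ee d) W (zm E ε) (Vel (ee d) X (R (ee d) W (zp E ε) (dl 0)))‖
          ≤ 2 / |E| * ‖Vel (ee d) X (R (ee d) W (zp E ε) (dl 0))‖ := h1
        _ ≤ 2 / |E| * (v * (2 / |E|)) := by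
            refine mul_le_mul_of_nonneg_left (h2.trans ?_) (by positivity)
            exact mul_le_mul_of_nonneg_left h3 (norm_nonneg _)
        _ = 4 * v / E ^ 2 := by
            rw [← sq_abs E]
            field_simp
            ring
    have hT2 : ∀ W ∈ Om d a b, ENNReal.ofReal (‖TT (ee d) X E ε W (dl 0)‖ ^ 2) ≤
        ENNReal.ofReal (32 * v ^ 2 * (1 + E ^ 2)⁻¹) := by
      intro W hW
      apply ENNReal.ofReal_le_ofReal
      have hE2 : 1 < E ^ 2 := by rw [← sq_abs]; nlinarith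
      calc ‖TT (ee d) X E ε W (dl 0)‖ ^ 2 ≤ (4 * v / E ^ 2) ^ 2 :=
            pow_le_pow_left₀ (norm_nonneg _) (hT W hW) 2
        _ ≤ 32 * v ^ 2 * (1 + E ^ 2)⁻¹ := by
            rw [← div_eq_mul_inv, div_pow, div_le_div_iff₀ (by positivity) (by positivity)]
            have hv2 : 0 ≤ v ^ 2 := sq_nonneg v
            have h5 : 1 + E ^ 2 ≤ 2 * (E ^ 2) ^ 2 := by nlinarith
            nlinarith [mul_le_mul_of_nonneg_left h5 hv2]
    unfold MM
    calc ∫⁻ W, ENNReal.ofReal (‖TT (ee d) X E ε W (dl 0)‖ ^ 2) ∂(PP (ZZ d) μ)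
        ≤ ∫⁻ _, ENNReal.ofReal (32 * v ^ 2 * (1 + E ^ 2)⁻¹) ∂(PP (ZZ d) μ) := by
          apply lintegral_mono_ae
          filter_upwards [Om_ae (d := d) hμ] with W hW
          exact hT2 W hW
      _ = ENNReal.ofReal (32 * v ^ 2 * (1 + E ^ 2)⁻¹) := by
          rw [lintegral_const, measure_univ, mul_one]
  calc ∫⁻ E in {E : ℝ | 2 * D + 1 < |E|}, MM μ X E ε
      ≤ ∫⁻ E in {E : ℝ | 2 * D + 1 < |E|}, ENNReal.ofReal (32 * v ^ 2 * (1 + E ^ 2)⁻¹) :=
        setLIntegral_mono' hms key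
    _ ≤ ∫⁻ E, ENNReal.ofReal (32 * v ^ 2 * (1 + E ^ 2)⁻¹) := setLIntegral_le_lintegral _ _
    _ = ENNReal.ofReal (∫ E, 32 * v ^ 2 * (1 + E ^ 2)⁻¹) := by
        rw [ofReal_integral_eq_lintegral_ofReal]
        · exact integrable_inv_one_add_sq.const_mul _
        · exact Eventually.of_forall fun E => by positivity
    _ ≤ ENNReal.ofReal (32 * v ^ 2 * Real.pi + 1) := by
        apply ENNReal.ofReal_le_ofReal
        rw [integral_const_mul, integral_univ_inv_one_add_sq]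
        linarith

end Pool.SU
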