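import Mathlib
import Pool.Agent.SU.Base

/-!
# A3: the error functional controls the part where the resonance position is good
-/

set_option autoImplicit false
set_option linter.unusedSectionVars false
set_option linter.unusedVariables false

open Complex MeasureTheory Filter Topology Set ContinuousLinearMap
open scoped InnerProductSpace ENNReal NNReal

namespace Pool.SU

open Pool.NB Pool.SB

variable {d : ℕ}

/-- comparison with the error functional -/
lemma P1aux_comp (μ : Measure ℝ) [IsProbabilityMeasure μ] (X : ZZ d →+ ℝ) (E : ℝ) {ε : ℝ}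
    (hε : 0 < ε) (q : (ZZ d → ℝ) → ℝ) (hq0 : ∀ W, 0 ≤ q W)
    (hq : ∀ W, ε * q W ≤ BB (ee d) X E ε W) :
    ∫⁻ W, ENNReal.ofReal (q W ^ 2) ∂(PP (ZZ d) μ) ≤ SE μ X E ε := by
  unfold SE
  have hε2 : 0 < ε ^ 2 := by positivity
  rw [← lintegral_const_mul' _ _ ENNReal.ofReal_ne_top]
  refine lintegral_mono fun W => ?_
  beta_reduce
  rw [← ENNReal.ofReal_mul (by positivity)]
  apply ENNReal.ofReal_le_ofReal
  rw [one_div, inv_mul_eq_div, le_div_iff₀ hε2]
  have := pow_le_pow_left₀ (mul_nonneg hε.le (hq0 W)) (hq W) 2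
  nlinarith

/-- the inequality at a fixed exterior configuration -/
lemma P1aux_site (μ : Measure ℝ) [IsProbabilityMeasure μ] (X : ZZ d →+ ℝ) (E : ℝ) {ε : ℝ}
    (hε : 0 < ε) (W : ZZ d → ℝ) {K1 : ℝ}
    (h1 : ∀ A A0 : ell (ZZ d),
      (∫⁻ β : ℝ, ENNReal.ofReal (‖((β : ℂ) - wv E ε W 0)⁻¹‖ ^ 2) ∂μ) * ENNReal.ofReal (‖A‖ ^ 2)
      ≤ ENNReal.ofReal K1 * ∫⁻ β : ℝ, ENNReal.ofReal (‖((β : ℂ) - wv E ε W 0)⁻¹ • A
          + star (((β : ℂ) - wv E ε W 0)⁻¹ • A) - A0‖ ^ 2) ∂μ) :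
    ∫⁻ β, ENNReal.ofReal (‖TT (ee d) X E ε (Function.update W 0 β) (dl 0)‖ ^ 2) ∂μ
      ≤ ∫⁻ β, (ENNReal.ofReal K1 *
          ENNReal.ofReal (‖SS (ee d) X E ε (Function.update W 0 β) (dl 0)‖ ^ 2)
        + 3 * ENNReal.ofReal (cm (ee d) X E ε (Function.update W 0 β) ^ 2)
        + 2 * ENNReal.ofReal (cp (ee d) X E ε (Function.update W 0 β) ^ 2)) ∂μ := by
  have hu := updE_meas W E
  have hSm : Measurable (fun β : ℝ =>
      ENNReal.ofReal (‖SS (ee d) X E ε (Function.update W 0 β) (dl 0)‖ ^ 2)) :=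
    (((SS_meas (ee d) X hε 0).comp_measurable hu).norm.pow 2).measurable.ennreal_ofReal
  have hcmm : Measurable (fun β : ℝ =>
      ENNReal.ofReal (cm (ee d) X E ε (Function.update W 0 β) ^ 2)) :=
    (((cm_meas (ee d) X hε).comp hu).pow_const 2).ennreal_ofReal
  have hcpm : Measurable (fun β : ℝ =>
      ENNReal.ofReal (cp (ee d) X E ε (Function.update W 0 β) ^ 2)) :=
    (((cp_meas (ee d) X hε).comp hu).pow_const 2).ennreal_ofReal
  obtain ⟨β0, A, A0, hb0, hbA, hT, hS⟩ := loc2 X W E hε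
  have hmain := h1 A A0
  calc ∫⁻ β, ENNReal.ofReal (‖TT (ee d) X E ε (Function.update W 0 β) (dl 0)‖ ^ 2) ∂μ
      ≤ ∫⁻ β : ℝ, (ENNReal.ofReal (‖((β : ℂ) - wv E ε W 0)⁻¹‖ ^ 2) * ENNReal.ofReal (‖A‖ ^ 2)
          + 3 * ENNReal.ofReal (cm (ee d) X E ε (Function.update W 0 β) ^ 2)
          + 2 * ENNReal.ofReal (cp (ee d) X E ε (Function.update W 0 β) ^ 2)) ∂μ := by
        refine lintegral_mono fun β => ?_
        beta_reduce
        rw [two_ofReal, three_ofReal, ← ENNReal.ofReal_mul (by positivity),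
          ← ENNReal.ofReal_add (by positivity) (by positivity),
          ← ENNReal.ofReal_add (by positivity) (by positivity)]
        refine ENNReal.ofReal_le_ofReal ((hT β).trans ?_)
        gcongr
    _ = (∫⁻ β : ℝ, ENNReal.ofReal (‖((β : ℂ) - wv E ε W 0)⁻¹‖ ^ 2) ∂μ) * ENNReal.ofReal (‖A‖ ^ 2)
          + 3 * ∫⁻ β, ENNReal.ofReal (cm (ee d) X E ε (Function.update W 0 β) ^ 2) ∂μ
          + 2 * ∫⁻ β, ENNReal.ofReal (cp (ee d) X E ε (Function.update W 0 β) ^ 2) ∂μ := by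
        rw [lintegral_add_right _ (hcpm.const_mul 2), lintegral_add_right _ (hcmm.const_mul 3),
          lintegral_const_mul _ hcmm, lintegral_const_mul _ hcpm,
          lintegral_mul_const' _ _ ENNReal.ofReal_ne_top]
    _ ≤ ENNReal.ofReal K1 *
          ∫⁻ β, ENNReal.ofReal (‖SS (ee d) X E ε (Function.update W 0 β) (dl 0)‖ ^ 2) ∂μ
          + 3 * ∫⁻ β, ENNReal.ofReal (cm (ee d) X E ε (Function.update W 0 β) ^ 2) ∂μ
          + 2 * ∫⁻ β, ENNReal.ofReal (cp (ee d) X E ε (Function.update W 0 β) ^ 2) ∂μ := by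
        have h5 : (∫⁻ β : ℝ, ENNReal.ofReal (‖((β : ℂ) - wv E ε W 0)⁻¹‖ ^ 2) ∂μ)
            * ENNReal.ofReal (‖A‖ ^ 2) ≤ ENNReal.ofReal K1 *
          ∫⁻ β, ENNReal.ofReal (‖SS (ee d) X E ε (Function.update W 0 β) (dl 0)‖ ^ 2) ∂μ := by
          refine hmain.trans (le_of_eq ?_)
          congr 1
          refine lintegral_congr fun β => ?_
          rw [hS β]
        exact add_le_add (add_le_add h5 le_rfl) le_rfl
    _ = _ := by
        rw [lintegral_add_right _ (hcpm.const_mul 2), lintegral_add_right _ (hcmm.const_mul 3),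
          lintegral_const_mul _ hcmm, lintegral_const_mul _ hcpm,
          lintegral_const_mul _ hSm]

theorem P1_of : StmtSingle → StmtP1 := by
  intro hsing μ _ a b c C hμ d X K hK
  obtain ⟨K1, hK1, h1⟩ := hsing μ a b c C hμ K hK
  refine ⟨K1 + 5, by positivity, fun E ε hε hε1 => ?_⟩
  have hpair : Measurable (fun W : ZZ d → ℝ => ((E, W) : ℝ × (ZZ d → ℝ))) :=
    measurable_const.prodMk measurable_id
  have hTm : Measurable (fun W : ZZ d → ℝ =>
      ENNReal.ofReal (‖TT (ee d) X E ε W (dl 0)‖ ^ 2)) :=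
    (((TT_meas (ee d) X hε 0).comp_measurable hpair).norm.pow 2).measurable.ennreal_ofReal
  have hSm : Measurable (fun W : ZZ d → ℝ =>
      ENNReal.ofReal (‖SS (ee d) X E ε W (dl 0)‖ ^ 2)) :=
    (((SS_meas (ee d) X hε 0).comp_measurable hpair).norm.pow 2).measurable.ennreal_ofReal
  have hcmm : Measurable (fun W : ZZ d → ℝ => ENNReal.ofReal (cm (ee d) X E ε W ^ 2)) :=
    (((cm_meas (ee d) X hε).comp hpair).pow_const 2).ennreal_ofReal
  have hcpm : Measurable (fun W : ZZ d → ℝ => ENNReal.ofReal (cp (ee d) X E ε W ^ 2)) :=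
    (((cp_meas (ee d) X hε).comp hpair).pow_const 2).ennreal_ofReal
  have hSet : MeasurableSet {W : ZZ d → ℝ | wv E ε W 0 ∈ Gd a b K} :=
    wv_meas E hε 0 (Gd_meas a b K)
  let g : (ZZ d → ℝ) → ℝ≥0∞ := fun W =>
    ENNReal.ofReal K1 * ENNReal.ofReal (‖SS (ee d) X E ε W (dl 0)‖ ^ 2)
      + 3 * ENNReal.ofReal (cm (ee d) X E ε W ^ 2) + 2 * ENNReal.ofReal (cp (ee d) X E ε W ^ 2)
  have hg : Measurable g := ((hSm.const_mul _).add (hcmm.const_mul 3)).add (hcpm.const_mul 2)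
  have h2 : ∫⁻ W in {W | wv E ε W 0 ∈ Gd a b K},
      ENNReal.ofReal (‖TT (ee d) X E ε W (dl 0)‖ ^ 2) ∂(PP (ZZ d) μ)
      ≤ ∫⁻ W, g W ∂(PP (ZZ d) μ) := by
    rw [← lintegral_indicator hSet, ← resample μ (hTm.indicator hSet), ← resample μ hg]
    refine lintegral_mono fun W => ?_
    beta_reduce
    by_cases hW : wv E ε W 0 ∈ Gd a b K
    · refine le_trans ?_ (P1aux_site μ X E hε W (fun A A0 => h1 _ hW d A A0))
      refine lintegral_mono fun β => ?_
      exact Set.indicator_le_self _ _ _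
    · have h3 : ∀ β : ℝ, ({W : ZZ d → ℝ | wv E ε W 0 ∈ Gd a b K}.indicator
          (fun W => ENNReal.ofReal (‖TT (ee d) X E ε W (dl 0)‖ ^ 2)) (Function.update W 0 β)) = 0 := by
        intro β
        apply Set.indicator_of_notMem
        intro h4
        apply hW
        have h5 : wv E ε (Function.update W 0 β) 0 ∈ Gd a b K := h4
        rwa [wv_upd hε W 0 β] at h5
      simp_rw [h3]
      simp
  refine h2.trans ?_
  have h3 : ∫⁻ W, g W ∂(PP (ZZ d) μ)
      = ENNReal.ofReal K1 * ∫⁻ W, ENNReal.ofReal (‖SS (ee d) X E ε W (dl 0)‖ ^ 2) ∂(PP (ZZ d) μ)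
        + 3 * ∫⁻ W, ENNReal.ofReal (cm (ee d) X E ε W ^ 2) ∂(PP (ZZ d) μ)
        + 2 * ∫⁻ W, ENNReal.ofReal (cp (ee d) X E ε W ^ 2) ∂(PP (ZZ d) μ) := by
    show ∫⁻ W, (_ + _ + _) ∂(PP (ZZ d) μ) = _
    rw [lintegral_add_right _ (hcpm.const_mul 2), lintegral_add_right _ (hcmm.const_mul 3),
      lintegral_const_mul _ hcmm, lintegral_const_mul _ hcpm, lintegral_const_mul _ hSm]
  rw [h3]
  have hS := P1aux_comp μ X E hε (fun W => ‖SS (ee d) X E ε W (dl 0)‖) (fun _ => norm_nonneg _)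
    (fun W => SS_bound (ee d) X E hε W)
  have hcm := P1aux_comp μ X E hε (fun W => cm (ee d) X E ε W) (fun W => by unfold cm; positivity)
    (fun W => cm_bound (ee d) X E hε W)
  have hcp := P1aux_comp μ X E hε (fun W => cp (ee d) X E ε W) (fun W => by unfold cp; positivity)
    (fun W => cp_bound (ee d) X E hε W)
  beta_reduce at hS hcm hcp
  calc _ ≤ ENNReal.ofReal K1 * SE μ X E ε + 3 * SE μ X E ε + 2 * SE μ X E ε := by gcongr
    _ = ENNReal.ofReal (K1 + 5) * SE μ X E ε := by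
        rw [ENNReal.ofReal_add hK1.le (by norm_num)]
        simp only [ENNReal.ofReal_ofNat]
        ring

end Pool.SU
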