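import Mathlib
import Pool.Agent.SU.Base

/-!
# Near resonance estimate (module A9)
-/

set_option autoImplicit false
set_option linter.unusedSectionVars false
set_option linter.unusedVariables false

open Complex MeasureTheory Filter Topology Set ContinuousLinearMap
open scoped InnerProductSpace ENNReal NNReal

namespace Pool.SU

open Pool.NB Pool.SB

variable {d : ℕ}

theorem p2_sum {X : ZZ d →+ ℝ} {τ Km : ℝ}
    (hKm : ∑' x : ZZ d, ENNReal.ofReal (τ ^ (n1 x) * (1 + (X x) ^ 2)) ≤ ENNReal.ofReal Km)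
    (A : ℝ) (hA : 0 ≤ A) (f : ZZ d → ℝ≥0∞)
    (hf : ∀ x, f x ≤ ENNReal.ofReal (A * (τ ^ (n1 x) * (1 + (X x) ^ 2)))) :
    ∑' x, f x ≤ ENNReal.ofReal (A * Km) := by
  calc ∑' x, f x ≤ ∑' x : ZZ d, ENNReal.ofReal (A * (τ ^ (n1 x) * (1 + (X x) ^ 2))) :=
        ENNReal.tsum_le_tsum hf
    _ = ENNReal.ofReal A * ∑' x : ZZ d, ENNReal.ofReal (τ ^ (n1 x) * (1 + (X x) ^ 2)) := by
        rw [← ENNReal.tsum_mul_left]
        exact tsum_congr fun x => ENNReal.ofReal_mul hA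
    _ ≤ ENNReal.ofReal A * ENNReal.ofReal Km := by gcongr
    _ = ENNReal.ofReal (A * Km) := (ENNReal.ofReal_mul hA).symm

theorem p2_two : (2 : ℝ≥0∞) = ENNReal.ofReal 2 := by norm_num

/-- algebra in the extended reals -/
theorem p2_alg {p q r s : ℝ} (hp : 0 ≤ p) (hq : 0 ≤ q) (hs : 0 ≤ s) (h1 : p * s ≤ r)
    (h2 : p * q ≤ r) (M Q : ℝ≥0∞) :
    ENNReal.ofReal p * (ENNReal.ofReal s * M + ENNReal.ofReal q * Q) ≤ ENNReal.ofReal r * (M + Q) := by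
  rw [mul_add, mul_add, ← mul_assoc, ← mul_assoc, ← ENNReal.ofReal_mul hp, ← ENNReal.ofReal_mul hp]
  gcongr

/-- the sum over the bad pairs -/
theorem p2_P {μ : Measure ℝ} [IsProbabilityMeasure μ] {X : ZZ d →+ ℝ} {τ Km κ R g KP E ε : ℝ}
    (hτ0 : 0 < τ) (hε : 0 < ε) (hR : 0 < R) (hKP0 : 0 < KP)
    (hKm : ∑' x : ZZ d, ENNReal.ofReal (τ ^ (n1 x) * (1 + (X x) ^ 2)) ≤ ENNReal.ofReal Km)
    (hKP : ∀ x : ZZ d, x ≠ 0 →
      ∫⁻ W in evP E ε τ κ R g x, pv X E ε W 0 ∂(PP (ZZ d) μ)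
      ≤ ENNReal.ofReal (KP * τ ^ (n1 x) / R) *
        (∫⁻ W, pv X E ε W 0 ∂(PP (ZZ d) μ) + ∫⁻ W, pv X E ε W x ∂(PP (ZZ d) μ))) :
    ∑' x : ZZ d, ∫⁻ W in (if x = 0 then ∅ else evP E ε τ κ R g x), pv X E ε W 0 ∂(PP (ZZ d) μ)
      ≤ ENNReal.ofReal (3 * KP / R * Km) * (MM μ X E ε + QQ μ d E ε) := by
  have key : ∀ x : ZZ d,
      ∫⁻ W in (if x = 0 then ∅ else evP E ε τ κ R g x), pv X E ε W 0 ∂(PP (ZZ d) μ)
      ≤ ENNReal.ofReal (3 * KP / R * (τ ^ (n1 x) * (1 + (X x) ^ 2))) *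
        (MM μ X E ε + QQ μ d E ε) := by
    intro x
    split_ifs with hx
    · simp
    · refine (hKP x hx).trans ?_
      have e1 : ∫⁻ W, pv X E ε W 0 ∂(PP (ZZ d) μ) + ∫⁻ W, pv X E ε W x ∂(PP (ZZ d) μ)
          ≤ ENNReal.ofReal 3 * MM μ X E ε + ENNReal.ofReal (2 * (X x) ^ 2) * QQ μ d E ε := by
        rw [pv_int_zero μ X E hε]
        refine (add_le_add le_rfl (pv_int_le μ X E hε x)).trans (le_of_eq ?_)
        rw [show ENNReal.ofReal 3 = 1 + 2 by rw [← ENNReal.ofReal_one, p2_two,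
          ← ENNReal.ofReal_add (by norm_num) (by norm_num)]; norm_num]
        ring
      refine (mul_le_mul_right e1 _).trans ?_
      have hp : 0 ≤ τ ^ (n1 x) := by positivity
      have hp2 : 0 ≤ KP * τ ^ (n1 x) / R := by positivity
      refine p2_alg hp2 (by positivity) (by norm_num) ?_ ?_ _ _
      · have : KP * τ ^ (n1 x) / R * 3 = 3 * KP / R * (τ ^ (n1 x) * 1) := by ring
        rw [this]
        gcongr
        nlinarith [sq_nonneg (X x)]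
      · have : KP * τ ^ (n1 x) / R * (2 * (X x) ^ 2)
            = KP / R * (τ ^ (n1 x) * (2 * (X x) ^ 2)) := by ring
        rw [this]
        have h3 : 3 * KP / R * (τ ^ (n1 x) * (1 + (X x) ^ 2))
            = KP / R * (τ ^ (n1 x) * (3 * (1 + (X x) ^ 2))) := by ring
        rw [h3]
        gcongr
        all_goals nlinarith [sq_nonneg (X x)]
  calc _ ≤ ∑' x : ZZ d, ENNReal.ofReal (3 * KP / R * (τ ^ (n1 x) * (1 + (X x) ^ 2))) *
        (MM μ X E ε + QQ μ d E ε) := ENNReal.tsum_le_tsum key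
    _ = (∑' x : ZZ d, ENNReal.ofReal (3 * KP / R * (τ ^ (n1 x) * (1 + (X x) ^ 2)))) *
        (MM μ X E ε + QQ μ d E ε) := ENNReal.tsum_mul_right
    _ ≤ _ := by
        gcongr
        exact p2_sum hKm _ (by positivity) _ fun x => le_rfl

/-- the sum over the good pivots -/
theorem p2_G {μ : Measure ℝ} [IsProbabilityMeasure μ] {X : ZZ d →+ ℝ} {a b K0 τ Km κ R g KG K1 E ε : ℝ}
    (hτ0 : 0 < τ) (hτ1 : τ < 1) (hε : 0 < ε) (hR : 0 < R) (hg : 0 < g) (hKG0 : 0 < KG) (hK10 : 0 < K1)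
    (hKm : ∑' x : ZZ d, ENNReal.ofReal (τ ^ (n1 x) * (1 + (X x) ^ 2)) ≤ ENNReal.ofReal Km)
    (hK1 : ∫⁻ W in {W | wv E ε W 0 ∈ Gd a b K0}, ENNReal.ofReal (‖TT (ee d) X E ε W (dl 0)‖ ^ 2)
      ∂(PP (ZZ d) μ) ≤ ENNReal.ofReal K1 * SE μ X E ε)
    (hKG : ∀ x : ZZ d,
      ∫⁻ W in evG E ε τ κ R g a b K0 x, pv X E ε W 0 ∂(PP (ZZ d) μ)
      ≤ ENNReal.ofReal (KG * (R / g) * τ ^ (3 * n1 x)) * ∫⁻ W, pv X E ε W 0 ∂(PP (ZZ d) μ)
        + ENNReal.ofReal (KG * R ^ 2 * τ ^ (2 * n1 x)) *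
          ∫⁻ W in {W | wv E ε W x ∈ Gd a b K0}, pv X E ε W x ∂(PP (ZZ d) μ)) :
    ∑' x : ZZ d, ∫⁻ W in evG E ε τ κ R g a b K0 x, pv X E ε W 0 ∂(PP (ZZ d) μ)
      ≤ ENNReal.ofReal (KG * (R / g) * Km) * (MM μ X E ε + QQ μ d E ε)
        + ENNReal.ofReal (KG * R ^ 2 * (2 * (K1 + 1)) * Km) * (SE μ X E ε + QQ μ d E ε) := by
  have key : ∀ x : ZZ d,
      ∫⁻ W in evG E ε τ κ R g a b K0 x, pv X E ε W 0 ∂(PP (ZZ d) μ)
      ≤ ENNReal.ofReal (KG * (R / g) * (τ ^ (n1 x) * (1 + (X x) ^ 2))) *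
          (MM μ X E ε + QQ μ d E ε)
        + ENNReal.ofReal (KG * R ^ 2 * (2 * (K1 + 1)) * (τ ^ (n1 x) * (1 + (X x) ^ 2))) *
          (SE μ X E ε + QQ μ d E ε) := by
    intro x
    refine (hKG x).trans ?_
    have hp : 0 ≤ τ ^ (n1 x) := by positivity
    have hp3 : τ ^ (3 * n1 x) ≤ τ ^ (n1 x) := pow_le_pow_of_le_one hτ0.le hτ1.le (by omega)
    have hp2 : τ ^ (2 * n1 x) ≤ τ ^ (n1 x) := pow_le_pow_of_le_one hτ0.le hτ1.le (by omega)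
    have hX : (1 : ℝ) ≤ 1 + (X x) ^ 2 := by nlinarith [sq_nonneg (X x)]
    refine add_le_add ?_ ?_
    · rw [pv_int_zero μ X E hε]
      refine mul_le_mul' (ENNReal.ofReal_le_ofReal ?_) le_self_add
      gcongr
      calc τ ^ (3 * n1 x) ≤ τ ^ (n1 x) := hp3
        _ = τ ^ (n1 x) * 1 := (mul_one _).symm
        _ ≤ _ := by gcongr
    · have e1 := pv_int_good μ X E hε x a b K0
      have e2 : ∫⁻ W in {W | wv E ε W x ∈ Gd a b K0}, pv X E ε W x ∂(PP (ZZ d) μ)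
          ≤ ENNReal.ofReal (2 * K1) * SE μ X E ε + ENNReal.ofReal (2 * (X x) ^ 2) * QQ μ d E ε := by
        refine e1.trans (add_le_add ?_ le_rfl)
        calc _ ≤ 2 * (ENNReal.ofReal K1 * SE μ X E ε) := by gcongr
          _ = _ := by rw [← mul_assoc, p2_two, ← ENNReal.ofReal_mul (by norm_num)]
      refine (mul_le_mul_right e2 _).trans ?_
      refine p2_alg (by positivity) (by positivity) (by positivity) ?_ ?_ _ _
      · calc KG * R ^ 2 * τ ^ (2 * n1 x) * (2 * K1)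
            = KG * R ^ 2 * (2 * K1) * (τ ^ (2 * n1 x) * 1) := by ring
          _ ≤ KG * R ^ 2 * (2 * (K1 + 1)) * (τ ^ (n1 x) * (1 + (X x) ^ 2)) := by
              gcongr
              linarith
      · calc KG * R ^ 2 * τ ^ (2 * n1 x) * (2 * (X x) ^ 2)
            = KG * R ^ 2 * (2 * 1) * (τ ^ (2 * n1 x) * (X x) ^ 2) := by ring
          _ ≤ KG * R ^ 2 * (2 * (K1 + 1)) * (τ ^ (n1 x) * (1 + (X x) ^ 2)) := by
              gcongr
              · linarith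
              · linarith
  calc _ ≤ _ := ENNReal.tsum_le_tsum key
    _ = (∑' x : ZZ d, ENNReal.ofReal (KG * (R / g) * (τ ^ (n1 x) * (1 + (X x) ^ 2)))) *
          (MM μ X E ε + QQ μ d E ε)
        + (∑' x : ZZ d, ENNReal.ofReal
            (KG * R ^ 2 * (2 * (K1 + 1)) * (τ ^ (n1 x) * (1 + (X x) ^ 2)))) *
          (SE μ X E ε + QQ μ d E ε) := by
        rw [ENNReal.tsum_add, ENNReal.tsum_mul_right, ENNReal.tsum_mul_right]
    _ ≤ _ := by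
        gcongr
        · exact p2_sum hKm _ (by positivity) _ fun x => le_rfl
        · exact p2_sum hKm _ (by positivity) _ fun x => le_rfl

/-- the index set of the offsets -/
def OO (d : ℕ) : Type := {p : ZZ d × ZZ d // p ∈ ball d 4 ×ˢ ball d 4 ∧ p.1 ≠ 0 ∧ p.2 ≠ 0 ∧ p.1 ≠ p.2}

theorem p2_OO (d : ℕ) (u : ℝ≥0∞) : ∑' _ : OO d, u ≤ ((ball d 4 ×ˢ ball d 4).card : ℝ≥0∞) * u := by
  classical
  let f : OO d → ↥(ball d 4 ×ˢ ball d 4) := fun p => ⟨p.1, p.2.1⟩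
  have hf : Function.Injective f := by
    intro p q h
    exact Subtype.ext (congrArg (fun z : ↥(ball d 4 ×ˢ ball d 4) => z.1) h)
  calc ∑' _ : OO d, u = ∑' p : OO d, (fun _ : ↥(ball d 4 ×ˢ ball d 4) => u) (f p) := rfl
    _ ≤ ∑' _ : ↥(ball d 4 ×ˢ ball d 4), u := ENNReal.tsum_comp_le_tsum_of_injective hf _
    _ = _ := by
        rw [tsum_fintype]
        simp

theorem p2_geom : ∑' n : ℕ, ENNReal.ofReal (1 / 2 ^ n) = ENNReal.ofReal 2 := by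
  have hs : Summable (fun n : ℕ => (1 / 2 : ℝ) ^ n) := summable_geometric_two
  calc ∑' n : ℕ, ENNReal.ofReal (1 / 2 ^ n) = ∑' n : ℕ, ENNReal.ofReal ((1 / 2) ^ n) :=
        tsum_congr fun n => by rw [one_div_pow]
    _ = ENNReal.ofReal (∑' n : ℕ, (1 / 2) ^ n) :=
        (ENNReal.ofReal_tsum_of_nonneg (fun n => by positivity) hs).symm
    _ = _ := by rw [tsum_geometric_two]

/-- the sum over the triples -/
theorem p2_T {μ : Measure ℝ} [IsProbabilityMeasure μ] {X : ZZ d →+ ℝ} {a b τ Km κ R g KT Bx E ε : ℝ}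
    (hτ0 : 0 < τ) (hτ1 : τ < 1) (hε : 0 < ε) (hR : 0 < R) (hg : 0 < g) (hKT0 : 0 < KT)
    (hBx0 : 0 ≤ Bx) (hBx : ∀ o ∈ ball d 4, (X o) ^ 2 ≤ Bx)
    (hKm : ∑' x : ZZ d, ENNReal.ofReal (τ ^ (n1 x) * (1 + (X x) ^ 2)) ≤ ENNReal.ofReal Km)
    (hKT : ∀ q : ZZ d, ∀ o ∈ ball d 4, ∀ o' ∈ ball d 4, o ≠ 0 → o' ≠ 0 → o ≠ o' → ∀ n : ℕ,
    ∫⁻ W in evT E ε τ κ R g a b q o o' n, pv X E ε W 0 ∂(PP (ZZ d) μ)
      ≤ ENNReal.ofReal (KT * R ^ 3 * τ ^ (5 * n1 q) / (2 ^ n * g)) *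
        (∫⁻ W, pv X E ε W 0 ∂(PP (ZZ d) μ) + ∫⁻ W, pv X E ε W q ∂(PP (ZZ d) μ)
          + ∫⁻ W, pv X E ε W (q + o) ∂(PP (ZZ d) μ) + ∫⁻ W, pv X E ε W (q + o') ∂(PP (ZZ d) μ))) :
    ∑' q : ZZ d, ∑' p : OO d, ∑' n : ℕ,
      ∫⁻ W in evT E ε τ κ R g a b q p.1.1 p.1.2 n, pv X E ε W 0 ∂(PP (ZZ d) μ)
      ≤ ENNReal.ofReal (2 * KT * R ^ 3 / g * ((ball d 4 ×ˢ ball d 4).card : ℝ)
          * (25 + 8 * Bx) * Km) * (MM μ X E ε + QQ μ d E ε) := by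
  set Ph : ℝ≥0∞ := MM μ X E ε + QQ μ d E ε with hPh
  have h0 : ∀ (q : ZZ d) (p : OO d) (n : ℕ),
      ∫⁻ W in evT E ε τ κ R g a b q p.1.1 p.1.2 n, pv X E ε W 0 ∂(PP (ZZ d) μ)
      ≤ ENNReal.ofReal (1 / 2 ^ n) *
        (ENNReal.ofReal (KT * R ^ 3 / g * (25 + 8 * Bx) * (τ ^ (n1 q) * (1 + (X q) ^ 2))) * Ph) := by
    intro q p n
    obtain ⟨⟨o, o'⟩, hp, ho0, ho0', hoo⟩ := p
    simp only at ho0 ho0' hoo ⊢
    rw [Finset.mem_product] at hp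
    refine (hKT q o hp.1 o' hp.2 ho0 ho0' hoo n).trans ?_
    have hb1 := hBx o hp.1
    have hb2 := hBx o' hp.2
    have e0 : ∀ o : ZZ d, (X o) ^ 2 ≤ Bx → ∫⁻ W, pv X E ε W (q + o) ∂(PP (ZZ d) μ)
        ≤ ENNReal.ofReal 2 * MM μ X E ε + ENNReal.ofReal (4 * (X q) ^ 2 + 4 * Bx) * QQ μ d E ε := by
      intro o ho
      refine (pv_int_le μ X E hε (q + o)).trans ?_
      rw [← p2_two]
      gcongr
      rw [map_add]
      nlinarith [sq_nonneg (X q - X o)]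
    have e1 : ∫⁻ W, pv X E ε W 0 ∂(PP (ZZ d) μ) + ∫⁻ W, pv X E ε W q ∂(PP (ZZ d) μ)
          + ∫⁻ W, pv X E ε W (q + o) ∂(PP (ZZ d) μ) + ∫⁻ W, pv X E ε W (q + o') ∂(PP (ZZ d) μ)
        ≤ ENNReal.ofReal 7 * MM μ X E ε + ENNReal.ofReal (10 * (X q) ^ 2 + 8 * Bx) * QQ μ d E ε := by
      rw [pv_int_zero μ X E hε]
      refine (add_le_add (add_le_add (add_le_add le_rfl (pv_int_le μ X E hε q)) (e0 o hb1))
        (e0 o' hb2)).trans (le_of_eq ?_)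
      rw [show ENNReal.ofReal 7 = 1 + 2 + 2 + 2 by
        rw [← ENNReal.ofReal_one, p2_two, ← ENNReal.ofReal_add (by norm_num) (by norm_num),
          ← ENNReal.ofReal_add (by norm_num) (by norm_num),
          ← ENNReal.ofReal_add (by norm_num) (by norm_num)]; norm_num]
      rw [show 10 * (X q) ^ 2 + 8 * Bx = 2 * (X q) ^ 2 + (4 * (X q) ^ 2 + 4 * Bx)
        + (4 * (X q) ^ 2 + 4 * Bx) by ring]
      rw [ENNReal.ofReal_add (p := 2 * (X q) ^ 2 + (4 * (X q) ^ 2 + 4 * Bx)) (by positivity)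
        (by positivity), ENNReal.ofReal_add (p := 2 * (X q) ^ 2) (by positivity) (by positivity)]
      rw [← p2_two]
      ring
    refine (mul_le_mul_right e1 _).trans ?_
    rw [← mul_assoc, ← ENNReal.ofReal_mul (by positivity)]
    have hp : 0 ≤ τ ^ (n1 q) := by positivity
    have hp5 : τ ^ (5 * n1 q) ≤ τ ^ (n1 q) := pow_le_pow_of_le_one hτ0.le hτ1.le (by omega)
    have e2 : KT * R ^ 3 * τ ^ (5 * n1 q) / (2 ^ n * g)
        = 1 / 2 ^ n * (KT * R ^ 3 / g) * τ ^ (5 * n1 q) := by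
      field_simp
    have hX2 : 0 ≤ (X q) ^ 2 := sq_nonneg _
    refine p2_alg (by positivity) (by positivity) (by norm_num) ?_ ?_ _ _
    · rw [e2]
      calc 1 / 2 ^ n * (KT * R ^ 3 / g) * τ ^ (5 * n1 q) * 7
          = 1 / 2 ^ n * (KT * R ^ 3 / g) * (τ ^ (5 * n1 q) * 7) := by ring
        _ ≤ 1 / 2 ^ n * (KT * R ^ 3 / g) * (τ ^ (n1 q) * ((25 + 8 * Bx) * (1 + (X q) ^ 2))) := by
            gcongr
            nlinarith [mul_nonneg hBx0 hX2]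
        _ = _ := by ring
    · rw [e2]
      calc 1 / 2 ^ n * (KT * R ^ 3 / g) * τ ^ (5 * n1 q) * (10 * (X q) ^ 2 + 8 * Bx)
          = 1 / 2 ^ n * (KT * R ^ 3 / g) * (τ ^ (5 * n1 q) * (10 * (X q) ^ 2 + 8 * Bx)) := by ring
        _ ≤ 1 / 2 ^ n * (KT * R ^ 3 / g) * (τ ^ (n1 q) * ((25 + 8 * Bx) * (1 + (X q) ^ 2))) := by
            gcongr
            nlinarith [mul_nonneg hBx0 hX2]
        _ = _ := by ring
  have h1 : ∀ (q : ZZ d) (p : OO d), ∑' n : ℕ,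
      ∫⁻ W in evT E ε τ κ R g a b q p.1.1 p.1.2 n, pv X E ε W 0 ∂(PP (ZZ d) μ)
      ≤ ENNReal.ofReal 2 *
        (ENNReal.ofReal (KT * R ^ 3 / g * (25 + 8 * Bx) * (τ ^ (n1 q) * (1 + (X q) ^ 2))) * Ph) := by
    intro q p
    refine (ENNReal.tsum_le_tsum (h0 q p)).trans ?_
    rw [ENNReal.tsum_mul_right, p2_geom]
  have h2 : ∀ q : ZZ d, ∑' p : OO d, ∑' n : ℕ,
      ∫⁻ W in evT E ε τ κ R g a b q p.1.1 p.1.2 n, pv X E ε W 0 ∂(PP (ZZ d) μ)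
      ≤ ENNReal.ofReal (2 * KT * R ^ 3 / g * ((ball d 4 ×ˢ ball d 4).card : ℝ)
          * (25 + 8 * Bx) * (τ ^ (n1 q) * (1 + (X q) ^ 2))) * Ph := by
    intro q
    refine (ENNReal.tsum_le_tsum (h1 q)).trans ((p2_OO d _).trans (le_of_eq ?_))
    rw [← ENNReal.ofReal_natCast, ← mul_assoc, ← mul_assoc,
      ← ENNReal.ofReal_mul (by positivity), ← ENNReal.ofReal_mul (by positivity)]
    congr 2
    ring
  calc _ ≤ _ := ENNReal.tsum_le_tsum h2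
    _ = _ := ENNReal.tsum_mul_right
    _ ≤ _ := by
        gcongr
        exact p2_sum hKm _ (by positivity) _ fun x => le_rfl

instance p2_count (d : ℕ) : Countable (OO d) := by
  unfold OO
  infer_instance

theorem P2_of : StmtP1 → StmtMass → StmtTri → StmtEstP → StmtEstG → StmtEstT → StmtP2 := by
  intro h1 hm ht hP hG hT μ _ a b c C hμ d hd X E1 τ δ hE1 hτ0 hτ1 hδ
  obtain ⟨κ, hκ0, hκ1, hTri⟩ := ht d hd a b E1 τ hμ.ab hE1 hτ0 hτ1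
  obtain ⟨KP, hKP0, hKP⟩ := hP μ a b c C hμ d κ hκ0 hκ1
  obtain ⟨KG, hKG0, hKG⟩ := hG μ a b c C hμ d κ hκ0 hκ1
  obtain ⟨KT, hKT0, hKT⟩ := hT μ a b c C hμ d κ τ hκ0 hκ1 hτ0 hτ1
  obtain ⟨K1, hK10, hK1⟩ := h1 μ a b c C hμ d X (|a| + |b| + 1) (by positivity)
  obtain ⟨Km, hKm0, hKm⟩ := hm d X τ hτ0 hτ1
  obtain ⟨Bx, hBx0, hBx⟩ : ∃ Bx : ℝ, 0 ≤ Bx ∧ ∀ o ∈ ball d 4, (X o) ^ 2 ≤ Bx :=
    ⟨∑ o ∈ ball d 4, (X o) ^ 2, Finset.sum_nonneg fun o _ => sq_nonneg _, fun o ho =>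
      Finset.single_le_sum (f := fun o => (X o) ^ 2) (fun o _ => sq_nonneg _) ho⟩
  set N : ℝ := ((ball d 4 ×ˢ ball d 4).card : ℝ) with hN
  have hN0 : 0 ≤ N := Nat.cast_nonneg _
  obtain ⟨R, hR1, hR2, hR3⟩ : ∃ R : ℝ, 1 ≤ R ∧ 2 / κ ≤ R ∧ 3 * KP / R * Km ≤ δ / 3 := by
    refine ⟨2 / κ + 9 * KP * Km / δ, ?_, ?_, ?_⟩
    · have e1 : 2 ≤ 2 / κ := by rw [le_div_iff₀ hκ0]; nlinarith
      have e2 : 0 ≤ 9 * KP * Km / δ := by positivity
      linarith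
    · have e2 : 0 ≤ 9 * KP * Km / δ := by positivity
      linarith
    · have e1 : 0 < 2 / κ := by positivity
      have e2 : 0 ≤ 9 * KP * Km / δ := by positivity
      have e3 : 0 < 2 / κ + 9 * KP * Km / δ := by positivity
      rw [div_mul_eq_mul_div, div_le_iff₀ e3]
      have : 9 * KP * Km / δ * δ = 9 * KP * Km := by field_simp
      nlinarith [mul_pos e1 hδ]
  have hR0 : 0 < R := by linarith
  set A3 : ℝ := 2 * KT * R ^ 3 * N * (25 + 8 * Bx) * Km with hA3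
  have hA30 : 0 ≤ A3 := by positivity
  obtain ⟨g, hg1, hg2, hg3, hg4⟩ : ∃ g : ℝ, 1 ≤ g ∧ R ≤ κ * g ∧ KG * (R / g) * Km ≤ δ / 3 ∧
      A3 / g ≤ δ / 3 := by
    have e0 : 0 ≤ 3 * KG * R * Km / δ := by positivity
    have e1 : 0 ≤ 3 * A3 / δ := by positivity
    have e2 : 1 ≤ R / κ := by rw [le_div_iff₀ hκ0]; nlinarith
    refine ⟨R / κ + 3 * KG * R * Km / δ + 3 * A3 / δ, by linarith, ?_, ?_, ?_⟩
    · have : κ * (R / κ) = R := by field_simp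
      nlinarith [mul_nonneg hκ0.le e0, mul_nonneg hκ0.le e1]
    · have e3 : 0 < R / κ + 3 * KG * R * Km / δ + 3 * A3 / δ := by linarith
      have e4 : KG * (R / (R / κ + 3 * KG * R * Km / δ + 3 * A3 / δ)) * Km
          = KG * R * Km / (R / κ + 3 * KG * R * Km / δ + 3 * A3 / δ) := by ring
      rw [e4, div_le_iff₀ e3]
      have e5 : 3 * KG * R * Km / δ * δ = 3 * KG * R * Km := by field_simp
      have e6 : 0 ≤ (R / κ) * δ := by positivity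
      have e7 : 0 ≤ (3 * A3 / δ) * δ := by positivity
      nlinarith
    · have e3 : 0 < R / κ + 3 * KG * R * Km / δ + 3 * A3 / δ := by linarith
      rw [div_le_iff₀ e3]
      have e5 : 3 * A3 / δ * δ = 3 * A3 := by field_simp
      have e6 : 0 ≤ (R / κ) * δ := by positivity
      have e7 : 0 ≤ (3 * KG * R * Km / δ) * δ := by positivity
      nlinarith
  have hg0 : 0 < g := by linarith
  have hκg : 1 ≤ κ * g := by linarith
  refine ⟨g, hg1, KG * R ^ 2 * (2 * (K1 + 1)) * Km, by positivity, ?_⟩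
  intro E ε hE hε0 hε1
  -- the inclusion
  have hinc : (resEv E ε τ g : Set (ZZ d → ℝ)) ≤ᵐ[PP (ZZ d) μ]
      (((⋃ x : ZZ d, if x = 0 then ∅ else evP E ε τ κ R g x) ∪
        (⋃ x : ZZ d, evG E ε τ κ R g a b (|a| + |b| + 1) x)) ∪
        (⋃ q : ZZ d, ⋃ p : OO d, ⋃ n : ℕ, evT E ε τ κ R g a b q p.1.1 p.1.2 n) :
          Set (ZZ d → ℝ)) := by
    filter_upwards [Om_ae (d := d) hμ] with W hW
    intro hres
    rcases hTri R g hR1 hg2 E ε hE hε0 hε1 W hW hres with ⟨x, hx, hx2⟩ | ⟨x, hx⟩ |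
      ⟨q, o, ho, o', ho', h0, h0', hoo, n, hn⟩
    · refine Or.inl (Or.inl (mem_iUnion.mpr ⟨x, ?_⟩))
      rw [if_neg hx]
      exact hx2
    · exact Or.inl (Or.inr (mem_iUnion.mpr ⟨x, hx⟩))
    · refine Or.inr (mem_iUnion.mpr ⟨q, mem_iUnion.mpr
        ⟨⟨(o, o'), Finset.mem_product.mpr ⟨ho, ho'⟩, h0, h0', hoo⟩, mem_iUnion.mpr ⟨n, hn⟩⟩⟩)
  have bP := p2_P (μ := μ) (κ := κ) (g := g) (E := E) hτ0 hε0 hR0 hKP0 hKm
    (fun x hx => hKP X τ R g E ε hτ0 hτ1 hR2 hκg hε0 hε1 x hx)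
  have bG := p2_G (μ := μ) (κ := κ) (R := R) hτ0 hτ1 hε0 hR0 hg0 hKG0 hK10 hKm
    (hK1 E ε hε0 hε1)
    (fun x => hKG X τ R g E ε (|a| + |b| + 1) hτ0 hτ1 hR1 hκg hε0 hε1 x)
  have bT := p2_T (μ := μ) (κ := κ) (a := a) (b := b) (E := E) hτ0 hτ1 hε0 hR0 hg0 hKT0 hBx0 hBx hKm
    (fun q o ho o' ho' h0 h0' hoo n => hKT X R g E ε hR1 hκg hε0 hε1 q o ho o' ho' h0 h0' hoo n)
  calc ∫⁻ W in resEv E ε τ g, pv X E ε W 0 ∂(PP (ZZ d) μ)
      ≤ ∫⁻ W in ((⋃ x : ZZ d, if x = 0 then ∅ else evP E ε τ κ R g x) ∪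
        (⋃ x : ZZ d, evG E ε τ κ R g a b (|a| + |b| + 1) x)) ∪
        (⋃ q : ZZ d, ⋃ p : OO d, ⋃ n : ℕ, evT E ε τ κ R g a b q p.1.1 p.1.2 n),
          pv X E ε W 0 ∂(PP (ZZ d) μ) := lintegral_mono_set' hinc
    _ ≤ (∫⁻ W in (⋃ x : ZZ d, if x = 0 then ∅ else evP E ε τ κ R g x), pv X E ε W 0 ∂(PP (ZZ d) μ)
        + ∫⁻ W in (⋃ x : ZZ d, evG E ε τ κ R g a b (|a| + |b| + 1) x),
          pv X E ε W 0 ∂(PP (ZZ d) μ))
        + ∫⁻ W in (⋃ q : ZZ d, ⋃ p : OO d, ⋃ n : ℕ, evT E ε τ κ R g a b q p.1.1 p.1.2 n),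
          pv X E ε W 0 ∂(PP (ZZ d) μ) := by
        refine (lintegral_union_le _ _ _).trans (add_le_add (lintegral_union_le _ _ _) le_rfl)
    _ ≤ (∑' x : ZZ d, ∫⁻ W in (if x = 0 then ∅ else evP E ε τ κ R g x), pv X E ε W 0 ∂(PP (ZZ d) μ)
        + ∑' x : ZZ d, ∫⁻ W in evG E ε τ κ R g a b (|a| + |b| + 1) x,
          pv X E ε W 0 ∂(PP (ZZ d) μ))
        + ∑' q : ZZ d, ∑' p : OO d, ∑' n : ℕ,
          ∫⁻ W in evT E ε τ κ R g a b q p.1.1 p.1.2 n, pv X E ε W 0 ∂(PP (ZZ d) μ) := by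
        refine add_le_add (add_le_add (lintegral_iUnion_le _ _) (lintegral_iUnion_le _ _)) ?_
        refine (lintegral_iUnion_le _ _).trans (ENNReal.tsum_le_tsum fun q => ?_)
        refine (lintegral_iUnion_le _ _).trans (ENNReal.tsum_le_tsum fun p => ?_)
        exact lintegral_iUnion_le _ _
    _ ≤ _ := add_le_add (add_le_add bP bG) bT
    _ ≤ _ := by
        have f1 : ENNReal.ofReal (3 * KP / R * Km) ≤ ENNReal.ofReal (δ / 3) :=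
          ENNReal.ofReal_le_ofReal hR3
        have f2 : ENNReal.ofReal (KG * (R / g) * Km) ≤ ENNReal.ofReal (δ / 3) :=
          ENNReal.ofReal_le_ofReal hg3
        have f3 : ENNReal.ofReal (2 * KT * R ^ 3 / g * N * (25 + 8 * Bx) * Km)
            ≤ ENNReal.ofReal (δ / 3) := by
          refine ENNReal.ofReal_le_ofReal (le_trans (le_of_eq ?_) hg4)
          rw [hA3]
          ring
        have f4 : ENNReal.ofReal δ = ENNReal.ofReal (δ / 3) + ENNReal.ofReal (δ / 3)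
            + ENNReal.ofReal (δ / 3) := by
          rw [← ENNReal.ofReal_add (by positivity) (by positivity),
            ← ENNReal.ofReal_add (by positivity) (by positivity)]
          congr 1
          ring
        rw [f4]
        calc _ ≤ ENNReal.ofReal (δ / 3) * (MM μ X E ε + QQ μ d E ε)
            + (ENNReal.ofReal (δ / 3) * (MM μ X E ε + QQ μ d E ε)
              + ENNReal.ofReal (KG * R ^ 2 * (2 * (K1 + 1)) * Km) * (SE μ X E ε + QQ μ d E ε))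
            + ENNReal.ofReal (δ / 3) * (MM μ X E ε + QQ μ d E ε) := by
              gcongr
          _ = _ := by ring

end Pool.SU
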