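import Mathlib
import Pool.Agent.SU.Base

/-!
# A12: a chain of one-variable Remez inequalities
-/

set_option autoImplicit false
set_option linter.unusedSectionVars false
set_option linter.unusedVariables false

open Complex MeasureTheory Filter Topology Set ContinuousLinearMap
open scoped InnerProductSpace ENNReal NNReal

namespace Pool.SU

open Pool.NB Pool.SB

variable {d : ℕ}

/-- affine interpolation from two points -/
theorem rmz_affine {V : Type*} [NormedAddCommGroup V] [NormedSpace ℂ V] (P Q : V) (w s1 s2 D ρ : ℝ)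
    (hρ : 0 < ρ) (h1 : |s1 - w| ≤ D) (h2 : |s2 - w| ≤ D) (h12 : ρ ≤ |s2 - s1|) :
    ‖P‖ ^ 2 ≤ 2 * (D / ρ) ^ 2 *
      (‖P + ((s1 - w : ℝ) : ℂ) • Q‖ ^ 2 + ‖P + ((s2 - w : ℝ) : ℂ) • Q‖ ^ 2) := by
  set L1 := P + ((s1 - w : ℝ) : ℂ) • Q
  set L2 := P + ((s2 - w : ℝ) : ℂ) • Q
  have hD : 0 ≤ D := (abs_nonneg _).trans h1
  have hid : ((s2 - s1 : ℝ) : ℂ) • P = ((s2 - w : ℝ) : ℂ) • L1 - ((s1 - w : ℝ) : ℂ) • L2 := by
    simp only [L1, L2, smul_add, smul_smul]
    rw [show ((s2 - w : ℝ) : ℂ) * ((s1 - w : ℝ) : ℂ) = ((s1 - w : ℝ) : ℂ) * ((s2 - w : ℝ) : ℂ) from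
      mul_comm _ _, add_sub_add_right_eq_sub, ← sub_smul]
    congr 1
    push_cast
    ring
  have hn : |s2 - s1| * ‖P‖ ≤ D * (‖L1‖ + ‖L2‖) := by
    have h3 : ‖((s2 - s1 : ℝ) : ℂ) • P‖ = |s2 - s1| * ‖P‖ := by
      rw [norm_smul, Complex.norm_real, Real.norm_eq_abs]
    rw [← h3, hid]
    refine (norm_sub_le _ _).trans ?_
    rw [norm_smul, norm_smul, Complex.norm_real, Complex.norm_real, Real.norm_eq_abs,
      Real.norm_eq_abs, mul_add]
    gcongr
  have h4 : ‖P‖ ≤ D / ρ * (‖L1‖ + ‖L2‖) := by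
    have h5 : ρ * ‖P‖ ≤ D * (‖L1‖ + ‖L2‖) :=
      (mul_le_mul_of_nonneg_right h12 (norm_nonneg _)).trans hn
    rw [div_mul_eq_mul_div, le_div_iff₀ hρ, mul_comm]
    exact h5
  have h6 : ‖P‖ ^ 2 ≤ (D / ρ * (‖L1‖ + ‖L2‖)) ^ 2 :=
    pow_le_pow_left₀ (norm_nonneg _) h4 2
  refine h6.trans ?_
  rw [mul_pow]
  nlinarith [sq_nonneg (‖L1‖ - ‖L2‖), sq_nonneg (D / ρ),
    mul_nonneg (sq_nonneg (D / ρ)) (sq_nonneg (‖L1‖ - ‖L2‖))]

/-- integrated version of the affine Remez inequality -/
theorem rmz_int {μ : Measure ℝ} [IsProbabilityMeasure μ] {a b c C : ℝ} (hμ : Uni μ a b c C)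
    {θ : ℝ} (hθ : 0 < θ) : ∃ K : ℝ, 0 < K ∧ ∀ (V : ℝ≥0∞) (F : ℝ → ℝ≥0∞) (_ : Measurable F)
      (A : Set ℝ) (_ : MeasurableSet A) (_ : ENNReal.ofReal θ ≤ μ A)
      (_ : ∀ s1 ∈ A, ∀ s2 ∈ A, θ / (4 * C) ≤ |s2 - s1| → V ≤ F s1 + F s2),
      V ≤ ENNReal.ofReal K * ∫⁻ s in A, F s ∂μ := by
  have hC := hμ.C_pos
  refine ⟨4 / θ ^ 2, by positivity, fun V F hF A hA hA1 h => ?_⟩
  set I := ∫⁻ s in A, F s ∂μ with hI
  have hwin : ∀ s1 : ℝ, ENNReal.ofReal (θ / 2) ≤ μ (A \ {β : ℝ | ‖(β : ℂ) - (s1 : ℂ)‖ < θ / (4 * C)}) := by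
    intro s1
    have h1 : μ {β : ℝ | ‖(β : ℂ) - (s1 : ℂ)‖ < θ / (4 * C)} ≤ ENNReal.ofReal (θ / 2) := by
      have hsub : {β : ℝ | ‖(β : ℂ) - (s1 : ℂ)‖ < θ / (4 * C)} ⊆
          {β : ℝ | ‖(β : ℂ) - (s1 : ℂ)‖ ≤ θ / (4 * C)} := by
        intro β hβ
        simp only [mem_setOf_eq] at hβ ⊢
        exact hβ.le
      refine (measure_mono hsub).trans ((hμ.win (s1 : ℂ) _).trans ?_)
      apply le_of_eq
      congr 1
      field_simp
      ring
    have h2 : μ A ≤ μ {β : ℝ | ‖(β : ℂ) - (s1 : ℂ)‖ < θ / (4 * C)} +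
        μ (A \ {β : ℝ | ‖(β : ℂ) - (s1 : ℂ)‖ < θ / (4 * C)}) := by
      refine (measure_mono ?_).trans (measure_union_le _ _)
      intro β hβ
      by_cases h3 : β ∈ {β : ℝ | ‖(β : ℂ) - (s1 : ℂ)‖ < θ / (4 * C)}
      · exact Or.inl h3
      · exact Or.inr ⟨hβ, h3⟩
    have h3 : ENNReal.ofReal (θ / 2) + ENNReal.ofReal (θ / 2) ≤ ENNReal.ofReal (θ / 2) +
        μ (A \ {β : ℝ | ‖(β : ℂ) - (s1 : ℂ)‖ < θ / (4 * C)}) := by
      rw [← ENNReal.ofReal_add (by positivity) (by positivity), add_halves]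
      exact hA1.trans (h2.trans (by gcongr))
    exact (ENNReal.add_le_add_iff_left ENNReal.ofReal_ne_top).1 h3
  have hmw : ∀ s1 : ℝ, MeasurableSet {β : ℝ | ‖(β : ℂ) - (s1 : ℂ)‖ < θ / (4 * C)} := by
    intro s1
    apply measurableSet_lt _ measurable_const
    exact (Complex.measurable_ofReal.sub_const _).norm
  have step1 : ∀ s1 ∈ A, V * ENNReal.ofReal (θ / 2) ≤ F s1 + I := by
    intro s1 hs1
    calc V * ENNReal.ofReal (θ / 2)
        ≤ V * μ (A \ {β : ℝ | ‖(β : ℂ) - (s1 : ℂ)‖ < θ / (4 * C)}) := by gcongr; exact hwin s1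
      _ = ∫⁻ s2 in A \ {β : ℝ | ‖(β : ℂ) - (s1 : ℂ)‖ < θ / (4 * C)}, V ∂μ := by
          rw [setLIntegral_const]
      _ ≤ ∫⁻ s2 in A \ {β : ℝ | ‖(β : ℂ) - (s1 : ℂ)‖ < θ / (4 * C)}, (F s1 + F s2) ∂μ := by
          apply setLIntegral_mono (measurable_const.add hF)
          intro s2 hs2
          apply h s1 hs1 s2 hs2.1
          have := hs2.2
          simp only [mem_setOf_eq, not_lt] at this
          rw [← Complex.ofReal_sub, Complex.norm_real, Real.norm_eq_abs] at this
          exact this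
      _ = (∫⁻ s2 in A \ {β : ℝ | ‖(β : ℂ) - (s1 : ℂ)‖ < θ / (4 * C)}, F s1 ∂μ) +
          ∫⁻ s2 in A \ {β : ℝ | ‖(β : ℂ) - (s1 : ℂ)‖ < θ / (4 * C)}, F s2 ∂μ := by
          rw [lintegral_add_left measurable_const]
      _ ≤ F s1 + I := by
          gcongr
          · rw [setLIntegral_const]
            calc F s1 * μ _ ≤ F s1 * 1 := by gcongr; exact prob_le_one
              _ = F s1 := mul_one _
          · exact lintegral_mono_set diff_subset
  have step2 : V * ENNReal.ofReal (θ / 2) * ENNReal.ofReal θ ≤ I + I := by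
    calc V * ENNReal.ofReal (θ / 2) * ENNReal.ofReal θ
        ≤ V * ENNReal.ofReal (θ / 2) * μ A := by gcongr
      _ = ∫⁻ s1 in A, V * ENNReal.ofReal (θ / 2) ∂μ := by rw [setLIntegral_const]
      _ ≤ ∫⁻ s1 in A, (F s1 + I) ∂μ := setLIntegral_mono (hF.add_const _) step1
      _ = I + ∫⁻ s1 in A, I ∂μ := by rw [lintegral_add_left hF]
      _ ≤ I + I := by
          gcongr
          rw [setLIntegral_const]
          calc I * μ A ≤ I * 1 := by gcongr; exact prob_le_one
            _ = I := mul_one _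
  have h7 : ENNReal.ofReal (θ / 2) * ENNReal.ofReal θ = ENNReal.ofReal (θ ^ 2 / 2) := by
    rw [← ENNReal.ofReal_mul (by positivity)]
    congr 1
    ring
  rw [mul_assoc, h7] at step2
  have h8 : V = ENNReal.ofReal (2 / θ ^ 2) * (V * ENNReal.ofReal (θ ^ 2 / 2)) := by
    rw [mul_comm V, ← mul_assoc, ← ENNReal.ofReal_mul (by positivity),
      show 2 / θ ^ 2 * (θ ^ 2 / 2) = 1 by field_simp, ENNReal.ofReal_one, one_mul]
  rw [h8]
  calc ENNReal.ofReal (2 / θ ^ 2) * (V * ENNReal.ofReal (θ ^ 2 / 2))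
      ≤ ENNReal.ofReal (2 / θ ^ 2) * (I + I) := by gcongr
    _ = ENNReal.ofReal (2 / θ ^ 2) * (ENNReal.ofReal 2 * I) := by
        rw [← two_mul]; norm_num
    _ = ENNReal.ofReal (4 / θ ^ 2) * I := by
        rw [← mul_assoc, ← ENNReal.ofReal_mul (by positivity)]
        congr 2
        ring

/-- the multiplier of a change at one site -/
theorem rmz_mult {E ε : ℝ} (hε : 0 < ε) (W : ZZ d → ℝ) (x : ZZ d) (β : ℝ) :
    (1 + ((β - W x : ℝ) : ℂ) * GF E ε W x x) = ((β : ℂ) - wv E ε W x) * GF E ε W x x := by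
  have h := GF_ne (E := E) hε W x
  rw [wv]
  field_simp
  push_cast
  ring

theorem rmz_mult_eq {E ε : ℝ} (hε : 0 < ε) (W : ZZ d → ℝ) (x z : ZZ d) (β : ℝ) :
    (1 + ((β - W x : ℝ) : ℂ) * GF E ε W x x) * GF E ε (Function.update W x β) x z =
      GF E ε W x z := by
  have h := GF_upd (E := E) hε W x β x z
  linear_combination h

theorem rmz_mult_ge {E ε : ℝ} (hε : 0 < ε) (W : ZZ d → ℝ) (x : ZZ d) (β D c' : ℝ) (hD : 0 < D)
    (hc : 0 < c') (h1 : |β - W x| ≤ D) (h2 : c' ≤ ‖(β : ℂ) - wv E ε W x‖) :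
    min (1 / 2) (c' / (2 * D)) ≤ ‖1 + ((β - W x : ℝ) : ℂ) * GF E ε W x x‖ := by
  by_cases h : ‖GF E ε W x x‖ ≤ 1 / (2 * D)
  · refine (min_le_left _ _).trans ?_
    have h3 : ‖((β - W x : ℝ) : ℂ) * GF E ε W x x‖ ≤ 1 / 2 := by
      rw [norm_mul, Complex.norm_real, Real.norm_eq_abs]
      calc |β - W x| * ‖GF E ε W x x‖ ≤ D * (1 / (2 * D)) := by gcongr
        _ = 1 / 2 := by field_simp
    have h4 : ‖(1 : ℂ)‖ ≤ ‖1 + ((β - W x : ℝ) : ℂ) * GF E ε W x x‖ +
        ‖((β - W x : ℝ) : ℂ) * GF E ε W x x‖ := by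
      calc ‖(1 : ℂ)‖ = ‖(1 + ((β - W x : ℝ) : ℂ) * GF E ε W x x) -
            ((β - W x : ℝ) : ℂ) * GF E ε W x x‖ := by congr 1; ring
        _ ≤ _ := norm_sub_le _ _
    rw [norm_one] at h4
    linarith
  · push Not at h
    refine (min_le_right _ _).trans ?_
    rw [rmz_mult hε, norm_mul]
    calc c' / (2 * D) = c' * (1 / (2 * D)) := by ring
      _ ≤ ‖(β : ℂ) - wv E ε W x‖ * ‖GF E ε W x x‖ := by gcongr

/-- the vector at the origin after a change at one site, multiplied by the multiplier, is affine -/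
theorem rmz_VV (X : ZZ d →+ ℝ) {E ε : ℝ} (hε : 0 < ε) (W : ZZ d → ℝ) (x : ZZ d) (β : ℝ) :
    (1 + ((β - W x : ℝ) : ℂ) * GF E ε W x x) • VV X E ε (Function.update W x β) 0 =
      VV X E ε W 0 + ((β - W x : ℝ) : ℂ) •
        (GF E ε W x x • VV X E ε W 0 - GF E ε W x 0 • VV X E ε W x) := by
  rw [VV_upd X hε W x β 0]
  have h := rmz_mult_eq (E := E) hε W x 0 β
  rw [smul_sub, smul_smul, ← h]
  module

/-- the claim proved by induction over `S` -/
def RmzClaim (μ : Measure ℝ) (a b : ℝ) (d : ℕ) (Λ S : Finset (ZZ d)) : Prop :=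
  ∀ g θ : ℝ, 0 < g → 0 < θ → ∃ K : ℝ, 0 < K ∧
    ∀ (X : ZZ d →+ ℝ) (E ε : ℝ), 0 < ε → ∀ W ∈ Om d a b,
      (∀ x ∈ Λ, ∀ y ∈ Λ, ‖GF E ε W x y‖ ≤ g) →
      ∀ B : Set (ZZ d → ℝ), MeasurableSet B → ENNReal.ofReal θ ≤ (PP (ZZ d) μ) B →
        pv X E ε W 0 ≤ ENNReal.ofReal K * ∫⁻ W' in B, pv X E ε (spl S W' W) 0 ∂(PP (ZZ d) μ)

theorem rmz_base (μ : Measure ℝ) [IsProbabilityMeasure μ] (a b : ℝ) (Λ : Finset (ZZ d)) :
    RmzClaim μ a b d Λ ∅ := by
  intro g θ hg hθ
  refine ⟨1 / θ, by positivity, fun X E ε hε W hW hGF B hB hB1 => ?_⟩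
  have h1 : ∀ W' : ZZ d → ℝ, spl ∅ W' W = W := by
    intro W'
    funext y
    simp [spl]
  simp only [h1]
  rw [setLIntegral_const]
  calc pv X E ε W 0 = ENNReal.ofReal (1 / θ) * (pv X E ε W 0 * ENNReal.ofReal θ) := by
        rw [mul_comm (pv X E ε W 0), ← mul_assoc, ← ENNReal.ofReal_mul (by positivity),
          show 1 / θ * θ = 1 by field_simp, ENNReal.ofReal_one, one_mul]
    _ ≤ _ := by gcongr

theorem rmz_step (μ : Measure ℝ) [IsProbabilityMeasure μ] {a b c C : ℝ} (hμ : Uni μ a b c C)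
    (Λ S : Finset (ZZ d)) (h0 : 0 ∈ Λ) (x : ZZ d) (hx : x ∈ Λ) (hxS : x ∉ S)
    (ih : RmzClaim μ a b d Λ S) : RmzClaim μ a b d Λ (insert x S) := by
  classical
  intro g θ hg hθ
  have hC := hμ.C_pos
  have hab := hμ.ab
  set D : ℝ := b - a with hD
  have hD0 : 0 < D := by rw [hD]; linarith
  set c' : ℝ := θ / (8 * C) with hc'
  have hc0 : 0 < c' := by positivity
  set m0 : ℝ := min (1 / 2) (c' / (2 * D)) with hm0
  have hm00 : 0 < m0 := lt_min (by norm_num) (by positivity)
  obtain ⟨K1, hK1, H1⟩ := rmz_int hμ (θ := θ / 4) (by positivity)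
  obtain ⟨KS, hKS, HS⟩ := ih (g + D * (g / m0) * g) (θ / 2) (by positivity) (by positivity)
  set ρ : ℝ := (θ / 4) / (4 * C) with hρ
  have hρ0 : 0 < ρ := by positivity
  set M : ℝ := 2 * (D / ρ) ^ 2 * (1 + D * g) ^ 2 with hM
  have hM0 : 0 < M := by positivity
  refine ⟨K1 * M * KS, by positivity, fun X E ε hε W hW hGF B hB hB1 => ?_⟩
  -- the slices
  have hSm : MeasurableSet {p : ℝ × (ZZ d → ℝ) | Function.update p.2 x p.1 ∈ B} := by
    have h1 : Measurable fun p : ℝ × (ZZ d → ℝ) => Function.update p.2 x p.1 :=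
      (upd_meas_at x).comp measurable_swap
    exact h1 hB
  have hsl : Measurable fun β : ℝ => (PP (ZZ d) μ) {W' | Function.update W' x β ∈ B} :=
    measurable_measure_prodMk_left hSm
  have hslm : ∀ β : ℝ, MeasurableSet {W' : ZZ d → ℝ | Function.update W' x β ∈ B} := by
    intro β
    exact measurable_prodMk_left hSm
  have hindic : ∀ f : (ZZ d → ℝ) → ℝ≥0∞, Measurable f →
      ∫⁻ β, ∫⁻ W' in {W' | Function.update W' x β ∈ B}, f (Function.update W' x β) ∂(PP (ZZ d) μ) ∂μ
        = ∫⁻ W' in B, f W' ∂(PP (ZZ d) μ) := by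
    intro f hf
    rw [← lintegral_indicator hB, ← lint_upd μ x (hf.indicator hB)]
    rw [lintegral_lintegral_swap]
    · apply lintegral_congr
      intro β
      rw [← lintegral_indicator (hslm β)]
      apply lintegral_congr
      intro W'
      by_cases h : Function.update W' x β ∈ B
      · rw [indicator_of_mem (show W' ∈ {W' | Function.update W' x β ∈ B} from h),
          indicator_of_mem h]
      · rw [indicator_of_notMem (show W' ∉ {W' | Function.update W' x β ∈ B} from h),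
          indicator_of_notMem h]
    · exact ((hf.indicator hB).comp (upd_meas_at x)).aemeasurable
  set A : Set ℝ := {β | ENNReal.ofReal (θ / 2) ≤ (PP (ZZ d) μ) {W' | Function.update W' x β ∈ B}}
    with hA
  have hAm : MeasurableSet A := measurableSet_le measurable_const hsl
  have hA1 : ENNReal.ofReal (θ / 2) ≤ μ A := by
    have h1 := hindic (fun _ => 1) measurable_const
    simp only [lintegral_const, one_mul, Measure.restrict_apply MeasurableSet.univ, univ_inter]
      at h1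
    have h2 : (PP (ZZ d) μ) B ≤ μ A + ENNReal.ofReal (θ / 2) := by
      rw [← h1, ← lintegral_add_compl _ hAm]
      gcongr
      · calc ∫⁻ β in A, (PP (ZZ d) μ) {W' | Function.update W' x β ∈ B} ∂μ
            ≤ ∫⁻ β in A, 1 ∂μ := by
              apply setLIntegral_mono measurable_const
              intro β _
              exact prob_le_one
          _ = μ A := by rw [setLIntegral_const, one_mul]
      · calc ∫⁻ β in Aᶜ, (PP (ZZ d) μ) {W' | Function.update W' x β ∈ B} ∂μ
            ≤ ∫⁻ β in Aᶜ, ENNReal.ofReal (θ / 2) ∂μ := by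
              apply setLIntegral_mono measurable_const
              intro β hβ
              exact (not_le.1 (show ¬ ENNReal.ofReal (θ / 2) ≤
                (PP (ZZ d) μ) {W' | Function.update W' x β ∈ B} from hβ)).le
          _ = ENNReal.ofReal (θ / 2) * μ Aᶜ := by rw [setLIntegral_const]
          _ ≤ ENNReal.ofReal (θ / 2) * 1 := by gcongr; exact prob_le_one
          _ = ENNReal.ofReal (θ / 2) := mul_one _
    have h3 : ENNReal.ofReal (θ / 2) + ENNReal.ofReal (θ / 2) ≤ μ A + ENNReal.ofReal (θ / 2) := by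
      rw [← ENNReal.ofReal_add (by positivity) (by positivity), add_halves]
      exact hB1.trans h2
    exact (ENNReal.add_le_add_iff_right ENNReal.ofReal_ne_top).1 h3
  set A' : Set ℝ := (A ∩ Icc a b) \ {β : ℝ | ‖(β : ℂ) - wv E ε W x‖ < c'} with hA'
  have hA'm : MeasurableSet A' := by
    apply (hAm.inter measurableSet_Icc).diff
    apply measurableSet_lt _ measurable_const
    exact (Complex.measurable_ofReal.sub_const _).norm
  have hA'1 : ENNReal.ofReal (θ / 4) ≤ μ A' := by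
    have h1 : μ {β : ℝ | ‖(β : ℂ) - wv E ε W x‖ < c'} ≤ ENNReal.ofReal (θ / 4) := by
      have hsub : {β : ℝ | ‖(β : ℂ) - wv E ε W x‖ < c'} ⊆
          {β : ℝ | ‖(β : ℂ) - wv E ε W x‖ ≤ c'} := by
        intro β hβ
        simp only [mem_setOf_eq] at hβ ⊢
        exact hβ.le
      refine (measure_mono hsub).trans ((hμ.win _ _).trans ?_)
      apply le_of_eq
      congr 1
      rw [hc']
      field_simp
      ring
    have h0' : μ (Icc a b)ᶜ = 0 := by
      have := hμ.hi (Icc a b)ᶜ measurableSet_Icc.compl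
      rw [Set.compl_inter_self, measure_empty, mul_zero] at this
      exact le_antisymm this zero_le'
    have h2 : μ A ≤ μ A' + ENNReal.ofReal (θ / 4) := by
      calc μ A ≤ μ ((A' ∪ {β : ℝ | ‖(β : ℂ) - wv E ε W x‖ < c'}) ∪ (Icc a b)ᶜ) := by
            apply measure_mono
            intro β hβ
            by_cases h3 : β ∈ Icc a b
            · left
              by_cases h4 : ‖(β : ℂ) - wv E ε W x‖ < c'
              · right; exact h4
              · left; exact ⟨⟨hβ, h3⟩, h4⟩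
            · right; exact h3
        _ ≤ μ (A' ∪ {β : ℝ | ‖(β : ℂ) - wv E ε W x‖ < c'}) + μ (Icc a b)ᶜ := measure_union_le _ _
        _ = μ (A' ∪ {β : ℝ | ‖(β : ℂ) - wv E ε W x‖ < c'}) := by rw [h0', add_zero]
        _ ≤ μ A' + μ {β : ℝ | ‖(β : ℂ) - wv E ε W x‖ < c'} := measure_union_le _ _
        _ ≤ _ := by gcongr
    have h3 : ENNReal.ofReal (θ / 4) + ENNReal.ofReal (θ / 4) ≤ μ A' + ENNReal.ofReal (θ / 4) := by
      rw [← ENNReal.ofReal_add (by positivity) (by positivity), show θ / 4 + θ / 4 = θ / 2 by ring]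
      exact hA1.trans h2
    exact (ENNReal.add_le_add_iff_right ENNReal.ofReal_ne_top).1 h3
  have hWx : ∀ β ∈ Icc a b, |β - W x| ≤ D := by
    intro β hβ
    have h1 := hW x
    rw [abs_le]
    constructor <;> [linarith [hβ.1, h1.2]; linarith [hβ.2, h1.1]]
  -- one site
  have hone : pv X E ε W 0 ≤ ENNReal.ofReal (K1 * M) *
      ∫⁻ β in A', pv X E ε (Function.update W x β) 0 ∂μ := by
    have h1 := H1 (pv X E ε W 0)
      (fun β => ENNReal.ofReal M * pv X E ε (Function.update W x β) 0) (by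
        apply Measurable.const_mul
        have h2 : Measurable fun β : ℝ => Function.update W x β :=
          (upd_meas_at x).comp measurable_prodMk_left
        exact (pv_meas X E hε 0).comp h2) A' hA'm hA'1 (by
        intro s1 hs1 s2 hs2 h12
        have b1 := hWx s1 hs1.1.2
        have b2 := hWx s2 hs2.1.2
        have h3 := rmz_affine (VV X E ε W 0)
          (GF E ε W x x • VV X E ε W 0 - GF E ε W x 0 • VV X E ε W x) (W x) s1 s2 D ρ hρ0 b1 b2 h12
        rw [← rmz_VV X hε W x s1, ← rmz_VV X hε W x s2, norm_smul, norm_smul] at h3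
        have hmul : ∀ β ∈ Icc a b, ‖1 + ((β - W x : ℝ) : ℂ) * GF E ε W x x‖ ≤ 1 + D * g := by
          intro β hβ
          refine (norm_add_le _ _).trans ?_
          rw [norm_one, norm_mul, Complex.norm_real, Real.norm_eq_abs]
          have := hWx β hβ
          have := hGF x hx x hx
          gcongr
        have h4 := hmul s1 hs1.1.2
        have h5 := hmul s2 hs2.1.2
        have h6 : ‖VV X E ε W 0‖ ^ 2 ≤ M * ‖VV X E ε (Function.update W x s1) 0‖ ^ 2 +
            M * ‖VV X E ε (Function.update W x s2) 0‖ ^ 2 := by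
          refine h3.trans ?_
          rw [hM, mul_pow, mul_pow]
          have h7 : ‖1 + ((s1 - W x : ℝ) : ℂ) * GF E ε W x x‖ ^ 2 ≤ (1 + D * g) ^ 2 :=
            pow_le_pow_left₀ (norm_nonneg _) h4 2
          have h8 : ‖1 + ((s2 - W x : ℝ) : ℂ) * GF E ε W x x‖ ^ 2 ≤ (1 + D * g) ^ 2 :=
            pow_le_pow_left₀ (norm_nonneg _) h5 2
          have h9 : ‖1 + ((s1 - W x : ℝ) : ℂ) * GF E ε W x x‖ ^ 2 *
              ‖VV X E ε (Function.update W x s1) 0‖ ^ 2 ≤ (1 + D * g) ^ 2 *
              ‖VV X E ε (Function.update W x s1) 0‖ ^ 2 := by gcongr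
          have h10 : ‖1 + ((s2 - W x : ℝ) : ℂ) * GF E ε W x x‖ ^ 2 *
              ‖VV X E ε (Function.update W x s2) 0‖ ^ 2 ≤ (1 + D * g) ^ 2 *
              ‖VV X E ε (Function.update W x s2) 0‖ ^ 2 := by gcongr
          calc _ ≤ 2 * (D / ρ) ^ 2 * ((1 + D * g) ^ 2 *
              ‖VV X E ε (Function.update W x s1) 0‖ ^ 2 + (1 + D * g) ^ 2 *
              ‖VV X E ε (Function.update W x s2) 0‖ ^ 2) := by gcongr
            _ = _ := by ring
        unfold pv
        rw [← ENNReal.ofReal_mul hM0.le, ← ENNReal.ofReal_mul hM0.le,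
          ← ENNReal.ofReal_add (by positivity) (by positivity)]
        exact ENNReal.ofReal_le_ofReal h6)
    refine h1.trans (le_of_eq ?_)
    rw [lintegral_const_mul' _ _ ENNReal.ofReal_ne_top, ← mul_assoc,
      ← ENNReal.ofReal_mul hK1.le]
  -- the other sites
  have hrest : ∀ β ∈ A', pv X E ε (Function.update W x β) 0 ≤ ENNReal.ofReal KS *
      ∫⁻ W' in {W' | Function.update W' x β ∈ B},
        pv X E ε (spl (insert x S) (Function.update W' x β) W) 0 ∂(PP (ZZ d) μ) := by
    intro β hβ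
    have hGx : ∀ z ∈ Λ, ‖GF E ε (Function.update W x β) x z‖ ≤ g / m0 := by
      intro z hz
      have h1 := rmz_mult_eq (E := E) hε W x z β
      have h2 := rmz_mult_ge (E := E) hε W x β D c' hD0 hc0 (hWx β hβ.1.2) (not_lt.1 hβ.2)
      have h3 : m0 * ‖GF E ε (Function.update W x β) x z‖ ≤ g := by
        calc m0 * ‖GF E ε (Function.update W x β) x z‖
            ≤ ‖1 + ((β - W x : ℝ) : ℂ) * GF E ε W x x‖ *
              ‖GF E ε (Function.update W x β) x z‖ := by gcongr
          _ = ‖GF E ε W x z‖ := by rw [← norm_mul, h1]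
          _ ≤ g := hGF x hx z hz
      rw [le_div_iff₀ hm00, mul_comm]
      exact h3
    have h1 := HS X E ε hε (Function.update W x β) (by
        intro y
        by_cases hy : y = x
        · subst hy
          rw [Function.update_self]
          exact hβ.1.2
        · rw [Function.update_of_ne hy]
          exact hW y) (by
        intro y hy z hz
        rw [GF_upd hε W x β y z]
        refine (norm_sub_le _ _).trans ?_
        rw [norm_mul, norm_mul, Complex.norm_real, Real.norm_eq_abs]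
        have := hWx β hβ.1.2
        have := hGF y hy z hz
        have := hGF y hy x hx
        have := hGx z hz
        gcongr) {W' | Function.update W' x β ∈ B} (hslm β) hβ.1.1
    refine h1.trans (le_of_eq ?_)
    congr 1
    apply lintegral_congr
    intro W'
    congr 1
    funext y
    unfold spl
    by_cases hy : y = x
    · subst hy
      rw [if_neg hxS, if_pos (Finset.mem_insert_self _ _), Function.update_self,
        Function.update_self]
    · rw [Function.update_of_ne hy, Function.update_of_ne hy]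
      by_cases hyS : y ∈ S
      · rw [if_pos hyS, if_pos (Finset.mem_insert_of_mem hyS)]
      · rw [if_neg hyS, if_neg (by
          rw [Finset.mem_insert]
          rintro (h | h)
          · exact hy h
          · exact hyS h)]
  have hfm : Measurable fun W' : ZZ d → ℝ => pv X E ε (spl (insert x S) W' W) 0 := by
    have h2 : Measurable fun W' : ZZ d → ℝ => spl (insert x S) W' W := by
      apply measurable_pi_lambda
      intro y
      unfold spl
      by_cases hy : y ∈ insert x S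
      · simp only [if_pos hy]
        exact measurable_pi_apply y
      · simp only [if_neg hy]
        exact measurable_const
    exact (pv_meas X E hε 0).comp h2
  have hgm : Measurable fun β : ℝ => ∫⁻ W' in {W' | Function.update W' x β ∈ B},
      pv X E ε (spl (insert x S) (Function.update W' x β) W) 0 ∂(PP (ZZ d) μ) := by
    have h3 : (fun β : ℝ => ∫⁻ W' in {W' | Function.update W' x β ∈ B},
        pv X E ε (spl (insert x S) (Function.update W' x β) W) 0 ∂(PP (ZZ d) μ)) =
        fun β : ℝ => ∫⁻ W', B.indicator (fun W' => pv X E ε (spl (insert x S) W' W) 0)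
          (Function.update W' x β) ∂(PP (ZZ d) μ) := by
      funext β
      rw [← lintegral_indicator (hslm β)]
      apply lintegral_congr
      intro W'
      by_cases h : Function.update W' x β ∈ B
      · rw [indicator_of_mem (show W' ∈ {W' | Function.update W' x β ∈ B} from h),
          indicator_of_mem h]
      · rw [indicator_of_notMem (show W' ∉ {W' | Function.update W' x β ∈ B} from h),
          indicator_of_notMem h]
    rw [h3]
    apply Measurable.lintegral_prod_right'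
      (f := fun p : ℝ × (ZZ d → ℝ) => B.indicator
        (fun W' => pv X E ε (spl (insert x S) W' W) 0) (Function.update p.2 x p.1))
    exact (hfm.indicator hB).comp ((upd_meas_at x).comp measurable_swap)
  calc pv X E ε W 0 ≤ ENNReal.ofReal (K1 * M) *
        ∫⁻ β in A', pv X E ε (Function.update W x β) 0 ∂μ := hone
    _ ≤ ENNReal.ofReal (K1 * M) * ∫⁻ β in A', ENNReal.ofReal KS *
        ∫⁻ W' in {W' | Function.update W' x β ∈ B},
          pv X E ε (spl (insert x S) (Function.update W' x β) W) 0 ∂(PP (ZZ d) μ) ∂μ := by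
        gcongr 1
        exact setLIntegral_mono (hgm.const_mul _) hrest
    _ = ENNReal.ofReal (K1 * M * KS) * ∫⁻ β in A',
        ∫⁻ W' in {W' | Function.update W' x β ∈ B},
          pv X E ε (spl (insert x S) (Function.update W' x β) W) 0 ∂(PP (ZZ d) μ) ∂μ := by
        rw [lintegral_const_mul' _ _ ENNReal.ofReal_ne_top, ← mul_assoc,
          ← ENNReal.ofReal_mul (by positivity)]
    _ ≤ ENNReal.ofReal (K1 * M * KS) * ∫⁻ β,
        ∫⁻ W' in {W' | Function.update W' x β ∈ B},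
          pv X E ε (spl (insert x S) (Function.update W' x β) W) 0 ∂(PP (ZZ d) μ) ∂μ := by
        gcongr 1
        exact setLIntegral_le_lintegral _ _
    _ = _ := by rw [hindic _ hfm]

/-- A12 -/
theorem remez : StmtRemez := by
  intro μ _ a b c C hμ d Λ g θ h0 hg hθ
  have h : ∀ S : Finset (ZZ d), S ⊆ Λ → RmzClaim μ a b d Λ S := by
    classical
    intro S
    induction S using Finset.induction_on with
    | empty => intro _; exact rmz_base μ a b Λ
    | insert x S hxS ih =>
      intro hS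
      exact rmz_step μ hμ Λ S h0 x (hS (Finset.mem_insert_self _ _)) hxS
        (ih ((Finset.subset_insert _ _).trans hS))
  exact h Λ subset_rfl g θ hg hθ

end Pool.SU
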