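import Mathlib
import Pool.Agent.SU.Defs

/-!
# A23: iteration of the integrated inequality
-/

set_option autoImplicit false
set_option linter.unusedSectionVars false

open Complex MeasureTheory Filter Topology Set ContinuousLinearMap
open scoped InnerProductSpace ENNReal NNReal

namespace Pool.SU

open Pool.NB Pool.SB

/-- real iteration lemma -/
lemma smm_iter (N : ℝ → ℝ) (h0 : ∀ ε, 0 ≤ N ε)
    (hmono : ∀ x y : ℝ, 0 < x → x ≤ y → N x ≤ N y) {K ε0 : ℝ} (hK : 0 < K) (hε0 : 0 < ε0)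
    (hε1 : ε0 ≤ 1) (h : ∀ ε : ℝ, 0 < ε → ε ≤ ε0 → N ε ≤ K * (N ε - N (ε / 2)) + K * ε ^ 2) :
    ∃ k : ℝ, 0 < k ∧ ∃ A : ℝ, 0 ≤ A ∧ ∀ ε : ℝ, 0 < ε → ε ≤ 1 → N ε ≤ A * ε ^ k := by
  set θ : ℝ := max (1 - 1 / K) (1 / 2) with hθ
  have hθ1 : θ < 1 := by
    apply max_lt
    · have : 0 < 1 / K := by positivity
      linarith
    · norm_num
  have hθh : 1 / 2 ≤ θ := le_max_right _ _
  have hθ0 : 0 < θ := lt_of_lt_of_le (by norm_num) hθh
  set F : ℝ → ℝ := fun ε => N ε + 4 * ε ^ 2 with hF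
  have hF0 : ∀ ε, 0 ≤ F ε := fun ε => by
    simp only [hF]
    have := h0 ε
    positivity
  have step : ∀ ε : ℝ, 0 < ε → ε ≤ ε0 → F (ε / 2) ≤ θ * F ε := by
    intro ε h1 h2
    have h3 := h ε h1 h2
    have h4 : N (ε / 2) ≤ (1 - 1 / K) * N ε + ε ^ 2 := by
      have h5 : K * N (ε / 2) ≤ K * ((1 - 1 / K) * N ε + ε ^ 2) := by
        have : K * ((1 - 1 / K) * N ε + ε ^ 2) = K * N ε - N ε + K * ε ^ 2 := by
          field_simp
        rw [this]; linarith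
      exact le_of_mul_le_mul_left h5 hK
    have h6 : (1 - 1 / K) * N ε ≤ θ * N ε :=
      mul_le_mul_of_nonneg_right (le_max_left _ _) (h0 ε)
    have h7 : (1 / 2) * (4 * ε ^ 2) ≤ θ * (4 * ε ^ 2) :=
      mul_le_mul_of_nonneg_right hθh (by positivity)
    simp only [hF]
    nlinarith
  have iter : ∀ j : ℕ, F (ε0 * (1 / 2) ^ j) ≤ θ ^ j * F ε0 := by
    intro j
    induction j with
    | zero => simp
    | succ j ih =>
      have h1 := step (ε0 * (1 / 2) ^ j) (by positivity)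
        (mul_le_of_le_one_right hε0.le (pow_le_one₀ (by norm_num) (by norm_num)))
      have e1 : ε0 * ((1:ℝ) / 2) ^ (j + 1) = ε0 * (1 / 2) ^ j / 2 := by ring
      rw [e1]
      calc _ ≤ θ * F (ε0 * (1 / 2) ^ j) := h1
        _ ≤ θ * (θ ^ j * F ε0) := by gcongr
        _ = _ := by ring
  set k : ℝ := Real.log θ / Real.log (1 / 2) with hk
  have hl2 : Real.log (1 / 2) < 0 := Real.log_neg (by norm_num) (by norm_num)
  have hlθ : Real.log θ < 0 := Real.log_neg hθ0 hθ1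
  have hkpos : 0 < k := div_pos_of_neg_of_neg hlθ hl2
  have hθk : θ = (1 / 2 : ℝ) ^ k := by
    rw [Real.rpow_def_of_pos (by norm_num), hk, mul_div_cancel₀ _ hl2.ne, Real.exp_log hθ0]
  refine ⟨k, hkpos, (2 ^ k * F ε0 + N 1) * ε0⁻¹ ^ k, mul_nonneg (add_nonneg
    (mul_nonneg (by positivity) (hF0 _)) (h0 1)) (by positivity), ?_⟩
  intro ε h1 h2
  have hq : 0 < ε * ε0⁻¹ := by positivity
  have e0 : (2 ^ k * F ε0 + N 1) * ε0⁻¹ ^ k * ε ^ k = (2 ^ k * F ε0 + N 1) * (ε * ε0⁻¹) ^ k := by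
    rw [Real.mul_rpow h1.le (by positivity)]; ring
  rw [e0]
  by_cases h3 : ε ≤ ε0
  · have hq1 : ε * ε0⁻¹ ≤ 1 := by
      rw [← div_eq_mul_inv, div_le_one hε0]; exact h3
    obtain ⟨j, hj1, hj2⟩ := exists_nat_pow_near_of_lt_one hq hq1 (by norm_num : (0:ℝ) < 1 / 2)
      (by norm_num : (1:ℝ) / 2 < 1)
    have h4 : ε ≤ ε0 * (1 / 2) ^ j := by
      have := mul_le_mul_of_nonneg_left hj2 hε0.le
      have e1 : ε0 * (ε * ε0⁻¹) = ε := by field_simp
      rwa [e1] at this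
    calc N ε ≤ N (ε0 * (1 / 2) ^ j) := hmono _ _ h1 h4
      _ ≤ F (ε0 * (1 / 2) ^ j) := by
        simp only [hF]
        have : 0 ≤ 4 * (ε0 * (1 / 2) ^ j) ^ 2 := by positivity
        linarith
      _ ≤ θ ^ j * F ε0 := iter j
      _ ≤ (2 ^ k * (ε * ε0⁻¹) ^ k) * F ε0 := by
        refine mul_le_mul_of_nonneg_right ?_ (hF0 _)
        rw [hθk, ← Real.rpow_natCast, ← Real.rpow_mul (by norm_num), mul_comm k,
          Real.rpow_mul (by norm_num), Real.rpow_natCast, ← Real.mul_rpow (by norm_num) hq.le]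
        refine Real.rpow_le_rpow (by positivity) ?_ hkpos.le
        have : ((1:ℝ) / 2) ^ (j + 1) = (1 / 2) ^ j / 2 := by ring
        rw [this] at hj1
        linarith
      _ ≤ _ := by
        have : 0 ≤ N 1 * (ε * ε0⁻¹) ^ k := mul_nonneg (h0 1) (by positivity)
        nlinarith
  · have hq1 : 1 ≤ ε * ε0⁻¹ := by
      rw [← div_eq_mul_inv, one_le_div hε0]; exact (not_le.mp h3).le
    calc N ε ≤ N 1 := hmono _ _ h1 h2
      _ ≤ N 1 * (ε * ε0⁻¹) ^ k := le_mul_of_one_le_right (h0 1) (Real.one_le_rpow hq1 hkpos.le)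
      _ ≤ _ := by
        have : 0 ≤ 2 ^ k * F ε0 * (ε * ε0⁻¹) ^ k :=
          mul_nonneg (mul_nonneg (by positivity) (hF0 _)) (by positivity)
        nlinarith

theorem SM_of (hNI : StmtNI) : StmtSM := by
  intro μ _ a b c C hμ d hd X
  obtain ⟨K, ε0, hK, hε0, hε1, hN⟩ := hNI μ a b c C hμ d hd X
  obtain ⟨k, hk, A, hA, hN⟩ := smm_iter (fun ε => NI μ (ee d) X ε)
    (fun ε => NI_nonneg μ (ee d) X ε) (fun x y hx hxy => NI_mono μ (ee d) X hx hxy) hK hε0 hε1 hN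
  refine ⟨2 * k / (k + 2), by positivity, 2 * A + 2 * ‖Vel (ee d) X‖ ^ 2, fun t ht => ?_⟩
  have ht0 : 0 < t := by linarith
  set ε : ℝ := t ^ (-(2 / (k + 2))) with hε
  have hε0 : 0 < ε := Real.rpow_pos_of_pos ht0 _
  have hε1 : ε ≤ 1 := Real.rpow_le_one_of_one_le_of_nonpos ht (by
    have : 0 < 2 / (k + 2) := by positivity
    linarith)
  refine (SM_avg μ (ee d) X hε0 ht0.le).trans (ENNReal.ofReal_le_ofReal ?_)
  have e1 : t ^ 2 * ε ^ k = t ^ (2 - 2 * k / (k + 2)) := by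
    rw [hε, ← Real.rpow_mul ht0.le, ← Real.rpow_natCast, ← Real.rpow_add ht0]
    congr 1
    push_cast
    ring
  have e2 : (1 / ε) ^ 2 = t ^ (2 - 2 * k / (k + 2)) := by
    rw [one_div, hε, ← Real.rpow_neg ht0.le, ← Real.rpow_natCast, ← Real.rpow_mul ht0.le]
    congr 1
    push_cast
    field_simp
    ring
  calc 2 * t ^ 2 * NI μ (ee d) X ε + 2 * (‖Vel (ee d) X‖ / ε) ^ 2
      ≤ 2 * t ^ 2 * (A * ε ^ k) + 2 * (‖Vel (ee d) X‖ / ε) ^ 2 := by
        gcongr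
        exact hN ε hε0 hε1
    _ = 2 * A * (t ^ 2 * ε ^ k) + 2 * ‖Vel (ee d) X‖ ^ 2 * (1 / ε) ^ 2 := by
        rw [div_pow, div_pow]; ring
    _ = _ := by rw [e1, e2]; ring

end Pool.SU
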