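import Pool.Agent.SU.Defs

/-!
# A1: the single site inequality
-/

set_option autoImplicit false
set_option linter.unusedSectionVars false
set_option linter.unusedSimpArgs false

open Complex MeasureTheory Filter Topology Set
open scoped InnerProductSpace ENNReal NNReal

namespace Pool.SU

open Pool.NB Pool.SB

/-! ### The Lorentz integral -/

lemma sgl_norm_inv_sq (w : ℂ) (b : ℝ) :
    ‖((b : ℂ) - w)⁻¹‖ ^ 2 = ((b - w.re) ^ 2 + w.im ^ 2)⁻¹ := by
  rw [norm_inv, inv_pow, ← Complex.normSq_eq_norm_sq, Complex.normSq_apply]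
  congr 1
  simp
  ring

lemma sgl_lorentz (w : ℂ) (hw : 0 < w.im) :
    ∫⁻ β : ℝ, ENNReal.ofReal (‖((β : ℂ) - w)⁻¹‖ ^ 2) = ENNReal.ofReal (Real.pi / w.im) := by
  have hne : w.im ≠ 0 := hw.ne'
  have e1 : ∀ β : ℝ, ‖((β : ℂ) - w)⁻¹‖ ^ 2 =
      (w.im ^ 2)⁻¹ * (1 + ((β - w.re) / w.im) ^ 2)⁻¹ := by
    intro β
    rw [sgl_norm_inv_sq, ← mul_inv]
    congr 1
    field_simp
    ring
  have hint : Integrable fun β : ℝ => ‖((β : ℂ) - w)⁻¹‖ ^ 2 := by
    have h1 := ((integrable_inv_one_add_sq.comp_div hne).comp_sub_right w.re).const_mul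
      (w.im ^ 2)⁻¹
    refine h1.congr (Eventually.of_forall fun β => ?_)
    simp only
    rw [e1]
  rw [← ofReal_integral_eq_lintegral_ofReal hint (Eventually.of_forall fun β => sq_nonneg _)]
  congr 1
  rw [integral_congr_ae (Eventually.of_forall e1), integral_const_mul,
    integral_sub_right_eq_self (fun x : ℝ => (1 + (x / w.im) ^ 2)⁻¹) w.re,
    Measure.integral_comp_div (fun x : ℝ => (1 + x ^ 2)⁻¹) w.im, integral_univ_inv_one_add_sq,
    smul_eq_mul, abs_of_pos hw]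
  field_simp

/-! ### Three values -/

variable {d : ℕ}

/-- the quadratic polynomial -/
noncomputable def sglP (A As A0 : ell (ZZ d)) (v : ℝ) (ξ : ℝ) : ell (ZZ d) :=
  ((ξ : ℂ) + I) • A + ((ξ : ℂ) - I) • As - ((v * (ξ ^ 2 + 1) : ℝ) : ℂ) • A0

/-- an auxiliary coefficient -/
noncomputable def sgle (ξ η : ℝ) : ℂ := (1 + I * ξ) * (2 * ξ + η) - I * (ξ ^ 2 + 1)

lemma sgl_three (A As A0 : ell (ZZ d)) (v ξ η : ℝ) (hη : 0 < η) :
    (2 : ℂ) • A =
      (-((1 + I * ξ) / η) - I - sgle ξ η / (2 * η ^ 2) : ℂ) • sglP A As A0 v ξ +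
      ((1 + I * ξ) / η + sgle ξ η / η ^ 2 : ℂ) • sglP A As A0 v (ξ + η) +
      (-(sgle ξ η / (2 * η ^ 2)) : ℂ) • sglP A As A0 v (ξ + 2 * η) := by
  have hη' : (η : ℂ) ≠ 0 := by exact_mod_cast hη.ne'
  have hI : I ^ 2 = -1 := Complex.I_sq
  unfold sglP sgle
  push_cast
  match_scalars
  · field_simp
    ring_nf
    simp only [hI]
    ring
  · field_simp
    ring_nf
    simp only [hI]
    ring
  · field_simp
    ring_nf

lemma sgle_norm (ξ η M : ℝ) (hη : 0 < η) (hη1 : η ≤ 1) (hξ : |ξ| ≤ M) :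
    ‖sgle ξ η‖ ≤ (1 + M) * (2 * M + 1) + (M ^ 2 + 1) := by
  have hM : 0 ≤ M := (abs_nonneg ξ).trans hξ
  have h1 : ‖(ξ : ℂ)‖ ≤ M := by rwa [Complex.norm_real, Real.norm_eq_abs]
  have h2 : ‖(η : ℂ)‖ ≤ 1 := by rwa [Complex.norm_real, Real.norm_eq_abs, abs_of_pos hη]
  have h3 : ‖1 + I * (ξ : ℂ)‖ ≤ 1 + M := by
    refine (norm_add_le _ _).trans ?_
    rw [norm_one, norm_mul, Complex.norm_I, one_mul]
    linarith
  have h4 : ‖2 * (ξ : ℂ) + η‖ ≤ 2 * M + 1 := by
    refine (norm_add_le _ _).trans ?_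
    rw [norm_mul, Complex.norm_ofNat]
    linarith
  have h5 : ‖I * ((ξ : ℂ) ^ 2 + 1)‖ ≤ M ^ 2 + 1 := by
    rw [norm_mul, Complex.norm_I, one_mul]
    refine (norm_add_le _ _).trans ?_
    rw [norm_one, norm_pow]
    have := pow_le_pow_left₀ (norm_nonneg _) h1 2
    linarith
  unfold sgle
  refine (norm_sub_le _ _).trans (add_le_add ?_ h5)
  rw [norm_mul]
  exact mul_le_mul h3 h4 (norm_nonneg _) (by linarith)

/-- the constant -/
noncomputable def sglC (M η : ℝ) : ℝ :=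
  (1 + M) / η + 1 + ((1 + M) * (2 * M + 1) + (M ^ 2 + 1)) / η ^ 2

lemma sgl_A_le (A As A0 : ell (ZZ d)) (v ξ η M : ℝ) (hη : 0 < η) (hη1 : η ≤ 1) (hξ : |ξ| ≤ M) :
    ‖A‖ ≤ sglC M η * (‖sglP A As A0 v ξ‖ + ‖sglP A As A0 v (ξ + η)‖ +
      ‖sglP A As A0 v (ξ + 2 * η)‖) := by
  have hM : 0 ≤ M := (abs_nonneg ξ).trans hξ
  have h1 : ‖(ξ : ℂ)‖ ≤ M := by rwa [Complex.norm_real, Real.norm_eq_abs]
  have hηn : ‖(η : ℂ)‖ = η := by rw [Complex.norm_real, Real.norm_eq_abs, abs_of_pos hη]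
  have h3 : ‖1 + I * (ξ : ℂ)‖ ≤ 1 + M := by
    refine (norm_add_le _ _).trans ?_
    rw [norm_one, norm_mul, Complex.norm_I, one_mul]
    linarith
  have he := sgle_norm ξ η M hη hη1 hξ
  set T := (1 + M) * (2 * M + 1) + (M ^ 2 + 1) with hT
  have hT0 : 0 ≤ T := (norm_nonneg _).trans he
  have a1 : ‖(1 + I * (ξ : ℂ)) / η‖ ≤ (1 + M) / η := by
    rw [norm_div, hηn]
    exact div_le_div_of_nonneg_right h3 hη.le
  have a2 : ‖sgle ξ η / (2 * (η : ℂ) ^ 2)‖ ≤ T / η ^ 2 := by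
    rw [norm_div, norm_mul, norm_pow, hηn, Complex.norm_ofNat]
    refine (div_le_div_of_nonneg_right he (by positivity)).trans ?_
    exact div_le_div_of_nonneg_left hT0 (by positivity) (by nlinarith [sq_nonneg η])
  have a3 : ‖sgle ξ η / (η : ℂ) ^ 2‖ ≤ T / η ^ 2 := by
    rw [norm_div, norm_pow, hηn]
    exact div_le_div_of_nonneg_right he (by positivity)
  have hC : sglC M η = (1 + M) / η + 1 + T / η ^ 2 := rfl
  have p1 : 0 ≤ (1 + M) / η := by positivity
  have p2 : 0 ≤ T / η ^ 2 := by positivity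
  have c0 : ‖(-((1 + I * (ξ : ℂ)) / η) - I - sgle ξ η / (2 * (η : ℂ) ^ 2) : ℂ)‖ ≤ sglC M η := by
    refine (norm_sub_le _ _).trans ?_
    have := norm_sub_le (-((1 + I * (ξ : ℂ)) / η)) I
    rw [norm_neg, Complex.norm_I] at this
    rw [hC]
    linarith
  have c1 : ‖((1 + I * (ξ : ℂ)) / η + sgle ξ η / (η : ℂ) ^ 2 : ℂ)‖ ≤ sglC M η := by
    refine (norm_add_le _ _).trans ?_
    rw [hC]
    linarith
  have c2 : ‖(-(sgle ξ η / (2 * (η : ℂ) ^ 2)) : ℂ)‖ ≤ sglC M η := by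
    rw [norm_neg, hC]
    linarith
  have hm := congrArg norm (sgl_three A As A0 v ξ η hη)
  rw [norm_smul, Complex.norm_ofNat] at hm
  have hs := norm_add₃_le (a := (-((1 + I * ξ) / η) - I - sgle ξ η / (2 * η ^ 2) : ℂ) •
      sglP A As A0 v ξ) (b := ((1 + I * ξ) / η + sgle ξ η / η ^ 2 : ℂ) • sglP A As A0 v (ξ + η))
    (c := (-(sgle ξ η / (2 * η ^ 2)) : ℂ) • sglP A As A0 v (ξ + 2 * η))
  rw [← hm, norm_smul, norm_smul, norm_smul] at hs
  have b0 := mul_le_mul_of_nonneg_right c0 (norm_nonneg (sglP A As A0 v ξ))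
  have b1 := mul_le_mul_of_nonneg_right c1 (norm_nonneg (sglP A As A0 v (ξ + η)))
  have b2 := mul_le_mul_of_nonneg_right c2 (norm_nonneg (sglP A As A0 v (ξ + 2 * η)))
  have := norm_nonneg A
  nlinarith

/-- the integrand -/
noncomputable def sglG (A A0 : ell (ZZ d)) (w : ℂ) (β : ℝ) : ell (ZZ d) :=
  ((β : ℂ) - w)⁻¹ • A + star (((β : ℂ) - w)⁻¹ • A) - A0

lemma sgl_P_eq (A A0 : ell (ZZ d)) (w : ℂ) (hw : 0 < w.im) (β : ℝ) :
    sglP A (star A) A0 w.im ((β - w.re) / w.im) =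
      ((w.im * (((β - w.re) / w.im) ^ 2 + 1) : ℝ) : ℂ) • sglG A A0 w β := by
  set ξ := (β - w.re) / w.im with hξ
  have hne : (w.im : ℂ) ≠ 0 := by exact_mod_cast hw.ne'
  have hβ : (β : ℂ) - w = w.im * ((ξ : ℂ) - I) := by
    have e1 : w.im * ξ = β - w.re := by
      rw [hξ]
      field_simp
    apply Complex.ext
    · simp
      rw [e1]
    · simp
  have hξI : (ξ : ℂ) - I ≠ 0 := by
    intro h
    have := congrArg Complex.im h
    simp at this
  have hξI' : (ξ : ℂ) + I ≠ 0 := by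
    intro h
    have := congrArg Complex.im h
    simp at this
  have h1 : ((w.im * (ξ ^ 2 + 1) : ℝ) : ℂ) * ((β : ℂ) - w)⁻¹ = ξ + I := by
    rw [hβ]
    push_cast
    field_simp
    have := Complex.I_sq
    linear_combination this
  have h2 : ((w.im * (ξ ^ 2 + 1) : ℝ) : ℂ) * star (((β : ℂ) - w)⁻¹) = ξ - I := by
    have := congrArg star h1
    rw [star_mul', star_add] at this
    simpa [sub_eq_add_neg] using this
  unfold sglP sglG
  rw [star_smul, smul_sub, smul_add, smul_smul, smul_smul, h1, h2]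

lemma sgl_norm_P (A A0 : ell (ZZ d)) (w : ℂ) (hw : 0 < w.im) (β M : ℝ)
    (hβ : |(β - w.re) / w.im| ≤ M) :
    ‖sglP A (star A) A0 w.im ((β - w.re) / w.im)‖ ≤ w.im * (M ^ 2 + 1) * ‖sglG A A0 w β‖ := by
  rw [sgl_P_eq A A0 w hw, norm_smul, Complex.norm_real, Real.norm_eq_abs]
  refine mul_le_mul_of_nonneg_right ?_ (norm_nonneg _)
  rw [abs_of_nonneg (by positivity)]
  have := pow_le_pow_left₀ (abs_nonneg _) hβ 2
  rw [sq_abs] at this
  exact mul_le_mul_of_nonneg_left (by linarith) hw.le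

lemma sgl_pt (A A0 : ell (ZZ d)) (w : ℂ) (hw : 0 < w.im) (β η M : ℝ) (hη : 0 < η) (hη1 : η ≤ 1)
    (h0 : |(β - w.re) / w.im| ≤ M) (h1 : |(β + η * w.im - w.re) / w.im| ≤ M)
    (h2 : |(β + 2 * η * w.im - w.re) / w.im| ≤ M) :
    ‖A‖ ^ 2 ≤ 3 * (sglC M η * (w.im * (M ^ 2 + 1))) ^ 2 * (‖sglG A A0 w β‖ ^ 2 +
      ‖sglG A A0 w (β + η * w.im)‖ ^ 2 + ‖sglG A A0 w (β + 2 * η * w.im)‖ ^ 2) := by
  have hM : 0 ≤ M := (abs_nonneg _).trans h0
  have a0 := sgl_A_le A (star A) A0 w.im ((β - w.re) / w.im) η M hη hη1 h0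
  have e1 : (β - w.re) / w.im + η = (β + η * w.im - w.re) / w.im := by
    field_simp
    ring
  have e2 : (β - w.re) / w.im + 2 * η = (β + 2 * η * w.im - w.re) / w.im := by
    field_simp
    ring
  rw [e1, e2] at a0
  have b0 := sgl_norm_P A A0 w hw β M h0
  have b1 := sgl_norm_P A A0 w hw (β + η * w.im) M h1
  have b2 := sgl_norm_P A A0 w hw (β + 2 * η * w.im) M h2
  have hC : 0 ≤ sglC M η := by
    unfold sglC
    positivity
  set x := ‖sglG A A0 w β‖
  set y := ‖sglG A A0 w (β + η * w.im)‖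
  set z := ‖sglG A A0 w (β + 2 * η * w.im)‖
  have hx : 0 ≤ x := norm_nonneg _
  have hy : 0 ≤ y := norm_nonneg _
  have hz : 0 ≤ z := norm_nonneg _
  have a1 : ‖A‖ ≤ sglC M η * (w.im * (M ^ 2 + 1)) * (x + y + z) := by
    have a3 : sglC M η * (w.im * (M ^ 2 + 1)) * (x + y + z) = sglC M η *
        (w.im * (M ^ 2 + 1) * x + w.im * (M ^ 2 + 1) * y + w.im * (M ^ 2 + 1) * z) := by ring
    rw [a3]
    refine a0.trans (mul_le_mul_of_nonneg_left ?_ hC)
    exact add_le_add (add_le_add b0 b1) b2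
  have a2 := pow_le_pow_left₀ (norm_nonneg A) a1 2
  refine a2.trans ?_
  rw [mul_pow, mul_comm (3 : ℝ), mul_assoc]
  refine mul_le_mul_of_nonneg_left ?_ (sq_nonneg _)
  nlinarith [sq_nonneg (x - y), sq_nonneg (y - z), sq_nonneg (x - z)]

/-! ### Integration -/

lemma sgl_cont (A A0 : ell (ZZ d)) (w : ℂ) (hw : 0 < w.im) : Continuous (sglG A A0 w) := by
  have h1 : Continuous fun β : ℝ => ((β : ℂ) - w)⁻¹ := by
    refine Continuous.inv₀ (by fun_prop) fun β h => ?_
    have := congrArg Complex.im h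
    simp at this
    exact hw.ne' this
  unfold sglG
  have h2 : Continuous fun β : ℝ => ((β : ℂ) - w)⁻¹ • A := h1.smul continuous_const
  exact (h2.add (continuous_star.comp h2)).sub continuous_const

lemma sgl_shift (g : ℝ → ℝ≥0∞) (a b s r t : ℝ) (h : ∀ β ∈ Icc s (s + r), β + t ∈ Icc a b) :
    ∫⁻ β in Icc s (s + r), g (β + t) ≤ ∫⁻ β in Icc a b, g β := by
  rw [← lintegral_indicator measurableSet_Icc, ← lintegral_indicator measurableSet_Icc]
  rw [← lintegral_add_right_eq_self (fun β => (Icc a b).indicator g β) t]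
  refine lintegral_mono fun β => ?_
  by_cases hβ : β ∈ Icc s (s + r)
  · rw [indicator_of_mem hβ, indicator_of_mem (h β hβ)]
  · rw [indicator_of_notMem hβ]
    exact zero_le

lemma sgl_interval (a b K : ℝ) (hab : a < b) (w : ℂ) (hK : 0 < K) (hw : w ∈ Gd a b K) :
    ∃ s : ℝ, ∀ β t : ℝ, β ∈ Icc s (s + min 1 ((b - a) / K) / 3 * w.im) → 0 ≤ t →
      t ≤ 2 * (min 1 ((b - a) / K) / 3 * w.im) →
      β + t ∈ Icc a b ∧ |(β + t - w.re) / w.im| ≤ K + 1 := by
  obtain ⟨hv, hwK, h1, h2⟩ := hw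
  set ℓ := min 1 ((b - a) / K) with hℓ
  have hℓ0 : 0 < ℓ := lt_min one_pos (div_pos (by linarith) hK)
  have hℓ1 : ℓ ≤ 1 := min_le_left _ _
  have hℓ2 : ℓ * K ≤ b - a := by
    have := min_le_right 1 ((b - a) / K)
    rwa [le_div_iff₀ hK] at this
  have hvK : w.im ≤ K := (Complex.im_le_norm w).trans hwK
  have hℓv : ℓ * w.im ≤ b - a := (mul_le_mul_of_nonneg_left hvK hℓ0.le).trans hℓ2
  have hℓv1 : ℓ * w.im ≤ w.im := mul_le_of_le_one_left hv.le hℓ1
  have hKv : 0 < K * w.im := mul_pos hK hv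
  refine ⟨min (max a (min w.re b)) (b - ℓ * w.im), ?_⟩
  intro β t hβ ht ht2
  rw [mem_Icc] at hβ
  set p := max a (min w.re b) with hp
  have hp1 : a ≤ p := le_max_left _ _
  have hp2 : p ≤ b := max_le hab.le (min_le_right _ _)
  have hp3 : |p - w.re| ≤ K * w.im := by
    rw [abs_le]
    constructor
    · rcases le_total w.re b with h | h
      · have : w.re ≤ p := by
          rw [hp, min_eq_left h]
          exact le_max_right _ _
        linarith
      · have : p = b := by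
          rw [hp, min_eq_right h, max_eq_right hab.le]
        linarith
    · rcases le_total a (min w.re b) with h | h
      · have h5 : p ≤ w.re := by
          rw [hp, max_eq_right h]
          exact min_le_left _ _
        linarith
      · have h5 : p = a := by
          rw [hp, max_eq_left h]
        linarith
  set s := min p (b - ℓ * w.im) with hs
  have hs1 : a ≤ s := le_min hp1 (by linarith)
  have hs2 : s ≤ p := min_le_left _ _
  have hs3 : s ≤ b - ℓ * w.im := min_le_right _ _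
  have hs4 : p ≤ s + ℓ * w.im := by
    rcases le_total p (b - ℓ * w.im) with h | h
    · rw [hs, min_eq_left h]
      have : 0 < ℓ * w.im := mul_pos hℓ0 hv
      linarith
    · rw [hs, min_eq_right h]
      linarith
  have hb1 : s ≤ β + t := by linarith
  have hb2 : β + t ≤ s + ℓ * w.im := by linarith
  refine ⟨⟨by linarith, by linarith⟩, ?_⟩
  rw [abs_div, abs_of_pos hv, div_le_iff₀ hv]
  rw [abs_le] at hp3 ⊢
  constructor
  · nlinarith
  · nlinarith

theorem single : StmtSingle := by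
  intro μ _ a b c C hU K hK
  obtain ⟨hab, hc, hlo, hhi⟩ := hU
  set ℓ := min 1 ((b - a) / K) with hℓ
  have hℓ0 : 0 < ℓ := lt_min one_pos (div_pos (by linarith) hK)
  have hℓ1 : ℓ ≤ 1 := min_le_left _ _
  set η := ℓ / 3 with hη
  have hη0 : 0 < η := by positivity
  have hη1 : η ≤ 1 := by
    rw [hη]
    linarith
  set M := K + 1 with hM
  set C1 := 3 * (sglC M η * (M ^ 2 + 1)) ^ 2 with hC1
  have hC10 : 0 ≤ C1 := by positivity
  have hpi := Real.pi_pos
  refine ⟨(|C| + 1) * Real.pi * (3 * (C1 + 1)) / (η * c), by positivity, ?_⟩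
  intro w hw d A A0
  have hv : 0 < w.im := hw.1
  have hne : w.im ≠ 0 := hv.ne'
  -- comparison of the measures
  have hm1 : ENNReal.ofReal c • (volume.restrict (Icc a b)) ≤ μ := by
    refine Measure.le_iff.2 fun S hS => ?_
    rw [Measure.smul_apply, Measure.restrict_apply hS, smul_eq_mul]
    exact hlo S hS
  have hm2 : μ ≤ ENNReal.ofReal C • (volume.restrict (Icc a b)) := by
    refine Measure.le_iff.2 fun S hS => ?_
    rw [Measure.smul_apply, Measure.restrict_apply hS, smul_eq_mul]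
    exact hhi S hS
  set g : ℝ → ℝ≥0∞ := fun β => ENNReal.ofReal (‖sglG A A0 w β‖ ^ 2) with hg
  have hgm : Measurable g := by
    have h1 : Continuous fun β => ‖sglG A A0 w β‖ ^ 2 := (sgl_cont A A0 w hv).norm.pow 2
    exact ENNReal.measurable_ofReal.comp h1.measurable
  have hlow : ENNReal.ofReal c * ∫⁻ β in Icc a b, g β ≤ ∫⁻ β, g β ∂μ := by
    rw [← smul_eq_mul, ← lintegral_smul_measure]
    exact lintegral_mono' hm1 le_rfl
  -- the left-hand side
  have hleft : ∫⁻ β : ℝ, ENNReal.ofReal (‖((β : ℂ) - w)⁻¹‖ ^ 2) ∂μ ≤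
      ENNReal.ofReal ((|C| + 1) * (Real.pi / w.im)) := by
    calc ∫⁻ β : ℝ, ENNReal.ofReal (‖((β : ℂ) - w)⁻¹‖ ^ 2) ∂μ
        ≤ ∫⁻ β : ℝ, ENNReal.ofReal (‖((β : ℂ) - w)⁻¹‖ ^ 2)
          ∂(ENNReal.ofReal C • (volume.restrict (Icc a b))) := lintegral_mono' hm2 le_rfl
      _ = ENNReal.ofReal C * ∫⁻ β in Icc a b, ENNReal.ofReal (‖((β : ℂ) - w)⁻¹‖ ^ 2) :=
          lintegral_smul_measure _ _
      _ ≤ ENNReal.ofReal (|C| + 1) * ENNReal.ofReal (Real.pi / w.im) := by
          rw [← sgl_lorentz w hv]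
          refine mul_le_mul' (ENNReal.ofReal_le_ofReal ?_) (setLIntegral_le_lintegral _ _)
          have := le_abs_self C
          linarith
      _ = ENNReal.ofReal ((|C| + 1) * (Real.pi / w.im)) :=
          (ENNReal.ofReal_mul (by positivity)).symm
  obtain ⟨s, hs⟩ := sgl_interval a b K hab w hK hw
  -- the pointwise inequality
  have hpt : ∀ β ∈ Icc s (s + η * w.im), ENNReal.ofReal (‖A‖ ^ 2) ≤
      ENNReal.ofReal (C1 * w.im ^ 2) * (g (β + 0) + g (β + η * w.im) + g (β + 2 * η * w.im)) := by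
    intro β hβ
    have h0 := (hs β 0 hβ le_rfl (by positivity)).2
    have h1 := (hs β (η * w.im) hβ (by positivity) (by rw [hη]; nlinarith)).2
    have h2 := (hs β (2 * η * w.im) hβ (by positivity) (le_of_eq (by ring))).2
    rw [add_zero] at h0
    have h3 := sgl_pt A A0 w hv β η M hη0 hη1 h0 h1 h2
    have e1 : 3 * (sglC M η * (w.im * (M ^ 2 + 1))) ^ 2 = C1 * w.im ^ 2 := by
      rw [hC1]
      ring
    rw [e1] at h3
    have h4 := ENNReal.ofReal_le_ofReal h3
    rw [ENNReal.ofReal_mul (by positivity), ENNReal.ofReal_add (by positivity) (by positivity),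
      ENNReal.ofReal_add (by positivity) (by positivity)] at h4
    rw [add_zero]
    exact h4
  have hint : ENNReal.ofReal (η * w.im) * ENNReal.ofReal (‖A‖ ^ 2) ≤
      ENNReal.ofReal (C1 * w.im ^ 2) * (3 * ∫⁻ β in Icc a b, g β) := by
    calc ENNReal.ofReal (η * w.im) * ENNReal.ofReal (‖A‖ ^ 2)
        = ∫⁻ _β in Icc s (s + η * w.im), ENNReal.ofReal (‖A‖ ^ 2) := by
          rw [setLIntegral_const, Real.volume_Icc, add_sub_cancel_left, mul_comm]
      _ ≤ ∫⁻ β in Icc s (s + η * w.im), ENNReal.ofReal (C1 * w.im ^ 2) *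
          (g (β + 0) + g (β + η * w.im) + g (β + 2 * η * w.im)) :=
          setLIntegral_mono' measurableSet_Icc hpt
      _ = ENNReal.ofReal (C1 * w.im ^ 2) * ((∫⁻ β in Icc s (s + η * w.im), g (β + 0)) +
          (∫⁻ β in Icc s (s + η * w.im), g (β + η * w.im)) +
          (∫⁻ β in Icc s (s + η * w.im), g (β + 2 * η * w.im))) := by
          rw [lintegral_const_mul' _ _ ENNReal.ofReal_ne_top, lintegral_add_right,
            lintegral_add_right]
          · exact hgm.comp (measurable_id.add_const _)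
          · exact hgm.comp (measurable_id.add_const _)
      _ ≤ ENNReal.ofReal (C1 * w.im ^ 2) * ((∫⁻ β in Icc a b, g β) + (∫⁻ β in Icc a b, g β) +
          (∫⁻ β in Icc a b, g β)) := by
          refine mul_le_mul' le_rfl (add_le_add (add_le_add ?_ ?_) ?_)
          · exact sgl_shift g a b s (η * w.im) 0 fun β hβ => (hs β 0 hβ le_rfl (by positivity)).1
          · exact sgl_shift g a b s (η * w.im) (η * w.im) fun β hβ =>
              (hs β (η * w.im) hβ (by positivity) (by rw [hη]; nlinarith)).1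
          · exact sgl_shift g a b s (η * w.im) (2 * η * w.im) fun β hβ =>
              (hs β (2 * η * w.im) hβ (by positivity) (le_of_eq (by ring))).1
      _ = _ := by ring
  -- assembly
  set J := ∫⁻ β in Icc a b, g β with hJ
  have hA : ENNReal.ofReal (‖A‖ ^ 2) ≤ ENNReal.ofReal (3 * (C1 + 1) * w.im / (η * c)) *
      ∫⁻ β, g β ∂μ := by
    have e1 : ENNReal.ofReal (‖A‖ ^ 2) = ENNReal.ofReal ((η * w.im)⁻¹) *
        (ENNReal.ofReal (η * w.im) * ENNReal.ofReal (‖A‖ ^ 2)) := by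
      rw [← mul_assoc, ← ENNReal.ofReal_mul (by positivity), inv_mul_cancel₀ (by positivity),
        ENNReal.ofReal_one, one_mul]
    have e2 : J = ENNReal.ofReal c⁻¹ * (ENNReal.ofReal c * J) := by
      rw [← mul_assoc, ← ENNReal.ofReal_mul (by positivity), inv_mul_cancel₀ (by positivity),
        ENNReal.ofReal_one, one_mul]
    calc ENNReal.ofReal (‖A‖ ^ 2)
        ≤ ENNReal.ofReal ((η * w.im)⁻¹) * (ENNReal.ofReal (C1 * w.im ^ 2) * (3 * J)) := by
          rw [e1]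
          exact mul_le_mul' le_rfl hint
      _ = ENNReal.ofReal (3 * C1 * w.im / (η * c)) * (ENNReal.ofReal c * J) := by
          conv_lhs => rw [e2]
          have e3 : (3 : ℝ≥0∞) = ENNReal.ofReal 3 := by norm_num
          rw [e3]
          simp only [← mul_assoc]
          rw [← ENNReal.ofReal_mul (by positivity), ← ENNReal.ofReal_mul (by positivity),
            ← ENNReal.ofReal_mul (by positivity)]
          congr 3
          field_simp
      _ ≤ ENNReal.ofReal (3 * (C1 + 1) * w.im / (η * c)) * ∫⁻ β, g β ∂μ := by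
          refine mul_le_mul' (ENNReal.ofReal_le_ofReal ?_) hlow
          gcongr
          linarith
  calc (∫⁻ β : ℝ, ENNReal.ofReal (‖((β : ℂ) - w)⁻¹‖ ^ 2) ∂μ) * ENNReal.ofReal (‖A‖ ^ 2)
      ≤ ENNReal.ofReal ((|C| + 1) * (Real.pi / w.im)) *
        (ENNReal.ofReal (3 * (C1 + 1) * w.im / (η * c)) * ∫⁻ β, g β ∂μ) := mul_le_mul' hleft hA
    _ = ENNReal.ofReal ((|C| + 1) * Real.pi * (3 * (C1 + 1)) / (η * c)) * ∫⁻ β, g β ∂μ := by
        rw [← mul_assoc, ← ENNReal.ofReal_mul (by positivity)]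
        congr 2
        field_simp

end Pool.SU
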