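import Mathlib
import Pool.Agent.SU.Base

/-!
# Module A5 : the trichotomy on the resonance event
-/

set_option autoImplicit false
set_option linter.unusedSectionVars false
set_option linter.unusedVariables false

open Complex MeasureTheory Filter Topology Set ContinuousLinearMap
open scoped InnerProductSpace ENNReal NNReal

namespace Pool.SU

open Pool.NB Pool.SB

variable {d : ℕ}

/-- a bounded function times `τ ^ (2 * n1 x)` attains its supremum if it is somewhere positive -/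
lemma tri_max {F : ZZ d → ℝ} {B τ g : ℝ} (hτ0 : 0 < τ) (hτ1 : τ < 1) (hB : ∀ x, F x ≤ B)
    (hB0 : 0 ≤ B) (hg : 0 < g) {x0 : ZZ d} (hx0 : g ≤ F x0 * τ ^ (2 * n1 x0)) :
    ∃ q, ∀ x, F x * τ ^ (2 * n1 x) ≤ F q * τ ^ (2 * n1 q) := by
  obtain ⟨L, hL⟩ : ∃ L : ℕ, B * τ ^ L < g := by
    rcases hB0.eq_or_lt with h | h
    · exact ⟨0, by rw [← h]; simpa using hg⟩
    · obtain ⟨L, hL⟩ := exists_pow_lt_of_lt_one (div_pos hg h) hτ1
      refine ⟨L, ?_⟩
      rw [lt_div_iff₀ h] at hL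
      linarith [mul_comm B (τ ^ L)]
  have hout : ∀ x : ZZ d, L < n1 x → F x * τ ^ (2 * n1 x) < g := by
    intro x hx
    refine lt_of_le_of_lt ?_ hL
    have h1 : τ ^ (2 * n1 x) ≤ τ ^ L := pow_le_pow_of_le_one hτ0.le hτ1.le (by omega)
    calc F x * τ ^ (2 * n1 x) ≤ B * τ ^ (2 * n1 x) :=
          mul_le_mul_of_nonneg_right (hB x) (pow_pos hτ0 _).le
      _ ≤ B * τ ^ L := mul_le_mul_of_nonneg_left h1 hB0
  obtain ⟨q, hq, hmax⟩ := (ball d L).exists_max_image (fun x => F x * τ ^ (2 * n1 x))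
    ⟨0, zero_mem_ball L⟩
  have hx0L : x0 ∈ ball d L := by
    rw [mem_ball]
    by_contra hcon
    exact absurd hx0 (not_le.mpr (hout x0 (not_le.mp hcon)))
  refine ⟨q, fun x => ?_⟩
  by_cases hx : n1 x ≤ L
  · exact hmax x (mem_ball.mpr hx)
  · exact ((hout x (not_le.mp hx)).le.trans hx0).trans (hmax x0 hx0L)

/-- one step of the chain -/
lemma tri_step {E E1 ε a b : ℝ} (hE : |E| ≤ E1) (hε : 0 < ε) (hε1 : ε ≤ 1) {W : ZZ d → ℝ}
    (hW : W ∈ Om d a b) (i0 : Fin d) {s : ℤ} (hs : s = 1 ∨ s = -1) {x : ZZ d}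
    (hx : 0 ≤ s * x i0) :
    ∃ x' : ZZ d, s * x i0 < s * x' i0 ∧ n1 (x' - x) ≤ 2 ∧
      1 / (|a| + |b| + 2 * d + E1 + 1 + 2 * d) * ‖GF E ε W 0 x‖ ≤ ‖GF E ε W 0 x'‖ := by
  have hE10 : 0 ≤ E1 := (abs_nonneg E).trans hE
  set Rb : ℝ := |a| + |b| + 2 * d + E1 + 1 with hRb
  have hRb1 : 1 ≤ Rb := by
    have := abs_nonneg a; have := abs_nonneg b
    have : (0:ℝ) ≤ 2 * d := by positivity
    linarith
  have hden : 0 < Rb + 2 * d := by positivity
  by_contra hcon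
  push Not at hcon
  set m : ℝ := 1 / (Rb + 2 * d) * ‖GF E ε W 0 x‖ with hm
  -- the function
  set f : ZZ d → ℂ := fun y => GF E ε W y 0 with hf
  have hf0 : ∀ y, ‖GF E ε W 0 y‖ = ‖f y‖ := fun y => by rw [GF_symm hε]
  have hss : s * s = 1 := by rcases hs with h | h <;> rw [h] <;> norm_num
  set y : ZZ d := x + s • ee d i0 with hy
  have hee : (ee d i0) i0 = 1 := by simp [ee]
  have hyi : y i0 = x i0 + s := by
    rw [hy, Pi.add_apply, Pi.smul_apply, hee, smul_eq_mul, mul_one]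
  have hsy : s * y i0 = s * x i0 + 1 := by rw [hyi, mul_add, hss]
  have hy0 : y ≠ 0 := by
    intro h
    rw [h] at hsy
    simp only [Pi.zero_apply, mul_zero] at hsy
    omega
  have hn1s : n1 (s • ee d i0) = 1 := by
    rcases hs with h | h
    · rw [h, one_smul, n1_ee]
    · rw [h, neg_smul, one_smul, n1_neg, n1_ee]
  -- bounds
  have hby : ‖f y‖ ≤ m := by
    rw [← hf0]
    refine (hcon y (by omega) ?_).le
    rw [hy, add_sub_cancel_left, hn1s]; norm_num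
  have hbn : ∀ v : ZZ d, n1 v ≤ 1 → 0 ≤ s * v i0 → ‖f (y + v)‖ ≤ m := by
    intro v hv hv0
    rw [← hf0]
    refine (hcon (y + v) ?_ ?_).le
    · rw [Pi.add_apply, mul_add]; omega
    · have : y + v - x = s • ee d i0 + v := by rw [hy]; abel
      rw [this]
      exact (n1_add _ _).trans (by omega)
  have hmnn : 0 ≤ m := by positivity
  have heq := GF_eqn (E := E) hε W y 0
  rw [if_neg hy0] at heq
  -- the neighbours in the direction `i0`
  have hback : y - s • ee d i0 = x := by rw [hy]; abel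
  have hpair : ‖f (y + ee d i0) + f (y - ee d i0) - f x‖ ≤ m := by
    rcases hs with h | h
    · have h1 : y - ee d i0 = x := by rw [← hback, h, one_smul]
      rw [h1, add_sub_cancel_right]
      refine hbn (ee d i0) (le_of_eq (n1_ee i0)) ?_
      rw [hee, h]; norm_num
    · have h1 : y + ee d i0 = x := by rw [← hback, h, neg_smul, one_smul, sub_neg_eq_add]
      rw [h1, add_sub_cancel_left, sub_eq_add_neg]
      refine hbn (-ee d i0) (by rw [n1_neg, n1_ee]) ?_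
      rw [Pi.neg_apply, hee, h]; norm_num
  have hother : ∀ i, i ≠ i0 → ‖f (y + ee d i) + f (y - ee d i)‖ ≤ 2 * m := by
    intro i hi
    have hz : (ee d i) i0 = 0 := by simp [ee, Pi.single_eq_of_ne' hi]
    have h1 : ‖f (y + ee d i)‖ ≤ m := hbn (ee d i) (le_of_eq (n1_ee i)) (by rw [hz, mul_zero])
    have h2 : ‖f (y - ee d i)‖ ≤ m := by
      rw [sub_eq_add_neg]
      exact hbn (-ee d i) (by rw [n1_neg, n1_ee]) (by rw [Pi.neg_apply, hz, neg_zero, mul_zero])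
    exact (norm_add_le _ _).trans (by linarith)
  -- the coefficient
  have hcoef : ‖((W y : ℂ) + 2 * d - zp E ε)‖ ≤ Rb := by
    have hWy : |W y| ≤ |a| + |b| := by
      have := hW y
      rw [abs_le]
      constructor
      · have := neg_abs_le a; have := abs_nonneg b; linarith
      · have := le_abs_self b; have := abs_nonneg a; linarith
    unfold zp
    have h1 : (W y : ℂ) + 2 * d - ((E : ℂ) + (ε : ℂ) * I)
        = ((W y + 2 * d - E : ℝ) : ℂ) - (ε : ℂ) * I := by push_cast; ring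
    rw [h1]
    refine (norm_sub_le _ _).trans ?_
    rw [norm_mul, Complex.norm_real, Complex.norm_real, Complex.norm_I, mul_one,
      Real.norm_eq_abs, Real.norm_eq_abs, abs_of_pos hε]
    have h2 : |W y + 2 * d - E| ≤ |W y| + 2 * d + |E| := by
      refine (abs_sub _ _).trans ?_
      refine add_le_add ((abs_add_le _ _).trans ?_) le_rfl
      rw [abs_of_nonneg (show (0:ℝ) ≤ 2 * d by positivity)]
    linarith
  -- solve for `f x`
  have hsum : f x = ((W y : ℂ) + 2 * d - zp E ε) * f y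
      - (f (y + ee d i0) + f (y - ee d i0) - f x)
      - ∑ i ∈ Finset.univ.erase i0, (f (y + ee d i) + f (y - ee d i)) := by
    have h1 : ∑ i, (f (y + ee d i) + f (y - ee d i))
        = (f (y + ee d i0) + f (y - ee d i0))
          + ∑ i ∈ Finset.univ.erase i0, (f (y + ee d i) + f (y - ee d i)) :=
      (Finset.add_sum_erase _ _ (Finset.mem_univ i0)).symm
    have h2 : ((W y : ℂ) + 2 * d - zp E ε) * f y
        = ∑ i, (f (y + ee d i) + f (y - ee d i)) := sub_eq_zero.mp heq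
    rw [h2, h1]
    ring
  have hcard : ((Finset.univ.erase i0 : Finset (Fin d)).card : ℝ) = d - 1 := by
    rw [Finset.card_erase_of_mem (Finset.mem_univ i0), Finset.card_univ, Fintype.card_fin,
      Nat.cast_sub (by have := i0.2; omega)]
    simp
  have hbig : ‖f x‖ ≤ Rb * m + m + (d - 1) * (2 * m) := by
    have h1 : ‖∑ i ∈ Finset.univ.erase i0, (f (y + ee d i) + f (y - ee d i))‖
        ≤ (d - 1) * (2 * m) := by
      refine (norm_sum_le _ _).trans ?_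
      refine (Finset.sum_le_sum (fun i hi => hother i (Finset.ne_of_mem_erase hi))).trans ?_
      rw [Finset.sum_const, nsmul_eq_mul, hcard]
    have h2 : ‖((W y : ℂ) + 2 * d - zp E ε) * f y‖ ≤ Rb * m := by
      rw [norm_mul]
      exact mul_le_mul hcoef hby (norm_nonneg _) (by linarith)
    calc ‖f x‖ = ‖((W y : ℂ) + 2 * d - zp E ε) * f y
      - (f (y + ee d i0) + f (y - ee d i0) - f x)
      - ∑ i ∈ Finset.univ.erase i0, (f (y + ee d i) + f (y - ee d i))‖ := by rw [← hsum]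
      _ ≤ ‖((W y : ℂ) + 2 * d - zp E ε) * f y‖ + ‖f (y + ee d i0) + f (y - ee d i0) - f x‖
          + ‖∑ i ∈ Finset.univ.erase i0, (f (y + ee d i) + f (y - ee d i))‖ :=
        (norm_sub_le _ _).trans (add_le_add (norm_sub_le _ _) le_rfl)
      _ ≤ _ := add_le_add (add_le_add h2 hpair) h1
  have hmf : (Rb + 2 * d) * m = ‖f x‖ := by
    rw [hm, hf0 x]
    field_simp
  -- strict contradiction
  have hm0 : m ≤ 0 := by nlinarith
  have hm00 : m = 0 := le_antisymm hm0 hmnn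
  have hlast := hcon y (by omega) (by rw [hy, add_sub_cancel_left, hn1s]; norm_num)
  rw [hm00] at hlast
  exact absurd hlast (not_lt.mpr (norm_nonneg _))

/-- the trichotomy at one site -/
lemma tri_site {a b E ε τ κ R g c M Q : ℝ} (hε : 0 < ε) (hτ0 : 0 < τ) (hτ1 : τ < 1)
    (hκ : κ = c * τ ^ 8) (hc0 : 0 < c) (hR : 1 ≤ R) (hRg : R ≤ κ * g)
    {W : ZZ d → ℝ} (hW : W ∈ Om d a b) {q x : ZZ d}
    (hM : M = ‖GF E ε W 0 q‖ * τ ^ (2 * n1 q)) (hgM : g ≤ M) (h00 : ‖GF E ε W 0 0‖ ≤ M)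
    (hQ : 0 < Q) (hQM : Q ≤ M)
    (hx1 : n1 x ≤ n1 q + 4) (hx2 : n1 q ≤ n1 x + 4)
    (hxf : c * ‖GF E ε W 0 q‖ ≤ ‖GF E ε W 0 x‖) :
    (x ≠ 0 ∧ W ∈ evP E ε τ κ R g x) ∨ (W ∈ evG E ε τ κ R g a b (|a| + |b| + 1) x) ∨
      (|W x - a| ≤ R * τ ^ (3 * n1 q) / (κ * Q) ∨ |W x - b| ≤ R * τ ^ (3 * n1 q) / (κ * Q)) := by
  have hκ0 : 0 < κ := by rw [hκ]; positivity
  have hg0 : 0 < g := by
    by_contra h
    have : κ * g ≤ 0 := mul_nonpos_of_nonneg_of_nonpos hκ0.le (not_lt.mp h)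
    linarith
  have hM0 : 0 < M := hg0.trans_le hgM
  -- `κ M ≤ F x`
  have hF : κ * M ≤ ‖GF E ε W 0 x‖ * τ ^ (2 * n1 x) := by
    have h1 : τ ^ (8 + 2 * n1 q) ≤ τ ^ (2 * n1 x) :=
      pow_le_pow_of_le_one hτ0.le hτ1.le (by omega)
    calc κ * M = (c * ‖GF E ε W 0 q‖) * τ ^ (8 + 2 * n1 q) := by
          rw [hκ, hM, pow_add]; ring
      _ ≤ ‖GF E ε W 0 x‖ * τ ^ (2 * n1 x) :=
          mul_le_mul hxf h1 (pow_pos hτ0 _).le (norm_nonneg _)
  have hFg : κ * g ≤ ‖GF E ε W 0 x‖ * τ ^ (2 * n1 x) :=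
    (mul_le_mul_of_nonneg_left hgM hκ0.le).trans hF
  by_cases hA : R * τ ^ (n1 x) * ‖GF E ε W x x‖ < ‖GF E ε W 0 x‖
  · left
    refine ⟨?_, hA, (mul_le_mul_of_nonneg_left h00 hκ0.le).trans hF, hFg⟩
    rintro rfl
    rw [n1_zero, pow_zero, mul_one] at hA
    have := norm_nonneg (GF E ε W 0 0)
    nlinarith
  right
  rw [not_lt] at hA
  by_cases hG : wv E ε W x ∈ Gd a b (|a| + |b| + 1)
  · left
    exact ⟨hA, hFg, hG⟩
  right
  -- `δ = |W x - wv x|`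
  have hfx : 0 < ‖GF E ε W 0 x‖ := by
    by_contra h
    have h0 : ‖GF E ε W 0 x‖ = 0 := le_antisymm (not_lt.mp h) (norm_nonneg _)
    rw [h0, zero_mul] at hFg
    linarith
  have hGx : 0 < ‖GF E ε W x x‖ := norm_pos_iff.mpr (GF_ne hε W x)
  have hδ : ‖(W x : ℂ) - wv E ε W x‖ = 1 / ‖GF E ε W x x‖ := by
    have h1 : (W x : ℂ) - wv E ε W x = (GF E ε W x x)⁻¹ := by
      unfold wv; ring
    rw [h1, norm_inv, one_div]
  have hδ2 : ‖(W x : ℂ) - wv E ε W x‖ ≤ R * τ ^ (n1 x) / ‖GF E ε W 0 x‖ := by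
    rw [hδ, div_le_div_iff₀ hGx hfx, one_mul]
    exact hA
  have hτ1x : τ ^ (n1 x) ≤ 1 := pow_le_one₀ hτ0.le hτ1.le
  have hτ2x : τ ^ (2 * n1 x) ≤ 1 := pow_le_one₀ hτ0.le hτ1.le
  have hδ1 : ‖(W x : ℂ) - wv E ε W x‖ ≤ 1 := by
    refine hδ2.trans ?_
    rw [div_le_one hfx]
    have h1 : ‖GF E ε W 0 x‖ * τ ^ (2 * n1 x) ≤ ‖GF E ε W 0 x‖ :=
      mul_le_of_le_one_right hfx.le hτ2x
    have h2 : R * τ ^ (n1 x) ≤ R := mul_le_of_le_one_right (by linarith) hτ1x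
    linarith
  -- the size of `wv`
  have him : 0 < (wv E ε W x).im := hε.trans_le (wv_im hε W x)
  have hWx := hW x
  have hWabs : |W x| ≤ |a| + |b| := by
    rw [abs_le]
    constructor
    · have := neg_abs_le a; have := abs_nonneg b; linarith
    · have := le_abs_self b; have := abs_nonneg a; linarith
  have hwn : ‖wv E ε W x‖ ≤ |a| + |b| + 1 := by
    have h1 : wv E ε W x = (W x : ℂ) - ((W x : ℂ) - wv E ε W x) := by ring
    rw [h1]
    refine (norm_sub_le _ _).trans ?_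
    rw [Complex.norm_real, Real.norm_eq_abs]
    linarith
  have hre : |W x - (wv E ε W x).re| ≤ ‖(W x : ℂ) - wv E ε W x‖ := by
    have h1 := Complex.abs_re_le_norm ((W x : ℂ) - wv E ε W x)
    rwa [Complex.sub_re, Complex.ofReal_re] at h1
  have hK0 : 0 ≤ (|a| + |b| + 1) * (wv E ε W x).im := by
    have := abs_nonneg a; have := abs_nonneg b
    positivity
  -- the bound
  have hbd : R * τ ^ (n1 x) / ‖GF E ε W 0 x‖ ≤ R * τ ^ (3 * n1 q) / (κ * Q) := by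
    rw [div_le_div_iff₀ hfx (mul_pos hκ0 hQ)]
    have h1 : τ ^ (n1 x + 8) ≤ τ ^ (n1 q) := pow_le_pow_of_le_one hτ0.le hτ1.le (by omega)
    have h2 : c * (M * τ ^ (n1 x + 8)) ≤ c * (M * τ ^ (n1 q)) :=
      mul_le_mul_of_nonneg_left (mul_le_mul_of_nonneg_left h1 hM0.le) hc0.le
    have h3 : c * (M * τ ^ (n1 q)) = τ ^ (3 * n1 q) * (c * ‖GF E ε W 0 q‖) := by
      rw [hM, show 3 * n1 q = 2 * n1 q + n1 q by ring, pow_add]; ring
    have h4 : τ ^ (3 * n1 q) * (c * ‖GF E ε W 0 q‖) ≤ τ ^ (3 * n1 q) * ‖GF E ε W 0 x‖ :=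
      mul_le_mul_of_nonneg_left hxf (pow_pos hτ0 _).le
    have h5 : τ ^ (n1 x) * (κ * Q) ≤ τ ^ (n1 x) * (κ * M) :=
      mul_le_mul_of_nonneg_left (mul_le_mul_of_nonneg_left hQM hκ0.le) (pow_pos hτ0 _).le
    have h6 : τ ^ (n1 x) * (κ * M) = c * (M * τ ^ (n1 x + 8)) := by rw [hκ, pow_add]; ring
    have h7 : τ ^ (n1 x) * (κ * Q) ≤ τ ^ (3 * n1 q) * ‖GF E ε W 0 x‖ := by linarith
    have h8 := mul_le_mul_of_nonneg_left h7 (show (0:ℝ) ≤ R by linarith)
    linarith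
  -- conclude
  have hnot : ¬ (a - (|a| + |b| + 1) * (wv E ε W x).im ≤ (wv E ε W x).re ∧
      (wv E ε W x).re ≤ b + (|a| + |b| + 1) * (wv E ε W x).im) := by
    intro h
    exact hG ⟨him, hwn, h.1, h.2⟩
  rw [not_and_or, not_le, not_le] at hnot
  rw [abs_le] at hre
  rcases hnot with h | h
  · left
    rw [abs_of_nonneg (by linarith)]
    linarith
  · right
    rw [abs_of_nonpos (by linarith)]
    linarith

theorem tri : StmtTri := by
  intro d hd a b E1 τ hab hE1 hτ0 hτ1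
  set Rb : ℝ := |a| + |b| + 2 * d + E1 + 1 with hRb
  have hRb1 : 1 ≤ Rb := by
    have := abs_nonneg a; have := abs_nonneg b
    have : (0:ℝ) ≤ 2 * d := by positivity
    linarith
  have hden1 : 1 ≤ Rb + 2 * d := by
    have : (0:ℝ) ≤ 2 * d := by positivity
    linarith
  set cb : ℝ := 1 / (Rb + 2 * d) with hcb
  have hcb0 : 0 < cb := by positivity
  have hcb1 : cb ≤ 1 := by rw [hcb, div_le_one (by linarith)]; exact hden1
  have hcb2 : cb ^ 2 ≤ cb := by nlinarith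
  have hcb21 : cb ^ 2 ≤ 1 := hcb2.trans hcb1
  refine ⟨cb ^ 2 * τ ^ 8, by positivity, ?_, ?_⟩
  · exact mul_le_one₀ hcb21 (by positivity) (pow_le_one₀ hτ0.le hτ1.le)
  intro R g hR hRg E ε hE hε hε1 W hW hres
  set κ : ℝ := cb ^ 2 * τ ^ 8 with hκ
  have hκ0 : 0 < κ := by positivity
  have hg0 : 0 < g := by
    by_contra h
    have : κ * g ≤ 0 := mul_nonpos_of_nonneg_of_nonpos hκ0.le (not_lt.mp h)
    linarith
  obtain ⟨x0, hx0⟩ := hres
  obtain ⟨q, hq⟩ := tri_max (F := fun x => ‖GF E ε W 0 x‖) hτ0 hτ1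
    (fun x => GF_norm_le hε W 0 x) (by positivity) hg0 hx0
  set M : ℝ := ‖GF E ε W 0 q‖ * τ ^ (2 * n1 q) with hM
  have hgM : g ≤ M := hx0.trans (hq x0)
  have h00 : ‖GF E ε W 0 0‖ ≤ M := by
    have := hq 0
    rwa [n1_zero, mul_zero, pow_zero, mul_one] at this
  -- dyadic scale
  obtain ⟨n, hn1, hn2⟩ := exists_nat_pow_near (x := M / g) (y := (2:ℝ))
    ((one_le_div hg0).mpr hgM) (by norm_num)
  rw [le_div_iff₀ hg0] at hn1
  rw [div_lt_iff₀ hg0] at hn2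
  have hQ : (0:ℝ) < 2 ^ n * g := by positivity
  -- the chain
  set i0 : Fin d := ⟨0, hd⟩ with hi0
  obtain ⟨s, hs, hsq⟩ : ∃ s : ℤ, (s = 1 ∨ s = -1) ∧ 0 ≤ s * q i0 := by
    rcases le_total 0 (q i0) with h | h
    · exact ⟨1, Or.inl rfl, by omega⟩
    · exact ⟨-1, Or.inr rfl, by omega⟩
  obtain ⟨x2, hx2s, hx2n, hx2f⟩ := tri_step hE hε hε1 hW i0 hs hsq
  obtain ⟨x3, hx3s, hx3n, hx3f⟩ := tri_step hE hε hε1 hW i0 hs (hsq.trans hx2s.le)
  rw [← hRb, ← hcb] at hx2f hx3f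
  have hnx2 : n1 x2 ≤ n1 q + 2 := by
    have : n1 (q + (x2 - q)) ≤ n1 q + n1 (x2 - q) := n1_add _ _
    rw [add_sub_cancel] at this
    omega
  have hnx3 : n1 x3 ≤ n1 x2 + 2 := by
    have : n1 (x2 + (x3 - x2)) ≤ n1 x2 + n1 (x3 - x2) := n1_add _ _
    rw [add_sub_cancel] at this
    omega
  have hnq2 : n1 q ≤ n1 x2 + 2 := by
    have h1 : n1 (x2 + -(x2 - q)) ≤ n1 x2 + n1 (-(x2 - q)) := n1_add _ _
    rw [n1_neg, show x2 + -(x2 - q) = q by abel] at h1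
    omega
  have hn23 : n1 x2 ≤ n1 x3 + 2 := by
    have h1 : n1 (x3 + -(x3 - x2)) ≤ n1 x3 + n1 (-(x3 - x2)) := n1_add _ _
    rw [n1_neg, show x3 + -(x3 - x2) = x2 by abel] at h1
    omega
  have hfq := norm_nonneg (GF E ε W 0 q)
  have hf1 : cb ^ 2 * ‖GF E ε W 0 q‖ ≤ ‖GF E ε W 0 q‖ := mul_le_of_le_one_left hfq hcb21
  have hf2 : cb ^ 2 * ‖GF E ε W 0 q‖ ≤ ‖GF E ε W 0 x2‖ :=
    (mul_le_mul_of_nonneg_right hcb2 hfq).trans hx2f
  have hf3 : cb ^ 2 * ‖GF E ε W 0 q‖ ≤ ‖GF E ε W 0 x3‖ := by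
    refine le_trans ?_ hx3f
    rw [pow_two, mul_assoc]
    exact mul_le_mul_of_nonneg_left hx2f hcb0.le
  have key : ∀ x : ZZ d, n1 x ≤ n1 q + 4 → n1 q ≤ n1 x + 4 →
      cb ^ 2 * ‖GF E ε W 0 q‖ ≤ ‖GF E ε W 0 x‖ → _ := fun x h1 h2 h3 =>
    tri_site (a := a) (b := b) (E := E) (ε := ε) (τ := τ) (κ := κ) (R := R) (g := g)
      (c := cb ^ 2) (M := M) (Q := 2 ^ n * g) hε hτ0 hτ1 hκ (by positivity) hR hRg hW hM hgM h00
      hQ hn1 h1 h2 h3
  have k1 := key q (by omega) (by omega) hf1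
  have k2 := key x2 (by omega) (by omega) hf2
  have k3 := key x3 (by omega) (by omega) hf3
  rcases k1 with k1 | k1 | k1
  · exact Or.inl ⟨q, k1⟩
  · exact Or.inr (Or.inl ⟨q, k1⟩)
  rcases k2 with k2 | k2 | k2
  · exact Or.inl ⟨x2, k2⟩
  · exact Or.inr (Or.inl ⟨x2, k2⟩)
  rcases k3 with k3 | k3 | k3
  · exact Or.inl ⟨x3, k3⟩
  · exact Or.inr (Or.inl ⟨x3, k3⟩)
  refine Or.inr (Or.inr ⟨q, x2 - q, ?_, x3 - q, ?_, ?_, ?_, ?_, n, ?_, hq, ?_⟩)
  · rw [mem_ball]; omega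
  · rw [mem_ball]
    have h1 : n1 ((x3 - x2) + (x2 - q)) ≤ n1 (x3 - x2) + n1 (x2 - q) := n1_add _ _
    rw [sub_add_sub_cancel] at h1
    omega
  · intro h
    rw [sub_eq_zero] at h
    rw [h] at hx2s
    exact lt_irrefl _ hx2s
  · intro h
    rw [sub_eq_zero] at h
    rw [h] at hx3s
    omega
  · intro h
    have h2 : x2 = x3 := sub_left_inj.mp h
    rw [h2] at hx3s
    exact lt_irrefl _ hx3s
  · exact hn2.le
  · intro x hx
    have e1 : κ * 2 ^ n * g = κ * (2 ^ n * g) := by ring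
    rw [e1]
    rcases hx with rfl | rfl | rfl
    · exact k1
    · rw [add_sub_cancel]; exact k2
    · rw [add_sub_cancel]; exact k3

end Pool.SU
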