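import Mathlib
import Pool.Agent.SU.Single
import Pool.Agent.SU.P1
import Pool.Agent.SU.Mass
import Pool.Agent.SU.Tri
import Pool.Agent.SU.EstP
import Pool.Agent.SU.EstG
import Pool.Agent.SU.EstT
import Pool.Agent.SU.P2
import Pool.Agent.SU.Eig
import Pool.Agent.SU.Good
import Pool.Agent.SU.Remez
import Pool.Agent.SU.Diag
import Pool.Agent.SU.Bulk
import Pool.Agent.SU.CT
import Pool.Agent.SU.Lif
import Pool.Agent.SU.LifP
import Pool.Agent.SU.Num
import Pool.Agent.SU.Edge
import Pool.Agent.SU.Fixed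
import Pool.Agent.SU.Outer
import Pool.Agent.SU.NIm
import Pool.Agent.SU.SMm

/-!
# Assembly
-/

namespace Pool.SU

theorem stmtP1 : StmtP1 := P1_of single

theorem stmtP2 : StmtP2 := P2_of stmtP1 mass tri estP estG estT

theorem stmtBulk : StmtBulk := bulk_of stmtP1 stmtP2 (good_of eig) remez diag off

theorem stmtEdge : StmtEdge := edge_of ct lif lifP num

theorem stmtFixed : StmtFixed := fixed_of stmtP2 stmtEdge stmtBulk

theorem stmtSM : StmtSM := SM_of (NI_of stmtFixed outer)

end Pool.SU
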