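import Mathlib
import Pool.Agent.SU.FDefs

/-!
# Decoupling at high energy (F11)
-/

set_option autoImplicit false
set_option linter.unusedSectionVars false
set_option linter.unusedSimpArgs false
set_option linter.unusedVariables false

open Complex MeasureTheory Filter Topology Set ContinuousLinearMap
open scoped InnerProductSpace ENNReal NNReal

namespace Pool.SU

open Pool.NB Pool.SB

variable {d : ℕ}

/-- mass of the unit interval -/
theorem dec_one {μ : Measure ℝ} [IsProbabilityMeasure μ] {C : ℝ} (hμ : Full μ C) :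
    ∃ m : ℝ, 0 < m ∧ ENNReal.ofReal m ≤ μ {x : ℝ | |x| ≤ 1} := by
  obtain ⟨c, hc, h⟩ := hμ.lo 1 one_pos
  refine ⟨2 * c, by positivity, ?_⟩
  have h1 := h {x : ℝ | |x| ≤ 1} (measurableSet_le (by fun_prop) (by fun_prop))
  have h2 : ({x : ℝ | |x| ≤ 1} ∩ Icc (-1) 1) = Icc (-1 : ℝ) 1 := by
    ext x; simp only [mem_inter_iff, mem_setOf_eq, mem_Icc, abs_le]; tauto
  rw [h2, Real.volume_Icc, ← ENNReal.ofReal_mul hc.le] at h1
  refine le_trans (ENNReal.ofReal_le_ofReal ?_) h1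
  linarith

/-- tightness -/
theorem dec_tight {μ : Measure ℝ} [IsProbabilityMeasure μ] {C : ℝ} (hμ : Full μ C)
    (δ : ℝ) (hδ : 0 < δ) : ∃ B : ℝ, 1 ≤ B ∧ μ {x : ℝ | B ≤ |x|} ≤ ENNReal.ofReal δ := by
  obtain ⟨p, K, hp, h⟩ := hμ.mom
  have ht : Tendsto (fun t : ℝ => K * t ^ (-p)) atTop (𝓝 (K * 0)) :=
    (tendsto_rpow_neg_atTop hp).const_mul K
  rw [mul_zero] at ht
  obtain ⟨B, hB1, hB2⟩ := ((ht.eventually (gt_mem_nhds hδ)).and (eventually_ge_atTop 1)).exists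
  exact ⟨B, hB2, (h B hB2).trans (ENNReal.ofReal_le_ofReal hB1.le)⟩

/-- the singular integral -/
theorem dec_sing0 (r : ℝ) (hr : 0 < r) :
    ∫⁻ x : ℝ in Ioc 0 r, ENNReal.ofReal (x ^ (-(1 / 2) : ℝ)) = ENNReal.ofReal (2 * r ^ (1 / 2 : ℝ)) := by
  have hi : IntervalIntegrable (fun x : ℝ => x ^ (-(1 / 2) : ℝ)) volume 0 r :=
    intervalIntegral.intervalIntegrable_rpow' (by norm_num)
  rw [← ofReal_integral_eq_lintegral_ofReal ((intervalIntegrable_iff_integrableOn_Ioc_of_le hr.le).1 hi)]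
  · rw [← intervalIntegral.integral_of_le hr.le, integral_rpow (Or.inl (by norm_num))]
    congr 1
    rw [Real.zero_rpow (by norm_num)]
    norm_num
    ring
  · exact (ae_restrict_iff' measurableSet_Ioc).2 (Eventually.of_forall fun x hx =>
      Real.rpow_nonneg hx.1.le _)

theorem dec_sing (a r : ℝ) (hr : 0 < r) :
    ∫⁻ x : ℝ in {x | |x - a| < r}, ENNReal.ofReal (|x - a| ^ (-(1 / 2) : ℝ))
      ≤ ENNReal.ofReal (4 * r ^ (1 / 2 : ℝ)) := by
  have hset : {x : ℝ | |x - a| < r} ⊆ (fun x => x - a) ⁻¹' (Ioc 0 r ∪ {0} ∪ (fun x => -x) ⁻¹' (Ioc 0 r)) := by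
    intro x hx
    simp only [mem_setOf_eq, abs_lt] at hx
    simp only [mem_preimage, mem_union, mem_Ioc, mem_singleton_iff]
    rcases lt_trichotomy (x - a) 0 with h | h | h
    · right; constructor <;> linarith
    · left; right; exact h
    · left; left; constructor <;> linarith
  set U : Set ℝ := Ioc 0 r ∪ {0} ∪ (fun x => -x) ⁻¹' (Ioc 0 r) with hU
  have hUm : MeasurableSet U := by
    refine (measurableSet_Ioc.union (measurableSet_singleton 0)).union ?_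
    exact measurable_neg measurableSet_Ioc
  calc ∫⁻ x : ℝ in {x | |x - a| < r}, ENNReal.ofReal (|x - a| ^ (-(1 / 2) : ℝ))
      ≤ ∫⁻ x : ℝ in (fun x => x - a) ⁻¹' U, ENNReal.ofReal (|x - a| ^ (-(1 / 2) : ℝ)) :=
        lintegral_mono_set hset
    _ = ∫⁻ x : ℝ in U, ENNReal.ofReal (|x| ^ (-(1 / 2) : ℝ)) := by
        rw [← lintegral_indicator (measurableSet_preimage (by fun_prop) hUm), ← lintegral_indicator hUm,
          ← lintegral_sub_right_eq_self (fun x => U.indicator (fun x => ENNReal.ofReal (|x| ^ (-(1 / 2) : ℝ))) x) a]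
        rfl
    _ ≤ ((∫⁻ x : ℝ in Ioc 0 r, ENNReal.ofReal (|x| ^ (-(1 / 2) : ℝ)))
          + (∫⁻ x : ℝ in {0}, ENNReal.ofReal (|x| ^ (-(1 / 2) : ℝ))))
          + (∫⁻ x : ℝ in (fun x => -x) ⁻¹' (Ioc 0 r), ENNReal.ofReal (|x| ^ (-(1 / 2) : ℝ))) :=
        (lintegral_union_le _ _ _).trans (add_le_add (lintegral_union_le _ _ _) le_rfl)
    _ = (ENNReal.ofReal (2 * r ^ (1 / 2 : ℝ)) + 0) + ENNReal.ofReal (2 * r ^ (1 / 2 : ℝ)) := by
        have e1 : ∫⁻ x : ℝ in Ioc 0 r, ENNReal.ofReal (|x| ^ (-(1 / 2) : ℝ))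
            = ENNReal.ofReal (2 * r ^ (1 / 2 : ℝ)) := by
          rw [← dec_sing0 r hr]
          refine setLIntegral_congr_fun measurableSet_Ioc fun x hx => ?_
          simp only [abs_of_pos hx.1]
        have e2 : ∫⁻ x : ℝ in {0}, ENNReal.ofReal (|x| ^ (-(1 / 2) : ℝ)) = 0 := by
          rw [Measure.restrict_singleton]; simp
        have e3 : ∫⁻ x : ℝ in (fun x => -x) ⁻¹' (Ioc 0 r), ENNReal.ofReal (|x| ^ (-(1 / 2) : ℝ))
            = ENNReal.ofReal (2 * r ^ (1 / 2 : ℝ)) := by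
          rw [← e1, ← lintegral_indicator (measurable_neg measurableSet_Ioc),
            ← lintegral_indicator measurableSet_Ioc,
            ← lintegral_neg_eq_self (μ := volume) (fun x => (Ioc 0 r).indicator
              (fun x => ENNReal.ofReal (|x| ^ (-(1 / 2) : ℝ))) x)]
          refine lintegral_congr fun x => ?_
          by_cases hx : -x ∈ Ioc 0 r
          · rw [indicator_of_mem (by exact hx), indicator_of_mem hx, abs_neg]
          · rw [indicator_of_notMem (by exact hx), indicator_of_notMem hx]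
        rw [e1, e2, e3]
    _ = ENNReal.ofReal (4 * r ^ (1 / 2 : ℝ)) := by
        have : 0 ≤ r ^ (1 / 2 : ℝ) := by positivity
        rw [add_zero, ← ENNReal.ofReal_add (by positivity) (by positivity)]
        congr 1; ring

theorem dec_meas (w : ℂ) :
    Measurable (fun β : ℝ => ENNReal.ofReal (‖((β : ℂ) - w)⁻¹‖ ^ (1 / 2 : ℝ))) := by
  fun_prop

/-- near the pole -/
theorem dec_pole {μ : Measure ℝ} [IsProbabilityMeasure μ] {C : ℝ} (hμ : Full μ C)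
    (w : ℂ) (hw : 0 < w.im) (r : ℝ) (hr : 0 < r) :
    ∫⁻ β : ℝ in {x | |x - w.re| < r}, ENNReal.ofReal (‖((β : ℂ) - w)⁻¹‖ ^ (1 / 2 : ℝ)) ∂μ
      ≤ ENNReal.ofReal C * ENNReal.ofReal (4 * r ^ (1 / 2 : ℝ)) := by
  have hle : μ ≤ ENNReal.ofReal C • (volume : Measure ℝ) := by
    rw [Measure.le_iff]
    intro s hs
    simpa using hμ.hi s hs
  calc ∫⁻ β : ℝ in {x | |x - w.re| < r}, ENNReal.ofReal (‖((β : ℂ) - w)⁻¹‖ ^ (1 / 2 : ℝ)) ∂μ
      ≤ ∫⁻ β : ℝ in {x | |x - w.re| < r}, ENNReal.ofReal (‖((β : ℂ) - w)⁻¹‖ ^ (1 / 2 : ℝ))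
          ∂(ENNReal.ofReal C • (volume : Measure ℝ)) :=
        lintegral_mono' (Measure.restrict_mono le_rfl hle) le_rfl
    _ = ENNReal.ofReal C * ∫⁻ β : ℝ in {x | |x - w.re| < r},
          ENNReal.ofReal (‖((β : ℂ) - w)⁻¹‖ ^ (1 / 2 : ℝ)) := by
        rw [Measure.restrict_smul, lintegral_smul_measure]; rfl
    _ ≤ ENNReal.ofReal C * ENNReal.ofReal (4 * r ^ (1 / 2 : ℝ)) := by
        refine mul_le_mul_right ?_ _
        refine le_trans ?_ (dec_sing w.re r hr)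
        have hae : ∀ᵐ β : ℝ, β ≠ w.re := by
          have : (volume : Measure ℝ) {w.re} = 0 := by simp
          exact compl_mem_ae_iff.2 this
        refine lintegral_mono_ae ?_
        filter_upwards [ae_restrict_of_ae hae] with β hβ
        refine ENNReal.ofReal_le_ofReal ?_
        have hpos : 0 < |β - w.re| := abs_pos.2 (sub_ne_zero.2 hβ)
        have hn : |β - w.re| ≤ ‖(β : ℂ) - w‖ := by
          have := Complex.abs_re_le_norm ((β : ℂ) - w)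
          simpa using this
        rw [norm_inv, Real.inv_rpow (norm_nonneg _), ← Real.rpow_neg (norm_nonneg _)]
        exact Real.rpow_le_rpow_of_nonpos hpos hn (by norm_num)

/-- near the pole plus the rest -/
theorem dec_near {μ : Measure ℝ} [IsProbabilityMeasure μ] {C : ℝ} (hμ : Full μ C)
    (w : ℂ) (hw : 0 < w.im) (r : ℝ) (hr : 0 < r) (N : Set ℝ) (hN : MeasurableSet N) :
    ∫⁻ β : ℝ in N, ENNReal.ofReal (‖((β : ℂ) - w)⁻¹‖ ^ (1 / 2 : ℝ)) ∂μ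
      ≤ ENNReal.ofReal C * ENNReal.ofReal (4 * r ^ (1 / 2 : ℝ))
        + ENNReal.ofReal (r ^ (-(1 / 2) : ℝ)) * μ N := by
  have hsplit : N ⊆ {x | |x - w.re| < r} ∪ (N ∩ {x | |x - w.re| < r}ᶜ) := by
    intro x hx
    by_cases h : |x - w.re| < r
    · exact Or.inl h
    · exact Or.inr ⟨hx, h⟩
  refine (lintegral_mono_set hsplit).trans ((lintegral_union_le _ _ _).trans
    (add_le_add (dec_pole hμ w hw r hr) ?_))
  calc ∫⁻ β : ℝ in N ∩ {x | |x - w.re| < r}ᶜ,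
        ENNReal.ofReal (‖((β : ℂ) - w)⁻¹‖ ^ (1 / 2 : ℝ)) ∂μ
      ≤ ∫⁻ β : ℝ in N ∩ {x | |x - w.re| < r}ᶜ, ENNReal.ofReal (r ^ (-(1 / 2) : ℝ)) ∂μ := by
        refine setLIntegral_mono' (hN.inter (measurableSet_lt (by fun_prop) (by fun_prop)).compl) ?_
        intro β hβ
        refine ENNReal.ofReal_le_ofReal ?_
        have h1 : r ≤ |β - w.re| := not_lt.1 hβ.2
        have hn : |β - w.re| ≤ ‖(β : ℂ) - w‖ := by
          have := Complex.abs_re_le_norm ((β : ℂ) - w)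
          simpa using this
        rw [norm_inv, Real.inv_rpow (norm_nonneg _), ← Real.rpow_neg (norm_nonneg _)]
        exact Real.rpow_le_rpow_of_nonpos hr (h1.trans hn) (by norm_num)
    _ = ENNReal.ofReal (r ^ (-(1 / 2) : ℝ)) * μ (N ∩ {x | |x - w.re| < r}ᶜ) := by
        rw [lintegral_const]; simp
    _ ≤ ENNReal.ofReal (r ^ (-(1 / 2) : ℝ)) * μ N :=
        mul_le_mul_right (measure_mono inter_subset_left) _

/-- lower bound -/
theorem dec_low {μ : Measure ℝ} [IsProbabilityMeasure μ] {m : ℝ} (hm : 0 < m)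
    (hm1 : ENNReal.ofReal m ≤ μ {x : ℝ | |x| ≤ 1}) (ζ w : ℂ) (hw : 0 < w.im) (hζ : 1 ≤ ‖ζ‖) :
    ENNReal.ofReal (√(‖ζ‖ - 1) * √((1 + ‖w‖)⁻¹) * m) ≤
      ∫⁻ β : ℝ, ENNReal.ofReal (√‖(β : ℂ) - ζ‖ * √‖((β : ℂ) - w)⁻¹‖) ∂μ := by
  rw [ENNReal.ofReal_mul (by positivity)]
  calc ENNReal.ofReal (√(‖ζ‖ - 1) * √((1 + ‖w‖)⁻¹)) * ENNReal.ofReal m
      ≤ ENNReal.ofReal (√(‖ζ‖ - 1) * √((1 + ‖w‖)⁻¹)) * μ {x : ℝ | |x| ≤ 1} :=
        mul_le_mul_right hm1 _
    _ = ∫⁻ β : ℝ in {x : ℝ | |x| ≤ 1}, ENNReal.ofReal (√(‖ζ‖ - 1) * √((1 + ‖w‖)⁻¹)) ∂μ := by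
        rw [lintegral_const]; simp
    _ ≤ ∫⁻ β : ℝ in {x : ℝ | |x| ≤ 1}, ENNReal.ofReal (√‖(β : ℂ) - ζ‖ * √‖((β : ℂ) - w)⁻¹‖) ∂μ := by
        refine setLIntegral_mono' (measurableSet_le (by fun_prop) (by fun_prop)) ?_
        intro β hβ
        refine ENNReal.ofReal_le_ofReal ?_
        have hβ' : ‖(β : ℂ)‖ ≤ 1 := by simpa using hβ
        have h1 : ‖ζ‖ - 1 ≤ ‖(β : ℂ) - ζ‖ := by
          have := norm_sub_norm_le ζ (β : ℂ)
          rw [norm_sub_rev] at this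
          linarith
        have h0 : (β : ℂ) - w ≠ 0 := by
          intro h
          have := congrArg Complex.im h
          simp at this
          exact hw.ne' this
        have h2 : (1 + ‖w‖)⁻¹ ≤ ‖((β : ℂ) - w)⁻¹‖ := by
          rw [norm_inv]
          exact inv_anti₀ (norm_pos_iff.2 h0) ((norm_sub_le _ _).trans (by linarith))
        exact mul_le_mul (Real.sqrt_le_sqrt h1) (Real.sqrt_le_sqrt h2) (Real.sqrt_nonneg _)
          (Real.sqrt_nonneg _)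
    _ ≤ ∫⁻ β : ℝ, ENNReal.ofReal (√‖(β : ℂ) - ζ‖ * √‖((β : ℂ) - w)⁻¹‖) ∂μ :=
        setLIntegral_le_lintegral _ _

/-- near part -/
theorem dec_nearI {μ : Measure ℝ} [IsProbabilityMeasure μ] {C : ℝ} (hμ : Full μ C)
    {k m B L : ℝ} (hk : 0 < k) (hm : 0 < m) (hL : 0 < L)
    (hm1 : ENNReal.ofReal m ≤ μ {x : ℝ | |x| ≤ 1})
    (hB : μ {x : ℝ | B ≤ |x|} ≤ ENNReal.ofReal ((m / (8 * k)) * (m / (32 * k * (|C| + 1)))))
    (ζ w : ℂ) (hw : 0 < w.im) (h1 : 5 / 2 ≤ ‖ζ‖) (h2 : B + L ≤ ‖ζ‖) (h3 : 2 * L ≤ ‖ζ‖)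
    (h4 : (8 * k / m) ^ 2 ≤ ‖ζ‖) :
    ENNReal.ofReal (2 * k) * ∫⁻ β : ℝ in {β : ℝ | ‖(β : ℂ) - ζ‖ < L},
        ENNReal.ofReal (√‖((β : ℂ) - w)⁻¹‖) ∂μ ≤
      ∫⁻ β : ℝ, ENNReal.ofReal (√‖(β : ℂ) - ζ‖ * √‖((β : ℂ) - w)⁻¹‖) ∂μ := by
  have hNm : MeasurableSet {β : ℝ | ‖(β : ℂ) - ζ‖ < L} := measurableSet_lt (by fun_prop) (by fun_prop)
  refine le_trans ?_ (dec_low hm hm1 ζ w hw (by linarith))
  have hwn : 0 < ‖w‖ := norm_pos_iff.2 (by rintro rfl; simp at hw)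
  by_cases hc : ‖w‖ ≤ 2 * ‖ζ‖
  · -- the pole may be near
    set r : ℝ := (m / (32 * k * (|C| + 1))) ^ 2 with hr
    have hr0 : 0 < m / (32 * k * (|C| + 1)) := by positivity
    have hrp : 0 < r := by positivity
    have hr1 : r ^ (1 / 2 : ℝ) = m / (32 * k * (|C| + 1)) := by
      rw [← Real.sqrt_eq_rpow, hr, Real.sqrt_sq hr0.le]
    have hr2 : r ^ (-(1 / 2) : ℝ) = (m / (32 * k * (|C| + 1)))⁻¹ := by
      rw [Real.rpow_neg hrp.le, hr1]
    have hnear := dec_near hμ w hw r hrp {β : ℝ | ‖(β : ℂ) - ζ‖ < L} hNm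
    rw [hr1, hr2] at hnear
    have hN : μ {β : ℝ | ‖(β : ℂ) - ζ‖ < L} ≤
        ENNReal.ofReal ((m / (8 * k)) * (m / (32 * k * (|C| + 1)))) := by
      refine (measure_mono ?_).trans hB
      intro β hβ
      have hβ' : ‖(β : ℂ) - ζ‖ < L := hβ
      have := norm_sub_norm_le ζ (β : ℂ)
      rw [norm_sub_rev] at this
      have e : ‖(β : ℂ)‖ = |β| := by simp
      rw [e] at this
      show B ≤ |β|
      linarith
    have hA : ∫⁻ β : ℝ in {β : ℝ | ‖(β : ℂ) - ζ‖ < L},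
        ENNReal.ofReal (√‖((β : ℂ) - w)⁻¹‖) ∂μ ≤ ENNReal.ofReal (m / (4 * k)) := by
      simp only [Real.sqrt_eq_rpow]
      refine hnear.trans ?_
      calc ENNReal.ofReal C * ENNReal.ofReal (4 * (m / (32 * k * (|C| + 1))))
            + ENNReal.ofReal ((m / (32 * k * (|C| + 1)))⁻¹) * μ {β : ℝ | ‖(β : ℂ) - ζ‖ < L}
          ≤ ENNReal.ofReal (|C| + 1) * ENNReal.ofReal (4 * (m / (32 * k * (|C| + 1))))
            + ENNReal.ofReal ((m / (32 * k * (|C| + 1)))⁻¹) *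
              ENNReal.ofReal ((m / (8 * k)) * (m / (32 * k * (|C| + 1)))) := by
            refine add_le_add (mul_le_mul_left (ENNReal.ofReal_le_ofReal ?_) _)
              (mul_le_mul_right hN _)
            linarith [le_abs_self C]
        _ = ENNReal.ofReal (m / (8 * k)) + ENNReal.ofReal (m / (8 * k)) := by
            rw [← ENNReal.ofReal_mul (by positivity), ← ENNReal.ofReal_mul (by positivity)]
            have hC : (0 : ℝ) < |C| + 1 := by positivity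
            congr 2
            · field_simp; ring
            · field_simp
        _ = ENNReal.ofReal (m / (4 * k)) := by
            rw [← ENNReal.ofReal_add (by positivity) (by positivity)]
            congr 1; field_simp; ring
    refine (mul_le_mul_right hA _).trans ?_
    rw [← ENNReal.ofReal_mul (by positivity)]
    refine ENNReal.ofReal_le_ofReal ?_
    have e1 : 2 * k * (m / (4 * k)) = (1 / 2) * m := by field_simp; ring
    rw [e1]
    refine mul_le_mul_of_nonneg_right ?_ hm.le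
    rw [← Real.sqrt_mul (by linarith)]
    refine Real.le_sqrt_of_sq_le ?_
    rw [← div_eq_mul_inv, le_div_iff₀ (by positivity)]
    nlinarith
  · push Not at hc
    have hA : ∫⁻ β : ℝ in {β : ℝ | ‖(β : ℂ) - ζ‖ < L},
        ENNReal.ofReal (√‖((β : ℂ) - w)⁻¹‖) ∂μ ≤ ENNReal.ofReal (2 * √(‖w‖⁻¹)) := by
      calc ∫⁻ β : ℝ in {β : ℝ | ‖(β : ℂ) - ζ‖ < L}, ENNReal.ofReal (√‖((β : ℂ) - w)⁻¹‖) ∂μ
          ≤ ∫⁻ β : ℝ in {β : ℝ | ‖(β : ℂ) - ζ‖ < L}, ENNReal.ofReal (2 * √(‖w‖⁻¹)) ∂μ := by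
            refine setLIntegral_mono' hNm ?_
            intro β hβ
            refine ENNReal.ofReal_le_ofReal ?_
            have hβ' : ‖(β : ℂ) - ζ‖ < L := hβ
            have e2 : ‖(β : ℂ)‖ ≤ ‖ζ‖ + L := by
              have := norm_sub_norm_le (β : ℂ) ζ
              linarith
            have e3 : ‖w‖ / 4 ≤ ‖(β : ℂ) - w‖ := by
              have := norm_sub_norm_le w (β : ℂ)
              rw [norm_sub_rev] at this
              linarith
            have e4 : (2 : ℝ) = √4 := by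
              rw [show (4 : ℝ) = 2 ^ 2 by norm_num, Real.sqrt_sq (by norm_num)]
            rw [e4, ← Real.sqrt_mul (by norm_num)]
            refine Real.sqrt_le_sqrt ?_
            rw [norm_inv]
            have e5 : (4 : ℝ) * ‖w‖⁻¹ = (‖w‖ / 4)⁻¹ := by field_simp
            rw [e5]
            exact inv_anti₀ (by positivity) e3
        _ = ENNReal.ofReal (2 * √(‖w‖⁻¹)) * μ {β : ℝ | ‖(β : ℂ) - ζ‖ < L} := by
            rw [lintegral_const]; simp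
        _ ≤ ENNReal.ofReal (2 * √(‖w‖⁻¹)) * 1 := mul_le_mul_right prob_le_one _
        _ = ENNReal.ofReal (2 * √(‖w‖⁻¹)) := mul_one _
    refine (mul_le_mul_right hA _).trans ?_
    rw [← ENNReal.ofReal_mul (by positivity)]
    refine ENNReal.ofReal_le_ofReal ?_
    have e6 : 8 * k / m ≤ √‖ζ‖ := Real.le_sqrt_of_sq_le h4
    have e7 : √(‖ζ‖ / 4 * ‖w‖⁻¹) ≤ √(‖ζ‖ - 1) * √((1 + ‖w‖)⁻¹) := by
      rw [← Real.sqrt_mul (by linarith)]
      refine Real.sqrt_le_sqrt ?_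
      rw [← div_eq_mul_inv, ← div_eq_mul_inv, div_le_div_iff₀ hwn (by positivity)]
      nlinarith
    have e8 : √(‖ζ‖ / 4 * ‖w‖⁻¹) = √‖ζ‖ / 2 * √(‖w‖⁻¹) := by
      rw [Real.sqrt_mul (by positivity), Real.sqrt_div (norm_nonneg _)]
      rw [show (4 : ℝ) = 2 ^ 2 by norm_num, Real.sqrt_sq (by norm_num)]
    calc 2 * k * (2 * √(‖w‖⁻¹)) = (8 * k / m) / 2 * √(‖w‖⁻¹) * m := by field_simp; ring
      _ ≤ √‖ζ‖ / 2 * √(‖w‖⁻¹) * m := by gcongr
      _ = √(‖ζ‖ / 4 * ‖w‖⁻¹) * m := by rw [e8]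
      _ ≤ √(‖ζ‖ - 1) * √((1 + ‖w‖)⁻¹) * m := by gcongr

/-- F11 -/
theorem dec : StmtDec := by
  intro μ _ C hμ d k hk
  obtain ⟨m, hm, hm1⟩ := dec_one hμ
  obtain ⟨B, hB1, hB2⟩ := dec_tight hμ ((m / (8 * k)) * (m / (32 * k * (|C| + 1)))) (by positivity)
  refine ⟨2 * d + (5 / 2 + (|B| + (2 * k) ^ 2) + 2 * (2 * k) ^ 2 + (8 * k / m) ^ 2), by positivity, ?_⟩
  intro E ε hE hε hε1 w hw
  set ζ : ℂ := zp E ε - 2 * d with hζ
  have hζn : |E| - 2 * d ≤ ‖ζ‖ := by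
    have h1 := Complex.abs_re_le_norm ζ
    have h2 : ζ.re = E - 2 * d := by simp [hζ, zp]
    rw [h2] at h1
    have h3 := abs_sub_abs_le_abs_sub E (2 * d)
    rw [abs_of_nonneg (by positivity : (0 : ℝ) ≤ 2 * d)] at h3
    linarith
  have q1 : 0 < (2 * k) ^ 2 := by positivity
  have q2 : 0 ≤ (8 * k / m) ^ 2 := by positivity
  have q3 := le_abs_self B
  have q4 := abs_nonneg B
  have hnear := dec_nearI hμ hk hm q1 hm1 hB2 ζ w hw (by linarith) (by linarith) (by linarith)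
    (by linarith)
  have hform : ∀ β : ℝ, (β : ℂ) + 2 * d - zp E ε = (β : ℂ) - ζ := by
    intro β; rw [hζ]; ring
  simp only [hform, ← Real.sqrt_eq_rpow]
  set I := ∫⁻ β : ℝ, ENNReal.ofReal (√‖(β : ℂ) - ζ‖ * √‖((β : ℂ) - w)⁻¹‖) ∂μ with hI
  have hNm : MeasurableSet {β : ℝ | ‖(β : ℂ) - ζ‖ < (2 * k) ^ 2} :=
    measurableSet_lt (by fun_prop) (by fun_prop)
  have hfar : ENNReal.ofReal (2 * k) * ∫⁻ β : ℝ in {β : ℝ | ‖(β : ℂ) - ζ‖ < (2 * k) ^ 2}ᶜ,
        ENNReal.ofReal (√‖((β : ℂ) - w)⁻¹‖) ∂μ ≤ I := by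
    rw [← lintegral_const_mul _ (by fun_prop)]
    refine le_trans ?_ (setLIntegral_le_lintegral {β : ℝ | ‖(β : ℂ) - ζ‖ < (2 * k) ^ 2}ᶜ _)
    refine setLIntegral_mono' hNm.compl ?_
    intro β hβ
    rw [← ENNReal.ofReal_mul (by positivity)]
    refine ENNReal.ofReal_le_ofReal ?_
    refine mul_le_mul_of_nonneg_right ?_ (Real.sqrt_nonneg _)
    exact Real.le_sqrt_of_sq_le (not_lt.1 hβ)
  rw [← lintegral_add_compl _ hNm, mul_add]
  have hdouble : ∀ a : ℝ≥0∞, ENNReal.ofReal (2 * k) * a = 2 * (ENNReal.ofReal k * a) := by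
    intro a
    rw [ENNReal.ofReal_mul (by norm_num), mul_assoc]
    simp
  rw [hdouble] at hnear hfar
  have hsum : 2 * (ENNReal.ofReal k * (∫⁻ β : ℝ in {β : ℝ | ‖(β : ℂ) - ζ‖ < (2 * k) ^ 2},
        ENNReal.ofReal (√‖((β : ℂ) - w)⁻¹‖) ∂μ) + ENNReal.ofReal k *
        (∫⁻ β : ℝ in {β : ℝ | ‖(β : ℂ) - ζ‖ < (2 * k) ^ 2}ᶜ,
        ENNReal.ofReal (√‖((β : ℂ) - w)⁻¹‖) ∂μ)) ≤ 2 * I := by
    rw [mul_add, two_mul I]
    exact add_le_add hnear hfar
  exact (ENNReal.mul_le_mul_iff_right (by norm_num) (by norm_num)).1 hsum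

end Pool.SU
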