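import Mathlib
import Pool.Agent.SU.FDefs
import Pool.Agent.SU.Meas
import Pool.Agent.SU.Green

/-!
# Laws with full support: basic module
-/

set_option autoImplicit false
set_option linter.unusedSectionVars false
set_option linter.unusedVariables false

open Complex MeasureTheory Filter Topology Set ContinuousLinearMap
open scoped InnerProductSpace ENNReal NNReal

namespace Pool.SU

open Pool.NB Pool.SB

variable {d : ℕ}

theorem Full.C_pos {μ : Measure ℝ} [IsProbabilityMeasure μ] {C : ℝ} (hμ : Full μ C) : 0 < C := by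
  by_contra h
  have h1 := hμ.hi univ MeasurableSet.univ
  rw [measure_univ, ENNReal.ofReal_of_nonpos (not_lt.mp h), zero_mul] at h1
  exact absurd h1 (by simp)

/-- windows around complex numbers -/
theorem Full.win {μ : Measure ℝ} [IsProbabilityMeasure μ] {C : ℝ} (hμ : Full μ C)
    (α : ℂ) (r : ℝ) : μ {β : ℝ | ‖(β : ℂ) - α‖ ≤ r} ≤ ENNReal.ofReal (2 * C * r) := by
  have h1 : {β : ℝ | ‖(β : ℂ) - α‖ ≤ r} ⊆ Icc (α.re - r) (α.re + r) := by
    intro β hβ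
    have h2 : |β - α.re| ≤ r := by
      have h3 := Complex.abs_re_le_norm ((β : ℂ) - α)
      rw [Complex.sub_re, Complex.ofReal_re] at h3
      exact h3.trans hβ
    rw [abs_le] at h2
    exact ⟨by linarith [h2.1], by linarith [h2.2]⟩
  calc μ {β : ℝ | ‖(β : ℂ) - α‖ ≤ r} ≤ μ (Icc (α.re - r) (α.re + r)) := measure_mono h1
    _ ≤ ENNReal.ofReal C * volume (Icc (α.re - r) (α.re + r)) :=
        hμ.hi _ measurableSet_Icc
    _ = ENNReal.ofReal C * ENNReal.ofReal (2 * r) := by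
        rw [Real.volume_Icc]
        congr 2
        ring
    _ = ENNReal.ofReal (2 * C * r) := by
        rw [← ENNReal.ofReal_mul hμ.C_pos.le]
        congr 1
        ring

theorem Full.win1 {μ : Measure ℝ} [IsProbabilityMeasure μ] {C : ℝ} (hμ : Full μ C)
    (x : ZZ d) (α : ℂ) (r : ℝ) :
    (PP (ZZ d) μ) {W | ‖(W x : ℂ) - α‖ ≤ r} ≤ ENNReal.ofReal (2 * C * r) := by
  have h1 : {W : ZZ d → ℝ | ‖(W x : ℂ) - α‖ ≤ r}
      = {W | ∀ y ∈ ({x} : Finset (ZZ d)), W y ∈ (fun _ => {β : ℝ | ‖(β : ℂ) - α‖ ≤ r}) y} := by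
    ext W
    simp
  rw [h1, PP_cyl μ {x} (fun _ => {β : ℝ | ‖(β : ℂ) - α‖ ≤ r}) (fun _ _ => win_set_meas α r),
    Finset.prod_singleton]
  exact hμ.win α r

theorem Full.win2 {μ : Measure ℝ} [IsProbabilityMeasure μ] {C : ℝ} (hμ : Full μ C)
    {x y : ZZ d} (hxy : x ≠ y) (α α' : ℂ) (r r' : ℝ) :
    (PP (ZZ d) μ) {W | ‖(W x : ℂ) - α‖ ≤ r ∧ ‖(W y : ℂ) - α'‖ ≤ r'}
      ≤ ENNReal.ofReal (2 * C * r) * ENNReal.ofReal (2 * C * r') := by
  set t : ZZ d → Set ℝ := fun z => if z = x then {β : ℝ | ‖(β : ℂ) - α‖ ≤ r} else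
    {β : ℝ | ‖(β : ℂ) - α'‖ ≤ r'} with ht
  have htx : t x = {β : ℝ | ‖(β : ℂ) - α‖ ≤ r} := if_pos rfl
  have hty : t y = {β : ℝ | ‖(β : ℂ) - α'‖ ≤ r'} := if_neg (Ne.symm hxy)
  have h1 : {W : ZZ d → ℝ | ‖(W x : ℂ) - α‖ ≤ r ∧ ‖(W y : ℂ) - α'‖ ≤ r'}
      = {W | ∀ z ∈ ({x, y} : Finset (ZZ d)), W z ∈ t z} := by
    ext W
    simp only [Set.mem_ofPred_eq, Finset.mem_insert, Finset.mem_singleton, forall_eq_or_imp,
      forall_eq, htx, hty]
  have h2 : ∀ z ∈ ({x, y} : Finset (ZZ d)), MeasurableSet (t z) := by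
    intro z _
    show MeasurableSet (if z = x then {β : ℝ | ‖(β : ℂ) - α‖ ≤ r} else
      {β : ℝ | ‖(β : ℂ) - α'‖ ≤ r'})
    split_ifs
    · exact win_set_meas α r
    · exact win_set_meas α' r'
  rw [h1, PP_cyl μ {x, y} t h2, Finset.prod_pair hxy, htx, hty]
  exact mul_le_mul' (hμ.win α r) (hμ.win α' r')

theorem Full.one_pos {μ : Measure ℝ} [IsProbabilityMeasure μ] {C : ℝ} (hμ : Full μ C) :
    0 < μ {x : ℝ | |x| ≤ 1} := by
  obtain ⟨c, hc, h1⟩ := hμ.lo 1 zero_lt_one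
  have h2 := h1 (Icc (-1) 1) measurableSet_Icc
  have h3 : {x : ℝ | |x| ≤ 1} = Icc (-1) 1 := by
    ext x
    simp only [Set.mem_ofPred_eq, Set.mem_Icc, abs_le]
  rw [h3]
  refine lt_of_lt_of_le ?_ h2
  rw [Set.inter_self, Real.volume_Icc]
  refine ENNReal.mul_pos ?_ ?_
  · exact (ENNReal.ofReal_pos.mpr hc).ne'
  · exact (ENNReal.ofReal_pos.mpr (by norm_num)).ne'

/-- the configurations with values in `[-1,1]` on `S` -/
def unitBox (S : Finset (ZZ d)) : Set (ZZ d → ℝ) := {W | ∀ x ∈ S, |W x| ≤ 1}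

theorem fb_one_meas : MeasurableSet {x : ℝ | |x| ≤ 1} :=
  measurableSet_le (continuous_abs.measurable) measurable_const

theorem unitBox_meas (S : Finset (ZZ d)) : MeasurableSet (unitBox S) := by
  have h1 : unitBox S = ⋂ x ∈ S, (fun W : ZZ d → ℝ => W x) ⁻¹' {x : ℝ | |x| ≤ 1} := by
    ext W
    simp only [unitBox, Set.mem_ofPred_eq, Set.mem_iInter, Set.mem_preimage]
  rw [h1]
  exact Finset.measurableSet_biInter S fun x _ => measurable_pi_apply x fb_one_meas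

theorem Full.unitBox_PP {μ : Measure ℝ} [IsProbabilityMeasure μ] {C : ℝ} (hμ : Full μ C)
    (S : Finset (ZZ d)) : (PP (ZZ d) μ) (unitBox S) = (μ {x : ℝ | |x| ≤ 1}) ^ S.card := by
  have h1 : unitBox S = {W | ∀ x ∈ S, W x ∈ (fun _ : ZZ d => {x : ℝ | |x| ≤ 1}) x} := rfl
  rw [h1, PP_cyl μ S (fun _ => {x : ℝ | |x| ≤ 1}) (fun _ _ => fb_one_meas), Finset.prod_const]

theorem Full.tight {μ : Measure ℝ} [IsProbabilityMeasure μ] {C : ℝ} (hμ : Full μ C)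
    (δ : ℝ) (hδ : 0 < δ) : ∃ B : ℝ, 1 ≤ B ∧ μ {x : ℝ | B < |x|} ≤ ENNReal.ofReal δ := by
  obtain ⟨p, K, hp, h1⟩ := hμ.mom
  have h2 : Tendsto (fun t : ℝ => K * t ^ (-p)) atTop (𝓝 (K * 0)) :=
    (tendsto_rpow_neg_atTop hp).const_mul K
  rw [mul_zero] at h2
  obtain ⟨B, hB1, hB2⟩ := ((h2.eventually (gt_mem_nhds hδ)).and (eventually_ge_atTop 1)).exists
  refine ⟨B, hB2, ?_⟩
  calc μ {x : ℝ | B < |x|} ≤ μ {x | B ≤ |x|} := measure_mono fun x (hx : B < |x|) => (show B ≤ |x| from hx.le)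
    _ ≤ ENNReal.ofReal (K * B ^ (-p)) := h1 B hB2
    _ ≤ ENNReal.ofReal δ := ENNReal.ofReal_le_ofReal hB1.le

/-- resampling inequality with a restricted target set `T` -/
theorem lossF {μ : Measure ℝ} [IsProbabilityMeasure μ]
    (S : Finset (ZZ d)) {F Φ : (ZZ d → ℝ) → ℝ≥0∞} (hF : Measurable F) (hΦ : Measurable Φ)
    {A T : Set (ZZ d → ℝ)} (hA : MeasurableSet A) (hT : MeasurableSet T)
    (hT0 : (PP (ZZ d) μ) T ≠ 0) (κ0 : ℝ≥0∞)
    (h : ∀ W : ZZ d → ℝ, ∃ κ : ℝ≥0∞,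
      (∀ W1 : ZZ d → ℝ, ∀ W' ∈ T, spl S W1 W ∈ A → F (spl S W1 W) ≤ κ * Φ (spl S W' W)) ∧
      κ * (PP (ZZ d) μ) {W1 | spl S W1 W ∈ A} ≤ κ0 * (PP (ZZ d) μ) T) :
    ∫⁻ W in A, F W ∂(PP (ZZ d) μ) ≤ κ0 * ∫⁻ W, Φ W ∂(PP (ZZ d) μ) := by
  have hm : Measurable (fun W : ZZ d → ℝ => ∫⁻ W', Φ (spl S W' W) ∂(PP (ZZ d) μ)) :=
    Measurable.lintegral_prod_left' (f := fun p : (ZZ d → ℝ) × (ZZ d → ℝ) => Φ (spl S p.1 p.2))
      (hΦ.comp (spl_meas S))
  rw [← lintegral_indicator hA, ← lint_spl μ S (hF.indicator hA), ← lint_spl μ S hΦ,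
    ← lintegral_const_mul κ0 hm]
  refine lintegral_mono fun W => ?_
  obtain ⟨κ, hκ1, hκ2⟩ := h W
  set t : ℝ≥0∞ := (PP (ZZ d) μ) T with ht
  have htop : t ≠ ∞ := measure_ne_top _ _
  set J : ℝ≥0∞ := ∫⁻ W', Φ (spl S W' W) ∂(PP (ZZ d) μ) with hJ
  set B : Set (ZZ d → ℝ) := {W1 | spl S W1 W ∈ A} with hB
  have hBm : MeasurableSet B := spl_meas_left S W hA
  have hΦm : Measurable (fun W' => Φ (spl S W' W)) := hΦ.comp (spl_meas_left S W)
  have key : ∀ W1 : ZZ d → ℝ, spl S W1 W ∈ A → t * F (spl S W1 W) ≤ κ * J := by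
    intro W1 hA1
    calc t * F (spl S W1 W) = ∫⁻ _ in T, F (spl S W1 W) ∂(PP (ZZ d) μ) := by
          rw [setLIntegral_const, mul_comm]
      _ ≤ ∫⁻ W' in T, κ * Φ (spl S W' W) ∂(PP (ZZ d) μ) :=
          setLIntegral_mono (hΦm.const_mul κ) fun W' hW' => hκ1 W1 W' hW' hA1
      _ ≤ ∫⁻ W', κ * Φ (spl S W' W) ∂(PP (ZZ d) μ) := setLIntegral_le_lintegral _ _
      _ = κ * J := by rw [lintegral_const_mul κ hΦm]
  have hind : Measurable (fun W1 : ZZ d → ℝ => A.indicator F (spl S W1 W)) :=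
    (hF.indicator hA).comp (spl_meas_left S W)
  have h1 : t * ∫⁻ W1, A.indicator F (spl S W1 W) ∂(PP (ZZ d) μ) ≤ t * (κ0 * J) := by
    calc t * ∫⁻ W1, A.indicator F (spl S W1 W) ∂(PP (ZZ d) μ)
        = ∫⁻ W1, t * A.indicator F (spl S W1 W) ∂(PP (ZZ d) μ) := by
          rw [lintegral_const_mul t hind]
      _ ≤ ∫⁻ W1, B.indicator (fun _ => κ * J) W1 ∂(PP (ZZ d) μ) := by
          refine lintegral_mono fun W1 => ?_
          show t * A.indicator F (spl S W1 W) ≤ B.indicator (fun _ => κ * J) W1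
          by_cases hA1 : spl S W1 W ∈ A
          · rw [Set.indicator_of_mem hA1, Set.indicator_of_mem (show W1 ∈ B from hA1)]
            exact key W1 hA1
          · rw [Set.indicator_of_notMem hA1, mul_zero]
            exact zero_le
      _ = κ * J * (PP (ZZ d) μ) B := by
          rw [lintegral_indicator_const hBm]
      _ = (κ * (PP (ZZ d) μ) B) * J := by ring
      _ ≤ (κ0 * t) * J := by gcongr
      _ = t * (κ0 * J) := by ring
  exact (ENNReal.mul_le_mul_iff_right hT0 htop).mp h1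

theorem fP_meas (E : ℝ) {ε : ℝ} (hε : 0 < ε) (τ R g B : ℝ) (x : ZZ d) :
    MeasurableSet (fP E ε τ R g B x) := by
  have m1 : ∀ y z : ZZ d, Measurable (fun W : ZZ d → ℝ => ‖GF E ε W y z‖) := fun y z =>
    (GF_meas E hε y z).norm
  have m2 : ∀ y : ZZ d, Measurable (fun W : ZZ d → ℝ => |W y|) := fun y =>
    continuous_abs.measurable.comp (measurable_pi_apply y)
  have h1 : fP E ε τ R g B x = {W | R * τ ^ (n1 x) * ‖GF E ε W x x‖ < ‖GF E ε W 0 x‖} ∩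
      ({W | ‖GF E ε W 0 0‖ ≤ ‖GF E ε W 0 x‖ * τ ^ (2 * n1 x)} ∩
      ({W | g ≤ ‖GF E ε W 0 x‖ * τ ^ (2 * n1 x)} ∩ ({W | |W x| ≤ B} ∩
      {W | |W 0| * ‖GF E ε W 0 0‖ ≤ B * ‖GF E ε W 0 x‖}))) := rfl
  rw [h1]
  refine (measurableSet_lt ((m1 x x).const_mul _) (m1 0 x)).inter
    ((measurableSet_le (m1 0 0) ((m1 0 x).mul_const _)).inter
    ((measurableSet_le measurable_const ((m1 0 x).mul_const _)).inter
    ((measurableSet_le (m2 x) measurable_const).inter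
    (measurableSet_le ((m2 0).mul (m1 0 0)) ((m1 0 x).const_mul _)))))

/-- vector form of the equation -/
theorem Rp_eqn {E ε : ℝ} (hε : 0 < ε) (W : ZZ d → ℝ) (x : ZZ d) :
    ((W x : ℂ) + 2 * d - zp E ε) • Rp (ee d) E ε W (dl x)
      - ∑ i, (Rp (ee d) E ε W (dl (x + ee d i)) + Rp (ee d) E ε W (dl (x - ee d i)))
      = dl x := by
  ext y
  simp only [lp.coeFn_sub, Pi.sub_apply, lp.coeFn_smul, Pi.smul_apply, smul_eq_mul,
    lp.coeFn_sum, Finset.sum_apply, lp.coeFn_add, Pi.add_apply]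
  have h1 := GF_eqn (E := E) hε W x y
  rw [GF_symm hε W x y] at h1
  have h2 : ∑ i, (GF E ε W (x + ee d i) y + GF E ε W (x - ee d i) y)
      = ∑ i, (GF E ε W y (x + ee d i) + GF E ε W y (x - ee d i)) :=
    Finset.sum_congr rfl fun i _ => by rw [GF_symm hε W (x + ee d i) y, GF_symm hε W (x - ee d i) y]
  rw [h2] at h1
  have h3 : (dl x : ell (ZZ d)) y = if x = y then (1 : ℂ) else 0 := by
    rw [dl_apply]
    by_cases h : x = y
    · rw [if_pos h, if_pos h.symm]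
    · rw [if_neg h, if_neg (fun h' => h h'.symm)]
  rw [h3, ← h1]
  rfl

end Pool.SU
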