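import Mathlib
import Pool.Agent.SU.Base
import Pool.Agent.SU.FB

/-!
# Module F9: resampling of one or two sites, laws with full support
-/

set_option autoImplicit false

open Complex MeasureTheory Filter Topology Set ContinuousLinearMap
open scoped InnerProductSpace ENNReal NNReal

namespace Pool.SU

open Pool.NB Pool.SB

variable {d : ℕ}

lemma df_spl_spl (S : Finset (ZZ d)) (W' W1 W : ZZ d → ℝ) :
    spl S W' (spl S W1 W) = spl S W' W := by
  funext x
  unfold spl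
  by_cases hx : x ∈ S <;> simp [hx]

lemma df_spl_mem {S : Finset (ZZ d)} {x : ZZ d} (hx : x ∈ S) (W' W : ZZ d → ℝ) :
    spl S W' W x = W' x := by simp [spl, hx]

lemma df_spl_nmem {S : Finset (ZZ d)} {x : ZZ d} (hx : x ∉ S) (W' W : ZZ d → ℝ) :
    spl S W' W x = W x := by simp [spl, hx]

/-- the coefficient estimate -/
lemma df_coef {w w' B : ℝ} (hB : 1 ≤ B) (hw' : |w'| ≤ 1) (z : ℂ) (hz : ‖z‖ ≤ B)
    (hwz : |w| * ‖z‖ ≤ B) (v : ell (ZZ d)) :
    ‖(((w' - w : ℝ) : ℂ) * z) • v‖ ^ 2 ≤ 4 * B ^ 2 * ‖v‖ ^ 2 := by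
  rw [norm_smul, norm_mul, Complex.norm_real, Real.norm_eq_abs, mul_pow]
  have h1 : |w' - w| * ‖z‖ ≤ 2 * B := by
    have h2 : |w' - w| ≤ |w'| + |w| := abs_sub _ _
    have h3 : |w' - w| * ‖z‖ ≤ (|w'| + |w|) * ‖z‖ := by gcongr
    have h4 : |w'| * ‖z‖ ≤ 1 * B := by gcongr
    nlinarith
  have h5 : (|w' - w| * ‖z‖) ^ 2 ≤ (2 * B) ^ 2 := by gcongr
  have h6 : 0 ≤ ‖v‖ ^ 2 := by positivity
  nlinarith

lemma df_norm_add_sq {E : Type*} [SeminormedAddCommGroup E] (u v : E) :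
    ‖u + v‖ ^ 2 ≤ 2 * (‖u‖ ^ 2 + ‖v‖ ^ 2) := by
  have h := norm_add_le u v
  have h2 : ‖u + v‖ ^ 2 ≤ (‖u‖ + ‖v‖) ^ 2 := by gcongr
  nlinarith [sq_nonneg (‖u‖ - ‖v‖)]

lemma df_norm_add3_sq {E : Type*} [SeminormedAddCommGroup E] (u v w : E) :
    ‖u + (v + w)‖ ^ 2 ≤ 3 * (‖u‖ ^ 2 + ‖v‖ ^ 2 + ‖w‖ ^ 2) := by
  have h1 := norm_add_le u (v + w)
  have h2 := norm_add_le v w
  have h : ‖u + (v + w)‖ ≤ ‖u‖ + ‖v‖ + ‖w‖ := by linarith
  have h3 : ‖u + (v + w)‖ ^ 2 ≤ (‖u‖ + ‖v‖ + ‖w‖) ^ 2 := by gcongr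
  nlinarith [sq_nonneg (‖u‖ - ‖v‖), sq_nonneg (‖u‖ - ‖w‖), sq_nonneg (‖v‖ - ‖w‖)]

/-- the mass of the unit box as a real number -/
lemma df_mass {μ : Measure ℝ} [IsProbabilityMeasure μ] {C : ℝ} (hμ : Full μ C) :
    ∃ m : ℝ, 0 < m ∧ ∀ (d : ℕ) (S : Finset (ZZ d)),
      (PP (ZZ d) μ) (unitBox S) = ENNReal.ofReal (m ^ S.card) := by
  have h0 := hμ.one_pos
  have htop : μ {x : ℝ | |x| ≤ 1} ≠ ⊤ := measure_ne_top μ _
  refine ⟨(μ {x : ℝ | |x| ≤ 1}).toReal, ENNReal.toReal_pos h0.ne' htop, fun d S => ?_⟩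
  rw [hμ.unitBox_PP S, ENNReal.ofReal_pow ENNReal.toReal_nonneg, ENNReal.ofReal_toReal htop]

theorem diagF : StmtDiagF := by
  intro μ _ C hμ d B hB
  have hC := hμ.C_pos
  obtain ⟨m, hm, hmass⟩ := df_mass hμ
  refine ⟨16 * B ^ 2 * C / m, by positivity, ?_⟩
  intro X g E ε hg hε x
  set A : Set (ZZ d → ℝ) := {W | ‖GF E ε W 0 x‖ ≤ B ∧ |W x| * ‖GF E ε W 0 x‖ ≤ B ∧
    g ≤ ‖GF E ε W x x‖} with hAdef
  have hA : MeasurableSet A := by
    refine MeasurableSet.inter ?_ (MeasurableSet.inter ?_ ?_)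
    · exact measurableSet_le (GF_meas E hε 0 x).norm measurable_const
    · exact measurableSet_le (((measurable_pi_apply x).abs).mul (GF_meas E hε 0 x).norm)
        measurable_const
    · exact measurableSet_le measurable_const (GF_meas E hε x x).norm
  have hT0 : (PP (ZZ d) μ) (unitBox {x}) ≠ 0 := by
    rw [hmass]
    exact (ENNReal.ofReal_pos.mpr (by positivity)).ne'
  have key := lossF (μ := μ) {x} (F := fun W => pv X E ε W 0)
    (Φ := fun W => pv X E ε W 0 + pv X E ε W x) (pv_meas X E hε 0)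
    ((pv_meas X E hε 0).add (pv_meas X E hε x)) hA (unitBox_meas {x}) hT0
    (ENNReal.ofReal (16 * B ^ 2 * C / m / g)) ?_
  · rw [lintegral_add_left (pv_meas X E hε 0)] at key
    exact key
  intro W
  refine ⟨ENNReal.ofReal (8 * B ^ 2), ?_, ?_⟩
  · intro W1 W' hW' hmem
    show pv X E ε (spl {x} W1 W) 0 ≤ _
    have hs := VV_spl X (E := E) hε {x} W' (spl {x} W1 W) 0
    rw [df_spl_spl, Finset.sum_singleton] at hs
    have hz : ‖GF E ε (spl {x} W1 W) x 0‖ ≤ B := by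
      rw [GF_symm hε]
      exact hmem.1
    have hwz : |spl {x} W1 W x| * ‖GF E ε (spl {x} W1 W) x 0‖ ≤ B := by
      rw [GF_symm hε]
      exact hmem.2.1
    have h1 := df_coef hB (hW' x (Finset.mem_singleton_self x)) _ hz hwz
      (VV X E ε (spl {x} W' W) x)
    unfold pv
    rw [← ENNReal.ofReal_add (by positivity) (by positivity),
      ← ENNReal.ofReal_mul (by positivity)]
    apply ENNReal.ofReal_le_ofReal
    rw [hs]
    refine (df_norm_add_sq _ _).trans ?_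
    have h2 : ‖VV X E ε (spl {x} W' W) 0‖ ^ 2 ≤ B ^ 2 * ‖VV X E ε (spl {x} W' W) 0‖ ^ 2 := by
      have : (1 : ℝ) ≤ B ^ 2 := one_le_pow₀ hB
      nlinarith [sq_nonneg ‖VV X E ε (spl {x} W' W) 0‖]
    have h3 : 0 ≤ B ^ 2 * ‖VV X E ε (spl {x} W' W) 0‖ ^ 2 := by positivity
    have h4 : 0 ≤ B ^ 2 * ‖VV X E ε (spl {x} W' W) x‖ ^ 2 := by positivity
    nlinarith [h1, h2, h3, h4]
  · have hsub : {W1 | spl {x} W1 W ∈ A}
        ⊆ {W1 : ZZ d → ℝ | ‖(W1 x : ℂ) - wv E ε W x‖ ≤ 1 / g} := by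
      intro W1 hm1
      have h1 : g ≤ ‖GF E ε (spl {x} W1 W) x x‖ := hm1.2.2
      rw [GF_wv hε, df_spl_mem (Finset.mem_singleton_self x),
        wv_congr hε (spl {x} W1 W) W x (fun y hy =>
          df_spl_nmem (by simpa using hy) _ _), norm_inv] at h1
      show ‖(W1 x : ℂ) - wv E ε W x‖ ≤ 1 / g
      have hpos : 0 < ‖(W1 x : ℂ) - wv E ε W x‖ := by
        by_contra hcon
        have h0 : ‖(W1 x : ℂ) - wv E ε W x‖ = 0 := le_antisymm (not_lt.mp hcon) (norm_nonneg _)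
        rw [h0, inv_zero] at h1
        linarith
      rw [le_div_iff₀ hg]
      rw [le_inv_comm₀ hg hpos] at h1
      calc ‖(W1 x : ℂ) - wv E ε W x‖ * g ≤ g⁻¹ * g := by gcongr
        _ = 1 := inv_mul_cancel₀ hg.ne'
    rw [hmass, Finset.card_singleton, pow_one]
    calc ENNReal.ofReal (8 * B ^ 2) * (PP (ZZ d) μ) {W1 | spl {x} W1 W ∈ A}
        ≤ ENNReal.ofReal (8 * B ^ 2) * ENNReal.ofReal (2 * C * (1 / g)) := by
          gcongr
          exact (measure_mono hsub).trans (hμ.win1 x _ _)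
      _ = ENNReal.ofReal (16 * B ^ 2 * C / m / g) * ENNReal.ofReal m := by
          rw [← ENNReal.ofReal_mul (by positivity), ← ENNReal.ofReal_mul (by positivity)]
          congr 1
          field_simp
          ring

theorem offF : StmtOffF := by
  intro μ _ C hμ d B hB
  have hC := hμ.C_pos
  obtain ⟨m, hm, hmass⟩ := df_mass hμ
  refine ⟨32 * B ^ 2 * C / m ^ 2, by positivity, ?_⟩
  intro X g g' E ε hg hgg hε x y hxy
  have hg' : 0 < g' := by linarith
  set A : Set (ZZ d → ℝ) := {W | ‖GF E ε W 0 x‖ ≤ B ∧ |W x| * ‖GF E ε W 0 x‖ ≤ B ∧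
        ‖GF E ε W 0 y‖ ≤ B ∧ |W y| * ‖GF E ε W 0 y‖ ≤ B ∧ ‖GF E ε W x x‖ ≤ g ∧
        ‖GF E ε W y y‖ ≤ g ∧ g' ≤ ‖GF E ε W x y‖} with hAdef
  have hA : MeasurableSet A := by
    refine MeasurableSet.inter ?_ (MeasurableSet.inter ?_ (MeasurableSet.inter ?_
      (MeasurableSet.inter ?_ (MeasurableSet.inter ?_ (MeasurableSet.inter ?_ ?_)))))
    · exact measurableSet_le (GF_meas E hε 0 x).norm measurable_const
    · exact measurableSet_le (((measurable_pi_apply x).abs).mul (GF_meas E hε 0 x).norm)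
        measurable_const
    · exact measurableSet_le (GF_meas E hε 0 y).norm measurable_const
    · exact measurableSet_le (((measurable_pi_apply y).abs).mul (GF_meas E hε 0 y).norm)
        measurable_const
    · exact measurableSet_le (GF_meas E hε x x).norm measurable_const
    · exact measurableSet_le (GF_meas E hε y y).norm measurable_const
    · exact measurableSet_le measurable_const (GF_meas E hε x y).norm
  have hxS : x ∈ ({x, y} : Finset (ZZ d)) := by simp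
  have hyS : y ∈ ({x, y} : Finset (ZZ d)) := by simp
  have hT0 : (PP (ZZ d) μ) (unitBox {x, y}) ≠ 0 := by
    rw [hmass]
    exact (ENNReal.ofReal_pos.mpr (by positivity)).ne'
  have key := lossF (μ := μ) {x, y} (F := fun W => pv X E ε W 0)
    (Φ := fun W => pv X E ε W 0 + pv X E ε W x + pv X E ε W y) (pv_meas X E hε 0)
    (((pv_meas X E hε 0).add (pv_meas X E hε x)).add (pv_meas X E hε y)) hA
    (unitBox_meas {x, y}) hT0
    (ENNReal.ofReal (32 * B ^ 2 * C / m ^ 2 * g / g' ^ 2)) ?_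
  · have e1 : ∫⁻ W, (pv X E ε W 0 + pv X E ε W x + pv X E ε W y) ∂(PP (ZZ d) μ)
        = ∫⁻ W, pv X E ε W 0 ∂(PP (ZZ d) μ) + ∫⁻ W, pv X E ε W x ∂(PP (ZZ d) μ)
          + ∫⁻ W, pv X E ε W y ∂(PP (ZZ d) μ) := by
      rw [← lintegral_add_left (pv_meas X E hε 0)]
      exact lintegral_add_left ((pv_meas X E hε 0).add (pv_meas X E hε x)) _
    rw [e1] at key
    exact key
  intro W
  refine ⟨ENNReal.ofReal (12 * B ^ 2), ?_, ?_⟩
  · intro W1 W' hW' hmem
    show pv X E ε (spl {x, y} W1 W) 0 ≤ _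
    have hs := VV_spl X (E := E) hε {x, y} W' (spl {x, y} W1 W) 0
    rw [df_spl_spl, Finset.sum_pair hxy] at hs
    obtain ⟨m1, m2, m3, m4, -, -, -⟩ := hmem
    have hz : ‖GF E ε (spl {x, y} W1 W) x 0‖ ≤ B := by
      rw [GF_symm hε]
      exact m1
    have hwz : |spl {x, y} W1 W x| * ‖GF E ε (spl {x, y} W1 W) x 0‖ ≤ B := by
      rw [GF_symm hε]
      exact m2
    have hz' : ‖GF E ε (spl {x, y} W1 W) y 0‖ ≤ B := by
      rw [GF_symm hε]
      exact m3
    have hwz' : |spl {x, y} W1 W y| * ‖GF E ε (spl {x, y} W1 W) y 0‖ ≤ B := by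
      rw [GF_symm hε]
      exact m4
    have h1 := df_coef hB (hW' x hxS) _ hz hwz (VV X E ε (spl {x, y} W' W) x)
    have h1' := df_coef hB (hW' y hyS) _ hz' hwz' (VV X E ε (spl {x, y} W' W) y)
    unfold pv
    rw [← ENNReal.ofReal_add (by positivity) (by positivity),
      ← ENNReal.ofReal_add (by positivity) (by positivity),
      ← ENNReal.ofReal_mul (by positivity)]
    apply ENNReal.ofReal_le_ofReal
    rw [hs]
    refine (df_norm_add3_sq _ _ _).trans ?_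
    have h2 : ‖VV X E ε (spl {x, y} W' W) 0‖ ^ 2
        ≤ B ^ 2 * ‖VV X E ε (spl {x, y} W' W) 0‖ ^ 2 := by
      have : (1 : ℝ) ≤ B ^ 2 := one_le_pow₀ hB
      nlinarith [sq_nonneg ‖VV X E ε (spl {x, y} W' W) 0‖]
    have h3 : 0 ≤ B ^ 2 * ‖VV X E ε (spl {x, y} W' W) 0‖ ^ 2 := by positivity
    have h4 : 0 ≤ B ^ 2 * ‖VV X E ε (spl {x, y} W' W) x‖ ^ 2 := by positivity
    have h5 : 0 ≤ B ^ 2 * ‖VV X E ε (spl {x, y} W' W) y‖ ^ 2 := by positivity
    nlinarith [h1, h1', h2, h3, h4, h5]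
  · set α : ℂ := (W x : ℂ) - GF E ε W y y / DT E ε W x y with hα
    have hsub : {W1 | spl {x, y} W1 W ∈ A}
        ⊆ {W1 : ZZ d → ℝ | ‖(W1 x : ℂ) - α‖ ≤ 4 / 3 * (g / g' ^ 2)} := by
      intro W1 hm1
      obtain ⟨-, -, -, -, m1, m2, m3⟩ := hm1
      have e1 := two_diag (E := E) hε (spl {x, y} W1 W) W hxy (fun z hz hz' =>
        df_spl_nmem (by simp [hz, hz']) _ _)
      rw [df_spl_mem hxS] at e1
      show ‖(W1 x : ℂ) - α‖ ≤ 4 / 3 * (g / g' ^ 2)
      have e2 : (W1 x : ℂ) - α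
          = GF E ε (spl {x, y} W1 W) y y / DT E ε (spl {x, y} W1 W) x y := by
        rw [hα, ← e1]; ring
      rw [e2, norm_div]
      have h3 : 3 / 4 * g' ^ 2 ≤ ‖DT E ε (spl {x, y} W1 W) x y‖ := by
        unfold DT
        have k1 : ‖GF E ε (spl {x, y} W1 W) x y ^ 2‖
            ≤ ‖GF E ε (spl {x, y} W1 W) x x * GF E ε (spl {x, y} W1 W) y y
              - GF E ε (spl {x, y} W1 W) x y ^ 2‖
              + ‖GF E ε (spl {x, y} W1 W) x x * GF E ε (spl {x, y} W1 W) y y‖ := by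
          have := norm_sub_le (GF E ε (spl {x, y} W1 W) x x * GF E ε (spl {x, y} W1 W) y y)
            (GF E ε (spl {x, y} W1 W) x x * GF E ε (spl {x, y} W1 W) y y
              - GF E ε (spl {x, y} W1 W) x y ^ 2)
          rw [sub_sub_cancel] at this
          linarith
        have k2 : ‖GF E ε (spl {x, y} W1 W) x x * GF E ε (spl {x, y} W1 W) y y‖ ≤ g * g := by
          rw [norm_mul]
          gcongr
        have k3 : g' ^ 2 ≤ ‖GF E ε (spl {x, y} W1 W) x y ^ 2‖ := by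
          rw [norm_pow]
          gcongr
        nlinarith
      have h4 : 0 < 3 / 4 * g' ^ 2 := by positivity
      calc ‖GF E ε (spl {x, y} W1 W) y y‖ / ‖DT E ε (spl {x, y} W1 W) x y‖
          ≤ g / (3 / 4 * g' ^ 2) := by gcongr
        _ = 4 / 3 * (g / g' ^ 2) := by field_simp
    rw [hmass, Finset.card_pair hxy]
    calc ENNReal.ofReal (12 * B ^ 2) * (PP (ZZ d) μ) {W1 | spl {x, y} W1 W ∈ A}
        ≤ ENNReal.ofReal (12 * B ^ 2)
          * ENNReal.ofReal (2 * C * (4 / 3 * (g / g' ^ 2))) := by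
          gcongr
          exact (measure_mono hsub).trans (hμ.win1 x _ _)
      _ = ENNReal.ofReal (32 * B ^ 2 * C / m ^ 2 * g / g' ^ 2) * ENNReal.ofReal (m ^ 2) := by
          rw [← ENNReal.ofReal_mul (by positivity), ← ENNReal.ofReal_mul (by positivity)]
          congr 1
          field_simp
          ring

end Pool.SU
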