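import Mathlib
import Pool.Agent.SU.Green
import Pool.Agent.SU.Meas
import Pool.Agent.SU.VVb
import Pool.Agent.SU.OneSite
import Pool.Agent.SU.FB

/-!
# F5: one-site averaging for laws with full support
-/

set_option autoImplicit false

open Complex MeasureTheory Filter Topology Set ContinuousLinearMap
open scoped InnerProductSpace ENNReal NNReal

namespace Pool.SU

open Pool.NB Pool.SB

variable {d : ℕ}

/-- pointwise pivot bound -/
lemma egf_pivot (X : ZZ d →+ ℝ) {E ε : ℝ} (hε : 0 < ε) (W : ZZ d → ℝ) (x : ZZ d)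
    (β R' C : ℝ) (hC : 0 < C)
    (hR : ‖GF E ε W 0 x‖ ≤ R' * ‖GF E ε W x x‖) (hR' : 0 ≤ R')
    (hW : ‖(W x : ℂ) - wv E ε W x‖ ≤ 1)
    (hβ : 1 / (4 * C) ≤ ‖(β : ℂ) - wv E ε W x‖) :
    ‖VV X E ε W 0‖ ≤ ‖VV X E ε (Function.update W x β) 0‖
      + R' * (1 + 4 * C) * ‖VV X E ε W x‖ := by
  have e1 : Function.update (Function.update W x β) x (W x) = W := by
    rw [Function.update_idem, Function.update_eq_self]
  have h1 := VV_upd X (E := E) hε (Function.update W x β) x (W x) 0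
  rw [e1] at h1
  have h2 := VV_ratio X (E := E) hε W x β
  have hwv : wv E ε (Function.update W x β) x = wv E ε W x := wv_upd hε W x β
  have hpos : (0 : ℝ) < 1 / (4 * C) := by positivity
  have hb0 : 0 < ‖(β : ℂ) - wv E ε W x‖ := hpos.trans_le hβ
  have h4 : ‖((W x - β : ℝ) : ℂ)‖ * ‖GF E ε (Function.update W x β) x x‖ ≤ 1 + 4 * C := by
    rw [GF_wv hε, hwv, Function.update_self, norm_inv]
    have e2 : ((W x - β : ℝ) : ℂ) = ((W x : ℂ) - wv E ε W x) - ((β : ℂ) - wv E ε W x) := by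
      push_cast; ring
    have e3 : ‖((W x - β : ℝ) : ℂ)‖ ≤ 1 + ‖(β : ℂ) - wv E ε W x‖ := by
      rw [e2]
      exact (norm_sub_le _ _).trans (add_le_add hW le_rfl)
    have e4 : ‖(β : ℂ) - wv E ε W x‖⁻¹ ≤ 4 * C := by
      calc ‖(β : ℂ) - wv E ε W x‖⁻¹ ≤ (1 / (4 * C))⁻¹ := inv_anti₀ hpos hβ
        _ = 4 * C := by rw [one_div, inv_inv]
    calc ‖((W x - β : ℝ) : ℂ)‖ * ‖(β : ℂ) - wv E ε W x‖⁻¹
        ≤ (1 + ‖(β : ℂ) - wv E ε W x‖) * ‖(β : ℂ) - wv E ε W x‖⁻¹ :=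
          mul_le_mul_of_nonneg_right e3 (inv_nonneg.mpr hb0.le)
      _ = ‖(β : ℂ) - wv E ε W x‖⁻¹ + 1 := by
          rw [add_mul, one_mul, mul_inv_cancel₀ hb0.ne']
      _ ≤ 1 + 4 * C := by linarith
  have h5 : ‖GF E ε W x x‖ * ‖VV X E ε (Function.update W x β) x‖
      = ‖GF E ε (Function.update W x β) x x‖ * ‖VV X E ε W x‖ := by
    have := congrArg norm h2
    rwa [norm_smul, norm_smul] at this
  have hx : ‖VV X E ε W 0‖ ≤ ‖VV X E ε (Function.update W x β) 0‖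
      + ‖(((W x - Function.update W x β x : ℝ) : ℂ) * GF E ε W x 0)
        • VV X E ε (Function.update W x β) x‖ := by
    rw [h1]
    exact norm_sub_le _ _
  refine hx.trans ?_
  gcongr
  rw [norm_smul, norm_mul, Function.update_self, GF_symm hε W x 0]
  calc ‖((W x - β : ℝ) : ℂ)‖ * ‖GF E ε W 0 x‖ * ‖VV X E ε (Function.update W x β) x‖
      ≤ ‖((W x - β : ℝ) : ℂ)‖ * (R' * ‖GF E ε W x x‖)
        * ‖VV X E ε (Function.update W x β) x‖ := by gcongr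
    _ = R' * (‖((W x - β : ℝ) : ℂ)‖ * (‖GF E ε W x x‖
        * ‖VV X E ε (Function.update W x β) x‖)) := by ring
    _ = R' * (‖((W x - β : ℝ) : ℂ)‖ * ‖GF E ε (Function.update W x β) x x‖)
        * ‖VV X E ε W x‖ := by rw [h5]; ring
    _ ≤ R' * (1 + 4 * C) * ‖VV X E ε W x‖ := by gcongr

lemma egf_pivot_pv (X : ZZ d →+ ℝ) {E ε : ℝ} (hε : 0 < ε) (W : ZZ d → ℝ) (x : ZZ d)
    (β R' C : ℝ) (hC : 0 < C)
    (hR : ‖GF E ε W 0 x‖ ≤ R' * ‖GF E ε W x x‖) (hR' : 0 ≤ R')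
    (hW : ‖(W x : ℂ) - wv E ε W x‖ ≤ 1)
    (hβ : 1 / (4 * C) ≤ ‖(β : ℂ) - wv E ε W x‖) :
    pv X E ε W 0 ≤ 2 * pv X E ε (Function.update W x β) 0
      + ENNReal.ofReal (2 * (1 + 4 * C) ^ 2 * R' ^ 2) * pv X E ε W x := by
  have h := egf_pivot X hε W x β R' C hC hR hR' hW hβ
  unfold pv
  have e2 : (2 : ℝ≥0∞) * ENNReal.ofReal (‖VV X E ε (Function.update W x β) 0‖ ^ 2)
      = ENNReal.ofReal (2 * ‖VV X E ε (Function.update W x β) 0‖ ^ 2) := by
    rw [ENNReal.ofReal_mul (by norm_num)]; simp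
  rw [← ENNReal.ofReal_mul (by positivity), e2,
    ← ENNReal.ofReal_add (by positivity) (by positivity)]
  refine ENNReal.ofReal_le_ofReal ?_
  have h0 := norm_nonneg (VV X E ε W 0)
  calc ‖VV X E ε W 0‖ ^ 2 ≤ (‖VV X E ε (Function.update W x β) 0‖
      + R' * (1 + 4 * C) * ‖VV X E ε W x‖) ^ 2 := by gcongr
    _ ≤ 2 * ‖VV X E ε (Function.update W x β) 0‖ ^ 2
        + 2 * (1 + 4 * C) ^ 2 * R' ^ 2 * ‖VV X E ε W x‖ ^ 2 := by
        nlinarith [sq_nonneg (‖VV X E ε (Function.update W x β) 0‖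
          - R' * (1 + 4 * C) * ‖VV X E ε W x‖)]

/-- the set of good values has mass at least one half -/
lemma egf_half {μ : Measure ℝ} [IsProbabilityMeasure μ] {C : ℝ} (hμ : Full μ C)
    (w : ℂ) : (1 / 2 : ℝ≥0∞) ≤ μ {β : ℝ | 1 / (4 * C) ≤ ‖(β : ℂ) - w‖} := by
  have hC := hμ.C_pos
  have h1 : μ {β : ℝ | ‖(β : ℂ) - w‖ ≤ 1 / (4 * C)} ≤ 1 / 2 := by
    refine (hμ.win w _).trans ?_
    have : 2 * C * (1 / (4 * C)) = 1 / 2 := by field_simp; norm_num
    rw [this]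
    rw [ENNReal.ofReal_div_of_pos (by norm_num)]; simp
  have hm : MeasurableSet {β : ℝ | 1 / (4 * C) ≤ ‖(β : ℂ) - w‖} :=
    measurableSet_le measurable_const (by fun_prop)
  have h3 : {β : ℝ | 1 / (4 * C) ≤ ‖(β : ℂ) - w‖}ᶜ
      ⊆ {β : ℝ | ‖(β : ℂ) - w‖ ≤ 1 / (4 * C)} := by
    intro β hβ
    simp only [Set.mem_compl_iff, Set.mem_ofPred_eq, not_le] at hβ ⊢
    exact hβ.le
  have h4 : μ {β : ℝ | 1 / (4 * C) ≤ ‖(β : ℂ) - w‖}ᶜ ≤ 1 / 2 := (measure_mono h3).trans h1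
  have h5 := measure_add_measure_compl (μ := μ) hm
  rw [measure_univ] at h5
  have h6 : (1 / 2 : ℝ≥0∞) + 1 / 2
      ≤ μ {β : ℝ | 1 / (4 * C) ≤ ‖(β : ℂ) - w‖} + 1 / 2 := by
    rw [ENNReal.add_halves]
    calc (1 : ℝ≥0∞) = μ {β : ℝ | 1 / (4 * C) ≤ ‖(β : ℂ) - w‖}
        + μ {β : ℝ | 1 / (4 * C) ≤ ‖(β : ℂ) - w‖}ᶜ := h5.symm
      _ ≤ _ := by gcongr
  have h8 : (1 / 2 : ℝ≥0∞) ≠ ∞ := by simp
  exact (ENNReal.add_le_add_iff_right h8).mp h6

lemma egf_avg {μ : Measure ℝ} [IsProbabilityMeasure μ] {C : ℝ} (hμ : Full μ C)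
    (X : ZZ d →+ ℝ) {E ε : ℝ} (hε : 0 < ε) (W : ZZ d → ℝ) (x : ZZ d) (R' : ℝ)
    (hW : ‖(W x : ℂ) - wv E ε W x‖ ≤ 1)
    (hR : ‖GF E ε W 0 x‖ ≤ R' * ‖GF E ε W x x‖) (hR' : 0 ≤ R') :
    pv X E ε W 0 ≤ 4 * ∫⁻ β, pv X E ε (Function.update W x β) 0 ∂μ
      + ENNReal.ofReal (4 * (1 + 4 * C) ^ 2 * R' ^ 2) * pv X E ε W x := by
  have hC := hμ.C_pos
  set G : Set ℝ := {β : ℝ | 1 / (4 * C) ≤ ‖(β : ℂ) - wv E ε W x‖} with hG
  have hGm : MeasurableSet G := measurableSet_le measurable_const (by fun_prop)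
  have h1 : (1 / 2 : ℝ≥0∞) * pv X E ε W 0 ≤ ∫⁻ _β in G, pv X E ε W 0 ∂μ := by
    rw [setLIntegral_const, mul_comm]
    gcongr
    exact egf_half hμ _
  have h2 : ∫⁻ _β in G, pv X E ε W 0 ∂μ ≤ ∫⁻ β in G, (2 * pv X E ε (Function.update W x β) 0
      + ENNReal.ofReal (2 * (1 + 4 * C) ^ 2 * R' ^ 2) * pv X E ε W x) ∂μ :=
    setLIntegral_mono' hGm fun β hβ => egf_pivot_pv X hε W x β R' C hC hR hR' hW hβ
  have h3 : ∫⁻ β in G, (2 * pv X E ε (Function.update W x β) 0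
      + ENNReal.ofReal (2 * (1 + 4 * C) ^ 2 * R' ^ 2) * pv X E ε W x) ∂μ
      ≤ 2 * ∫⁻ β, pv X E ε (Function.update W x β) 0 ∂μ
        + ENNReal.ofReal (2 * (1 + 4 * C) ^ 2 * R' ^ 2) * pv X E ε W x := by
    refine (setLIntegral_le_lintegral _ _).trans ?_
    have hm : Measurable fun β : ℝ => pv X E ε (Function.update W x β) 0 :=
      (pv_meas X E hε 0).comp (measurable_update W)
    rw [lintegral_add_right _ measurable_const, lintegral_const_mul _ hm, lintegral_const,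
      measure_univ, mul_one]
  have h4 := h1.trans (h2.trans h3)
  calc pv X E ε W 0 = 2 * ((1 / 2 : ℝ≥0∞) * pv X E ε W 0) := by
        rw [← mul_assoc, one_div, ENNReal.mul_inv_cancel (by norm_num) (by norm_num), one_mul]
    _ ≤ 2 * (2 * ∫⁻ β, pv X E ε (Function.update W x β) 0 ∂μ
        + ENNReal.ofReal (2 * (1 + 4 * C) ^ 2 * R' ^ 2) * pv X E ε W x) := by gcongr
    _ = _ := by
        rw [mul_add, ← mul_assoc, ← mul_assoc]
        congr 1
        · congr 1; norm_num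
        · congr 1
          rw [show (2 : ℝ≥0∞) = ENNReal.ofReal 2 by simp, ← ENNReal.ofReal_mul (by norm_num)]
          congr 1; ring

/-- averaging over the site `x`: the event with the resonance position in a window -/
lemma egf_win {μ : Measure ℝ} [IsProbabilityMeasure μ] {C : ℝ} (hμ : Full μ C)
    (X : ZZ d →+ ℝ) {E ε : ℝ} (hε : 0 < ε) (x : ZZ d) (r : ℝ) :
    ∫⁻ W in {W : ZZ d → ℝ | ‖(W x : ℂ) - wv E ε W x‖ ≤ r},
        (∫⁻ β, pv X E ε (Function.update W x β) 0 ∂μ) ∂(PP (ZZ d) μ)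
      ≤ ENNReal.ofReal (2 * C * r) * ∫⁻ W, pv X E ε W 0 ∂(PP (ZZ d) μ) := by
  have hA : MeasurableSet {W : ZZ d → ℝ | ‖(W x : ℂ) - wv E ε W x‖ ≤ r} := by
    refine measurableSet_le ?_ measurable_const
    have h1 := wv_meas (d := d) E hε x
    have h2 : Measurable fun W : ZZ d → ℝ => (W x : ℂ) :=
      Complex.measurable_ofReal.comp (measurable_pi_apply x)
    exact (h2.sub h1).norm
  have hΦ : Measurable fun W : ZZ d → ℝ => ∫⁻ β, pv X E ε (Function.update W x β) 0 ∂μ := by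
    have := (pv_meas X E hε 0).comp (upd_meas_at (d := d) x)
    exact this.lintegral_prod_right'
  rw [← lintegral_indicator hA, ← lint_upd μ x (hΦ.indicator hA),
    ← lint_upd μ x (pv_meas X E hε 0), ← lintegral_const_mul _ hΦ]
  refine lintegral_mono fun W => ?_
  have h1 : ∀ β : ℝ, indicator {W : ZZ d → ℝ | ‖(W x : ℂ) - wv E ε W x‖ ≤ r}
      (fun W : ZZ d → ℝ => ∫⁻ β, pv X E ε (Function.update W x β) 0 ∂μ) (Function.update W x β)
      = indicator {β : ℝ | ‖(β : ℂ) - wv E ε W x‖ ≤ r}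
        (fun _ => ∫⁻ β, pv X E ε (Function.update W x β) 0 ∂μ) β := by
    intro β
    have e1 : (Function.update W x β ∈ {W : ZZ d → ℝ | ‖(W x : ℂ) - wv E ε W x‖ ≤ r})
        ↔ β ∈ {β : ℝ | ‖(β : ℂ) - wv E ε W x‖ ≤ r} := by
      simp only [Set.mem_ofPred_eq, Function.update_self, wv_upd hε]
    by_cases hb : β ∈ {β : ℝ | ‖(β : ℂ) - wv E ε W x‖ ≤ r}
    · rw [indicator_of_mem hb, indicator_of_mem (e1.mpr hb)]
      simp only [Function.update_idem]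
    · rw [indicator_of_notMem hb, indicator_of_notMem (fun h => hb (e1.mp h))]
  simp only [h1]
  have hB : MeasurableSet {β : ℝ | ‖(β : ℂ) - wv E ε W x‖ ≤ r} :=
    measurableSet_le (by fun_prop) measurable_const
  rw [lintegral_indicator hB, setLIntegral_const, mul_comm]
  gcongr
  exact hμ.win _ _

theorem estGF : StmtEstGF := by
  intro μ _ C hμ d
  have hC := hμ.C_pos
  refine ⟨8 * C + 4 * (1 + 4 * C) ^ 2, by positivity, ?_⟩
  intro X τ R g E ε K1 hτ hτ1 hR hg hε hε1 x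
  have hg0 : 0 < g := by linarith
  have hR0 : 0 < R := by linarith
  set r : ℝ := R * τ ^ (3 * n1 x) / g with hr
  set R' : ℝ := R * τ ^ (n1 x) with hR'
  have hR'0 : 0 ≤ R' := by positivity
  have hr1 : r ≤ 1 := by
    rw [hr, div_le_one hg0]
    have : τ ^ (3 * n1 x) ≤ 1 := pow_le_one₀ hτ.le hτ1.le
    nlinarith
  have hGm := evG_meas (d := d) E hε τ 1 R g (-K1) K1 K1 x
  have hsub : evG E ε τ 1 R g (-K1) K1 K1 x
      ⊆ {W : ZZ d → ℝ | ‖(W x : ℂ) - wv E ε W x‖ ≤ r} := by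
    intro W hW
    obtain ⟨h1, h2, h3⟩ := hW
    have hne := GF_ne (E := E) hε W x
    have hpos : 0 < ‖GF E ε W x x‖ := norm_pos_iff.mpr hne
    have e1 : (W x : ℂ) - wv E ε W x = (GF E ε W x x)⁻¹ := by unfold wv; ring
    rw [Set.mem_ofPred_eq, e1, norm_inv]
    have hn : 0 < τ ^ (2 * n1 x) := by positivity
    have h4 : 1 * g ≤ R * τ ^ (n1 x) * ‖GF E ε W x x‖ * τ ^ (2 * n1 x) :=
      h2.trans (mul_le_mul_of_nonneg_right h1 hn.le)
    have h5 : g ≤ R * τ ^ (3 * n1 x) * ‖GF E ε W x x‖ := by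
      rw [one_mul] at h4
      refine h4.trans (le_of_eq ?_)
      rw [show 3 * n1 x = n1 x + 2 * n1 x by ring, pow_add]; ring
    rw [hr, inv_le_comm₀ hpos (by positivity), inv_div, div_le_iff₀ (by positivity)]
    linarith
  calc ∫⁻ W in evG E ε τ 1 R g (-K1) K1 K1 x, pv X E ε W 0 ∂(PP (ZZ d) μ)
      ≤ ∫⁻ W in evG E ε τ 1 R g (-K1) K1 K1 x,
        (4 * (∫⁻ β, pv X E ε (Function.update W x β) 0 ∂μ)
          + ENNReal.ofReal (4 * (1 + 4 * C) ^ 2 * R' ^ 2) * pv X E ε W x)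
          ∂(PP (ZZ d) μ) := by
        refine setLIntegral_mono' hGm fun W hWG => ?_
        exact egf_avg hμ X hε W x R' ((hsub hWG).trans hr1) hWG.1 hR'0
    _ = 4 * (∫⁻ W in evG E ε τ 1 R g (-K1) K1 K1 x,
          (∫⁻ β, pv X E ε (Function.update W x β) 0 ∂μ) ∂(PP (ZZ d) μ))
        + ENNReal.ofReal (4 * (1 + 4 * C) ^ 2 * R' ^ 2) *
          ∫⁻ W in evG E ε τ 1 R g (-K1) K1 K1 x, pv X E ε W x ∂(PP (ZZ d) μ) := by
        have hΦ : Measurable fun W : ZZ d → ℝ =>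
            ∫⁻ β, pv X E ε (Function.update W x β) 0 ∂μ := by
          have := (pv_meas X E hε 0).comp (upd_meas_at (d := d) x)
          exact this.lintegral_prod_right'
        rw [lintegral_add_left (hΦ.const_mul _), lintegral_const_mul _ hΦ,
          lintegral_const_mul _ (pv_meas X E hε x)]
    _ ≤ 4 * (ENNReal.ofReal (2 * C * r) * ∫⁻ W, pv X E ε W 0 ∂(PP (ZZ d) μ))
        + ENNReal.ofReal (4 * (1 + 4 * C) ^ 2 * R' ^ 2) *
          ∫⁻ W in {W | wv E ε W x ∈ Gd (-K1) K1 K1}, pv X E ε W x ∂(PP (ZZ d) μ) := by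
        gcongr
        · exact (lintegral_mono_set hsub).trans (egf_win hμ X hε x r)
        · intro W hW
          exact hW.2.2
    _ ≤ _ := by
        rw [← mul_assoc]
        have p1 : (4 : ℝ≥0∞) * ENNReal.ofReal (2 * C * r)
            ≤ ENNReal.ofReal ((8 * C + 4 * (1 + 4 * C) ^ 2) * (R / g)
              * τ ^ (3 * n1 x)) := by
          rw [show (4 : ℝ≥0∞) = ENNReal.ofReal 4 by simp, ← ENNReal.ofReal_mul (by norm_num)]
          refine ENNReal.ofReal_le_ofReal ?_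
          rw [hr]
          have h1 : 4 * (2 * C * (R * τ ^ (3 * n1 x) / g))
              = (8 * C) * (R / g) * τ ^ (3 * n1 x) := by
            field_simp; ring
          rw [h1]
          have h2 : 8 * C ≤ 8 * C + 4 * (1 + 4 * C) ^ 2 := by
            have : 0 ≤ 4 * (1 + 4 * C) ^ 2 := by positivity
            linarith
          gcongr
        have p2 : ENNReal.ofReal (4 * (1 + 4 * C) ^ 2 * R' ^ 2)
            ≤ ENNReal.ofReal ((8 * C + 4 * (1 + 4 * C) ^ 2) * R ^ 2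
              * τ ^ (2 * n1 x)) := by
          refine ENNReal.ofReal_le_ofReal ?_
          have h1 : 4 * (1 + 4 * C) ^ 2 * R' ^ 2
              = (4 * (1 + 4 * C) ^ 2) * R ^ 2 * τ ^ (2 * n1 x) := by
            rw [hR', mul_pow, ← pow_mul, mul_comm (n1 x) 2]; ring
          rw [h1]
          have h2 : 4 * (1 + 4 * C) ^ 2 ≤ 8 * C + 4 * (1 + 4 * C) ^ 2 := by linarith
          gcongr
        exact add_le_add (mul_le_mul_left p1 _) (mul_le_mul_left p2 _)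

end Pool.SU
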