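import Mathlib
import Pool.Agent.SU.FDefs
import Pool.Agent.SU.FB
import Pool.Agent.SU.Base
import Pool.Agent.SU.EstP

/-!
# F4: estimate on the event of a bad pair (two site resampling), laws with full support
-/

set_option autoImplicit false
set_option linter.unusedSectionVars false
set_option linter.unusedVariables false

open Complex MeasureTheory Filter Topology Set ContinuousLinearMap
open scoped InnerProductSpace ENNReal NNReal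

namespace Pool.SU

open Pool.NB Pool.SB

variable {d : ℕ}

theorem estPF : StmtEstPF := by
  intro μ _ C hμ d B hB
  have hC := hμ.C_pos
  have hm0 := hμ.one_pos
  obtain ⟨m, hm⟩ : ∃ m : ℝ, m = (μ {x : ℝ | |x| ≤ 1}).toReal := ⟨_, rfl⟩
  have hmE : μ {x : ℝ | |x| ≤ 1} = ENNReal.ofReal m := by
    rw [hm, ENNReal.ofReal_toReal (measure_ne_top _ _)]
  have hmpos : 0 < m := by
    rw [hm]; exact ENNReal.toReal_pos hm0.ne' (measure_ne_top _ _)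
  set M : ℝ := 2 + B with hM
  have hMpos : 0 < M := by linarith
  refine ⟨32 * M ^ 2 * C ^ 2 / m ^ 2, by positivity, ?_⟩
  intro X τ R g E ε hτ0 hτ1 hR hg hε hε1 x hx
  have hRpos : 0 < R := by linarith
  obtain ⟨t, ht⟩ : ∃ t : ℝ, t = τ ^ n1 x := ⟨_, rfl⟩
  have ht0 : 0 < t := by rw [ht]; positivity
  have ht1 : t ≤ 1 := by rw [ht]; exact pow_le_one₀ hτ0.le hτ1.le
  have hpow : τ ^ (2 * n1 x) = t ^ 2 := by rw [ht, ← pow_mul, mul_comm]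
  rw [← ht]
  have h0S : (0 : ZZ d) ∈ ({0, x} : Finset (ZZ d)) := by simp
  have hxS : x ∈ ({0, x} : Finset (ZZ d)) := by simp
  have hmeas0 : Measurable (fun W : ZZ d → ℝ => pv X E ε W 0) := pv_meas X E hε 0
  have hmeasx : Measurable (fun W : ZZ d → ℝ => pv X E ε W x) := pv_meas X E hε x
  have hTP : (PP (ZZ d) μ) (unitBox ({0, x} : Finset (ZZ d))) = ENNReal.ofReal (m ^ 2) := by
    rw [hμ.unitBox_PP, Finset.card_pair (Ne.symm hx), hmE, ENNReal.ofReal_pow hmpos.le]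
  have hTP0 : (PP (ZZ d) μ) (unitBox ({0, x} : Finset (ZZ d))) ≠ 0 := by
    rw [hTP]; exact (ENNReal.ofReal_pos.mpr (by positivity)).ne'
  have hloss := lossF (μ := μ) ({0, x} : Finset (ZZ d)) (F := fun W => pv X E ε W 0)
    (Φ := fun W => pv X E ε W 0 + pv X E ε W x) hmeas0 (hmeas0.add hmeasx)
    (A := fP E ε τ R g B x) (T := unitBox ({0, x} : Finset (ZZ d)))
    (fP_meas E hε τ R g B x) (unitBox_meas _) hTP0
    (ENNReal.ofReal (32 * M ^ 2 * C ^ 2 / m ^ 2 * t / R)) ?_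
  · rw [lintegral_add_left hmeas0] at hloss
    exact hloss
  intro W
  obtain ⟨γ, hγ⟩ : ∃ γ : ℂ, γ = GF E ε W 0 x / DT E ε W 0 x := ⟨_, rfl⟩
  obtain ⟨α, hα⟩ : ∃ α : ℂ, α = (W 0 : ℂ) - GF E ε W x x / DT E ε W 0 x := ⟨_, rfl⟩
  obtain ⟨α', hα'⟩ : ∃ α' : ℂ, α' = (W x : ℂ) - GF E ε W 0 0 / DT E ε W 0 x := ⟨_, rfl⟩
  -- the facts on the event
  have key : ∀ W1 : ZZ d → ℝ, spl ({0, x} : Finset (ZZ d)) W1 W ∈ fP E ε τ R g B x →
      1 ≤ ‖GF E ε (spl ({0, x} : Finset (ZZ d)) W1 W) 0 x‖ ∧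
      ‖GF E ε (spl ({0, x} : Finset (ZZ d)) W1 W) 0 0‖
        ≤ ‖GF E ε (spl ({0, x} : Finset (ZZ d)) W1 W) 0 x‖ / 1 ∧
      ‖(W1 0 : ℂ) - α‖ ≤ 1 / (R * t) * ‖γ‖ ∧
      ‖(W1 x : ℂ) - α'‖ ≤ t ^ 2 / 1 * ‖γ‖ ∧
      ‖GF E ε (spl ({0, x} : Finset (ZZ d)) W1 W) 0 x‖ * ‖γ‖ ≤ 2 ∧ 0 < ‖γ‖ := by
    intro W1 hev
    set W2 := spl ({0, x} : Finset (ZZ d)) W1 W with hW2
    obtain ⟨e1, e2, e3, _, _⟩ := hev
    rw [← ht] at e1
    rw [hpow] at e2 e3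
    obtain ⟨f1, f2, f3, f4, f5, f6⟩ := estP_det (p := GF E ε W2 0 0) (q := GF E ε W2 x x)
      (r := GF E ε W2 0 x) (κ := 1) (g := g) ht0 ht1 one_pos (by linarith) (by linarith) e1
      (by rw [one_mul]; exact e2) (by rw [one_mul]; exact e3)
    have hout : ∀ z, z ≠ 0 → z ≠ x → W2 z = W z := by
      intro z hz0 hzx
      rw [hW2]; unfold spl
      rw [if_neg (by simp [hz0, hzx])]
    have hW20 : W2 0 = W1 0 := by rw [hW2]; unfold spl; rw [if_pos h0S]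
    have hW2x : W2 x = W1 x := by rw [hW2]; unfold spl; rw [if_pos hxS]
    have g1 : (W1 0 : ℂ) - α = GF E ε W2 x x / DT E ε W2 0 x := by
      have := two_diag (E := E) hε W2 W (x := 0) (y := x) (Ne.symm hx) (fun z h1 h2 => hout z h1 h2)
      rw [hW20] at this
      rw [hα, ← this]; ring
    have g2 : (W1 x : ℂ) - α' = GF E ε W2 0 0 / DT E ε W2 0 x := by
      have := two_diag (E := E) hε W2 W (x := x) (y := 0) hx (fun z h1 h2 => hout z h2 h1)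
      rw [hW2x, DT_symm hε W2 x 0, DT_symm hε W x 0] at this
      rw [hα', ← this]; ring
    have g3 : γ = GF E ε W2 0 x / DT E ε W2 0 x := by
      rw [hγ]
      exact (two_off (E := E) hε W2 W (x := 0) (y := x) (Ne.symm hx) (fun z h1 h2 => hout z h1 h2)).symm
    have hDT : DT E ε W2 0 x = GF E ε W2 0 0 * GF E ε W2 x x - GF E ε W2 0 x ^ 2 := rfl
    rw [← hDT] at f3 f4 f5 f6
    rw [← g1, ← g3] at f4
    rw [← g2, ← g3] at f5
    rw [← g3] at f6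
    refine ⟨f1, f2, f4, f5, f6, ?_⟩
    rw [g3, norm_div]
    exact div_pos (lt_of_lt_of_le one_pos f1) (norm_pos_iff.mpr f3)
  by_cases hγ0 : ‖γ‖ = 0
  · refine ⟨0, fun W1 W' _ hev => ?_, by simp⟩
    have := (key W1 hev).2.2.2.2.2
    exact absurd hγ0 this.ne'
  have hγpos : 0 < ‖γ‖ := lt_of_le_of_ne (norm_nonneg _) (Ne.symm hγ0)
  refine ⟨ENNReal.ofReal (8 * M ^ 2 / ‖γ‖ ^ 2), ?_, ?_⟩
  · intro W1 W' hW' hev
    obtain ⟨k1, k2, _, _, k5, _⟩ := key W1 hev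
    have hW'0 : |W' 0| ≤ 1 := hW' 0 h0S
    have hW'x : |W' x| ≤ 1 := hW' x hxS
    have e4 : |spl ({0, x} : Finset (ZZ d)) W1 W x| ≤ B := hev.2.2.2.1
    have e5 : |spl ({0, x} : Finset (ZZ d)) W1 W 0| *
        ‖GF E ε (spl ({0, x} : Finset (ZZ d)) W1 W) 0 0‖ ≤
        B * ‖GF E ε (spl ({0, x} : Finset (ZZ d)) W1 W) 0 x‖ := hev.2.2.2.2
    set W2 := spl ({0, x} : Finset (ZZ d)) W1 W with hW2
    have hVV := VV_spl X hε ({0, x} : Finset (ZZ d)) W' W2 0 (E := E)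
    rw [hW2, estP_spl_spl, ← hW2] at hVV
    set W3 := spl ({0, x} : Finset (ZZ d)) W' W with hW3
    rw [Finset.sum_pair (Ne.symm hx)] at hVV
    obtain ⟨G, hG⟩ : ∃ G : ℝ, G = ‖GF E ε W2 0 x‖ := ⟨_, rfl⟩
    rw [← hG] at k1 k2 k5 e5
    rw [div_one] at k2
    have hGx : ‖GF E ε W2 x 0‖ = G := by rw [GF_symm hε W2 x 0, hG]
    have hG0 : 0 ≤ G := le_trans zero_le_one k1
    have hd0 : ‖((W' 0 - W2 0 : ℝ) : ℂ)‖ ≤ 1 + |W2 0| := by
      rw [Complex.norm_real, Real.norm_eq_abs]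
      exact (abs_sub _ _).trans (by linarith)
    have hdx : ‖((W' x - W2 x : ℝ) : ℂ)‖ ≤ 1 + B := by
      rw [Complex.norm_real, Real.norm_eq_abs]
      exact (abs_sub _ _).trans (by linarith)
    have hn : ‖VV X E ε W2 0‖ ≤ M * G * (‖VV X E ε W3 0‖ + ‖VV X E ε W3 x‖) := by
      rw [hVV]
      refine (norm_add_le _ _).trans ?_
      refine (add_le_add_right (norm_add_le _ _) _).trans ?_
      rw [norm_smul, norm_smul, norm_mul, norm_mul, hGx]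
      have v0 : 0 ≤ ‖VV X E ε W3 0‖ := norm_nonneg _
      have vx : 0 ≤ ‖VV X E ε W3 x‖ := norm_nonneg _
      have w1 : ‖((W' 0 - W2 0 : ℝ) : ℂ)‖ * ‖GF E ε W2 0 0‖ ≤ (1 + B) * G := by
        calc ‖((W' 0 - W2 0 : ℝ) : ℂ)‖ * ‖GF E ε W2 0 0‖
            ≤ (1 + |W2 0|) * ‖GF E ε W2 0 0‖ := mul_le_mul_of_nonneg_right hd0 (norm_nonneg _)
          _ = ‖GF E ε W2 0 0‖ + |W2 0| * ‖GF E ε W2 0 0‖ := by ring
          _ ≤ G + B * G := add_le_add k2 e5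
          _ = (1 + B) * G := by ring
      have w2 : ‖((W' x - W2 x : ℝ) : ℂ)‖ * G ≤ (1 + B) * G :=
        mul_le_mul_of_nonneg_right hdx hG0
      have w3 : (1 + B) * G ≤ M * G := by
        refine mul_le_mul_of_nonneg_right ?_ hG0
        rw [hM]; linarith
      have w4 : 1 + (1 + B) * G ≤ M * G := by
        have : M * G = G + (1 + B) * G := by rw [hM]; ring
        rw [this]; linarith
      have w5 : ‖((W' 0 - W2 0 : ℝ) : ℂ)‖ * ‖GF E ε W2 0 0‖ * ‖VV X E ε W3 0‖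
          ≤ (1 + B) * G * ‖VV X E ε W3 0‖ := mul_le_mul_of_nonneg_right w1 v0
      have w6 : ‖((W' x - W2 x : ℝ) : ℂ)‖ * G * ‖VV X E ε W3 x‖ ≤ M * G * ‖VV X E ε W3 x‖ :=
        mul_le_mul_of_nonneg_right (w2.trans w3) vx
      have w7 : (1 + (1 + B) * G) * ‖VV X E ε W3 0‖ ≤ M * G * ‖VV X E ε W3 0‖ :=
        mul_le_mul_of_nonneg_right w4 v0
      nlinarith
    have hsq : ‖VV X E ε W2 0‖ ^ 2
        ≤ 8 * M ^ 2 / ‖γ‖ ^ 2 * (‖VV X E ε W3 0‖ ^ 2 + ‖VV X E ε W3 x‖ ^ 2) := by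
      have v0 : 0 ≤ ‖VV X E ε W3 0‖ := norm_nonneg _
      have vx : 0 ≤ ‖VV X E ε W3 x‖ := norm_nonneg _
      have s1 : ‖VV X E ε W2 0‖ ^ 2 ≤ (M * G * (‖VV X E ε W3 0‖ + ‖VV X E ε W3 x‖)) ^ 2 :=
        pow_le_pow_left₀ (norm_nonneg _) hn 2
      have s2 : (‖VV X E ε W3 0‖ + ‖VV X E ε W3 x‖) ^ 2
          ≤ 2 * (‖VV X E ε W3 0‖ ^ 2 + ‖VV X E ε W3 x‖ ^ 2) := by
        nlinarith [sq_nonneg (‖VV X E ε W3 0‖ - ‖VV X E ε W3 x‖)]
      have s3 : G ^ 2 ≤ 4 / ‖γ‖ ^ 2 := by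
        rw [le_div_iff₀ (by positivity), ← mul_pow]
        have : (G * ‖γ‖) ^ 2 ≤ 2 ^ 2 := pow_le_pow_left₀ (by positivity) k5 2
        linarith
      calc ‖VV X E ε W2 0‖ ^ 2 ≤ (M * G * (‖VV X E ε W3 0‖ + ‖VV X E ε W3 x‖)) ^ 2 := s1
        _ = M ^ 2 * G ^ 2 * (‖VV X E ε W3 0‖ + ‖VV X E ε W3 x‖) ^ 2 := by ring
        _ ≤ M ^ 2 * (4 / ‖γ‖ ^ 2) * (2 * (‖VV X E ε W3 0‖ ^ 2 + ‖VV X E ε W3 x‖ ^ 2)) := by
            apply mul_le_mul _ s2 (by positivity) (by positivity)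
            exact mul_le_mul_of_nonneg_left s3 (by positivity)
        _ = 8 * M ^ 2 / ‖γ‖ ^ 2 * (‖VV X E ε W3 0‖ ^ 2 + ‖VV X E ε W3 x‖ ^ 2) := by ring
    show pv X E ε W2 0 ≤ ENNReal.ofReal (8 * M ^ 2 / ‖γ‖ ^ 2) * (pv X E ε W3 0 + pv X E ε W3 x)
    unfold pv
    rw [← ENNReal.ofReal_add (by positivity) (by positivity), ← ENNReal.ofReal_mul (by positivity)]
    exact ENNReal.ofReal_le_ofReal hsq
  · have hsub : {W1 : ZZ d → ℝ | spl ({0, x} : Finset (ZZ d)) W1 W ∈ fP E ε τ R g B x}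
        ⊆ {W1 | ‖(W1 0 : ℂ) - α‖ ≤ 1 / (R * t) * ‖γ‖ ∧ ‖(W1 x : ℂ) - α'‖ ≤ t ^ 2 / 1 * ‖γ‖} := by
      intro W1 hev
      obtain ⟨_, _, k3, k4, _, _⟩ := key W1 hev
      exact ⟨k3, k4⟩
    have hP : (PP (ZZ d) μ) {W1 : ZZ d → ℝ | spl ({0, x} : Finset (ZZ d)) W1 W
          ∈ fP E ε τ R g B x}
        ≤ ENNReal.ofReal (2 * C * (1 / (R * t) * ‖γ‖)) *
          ENNReal.ofReal (2 * C * (t ^ 2 / 1 * ‖γ‖)) :=
      (measure_mono hsub).trans (hμ.win2 (Ne.symm hx) α α' _ _)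
    refine (mul_le_mul_right hP _).trans ?_
    rw [hTP, ← ENNReal.ofReal_mul (by positivity), ← ENNReal.ofReal_mul (by positivity),
      ← ENNReal.ofReal_mul (by positivity)]
    refine ENNReal.ofReal_le_ofReal (le_of_eq ?_)
    field_simp
    ring

end Pool.SU
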