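import Mathlib
import Pool.Agent.SU.FDefs
import Pool.Agent.SU.Green
import Pool.Agent.SU.Meas
import Pool.Agent.SU.OneSite

/-!
# F12: fractional moments at high energy
-/

set_option autoImplicit false
set_option linter.unusedSectionVars false
set_option linter.unusedSimpArgs false
set_option linter.unusedVariables false

open Complex MeasureTheory Filter Topology Set ContinuousLinearMap
open scoped InnerProductSpace ENNReal NNReal

namespace Pool.SU

open Pool.NB Pool.SB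

variable {d : ℕ}

/-- subadditivity of the square root of the norm, extended nonnegative version -/
lemma fm12_add (u v : ℂ) : ENNReal.ofReal (‖u + v‖ ^ (1 / 2 : ℝ))
    ≤ ENNReal.ofReal (‖u‖ ^ (1 / 2 : ℝ)) + ENNReal.ofReal (‖v‖ ^ (1 / 2 : ℝ)) := by
  rw [← ENNReal.ofReal_add (by positivity) (by positivity)]
  refine ENNReal.ofReal_le_ofReal ?_
  refine (Real.rpow_le_rpow (norm_nonneg _) (norm_add_le u v) (by norm_num)).trans ?_
  exact Real.rpow_add_le_add_rpow (norm_nonneg _) (norm_nonneg _) (by norm_num) (by norm_num)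

lemma fm12_sum {ι : Type} (s : Finset ι) (u : ι → ℂ) :
    ENNReal.ofReal (‖∑ i ∈ s, u i‖ ^ (1 / 2 : ℝ))
      ≤ ∑ i ∈ s, ENNReal.ofReal (‖u i‖ ^ (1 / 2 : ℝ)) := by
  classical
  induction s using Finset.induction_on with
  | empty => simp
  | insert a s ha ih =>
    rw [Finset.sum_insert ha, Finset.sum_insert ha]
    exact (fm12_add _ _).trans (by gcongr)

/-- the fractional moment -/
noncomputable def fmA (μ : Measure ℝ) (E ε : ℝ) (x : ZZ d) : ℝ≥0∞ :=
  ∫⁻ W, ENNReal.ofReal (‖GF E ε W x 0‖ ^ (1 / 2 : ℝ)) ∂(PP (ZZ d) μ)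

lemma fm12_meas (E : ℝ) {ε : ℝ} (hε : 0 < ε) (x : ZZ d) :
    Measurable (fun W : ZZ d → ℝ => ENNReal.ofReal (‖GF E ε W x 0‖ ^ (1 / 2 : ℝ))) :=
  (((GF_meas E hε x 0).norm).pow_const _).ennreal_ofReal

lemma fm12_le (μ : Measure ℝ) [IsProbabilityMeasure μ] (E : ℝ) {ε : ℝ} (hε : 0 < ε) (x : ZZ d) :
    fmA μ E ε x ≤ ENNReal.ofReal ((1 / ε) ^ (1 / 2 : ℝ)) := by
  unfold fmA
  calc ∫⁻ W, ENNReal.ofReal (‖GF E ε W x 0‖ ^ (1 / 2 : ℝ)) ∂(PP (ZZ d) μ)
      ≤ ∫⁻ _ : ZZ d → ℝ, ENNReal.ofReal ((1 / ε) ^ (1 / 2 : ℝ)) ∂(PP (ZZ d) μ) := by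
        refine lintegral_mono fun W => ENNReal.ofReal_le_ofReal ?_
        exact Real.rpow_le_rpow (norm_nonneg _) (GF_norm_le hε W x 0) (by norm_num)
    _ = ENNReal.ofReal ((1 / ε) ^ (1 / 2 : ℝ)) := by simp

/-- the row entries as functions of the value at one site -/
lemma fm12_row {E ε : ℝ} (hε : 0 < ε) (W : ZZ d → ℝ) (x : ZZ d) (b : ℝ) :
    GF E ε (Function.update W x b) x 0
      = (GF E ε W 0 x / GF E ε W x x) * ((b : ℂ) - wv E ε W x)⁻¹ := by
  have h0 : GF E ε W x x ≠ 0 := GF_ne hε W x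
  have h1 := GF_ratio (E := E) hε W x 0 b
  have h2 := GF_wv (E := E) hε (Function.update W x b) x
  rw [wv_upd hε, Function.update_self] at h2
  rw [GF_symm hε, ← h2]
  field_simp
  exact h1

/-- the key inequality -/
lemma fm12_key (μ : Measure ℝ) [IsProbabilityMeasure μ] {k E ε : ℝ} (hε : 0 < ε)
    (hdec : ∀ w : ℂ, 0 < w.im →
      ENNReal.ofReal k * ∫⁻ β : ℝ, ENNReal.ofReal (‖((β : ℂ) - w)⁻¹‖ ^ (1 / 2 : ℝ)) ∂μ
        ≤ ∫⁻ β : ℝ, ENNReal.ofReal (‖(β : ℂ) + 2 * d - zp E ε‖ ^ (1 / 2 : ℝ) *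
            ‖((β : ℂ) - w)⁻¹‖ ^ (1 / 2 : ℝ)) ∂μ) (x : ZZ d) :
    ENNReal.ofReal k * fmA μ E ε x
      ≤ ∑ i, (fmA μ E ε (x + ee d i) + fmA μ E ε (x - ee d i)) + (if x = 0 then 1 else 0) := by
  have hm := fm12_meas E hε x
  -- the pointwise bound
  have hpt : ∀ W : ZZ d → ℝ,
      ENNReal.ofReal k * ∫⁻ β : ℝ, ENNReal.ofReal
          (‖GF E ε (Function.update W x β) x 0‖ ^ (1 / 2 : ℝ)) ∂μ
        ≤ ∫⁻ β : ℝ, (∑ i, (ENNReal.ofReal
            (‖GF E ε (Function.update W x β) (x + ee d i) 0‖ ^ (1 / 2 : ℝ)) + ENNReal.ofReal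
            (‖GF E ε (Function.update W x β) (x - ee d i) 0‖ ^ (1 / 2 : ℝ)))
            + (if x = 0 then 1 else 0)) ∂μ := by
    intro W
    set w := wv E ε W x with hw
    set c : ℝ := ‖GF E ε W 0 x / GF E ε W x x‖ ^ (1 / 2 : ℝ) with hc
    have hc0 : 0 ≤ c := by positivity
    have hwim : 0 < w.im := lt_of_lt_of_le hε (wv_im hε W x)
    have h1 : ∀ β : ℝ, ENNReal.ofReal (‖GF E ε (Function.update W x β) x 0‖ ^ (1 / 2 : ℝ))
        = ENNReal.ofReal c * ENNReal.ofReal (‖((β : ℂ) - w)⁻¹‖ ^ (1 / 2 : ℝ)) := by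
      intro β
      rw [fm12_row hε, norm_mul, Real.mul_rpow (norm_nonneg _) (norm_nonneg _),
        ENNReal.ofReal_mul hc0]
    have h2 : ∀ β : ℝ, ENNReal.ofReal c * ENNReal.ofReal
        (‖(β : ℂ) + 2 * d - zp E ε‖ ^ (1 / 2 : ℝ) * ‖((β : ℂ) - w)⁻¹‖ ^ (1 / 2 : ℝ))
        = ENNReal.ofReal (‖((β : ℂ) + 2 * d - zp E ε) *
            GF E ε (Function.update W x β) x 0‖ ^ (1 / 2 : ℝ)) := by
      intro β
      rw [fm12_row hε, norm_mul, norm_mul, ← ENNReal.ofReal_mul hc0,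
        Real.mul_rpow (norm_nonneg _) (by positivity),
        Real.mul_rpow (norm_nonneg _) (norm_nonneg _)]
      congr 1
      ring
    simp_rw [h1]
    rw [lintegral_const_mul' _ _ ENNReal.ofReal_ne_top]
    calc ENNReal.ofReal k * (ENNReal.ofReal c *
          ∫⁻ β : ℝ, ENNReal.ofReal (‖((β : ℂ) - w)⁻¹‖ ^ (1 / 2 : ℝ)) ∂μ)
        = ENNReal.ofReal c * (ENNReal.ofReal k *
          ∫⁻ β : ℝ, ENNReal.ofReal (‖((β : ℂ) - w)⁻¹‖ ^ (1 / 2 : ℝ)) ∂μ) := by ring
      _ ≤ ENNReal.ofReal c * ∫⁻ β : ℝ, ENNReal.ofReal (‖(β : ℂ) + 2 * d - zp E ε‖ ^ (1 / 2 : ℝ) *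
            ‖((β : ℂ) - w)⁻¹‖ ^ (1 / 2 : ℝ)) ∂μ := by
          gcongr
          exact hdec w hwim
      _ = ∫⁻ β : ℝ, ENNReal.ofReal (‖((β : ℂ) + 2 * d - zp E ε) *
            GF E ε (Function.update W x β) x 0‖ ^ (1 / 2 : ℝ)) ∂μ := by
          rw [← lintegral_const_mul' _ _ ENNReal.ofReal_ne_top]
          exact lintegral_congr fun β => h2 β
      _ ≤ _ := by
          refine lintegral_mono fun β => ?_
          have h3 := GF_eqn (E := E) hε (Function.update W x β) x 0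
          rw [Function.update_self] at h3
          have h4 : ((β : ℂ) + 2 * d - zp E ε) * GF E ε (Function.update W x β) x 0
              = ∑ i, (GF E ε (Function.update W x β) (x + ee d i) 0
                + GF E ε (Function.update W x β) (x - ee d i) 0) + (if x = 0 then 1 else 0) := by
            rw [← h3]; ring
          rw [h4]
          refine (fm12_add _ _).trans (add_le_add ?_ ?_)
          · refine (fm12_sum _ _).trans (Finset.sum_le_sum fun i _ => fm12_add _ _)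
          · split_ifs
            · simp
            · simp
  -- integrate
  have hmi : ∀ y : ZZ d, Measurable (fun W : ZZ d → ℝ =>
      ENNReal.ofReal (‖GF E ε W y 0‖ ^ (1 / 2 : ℝ))) := fun y => fm12_meas E hε y
  have hm2 : ∀ i : Fin d, Measurable (fun W : ZZ d → ℝ => ENNReal.ofReal
            (‖GF E ε W (x + ee d i) 0‖ ^ (1 / 2 : ℝ)) + ENNReal.ofReal
            (‖GF E ε W (x - ee d i) 0‖ ^ (1 / 2 : ℝ))) := fun i => (hmi _).add (hmi _)
  have hmF : Measurable (fun W : ZZ d → ℝ => (∑ i, (ENNReal.ofReal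
            (‖GF E ε W (x + ee d i) 0‖ ^ (1 / 2 : ℝ)) + ENNReal.ofReal
            (‖GF E ε W (x - ee d i) 0‖ ^ (1 / 2 : ℝ)))
            + (if x = 0 then (1 : ℝ≥0∞) else 0))) :=
    (Finset.measurable_sum _ fun i _ => hm2 i).add measurable_const
  calc ENNReal.ofReal k * fmA μ E ε x
      = ∫⁻ W, ENNReal.ofReal k * ∫⁻ β : ℝ, ENNReal.ofReal
          (‖GF E ε (Function.update W x β) x 0‖ ^ (1 / 2 : ℝ)) ∂μ ∂(PP (ZZ d) μ) := by
        rw [lintegral_const_mul' _ _ ENNReal.ofReal_ne_top, lint_upd μ x hm]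
        rfl
    _ ≤ ∫⁻ W, ∫⁻ β : ℝ, (∑ i, (ENNReal.ofReal
            (‖GF E ε (Function.update W x β) (x + ee d i) 0‖ ^ (1 / 2 : ℝ)) + ENNReal.ofReal
            (‖GF E ε (Function.update W x β) (x - ee d i) 0‖ ^ (1 / 2 : ℝ)))
            + (if x = 0 then 1 else 0)) ∂μ ∂(PP (ZZ d) μ) := lintegral_mono hpt
    _ = ∫⁻ W, (∑ i, (ENNReal.ofReal
            (‖GF E ε W (x + ee d i) 0‖ ^ (1 / 2 : ℝ)) + ENNReal.ofReal
            (‖GF E ε W (x - ee d i) 0‖ ^ (1 / 2 : ℝ)))
            + (if x = 0 then 1 else 0)) ∂(PP (ZZ d) μ) := lint_upd μ x hmF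
    _ = _ := by
        rw [lintegral_add_right _ measurable_const, lintegral_const, measure_univ, mul_one,
          lintegral_finsetSum _ fun i _ => hm2 i]
        congr 1
        refine Finset.sum_congr rfl fun i _ => ?_
        rw [lintegral_add_right _ (hmi _)]
        rfl

lemma fm12_n1_add (x : ZZ d) (i : Fin d) (m : ℕ) (h : m + 1 ≤ n1 x) : m ≤ n1 (x + ee d i) := by
  have h1 : n1 x ≤ n1 (x + ee d i) + 1 := by
    have h2 := n1_add (x + ee d i) (-ee d i)
    rw [n1_neg, n1_ee, add_neg_cancel_right] at h2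
    exact h2
  omega

lemma fm12_n1_sub (x : ZZ d) (i : Fin d) (m : ℕ) (h : m + 1 ≤ n1 x) : m ≤ n1 (x - ee d i) := by
  have h1 : n1 x ≤ n1 (x - ee d i) + 1 := by
    have h2 := n1_add (x - ee d i) (ee d i)
    rw [n1_ee, sub_add_cancel] at h2
    exact h2
  omega

/-- F12 -/
theorem fm_of (hdec : StmtDec) : StmtFM := by
  intro μ _ C hμ d hd
  have hd0 : (0 : ℝ) < d := by exact_mod_cast hd
  have hd1 : (1 : ℝ) ≤ d := by exact_mod_cast hd
  obtain ⟨E1, hE1, hE⟩ := hdec μ C hμ d (8 * d) (by positivity)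
  refine ⟨E1, 1, hE1, one_pos, ?_⟩
  intro E ε hEE hε hε1 x
  have hw := hE E ε hEE hε hε1
  have hkey := fun y : ZZ d => fm12_key μ (k := 8 * d) hε hw y
  -- real valued version
  set a : ZZ d → ℝ := fun y => (fmA μ E ε y).toReal with ha
  set S : ℝ := (1 / ε) ^ (1 / 2 : ℝ) with hS
  have hS0 : 0 ≤ S := by positivity
  have hfin : ∀ y : ZZ d, fmA μ E ε y ≠ ∞ := fun y =>
    ne_top_of_le_ne_top ENNReal.ofReal_ne_top (fm12_le μ E hε y)
  have ha0 : ∀ y, 0 ≤ a y := fun y => ENNReal.toReal_nonneg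
  have haS : ∀ y, a y ≤ S := fun y => ENNReal.toReal_le_of_le_ofReal hS0 (fm12_le μ E hε y)
  have hof : ∀ y, fmA μ E ε y = ENNReal.ofReal (a y) := fun y =>
    (ENNReal.ofReal_toReal (hfin y)).symm
  have hreal : ∀ y : ZZ d, 8 * d * a y
      ≤ ∑ i, (a (y + ee d i) + a (y - ee d i)) + (if y = 0 then 1 else 0) := by
    intro y
    have h1 := hkey y
    have h2 : ∑ i, (fmA μ E ε (y + ee d i) + fmA μ E ε (y - ee d i))
        + (if y = 0 then (1 : ℝ≥0∞) else 0)
        = ENNReal.ofReal (∑ i, (a (y + ee d i) + a (y - ee d i)) + (if y = 0 then 1 else 0)) := by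
      rw [ENNReal.ofReal_add (Finset.sum_nonneg fun i _ => add_nonneg (ha0 _) (ha0 _))
        (by split_ifs <;> norm_num),
        ENNReal.ofReal_sum_of_nonneg fun i _ => add_nonneg (ha0 _) (ha0 _)]
      congr 1
      · refine Finset.sum_congr rfl fun i _ => ?_
        rw [ENNReal.ofReal_add (ha0 _) (ha0 _), hof, hof]
      · split_ifs <;> simp
    rw [h2, hof, ← ENNReal.ofReal_mul (by positivity)] at h1
    refine (ENNReal.ofReal_le_ofReal_iff ?_).mp h1
    exact add_nonneg (Finset.sum_nonneg fun i _ => add_nonneg (ha0 _) (ha0 _))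
      (by split_ifs <;> norm_num)
  -- uniform bound: iterate the contraction
  have hsup : ∀ n : ℕ, ∀ y : ZZ d, a y ≤ S * (1 / 4) ^ n + 1 / 6 := by
    intro n
    induction n with
    | zero => intro y; have := haS y; simp; linarith
    | succ n ih =>
      intro y
      have h1 := hreal y
      have h2 : ∑ i : Fin d, (a (y + ee d i) + a (y - ee d i))
          ≤ ∑ i : Fin d, 2 * (S * (1 / 4) ^ n + 1 / 6) :=
        Finset.sum_le_sum fun i _ => by linarith [ih (y + ee d i), ih (y - ee d i)]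
      rw [Finset.sum_const, Finset.card_univ, Fintype.card_fin, nsmul_eq_mul] at h2
      have h3 : (if y = 0 then (1 : ℝ) else 0) ≤ 1 := by split_ifs <;> norm_num
      have h4 : 8 * d * a y ≤ 8 * d * (S * (1 / 4) ^ (n + 1) + 1 / 6) := by
        have h5 : (1 : ℝ) ≤ d * 1 := by linarith
        rw [pow_succ]
        nlinarith
      exact le_of_mul_le_mul_left h4 (by positivity)
  have hone : ∀ y : ZZ d, a y ≤ 1 := by
    intro y
    have h1 : Tendsto (fun n : ℕ => S * (1 / 4 : ℝ) ^ n + 1 / 6) atTop (𝓝 (S * 0 + 1 / 6)) :=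
      ((tendsto_pow_atTop_nhds_zero_of_lt_one (by norm_num) (by norm_num)).const_mul S).add_const _
    have h2 := ge_of_tendsto h1 (Eventually.of_forall fun n => hsup n y)
    linarith
  -- decay
  have hdecay : ∀ m : ℕ, ∀ y : ZZ d, m ≤ n1 y → a y ≤ (1 / 4) ^ m := by
    intro m
    induction m with
    | zero => intro y _; simpa using hone y
    | succ m ih =>
      intro y hy
      have hy0 : y ≠ 0 := by
        rintro rfl
        rw [n1_zero] at hy
        omega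
      have h1 := hreal y
      rw [if_neg hy0, add_zero] at h1
      have h2 : ∑ i : Fin d, (a (y + ee d i) + a (y - ee d i))
          ≤ ∑ i : Fin d, 2 * ((1 / 4 : ℝ) ^ m) :=
        Finset.sum_le_sum fun i _ => by
          linarith [ih (y + ee d i) (fm12_n1_add y i m hy), ih (y - ee d i) (fm12_n1_sub y i m hy)]
      rw [Finset.sum_const, Finset.card_univ, Fintype.card_fin, nsmul_eq_mul] at h2
      have h4 : 8 * d * a y ≤ 8 * d * ((1 / 4) ^ (m + 1)) := by
        rw [pow_succ]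
        nlinarith
      exact le_of_mul_le_mul_left h4 (by positivity)
  change fmA μ E ε x ≤ _
  rw [hof, one_mul]
  exact ENNReal.ofReal_le_ofReal (hdecay _ x le_rfl)

end Pool.SU
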