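import Mathlib
import Pool.Agent.SU.FDefs
import Pool.Agent.SU.Bulk

/-!
# Laws with full support: bounded energies (module F10)
-/

set_option autoImplicit false
set_option linter.unusedSectionVars false
set_option linter.unusedSimpArgs false
set_option linter.unusedVariables false

open Complex MeasureTheory Filter Topology Set ContinuousLinearMap
open scoped InnerProductSpace ENNReal NNReal

namespace Pool.SU

open Pool.NB Pool.SB

variable {d : ℕ}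

/-- the part where all entries of the Green function in the box are bounded -/
lemma ff_remez {μ : Measure ℝ} [IsProbabilityMeasure μ]
    (X : ZZ d →+ ℝ) (E ε : ℝ) (hε : 0 < ε) (Λ Λ' : Finset (ZZ d)) (K θ G KR : ℝ)
    (hR : ∀ W : ZZ d → ℝ, (∀ x ∈ Λ', ∀ y ∈ Λ', ‖GF E ε W x y‖ ≤ G) →
      ∀ B : Set (ZZ d → ℝ), MeasurableSet B → ENNReal.ofReal θ ≤ (PP (ZZ d) μ) B →
        pv X E ε W 0 ≤ ENNReal.ofReal KR * ∫⁻ W' in B, pv X E ε (spl Λ W' W) 0 ∂(PP (ZZ d) μ))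
    (hG : ∀ W : ZZ d → ℝ, ENNReal.ofReal θ ≤
        (PP (ZZ d) μ) {W' | wv E ε (spl Λ W' W) 0 ∈ Gd (-K) K K}) :
    ∫⁻ W in {W | ∀ x ∈ Λ', ∀ y ∈ Λ', ‖GF E ε W x y‖ ≤ G}, pv X E ε W 0
        ∂(PP (ZZ d) μ)
      ≤ ENNReal.ofReal KR * ∫⁻ W in {W | wv E ε W 0 ∈ Gd (-K) K K},
          ENNReal.ofReal (‖TT (ee d) X E ε W (dl 0)‖ ^ 2) ∂(PP (ZZ d) μ) := by
  have hGd : MeasurableSet {W : ZZ d → ℝ | wv E ε W 0 ∈ Gd (-K) K K} :=
    (wv_meas E hε 0) (Gd_meas (-K) K K)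
  set F : (ZZ d → ℝ) → ℝ≥0∞ :=
    {W : ZZ d → ℝ | wv E ε W 0 ∈ Gd (-K) K K}.indicator (fun W => pv X E ε W 0) with hF
  have hFm : Measurable F := (pv_meas X E hε 0).indicator hGd
  have hset : MeasurableSet {W : ZZ d → ℝ | ∀ x ∈ Λ', ∀ y ∈ Λ', ‖GF E ε W x y‖ ≤ G} := by
    have h1 : {W : ZZ d → ℝ | ∀ x ∈ Λ', ∀ y ∈ Λ', ‖GF E ε W x y‖ ≤ G}
        = ⋂ x ∈ Λ', ⋂ y ∈ Λ', {W : ZZ d → ℝ | ‖GF E ε W x y‖ ≤ G} := by
      ext W; simp only [mem_ofPred_eq, mem_iInter]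
    rw [h1]
    refine Finset.measurableSet_biInter _ fun x _ => Finset.measurableSet_biInter _ fun y _ => ?_
    exact measurableSet_le (GF_meas E hε x y).norm measurable_const
  calc ∫⁻ W in {W | ∀ x ∈ Λ', ∀ y ∈ Λ', ‖GF E ε W x y‖ ≤ G}, pv X E ε W 0
        ∂(PP (ZZ d) μ)
      ≤ ∫⁻ W in {W | ∀ x ∈ Λ', ∀ y ∈ Λ', ‖GF E ε W x y‖ ≤ G},
          ENNReal.ofReal KR * ∫⁻ W', F (spl Λ W' W) ∂(PP (ZZ d) μ) ∂(PP (ZZ d) μ) := by
        refine setLIntegral_mono' hset fun W hW => ?_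
        have hB : MeasurableSet {W' : ZZ d → ℝ | wv E ε (spl Λ W' W) 0 ∈ Gd (-K) K K} :=
          (bulk_spl_meas Λ W) hGd
        refine (hR W hW _ hB (hG W)).trans (le_of_eq ?_)
        congr 1
        rw [← lintegral_indicator hB]
        rfl
    _ ≤ ∫⁻ W, ENNReal.ofReal KR * ∫⁻ W', F (spl Λ W' W) ∂(PP (ZZ d) μ) ∂(PP (ZZ d) μ) :=
        setLIntegral_le_lintegral _ _
    _ = ENNReal.ofReal KR * ∫⁻ W, ∫⁻ W', F (spl Λ W' W) ∂(PP (ZZ d) μ) ∂(PP (ZZ d) μ) :=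
        lintegral_const_mul' _ _ ENNReal.ofReal_ne_top
    _ = ENNReal.ofReal KR * ∫⁻ W, F W ∂(PP (ZZ d) μ) := by rw [lint_spl μ Λ hFm]
    _ = ENNReal.ofReal KR * ∫⁻ W in {W | wv E ε W 0 ∈ Gd (-K) K K},
          ENNReal.ofReal (‖TT (ee d) X E ε W (dl 0)‖ ^ 2) ∂(PP (ZZ d) μ) := by
        congr 1
        rw [hF, lintegral_indicator hGd]
        refine lintegral_congr fun W => ?_
        unfold pv
        rw [VV_zero_norm X hε W]

/-- the equation bounds the product with the potential -/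
lemma ff_eqn {E ε E1 B1 : ℝ} (hE : |E| ≤ E1) (hε : 0 < ε) (hε1 : ε ≤ 1) (hB1 : 1 ≤ B1)
    (W : ZZ d → ℝ) (h : ∀ x ∈ ball d 3, ‖GF E ε W 0 x‖ ≤ B1) :
    ∀ x ∈ ball d 2, |W x| * ‖GF E ε W 0 x‖ ≤ (4 * d + E1 + 2) * B1 := by
  intro x hx
  have hx2 : n1 x ≤ 2 := mem_ball.mp hx
  have h1 := GF_eqn (E := E) hε W x 0
  have hsymm : ∀ y, ‖GF E ε W y 0‖ = ‖GF E ε W 0 y‖ := fun y => by rw [GF_symm hε W y 0]
  have hn : ∀ i, ‖GF E ε W (x + ee d i) 0‖ ≤ B1 := by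
    intro i
    rw [hsymm]
    refine h _ (mem_ball.mpr ((n1_add _ _).trans ?_))
    rw [n1_ee]; omega
  have hn' : ∀ i, ‖GF E ε W (x - ee d i) 0‖ ≤ B1 := by
    intro i
    rw [hsymm]
    refine h _ (mem_ball.mpr ?_)
    rw [sub_eq_add_neg]
    refine (n1_add _ _).trans ?_
    rw [n1_neg, n1_ee]; omega
  have h0 : ‖GF E ε W x 0‖ ≤ B1 := by
    rw [hsymm]
    exact h x (mem_ball.mpr (by omega))
  have h2 : (W x : ℂ) * GF E ε W x 0 = (if x = 0 then (1 : ℂ) else 0)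
      + ∑ i, (GF E ε W (x + ee d i) 0 + GF E ε W (x - ee d i) 0)
      - ((2 * d : ℂ) - zp E ε) * GF E ε W x 0 := by
    rw [← h1]; ring
  have hz : ‖(2 * d : ℂ) - zp E ε‖ ≤ 2 * d + E1 + 1 := by
    have e1 : (2 * d : ℂ) - zp E ε = ((2 * d - E : ℝ) : ℂ) - (ε : ℂ) * I := by
      unfold zp
      push_cast
      ring
    rw [e1]
    refine (norm_sub_le _ _).trans ?_
    rw [norm_mul, Complex.norm_I, mul_one, Complex.norm_real, Complex.norm_real]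
    have e2 : ‖(2 * d - E : ℝ)‖ ≤ 2 * d + E1 := by
      rw [Real.norm_eq_abs]
      have := abs_le.mp hE
      rw [abs_le]
      have hd0 : (0 : ℝ) ≤ d := Nat.cast_nonneg d
      constructor <;> linarith
    have e3 : ‖ε‖ ≤ 1 := by rw [Real.norm_eq_abs, abs_of_pos hε]; exact hε1
    linarith
  have h3 : ‖(W x : ℂ) * GF E ε W x 0‖ ≤ 1 + 2 * d * B1 + (2 * d + E1 + 1) * B1 := by
    rw [h2]
    refine (norm_sub_le _ _).trans (add_le_add ((norm_add_le _ _).trans (add_le_add ?_ ?_)) ?_)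
    · split_ifs <;> simp
    · refine (norm_sum_le _ _).trans ?_
      have : ∀ i ∈ (Finset.univ : Finset (Fin d)),
          ‖GF E ε W (x + ee d i) 0 + GF E ε W (x - ee d i) 0‖ ≤ 2 * B1 := by
        intro i _
        refine (norm_add_le _ _).trans ?_
        linarith [hn i, hn' i]
      refine (Finset.sum_le_sum this).trans (le_of_eq ?_)
      rw [Finset.sum_const, Finset.card_univ, Fintype.card_fin, nsmul_eq_mul]
      ring
    · rw [norm_mul]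
      have hE1 : 0 ≤ E1 := (abs_nonneg E).trans hE
      exact mul_le_mul hz h0 (norm_nonneg _) (by positivity)
  rw [norm_mul, Complex.norm_real, Real.norm_eq_abs, hsymm] at h3
  refine h3.trans ?_
  nlinarith

theorem fixedF_of : StmtP1F → StmtP2F → StmtGoodF → StmtRemezF → StmtDiagF → StmtOffF →
    StmtFixedF := by
  intro hP1 hP2 hGood hRemez hDiag hOff μ _ C hμ d hd X E1 hE10
  obtain ⟨K, hK1, hgood⟩ := hGood μ C hμ d hd E1 hE10
  obtain ⟨KP, hKP, hP1'⟩ := hP1 μ C hμ d X K (by linarith)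
  obtain ⟨g, hg1, K2, hK2, hP2'⟩ := hP2 μ C hμ d hd X E1 (1 / 2) (1 / 8)
    hE10 (by norm_num) (by norm_num) (by norm_num)
  set Λ : Finset (ZZ d) := ball d 2 with hΛ
  -- constants
  set B1 : ℝ := g * 4 ^ 3 with hB1
  have hB11 : 1 ≤ B1 := by
    rw [hB1]; linarith
  set B : ℝ := (4 * d + E1 + 2) * B1 with hB
  have hBB : B1 ≤ B := by
    rw [hB]
    have : (0 : ℝ) ≤ 4 * d + E1 + 1 := by positivity
    nlinarith
  have hB1' : 1 ≤ B := hB11.trans hBB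
  obtain ⟨KD, hKD, hDiag'⟩ := hDiag μ C hμ d B hB1'
  obtain ⟨KO, hKO, hOff'⟩ := hOff μ C hμ d B hB1'
  set N : ℝ := (Λ.card : ℝ) with hN
  have hN1 : 1 ≤ N := by
    have : 0 < Λ.card := Finset.card_pos.mpr ⟨0, zero_mem_ball 2⟩
    rw [hN]; exact_mod_cast this
  have hN0 : 0 < N := by linarith
  set gd : ℝ := 24 * N * KD with hgd
  have hgd0 : 0 < gd := by positivity
  set go : ℝ := 2 * gd + 40 * N ^ 2 * KO * gd + 1 with hgo
  have hgo1 : 1 ≤ go := by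
    have : 0 ≤ 2 * gd + 40 * N ^ 2 * KO * gd := by positivity
    linarith
  have hgo0 : 0 < go := by linarith
  have hgo2 : 2 * gd ≤ go := by
    have : 0 ≤ 40 * N ^ 2 * KO * gd := by positivity
    linarith
  obtain ⟨KR, hKR, hRemez'⟩ := hRemez μ C hμ d E1 go (1 / 2) hE10 hgo0 (by norm_num)
  set D : ℝ := ∑ x ∈ Λ, 2 * (X x) ^ 2 with hD
  have hD0 : 0 ≤ D := Finset.sum_nonneg fun x _ => by positivity
  have hDx : ∀ x ∈ Λ, 2 * (X x) ^ 2 ≤ D := fun x hx =>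
    Finset.single_le_sum (f := fun x => 2 * (X x) ^ 2) (fun y _ => by positivity) hx
  refine ⟨2 * (K2 + 2 * D + KR * KP + 1), by positivity, fun E ε hE1 hε hε1 => ?_⟩
  have hpx : ∀ x ∈ Λ, ∫⁻ W, pv X E ε W x ∂(PP (ZZ d) μ)
      ≤ 2 * MM μ X E ε + ENNReal.ofReal D * QQ μ d E ε := fun x hx =>
    (pv_int_le μ X E hε x).trans (add_le_add le_rfl
      (mul_le_mul' (ENNReal.ofReal_le_ofReal (hDx x hx)) le_rfl))
  refine bulk_absorb (MM_ne_top μ X E hε) K2 D (KR * KP) hK2 hD0 (by positivity) ?_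
  -- the sets
  set Dset : ZZ d → Set (ZZ d → ℝ) := fun x =>
    {W | ‖GF E ε W 0 x‖ ≤ B ∧ |W x| * ‖GF E ε W 0 x‖ ≤ B ∧ gd ≤ ‖GF E ε W x x‖} with hDset
  set Oset : ZZ d × ZZ d → Set (ZZ d → ℝ) := fun p =>
    {W | ‖GF E ε W 0 p.1‖ ≤ B ∧ |W p.1| * ‖GF E ε W 0 p.1‖ ≤ B ∧ ‖GF E ε W 0 p.2‖ ≤ B ∧
        |W p.2| * ‖GF E ε W 0 p.2‖ ≤ B ∧ ‖GF E ε W p.1 p.1‖ ≤ gd ∧
        ‖GF E ε W p.2 p.2‖ ≤ gd ∧ go ≤ ‖GF E ε W p.1 p.2‖} with hOset
  set Gset : Set (ZZ d → ℝ) :=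
    {W | ∀ x ∈ Λ, ∀ y ∈ Λ, ‖GF E ε W x y‖ ≤ go} with hGset
  have hrow : ∀ W : ZZ d → ℝ, W ∉ resEv E ε (1 / 2) g → ∀ x ∈ ball d 3, ‖GF E ε W 0 x‖ ≤ B1 := by
    intro W hW x hx
    have h1 : ‖GF E ε W 0 x‖ * (1 / 2 : ℝ) ^ (2 * n1 x) < g := by
      by_contra hcon
      exact hW ⟨x, not_lt.mp hcon⟩
    have h2 : (1 / 2 : ℝ) ^ (2 * n1 x) * 4 ^ (n1 x) = 1 := by
      rw [pow_mul, ← mul_pow]; norm_num
    have h3 : (4 : ℝ) ^ (n1 x) ≤ 4 ^ 3 := pow_le_pow_right₀ (by norm_num) (mem_ball.mp hx)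
    have h4 : (0 : ℝ) < 4 ^ (n1 x) := by positivity
    calc ‖GF E ε W 0 x‖ = ‖GF E ε W 0 x‖ * (1 / 2 : ℝ) ^ (2 * n1 x) * 4 ^ (n1 x) := by
          rw [mul_assoc, h2, mul_one]
      _ ≤ g * 4 ^ (n1 x) := mul_le_mul_of_nonneg_right h1.le h4.le
      _ ≤ g * 4 ^ 3 := mul_le_mul_of_nonneg_left h3 (by linarith)
  have hcover : ∀ W : ZZ d → ℝ, W ∈ resEv E ε (1 / 2) g ∪
      (((⋃ x ∈ Λ, Dset x) ∪ (⋃ p ∈ Λ.offDiag, Oset p)) ∪ Gset) := by
    intro W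
    by_cases h1 : W ∈ resEv E ε (1 / 2) g
    · exact Or.inl h1
    right
    have hr0 := hrow W h1
    have hr : ∀ x ∈ Λ, ‖GF E ε W 0 x‖ ≤ B := fun x hx =>
      (hr0 x (ball_mono (by norm_num) hx)).trans hBB
    have hr2 : ∀ x ∈ Λ, |W x| * ‖GF E ε W 0 x‖ ≤ B := fun x hx =>
      ff_eqn hE1 hε hε1 hB11 W hr0 x hx
    by_cases h2 : ∃ x ∈ Λ, gd ≤ ‖GF E ε W x x‖
    · obtain ⟨x, hx, hxx⟩ := h2
      exact Or.inl (Or.inl (mem_biUnion hx ⟨hr x hx, hr2 x hx, hxx⟩))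
    push Not at h2
    by_cases h3 : ∃ p ∈ Λ.offDiag, go ≤ ‖GF E ε W p.1 p.2‖
    · obtain ⟨p, hp, hpp⟩ := h3
      rw [Finset.mem_offDiag] at hp
      refine Or.inl (Or.inr (mem_biUnion (Finset.mem_offDiag.mpr hp) ?_))
      exact ⟨hr _ hp.1, hr2 _ hp.1, hr _ hp.2.1, hr2 _ hp.2.1, (h2 _ hp.1).le, (h2 _ hp.2.1).le,
        hpp⟩
    push Not at h3
    right
    intro x hx y hy
    by_cases hxy : x = y
    · subst hxy
      linarith [(h2 x hx).le]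
    · exact (h3 (x, y) (Finset.mem_offDiag.mpr ⟨hx, hy, hxy⟩)).le
  -- the cover
  have hstep : MM μ X E ε ≤ ∫⁻ W in resEv E ε (1 / 2) g, pv X E ε W 0 ∂(PP (ZZ d) μ)
      + ((∫⁻ W in ⋃ x ∈ Λ, Dset x, pv X E ε W 0 ∂(PP (ZZ d) μ)
        + ∫⁻ W in ⋃ p ∈ Λ.offDiag, Oset p, pv X E ε W 0 ∂(PP (ZZ d) μ))
        + ∫⁻ W in Gset, pv X E ε W 0 ∂(PP (ZZ d) μ)) := by
    rw [← pv_int_zero μ X E hε]
    have h1 : ∫⁻ W, pv X E ε W 0 ∂(PP (ZZ d) μ) ≤ ∫⁻ W in resEv E ε (1 / 2) g ∪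
      (((⋃ x ∈ Λ, Dset x) ∪ (⋃ p ∈ Λ.offDiag, Oset p)) ∪ Gset), pv X E ε W 0
        ∂(PP (ZZ d) μ) := by
      have h2 : (resEv E ε (1 / 2) g ∪
          (((⋃ x ∈ Λ, Dset x) ∪ (⋃ p ∈ Λ.offDiag, Oset p)) ∪ Gset) : Set (ZZ d → ℝ))
          = (univ : Set (ZZ d → ℝ)) := eq_univ_of_forall hcover
      rw [h2, setLIntegral_univ]
    refine h1.trans ((lintegral_union_le _ _ _).trans (add_le_add le_rfl ?_))
    refine (lintegral_union_le _ _ _).trans (add_le_add ?_ le_rfl)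
    exact lintegral_union_le _ _ _
  refine hstep.trans (add_le_add (hP2' E ε hE1 hε hε1) (add_le_add (add_le_add ?_ ?_) ?_))
  · -- diagonal
    refine (bulk_biUnion_le _ _ _ _).trans ?_
    have h1 : ∀ x ∈ Λ, ∫⁻ W in Dset x, pv X E ε W 0 ∂(PP (ZZ d) μ)
        ≤ ENNReal.ofReal (1 / (24 * N)) * (3 * MM μ X E ε + ENNReal.ofReal D * QQ μ d E ε) := by
      intro x hx
      refine (hDiag' X gd E ε hgd0 hε x).trans ?_
      have e1 : KD / gd = 1 / (24 * N) := by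
        rw [hgd]; field_simp
      rw [e1, pv_int_zero μ X E hε]
      refine mul_le_mul' le_rfl ((add_le_add le_rfl (hpx x hx)).trans (le_of_eq ?_))
      rw [← add_assoc]
      congr 1
      have : (3 : ℝ≥0∞) = 1 + 2 := by norm_num
      rw [this, add_mul, one_mul]
    refine (Finset.sum_le_sum h1).trans ?_
    rw [Finset.sum_const, nsmul_eq_mul, ← mul_assoc]
    have e2 : (Λ.card : ℝ≥0∞) * ENNReal.ofReal (1 / (24 * N)) = ENNReal.ofReal (1 / 24) := by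
      rw [← ENNReal.ofReal_natCast, ← ENNReal.ofReal_mul (by positivity)]
      congr 1
      rw [← hN]; field_simp
    rw [e2, mul_add]
    refine add_le_add (le_of_eq ?_) ?_
    · rw [← mul_assoc]
      congr 1
      have : (3 : ℝ≥0∞) = ENNReal.ofReal 3 := by norm_num
      rw [this, ← ENNReal.ofReal_mul (by norm_num)]
      congr 1; norm_num
    · rw [← mul_assoc]
      refine mul_le_mul' ?_ le_rfl
      rw [← ENNReal.ofReal_mul (by norm_num)]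
      exact ENNReal.ofReal_le_ofReal (by linarith)
  · -- off diagonal
    refine (bulk_biUnion_le _ _ _ _).trans ?_
    have h1 : ∀ p ∈ Λ.offDiag, ∫⁻ W in Oset p, pv X E ε W 0 ∂(PP (ZZ d) μ)
        ≤ ENNReal.ofReal (1 / (40 * N ^ 2)) *
          (5 * MM μ X E ε + ENNReal.ofReal (2 * D) * QQ μ d E ε) := by
      intro p hp
      rw [Finset.mem_offDiag] at hp
      refine (hOff' X gd go E ε hgd0 hgo2 hε p.1 p.2 hp.2.2).trans ?_
      have e1 : KO * gd / go ^ 2 ≤ 1 / (40 * N ^ 2) := by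
        rw [div_le_div_iff₀ (by positivity) (by positivity)]
        have h2 : go ≤ go ^ 2 := by nlinarith
        have h3 : 40 * N ^ 2 * KO * gd ≤ go := by linarith
        nlinarith
      rw [pv_int_zero μ X E hε]
      refine mul_le_mul' (ENNReal.ofReal_le_ofReal e1)
        ((add_le_add (add_le_add le_rfl (hpx _ hp.1)) (hpx _ hp.2.1)).trans (le_of_eq ?_))
      have h5 : (5 : ℝ≥0∞) = 1 + 2 + 2 := by norm_num
      rw [h5, two_mul D, ENNReal.ofReal_add hD0 hD0]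
      ring
    refine (Finset.sum_le_sum h1).trans ?_
    rw [Finset.sum_const, nsmul_eq_mul, ← mul_assoc]
    have e2 : (Λ.offDiag.card : ℝ≥0∞) * ENNReal.ofReal (1 / (40 * N ^ 2))
        ≤ ENNReal.ofReal (1 / 40) := by
      have h2 : ((Λ.offDiag.card : ℕ) : ℝ) ≤ N ^ 2 := by
        rw [Finset.offDiag_card, hN, sq]
        have : Λ.card * Λ.card - Λ.card ≤ Λ.card * Λ.card := Nat.sub_le _ _
        exact_mod_cast this
      rw [← ENNReal.ofReal_natCast, ← ENNReal.ofReal_mul (by positivity)]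
      refine ENNReal.ofReal_le_ofReal ?_
      rw [mul_one_div, div_le_div_iff₀ (by positivity) (by norm_num)]
      linarith
    refine (mul_le_mul' e2 le_rfl).trans ?_
    rw [mul_add]
    refine add_le_add (le_of_eq ?_) ?_
    · rw [← mul_assoc]
      congr 1
      have : (5 : ℝ≥0∞) = ENNReal.ofReal 5 := by norm_num
      rw [this, ← ENNReal.ofReal_mul (by norm_num)]
      congr 1; norm_num
    · rw [← mul_assoc]
      refine mul_le_mul' ?_ le_rfl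
      rw [← ENNReal.ofReal_mul (by norm_num)]
      exact ENNReal.ofReal_le_ofReal (by linarith)
  · -- the Remez part
    refine (ff_remez X E ε hε (ball d 1) Λ K (1 / 2) go KR
      (fun W h => hRemez' X E ε hE1 hε hε1 W h) (fun W => hgood E ε hE1 hε hε1 W)).trans ?_
    rw [ENNReal.ofReal_mul hKR.le, mul_assoc]
    exact mul_le_mul' le_rfl (hP1' E ε hε hε1)

end Pool.SU
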