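import Mathlib
import Pool.Agent.SU.Base
import Pool.Agent.SU.FDefs
import Pool.Agent.SU.FB

/-!
# F7: the resonance position is bounded with positive conditional probability
-/

set_option autoImplicit false
set_option linter.unusedSectionVars false
set_option linter.unusedSimpArgs false

open Complex MeasureTheory Filter Topology Set ContinuousLinearMap
open scoped InnerProductSpace ENNReal NNReal

namespace Pool.SU

open Pool.NB Pool.SB

variable {d : ℕ}

/-- `spl` commutes with updates inside the set -/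
lemma goodF_spl_upd (Λ : Finset (ZZ d)) (W' W : ZZ d → ℝ) {x : ZZ d} (hx : x ∈ Λ) (β : ℝ) :
    spl Λ (Function.update W' x β) W = Function.update (spl Λ W' W) x β := by
  funext y
  unfold spl
  by_cases hy : y = x
  · subst hy
    rw [if_pos hx, Function.update_self, Function.update_self]
  · rw [Function.update_of_ne hy, Function.update_of_ne hy]

lemma goodF_spl_meas (Λ : Finset (ZZ d)) (W : ZZ d → ℝ) :
    Measurable (fun W' : ZZ d → ℝ => spl Λ W' W) := by
  rw [measurable_pi_iff]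
  intro x
  unfold spl
  split_ifs
  · exact measurable_pi_apply x
  · exact measurable_const

/-- one conditional window estimate -/
lemma goodF_cond {μ : Measure ℝ} [IsProbabilityMeasure μ] {C : ℝ} (hμ : Full μ C) (x : ZZ d)
    (F : (ZZ d → ℝ) → ℂ) (hF : ∀ W β, F (Function.update W x β) = F W)
    (B : Set (ZZ d → ℝ)) (hB : MeasurableSet B) (r : ℝ)
    (hBF : ∀ W ∈ B, ‖(W x : ℂ) - F W‖ ≤ r) :
    (PP (ZZ d) μ) B ≤ ENNReal.ofReal (2 * C * r) := by
  have hmeas : Measurable (B.indicator (1 : (ZZ d → ℝ) → ℝ≥0∞)) := measurable_one.indicator hB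
  rw [← lintegral_indicator_one hB, ← lint_upd μ x hmeas]
  have h3 : ∀ W : ZZ d → ℝ, ∫⁻ β, B.indicator 1 (Function.update W x β) ∂μ
      ≤ ENNReal.ofReal (2 * C * r) := by
    intro W
    refine le_trans ?_ (hμ.win (F W) r)
    have hwm : MeasurableSet {β : ℝ | ‖(β : ℂ) - F W‖ ≤ r} :=
      (isClosed_le (by fun_prop) continuous_const).measurableSet
    rw [← lintegral_indicator_one hwm]
    refine lintegral_mono fun β => ?_
    by_cases hβ : Function.update W x β ∈ B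
    · rw [Set.indicator_of_mem hβ]
      have := hBF _ hβ
      rw [hF, Function.update_self] at this
      have hmem : β ∈ {β : ℝ | ‖(β : ℂ) - F W‖ ≤ r} := this
      rw [Set.indicator_of_mem hmem]
      rfl
    · rw [Set.indicator_of_notMem hβ]
      exact zero_le
  refine (lintegral_mono h3).trans ?_
  rw [lintegral_const, measure_univ, mul_one]

/-- an event which does not depend on the value at `x` is independent of this value -/
lemma goodF_indep (μ : Measure ℝ) [IsProbabilityMeasure μ] (x : ZZ d)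
    (A : Set (ZZ d → ℝ)) (hA : MeasurableSet A)
    (hAx : ∀ W β, Function.update W x β ∈ A ↔ W ∈ A) (s : Set ℝ) (hs : MeasurableSet s) :
    (PP (ZZ d) μ) (A ∩ {W | W x ∈ s}) = (PP (ZZ d) μ) A * μ s := by
  have hm : MeasurableSet (A ∩ {W : ZZ d → ℝ | W x ∈ s}) := hA.inter (measurable_pi_apply x hs)
  rw [← lintegral_indicator_one hm, ← lint_upd μ x (measurable_one.indicator hm)]
  have h3 : ∀ W : ZZ d → ℝ,
      ∫⁻ β, (A ∩ {W : ZZ d → ℝ | W x ∈ s}).indicator 1 (Function.update W x β) ∂μ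
      = A.indicator (fun _ => μ s) W := by
    intro W
    by_cases hW : W ∈ A
    · rw [Set.indicator_of_mem hW, ← lintegral_indicator_one hs]
      refine lintegral_congr fun β => ?_
      by_cases hβ : β ∈ s
      · rw [Set.indicator_of_mem hβ, Set.indicator_of_mem]
        · rfl
        · refine ⟨(hAx W β).2 hW, ?_⟩
          show Function.update W x β x ∈ s
          rw [Function.update_self]
          exact hβ
      · rw [Set.indicator_of_notMem hβ, Set.indicator_of_notMem]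
        rintro ⟨-, h⟩
        apply hβ
        have h' : Function.update W x β x ∈ s := h
        rwa [Function.update_self] at h'
    · rw [Set.indicator_of_notMem hW]
      have : ∀ β, (A ∩ {W : ZZ d → ℝ | W x ∈ s}).indicator (1 : (ZZ d → ℝ) → ℝ≥0∞)
          (Function.update W x β) = 0 := by
        intro β
        apply Set.indicator_of_notMem
        rintro ⟨h, -⟩
        exact hW ((hAx W β).1 h)
      simp_rw [this]
      simp
  simp_rw [h3]
  rw [lintegral_indicator hA, lintegral_const, Measure.restrict_apply_univ, mul_comm]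

/-- the neighbours of the origin -/
def goodF_nb (d : ℕ) (p : Fin d × Bool) : ZZ d := if p.2 then ee d p.1 else -ee d p.1

lemma goodF_nb_mem (p : Fin d × Bool) : goodF_nb d p ∈ ball d 1 := by
  rw [mem_ball]
  unfold goodF_nb
  split_ifs
  · rw [n1_ee]
  · rw [n1_neg, n1_ee]

lemma goodF_nb_ne (p : Fin d × Bool) : goodF_nb d p ≠ 0 := by
  intro h
  have h1 : n1 (goodF_nb d p) = 1 := by
    unfold goodF_nb
    split_ifs
    · rw [n1_ee]
    · rw [n1_neg, n1_ee]
  rw [h, n1_zero] at h1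
  exact absurd h1 (by norm_num)

/-- some neighbour carries a Green function bounded below -/
lemma goodF_exists {E1 E ε s : ℝ} (hd : 0 < d) (hE : |E| ≤ E1) (hε : 0 < ε) (hε1 : ε ≤ 1)
    (W : ZZ d → ℝ) (hW : |W 0| ≤ 1) (hs : ‖GF E ε W 0 0‖ ≤ s)
    (hs2 : (2 * d + E1 + 2) * s ≤ 1 / 2) :
    ∃ p : Fin d × Bool, 1 / (4 * (d : ℝ)) ≤ ‖GF E ε W (goodF_nb d p) 0‖ := by
  by_contra hcon
  push Not at hcon
  have hdR : (0 : ℝ) < d := by exact_mod_cast hd
  have e := GF_eqn (E := E) hε W 0 0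
  rw [if_pos rfl] at e
  have h1 : ‖∑ i, (GF E ε W (0 + ee d i) 0 + GF E ε W (0 - ee d i) 0)‖ < 1 / 2 := by
    have h2 : ∀ i ∈ (Finset.univ : Finset (Fin d)),
        ‖GF E ε W (0 + ee d i) 0 + GF E ε W (0 - ee d i) 0‖ < 1 / (2 * (d : ℝ)) := by
      intro i _
      have a1 := hcon (i, true)
      have a2 := hcon (i, false)
      simp only [goodF_nb, if_true, Bool.false_eq_true, if_false] at a1 a2
      rw [zero_add, zero_sub]
      refine lt_of_le_of_lt (norm_add_le _ _) ?_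
      have : 1 / (2 * (d : ℝ)) = 1 / (4 * (d : ℝ)) + 1 / (4 * (d : ℝ)) := by
        field_simp
        norm_num
      rw [this]
      exact add_lt_add a1 a2
    refine lt_of_le_of_lt (norm_sum_le _ _) ?_
    have hne : (Finset.univ : Finset (Fin d)).Nonempty := ⟨⟨0, hd⟩, Finset.mem_univ _⟩
    refine lt_of_lt_of_le (Finset.sum_lt_sum_of_nonempty hne h2) ?_
    rw [Finset.sum_const, Finset.card_univ, Fintype.card_fin, nsmul_eq_mul]
    apply le_of_eq
    field_simp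
  have h3 : ‖((W 0 : ℂ) + 2 * d - zp E ε)‖ ≤ 2 * d + E1 + 2 := by
    rw [zp_eq]
    refine (norm_sub_le _ _).trans ?_
    have b1 : ‖(W 0 : ℂ) + 2 * d‖ ≤ 1 + 2 * d := by
      refine (norm_add_le _ _).trans (add_le_add ?_ ?_)
      · rw [Complex.norm_real]; exact hW
      · rw [norm_mul, Complex.norm_natCast]
        norm_num
    have b2 : ‖(E : ℂ) + (ε : ℂ) * I‖ ≤ E1 + 1 := by
      refine (norm_add_le _ _).trans (add_le_add ?_ ?_)
      · rw [Complex.norm_real]; exact hE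
      · rw [norm_mul, Complex.norm_I, mul_one, Complex.norm_real, Real.norm_eq_abs, abs_of_pos hε]
        exact hε1
    linarith
  have h4 : ‖((W 0 : ℂ) + 2 * d - zp E ε) * GF E ε W 0 0‖ ≤ 1 / 2 := by
    rw [norm_mul]
    refine le_trans (mul_le_mul h3 hs (norm_nonneg _) ?_) hs2
    exact (norm_nonneg _).trans h3
  have h5 : (1 : ℝ) < 1 := by
    calc (1 : ℝ) = ‖(1 : ℂ)‖ := by rw [norm_one]
      _ = ‖((W 0 : ℂ) + 2 * d - zp E ε) * GF E ε W 0 0
        - ∑ i, (GF E ε W (0 + ee d i) 0 + GF E ε W (0 - ee d i) 0)‖ := by rw [e]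
      _ ≤ ‖((W 0 : ℂ) + 2 * d - zp E ε) * GF E ε W 0 0‖
        + ‖∑ i, (GF E ε W (0 + ee d i) 0 + GF E ε W (0 - ee d i) 0)‖ := norm_sub_le _ _
      _ < 1 / 2 + 1 / 2 := add_lt_add_of_le_of_lt h4 h1
      _ = 1 := by norm_num
  exact lt_irrefl _ h5

/-- deterministic part -/
lemma goodF_det {E1 E ε s t : ℝ} (hd : 0 < d) (hE : |E| ≤ E1) (hε : 0 < ε) (hε1 : ε ≤ 1)
    (W : ZZ d → ℝ) (hW : |W 0| ≤ 1) (hs : ‖GF E ε W 0 0‖ ≤ s)
    (hs2 : (2 * d + E1 + 2) * s ≤ 1 / 2) (hst : s * t ≤ 1 / (32 * (d : ℝ) ^ 2)) :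
    ∃ p : Fin d × Bool, t < ‖GF E ε W (goodF_nb d p) (goodF_nb d p)‖ ∨
      1 / (32 * (d : ℝ) ^ 2) ≤ ‖DT E ε W (goodF_nb d p) 0‖ := by
  have hdR : (0 : ℝ) < d := by exact_mod_cast hd
  obtain ⟨p, hp⟩ := goodF_exists hd hE hε hε1 W hW hs hs2
  refine ⟨p, ?_⟩
  by_cases h : t < ‖GF E ε W (goodF_nb d p) (goodF_nb d p)‖
  · exact Or.inl h
  right
  push Not at h
  unfold DT
  have e1 := norm_sub_norm_le (GF E ε W (goodF_nb d p) 0 ^ 2)
    (GF E ε W (goodF_nb d p) (goodF_nb d p) * GF E ε W 0 0)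
  rw [norm_sub_rev, norm_pow, norm_mul] at e1
  have e2 : ‖GF E ε W (goodF_nb d p) (goodF_nb d p)‖ * ‖GF E ε W 0 0‖ ≤ t * s :=
    mul_le_mul h hs (norm_nonneg _) ((norm_nonneg _).trans h)
  have e3 : (1 / (4 * (d : ℝ))) ^ 2 ≤ ‖GF E ε W (goodF_nb d p) 0‖ ^ 2 :=
    pow_le_pow_left₀ (by positivity) hp 2
  have e4 : (1 / (4 * (d : ℝ))) ^ 2 = 2 * (1 / (32 * (d : ℝ) ^ 2)) := by
    field_simp
    norm_num
  rw [e4] at e3
  linarith

/-- the two bad events of a neighbour -/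
lemma goodF_B1 {μ : Measure ℝ} [IsProbabilityMeasure μ] {C : ℝ} (hμ : Full μ C)
    {E ε : ℝ} (hε : 0 < ε) (W : ZZ d → ℝ) {y : ZZ d} (hy : y ∈ ball d 1) (t : ℝ) (ht : 0 < t) :
    (PP (ZZ d) μ) {W' | t < ‖GF E ε (spl (ball d 1) W' W) y y‖}
      ≤ ENNReal.ofReal (2 * C * (1 / t)) := by
  have hm : Measurable (fun W' : ZZ d → ℝ => ‖GF E ε (spl (ball d 1) W' W) y y‖) :=
    ((GF_meas E hε y y).comp (goodF_spl_meas (ball d 1) W)).norm
  refine goodF_cond hμ y (fun W' => wv E ε (spl (ball d 1) W' W) y) ?_ _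
    (measurableSet_lt measurable_const hm) _ ?_
  · intro W' β
    rw [goodF_spl_upd _ W' W hy, wv_upd hε]
  · intro W' hW'
    have h1 : t < ‖GF E ε (spl (ball d 1) W' W) y y‖ := hW'
    have h2 := GF_wv hε (spl (ball d 1) W' W) y (E := E)
    have h3 : spl (ball d 1) W' W y = W' y := by unfold spl; rw [if_pos hy]
    rw [h3] at h2
    have h4 : ‖((W' y : ℂ) - wv E ε (spl (ball d 1) W' W) y)‖
        = ‖GF E ε (spl (ball d 1) W' W) y y‖⁻¹ := by
      rw [h2, norm_inv, inv_inv]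
    rw [h4, one_div]
    exact inv_anti₀ ht h1.le

lemma goodF_B2 {μ : Measure ℝ} [IsProbabilityMeasure μ] {C : ℝ} (hμ : Full μ C)
    {E ε : ℝ} (hε : 0 < ε) (W : ZZ d → ℝ) {y : ZZ d} (hy : y ∈ ball d 1) (hy0 : y ≠ 0)
    (s κ : ℝ) (hκ : 0 < κ) :
    (PP (ZZ d) μ) {W' | ‖GF E ε (spl (ball d 1) W' W) 0 0‖ ≤ s ∧
      κ ≤ ‖DT E ε (spl (ball d 1) W' W) y 0‖}
      ≤ ENNReal.ofReal (2 * C * (s / κ)) := by
  have hm : ∀ x y : ZZ d, Measurable (fun W' : ZZ d → ℝ => GF E ε (spl (ball d 1) W' W) x y) :=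
    fun x y => (GF_meas E hε x y).comp (goodF_spl_meas (ball d 1) W)
  have hmD : Measurable (fun W' : ZZ d → ℝ => ‖DT E ε (spl (ball d 1) W' W) y 0‖) := by
    unfold DT
    exact (((hm y y).mul (hm 0 0)).sub ((hm y 0).pow_const 2)).norm
  refine goodF_cond hμ y
    (fun W' => (spl (ball d 1) W' W y : ℂ)
      - GF E ε (spl (ball d 1) W' W) 0 0 / DT E ε (spl (ball d 1) W' W) y 0) ?_ _
    ((measurableSet_le (hm 0 0).norm measurable_const).inter
      (measurableSet_le measurable_const hmD)) _ ?_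
  · intro W' β
    refine two_diag hε _ _ hy0 ?_
    intro z hz _
    rw [goodF_spl_upd _ W' W hy, Function.update_of_ne hz]
  · rintro W' ⟨h1, h2⟩
    have h1' : ‖GF E ε (spl (ball d 1) W' W) 0 0‖ ≤ s := h1
    have h2' : κ ≤ ‖DT E ε (spl (ball d 1) W' W) y 0‖ := h2
    have h4 : spl (ball d 1) W' W y = W' y := by unfold spl; rw [if_pos hy]
    rw [h4]
    have h5 : (W' y : ℂ) - ((W' y : ℂ) - GF E ε (spl (ball d 1) W' W) 0 0
        / DT E ε (spl (ball d 1) W' W) y 0)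
        = GF E ε (spl (ball d 1) W' W) 0 0 / DT E ε (spl (ball d 1) W' W) y 0 := by ring
    rw [h5, norm_div]
    exact div_le_div₀ ((norm_nonneg _).trans h1') h1' hκ h2'

theorem goodF : StmtGoodF := by
  intro μ _ C hμ d hd E1 hE1
  have hC := hμ.C_pos
  have hdR : (0 : ℝ) < d := by exact_mod_cast hd
  obtain ⟨p1, hp1⟩ : ∃ p1 : ℝ, p1 = (μ {x : ℝ | |x| ≤ 1}).toReal := ⟨_, rfl⟩
  have hμ1 : μ {x : ℝ | |x| ≤ 1} ≠ ∞ := measure_ne_top _ _
  have hp1pos : 0 < p1 := hp1 ▸ ENNReal.toReal_pos hμ.one_pos.ne' hμ1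
  have hp1eq : μ {x : ℝ | |x| ≤ 1} = ENNReal.ofReal p1 := by
    rw [hp1, ENNReal.ofReal_toReal hμ1]
  obtain ⟨t, ht⟩ : ∃ t : ℝ, t = 16 * d * C / p1 := ⟨_, rfl⟩
  have ht0 : 0 < t := by rw [ht]; positivity
  obtain ⟨s, hs⟩ : ∃ s : ℝ, s = min (p1 / (512 * C * (d : ℝ) ^ 3))
    (min (1 / (2 * (2 * d + E1 + 2))) (1 / (32 * (d : ℝ) ^ 2 * t))) := ⟨_, rfl⟩
  have hs0 : 0 < s := by
    rw [hs]
    refine lt_min (by positivity) (lt_min ?_ (by positivity))
    have : (0 : ℝ) < 2 * d + E1 + 2 := by positivity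
    positivity
  have hs1 : s ≤ p1 / (512 * C * (d : ℝ) ^ 3) := hs ▸ min_le_left _ _
  have hs2 : (2 * d + E1 + 2) * s ≤ 1 / 2 := by
    have h1 : s ≤ 1 / (2 * (2 * d + E1 + 2)) := hs ▸ (min_le_right _ _).trans (min_le_left _ _)
    have h2 : (0 : ℝ) < 2 * d + E1 + 2 := by positivity
    rw [le_div_iff₀ (by positivity)] at h1
    linarith
  have hs3 : s * t ≤ 1 / (32 * (d : ℝ) ^ 2) := by
    have h1 : s ≤ 1 / (32 * (d : ℝ) ^ 2 * t) := hs ▸ (min_le_right _ _).trans (min_le_right _ _)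
    rw [le_div_iff₀ (by positivity)] at h1 ⊢
    linarith
  refine ⟨1 + 1 / s, by have : 0 < 1 / s := by positivity
                        linarith, fun E ε hE hε hε1 W => ?_⟩
  obtain ⟨A, hA⟩ : ∃ A : Set (ZZ d → ℝ),
    A = {W' | 1 + 1 / s < ‖wv E ε (spl (ball d 1) W' W) 0‖} := ⟨_, rfl⟩
  have hAm : MeasurableSet A := by
    rw [hA]
    exact measurableSet_lt measurable_const
      ((wv_meas E hε 0).comp (goodF_spl_meas (ball d 1) W)).norm
  have hA0 : ∀ (W' : ZZ d → ℝ) (β : ℝ), Function.update W' 0 β ∈ A ↔ W' ∈ A := by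
    intro W' β
    rw [hA]
    simp only [Set.mem_ofPred_eq]
    rw [goodF_spl_upd _ W' W (zero_mem_ball 1), wv_upd hε]
  have hs1m : MeasurableSet {x : ℝ | |x| ≤ 1} :=
    (isClosed_le continuous_abs continuous_const).measurableSet
  have hind := goodF_indep μ (0 : ZZ d) A hAm hA0 {x : ℝ | |x| ≤ 1} hs1m
  -- the covering
  have hcov : A ∩ {W' : ZZ d → ℝ | W' 0 ∈ {x : ℝ | |x| ≤ 1}} ⊆ ⋃ p : Fin d × Bool,
      ({W' | t < ‖GF E ε (spl (ball d 1) W' W) (goodF_nb d p) (goodF_nb d p)‖} ∪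
      {W' | ‖GF E ε (spl (ball d 1) W' W) 0 0‖ ≤ s ∧
        1 / (32 * (d : ℝ) ^ 2) ≤ ‖DT E ε (spl (ball d 1) W' W) (goodF_nb d p) 0‖}) := by
    rintro W' ⟨hW'A, hW'0⟩
    rw [hA] at hW'A
    have h1 : 1 + 1 / s < ‖wv E ε (spl (ball d 1) W' W) 0‖ := hW'A
    have h2 : |W' 0| ≤ 1 := hW'0
    have h3 : spl (ball d 1) W' W 0 = W' 0 := by unfold spl; rw [if_pos (zero_mem_ball 1)]
    have h4 : ‖GF E ε (spl (ball d 1) W' W) 0 0‖ ≤ s := by
      rw [GF_wv hε, norm_inv, h3]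
      have h5 : 1 / s ≤ ‖((W' 0 : ℂ) - wv E ε (spl (ball d 1) W' W) 0)‖ := by
        have h6 := norm_sub_norm_le (wv E ε (spl (ball d 1) W' W) 0) (W' 0 : ℂ)
        rw [norm_sub_rev, Complex.norm_real, Real.norm_eq_abs] at h6
        linarith
      rw [one_div] at h5
      exact inv_le_of_inv_le₀ hs0 h5
    obtain ⟨p, hp⟩ := goodF_det hd hE hε hε1 (spl (ball d 1) W' W) (by rw [h3]; exact h2) h4
      hs2 hs3
    rw [Set.mem_iUnion]
    exact ⟨p, hp.imp (fun h => h) (fun h => ⟨h4, h⟩)⟩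
  have hbound : (PP (ZZ d) μ) A * ENNReal.ofReal p1 ≤ ENNReal.ofReal (p1 / 2) := by
    rw [← hp1eq, ← hind]
    refine (measure_mono hcov).trans ((measure_iUnion_le _).trans ?_)
    rw [tsum_fintype]
    have hterm : ∀ p ∈ (Finset.univ : Finset (Fin d × Bool)), (PP (ZZ d) μ)
        ({W' | t < ‖GF E ε (spl (ball d 1) W' W) (goodF_nb d p) (goodF_nb d p)‖} ∪
        {W' | ‖GF E ε (spl (ball d 1) W' W) 0 0‖ ≤ s ∧
          1 / (32 * (d : ℝ) ^ 2) ≤ ‖DT E ε (spl (ball d 1) W' W) (goodF_nb d p) 0‖})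
        ≤ ENNReal.ofReal (p1 / (4 * d)) := by
      intro p _
      refine (measure_union_le _ _).trans ?_
      refine (add_le_add (goodF_B1 hμ hε W (goodF_nb_mem p) t ht0)
        (goodF_B2 hμ hε W (goodF_nb_mem p) (goodF_nb_ne p) s _ (by positivity))).trans ?_
      rw [← ENNReal.ofReal_add (by positivity) (by positivity)]
      apply ENNReal.ofReal_le_ofReal
      have e1 : 2 * C * (1 / t) = p1 / (8 * d) := by
        rw [ht]
        field_simp
        norm_num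
      have e2 : 2 * C * (s / (1 / (32 * (d : ℝ) ^ 2))) = 64 * C * (d : ℝ) ^ 2 * s := by
        field_simp
        norm_num
      have e3 : 64 * C * (d : ℝ) ^ 2 * s ≤ p1 / (8 * d) := by
        rw [le_div_iff₀ (by positivity)] at hs1 ⊢
        calc 64 * C * (d : ℝ) ^ 2 * s * (8 * d) = s * (512 * C * (d : ℝ) ^ 3) := by ring
          _ ≤ p1 := hs1
      rw [e1, e2]
      have e4 : p1 / (4 * d) = p1 / (8 * d) + p1 / (8 * d) := by
        field_simp
        norm_num
      rw [e4]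
      linarith
    refine (Finset.sum_le_sum hterm).trans ?_
    rw [Finset.sum_const, Finset.card_univ, Fintype.card_prod, Fintype.card_fin, Fintype.card_bool,
      nsmul_eq_mul, ← ENNReal.ofReal_natCast, ← ENNReal.ofReal_mul (by positivity)]
    apply ENNReal.ofReal_le_ofReal
    push_cast
    apply le_of_eq
    field_simp
    norm_num
  have hPA : (PP (ZZ d) μ) A ≤ ENNReal.ofReal (1 / 2) := by
    have h1 : (PP (ZZ d) μ) A * ENNReal.ofReal p1 ≤ ENNReal.ofReal (1 / 2) * ENNReal.ofReal p1 := by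
      refine hbound.trans (le_of_eq ?_)
      rw [← ENNReal.ofReal_mul (by norm_num)]
      congr 1
      ring
    have h2 : ENNReal.ofReal p1 ≠ 0 := by
      rw [Ne, ENNReal.ofReal_eq_zero]
      push Not
      exact hp1pos
    exact (ENNReal.mul_le_mul_iff_left h2 ENNReal.ofReal_ne_top).1 h1
  have hsub : Aᶜ ⊆ {W' | wv E ε (spl (ball d 1) W' W) 0 ∈ Gd (-(1 + 1 / s)) (1 + 1 / s) (1 + 1 / s)} := by
    intro W' hW'
    rw [hA, Set.mem_compl_iff, Set.mem_ofPred_eq, not_lt] at hW'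
    have him : 0 < (wv E ε (spl (ball d 1) W' W) 0).im := hε.trans_le (wv_im hε _ 0)
    have hre := Complex.abs_re_le_norm (wv E ε (spl (ball d 1) W' W) 0)
    have hre2 := abs_le.1 (hre.trans hW')
    have hpos : 0 ≤ (1 + 1 / s) * (wv E ε (spl (ball d 1) W' W) 0).im := by positivity
    exact ⟨him, hW', by linarith [hre2.1], by linarith [hre2.2]⟩
  refine le_trans ?_ (measure_mono hsub)
  rw [prob_compl_eq_one_sub hAm]
  have h1 : (1 : ℝ≥0∞) = ENNReal.ofReal (1 / 2) + ENNReal.ofReal (1 / 2) := by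
    rw [← ENNReal.ofReal_add (by norm_num) (by norm_num)]
    norm_num
  calc ENNReal.ofReal (1 / 2) = ENNReal.ofReal (1 / 2) + ENNReal.ofReal (1 / 2)
        - ENNReal.ofReal (1 / 2) := by
        rw [ENNReal.add_sub_cancel_right ENNReal.ofReal_ne_top]
    _ = 1 - ENNReal.ofReal (1 / 2) := by rw [← h1]
    _ ≤ 1 - (PP (ZZ d) μ) A := tsub_le_tsub_left hPA 1

end Pool.SU
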