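import Mathlib
import Pool.Agent.SU.FDefs
import Pool.Agent.SU.Green
import Pool.Agent.SU.VVb

/-!
# High energies
-/

set_option autoImplicit false
set_option linter.unusedSectionVars false
set_option linter.unusedVariables false

open Complex MeasureTheory Filter Topology Set ContinuousLinearMap
open scoped InnerProductSpace ENNReal NNReal

namespace Pool.SU

open Pool.NB Pool.SB

variable {d : ℕ}

/-- pointwise bound on one coordinate -/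
lemma high_pt (X : ZZ d →+ ℝ) {E ε : ℝ} (hε : 0 < ε) (W : ZZ d → ℝ) (q : ZZ d) :
    ‖VV X E ε W 0 q‖ ^ 2
      ≤ (X q) ^ 2 * ε ^ (-(3 / 2) : ℝ) * ‖GF E ε W q 0‖ ^ (1 / 2 : ℝ) := by
  rw [VV_apply X hε, norm_mul, mul_pow, Complex.norm_real, Real.norm_eq_abs, sq_abs, mul_assoc]
  refine mul_le_mul_of_nonneg_left ?_ (sq_nonneg _)
  set t : ℝ := ‖GF E ε W q 0‖ with ht
  have ht0 : 0 ≤ t := norm_nonneg _
  have ht1 : t ≤ ε⁻¹ := by
    have := GF_norm_le (E := E) hε W q 0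
    rwa [one_div] at this
  have h1 : t ^ 2 = t ^ (3 / 2 : ℝ) * t ^ (1 / 2 : ℝ) := by
    rw [← Real.rpow_natCast, ← Real.rpow_add_of_nonneg ht0 (by norm_num) (by norm_num)]
    norm_num
  rw [h1]
  refine mul_le_mul_of_nonneg_right ?_ (Real.rpow_nonneg ht0 _)
  calc t ^ (3 / 2 : ℝ) ≤ (ε⁻¹) ^ (3 / 2 : ℝ) := Real.rpow_le_rpow ht0 ht1 (by norm_num)
    _ = ε ^ (-(3 / 2) : ℝ) := by
      rw [Real.inv_rpow hε.le, ← Real.rpow_neg hε.le]

theorem high_of (hFM : StmtFM) (hMass : StmtMass) : StmtHigh := by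
  intro μ _ C hμ d hd X
  obtain ⟨E1, K, hE1, hK, hfm⟩ := hFM μ C hμ d hd
  obtain ⟨K', hK', hm⟩ := hMass d X (1 / 4) (by norm_num) (by norm_num)
  refine ⟨E1, K * K', hE1, mul_pos hK hK', ?_⟩
  intro E ε hE hε hε1
  have e0 : 0 ≤ ε ^ (-(3 / 2) : ℝ) := Real.rpow_nonneg hε.le _
  rw [← pv_int_zero μ X E hε]
  have hpt : ∀ W : ZZ d → ℝ, pv X E ε W 0 ≤
      ∑' q : ZZ d, ENNReal.ofReal ((X q) ^ 2 * ε ^ (-(3 / 2) : ℝ)) *
        ENNReal.ofReal (‖GF E ε W q 0‖ ^ (1 / 2 : ℝ)) := by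
    intro W
    unfold pv
    rw [ell_norm_sq, ENNReal.ofReal_tsum_of_nonneg (fun _ => sq_nonneg _) (ell_summable _)]
    refine ENNReal.tsum_le_tsum fun q => ?_
    rw [← ENNReal.ofReal_mul (mul_nonneg (sq_nonneg _) e0)]
    exact ENNReal.ofReal_le_ofReal (high_pt X hε W q)
  calc ∫⁻ W, pv X E ε W 0 ∂(PP (ZZ d) μ)
      ≤ ∫⁻ W, ∑' q : ZZ d, ENNReal.ofReal ((X q) ^ 2 * ε ^ (-(3 / 2) : ℝ)) *
        ENNReal.ofReal (‖GF E ε W q 0‖ ^ (1 / 2 : ℝ)) ∂(PP (ZZ d) μ) := lintegral_mono hpt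
    _ = ∑' q : ZZ d, ∫⁻ W, ENNReal.ofReal ((X q) ^ 2 * ε ^ (-(3 / 2) : ℝ)) *
        ENNReal.ofReal (‖GF E ε W q 0‖ ^ (1 / 2 : ℝ)) ∂(PP (ZZ d) μ) := by
        refine lintegral_tsum fun q => ?_
        exact (((GF_meas E hε q 0).norm.pow_const _).ennreal_ofReal.const_mul _).aemeasurable
    _ = ∑' q : ZZ d, ENNReal.ofReal ((X q) ^ 2 * ε ^ (-(3 / 2) : ℝ)) *
        ∫⁻ W, ENNReal.ofReal (‖GF E ε W q 0‖ ^ (1 / 2 : ℝ)) ∂(PP (ZZ d) μ) := by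
        refine tsum_congr fun q => ?_
        exact lintegral_const_mul _ ((GF_meas E hε q 0).norm.pow_const _).ennreal_ofReal
    _ ≤ ∑' q : ZZ d, ENNReal.ofReal (K * ε ^ (-(3 / 2) : ℝ)) *
        ENNReal.ofReal ((1 / 4) ^ (n1 q) * (1 + (X q) ^ 2)) := by
        refine ENNReal.tsum_le_tsum fun q => ?_
        refine (mul_le_mul' le_rfl (hfm E ε hE hε hε1 q)).trans ?_
        rw [← ENNReal.ofReal_mul (mul_nonneg (sq_nonneg _) e0),
          ← ENNReal.ofReal_mul (mul_nonneg hK.le e0)]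
        refine ENNReal.ofReal_le_ofReal ?_
        have h4 : (0 : ℝ) ≤ (1 / 4) ^ (n1 q) := by positivity
        have h5 : 0 ≤ K * ε ^ (-(3 / 2) : ℝ) * (1 / 4) ^ (n1 q) :=
          mul_nonneg (mul_nonneg hK.le e0) h4
        nlinarith
    _ = ENNReal.ofReal (K * ε ^ (-(3 / 2) : ℝ)) *
        ∑' q : ZZ d, ENNReal.ofReal ((1 / 4) ^ (n1 q) * (1 + (X q) ^ 2)) :=
        ENNReal.tsum_mul_left
    _ ≤ ENNReal.ofReal (K * ε ^ (-(3 / 2) : ℝ)) * ENNReal.ofReal K' := mul_le_mul' le_rfl hm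
    _ = ENNReal.ofReal (K * K' * ε ^ (-(3 / 2) : ℝ)) := by
        rw [← ENNReal.ofReal_mul (mul_nonneg hK.le e0)]
        congr 1
        ring

end Pool.SU
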