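import Mathlib
import Pool.Agent.SU.FDefs
import Pool.Agent.SU.NIm

/-!
# F15: integration over the energy, laws with full support
-/

set_option autoImplicit false
set_option linter.unusedSectionVars false
set_option linter.unusedVariables false

open Complex MeasureTheory Filter Topology Set ContinuousLinearMap
open scoped InnerProductSpace ENNReal NNReal

namespace Pool.SU

open Pool.NB Pool.SB

variable {d : ℕ}

/-- the trivial bound of `MM` -/
lemma nif_MM_le (μ : Measure ℝ) (X : ZZ d →+ ℝ) {E ε : ℝ} (hε : 0 < ε) :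
    MM μ X E ε ≤ ENNReal.ofReal (‖Vel (ee d) X‖ ^ 2 / ε ^ 2) * QQ μ d E ε := by
  unfold MM QQ
  rw [← lintegral_const_mul' _ _ ENNReal.ofReal_ne_top]
  refine lintegral_mono fun W => ?_
  rw [← ENNReal.ofReal_mul (by positivity)]
  apply ENNReal.ofReal_le_ofReal
  have hzm : (zm E ε).im ≠ 0 := by rw [zm_im]; exact neg_ne_zero.mpr hε.ne'
  have h1 : ε * ‖Rm (ee d) E ε W (Vel (ee d) X (Rp (ee d) E ε W (dl 0)))‖
      ≤ ‖Vel (ee d) X (Rp (ee d) E ε W (dl 0))‖ := by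
    have h := (R (ee d) W (zm E ε)).le_of_opNorm_le (R_norm (ee d) W hzm)
      (Vel (ee d) X (Rp (ee d) E ε W (dl 0)))
    rw [zm_im, abs_neg, abs_of_pos hε] at h
    calc ε * ‖Rm (ee d) E ε W (Vel (ee d) X (Rp (ee d) E ε W (dl 0)))‖
        ≤ ε * (1 / ε * ‖Vel (ee d) X (Rp (ee d) E ε W (dl 0))‖) :=
          mul_le_mul_of_nonneg_left h hε.le
      _ = ‖Vel (ee d) X (Rp (ee d) E ε W (dl 0))‖ := by field_simp
  have h2 := (Vel (ee d) X).le_opNorm (Rp (ee d) E ε W (dl 0))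
  have e1 : TT (ee d) X E ε W (dl 0)
      = Rm (ee d) E ε W (Vel (ee d) X (Rp (ee d) E ε W (dl 0))) := rfl
  have h3 : ‖TT (ee d) X E ε W (dl 0)‖ ≤ ‖Vel (ee d) X‖ * ‖Rp (ee d) E ε W (dl 0)‖ / ε := by
    rw [e1, le_div_iff₀ hε, mul_comm]
    exact h1.trans h2
  calc ‖TT (ee d) X E ε W (dl 0)‖ ^ 2
      ≤ (‖Vel (ee d) X‖ * ‖Rp (ee d) E ε W (dl 0)‖ / ε) ^ 2 :=
        pow_le_pow_left₀ (norm_nonneg _) h3 2
    _ = ‖Vel (ee d) X‖ ^ 2 / ε ^ 2 * ‖Rp (ee d) E ε W (dl 0)‖ ^ 2 := by ring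

theorem NIF_of : StmtFixedF → StmtHigh → StmtTail → StmtNIF := by
  intro hFixed hHigh hTail μ _ C hμ d hd X
  obtain ⟨E1, K2, hE1, hK2, hhigh⟩ := hHigh μ C hμ d hd X
  obtain ⟨K1, hK1, hfix⟩ := hFixed μ C hμ d hd X E1 hE1
  obtain ⟨p, K3, hp, hK3, htail⟩ := hTail μ C hμ d
  have hpi := Real.pi_pos
  have hpi1 : 1 ≤ Real.pi := by linarith [Real.pi_gt_three]
  set v : ℝ := ‖Vel (ee d) X‖ with hv
  have hv0 : 0 ≤ v := norm_nonneg _
  refine ⟨288 * K1 + (4 * K1 + 8 * K2 + 4 * v ^ 2 * K3), min 1 (p / 2), by positivity,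
    lt_min one_pos (by positivity), fun ε hε hε1 => ?_⟩
  set T : ℝ := ε ^ (-(1 / 2) : ℝ) with hT
  have hT1 : 1 ≤ T := Real.one_le_rpow_of_pos_of_le_one_of_nonpos hε hε1 (by norm_num)
  have hT0 : 0 < T := by linarith
  set A : Set ℝ := {E : ℝ | |E| ≤ E1} with hA
  set B : Set ℝ := {E : ℝ | E1 < |E| ∧ |E| ≤ T} with hB
  set Ct : Set ℝ := {E : ℝ | T < |E|} with hCt
  have hAm : MeasurableSet A := measurableSet_le measurable_norm measurable_const
  have hBm : MeasurableSet B :=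
    (measurableSet_lt measurable_const measurable_norm).inter
      (measurableSet_le measurable_norm measurable_const)
  have hCm : MeasurableSet Ct := measurableSet_lt measurable_const measurable_norm
  have hDDi : Integrable (fun W => ‖DD (ee d) X ε W (dl 0)‖ ^ 2) (PP (ZZ d) μ) := by
    simp_rw [DD_dl (ee d) X hε]
    refine Integrable.of_bound
      (((FF_sm (ee d) X hε).sub (FB_sm (ee d) X hε)).norm.pow 2).aestronglyMeasurable
      ((‖Vel (ee d) X‖ + ‖Vel (ee d) X‖) ^ 2) (Eventually.of_forall fun W => ?_)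
    rw [Real.norm_of_nonneg (sq_nonneg _)]
    exact pow_le_pow_left₀ (norm_nonneg _)
      ((norm_sub_le _ _).trans (add_le_add (FF_norm (ee d) X hε W) (FB_norm (ee d) X hε W))) 2
  set D : ℝ := ∫ W, ‖DD (ee d) X ε W (dl 0)‖ ^ 2 ∂(PP (ZZ d) μ) with hD
  have hRt : ENNReal.ofReal D
      = ∫⁻ W, ENNReal.ofReal (‖DD (ee d) X ε W (dl 0)‖ ^ 2) ∂(PP (ZZ d) μ) :=
    ofReal_integral_eq_lintegral_ofReal hDDi (Eventually.of_forall fun W => sq_nonneg _)
  have hD0 : 0 ≤ D := integral_nonneg fun W => sq_nonneg _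
  have hDle : D ≤ 8 * (NI μ (ee d) X ε - NI μ (ee d) X (ε / 2)) := DD_le μ (ee d) X hε
  -- bounded energies
  have hin : ∫⁻ E in A, MM μ X E ε
      ≤ ENNReal.ofReal (K1 * (9 * Real.pi / ε ^ 3 * D + Real.pi / ε)) := by
    have hQm := nim_QQ_meas (d := d) μ hε
    calc ∫⁻ E in A, MM μ X E ε
        ≤ ∫⁻ E in A, ENNReal.ofReal K1 * (SE μ X E ε + QQ μ d E ε) :=
          setLIntegral_mono' hAm fun E hE => hfix E ε hE hε hε1
      _ = ENNReal.ofReal K1 * ((∫⁻ E in A, SE μ X E ε) + (∫⁻ E in A, QQ μ d E ε)) := by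
          rw [lintegral_const_mul' _ _ ENNReal.ofReal_ne_top, lintegral_add_right _ hQm]
      _ ≤ ENNReal.ofReal K1 * (ENNReal.ofReal (9 * Real.pi / ε ^ 3) * ENNReal.ofReal D
            + ENNReal.ofReal (Real.pi / ε)) := by
          gcongr
          · refine (setLIntegral_le_lintegral _ _).trans ?_
            rw [hRt]
            exact nim_SE_int μ X hε
          · refine (setLIntegral_le_lintegral _ _).trans ?_
            rw [nim_QQ_int μ hε]
      _ = _ := by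
          rw [← ENNReal.ofReal_mul (by positivity), ← ENNReal.ofReal_add (by positivity)
            (by positivity), ← ENNReal.ofReal_mul hK1.le]
  -- intermediate energies
  have hmid : ∫⁻ E in B, MM μ X E ε
      ≤ ENNReal.ofReal (K2 * ε ^ (-(3 / 2) : ℝ) * (2 * T)) := by
    have hvol : volume B ≤ ENNReal.ofReal (2 * T) := by
      have h1 : B ⊆ Icc (-T) T := fun E hE => abs_le.1 hE.2
      refine (measure_mono h1).trans ?_
      rw [Real.volume_Icc]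
      apply ENNReal.ofReal_le_ofReal
      linarith
    calc ∫⁻ E in B, MM μ X E ε
        ≤ ∫⁻ E in B, ENNReal.ofReal (K2 * ε ^ (-(3 / 2) : ℝ)) :=
          setLIntegral_mono' hBm fun E hE => hhigh E ε hE.1.le hε hε1
      _ = ENNReal.ofReal (K2 * ε ^ (-(3 / 2) : ℝ)) * volume B := by
          rw [lintegral_const, Measure.restrict_apply_univ]
      _ ≤ ENNReal.ofReal (K2 * ε ^ (-(3 / 2) : ℝ)) * ENNReal.ofReal (2 * T) := by
          gcongr
      _ = _ := by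
          rw [← ENNReal.ofReal_mul (by positivity)]
  -- large energies
  have hout : ∫⁻ E in Ct, MM μ X E ε
      ≤ ENNReal.ofReal (v ^ 2 / ε ^ 2 * (K3 * T ^ (-p) / ε)) := by
    calc ∫⁻ E in Ct, MM μ X E ε
        ≤ ∫⁻ E in Ct, ENNReal.ofReal (v ^ 2 / ε ^ 2) * QQ μ d E ε :=
          setLIntegral_mono' hCm fun E _ => nif_MM_le μ X hε
      _ = ENNReal.ofReal (v ^ 2 / ε ^ 2) * ∫⁻ E in Ct, QQ μ d E ε := by
          rw [lintegral_const_mul' _ _ ENNReal.ofReal_ne_top]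
      _ ≤ ENNReal.ofReal (v ^ 2 / ε ^ 2) * ENNReal.ofReal (K3 * T ^ (-p) / ε) := by
          gcongr
          exact htail T ε hT1 hε hε1
      _ = _ := by
          rw [← ENNReal.ofReal_mul (by positivity)]
  have hall : ∫⁻ E : ℝ, MM μ X E ε
      ≤ ENNReal.ofReal (K1 * (9 * Real.pi / ε ^ 3 * D + Real.pi / ε)
        + (K2 * ε ^ (-(3 / 2) : ℝ) * (2 * T) + v ^ 2 / ε ^ 2 * (K3 * T ^ (-p) / ε))) := by
    have hcov : (univ : Set ℝ) ⊆ A ∪ (B ∪ Ct) := by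
      intro E _
      by_cases h1 : |E| ≤ E1
      · exact Or.inl h1
      · by_cases h2 : |E| ≤ T
        · exact Or.inr (Or.inl ⟨not_le.1 h1, h2⟩)
        · exact Or.inr (Or.inr (not_le.1 h2))
    rw [ENNReal.ofReal_add (by positivity) (by positivity),
      ENNReal.ofReal_add (by positivity) (by positivity)]
    calc ∫⁻ E : ℝ, MM μ X E ε = ∫⁻ E in univ, MM μ X E ε := by rw [Measure.restrict_univ]
      _ ≤ ∫⁻ E in A ∪ (B ∪ Ct), MM μ X E ε := lintegral_mono_set hcov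
      _ ≤ (∫⁻ E in A, MM μ X E ε) + ∫⁻ E in B ∪ Ct, MM μ X E ε := lintegral_union_le _ _ _
      _ ≤ (∫⁻ E in A, MM μ X E ε) + ((∫⁻ E in B, MM μ X E ε) + ∫⁻ E in Ct, MM μ X E ε) := by
          gcongr
          exact lintegral_union_le _ _ _
      _ ≤ _ := add_le_add hin (add_le_add hmid hout)
  have hmain : ENNReal.ofReal (NI μ (ee d) X ε) ≤ ENNReal.ofReal (4 * ε ^ 3 / Real.pi *
      (K1 * (9 * Real.pi / ε ^ 3 * D + Real.pi / ε)
        + (K2 * ε ^ (-(3 / 2) : ℝ) * (2 * T) + v ^ 2 / ε ^ 2 * (K3 * T ^ (-p) / ε)))) := by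
    rw [ENNReal.ofReal_mul (by positivity)]
    refine (nim_NI_le μ X hε).trans ?_
    gcongr
  have hreal : NI μ (ee d) X ε ≤ 4 * ε ^ 3 / Real.pi *
      (K1 * (9 * Real.pi / ε ^ 3 * D + Real.pi / ε)
        + (K2 * ε ^ (-(3 / 2) : ℝ) * (2 * T) + v ^ 2 / ε ^ 2 * (K3 * T ^ (-p) / ε))) :=
    (ENNReal.ofReal_le_ofReal_iff (by positivity)).mp hmain
  have hr1 : ε ^ (-(3 / 2) : ℝ) * T = (ε ^ 2)⁻¹ := by
    rw [hT, ← Real.rpow_add hε, show (-(3 / 2) : ℝ) + -(1 / 2) = -((2 : ℕ) : ℝ) by norm_num,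
      Real.rpow_neg hε.le, Real.rpow_natCast]
  have hr2 : T ^ (-p) = ε ^ (p / 2) := by
    rw [hT, ← Real.rpow_mul hε.le]
    congr 1
    ring
  have heq : 4 * ε ^ 3 / Real.pi *
      (K1 * (9 * Real.pi / ε ^ 3 * D + Real.pi / ε)
        + (K2 * ε ^ (-(3 / 2) : ℝ) * (2 * T) + v ^ 2 / ε ^ 2 * (K3 * T ^ (-p) / ε)))
      = 36 * K1 * D + 4 * K1 * ε ^ 2 + 8 * K2 * ε / Real.pi
        + 4 * v ^ 2 * K3 * ε ^ (p / 2) / Real.pi := by
    have h0 : K2 * ε ^ (-(3 / 2) : ℝ) * (2 * T) = 2 * K2 * (ε ^ (-(3 / 2) : ℝ) * T) := by ring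
    rw [h0, hr1, hr2]
    field_simp
    ring
  rw [heq] at hreal
  set q : ℝ := min 1 (p / 2) with hq
  have hq1 : q ≤ 1 := min_le_left _ _
  have hq2 : q ≤ p / 2 := min_le_right _ _
  have hpq0 : 0 < ε ^ q := Real.rpow_pos_of_pos hε _
  have hb1 : ε ≤ ε ^ q := by
    have := Real.rpow_le_rpow_of_exponent_ge hε hε1 hq1
    rwa [Real.rpow_one] at this
  have hb2 : ε ^ (p / 2) ≤ ε ^ q := Real.rpow_le_rpow_of_exponent_ge hε hε1 hq2
  have hb3 : ε ^ 2 ≤ ε ^ q := by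
    refine le_trans ?_ hb1
    nlinarith
  have hN0 : 0 ≤ NI μ (ee d) X ε - NI μ (ee d) X (ε / 2) := by linarith
  have h7 : 36 * K1 * D ≤ 288 * K1 * (NI μ (ee d) X ε - NI μ (ee d) X (ε / 2)) := by
    nlinarith [mul_le_mul_of_nonneg_left hDle (by positivity : (0:ℝ) ≤ 36 * K1)]
  have h8 : 4 * K1 * ε ^ 2 ≤ 4 * K1 * ε ^ q := mul_le_mul_of_nonneg_left hb3 (by positivity)
  have h9 : 8 * K2 * ε / Real.pi ≤ 8 * K2 * ε ^ q := by
    rw [div_le_iff₀ hpi]
    have h10 : 8 * K2 * ε ≤ 8 * K2 * ε ^ q := mul_le_mul_of_nonneg_left hb1 (by positivity)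
    have h11 : 0 ≤ 8 * K2 * ε ^ q := by positivity
    nlinarith [mul_le_mul_of_nonneg_left hpi1 h11]
  have h10 : 4 * v ^ 2 * K3 * ε ^ (p / 2) / Real.pi ≤ 4 * v ^ 2 * K3 * ε ^ q := by
    rw [div_le_iff₀ hpi]
    have h10 : 4 * v ^ 2 * K3 * ε ^ (p / 2) ≤ 4 * v ^ 2 * K3 * ε ^ q :=
      mul_le_mul_of_nonneg_left hb2 (by positivity)
    have h11 : 0 ≤ 4 * v ^ 2 * K3 * ε ^ q := by positivity
    nlinarith [mul_le_mul_of_nonneg_left hpi1 h11]
  have h12 : 0 ≤ (4 * K1 + 8 * K2 + 4 * v ^ 2 * K3) *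
      (NI μ (ee d) X ε - NI μ (ee d) X (ε / 2)) := by positivity
  have h13 : 0 ≤ 288 * K1 * ε ^ q := by positivity
  nlinarith

end Pool.SU
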