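import Mathlib
import Pool.Agent.SU.FDefs
import Pool.Agent.SU.P2

/-!
# Near resonance estimate for laws with full support (module F6)
-/

set_option autoImplicit false
set_option linter.unusedSectionVars false
set_option linter.unusedVariables false

open Complex MeasureTheory Filter Topology Set ContinuousLinearMap
open scoped InnerProductSpace ENNReal NNReal

namespace Pool.SU

open Pool.NB Pool.SB

variable {d : ℕ}

/-- the sum over the bad pairs -/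
theorem p2f_P {μ : Measure ℝ} [IsProbabilityMeasure μ] {X : ZZ d →+ ℝ} {τ Km R g KP B E ε : ℝ}
    (hτ0 : 0 < τ) (hε : 0 < ε) (hR : 0 < R) (hKP0 : 0 < KP)
    (hKm : ∑' x : ZZ d, ENNReal.ofReal (τ ^ (n1 x) * (1 + (X x) ^ 2)) ≤ ENNReal.ofReal Km)
    (hKP : ∀ x : ZZ d, x ≠ 0 →
      ∫⁻ W in fP E ε τ R g B x, pv X E ε W 0 ∂(PP (ZZ d) μ)
      ≤ ENNReal.ofReal (KP * τ ^ (n1 x) / R) *
        (∫⁻ W, pv X E ε W 0 ∂(PP (ZZ d) μ) + ∫⁻ W, pv X E ε W x ∂(PP (ZZ d) μ))) :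
    ∑' x : ZZ d, ∫⁻ W in (if x = 0 then ∅ else fP E ε τ R g B x), pv X E ε W 0 ∂(PP (ZZ d) μ)
      ≤ ENNReal.ofReal (3 * KP / R * Km) * (MM μ X E ε + QQ μ d E ε) := by
  have key : ∀ x : ZZ d,
      ∫⁻ W in (if x = 0 then ∅ else fP E ε τ R g B x), pv X E ε W 0 ∂(PP (ZZ d) μ)
      ≤ ENNReal.ofReal (3 * KP / R * (τ ^ (n1 x) * (1 + (X x) ^ 2))) *
        (MM μ X E ε + QQ μ d E ε) := by
    intro x
    split_ifs with hx
    · simp
    · refine (hKP x hx).trans ?_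
      have e1 : ∫⁻ W, pv X E ε W 0 ∂(PP (ZZ d) μ) + ∫⁻ W, pv X E ε W x ∂(PP (ZZ d) μ)
          ≤ ENNReal.ofReal 3 * MM μ X E ε + ENNReal.ofReal (2 * (X x) ^ 2) * QQ μ d E ε := by
        rw [pv_int_zero μ X E hε]
        refine (add_le_add le_rfl (pv_int_le μ X E hε x)).trans (le_of_eq ?_)
        rw [show ENNReal.ofReal 3 = 1 + 2 by rw [← ENNReal.ofReal_one, p2_two,
          ← ENNReal.ofReal_add (by norm_num) (by norm_num)]; norm_num]
        ring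
      refine (mul_le_mul_right e1 _).trans ?_
      have hp : 0 ≤ τ ^ (n1 x) := by positivity
      have hp2 : 0 ≤ KP * τ ^ (n1 x) / R := by positivity
      refine p2_alg hp2 (by positivity) (by norm_num) ?_ ?_ _ _
      · have : KP * τ ^ (n1 x) / R * 3 = 3 * KP / R * (τ ^ (n1 x) * 1) := by ring
        rw [this]
        gcongr
        nlinarith [sq_nonneg (X x)]
      · have : KP * τ ^ (n1 x) / R * (2 * (X x) ^ 2)
            = KP / R * (τ ^ (n1 x) * (2 * (X x) ^ 2)) := by ring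
        rw [this]
        have h3 : 3 * KP / R * (τ ^ (n1 x) * (1 + (X x) ^ 2))
            = KP / R * (τ ^ (n1 x) * (3 * (1 + (X x) ^ 2))) := by ring
        rw [h3]
        gcongr
        all_goals nlinarith [sq_nonneg (X x)]
  calc _ ≤ ∑' x : ZZ d, ENNReal.ofReal (3 * KP / R * (τ ^ (n1 x) * (1 + (X x) ^ 2))) *
        (MM μ X E ε + QQ μ d E ε) := ENNReal.tsum_le_tsum key
    _ = (∑' x : ZZ d, ENNReal.ofReal (3 * KP / R * (τ ^ (n1 x) * (1 + (X x) ^ 2)))) *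
        (MM μ X E ε + QQ μ d E ε) := ENNReal.tsum_mul_right
    _ ≤ _ := by
        gcongr
        exact p2_sum hKm _ (by positivity) _ fun x => le_rfl

theorem P2F_of : StmtP1F → StmtMass → StmtTriF → StmtEstPF → StmtEstGF → StmtP2F := by
  intro h1 hm ht hP hG μ _ C hμ d hd X E1 τ δ hE1 hτ0 hτ1 hδ
  obtain ⟨B, hB1, hTri⟩ := ht d hd E1 τ hE1 hτ0 hτ1
  obtain ⟨KP, hKP0, hKP⟩ := hP μ C hμ d B hB1
  obtain ⟨KG, hKG0, hKG⟩ := hG μ C hμ d
  obtain ⟨K1, hK10, hK1⟩ := h1 μ C hμ d X B (by linarith)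
  obtain ⟨Km, hKm0, hKm⟩ := hm d X τ hτ0 hτ1
  obtain ⟨R, hR2, hR3⟩ : ∃ R : ℝ, 2 ≤ R ∧ 3 * KP / R * Km ≤ δ / 2 := by
    have e2 : 0 ≤ 6 * KP * Km / δ := by positivity
    refine ⟨2 + 6 * KP * Km / δ, by linarith, ?_⟩
    have e3 : 0 < 2 + 6 * KP * Km / δ := by positivity
    rw [div_mul_eq_mul_div, div_le_iff₀ e3]
    have : 6 * KP * Km / δ * δ = 6 * KP * Km := by field_simp
    nlinarith
  have hR0 : 0 < R := by linarith
  obtain ⟨g, hg1, hg3⟩ : ∃ g : ℝ, R ≤ g ∧ KG * (R / g) * Km ≤ δ / 2 := by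
    have e0 : 0 ≤ 2 * KG * R * Km / δ := by positivity
    refine ⟨R + 2 * KG * R * Km / δ, by linarith, ?_⟩
    have e3 : 0 < R + 2 * KG * R * Km / δ := by positivity
    have e4 : KG * (R / (R + 2 * KG * R * Km / δ)) * Km
        = KG * R * Km / (R + 2 * KG * R * Km / δ) := by ring
    rw [e4, div_le_iff₀ e3]
    have e5 : 2 * KG * R * Km / δ * δ = 2 * KG * R * Km := by field_simp
    nlinarith [mul_pos hR0 hδ]
  have hg0 : 0 < g := by linarith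
  refine ⟨g, by linarith, KG * R ^ 2 * (2 * (K1 + 1)) * Km, by positivity, ?_⟩
  intro E ε hE hε0 hε1
  have hinc : (resEv E ε τ g : Set (ZZ d → ℝ)) ⊆
      (((⋃ x : ZZ d, if x = 0 then ∅ else fP E ε τ R g B x) ∪
        (⋃ x : ZZ d, evG E ε τ 1 R g (-B) B B x)) : Set (ZZ d → ℝ)) := by
    intro W hres
    rcases hTri R g (by linarith) hg1 E ε hE hε0 hε1 W hres with ⟨x, hx, hx2⟩ | ⟨x, hx⟩
    · refine Or.inl (mem_iUnion.mpr ⟨x, ?_⟩)
      rw [if_neg hx]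
      exact hx2
    · exact Or.inr (mem_iUnion.mpr ⟨x, hx⟩)
  have bP := p2f_P (μ := μ) (g := g) (B := B) (E := E) hτ0 hε0 hR0 hKP0 hKm
    (fun x hx => hKP X τ R g E ε hτ0 hτ1 hR2 (by linarith) hε0 hε1 x hx)
  have bG := p2_G (μ := μ) (κ := 1) (R := R) hτ0 hτ1 hε0 hR0 hg0 hKG0 hK10 hKm
    (hK1 E ε hε0 hε1)
    (fun x => hKG X τ R g E ε B hτ0 hτ1 (by linarith) hg1 hε0 hε1 x)
  calc ∫⁻ W in resEv E ε τ g, pv X E ε W 0 ∂(PP (ZZ d) μ)
      ≤ ∫⁻ W in ((⋃ x : ZZ d, if x = 0 then ∅ else fP E ε τ R g B x) ∪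
        (⋃ x : ZZ d, evG E ε τ 1 R g (-B) B B x)),
          pv X E ε W 0 ∂(PP (ZZ d) μ) := lintegral_mono_set hinc
    _ ≤ ∫⁻ W in (⋃ x : ZZ d, if x = 0 then ∅ else fP E ε τ R g B x), pv X E ε W 0 ∂(PP (ZZ d) μ)
        + ∫⁻ W in (⋃ x : ZZ d, evG E ε τ 1 R g (-B) B B x),
          pv X E ε W 0 ∂(PP (ZZ d) μ) := lintegral_union_le _ _ _
    _ ≤ ∑' x : ZZ d, ∫⁻ W in (if x = 0 then ∅ else fP E ε τ R g B x), pv X E ε W 0 ∂(PP (ZZ d) μ)
        + ∑' x : ZZ d, ∫⁻ W in evG E ε τ 1 R g (-B) B B x,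
          pv X E ε W 0 ∂(PP (ZZ d) μ) :=
        add_le_add (lintegral_iUnion_le _ _) (lintegral_iUnion_le _ _)
    _ ≤ _ := add_le_add bP bG
    _ ≤ _ := by
        have f1 : ENNReal.ofReal (3 * KP / R * Km) ≤ ENNReal.ofReal (δ / 2) :=
          ENNReal.ofReal_le_ofReal hR3
        have f2 : ENNReal.ofReal (KG * (R / g) * Km) ≤ ENNReal.ofReal (δ / 2) :=
          ENNReal.ofReal_le_ofReal hg3
        have f4 : ENNReal.ofReal δ = ENNReal.ofReal (δ / 2) + ENNReal.ofReal (δ / 2) := by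
          rw [← ENNReal.ofReal_add (by positivity) (by positivity)]
          congr 1
          ring
        rw [f4]
        calc _ ≤ ENNReal.ofReal (δ / 2) * (MM μ X E ε + QQ μ d E ε)
            + (ENNReal.ofReal (δ / 2) * (MM μ X E ε + QQ μ d E ε)
              + ENNReal.ofReal (KG * R ^ 2 * (2 * (K1 + 1)) * Km) * (SE μ X E ε + QQ μ d E ε)) := by
              gcongr
          _ = _ := by ring

end Pool.SU
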