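import Mathlib
import Pool.Agent.SU.Base
import Pool.Agent.SU.Remez
import Pool.Agent.SU.FB

/-!
# F8: a chain of one-variable Remez inequalities, unbounded potentials
-/

set_option autoImplicit false
set_option linter.unusedSectionVars false
set_option linter.unusedVariables false

open Complex MeasureTheory Filter Topology Set ContinuousLinearMap
open scoped InnerProductSpace ENNReal NNReal

namespace Pool.SU

open Pool.NB Pool.SB

variable {d : ℕ}

/-- integrated version of the affine Remez inequality -/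
theorem rmf_int {μ : Measure ℝ} [IsProbabilityMeasure μ] {C : ℝ} (hμ : Full μ C)
    {θ : ℝ} (hθ : 0 < θ) : ∃ K : ℝ, 0 < K ∧ ∀ (V : ℝ≥0∞) (F : ℝ → ℝ≥0∞) (_ : Measurable F)
      (A : Set ℝ) (_ : MeasurableSet A) (_ : ENNReal.ofReal θ ≤ μ A)
      (_ : ∀ s1 ∈ A, ∀ s2 ∈ A, θ / (4 * C) ≤ |s2 - s1| → V ≤ F s1 + F s2),
      V ≤ ENNReal.ofReal K * ∫⁻ s in A, F s ∂μ := by
  have hC := hμ.C_pos
  refine ⟨4 / θ ^ 2, by positivity, fun V F hF A hA hA1 h => ?_⟩
  set I := ∫⁻ s in A, F s ∂μ with hI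
  have hwin : ∀ s1 : ℝ, ENNReal.ofReal (θ / 2) ≤ μ (A \ {β : ℝ | ‖(β : ℂ) - (s1 : ℂ)‖ < θ / (4 * C)}) := by
    intro s1
    have h1 : μ {β : ℝ | ‖(β : ℂ) - (s1 : ℂ)‖ < θ / (4 * C)} ≤ ENNReal.ofReal (θ / 2) := by
      have hsub : {β : ℝ | ‖(β : ℂ) - (s1 : ℂ)‖ < θ / (4 * C)} ⊆
          {β : ℝ | ‖(β : ℂ) - (s1 : ℂ)‖ ≤ θ / (4 * C)} := by
        intro β hβ
        simp only [mem_setOf_eq] at hβ ⊢
        exact hβ.le
      refine (measure_mono hsub).trans ((hμ.win (s1 : ℂ) _).trans ?_)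
      apply le_of_eq
      congr 1
      field_simp
      ring
    have h2 : μ A ≤ μ {β : ℝ | ‖(β : ℂ) - (s1 : ℂ)‖ < θ / (4 * C)} +
        μ (A \ {β : ℝ | ‖(β : ℂ) - (s1 : ℂ)‖ < θ / (4 * C)}) := by
      refine (measure_mono ?_).trans (measure_union_le _ _)
      intro β hβ
      by_cases h3 : β ∈ {β : ℝ | ‖(β : ℂ) - (s1 : ℂ)‖ < θ / (4 * C)}
      · exact Or.inl h3
      · exact Or.inr ⟨hβ, h3⟩
    have h3 : ENNReal.ofReal (θ / 2) + ENNReal.ofReal (θ / 2) ≤ ENNReal.ofReal (θ / 2) +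
        μ (A \ {β : ℝ | ‖(β : ℂ) - (s1 : ℂ)‖ < θ / (4 * C)}) := by
      rw [← ENNReal.ofReal_add (by positivity) (by positivity), add_halves]
      exact hA1.trans (h2.trans (by gcongr))
    exact (ENNReal.add_le_add_iff_left ENNReal.ofReal_ne_top).1 h3
  have hmw : ∀ s1 : ℝ, MeasurableSet {β : ℝ | ‖(β : ℂ) - (s1 : ℂ)‖ < θ / (4 * C)} := by
    intro s1
    apply measurableSet_lt _ measurable_const
    exact (Complex.measurable_ofReal.sub_const _).norm
  have step1 : ∀ s1 ∈ A, V * ENNReal.ofReal (θ / 2) ≤ F s1 + I := by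
    intro s1 hs1
    calc V * ENNReal.ofReal (θ / 2)
        ≤ V * μ (A \ {β : ℝ | ‖(β : ℂ) - (s1 : ℂ)‖ < θ / (4 * C)}) := by gcongr; exact hwin s1
      _ = ∫⁻ s2 in A \ {β : ℝ | ‖(β : ℂ) - (s1 : ℂ)‖ < θ / (4 * C)}, V ∂μ := by
          rw [setLIntegral_const]
      _ ≤ ∫⁻ s2 in A \ {β : ℝ | ‖(β : ℂ) - (s1 : ℂ)‖ < θ / (4 * C)}, (F s1 + F s2) ∂μ := by
          apply setLIntegral_mono (measurable_const.add hF)
          intro s2 hs2
          apply h s1 hs1 s2 hs2.1
          have := hs2.2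
          simp only [mem_setOf_eq, not_lt] at this
          rw [← Complex.ofReal_sub, Complex.norm_real, Real.norm_eq_abs] at this
          exact this
      _ = (∫⁻ s2 in A \ {β : ℝ | ‖(β : ℂ) - (s1 : ℂ)‖ < θ / (4 * C)}, F s1 ∂μ) +
          ∫⁻ s2 in A \ {β : ℝ | ‖(β : ℂ) - (s1 : ℂ)‖ < θ / (4 * C)}, F s2 ∂μ := by
          rw [lintegral_add_left measurable_const]
      _ ≤ F s1 + I := by
          gcongr
          · rw [setLIntegral_const]
            calc F s1 * μ _ ≤ F s1 * 1 := by gcongr; exact prob_le_one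
              _ = F s1 := mul_one _
          · exact lintegral_mono_set diff_subset
  have step2 : V * ENNReal.ofReal (θ / 2) * ENNReal.ofReal θ ≤ I + I := by
    calc V * ENNReal.ofReal (θ / 2) * ENNReal.ofReal θ
        ≤ V * ENNReal.ofReal (θ / 2) * μ A := by gcongr
      _ = ∫⁻ s1 in A, V * ENNReal.ofReal (θ / 2) ∂μ := by rw [setLIntegral_const]
      _ ≤ ∫⁻ s1 in A, (F s1 + I) ∂μ := setLIntegral_mono (hF.add_const _) step1
      _ = I + ∫⁻ s1 in A, I ∂μ := by rw [lintegral_add_left hF]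
      _ ≤ I + I := by
          gcongr
          rw [setLIntegral_const]
          calc I * μ A ≤ I * 1 := by gcongr; exact prob_le_one
            _ = I := mul_one _
  have h7 : ENNReal.ofReal (θ / 2) * ENNReal.ofReal θ = ENNReal.ofReal (θ ^ 2 / 2) := by
    rw [← ENNReal.ofReal_mul (by positivity)]
    congr 1
    ring
  rw [mul_assoc, h7] at step2
  have h8 : V = ENNReal.ofReal (2 / θ ^ 2) * (V * ENNReal.ofReal (θ ^ 2 / 2)) := by
    rw [mul_comm V, ← mul_assoc, ← ENNReal.ofReal_mul (by positivity),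
      show 2 / θ ^ 2 * (θ ^ 2 / 2) = 1 by field_simp, ENNReal.ofReal_one, one_mul]
  rw [h8]
  calc ENNReal.ofReal (2 / θ ^ 2) * (V * ENNReal.ofReal (θ ^ 2 / 2))
      ≤ ENNReal.ofReal (2 / θ ^ 2) * (I + I) := by gcongr
    _ = ENNReal.ofReal (2 / θ ^ 2) * (ENNReal.ofReal 2 * I) := by
        rw [← two_mul]; norm_num
    _ = ENNReal.ofReal (4 / θ ^ 2) * I := by
        rw [← mul_assoc, ← ENNReal.ofReal_mul (by positivity)]
        congr 2
        ring

theorem rmf_nb {x : ZZ d} (hx : x ∈ ball d 1) (i : Fin d) :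
    x + ee d i ∈ ball d 2 ∧ x - ee d i ∈ ball d 2 := by
  have h := mem_ball.mp hx
  constructor
  · refine mem_ball.mpr ((n1_add _ _).trans ?_)
    rw [n1_ee]
    omega
  · rw [sub_eq_add_neg]
    refine mem_ball.mpr ((n1_add _ _).trans ?_)
    rw [n1_neg, n1_ee]
    omega

/-- the row of the Green function decays with the potential -/
theorem rmf_row {E ε g : ℝ} (hε : 0 < ε) {W : ZZ d → ℝ}
    (hGF : ∀ x ∈ ball d 2, ∀ y ∈ ball d 2, ‖GF E ε W x y‖ ≤ g) {x : ZZ d} (hx : x ∈ ball d 1)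
    {y : ZZ d} (hy : y ∈ ball d 2) :
    ‖(W x : ℂ) + 2 * d - zp E ε‖ * ‖GF E ε W x y‖ ≤ 2 * d * g + 1 := by
  have h := GF_eqn (E := E) hε W x y
  have h1 : ((W x : ℂ) + 2 * d - zp E ε) * GF E ε W x y
      = ∑ i, (GF E ε W (x + ee d i) y + GF E ε W (x - ee d i) y) + if x = y then 1 else 0 := by
    rw [← h]
    ring
  rw [← norm_mul, h1]
  refine (norm_add_le _ _).trans (add_le_add ?_ ?_)
  · refine (norm_sum_le _ _).trans ?_
    calc ∑ i, ‖GF E ε W (x + ee d i) y + GF E ε W (x - ee d i) y‖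
        ≤ ∑ i : Fin d, (g + g) := by
          refine Finset.sum_le_sum fun i _ => (norm_add_le _ _).trans ?_
          exact add_le_add (hGF _ (rmf_nb hx i).1 y hy) (hGF _ (rmf_nb hx i).2 y hy)
      _ = 2 * d * g := by
          rw [Finset.sum_const, Finset.card_univ, Fintype.card_fin, nsmul_eq_mul]
          ring
  · split_ifs <;> simp

theorem rmf_zp {E ε E1 : ℝ} (hE : |E| ≤ E1) (hε : 0 < ε) (hε1 : ε ≤ 1) : ‖zp E ε‖ ≤ E1 + 1 := by
  unfold zp
  refine (norm_add_le _ _).trans ?_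
  rw [norm_mul, Complex.norm_real, Complex.norm_real, Complex.norm_I, mul_one, Real.norm_eq_abs,
    Real.norm_eq_abs, abs_of_pos hε]
  exact add_le_add hE hε1

theorem rmf_beta {E ε E1 b : ℝ} (hE : |E| ≤ E1) (hε : 0 < ε) (hε1 : ε ≤ 1)
    (hb : 2 * (2 * d + E1 + 1) ≤ |b|) :
    |b| / 2 ≤ ‖(b : ℂ) + 2 * d - zp E ε‖ ∧ ‖(b : ℂ) + 2 * d - zp E ε‖ ≤ 2 * |b| := by
  have h1 := rmf_zp hE hε hε1
  have h2 : ‖((2 * d : ℝ) : ℂ)‖ = 2 * d := by
    rw [Complex.norm_real, Real.norm_eq_abs, abs_of_nonneg (by positivity)]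
  have h3 : ‖(b : ℂ)‖ = |b| := by rw [Complex.norm_real, Real.norm_eq_abs]
  have e : (b : ℂ) + 2 * d - zp E ε = (b : ℂ) - (zp E ε - ((2 * d : ℝ) : ℂ)) := by
    push_cast
    ring
  have h4 : ‖zp E ε - ((2 * d : ℝ) : ℂ)‖ ≤ E1 + 1 + 2 * d := by
    refine (norm_sub_le _ _).trans ?_
    rw [h2]
    linarith
  have hd : (0 : ℝ) ≤ d := Nat.cast_nonneg d
  constructor
  · rw [e]
    have := norm_sub_norm_le (b : ℂ) (zp E ε - ((2 * d : ℝ) : ℂ))
    rw [h3] at this
    linarith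
  · rw [e]
    refine (norm_sub_le _ _).trans ?_
    rw [h3]
    linarith [abs_nonneg b]

/-- the facts at a site with large potential -/
theorem rmf_big {E ε E1 g : ℝ} (hE : |E| ≤ E1) (hε : 0 < ε) (hε1 : ε ≤ 1) (hg : 0 < g)
    {W : ZZ d → ℝ} (hGF : ∀ x ∈ ball d 2, ∀ y ∈ ball d 2, ‖GF E ε W x y‖ ≤ g) {x : ZZ d}
    (hx : x ∈ ball d 1) (hb0 : 0 < |W x|) (hb1 : 2 * (2 * d + E1 + 1) ≤ |W x|)
    (hb2 : 8 * d * (2 * d * g + 1) ≤ |W x|) :
    (∀ y ∈ ball d 2, |W x| * ‖GF E ε W x y‖ ≤ 2 * (2 * d * g + 1)) ∧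
      1 / (4 * |W x|) ≤ ‖GF E ε W x x‖ ∧
      ‖wv E ε W x‖ ≤ (E1 + 1) + 2 * d + 16 * d * (2 * d * g + 1) := by
  obtain ⟨hβ1, hβ2⟩ := rmf_beta (d := d) hE hε hε1 hb1
  set G0 : ℝ := 2 * d * g + 1 with hG0
  have hd : (0 : ℝ) ≤ d := Nat.cast_nonneg d
  have hG00 : 0 < G0 := by positivity
  have hx2 : x ∈ ball d 2 := ball_mono (by norm_num) hx
  have hrow : ∀ y ∈ ball d 2, |W x| * ‖GF E ε W x y‖ ≤ 2 * G0 := by
    intro y hy
    have h := rmf_row (E := E) hε hGF hx hy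
    have h' : |W x| / 2 * ‖GF E ε W x y‖ ≤ G0 :=
      (mul_le_mul_of_nonneg_right hβ1 (norm_nonneg _)).trans h
    linarith
  have heq := GF_eqn (E := E) hε W x x
  rw [if_pos rfl] at heq
  have hnb : ∀ i, ‖GF E ε W (x + ee d i) x + GF E ε W (x - ee d i) x‖ ≤ 4 * G0 / |W x| := by
    intro i
    refine (norm_add_le _ _).trans ?_
    have h1 := hrow _ (rmf_nb hx i).1
    have h2 := hrow _ (rmf_nb hx i).2
    rw [GF_symm hε W (x + ee d i) x, GF_symm hε W (x - ee d i) x, le_div_iff₀ hb0]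
    linarith
  have hsum : ‖∑ i, (GF E ε W (x + ee d i) x + GF E ε W (x - ee d i) x)‖ ≤ d * (4 * G0 / |W x|) := by
    refine (norm_sum_le _ _).trans ?_
    calc ∑ i, ‖GF E ε W (x + ee d i) x + GF E ε W (x - ee d i) x‖
        ≤ ∑ i : Fin d, 4 * G0 / |W x| := Finset.sum_le_sum fun i _ => hnb i
      _ = _ := by rw [Finset.sum_const, Finset.card_univ, Fintype.card_fin, nsmul_eq_mul]
  have hsum' : ‖∑ i, (GF E ε W (x + ee d i) x + GF E ε W (x - ee d i) x)‖ ≤ 1 / 2 := by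
    refine hsum.trans ?_
    rw [mul_div_assoc', div_le_iff₀ hb0]
    linarith
  have hlow : 1 / 2 ≤ ‖(W x : ℂ) + 2 * d - zp E ε‖ * ‖GF E ε W x x‖ := by
    rw [← norm_mul]
    have e : (1 : ℂ) = ((W x : ℂ) + 2 * d - zp E ε) * GF E ε W x x
        - ∑ i, (GF E ε W (x + ee d i) x + GF E ε W (x - ee d i) x) := heq.symm
    have := norm_sub_le (((W x : ℂ) + 2 * d - zp E ε) * GF E ε W x x)
      (∑ i, (GF E ε W (x + ee d i) x + GF E ε W (x - ee d i) x))
    rw [← e, norm_one] at this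
    linarith
  have hxx : 1 / (4 * |W x|) ≤ ‖GF E ε W x x‖ := by
    rw [div_le_iff₀ (by positivity)]
    have : ‖(W x : ℂ) + 2 * d - zp E ε‖ * ‖GF E ε W x x‖ ≤ 2 * |W x| * ‖GF E ε W x x‖ :=
      mul_le_mul_of_nonneg_right hβ2 (norm_nonneg _)
    linarith
  refine ⟨hrow, hxx, ?_⟩
  have hne := GF_ne (E := E) hε W x
  have hw : wv E ε W x = zp E ε - ((2 * d : ℝ) : ℂ) +
      (∑ i, (GF E ε W (x + ee d i) x + GF E ε W (x - ee d i) x)) * (GF E ε W x x)⁻¹ := by
    unfold wv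
    have : (GF E ε W x x)⁻¹ = ((W x : ℂ) + 2 * d - zp E ε)
        - (∑ i, (GF E ε W (x + ee d i) x + GF E ε W (x - ee d i) x)) * (GF E ε W x x)⁻¹ := by
      field_simp
      linear_combination -heq
    rw [this]
    push_cast
    have h3 : (∑ i, (GF E ε W (x + ee d i) x + GF E ε W (x - ee d i) x)) * (((W x : ℂ) + 2 * d - zp E ε)
        - (∑ i, (GF E ε W (x + ee d i) x + GF E ε W (x - ee d i) x)) * (GF E ε W x x)⁻¹)
        = (∑ i, (GF E ε W (x + ee d i) x + GF E ε W (x - ee d i) x)) * (GF E ε W x x)⁻¹ := by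
      rw [← this]
    rw [h3]
    ring
  rw [hw]
  have hinv : ‖(GF E ε W x x)⁻¹‖ ≤ 4 * |W x| := by
    rw [norm_inv]
    have := one_div_le_one_div_of_le (by positivity) hxx
    rw [one_div_one_div] at this
    rw [← one_div]
    exact this
  refine (norm_add_le _ _).trans (add_le_add ?_ ?_)
  · refine (norm_sub_le _ _).trans (add_le_add (rmf_zp hE hε hε1) ?_)
    rw [Complex.norm_real, Real.norm_eq_abs, abs_of_nonneg (by positivity)]
  · rw [norm_mul]
    calc _ ≤ (d * (4 * G0 / |W x|)) * (4 * |W x|) := by gcongr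
      _ = 16 * d * G0 := by
          field_simp
          ring


/-- two values of the potential control the original vector -/
theorem rmf_two (X : ZZ d →+ ℝ) {E ε E1 g B0 ρ G0 B2 D Kw : ℝ} (hE : |E| ≤ E1) (hε : 0 < ε)
    (hε1 : ε ≤ 1) (hg : 0 < g) (hB0 : 1 ≤ B0) (hρ : 0 < ρ) (hG0 : G0 = 2 * d * g + 1)
    (hB2 : B2 = 2 * (2 * d + E1 + 1) + B0 + 8 * d * G0) (hD : D = B0 + B2)
    (hKw : Kw = (E1 + 1) + 2 * d + 16 * d * G0)
    {W : ZZ d → ℝ} (hGF : ∀ x ∈ ball d 2, ∀ y ∈ ball d 2, ‖GF E ε W x y‖ ≤ g) {x : ZZ d}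
    (hx : x ∈ ball d 1) {s1 s2 : ℝ} (h1 : |s1| ≤ B0) (h2 : |s2| ≤ B0) (h12 : ρ ≤ |s2 - s1|) :
    ‖VV X E ε W 0‖ ^ 2 ≤
      (2 * (D / ρ) ^ 2 * (1 + D * g) ^ 2 + 2 * (4 * G0 * (B0 + Kw) / ρ) ^ 2) *
      (‖VV X E ε (Function.update W x s1) 0‖ ^ 2 + ‖VV X E ε (Function.update W x s2) 0‖ ^ 2) := by
  have hd : (0 : ℝ) ≤ d := Nat.cast_nonneg d
  have hE1 : 0 ≤ E1 := (abs_nonneg E).trans hE
  have hG00 : 0 < G0 := by rw [hG0]; positivity
  have hB20 : 0 < B2 := by rw [hB2]; positivity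
  have hx2 : x ∈ ball d 2 := ball_mono (by norm_num) hx
  have hD0 : 0 ≤ D := by rw [hD]; positivity
  obtain ⟨Q, hQ⟩ : ∃ Q, Q = GF E ε W x x • VV X E ε W 0 - GF E ε W x 0 • VV X E ε W x := ⟨_, rfl⟩
  have e1 := rmz_VV X (E := E) hε W x s1
  have e2 := rmz_VV X (E := E) hε W x s2
  rw [← hQ] at e1 e2
  generalize VV X E ε (Function.update W x s1) 0 = V1 at e1 ⊢
  generalize VV X E ε (Function.update W x s2) 0 = V2 at e2 ⊢
  have hv10 : 0 ≤ ‖V1‖ ^ 2 := sq_nonneg _
  have hv20 : 0 ≤ ‖V2‖ ^ 2 := sq_nonneg _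
  have hM1 : 0 ≤ 2 * (D / ρ) ^ 2 * (1 + D * g) ^ 2 := by positivity
  have hM2 : 0 ≤ 2 * (4 * G0 * (B0 + Kw) / ρ) ^ 2 := by positivity
  have hfin : ∀ (D' m : ℝ), |s1 - W x| ≤ D' → |s2 - W x| ≤ D' →
      ‖1 + ((s1 - W x : ℝ) : ℂ) * GF E ε W x x‖ ^ 2 ≤ m →
      ‖1 + ((s2 - W x : ℝ) : ℂ) * GF E ε W x x‖ ^ 2 ≤ m →
      ‖VV X E ε W 0‖ ^ 2 ≤ 2 * (D' / ρ) ^ 2 * m * (‖V1‖ ^ 2 + ‖V2‖ ^ 2) := by
    intro D' m b1 b2 m1 m2
    have h3 := rmz_affine (VV X E ε W 0) Q (W x) s1 s2 D' ρ hρ b1 b2 h12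
    rw [← e1, ← e2, norm_smul, norm_smul, mul_pow, mul_pow] at h3
    refine h3.trans ?_
    have h4 := mul_le_mul_of_nonneg_right m1 hv10
    have h5 := mul_le_mul_of_nonneg_right m2 hv20
    have h6 : 0 ≤ 2 * (D' / ρ) ^ 2 := by positivity
    calc _ ≤ 2 * (D' / ρ) ^ 2 * (m * ‖V1‖ ^ 2 + m * ‖V2‖ ^ 2) :=
          mul_le_mul_of_nonneg_left (add_le_add h4 h5) h6
      _ = _ := by ring
  by_cases hb : |W x| ≤ B2
  · -- moderate value
    have b1 : |s1 - W x| ≤ D := hD ▸ (abs_sub _ _).trans (add_le_add h1 hb)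
    have b2 : |s2 - W x| ≤ D := hD ▸ (abs_sub _ _).trans (add_le_add h2 hb)
    have hmul : ∀ β, |β - W x| ≤ D →
        ‖1 + ((β - W x : ℝ) : ℂ) * GF E ε W x x‖ ^ 2 ≤ (1 + D * g) ^ 2 := by
      intro β hβ
      refine pow_le_pow_left₀ (norm_nonneg _) ((norm_add_le _ _).trans ?_) 2
      rw [norm_one, norm_mul, Complex.norm_real, Real.norm_eq_abs]
      have := hGF x hx2 x hx2
      gcongr
    refine (hfin D _ b1 b2 (hmul s1 b1) (hmul s2 b2)).trans ?_
    rw [add_mul]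
    exact le_add_of_nonneg_right (mul_nonneg hM2 (add_nonneg hv10 hv20))
  · -- large value
    have hb : B2 < |W x| := not_le.mp hb
    have hb0 : 0 < |W x| := hB20.trans hb
    have hbB : B0 ≤ |W x| := by
      have : 0 ≤ 2 * (2 * d + E1 + 1) + 8 * d * G0 := by positivity
      rw [hB2] at hb
      linarith
    obtain ⟨hrow, hxx, hw⟩ := rmf_big (E1 := E1) hE hε hε1 hg hGF hx hb0 (by
        have : 0 ≤ 8 * d * G0 := by positivity
        rw [hB2] at hb
        linarith) (by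
        have : 0 ≤ 2 * (2 * d + E1 + 1) := by positivity
        rw [hB2] at hb
        rw [← hG0]
        linarith)
    rw [← hG0] at hrow hw
    rw [← hKw] at hw
    have b1 : |s1 - W x| ≤ 2 * |W x| := (abs_sub _ _).trans (by linarith)
    have b2 : |s2 - W x| ≤ 2 * |W x| := (abs_sub _ _).trans (by linarith)
    have hmul : ∀ β : ℝ, |β| ≤ B0 →
        ‖1 + ((β - W x : ℝ) : ℂ) * GF E ε W x x‖ ^ 2 ≤ ((B0 + Kw) * (2 * G0 / |W x|)) ^ 2 := by
      intro β hβ
      refine pow_le_pow_left₀ (norm_nonneg _) ?_ 2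
      rw [rmz_mult hε, norm_mul]
      have h6 : ‖(β : ℂ) - wv E ε W x‖ ≤ B0 + Kw := by
        refine (norm_sub_le _ _).trans (add_le_add ?_ hw)
        rw [Complex.norm_real, Real.norm_eq_abs]
        exact hβ
      have h7 : ‖GF E ε W x x‖ ≤ 2 * G0 / |W x| := by
        rw [le_div_iff₀ hb0, mul_comm]
        exact hrow x hx2
      exact mul_le_mul h6 h7 (norm_nonneg _) ((norm_nonneg _).trans h6)
    refine (hfin _ _ b1 b2 (hmul s1 h1) (hmul s2 h2)).trans ?_
    have e3 : 2 * (2 * |W x| / ρ) ^ 2 * ((B0 + Kw) * (2 * G0 / |W x|)) ^ 2 =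
        2 * (4 * G0 * (B0 + Kw) / ρ) ^ 2 := by
      field_simp
      ring
    rw [e3, add_mul]
    exact le_add_of_nonneg_left (mul_nonneg hM1 (add_nonneg hv10 hv20))

/-- propagation of the bound on the Green function -/
theorem rmf_prop {E ε E1 g B0 c' G0 B2 D m0 : ℝ} (hE : |E| ≤ E1) (hε : 0 < ε) (hε1 : ε ≤ 1)
    (hg : 0 < g) (hB0 : 1 ≤ B0) (hc : 0 < c') (hG0 : G0 = 2 * d * g + 1)
    (hB2 : B2 = 2 * (2 * d + E1 + 1) + B0 + 8 * d * G0) (hD : D = B0 + B2)
    (hm0 : m0 = min (1 / 2) (c' / (2 * D)))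
    {W : ZZ d → ℝ} (hGF : ∀ x ∈ ball d 2, ∀ y ∈ ball d 2, ‖GF E ε W x y‖ ≤ g) {x : ZZ d}
    (hx : x ∈ ball d 1) {β : ℝ} (h1 : |β| ≤ B0) (h2 : c' ≤ ‖(β : ℂ) - wv E ε W x‖) :
    ∀ y ∈ ball d 2, ∀ z ∈ ball d 2, ‖GF E ε (Function.update W x β) y z‖ ≤
      g + D * (g / m0) * g + 32 * G0 ^ 2 / c' := by
  intro y hy z hz
  have hd : (0 : ℝ) ≤ d := Nat.cast_nonneg d
  have hE1 : 0 ≤ E1 := (abs_nonneg E).trans hE
  have hG00 : 0 < G0 := by rw [hG0]; positivity
  have hB20 : 0 < B2 := by rw [hB2]; positivity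
  have hx2 : x ∈ ball d 2 := ball_mono (by norm_num) hx
  have hD0 : 0 < D := by rw [hD]; positivity
  have hm00 : 0 < m0 := by rw [hm0]; exact lt_min (by norm_num) (by positivity)
  have hmeq := rmz_mult_eq (E := E) hε W x z β
  rw [GF_upd hε W x β y z]
  by_cases hb : |W x| ≤ B2
  · have b1 : |β - W x| ≤ D := hD ▸ (abs_sub _ _).trans (add_le_add h1 hb)
    have h3 := rmz_mult_ge (E := E) hε W x β D c' hD0 hc b1 h2
    rw [← hm0] at h3
    have h4 : m0 * ‖GF E ε (Function.update W x β) x z‖ ≤ g := by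
      calc m0 * ‖GF E ε (Function.update W x β) x z‖
          ≤ ‖1 + ((β - W x : ℝ) : ℂ) * GF E ε W x x‖ *
            ‖GF E ε (Function.update W x β) x z‖ := mul_le_mul_of_nonneg_right h3 (norm_nonneg _)
        _ = ‖GF E ε W x z‖ := by rw [← norm_mul, hmeq]
        _ ≤ g := hGF x hx2 z hz
    have h5 : ‖GF E ε (Function.update W x β) x z‖ ≤ g / m0 := by
      rw [le_div_iff₀ hm00, mul_comm]
      exact h4
    have h6 : ‖GF E ε W y z - ((β - W x : ℝ) : ℂ) * GF E ε (Function.update W x β) x z *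
        GF E ε W y x‖ ≤ g + D * (g / m0) * g := by
      refine (norm_sub_le _ _).trans (add_le_add (hGF y hy z hz) ?_)
      rw [norm_mul, norm_mul, Complex.norm_real, Real.norm_eq_abs]
      exact mul_le_mul (mul_le_mul b1 h5 (norm_nonneg _) hD0.le) (hGF y hy x hx2) (norm_nonneg _)
        (by positivity)
    refine h6.trans (le_add_of_nonneg_right (by positivity))
  · have hb : B2 < |W x| := not_le.mp hb
    have hb0 : 0 < |W x| := hB20.trans hb
    have hbB : B0 ≤ |W x| := by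
      have : 0 ≤ 2 * (2 * d + E1 + 1) + 8 * d * G0 := by positivity
      rw [hB2] at hb
      linarith
    obtain ⟨hrow, hxx, -⟩ := rmf_big (E1 := E1) hE hε hε1 hg hGF hx hb0 (by
        have : 0 ≤ 8 * d * G0 := by positivity
        rw [hB2] at hb
        linarith) (by
        have : 0 ≤ 2 * (2 * d + E1 + 1) := by positivity
        rw [hB2] at hb
        rw [← hG0]
        linarith)
    rw [← hG0] at hrow
    have b1 : |β - W x| ≤ 2 * |W x| := (abs_sub _ _).trans (by linarith)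
    have h3 : c' * (1 / (4 * |W x|)) ≤ ‖1 + ((β - W x : ℝ) : ℂ) * GF E ε W x x‖ := by
      rw [rmz_mult hε, norm_mul]
      exact mul_le_mul h2 hxx (by positivity) (norm_nonneg _)
    have h4 : c' * (1 / (4 * |W x|)) * ‖GF E ε (Function.update W x β) x z‖ ≤ 2 * G0 / |W x| := by
      calc c' * (1 / (4 * |W x|)) * ‖GF E ε (Function.update W x β) x z‖
          ≤ ‖1 + ((β - W x : ℝ) : ℂ) * GF E ε W x x‖ *
            ‖GF E ε (Function.update W x β) x z‖ := mul_le_mul_of_nonneg_right h3 (norm_nonneg _)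
        _ = ‖GF E ε W x z‖ := by rw [← norm_mul, hmeq]
        _ ≤ 2 * G0 / |W x| := by
            rw [le_div_iff₀ hb0, mul_comm]
            exact hrow z hz
    have h5 : ‖GF E ε (Function.update W x β) x z‖ ≤ 8 * G0 / c' := by
      rw [le_div_iff₀ hc]
      have e : c' * (1 / (4 * |W x|)) * ‖GF E ε (Function.update W x β) x z‖ =
          ‖GF E ε (Function.update W x β) x z‖ * c' / 4 / |W x| := by
        field_simp
      rw [e] at h4
      have h6 := (div_le_div_iff_of_pos_right hb0).mp h4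
      linarith
    have h7 : |β - W x| * ‖GF E ε W y x‖ ≤ 4 * G0 := by
      rw [GF_symm hε W y x]
      calc |β - W x| * ‖GF E ε W x y‖ ≤ 2 * |W x| * ‖GF E ε W x y‖ :=
            mul_le_mul_of_nonneg_right b1 (norm_nonneg _)
        _ = 2 * (|W x| * ‖GF E ε W x y‖) := by ring
        _ ≤ 2 * (2 * G0) := mul_le_mul_of_nonneg_left (hrow y hy) (by norm_num)
        _ = 4 * G0 := by ring
    have h8 : ‖GF E ε W y z - ((β - W x : ℝ) : ℂ) * GF E ε (Function.update W x β) x z *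
        GF E ε W y x‖ ≤ g + 32 * G0 ^ 2 / c' := by
      refine (norm_sub_le _ _).trans (add_le_add (hGF y hy z hz) ?_)
      rw [norm_mul, norm_mul, Complex.norm_real, Real.norm_eq_abs]
      calc |β - W x| * ‖GF E ε (Function.update W x β) x z‖ * ‖GF E ε W y x‖
          = (|β - W x| * ‖GF E ε W y x‖) * ‖GF E ε (Function.update W x β) x z‖ := by ring
        _ ≤ (4 * G0) * (8 * G0 / c') := mul_le_mul h7 h5 (norm_nonneg _) (by positivity)
        _ = 32 * G0 ^ 2 / c' := by ring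
    refine h8.trans ?_
    have : 0 ≤ D * (g / m0) * g := by positivity
    linarith

/-- the claim proved by induction over `S` -/
def RmfClaim (μ : Measure ℝ) (d : ℕ) (E1 : ℝ) (S : Finset (ZZ d)) : Prop :=
  ∀ g θ : ℝ, 0 < g → 0 < θ → ∃ K : ℝ, 0 < K ∧
    ∀ (X : ZZ d →+ ℝ) (E ε : ℝ), |E| ≤ E1 → 0 < ε → ε ≤ 1 → ∀ W : ZZ d → ℝ,
      (∀ x ∈ ball d 2, ∀ y ∈ ball d 2, ‖GF E ε W x y‖ ≤ g) →
      ∀ B : Set (ZZ d → ℝ), MeasurableSet B → ENNReal.ofReal θ ≤ (PP (ZZ d) μ) B →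
        pv X E ε W 0 ≤ ENNReal.ofReal K * ∫⁻ W' in B, pv X E ε (spl S W' W) 0 ∂(PP (ZZ d) μ)

theorem rmf_base (μ : Measure ℝ) [IsProbabilityMeasure μ] (E1 : ℝ) :
    RmfClaim μ d E1 ∅ := by
  intro g θ hg hθ
  refine ⟨1 / θ, by positivity, fun X E ε hE hε hε1 W hGF B hB hB1 => ?_⟩
  have h1 : ∀ W' : ZZ d → ℝ, spl ∅ W' W = W := by
    intro W'
    funext y
    simp [spl]
  simp only [h1]
  rw [setLIntegral_const]
  calc pv X E ε W 0 = ENNReal.ofReal (1 / θ) * (pv X E ε W 0 * ENNReal.ofReal θ) := by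
        rw [mul_comm (pv X E ε W 0), ← mul_assoc, ← ENNReal.ofReal_mul (by positivity),
          show 1 / θ * θ = 1 by field_simp, ENNReal.ofReal_one, one_mul]
    _ ≤ _ := by gcongr

theorem rmf_step (μ : Measure ℝ) [IsProbabilityMeasure μ] {C : ℝ} (hμ : Full μ C) (E1 : ℝ)
    (hE1 : 0 ≤ E1) (S : Finset (ZZ d)) (x : ZZ d) (hx : x ∈ ball d 1) (hxS : x ∉ S)
    (ih : RmfClaim μ d E1 S) : RmfClaim μ d E1 (insert x S) := by
  classical
  intro g θ hg hθ
  have hC := hμ.C_pos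
  have hd : (0 : ℝ) ≤ d := Nat.cast_nonneg d
  obtain ⟨B0, hB01, hB0⟩ := hμ.tight (θ / 8) (by positivity)
  set c' : ℝ := θ / (16 * C) with hc'
  have hc0 : 0 < c' := by positivity
  obtain ⟨K1, hK1, H1⟩ := rmf_int hμ (θ := θ / 4) (by positivity)
  obtain ⟨G0, hG0⟩ : ∃ G0 : ℝ, G0 = 2 * d * g + 1 := ⟨_, rfl⟩
  obtain ⟨B2, hB2⟩ : ∃ B2 : ℝ, B2 = 2 * (2 * d + E1 + 1) + B0 + 8 * d * G0 := ⟨_, rfl⟩
  obtain ⟨D, hD⟩ : ∃ D : ℝ, D = B0 + B2 := ⟨_, rfl⟩
  obtain ⟨Kw, hKw⟩ : ∃ Kw : ℝ, Kw = (E1 + 1) + 2 * d + 16 * d * G0 := ⟨_, rfl⟩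
  obtain ⟨m0, hm0⟩ : ∃ m0 : ℝ, m0 = min (1 / 2) (c' / (2 * D)) := ⟨_, rfl⟩
  have hG00 : 0 < G0 := by rw [hG0]; positivity
  have hB20 : 0 < B2 := by rw [hB2]; positivity
  have hD0 : 0 < D := by rw [hD]; positivity
  have hKw0 : 0 < Kw := by rw [hKw]; positivity
  have hm00 : 0 < m0 := by rw [hm0]; exact lt_min (by norm_num) (by positivity)
  obtain ⟨KS, hKS, HS⟩ := ih (g + D * (g / m0) * g + 32 * G0 ^ 2 / c') (θ / 2) (by positivity)
    (by positivity)
  set ρ : ℝ := (θ / 4) / (4 * C) with hρ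
  have hρ0 : 0 < ρ := by positivity
  obtain ⟨M, hM⟩ : ∃ M : ℝ, M = 2 * (D / ρ) ^ 2 * (1 + D * g) ^ 2 +
    2 * (4 * G0 * (B0 + Kw) / ρ) ^ 2 := ⟨_, rfl⟩
  have hM0 : 0 < M := by rw [hM]; positivity
  refine ⟨K1 * M * KS, by positivity, fun X E ε hE hε hε1 W hGF B hB hB1 => ?_⟩
  -- the slices
  have hSm : MeasurableSet {p : ℝ × (ZZ d → ℝ) | Function.update p.2 x p.1 ∈ B} := by
    have h1 : Measurable fun p : ℝ × (ZZ d → ℝ) => Function.update p.2 x p.1 :=
      (upd_meas_at x).comp measurable_swap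
    exact h1 hB
  have hsl : Measurable fun β : ℝ => (PP (ZZ d) μ) {W' | Function.update W' x β ∈ B} :=
    measurable_measure_prodMk_left hSm
  have hslm : ∀ β : ℝ, MeasurableSet {W' : ZZ d → ℝ | Function.update W' x β ∈ B} := by
    intro β
    exact measurable_prodMk_left hSm
  have hindic : ∀ f : (ZZ d → ℝ) → ℝ≥0∞, Measurable f →
      ∫⁻ β, ∫⁻ W' in {W' | Function.update W' x β ∈ B}, f (Function.update W' x β) ∂(PP (ZZ d) μ) ∂μ
        = ∫⁻ W' in B, f W' ∂(PP (ZZ d) μ) := by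
    intro f hf
    rw [← lintegral_indicator hB, ← lint_upd μ x (hf.indicator hB)]
    rw [lintegral_lintegral_swap]
    · apply lintegral_congr
      intro β
      rw [← lintegral_indicator (hslm β)]
      apply lintegral_congr
      intro W'
      by_cases h : Function.update W' x β ∈ B
      · rw [indicator_of_mem (show W' ∈ {W' | Function.update W' x β ∈ B} from h),
          indicator_of_mem h]
      · rw [indicator_of_notMem (show W' ∉ {W' | Function.update W' x β ∈ B} from h),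
          indicator_of_notMem h]
    · exact ((hf.indicator hB).comp (upd_meas_at x)).aemeasurable
  set A : Set ℝ := {β | ENNReal.ofReal (θ / 2) ≤ (PP (ZZ d) μ) {W' | Function.update W' x β ∈ B}}
    with hA
  have hAm : MeasurableSet A := measurableSet_le measurable_const hsl
  have hA1 : ENNReal.ofReal (θ / 2) ≤ μ A := by
    have h1 := hindic (fun _ => 1) measurable_const
    simp only [lintegral_const, one_mul, Measure.restrict_apply MeasurableSet.univ, univ_inter]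
      at h1
    have h2 : (PP (ZZ d) μ) B ≤ μ A + ENNReal.ofReal (θ / 2) := by
      rw [← h1, ← lintegral_add_compl _ hAm]
      gcongr
      · calc ∫⁻ β in A, (PP (ZZ d) μ) {W' | Function.update W' x β ∈ B} ∂μ
            ≤ ∫⁻ β in A, 1 ∂μ := by
              apply setLIntegral_mono measurable_const
              intro β _
              exact prob_le_one
          _ = μ A := by rw [setLIntegral_const, one_mul]
      · calc ∫⁻ β in Aᶜ, (PP (ZZ d) μ) {W' | Function.update W' x β ∈ B} ∂μ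
            ≤ ∫⁻ β in Aᶜ, ENNReal.ofReal (θ / 2) ∂μ := by
              apply setLIntegral_mono measurable_const
              intro β hβ
              exact (not_le.1 (show ¬ ENNReal.ofReal (θ / 2) ≤
                (PP (ZZ d) μ) {W' | Function.update W' x β ∈ B} from hβ)).le
          _ = ENNReal.ofReal (θ / 2) * μ Aᶜ := by rw [setLIntegral_const]
          _ ≤ ENNReal.ofReal (θ / 2) * 1 := by gcongr; exact prob_le_one
          _ = ENNReal.ofReal (θ / 2) := mul_one _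
    have h3 : ENNReal.ofReal (θ / 2) + ENNReal.ofReal (θ / 2) ≤ μ A + ENNReal.ofReal (θ / 2) := by
      rw [← ENNReal.ofReal_add (by positivity) (by positivity), add_halves]
      exact hB1.trans h2
    exact (ENNReal.add_le_add_iff_right ENNReal.ofReal_ne_top).1 h3
  set A' : Set ℝ := (A ∩ {β : ℝ | |β| ≤ B0}) \ {β : ℝ | ‖(β : ℂ) - wv E ε W x‖ < c'} with hA'
  have hBm : MeasurableSet {β : ℝ | |β| ≤ B0} := measurableSet_le measurable_norm measurable_const
  have hA'm : MeasurableSet A' := by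
    apply (hAm.inter hBm).diff
    apply measurableSet_lt _ measurable_const
    exact (Complex.measurable_ofReal.sub_const _).norm
  have hA'1 : ENNReal.ofReal (θ / 4) ≤ μ A' := by
    have h1 : μ {β : ℝ | ‖(β : ℂ) - wv E ε W x‖ < c'} ≤ ENNReal.ofReal (θ / 8) := by
      have hsub : {β : ℝ | ‖(β : ℂ) - wv E ε W x‖ < c'} ⊆
          {β : ℝ | ‖(β : ℂ) - wv E ε W x‖ ≤ c'} := by
        intro β hβ
        simp only [mem_setOf_eq] at hβ ⊢
        exact hβ.le
      refine (measure_mono hsub).trans ((hμ.win _ _).trans ?_)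
      apply le_of_eq
      congr 1
      rw [hc']
      field_simp
      ring
    have h2 : μ A ≤ μ A' + ENNReal.ofReal (θ / 8) + ENNReal.ofReal (θ / 8) := by
      calc μ A ≤ μ ((A' ∪ {β : ℝ | ‖(β : ℂ) - wv E ε W x‖ < c'}) ∪ {β : ℝ | B0 < |β|}) := by
            apply measure_mono
            intro β hβ
            by_cases h3 : |β| ≤ B0
            · left
              by_cases h4 : ‖(β : ℂ) - wv E ε W x‖ < c'
              · right; exact h4
              · left; exact ⟨⟨hβ, h3⟩, h4⟩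
            · right; exact not_le.mp h3
        _ ≤ μ (A' ∪ {β : ℝ | ‖(β : ℂ) - wv E ε W x‖ < c'}) + μ {β : ℝ | B0 < |β|} :=
          measure_union_le _ _
        _ ≤ μ A' + μ {β : ℝ | ‖(β : ℂ) - wv E ε W x‖ < c'} + μ {β : ℝ | B0 < |β|} := by
          gcongr
          exact measure_union_le _ _
        _ ≤ _ := by gcongr
    have h3 : ENNReal.ofReal (θ / 4) + ENNReal.ofReal (θ / 4) ≤ μ A' + ENNReal.ofReal (θ / 4) := by
      rw [← ENNReal.ofReal_add (by positivity) (by positivity), show θ / 4 + θ / 4 = θ / 2 by ring]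
      refine hA1.trans (h2.trans (le_of_eq ?_))
      rw [add_assoc, ← ENNReal.ofReal_add (by positivity) (by positivity),
        show θ / 8 + θ / 8 = θ / 4 by ring]
    exact (ENNReal.add_le_add_iff_right ENNReal.ofReal_ne_top).1 h3
  -- one site
  have hone : pv X E ε W 0 ≤ ENNReal.ofReal (K1 * M) *
      ∫⁻ β in A', pv X E ε (Function.update W x β) 0 ∂μ := by
    have h1 := H1 (pv X E ε W 0)
      (fun β => ENNReal.ofReal M * pv X E ε (Function.update W x β) 0) (by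
        apply Measurable.const_mul
        have h2 : Measurable fun β : ℝ => Function.update W x β :=
          (upd_meas_at x).comp measurable_prodMk_left
        exact (pv_meas X E hε 0).comp h2) A' hA'm hA'1 (by
        intro s1 hs1 s2 hs2 h12
        have h6 := rmf_two X (E1 := E1) hE hε hε1 hg hB01 hρ0 hG0 hB2 hD hKw hGF hx hs1.1.2 hs2.1.2 h12
        rw [← hM] at h6
        unfold pv
        rw [← ENNReal.ofReal_mul hM0.le, ← ENNReal.ofReal_mul hM0.le,
          ← ENNReal.ofReal_add (by positivity) (by positivity)]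
        refine ENNReal.ofReal_le_ofReal (h6.trans (le_of_eq ?_))
        ring)
    refine h1.trans (le_of_eq ?_)
    rw [lintegral_const_mul' _ _ ENNReal.ofReal_ne_top, ← mul_assoc,
      ← ENNReal.ofReal_mul hK1.le]
  -- the other sites
  have hrest : ∀ β ∈ A', pv X E ε (Function.update W x β) 0 ≤ ENNReal.ofReal KS *
      ∫⁻ W' in {W' | Function.update W' x β ∈ B},
        pv X E ε (spl (insert x S) (Function.update W' x β) W) 0 ∂(PP (ZZ d) μ) := by
    intro β hβ
    have h1 := HS X E ε hE hε hε1 (Function.update W x β)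
      (rmf_prop (E1 := E1) hE hε hε1 hg hB01 hc0 hG0 hB2 hD hm0 hGF hx hβ.1.2 (not_lt.1 hβ.2))
      {W' | Function.update W' x β ∈ B} (hslm β) hβ.1.1
    refine h1.trans (le_of_eq ?_)
    congr 1
    apply lintegral_congr
    intro W'
    congr 1
    funext y
    unfold spl
    by_cases hy : y = x
    · subst hy
      rw [if_neg hxS, if_pos (Finset.mem_insert_self _ _), Function.update_self,
        Function.update_self]
    · rw [Function.update_of_ne hy, Function.update_of_ne hy]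
      by_cases hyS : y ∈ S
      · rw [if_pos hyS, if_pos (Finset.mem_insert_of_mem hyS)]
      · rw [if_neg hyS, if_neg (by
          rw [Finset.mem_insert]
          rintro (h | h)
          · exact hy h
          · exact hyS h)]
  have hfm : Measurable fun W' : ZZ d → ℝ => pv X E ε (spl (insert x S) W' W) 0 :=
    (pv_meas X E hε 0).comp (spl_meas_left (insert x S) W)
  have hgm : Measurable fun β : ℝ => ∫⁻ W' in {W' | Function.update W' x β ∈ B},
      pv X E ε (spl (insert x S) (Function.update W' x β) W) 0 ∂(PP (ZZ d) μ) := by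
    have h3 : (fun β : ℝ => ∫⁻ W' in {W' | Function.update W' x β ∈ B},
        pv X E ε (spl (insert x S) (Function.update W' x β) W) 0 ∂(PP (ZZ d) μ)) =
        fun β : ℝ => ∫⁻ W', B.indicator (fun W' => pv X E ε (spl (insert x S) W' W) 0)
          (Function.update W' x β) ∂(PP (ZZ d) μ) := by
      funext β
      rw [← lintegral_indicator (hslm β)]
      apply lintegral_congr
      intro W'
      by_cases h : Function.update W' x β ∈ B
      · rw [indicator_of_mem (show W' ∈ {W' | Function.update W' x β ∈ B} from h),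
          indicator_of_mem h]
      · rw [indicator_of_notMem (show W' ∉ {W' | Function.update W' x β ∈ B} from h),
          indicator_of_notMem h]
    rw [h3]
    apply Measurable.lintegral_prod_right'
      (f := fun p : ℝ × (ZZ d → ℝ) => B.indicator
        (fun W' => pv X E ε (spl (insert x S) W' W) 0) (Function.update p.2 x p.1))
    exact (hfm.indicator hB).comp ((upd_meas_at x).comp measurable_swap)
  calc pv X E ε W 0 ≤ ENNReal.ofReal (K1 * M) *
        ∫⁻ β in A', pv X E ε (Function.update W x β) 0 ∂μ := hone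
    _ ≤ ENNReal.ofReal (K1 * M) * ∫⁻ β in A', ENNReal.ofReal KS *
        ∫⁻ W' in {W' | Function.update W' x β ∈ B},
          pv X E ε (spl (insert x S) (Function.update W' x β) W) 0 ∂(PP (ZZ d) μ) ∂μ := by
        gcongr 1
        exact setLIntegral_mono (hgm.const_mul _) hrest
    _ = ENNReal.ofReal (K1 * M * KS) * ∫⁻ β in A',
        ∫⁻ W' in {W' | Function.update W' x β ∈ B},
          pv X E ε (spl (insert x S) (Function.update W' x β) W) 0 ∂(PP (ZZ d) μ) ∂μ := by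
        rw [lintegral_const_mul' _ _ ENNReal.ofReal_ne_top, ← mul_assoc,
          ← ENNReal.ofReal_mul (by positivity)]
    _ ≤ ENNReal.ofReal (K1 * M * KS) * ∫⁻ β,
        ∫⁻ W' in {W' | Function.update W' x β ∈ B},
          pv X E ε (spl (insert x S) (Function.update W' x β) W) 0 ∂(PP (ZZ d) μ) ∂μ := by
        gcongr 1
        exact setLIntegral_le_lintegral _ _
    _ = _ := by rw [hindic _ hfm]

/-- F8 -/
theorem remezF : StmtRemezF := by
  intro μ _ C hμ d E1 g θ hE1 hg hθ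
  have h : ∀ S : Finset (ZZ d), S ⊆ ball d 1 → RmfClaim μ d E1 S := by
    classical
    intro S
    induction S using Finset.induction_on with
    | empty => intro _; exact rmf_base μ E1
    | insert x S hxS ih =>
      intro hS
      exact rmf_step μ hμ E1 hE1 S x (hS (Finset.mem_insert_self _ _)) hxS
        (ih ((Finset.subset_insert _ _).trans hS))
  exact h (ball d 1) subset_rfl g θ hg hθ

end Pool.SU
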