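import Mathlib
import Pool.Agent.SU.FDefs

/-!
# F16: iteration of the integrated inequality with an error `K * ε ^ p`
-/

set_option autoImplicit false
set_option linter.unusedSectionVars false

open Complex MeasureTheory Filter Topology Set ContinuousLinearMap
open scoped InnerProductSpace ENNReal NNReal

namespace Pool.SU

open Pool.NB Pool.SB

/-- real iteration lemma -/
lemma smf_iter (N : ℝ → ℝ) (h0 : ∀ ε, 0 ≤ N ε)
    (hmono : ∀ x y : ℝ, 0 < x → x ≤ y → N x ≤ N y) {K p : ℝ} (hK : 0 < K) (hp : 0 < p)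
    (h : ∀ ε : ℝ, 0 < ε → ε ≤ 1 → N ε ≤ K * (N ε - N (ε / 2)) + K * ε ^ p) :
    ∃ k : ℝ, 0 < k ∧ ∃ A : ℝ, 0 ≤ A ∧ ∀ ε : ℝ, 0 < ε → ε ≤ 1 → N ε ≤ A * ε ^ k := by
  set ρ : ℝ := (1 / 2 : ℝ) ^ p with hρ
  have hρ0 : 0 < ρ := Real.rpow_pos_of_pos (by norm_num) _
  have hρ1 : ρ < 1 := Real.rpow_lt_one (by norm_num) (by norm_num) hp
  set θ : ℝ := max (1 - 1 / K) ((1 + ρ) / 2) with hθ
  have hθ1 : θ < 1 := by
    apply max_lt
    · have : 0 < 1 / K := by positivity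
      linarith
    · linarith
  have hθh : (1 + ρ) / 2 ≤ θ := le_max_right _ _
  have hθ0 : 0 < θ := lt_of_lt_of_le (by linarith) hθh
  set c : ℝ := 2 / (1 - ρ) with hc
  have hρ' : 0 < 1 - ρ := by linarith
  have hc0 : 0 < c := by positivity
  have hcρ : 1 + c * ρ ≤ θ * c := by
    have h1 : (1 + ρ) / 2 * c ≤ θ * c := mul_le_mul_of_nonneg_right hθh hc0.le
    have h2 : 1 + c * ρ = (1 + ρ) / 2 * c := by
      rw [hc]
      field_simp
      ring
    linarith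
  set F : ℝ → ℝ := fun ε => N ε + c * ε ^ p with hF
  have hF0 : ∀ ε, 0 < ε → 0 ≤ F ε := fun ε hε => by
    simp only [hF]
    have := h0 ε
    positivity
  have step : ∀ ε : ℝ, 0 < ε → ε ≤ 1 → F (ε / 2) ≤ θ * F ε := by
    intro ε h1 h2
    have h3 := h ε h1 h2
    have h4 : N (ε / 2) ≤ (1 - 1 / K) * N ε + ε ^ p := by
      have h5 : K * N (ε / 2) ≤ K * ((1 - 1 / K) * N ε + ε ^ p) := by
        have : K * ((1 - 1 / K) * N ε + ε ^ p) = K * N ε - N ε + K * ε ^ p := by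
          field_simp
        rw [this]; linarith
      exact le_of_mul_le_mul_left h5 hK
    have h6 : (1 - 1 / K) * N ε ≤ θ * N ε :=
      mul_le_mul_of_nonneg_right (le_max_left _ _) (h0 ε)
    have hεp : 0 < ε ^ p := Real.rpow_pos_of_pos h1 _
    have h7 : (ε / 2) ^ p = ρ * ε ^ p := by
      rw [hρ, ← Real.mul_rpow (by norm_num) h1.le]
      congr 1
      ring
    have h8 := mul_le_mul_of_nonneg_right hcρ hεp.le
    simp only [hF]
    rw [h7]
    nlinarith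
  have iter : ∀ j : ℕ, F ((1 / 2) ^ j) ≤ θ ^ j * F 1 := by
    intro j
    induction j with
    | zero => simp
    | succ j ih =>
      have h1 := step ((1 / 2) ^ j) (by positivity) (pow_le_one₀ (by norm_num) (by norm_num))
      have e1 : ((1:ℝ) / 2) ^ (j + 1) = (1 / 2) ^ j / 2 := by ring
      rw [e1]
      calc _ ≤ θ * F ((1 / 2) ^ j) := h1
        _ ≤ θ * (θ ^ j * F 1) := by gcongr
        _ = _ := by ring
  set k : ℝ := Real.log θ / Real.log (1 / 2) with hk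
  have hl2 : Real.log (1 / 2) < 0 := Real.log_neg (by norm_num) (by norm_num)
  have hlθ : Real.log θ < 0 := Real.log_neg hθ0 hθ1
  have hkpos : 0 < k := div_pos_of_neg_of_neg hlθ hl2
  have hθk : θ = (1 / 2 : ℝ) ^ k := by
    rw [Real.rpow_def_of_pos (by norm_num), hk, mul_div_cancel₀ _ hl2.ne, Real.exp_log hθ0]
  have hF1 : 0 ≤ F 1 := hF0 1 one_pos
  refine ⟨k, hkpos, 2 ^ k * F 1, mul_nonneg (by positivity) hF1, ?_⟩
  intro ε h1 h2
  obtain ⟨j, hj1, hj2⟩ := exists_nat_pow_near_of_lt_one h1 h2 (by norm_num : (0:ℝ) < 1 / 2)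
    (by norm_num : (1:ℝ) / 2 < 1)
  calc N ε ≤ N ((1 / 2) ^ j) := hmono _ _ h1 hj2
    _ ≤ F ((1 / 2) ^ j) := by
      simp only [hF]
      have : 0 ≤ c * (((1:ℝ) / 2) ^ j) ^ p := by positivity
      linarith
    _ ≤ θ ^ j * F 1 := iter j
    _ ≤ (2 ^ k * ε ^ k) * F 1 := by
      refine mul_le_mul_of_nonneg_right ?_ hF1
      rw [hθk, ← Real.rpow_natCast, ← Real.rpow_mul (by norm_num), mul_comm k,
        Real.rpow_mul (by norm_num), Real.rpow_natCast, ← Real.mul_rpow (by norm_num) h1.le]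
      refine Real.rpow_le_rpow (by positivity) ?_ hkpos.le
      have : ((1:ℝ) / 2) ^ (j + 1) = (1 / 2) ^ j / 2 := by ring
      rw [this] at hj1
      linarith
    _ = _ := by ring

theorem SMF_of (hNI : StmtNIF) : StmtSMF := by
  intro μ _ C hμ d hd X
  obtain ⟨K, p, hK, hp, hN⟩ := hNI μ C hμ d hd X
  obtain ⟨k, hk, A, hA, hN⟩ := smf_iter (fun ε => NI μ (ee d) X ε)
    (fun ε => NI_nonneg μ (ee d) X ε) (fun x y hx hxy => NI_mono μ (ee d) X hx hxy) hK hp hN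
  refine ⟨2 * k / (k + 2), by positivity, 2 * A + 2 * ‖Vel (ee d) X‖ ^ 2, fun t ht => ?_⟩
  have ht0 : 0 < t := by linarith
  set ε : ℝ := t ^ (-(2 / (k + 2))) with hε
  have hε0 : 0 < ε := Real.rpow_pos_of_pos ht0 _
  have hε1 : ε ≤ 1 := Real.rpow_le_one_of_one_le_of_nonpos ht (by
    have : 0 < 2 / (k + 2) := by positivity
    linarith)
  refine (SM_avg μ (ee d) X hε0 ht0.le).trans (ENNReal.ofReal_le_ofReal ?_)
  have e1 : t ^ 2 * ε ^ k = t ^ (2 - 2 * k / (k + 2)) := by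
    rw [hε, ← Real.rpow_mul ht0.le, ← Real.rpow_natCast, ← Real.rpow_add ht0]
    congr 1
    push_cast
    ring
  have e2 : (1 / ε) ^ 2 = t ^ (2 - 2 * k / (k + 2)) := by
    rw [one_div, hε, ← Real.rpow_neg ht0.le, ← Real.rpow_natCast, ← Real.rpow_mul ht0.le]
    congr 1
    push_cast
    field_simp
    ring
  calc 2 * t ^ 2 * NI μ (ee d) X ε + 2 * (‖Vel (ee d) X‖ / ε) ^ 2
      ≤ 2 * t ^ 2 * (A * ε ^ k) + 2 * (‖Vel (ee d) X‖ / ε) ^ 2 := by
        gcongr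
        exact hN ε hε0 hε1
    _ = 2 * A * (t ^ 2 * ε ^ k) + 2 * ‖Vel (ee d) X‖ ^ 2 * (1 / ε) ^ 2 := by
        rw [div_pow, div_pow]; ring
    _ = _ := by rw [e1, e2]; ring

end Pool.SU
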