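import Pool.Agent.SU.FDefs
import Pool.Agent.SU.Single

/-!
# F1: the single site inequality for laws with full support
-/

set_option autoImplicit false
set_option linter.unusedSectionVars false
set_option linter.unusedSimpArgs false

open Complex MeasureTheory Filter Topology Set
open scoped InnerProductSpace ENNReal NNReal

namespace Pool.SU

open Pool.NB Pool.SB

theorem singleF : StmtSingleF := by
  intro μ _ C hU K hK
  obtain ⟨hhi, hlo', _⟩ := hU
  obtain ⟨c, hc, hlo⟩ := hlo' K hK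
  set a : ℝ := -K with ha
  set b : ℝ := K with hb
  have hab : a < b := by
    rw [ha, hb]
    linarith
  set ℓ := min 1 ((b - a) / K) with hℓ
  have hℓ0 : 0 < ℓ := lt_min one_pos (div_pos (by linarith) hK)
  have hℓ1 : ℓ ≤ 1 := min_le_left _ _
  set η := ℓ / 3 with hη
  have hη0 : 0 < η := by positivity
  have hη1 : η ≤ 1 := by
    rw [hη]
    linarith
  set M := K + 1 with hM
  set C1 := 3 * (sglC M η * (M ^ 2 + 1)) ^ 2 with hC1
  have hC10 : 0 ≤ C1 := by positivity
  have hpi := Real.pi_pos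
  refine ⟨(|C| + 1) * Real.pi * (3 * (C1 + 1)) / (η * c), by positivity, ?_⟩
  intro w hw d A A0
  have hv : 0 < w.im := hw.1
  have hne : w.im ≠ 0 := hv.ne'
  -- comparison of the measures
  have hm1 : ENNReal.ofReal c • (volume.restrict (Icc a b)) ≤ μ := by
    refine Measure.le_iff.2 fun S hS => ?_
    rw [Measure.smul_apply, Measure.restrict_apply hS, smul_eq_mul]
    exact hlo S hS
  have hm2 : μ ≤ ENNReal.ofReal C • (volume : Measure ℝ) := by
    refine Measure.le_iff.2 fun S hS => ?_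
    rw [Measure.smul_apply, smul_eq_mul]
    exact hhi S hS
  set g : ℝ → ℝ≥0∞ := fun β => ENNReal.ofReal (‖sglG A A0 w β‖ ^ 2) with hg
  have hgm : Measurable g := by
    have h1 : Continuous fun β => ‖sglG A A0 w β‖ ^ 2 := (sgl_cont A A0 w hv).norm.pow 2
    exact ENNReal.measurable_ofReal.comp h1.measurable
  have hlow : ENNReal.ofReal c * ∫⁻ β in Icc a b, g β ≤ ∫⁻ β, g β ∂μ := by
    rw [← smul_eq_mul, ← lintegral_smul_measure]
    exact lintegral_mono' hm1 le_rfl
  -- the left-hand side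
  have hleft : ∫⁻ β : ℝ, ENNReal.ofReal (‖((β : ℂ) - w)⁻¹‖ ^ 2) ∂μ ≤
      ENNReal.ofReal ((|C| + 1) * (Real.pi / w.im)) := by
    calc ∫⁻ β : ℝ, ENNReal.ofReal (‖((β : ℂ) - w)⁻¹‖ ^ 2) ∂μ
        ≤ ∫⁻ β : ℝ, ENNReal.ofReal (‖((β : ℂ) - w)⁻¹‖ ^ 2)
          ∂(ENNReal.ofReal C • (volume : Measure ℝ)) := lintegral_mono' hm2 le_rfl
      _ = ENNReal.ofReal C * ∫⁻ β : ℝ, ENNReal.ofReal (‖((β : ℂ) - w)⁻¹‖ ^ 2) :=
          lintegral_smul_measure _ _
      _ ≤ ENNReal.ofReal (|C| + 1) * ENNReal.ofReal (Real.pi / w.im) := by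
          rw [← sgl_lorentz w hv]
          refine mul_le_mul' (ENNReal.ofReal_le_ofReal ?_) le_rfl
          have := le_abs_self C
          linarith
      _ = ENNReal.ofReal ((|C| + 1) * (Real.pi / w.im)) :=
          (ENNReal.ofReal_mul (by positivity)).symm
  obtain ⟨s, hs⟩ := sgl_interval a b K hab w hK hw
  -- the pointwise inequality
  have hpt : ∀ β ∈ Icc s (s + η * w.im), ENNReal.ofReal (‖A‖ ^ 2) ≤
      ENNReal.ofReal (C1 * w.im ^ 2) * (g (β + 0) + g (β + η * w.im) + g (β + 2 * η * w.im)) := by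
    intro β hβ
    have h0 := (hs β 0 hβ le_rfl (by positivity)).2
    have h1 := (hs β (η * w.im) hβ (by positivity) (by rw [hη]; nlinarith)).2
    have h2 := (hs β (2 * η * w.im) hβ (by positivity) (le_of_eq (by ring))).2
    rw [add_zero] at h0
    have h3 := sgl_pt A A0 w hv β η M hη0 hη1 h0 h1 h2
    have e1 : 3 * (sglC M η * (w.im * (M ^ 2 + 1))) ^ 2 = C1 * w.im ^ 2 := by
      rw [hC1]
      ring
    rw [e1] at h3
    have h4 := ENNReal.ofReal_le_ofReal h3
    rw [ENNReal.ofReal_mul (by positivity), ENNReal.ofReal_add (by positivity) (by positivity),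
      ENNReal.ofReal_add (by positivity) (by positivity)] at h4
    rw [add_zero]
    exact h4
  have hint : ENNReal.ofReal (η * w.im) * ENNReal.ofReal (‖A‖ ^ 2) ≤
      ENNReal.ofReal (C1 * w.im ^ 2) * (3 * ∫⁻ β in Icc a b, g β) := by
    calc ENNReal.ofReal (η * w.im) * ENNReal.ofReal (‖A‖ ^ 2)
        = ∫⁻ _β in Icc s (s + η * w.im), ENNReal.ofReal (‖A‖ ^ 2) := by
          rw [setLIntegral_const, Real.volume_Icc, add_sub_cancel_left, mul_comm]
      _ ≤ ∫⁻ β in Icc s (s + η * w.im), ENNReal.ofReal (C1 * w.im ^ 2) *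
          (g (β + 0) + g (β + η * w.im) + g (β + 2 * η * w.im)) :=
          setLIntegral_mono' measurableSet_Icc hpt
      _ = ENNReal.ofReal (C1 * w.im ^ 2) * ((∫⁻ β in Icc s (s + η * w.im), g (β + 0)) +
          (∫⁻ β in Icc s (s + η * w.im), g (β + η * w.im)) +
          (∫⁻ β in Icc s (s + η * w.im), g (β + 2 * η * w.im))) := by
          rw [lintegral_const_mul' _ _ ENNReal.ofReal_ne_top, lintegral_add_right,
            lintegral_add_right]
          · exact hgm.comp (measurable_id.add_const _)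
          · exact hgm.comp (measurable_id.add_const _)
      _ ≤ ENNReal.ofReal (C1 * w.im ^ 2) * ((∫⁻ β in Icc a b, g β) + (∫⁻ β in Icc a b, g β) +
          (∫⁻ β in Icc a b, g β)) := by
          refine mul_le_mul' le_rfl (add_le_add (add_le_add ?_ ?_) ?_)
          · exact sgl_shift g a b s (η * w.im) 0 fun β hβ => (hs β 0 hβ le_rfl (by positivity)).1
          · exact sgl_shift g a b s (η * w.im) (η * w.im) fun β hβ =>
              (hs β (η * w.im) hβ (by positivity) (by rw [hη]; nlinarith)).1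
          · exact sgl_shift g a b s (η * w.im) (2 * η * w.im) fun β hβ =>
              (hs β (2 * η * w.im) hβ (by positivity) (le_of_eq (by ring))).1
      _ = _ := by ring
  -- assembly
  set J := ∫⁻ β in Icc a b, g β with hJ
  have hA : ENNReal.ofReal (‖A‖ ^ 2) ≤ ENNReal.ofReal (3 * (C1 + 1) * w.im / (η * c)) *
      ∫⁻ β, g β ∂μ := by
    have e1 : ENNReal.ofReal (‖A‖ ^ 2) = ENNReal.ofReal ((η * w.im)⁻¹) *
        (ENNReal.ofReal (η * w.im) * ENNReal.ofReal (‖A‖ ^ 2)) := by
      rw [← mul_assoc, ← ENNReal.ofReal_mul (by positivity), inv_mul_cancel₀ (by positivity),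
        ENNReal.ofReal_one, one_mul]
    have e2 : J = ENNReal.ofReal c⁻¹ * (ENNReal.ofReal c * J) := by
      rw [← mul_assoc, ← ENNReal.ofReal_mul (by positivity), inv_mul_cancel₀ (by positivity),
        ENNReal.ofReal_one, one_mul]
    calc ENNReal.ofReal (‖A‖ ^ 2)
        ≤ ENNReal.ofReal ((η * w.im)⁻¹) * (ENNReal.ofReal (C1 * w.im ^ 2) * (3 * J)) := by
          rw [e1]
          exact mul_le_mul' le_rfl hint
      _ = ENNReal.ofReal (3 * C1 * w.im / (η * c)) * (ENNReal.ofReal c * J) := by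
          conv_lhs => rw [e2]
          have e3 : (3 : ℝ≥0∞) = ENNReal.ofReal 3 := by norm_num
          rw [e3]
          simp only [← mul_assoc]
          rw [← ENNReal.ofReal_mul (by positivity), ← ENNReal.ofReal_mul (by positivity),
            ← ENNReal.ofReal_mul (by positivity)]
          congr 3
          field_simp
      _ ≤ ENNReal.ofReal (3 * (C1 + 1) * w.im / (η * c)) * ∫⁻ β, g β ∂μ := by
          refine mul_le_mul' (ENNReal.ofReal_le_ofReal ?_) hlow
          gcongr
          linarith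
  calc (∫⁻ β : ℝ, ENNReal.ofReal (‖((β : ℂ) - w)⁻¹‖ ^ 2) ∂μ) * ENNReal.ofReal (‖A‖ ^ 2)
      ≤ ENNReal.ofReal ((|C| + 1) * (Real.pi / w.im)) *
        (ENNReal.ofReal (3 * (C1 + 1) * w.im / (η * c)) * ∫⁻ β, g β ∂μ) := mul_le_mul' hleft hA
    _ = ENNReal.ofReal ((|C| + 1) * Real.pi * (3 * (C1 + 1)) / (η * c)) * ∫⁻ β, g β ∂μ := by
        rw [← mul_assoc, ← ENNReal.ofReal_mul (by positivity)]
        congr 2
        field_simp

end Pool.SU
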