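import Mathlib
import Pool.Agent.SU.FDefs
import Pool.Agent.SU.Base

/-!
# F14: tail of the spectral measure
-/

set_option autoImplicit false
set_option linter.unusedSectionVars false
set_option linter.unusedVariables false

open Complex MeasureTheory Filter Topology Set ContinuousLinearMap
open scoped InnerProductSpace ENNReal NNReal

namespace Pool.SU

open Pool.NB Pool.SB

variable {d : ℕ}

lemma tl_eqn {E ε : ℝ} (hε : 0 < ε) (W : ZZ d → ℝ) :
    ((W 0 : ℂ) + 2 * d - zp E ε) • Rp (ee d) E ε W (dl 0)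
      = dl 0 + ∑ i, (Rp (ee d) E ε W (dl (ee d i)) + Rp (ee d) E ε W (dl (-ee d i))) := by
  apply ell_ext; intro q
  rw [lp.coeFn_add, Pi.add_apply, lp.coeFn_smul, Pi.smul_apply, smul_eq_mul, lp.coeFn_sum,
    Finset.sum_apply, dl_apply]
  have h1 := GF_eqn (E := E) hε W 0 q
  have h2 : ∑ i, (⇑(Rp (ee d) E ε W (dl (ee d i)) + Rp (ee d) E ε W (dl (-ee d i))) :
      ZZ d → ℂ) q = ∑ i, (GF E ε W (0 + ee d i) q + GF E ε W (0 - ee d i) q) := by
    refine Finset.sum_congr rfl fun i _ => ?_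
    rw [lp.coeFn_add, Pi.add_apply, zero_add, zero_sub, GF_symm hε W (ee d i) q,
      GF_symm hε W (-ee d i) q]
    rfl
  rw [h2]
  have h3 : (Rp (ee d) E ε W (dl 0) : ZZ d → ℂ) q = GF E ε W 0 q := by
    rw [GF_symm hε W 0 q]; rfl
  rw [h3]
  have h4 : (if q = 0 then (1 : ℂ) else 0) = if (0 : ZZ d) = q then 1 else 0 := by
    by_cases h : q = 0
    · rw [if_pos h, if_pos h.symm]
    · rw [if_neg h, if_neg (Ne.symm h)]
  rw [h4]
  linear_combination h1

lemma tl_real {r D Q T2 E2 : ℝ} (hr : 0 ≤ r) (hD : 0 ≤ D) (hQ : 0 ≤ Q) (hT : 0 < T2)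
    (hE : 0 < E2) (hTE : T2 ≤ E2) (h : r ^ 2 * E2 ≤ 8 + 16 * D * Q) :
    r ^ 2 ≤ 8 * (1 / E2) + 16 * D / T2 * Q := by
  have h8 : r ^ 2 ≤ (8 + 16 * D * Q) / E2 := by
    rw [le_div_iff₀ hE]; exact h
  refine h8.trans ?_
  rw [add_div]
  refine add_le_add (le_of_eq (by ring)) ?_
  rw [div_mul_eq_mul_div]
  exact div_le_div_of_nonneg_left (by positivity) hT hTE

lemma tl_bound {E ε T : ℝ} (hε : 0 < ε) (hT : 0 < T) (hTd : 8 * (d : ℝ) ≤ T) (hE : T < |E|)
    (W : ZZ d → ℝ) (hW : |W 0| ≤ T / 4) :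
    ‖Rp (ee d) E ε W (dl 0)‖ ^ 2 ≤ 8 * (1 / E ^ 2) + 16 * d / T ^ 2 *
      ∑ i, (‖Rp (ee d) E ε W (dl (ee d i))‖ ^ 2 + ‖Rp (ee d) E ε W (dl (-ee d i))‖ ^ 2) := by
  set r := ‖Rp (ee d) E ε W (dl 0)‖ with hr
  set a : Fin d → ℝ := fun i => ‖Rp (ee d) E ε W (dl (ee d i))‖ with ha
  set b : Fin d → ℝ := fun i => ‖Rp (ee d) E ε W (dl (-ee d i))‖ with hb
  set β : ℂ := (W 0 : ℂ) + 2 * d - zp E ε with hβ
  have hβre : β.re = W 0 + 2 * d - E := by
    simp [hβ, zp]
  have hβn : |E| / 2 ≤ ‖β‖ := by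
    refine le_trans ?_ (Complex.abs_re_le_norm β)
    rw [hβre]
    have h1 : |E| ≤ |W 0 + 2 * d - E| + |W 0| + 2 * d := by
      have h2 : E = -(W 0 + 2 * d - E) + W 0 + 2 * d := by ring
      calc |E| = |-(W 0 + 2 * d - E) + W 0 + 2 * d| := by rw [← h2]
        _ ≤ |-(W 0 + 2 * d - E) + W 0| + |(2 * d : ℝ)| := abs_add_le _ _
        _ ≤ |-(W 0 + 2 * d - E)| + |W 0| + |(2 * d : ℝ)| := by
            gcongr; exact abs_add_le _ _
        _ = _ := by rw [abs_neg, abs_of_nonneg (by positivity : (0:ℝ) ≤ 2 * d)]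
    linarith
  have h1 : ‖β‖ * r ≤ 1 + ∑ i, (a i + b i) := by
    rw [hr, ← norm_smul, tl_eqn hε W]
    refine (norm_add_le _ _).trans (add_le_add (dl_norm 0).le ?_)
    refine (norm_sum_le _ _).trans (Finset.sum_le_sum fun i _ => norm_add_le _ _)
  have hr0 : 0 ≤ r := norm_nonneg _
  have hE0 : 0 < |E| := hT.trans hE
  have h2 : |E| / 2 * r ≤ 1 + ∑ i, (a i + b i) :=
    (mul_le_mul_of_nonneg_right hβn hr0).trans h1
  have h3 : (∑ i, (a i + b i)) ^ 2 ≤ 2 * d * ∑ i, (a i ^ 2 + b i ^ 2) := by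
    have h4 := sq_sum_le_card_mul_sum_sq (s := (Finset.univ : Finset (Fin d)))
      (f := fun i => a i + b i)
    rw [Finset.card_univ, Fintype.card_fin] at h4
    refine h4.trans ?_
    have h5 : ∑ i, (a i + b i) ^ 2 ≤ 2 * ∑ i, (a i ^ 2 + b i ^ 2) := by
      rw [Finset.mul_sum]
      exact Finset.sum_le_sum fun i _ => by nlinarith [sq_nonneg (a i - b i)]
    calc (d : ℝ) * ∑ i, (a i + b i) ^ 2 ≤ d * (2 * ∑ i, (a i ^ 2 + b i ^ 2)) :=
          mul_le_mul_of_nonneg_left h5 (by positivity)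
      _ = _ := by ring
  have hS0 : 0 ≤ ∑ i, (a i + b i) := Finset.sum_nonneg fun i _ => by positivity
  have hQ0 : 0 ≤ ∑ i, (a i ^ 2 + b i ^ 2) := Finset.sum_nonneg fun i _ => by positivity
  have h6 : (|E| / 2 * r) ^ 2 ≤ 2 + 4 * d * ∑ i, (a i ^ 2 + b i ^ 2) := by
    calc (|E| / 2 * r) ^ 2 ≤ (1 + ∑ i, (a i + b i)) ^ 2 :=
          pow_le_pow_left₀ (by positivity) h2 2
      _ ≤ 2 + 2 * (∑ i, (a i + b i)) ^ 2 := by nlinarith [sq_nonneg (1 - ∑ i, (a i + b i))]
      _ ≤ _ := by nlinarith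
  have h7 : r ^ 2 * E ^ 2 ≤ 8 + 16 * d * ∑ i, (a i ^ 2 + b i ^ 2) := by
    have : (|E| / 2 * r) ^ 2 = r ^ 2 * E ^ 2 / 4 := by
      rw [mul_pow, div_pow, sq_abs]; ring
    rw [this] at h6
    linarith
  have hE2 : 0 < E ^ 2 := by rw [← sq_abs]; positivity
  have hTE : T ^ 2 ≤ E ^ 2 := by rw [← sq_abs E]; exact pow_le_pow_left₀ hT.le hE.le 2
  exact tl_real hr0 (Nat.cast_nonneg d) hQ0 (pow_pos hT 2) hE2 hTE h7

lemma tl_int {T : ℝ} (hT : 0 < T) :
    ∫⁻ E in {E : ℝ | T < |E|}, ENNReal.ofReal (8 * (1 / E ^ 2)) ≤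
      ENNReal.ofReal (16 * Real.pi / T) := by
  have hms : MeasurableSet {E : ℝ | T < |E|} :=
    measurableSet_lt measurable_const continuous_abs.measurable
  have hint : Integrable (fun E : ℝ => 16 / T ^ 2 * (1 + (E / T) ^ 2)⁻¹) :=
    (integrable_inv_one_add_sq.comp_div hT.ne').const_mul _
  calc ∫⁻ E in {E : ℝ | T < |E|}, ENNReal.ofReal (8 * (1 / E ^ 2))
      ≤ ∫⁻ E in {E : ℝ | T < |E|}, ENNReal.ofReal (16 / T ^ 2 * (1 + (E / T) ^ 2)⁻¹) := by
        refine setLIntegral_mono' hms fun E hE => ?_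
        apply ENNReal.ofReal_le_ofReal
        have hE' : T < |E| := hE
        have hTE : T ^ 2 ≤ E ^ 2 := by rw [← sq_abs E]; exact pow_le_pow_left₀ hT.le hE'.le 2
        have hT2 : 0 < T ^ 2 := by positivity
        have hE2 : 0 < E ^ 2 := hT2.trans_le hTE
        have h1 : 16 / T ^ 2 * (1 + (E / T) ^ 2)⁻¹ = 16 / (T ^ 2 + E ^ 2) := by
          field_simp
        rw [h1, mul_one_div, div_le_div_iff₀ hE2 (by positivity)]
        linarith
    _ ≤ ∫⁻ E, ENNReal.ofReal (16 / T ^ 2 * (1 + (E / T) ^ 2)⁻¹) := setLIntegral_le_lintegral _ _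
    _ = ENNReal.ofReal (∫ E, 16 / T ^ 2 * (1 + (E / T) ^ 2)⁻¹) := by
        rw [ofReal_integral_eq_lintegral_ofReal hint]
        exact Eventually.of_forall fun E => by positivity
    _ ≤ ENNReal.ofReal (16 * Real.pi / T) := by
        apply ENNReal.ofReal_le_ofReal
        rw [integral_const_mul, Measure.integral_comp_div (fun x : ℝ => (1 + x ^ 2)⁻¹) T,
          integral_univ_inv_one_add_sq, abs_of_pos hT, smul_eq_mul]
        apply le_of_eq
        field_simp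

lemma tl_meas {ε : ℝ} (hε : 0 < ε) (x : ZZ d) :
    Measurable (Function.uncurry fun (E : ℝ) (W : ZZ d → ℝ) =>
      ENNReal.ofReal (‖Rp (ee d) E ε W (dl x)‖ ^ 2)) :=
  (((Rp_ME (ee d) hε).sm (dl x)).norm.pow 2).measurable.ennreal_ofReal

lemma tl_meas1 {ε : ℝ} (hε : 0 < ε) (x : ZZ d) (W : ZZ d → ℝ) :
    Measurable (fun (E : ℝ) => ENNReal.ofReal (‖Rp (ee d) E ε W (dl x)‖ ^ 2)) :=
  Measurable.of_uncurry_right (tl_meas hε x)

lemma tl_planch {ε : ℝ} (hε : 0 < ε) (x : ZZ d) (W : ZZ d → ℝ) :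
    ∫⁻ E : ℝ, ENNReal.ofReal (‖Rp (ee d) E ε W (dl x)‖ ^ 2) = ENNReal.ofReal (Real.pi / ε) := by
  rw [Rp_plancherel (ee d) W hε, dl_norm, one_pow, mul_one]

lemma tl_near {ε T : ℝ} (hε : 0 < ε) (hT : 0 < T) (hTd : 8 * (d : ℝ) ≤ T)
    (W : ZZ d → ℝ) (hW : |W 0| ≤ T / 4) :
    ∫⁻ E in {E : ℝ | T < |E|}, ENNReal.ofReal (‖Rp (ee d) E ε W (dl 0)‖ ^ 2)
      ≤ ENNReal.ofReal (16 * Real.pi / T + 32 * d ^ 2 / T ^ 2 * (Real.pi / ε)) := by
  have hpi := Real.pi_pos
  have hms : MeasurableSet {E : ℝ | T < |E|} :=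
    measurableSet_lt measurable_const continuous_abs.measurable
  have hm : ∀ i : Fin d, Measurable (fun E : ℝ =>
      ENNReal.ofReal (‖Rp (ee d) E ε W (dl (ee d i))‖ ^ 2)
        + ENNReal.ofReal (‖Rp (ee d) E ε W (dl (-ee d i))‖ ^ 2)) := fun i =>
    (tl_meas1 hε _ W).add (tl_meas1 hε _ W)
  calc ∫⁻ E in {E : ℝ | T < |E|}, ENNReal.ofReal (‖Rp (ee d) E ε W (dl 0)‖ ^ 2)
      ≤ ∫⁻ E in {E : ℝ | T < |E|}, (ENNReal.ofReal (8 * (1 / E ^ 2)) +
          ENNReal.ofReal (16 * d / T ^ 2) *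
          ∑ i, (ENNReal.ofReal (‖Rp (ee d) E ε W (dl (ee d i))‖ ^ 2)
            + ENNReal.ofReal (‖Rp (ee d) E ε W (dl (-ee d i))‖ ^ 2))) := by
        refine setLIntegral_mono' hms fun E hE => ?_
        have h1 := ENNReal.ofReal_le_ofReal (tl_bound hε hT hTd hE W hW)
        refine h1.trans (le_of_eq ?_)
        rw [ENNReal.ofReal_add (by positivity) (by positivity),
          ENNReal.ofReal_mul (by positivity : (0:ℝ) ≤ 16 * d / T ^ 2),
          ENNReal.ofReal_sum_of_nonneg (fun i _ => by positivity)]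
        congr 2
        refine Finset.sum_congr rfl fun i _ => ?_
        rw [ENNReal.ofReal_add (by positivity) (by positivity)]
    _ = (∫⁻ E in {E : ℝ | T < |E|}, ENNReal.ofReal (8 * (1 / E ^ 2))) +
          ENNReal.ofReal (16 * d / T ^ 2) *
          ∑ i : Fin d, ((∫⁻ E in {E : ℝ | T < |E|},
              ENNReal.ofReal (‖Rp (ee d) E ε W (dl (ee d i))‖ ^ 2))
            + ∫⁻ E in {E : ℝ | T < |E|},
              ENNReal.ofReal (‖Rp (ee d) E ε W (dl (-ee d i))‖ ^ 2)) := by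
        rw [lintegral_add_left' (by fun_prop), lintegral_const_mul _ (Finset.measurable_sum _
          fun i _ => hm i), lintegral_finsetSum _ fun i _ => hm i]
        congr 2
        refine Finset.sum_congr rfl fun i _ => ?_
        rw [lintegral_add_left (tl_meas1 hε _ W)]
    _ ≤ ENNReal.ofReal (16 * Real.pi / T) + ENNReal.ofReal (16 * d / T ^ 2) *
          ∑ i : Fin d, (ENNReal.ofReal (Real.pi / ε) + ENNReal.ofReal (Real.pi / ε)) := by
        refine add_le_add (tl_int hT) (mul_le_mul_right ?_ _)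
        refine Finset.sum_le_sum fun i _ => add_le_add ?_ ?_
        · exact (setLIntegral_le_lintegral _ _).trans (tl_planch hε _ W).le
        · exact (setLIntegral_le_lintegral _ _).trans (tl_planch hε _ W).le
    _ = _ := by
        rw [Finset.sum_const, Finset.card_univ, Fintype.card_fin,
          ← ENNReal.ofReal_add (by positivity) (by positivity), nsmul_eq_mul,
          ← ENNReal.ofReal_natCast, ← ENNReal.ofReal_mul (by positivity),
          ← ENNReal.ofReal_mul (by positivity), ← ENNReal.ofReal_add (by positivity)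
          (by positivity)]
        congr 1
        ring

lemma tl_prob (μ : Measure ℝ) [IsProbabilityMeasure μ] (T : ℝ) :
    (PP (ZZ d) μ) {W | T / 4 < |W 0|} ≤ μ {x : ℝ | T / 4 ≤ |x|} := by
  have hm : MeasurableSet {x : ℝ | T / 4 ≤ |x|} :=
    measurableSet_le measurable_const continuous_abs.measurable
  have h1 := PP_cyl μ ({0} : Finset (ZZ d)) (fun _ => {x : ℝ | T / 4 ≤ |x|}) (fun _ _ => hm)
  rw [Finset.prod_singleton] at h1
  rw [← h1]
  refine measure_mono fun W hW => ?_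
  intro x hx
  rw [Finset.mem_singleton] at hx
  subst hx
  exact le_of_lt (show T / 4 < |W 0| from hW)

theorem tail : StmtTail := by
  intro μ _ C hμ d
  have hpi := Real.pi_pos
  obtain ⟨p, K0, hp, hmom⟩ := hμ.mom
  set q : ℝ := min p 1 with hq
  have hq0 : 0 < q := lt_min hp one_pos
  have hq1 : q ≤ 1 := min_le_right _ _
  have hqp : q ≤ p := min_le_left _ _
  set T0 : ℝ := 8 * d + 4 with hT0
  have hT04 : 4 ≤ T0 := by rw [hT0]; have : (0:ℝ) ≤ d := Nat.cast_nonneg d; linarith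
  set K : ℝ := Real.pi * T0 + 16 * Real.pi + 32 * d ^ 2 * Real.pi
    + Real.pi * (|K0| * 4 ^ p) with hK
  have hKpos : 0 < K := by positivity
  refine ⟨q, K, hq0, hKpos, fun T ε hT hε hε1 => ?_⟩
  have hT' : 0 < T := by linarith
  have hTq : 0 < T ^ (-q) := Real.rpow_pos_of_pos hT' _
  -- swap
  have hswap : ∫⁻ E in {E : ℝ | T < |E|}, QQ μ d E ε
      = ∫⁻ W, (∫⁻ E in {E : ℝ | T < |E|}, ENNReal.ofReal (‖Rp (ee d) E ε W (dl 0)‖ ^ 2))
        ∂(PP (ZZ d) μ) := by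
    unfold QQ
    exact lintegral_lintegral_swap (tl_meas hε 0).aemeasurable
  rw [hswap]
  have hall : ∀ W : ZZ d → ℝ,
      ∫⁻ E in {E : ℝ | T < |E|}, ENNReal.ofReal (‖Rp (ee d) E ε W (dl 0)‖ ^ 2)
        ≤ ENNReal.ofReal (Real.pi / ε) := fun W =>
    (setLIntegral_le_lintegral _ _).trans (tl_planch hε _ W).le
  by_cases hTT : T < T0
  · refine (lintegral_mono hall).trans ?_
    rw [lintegral_const, measure_univ, mul_one]
    apply ENNReal.ofReal_le_ofReal
    rw [div_le_div_iff_of_pos_right hε]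
    have h1 : T0⁻¹ ≤ T ^ (-q) := by
      calc T0⁻¹ ≤ T⁻¹ := inv_anti₀ hT' hTT.le
        _ = T ^ (-1 : ℝ) := by rw [Real.rpow_neg_one]
        _ ≤ T ^ (-q) := Real.rpow_le_rpow_of_exponent_le hT (by linarith)
    have hT00 : 0 < T0 := by linarith
    calc Real.pi = Real.pi * T0 * T0⁻¹ := by field_simp
      _ ≤ K * T ^ (-q) := by
          refine mul_le_mul ?_ h1 (by positivity) hKpos.le
          have h2 : 0 ≤ 16 * Real.pi + 32 * d ^ 2 * Real.pi + Real.pi * (|K0| * 4 ^ p) := by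
            positivity
          linarith
  · rw [not_lt] at hTT
    have hd0 : (0:ℝ) ≤ d := Nat.cast_nonneg d
    have hTd : 8 * (d : ℝ) ≤ T := by linarith
    have hm : MeasurableSet {W : ZZ d → ℝ | T / 4 < |W 0|} :=
      measurableSet_lt measurable_const ((measurable_pi_apply 0).abs)
    have hsplit : ∀ W : ZZ d → ℝ,
        ∫⁻ E in {E : ℝ | T < |E|}, ENNReal.ofReal (‖Rp (ee d) E ε W (dl 0)‖ ^ 2)
          ≤ ENNReal.ofReal (16 * Real.pi / T + 32 * d ^ 2 / T ^ 2 * (Real.pi / ε))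
            + ({W : ZZ d → ℝ | T / 4 < |W 0|}.indicator (fun _ => ENNReal.ofReal (Real.pi / ε))) W := by
      intro W
      by_cases hW : T / 4 < |W 0|
      · rw [Set.indicator_of_mem (show W ∈ {W : ZZ d → ℝ | T / 4 < |W 0|} from hW)]
        exact (hall W).trans le_add_self
      · exact (tl_near hε hT' hTd W (not_lt.1 hW)).trans le_self_add
    refine (lintegral_mono hsplit).trans ?_
    rw [lintegral_add_left measurable_const, lintegral_const, measure_univ, mul_one,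
      lintegral_indicator_const hm]
    have h1 : (PP (ZZ d) μ) {W | T / 4 < |W 0|} ≤ ENNReal.ofReal (|K0| * (4 ^ p * T ^ (-q))) := by
      refine (tl_prob μ T).trans ((hmom (T / 4) (by linarith)).trans ?_)
      apply ENNReal.ofReal_le_ofReal
      have h2 : (T / 4) ^ (-p) = 4 ^ p * T ^ (-p) := by
        rw [Real.div_rpow hT'.le (by norm_num), Real.rpow_neg (by norm_num : (0:ℝ) ≤ 4)]
        field_simp
      rw [h2]
      refine mul_le_mul (le_abs_self _) ?_ (by positivity) (abs_nonneg _)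
      refine mul_le_mul_of_nonneg_left ?_ (by positivity)
      exact Real.rpow_le_rpow_of_exponent_le hT (by linarith)
    refine (add_le_add le_rfl (mul_le_mul_right h1 _)).trans ?_
    rw [← ENNReal.ofReal_mul (by positivity), ← ENNReal.ofReal_add (by positivity) (by positivity)]
    apply ENNReal.ofReal_le_ofReal
    have hT1 : T⁻¹ ≤ T ^ (-q) := by
      rw [← Real.rpow_neg_one]
      exact Real.rpow_le_rpow_of_exponent_le hT (by linarith)
    have hT2 : (T ^ 2)⁻¹ ≤ T ^ (-q) := by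
      refine le_trans ?_ hT1
      apply inv_anti₀ hT'
      nlinarith
    have hε2 : 1 ≤ 1 / ε := by rw [le_div_iff₀ hε]; linarith
    have e1 : 16 * Real.pi / T ≤ 16 * Real.pi * T ^ (-q) / ε := by
      rw [div_eq_mul_inv, div_eq_mul_inv]
      calc 16 * Real.pi * T⁻¹ ≤ 16 * Real.pi * T ^ (-q) :=
            mul_le_mul_of_nonneg_left hT1 (by positivity)
        _ = 16 * Real.pi * T ^ (-q) * 1 := by ring
        _ ≤ 16 * Real.pi * T ^ (-q) * ε⁻¹ := by
            refine mul_le_mul_of_nonneg_left ?_ (by positivity)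
            rw [one_div] at hε2; exact hε2
    have e2 : 32 * d ^ 2 / T ^ 2 * (Real.pi / ε) ≤ 32 * d ^ 2 * Real.pi * T ^ (-q) / ε := by
      have : 32 * (d:ℝ) ^ 2 / T ^ 2 * (Real.pi / ε) = 32 * d ^ 2 * Real.pi * (T ^ 2)⁻¹ / ε := by
        field_simp
      rw [this]
      refine div_le_div_of_nonneg_right ?_ hε.le
      exact mul_le_mul_of_nonneg_left hT2 (by positivity)
    have e3 : Real.pi / ε * (|K0| * (4 ^ p * T ^ (-q))) =
        Real.pi * (|K0| * 4 ^ p) * T ^ (-q) / ε := by ring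
    have e4 : 0 ≤ Real.pi * T0 * T ^ (-q) / ε := by positivity
    have e5 : K * T ^ (-q) / ε = Real.pi * T0 * T ^ (-q) / ε + 16 * Real.pi * T ^ (-q) / ε
        + 32 * d ^ 2 * Real.pi * T ^ (-q) / ε + Real.pi * (|K0| * 4 ^ p) * T ^ (-q) / ε := by
      rw [hK]; ring
    rw [e5, e3]
    linarith

end Pool.SU
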