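import Mathlib
import Pool.Agent.SU.FDefs
import Pool.Agent.SU.Green
import Pool.Agent.SU.OneSite

/-!
# F3: the dichotomy at the maximum of the weighted row
-/

set_option autoImplicit false
set_option linter.unusedSectionVars false
set_option linter.unusedVariables false

open Complex MeasureTheory Filter Topology Set ContinuousLinearMap
open scoped InnerProductSpace ENNReal NNReal

namespace Pool.SU

open Pool.NB Pool.SB

variable {d : ℕ}

/-- a bounded function times `τ ^ (2 * n1 x)` attains its supremum if it is somewhere positive -/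
lemma trf_max {F : ZZ d → ℝ} {B τ g : ℝ} (hτ0 : 0 < τ) (hτ1 : τ < 1) (hB : ∀ x, F x ≤ B)
    (hB0 : 0 ≤ B) (hg : 0 < g) {x0 : ZZ d} (hx0 : g ≤ F x0 * τ ^ (2 * n1 x0)) :
    ∃ q, ∀ x, F x * τ ^ (2 * n1 x) ≤ F q * τ ^ (2 * n1 q) := by
  obtain ⟨L, hL⟩ : ∃ L : ℕ, B * τ ^ L < g := by
    rcases hB0.eq_or_lt with h | h
    · exact ⟨0, by rw [← h]; simpa using hg⟩
    · obtain ⟨L, hL⟩ := exists_pow_lt_of_lt_one (div_pos hg h) hτ1
      refine ⟨L, ?_⟩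
      rw [lt_div_iff₀ h] at hL
      linarith [mul_comm B (τ ^ L)]
  have hout : ∀ x : ZZ d, L < n1 x → F x * τ ^ (2 * n1 x) < g := by
    intro x hx
    refine lt_of_le_of_lt ?_ hL
    have h1 : τ ^ (2 * n1 x) ≤ τ ^ L := pow_le_pow_of_le_one hτ0.le hτ1.le (by omega)
    calc F x * τ ^ (2 * n1 x) ≤ B * τ ^ (2 * n1 x) :=
          mul_le_mul_of_nonneg_right (hB x) (pow_pos hτ0 _).le
      _ ≤ B * τ ^ L := mul_le_mul_of_nonneg_left h1 hB0
  obtain ⟨q, hq, hmax⟩ := (ball d L).exists_max_image (fun x => F x * τ ^ (2 * n1 x))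
    ⟨0, zero_mem_ball L⟩
  have hx0L : x0 ∈ ball d L := by
    rw [mem_ball]
    by_contra hcon
    exact absurd hx0 (not_le.mpr (hout x0 (not_le.mp hcon)))
  refine ⟨q, fun x => ?_⟩
  by_cases hx : n1 x ≤ L
  · exact hmax x (mem_ball.mpr hx)
  · exact ((hout x (not_le.mp hx)).le.trans hx0).trans (hmax x0 hx0L)

/-- the equation at `x`: bound of `|W x| * ‖GF x 0‖` if the neighbours are bounded by `m` -/
lemma trf_eqn {E E1 ε : ℝ} (hE : |E| ≤ E1) (hε : 0 < ε) (hε1 : ε ≤ 1) (W : ZZ d → ℝ) (x : ZZ d)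
    {m : ℝ} (hm : ∀ i, ‖GF E ε W (x + ee d i) 0‖ ≤ m ∧ ‖GF E ε W (x - ee d i) 0‖ ≤ m) :
    |W x| * ‖GF E ε W x 0‖ ≤ 1 + 2 * d * m + (2 * d + E1 + 1) * ‖GF E ε W x 0‖ := by
  set f : ZZ d → ℂ := fun y => GF E ε W y 0 with hf
  have heq := GF_eqn (E := E) hε W x 0
  have h1 : (W x : ℂ) * f x = ((if x = 0 then 1 else 0 : ℂ))
      + ∑ i, (f (x + ee d i) + f (x - ee d i)) - (2 * d - zp E ε) * f x := by
    rw [← heq]
    simp only [hf]
    ring
  have h2 : ‖(W x : ℂ) * f x‖ = |W x| * ‖f x‖ := by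
    rw [norm_mul, Complex.norm_real, Real.norm_eq_abs]
  have h3 : ‖((if x = 0 then 1 else 0 : ℂ))‖ ≤ 1 := by
    split_ifs <;> simp
  have h4 : ‖∑ i, (f (x + ee d i) + f (x - ee d i))‖ ≤ 2 * d * m := by
    refine (norm_sum_le _ _).trans ?_
    refine (Finset.sum_le_sum (fun i _ => (norm_add_le _ _).trans
      (add_le_add (hm i).1 (hm i).2))).trans ?_
    rw [Finset.sum_const, Finset.card_univ, Fintype.card_fin, nsmul_eq_mul]
    apply le_of_eq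
    ring
  have h5 : ‖(2 * d - zp E ε : ℂ)‖ ≤ 2 * d + E1 + 1 := by
    unfold zp
    have e1 : (2 * d - ((E : ℂ) + (ε : ℂ) * I)) = ((2 * d - E : ℝ) : ℂ) - (ε : ℂ) * I := by
      push_cast; ring
    rw [e1]
    refine (norm_sub_le _ _).trans ?_
    rw [norm_mul, Complex.norm_real, Complex.norm_real, Complex.norm_I, mul_one,
      Real.norm_eq_abs, Real.norm_eq_abs, abs_of_pos hε]
    have e2 : |(2 * d - E : ℝ)| ≤ 2 * d + |E| := by
      refine (abs_sub _ _).trans ?_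
      rw [abs_of_nonneg (show (0:ℝ) ≤ 2 * d by positivity)]
    linarith
  have h6 : ‖(2 * d - zp E ε) * f x‖ ≤ (2 * d + E1 + 1) * ‖f x‖ := by
    rw [norm_mul]
    exact mul_le_mul_of_nonneg_right h5 (norm_nonneg _)
  rw [← h2, h1]
  calc _ ≤ ‖((if x = 0 then 1 else 0 : ℂ)) + ∑ i, (f (x + ee d i) + f (x - ee d i))‖
        + ‖(2 * d - zp E ε) * f x‖ := norm_sub_le _ _
    _ ≤ (‖((if x = 0 then 1 else 0 : ℂ))‖ + ‖∑ i, (f (x + ee d i) + f (x - ee d i))‖)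
        + ‖(2 * d - zp E ε) * f x‖ := add_le_add (norm_add_le _ _) le_rfl
    _ ≤ _ := add_le_add (add_le_add h3 h4) h6

theorem triF : StmtTriF := by
  intro d hd E1 τ hE1 hτ0 hτ1
  set B1 : ℝ := 1 + 2 * d * (1 / τ ^ 2) + (2 * d + E1 + 1) with hB1
  have hd0 : (0:ℝ) ≤ 2 * d := by positivity
  have hτ2 : 0 < 1 / τ ^ 2 := by positivity
  have hB1' : 1 ≤ B1 := by
    have : 0 ≤ 2 * d * (1 / τ ^ 2) := by positivity
    linarith
  refine ⟨B1 + 1, by linarith, ?_⟩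
  intro R g hR hRg E ε hE hε hε1 W hres
  have hg1 : 1 ≤ g := hR.trans hRg
  have hg0 : 0 < g := by linarith
  obtain ⟨x0, hx0⟩ := hres
  obtain ⟨q, hq⟩ := trf_max (F := fun x => ‖GF E ε W 0 x‖) hτ0 hτ1
    (fun x => GF_norm_le hε W 0 x) (by positivity) hg0 hx0
  set M : ℝ := ‖GF E ε W 0 q‖ * τ ^ (2 * n1 q) with hM
  have hgM : g ≤ M := hx0.trans (hq x0)
  have hM1 : 1 ≤ M := hg1.trans hgM
  have h00 : ‖GF E ε W 0 0‖ ≤ M := by
    have := hq 0
    rwa [n1_zero, mul_zero, pow_zero, mul_one] at this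
  have hτ1q : τ ^ (n1 q) ≤ 1 := pow_le_one₀ hτ0.le hτ1.le
  have hτ2q : τ ^ (2 * n1 q) ≤ 1 := pow_le_one₀ hτ0.le hτ1.le
  have hfq := norm_nonneg (GF E ε W 0 q)
  have hMf : M ≤ ‖GF E ε W 0 q‖ := mul_le_of_le_one_right hfq hτ2q
  have hf1 : 1 ≤ ‖GF E ε W 0 q‖ := hM1.trans hMf
  -- neighbours of `q`
  have hnb : ∀ y : ZZ d, n1 y ≤ n1 q + 1 → ‖GF E ε W y 0‖ ≤ 1 / τ ^ 2 * ‖GF E ε W 0 q‖ := by
    intro y hy
    rw [GF_symm hε]
    have h1 : ‖GF E ε W 0 y‖ * τ ^ (2 * n1 y) ≤ ‖GF E ε W 0 q‖ * τ ^ (2 * n1 q) := hq y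
    have h2 : τ ^ (2 * n1 q + 2) ≤ τ ^ (2 * n1 y) :=
      pow_le_pow_of_le_one hτ0.le hτ1.le (by omega)
    have h3 : ‖GF E ε W 0 y‖ * τ ^ (2 * n1 q + 2) ≤ ‖GF E ε W 0 q‖ * τ ^ (2 * n1 q) :=
      (mul_le_mul_of_nonneg_left h2 (norm_nonneg _)).trans h1
    rw [pow_add] at h3
    have h4 : (‖GF E ε W 0 y‖ * τ ^ 2) * τ ^ (2 * n1 q) ≤ ‖GF E ε W 0 q‖ * τ ^ (2 * n1 q) := by
      calc _ = ‖GF E ε W 0 y‖ * (τ ^ (2 * n1 q) * τ ^ 2) := by ring
        _ ≤ _ := h3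
    have h5 := le_of_mul_le_mul_right h4 (pow_pos hτ0 _)
    rw [one_div, inv_mul_eq_div, le_div_iff₀ (by positivity)]
    exact h5
  have hWq : |W q| ≤ B1 := by
    have h1 := trf_eqn hE hε hε1 W q (m := 1 / τ ^ 2 * ‖GF E ε W 0 q‖) fun i =>
      ⟨hnb _ ((n1_add _ _).trans (by rw [n1_ee])),
        hnb _ (by rw [sub_eq_add_neg]; exact (n1_add _ _).trans (by rw [n1_neg, n1_ee]))⟩
    rw [GF_symm hε W q 0] at h1
    have h2 : |W q| * ‖GF E ε W 0 q‖ ≤ B1 * ‖GF E ε W 0 q‖ := by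
      refine h1.trans ?_
      rw [hB1]
      nlinarith
    exact le_of_mul_le_mul_right h2 (by linarith)
  -- neighbours of `0`
  have hW0 : |W 0| * ‖GF E ε W 0 0‖ ≤ B1 * ‖GF E ε W 0 q‖ := by
    have hnb0 : ∀ y : ZZ d, n1 y ≤ 1 → ‖GF E ε W y 0‖ ≤ 1 / τ ^ 2 * M := by
      intro y hy
      rw [GF_symm hε]
      have h1 : ‖GF E ε W 0 y‖ * τ ^ (2 * n1 y) ≤ M := hq y
      have h2 : τ ^ 2 ≤ τ ^ (2 * n1 y) := pow_le_pow_of_le_one hτ0.le hτ1.le (by omega)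
      have h3 : ‖GF E ε W 0 y‖ * τ ^ 2 ≤ M :=
        (mul_le_mul_of_nonneg_left h2 (norm_nonneg _)).trans h1
      rw [one_div, inv_mul_eq_div, le_div_iff₀ (by positivity)]
      exact h3
    have h1 := trf_eqn hE hε hε1 W 0 (m := 1 / τ ^ 2 * M) fun i =>
      ⟨hnb0 _ (by rw [zero_add, n1_ee]), hnb0 _ (by rw [zero_sub, n1_neg, n1_ee])⟩
    have h2 : (2 * d + E1 + 1) * ‖GF E ε W 0 0‖ ≤ (2 * d + E1 + 1) * M :=
      mul_le_mul_of_nonneg_left h00 (by linarith)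
    have h3 : |W 0| * ‖GF E ε W 0 0‖ ≤ B1 * M := by
      rw [hB1]
      nlinarith
    exact h3.trans (mul_le_mul_of_nonneg_left hMf (by linarith))
  by_cases hA : R * τ ^ (n1 q) * ‖GF E ε W q q‖ < ‖GF E ε W 0 q‖
  · left
    refine ⟨q, ?_, hA, h00, hgM, by linarith, hW0.trans ?_⟩
    · rintro rfl
      rw [n1_zero, pow_zero, mul_one] at hA
      have := norm_nonneg (GF E ε W 0 0)
      nlinarith
    · exact mul_le_mul_of_nonneg_right (by linarith) hfq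
  · right
    rw [not_lt] at hA
    have hGq : 0 < ‖GF E ε W q q‖ := norm_pos_iff.mpr (GF_ne hε W q)
    have hinv : ‖(GF E ε W q q)⁻¹‖ ≤ 1 := by
      rw [norm_inv]
      refine inv_le_one_of_one_le₀ ?_
      by_contra hcon
      push Not at hcon
      have h1 : R * τ ^ (n1 q) * ‖GF E ε W q q‖ ≤ R * ‖GF E ε W q q‖ :=
        mul_le_mul_of_nonneg_right (mul_le_of_le_one_right (by linarith) hτ1q) hGq.le
      have h2 : R * ‖GF E ε W q q‖ < R := by nlinarith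
      linarith
    have hwn : ‖wv E ε W q‖ ≤ B1 + 1 := by
      unfold wv
      refine (norm_sub_le _ _).trans ?_
      rw [Complex.norm_real, Real.norm_eq_abs]
      linarith
    have him : 0 < (wv E ε W q).im := hε.trans_le (wv_im hε W q)
    have hre := (Complex.abs_re_le_norm (wv E ε W q)).trans hwn
    rw [abs_le] at hre
    have hmul : 0 ≤ (B1 + 1) * (wv E ε W q).im := mul_nonneg (by linarith) him.le
    refine ⟨q, hA, by rw [one_mul]; exact hgM, him, hwn, by linarith, by linarith⟩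

end Pool.SU
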