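import Mathlib
import Pool.Agent.SU.FDefs
import Pool.Agent.SU.Mass
import Pool.Agent.SU.SingleF
import Pool.Agent.SU.P1F
import Pool.Agent.SU.TriF
import Pool.Agent.SU.EstPF
import Pool.Agent.SU.EstGF
import Pool.Agent.SU.P2F
import Pool.Agent.SU.GoodF
import Pool.Agent.SU.RemezF
import Pool.Agent.SU.DiagF
import Pool.Agent.SU.FixedF
import Pool.Agent.SU.Dec
import Pool.Agent.SU.FM
import Pool.Agent.SU.High
import Pool.Agent.SU.Tail
import Pool.Agent.SU.NIF
import Pool.Agent.SU.SMF

/-!
# Assembly, full support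
-/

namespace Pool.SU

theorem stmtP1F' : StmtP1F := P1F_of singleF

theorem stmtP2F' : StmtP2F := P2F_of stmtP1F' mass triF estPF estGF

theorem stmtFixedF' : StmtFixedF := fixedF_of stmtP1F' stmtP2F' goodF remezF diagF offF

theorem stmtSMF' : StmtSMF := SMF_of (NIF_of stmtFixedF' (high_of (fm_of dec) mass) tail)

end Pool.SU
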