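import Mathlib
import Pool.Agent.SU.Defs

/-!
# Scaling of the law
-/

set_option autoImplicit false

open MeasureTheory Set
open scoped ENNReal

namespace Pool.SU

/-- the law of `lam * ω` is comparable to a uniform law -/
lemma uni_map (ρ : ℝ → ℝ) (a b c C : ℝ) (hab : a < b) (hc : 0 < c)
    (h1 : ∀ x, a ≤ x → x ≤ b → c ≤ ρ x ∧ ρ x ≤ C) (h2 : ∀ x, x < a ∨ b < x → ρ x = 0)
    (lam : ℝ) (hlam : lam ≠ 0) :
    ∃ a' b' c' C' : ℝ, Uni ((volume.withDensity fun x => ENNReal.ofReal (ρ x)).map
      (fun x => lam * x)) a' b' c' C' := by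
  have hml : Measurable (fun x : ℝ => lam * x) := measurable_const_mul lam
  obtain ⟨a', b', hab', hpre⟩ : ∃ a' b' : ℝ, a' < b' ∧
      (fun x : ℝ => lam * x) ⁻¹' (Icc a' b') = Icc a b := by
    rcases lt_or_gt_of_ne hlam with h | h
    · refine ⟨lam * b, lam * a, mul_lt_mul_of_neg_left hab h, ?_⟩
      ext x
      simp only [mem_preimage, mem_Icc]
      rw [mul_le_mul_left_of_neg h, mul_le_mul_left_of_neg h]
      exact and_comm
    · refine ⟨lam * a, lam * b, mul_lt_mul_of_pos_left hab h, ?_⟩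
      ext x
      simp only [mem_preimage, mem_Icc]
      rw [mul_le_mul_iff_right₀ h, mul_le_mul_iff_right₀ h]
  have hC : 0 < C := lt_of_lt_of_le hc ((h1 a le_rfl hab.le).1.trans (h1 a le_rfl hab.le).2)
  have hl : 0 < |lam| := abs_pos.mpr hlam
  have hvol : ∀ A : Set ℝ, volume ((fun x : ℝ => lam * x) ⁻¹' A ∩ Icc a b)
      = ENNReal.ofReal |lam⁻¹| * volume (A ∩ Icc a' b') := by
    intro A
    rw [← hpre, ← preimage_inter]
    exact Real.volume_preimage_mul_left hlam _
  have hval : ∀ A : Set ℝ, MeasurableSet A →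
      ((volume.withDensity fun x => ENNReal.ofReal (ρ x)).map (fun x => lam * x)) A
        = ∫⁻ x in (fun x : ℝ => lam * x) ⁻¹' A ∩ Icc a b, ENNReal.ofReal (ρ x) := by
    intro A hA
    rw [Measure.map_apply hml hA, withDensity_apply _ (hml hA), inter_comm,
      ← Measure.restrict_restrict measurableSet_Icc]
    rw [← lintegral_indicator measurableSet_Icc]
    refine lintegral_congr fun x => ?_
    by_cases hx : x ∈ Icc a b
    · rw [indicator_of_mem hx]
    · rw [indicator_of_notMem hx]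
      rw [mem_Icc, not_and_or, not_le, not_le] at hx
      rw [h2 x hx, ENNReal.ofReal_zero]
  refine ⟨a', b', c * |lam⁻¹|, C * |lam⁻¹|, hab', by positivity, fun A hA => ?_, fun A hA => ?_⟩
  · rw [hval A hA, ENNReal.ofReal_mul hc.le, mul_assoc, ← hvol, ← setLIntegral_const]
    refine setLIntegral_mono' ((hml hA).inter measurableSet_Icc) fun x hx => ?_
    exact ENNReal.ofReal_le_ofReal (h1 x hx.2.1 hx.2.2).1
  · rw [hval A hA, ENNReal.ofReal_mul hC.le, mul_assoc, ← hvol, ← setLIntegral_const]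
    refine setLIntegral_mono' ((hml hA).inter measurableSet_Icc) fun x hx => ?_
    exact ENNReal.ofReal_le_ofReal (h1 x hx.2.1 hx.2.2).2

end Pool.SU
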