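import Mathlib
import Pool.Agent.SU.Base

/-!
# Module A20: all bounded energies
-/

set_option autoImplicit false
set_option linter.unusedSectionVars false
set_option linter.unusedVariables false

open Complex MeasureTheory Filter Topology Set ContinuousLinearMap
open scoped InnerProductSpace ENNReal NNReal

namespace Pool.SU

open Pool.NB Pool.SB

variable {d : ℕ}

/-- absorption -/
theorem fixed_absorb {M S Q : ℝ≥0∞} {K2 K3 : ℝ} (hM : M ≠ ∞) (hQ : Q ≠ ∞) (h2 : 0 < K2)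
    (h3 : 0 < K3)
    (h : M ≤ (ENNReal.ofReal (1 / 4) * (M + Q) + ENNReal.ofReal K2 * (S + Q))
      + (ENNReal.ofReal (1 / 4) * M + ENNReal.ofReal K3 * (Q + 1))) :
    M ≤ ENNReal.ofReal (2 * (1 / 4 + K2 + K3)) * (S + Q + 1) := by
  by_cases hS : S = ∞
  · rw [hS, top_add, top_add, ENNReal.mul_top]
    · exact le_top
    · rw [Ne, ENNReal.ofReal_eq_zero, not_le]
      positivity
  · lift M to ℝ≥0 using hM
    lift S to ℝ≥0 using hS
    lift Q to ℝ≥0 using hQ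
    have e1 : ENNReal.ofReal (1 / 4) = ((Real.toNNReal (1 / 4) : ℝ≥0) : ℝ≥0∞) := rfl
    have e2 : ENNReal.ofReal K2 = ((Real.toNNReal K2 : ℝ≥0) : ℝ≥0∞) := rfl
    have e3 : ENNReal.ofReal K3 = ((Real.toNNReal K3 : ℝ≥0) : ℝ≥0∞) := rfl
    have e4 : ENNReal.ofReal (2 * (1 / 4 + K2 + K3)) =
      ((Real.toNNReal (2 * (1 / 4 + K2 + K3)) : ℝ≥0) : ℝ≥0∞) := rfl
    rw [e1, e2, e3] at h
    rw [e4]
    norm_cast at h ⊢
    rw [← NNReal.coe_le_coe] at h ⊢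
    push_cast at h ⊢
    rw [Real.coe_toNNReal _ (by positivity), Real.coe_toNNReal _ h2.le,
      Real.coe_toNNReal _ h3.le] at h
    rw [Real.coe_toNNReal _ (by positivity)]
    have m0 : (0 : ℝ) ≤ M := M.2
    have s0 : (0 : ℝ) ≤ S := S.2
    have q0 : (0 : ℝ) ≤ Q := Q.2
    have p1 : 0 ≤ K2 * (S : ℝ) := by positivity
    have p2 : 0 ≤ K3 * (S : ℝ) := by positivity
    nlinarith

/-- energies in a compact set of interior energies -/
theorem fixed_compact (hB : StmtBulk) (μ : Measure ℝ) [IsProbabilityMeasure μ] (a b c C : ℝ)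
    (hμ : Uni μ a b c C) (hd : 0 < d) (X : ZZ d →+ ℝ) (s : Set ℝ) (hs : IsCompact s)
    (hi : ∀ E ∈ s, a < E ∧ E < 4 * d + b) :
    ∃ K ε0 : ℝ, 0 < K ∧ 0 < ε0 ∧ ε0 ≤ 1 ∧ ∀ E ∈ s, ∀ ε : ℝ, 0 < ε → ε ≤ ε0 →
      MM μ X E ε ≤ ENNReal.ofReal K * (SE μ X E ε + QQ μ d E ε) := by
  refine hs.induction_on (p := fun s => ∃ K ε0 : ℝ, 0 < K ∧ 0 < ε0 ∧ ε0 ≤ 1 ∧ ∀ E ∈ s,
    ∀ ε : ℝ, 0 < ε → ε ≤ ε0 →
      MM μ X E ε ≤ ENNReal.ofReal K * (SE μ X E ε + QQ μ d E ε)) ?_ ?_ ?_ ?_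
  · exact ⟨1, 1, one_pos, one_pos, le_rfl, fun E hE => absurd hE (Set.notMem_empty E)⟩
  · rintro s t hst ⟨K, ε0, h1, h2, h3, h4⟩
    exact ⟨K, ε0, h1, h2, h3, fun E hE => h4 E (hst hE)⟩
  · rintro s t ⟨K, ε0, h1, h2, h3, h4⟩ ⟨K', ε0', h1', h2', h3', h4'⟩
    refine ⟨max K K', min ε0 ε0', lt_max_of_lt_left h1, lt_min h2 h2',
      (min_le_left _ _).trans h3, ?_⟩
    rintro E (hE | hE) ε hε hε0
    · refine (h4 E hE ε hε (hε0.trans (min_le_left _ _))).trans ?_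
      gcongr
      exact le_max_left _ _
    · refine (h4' E hE ε hε (hε0.trans (min_le_right _ _))).trans ?_
      gcongr
      exact le_max_right _ _
  · intro E0 hE0
    obtain ⟨K, η, hK, hη, hη1, h⟩ := hB μ a b c C hμ d hd X E0 (hi E0 hE0).1 (hi E0 hE0).2
    refine ⟨Metric.closedBall E0 η, mem_nhdsWithin_of_mem_nhds (Metric.closedBall_mem_nhds E0 hη),
      K, η, hK, hη, hη1, ?_⟩
    intro E hE ε hε hε0
    rw [Metric.mem_closedBall, Real.dist_eq] at hE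
    exact h E ε hE hε hε0

theorem fixed_of (h2 : StmtP2) (hE : StmtEdge) (hB : StmtBulk) : StmtFixed := by
  intro μ _ a b c C hμ d hd X E1 hE1
  obtain ⟨τ, hτ0, hτ1, hedge⟩ := hE d hd
  obtain ⟨g, hg, K2, hK2, hres⟩ := h2 μ a b c C hμ d hd X E1 τ (1 / 4) hE1 hτ0 hτ1 (by norm_num)
  obtain ⟨η, K3, hη, hK3, hout⟩ := hedge μ a b c C hμ X g hg
  obtain ⟨K4, ε4, hK4, hε4, hε41, hin⟩ := fixed_compact hB μ a b c C hμ hd X
    (Set.Icc (a + η) (4 * d + b - η)) isCompact_Icc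
    (fun E hE => ⟨by linarith [hE.1], by linarith [hE.2]⟩)
  refine ⟨max (2 * (1 / 4 + K2 + K3)) K4, ε4, lt_max_of_lt_right hK4, hε4, hε41, ?_⟩
  intro E ε hEE hε hε0
  by_cases hcase : E ≤ a + η ∨ 4 * d + b - η ≤ E
  · have hr := hres E ε hEE hε (hε0.trans hε41)
    have ho := hout E ε hcase hε (hε0.trans hε41)
    have hsum : MM μ X E ε = ∫⁻ W in resEv E ε τ g, pv X E ε W 0 ∂(PP (ZZ d) μ)
        + ∫⁻ W in (resEv E ε τ g)ᶜ, pv X E ε W 0 ∂(PP (ZZ d) μ) := by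
      rw [lintegral_add_compl _ (resEv_meas E hε τ g), pv_int_zero μ X E hε]
    have hM := hsum.le.trans (add_le_add hr ho)
    refine (fixed_absorb (MM_ne_top μ X E hε) (QQ_ne_top μ E hε) hK2 hK3 hM).trans ?_
    gcongr
    exact le_max_left _ _
  · push Not at hcase
    refine (hin E ⟨hcase.1.le, hcase.2.le⟩ ε hε hε0).trans ?_
    refine mul_le_mul' (ENNReal.ofReal_le_ofReal (le_max_right _ _)) ?_
    exact le_self_add

end Pool.SU
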